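import Pool.Agent.Lib.H68T.DB
import Pool.Agent.Lib.H18Q.R0

/-!
# R1: small exponential sums in the power regime (the proof of `H68T/DB.lean`)
-/

open Finset Pool.Agent.Lib.H68T

namespace Pool.Agent.Lib.H18Q

/-- **Fourier uniformity.** `Y = ⌊X/Q²⌋`.

Proof. Write `S_J = ∑_{m ∈ J} lp(m) e(mθ)` for intervals `J` inside `[X/2, 5X]`. Replacing `Λ` by
`lp` in `vaughan` costs `O(√X (log X)²)` (prime powers). With `cq_eq_sum`,
`∑_{m ∈ [a,b)} Lk(m) e(mθ) = ∑_{q ≤ Q} ∑_{(α,q)=1} ∑_{|z| < Y} tent(z) e(β z) S_{[a-z,b-z)}(θ)`,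
`β = θ ± α/q` (both signs occur since the set of `α` is symmetric).
(far) If `‖β‖ ≥ 1/(2Q²)` interchange: `∑_m lp(m) e(mθ) ∑_{z} tent(z) e(βz)`, `z` in an interval;
`tent` is piecewise monotone with maximum `1/Y`, so the inner sum is `O(1/(Y‖β‖)) = O(Q²/Y)
= O(Q⁴/X)`. The total over all `(q,α)` and `m` is `O(Q^6 log X)`, negligible.
(near) At most one `α/q` has `‖β‖ < 1/(2Q²)` (two such fractions differ by at least `1/Q²`).
 Case (i): `‖β‖ ≤ Q/X` for it. `|1 - ∑ tent(z) e(βz)| ≤ 2π‖β‖Y ≤ 7/Q` (`∑ tent = 1`),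
 `|S_J - S_{J-z}| ≤ 2 Y log (5X)`, so `S_J - ∑_z tent(z) e(βz) S_{J-z} = O(X log X/Q)`.
 Case (ii): no fraction with denominator at most `Q` is within `Q/X` of `θ`. By Dirichlet there is
 `a/q`, `q ≤ X/Q`, `|θ - a/q| ≤ Q/(qX) ≤ 1/q²`; then `q > Q`, and `vaughan` (with `N = 5X`)
 gives `|S_J| ≤ C X Q^(-1/2) (log X)^10` for all `J ⊆ [X/2, 5X]` (differences of two sums starting
 anywhere). -/
theorem fourier_smallP : ∃ K : ℝ, ∀ Q X : ℕ, RegP K Q X → ∀ θ : ℝ, ∀ a b : ℤ, (X : ℤ) ≤ a →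
    b ≤ 4 * X → ‖∑ m ∈ Ico a b, ((lp m - Lk Q (X / Q ^ 2) m : ℝ) : ℂ) * e (m * θ)‖ ≤
      X * (Q : ℝ) ^ (-(1 / 4) : ℝ) := by
  obtain ⟨C, hC, hv⟩ := vaughan
  obtain ⟨K1, hK1, h1⟩ := regp_log_le (100 * (C + 1) * 3 ^ 10 + 1000) 10 (1 / 4) (by norm_num)
  obtain ⟨K2, hK2, h2⟩ := regp_pow_le 1000 9 (1 / 5) (by norm_num)
  refine ⟨max 4 (max K1 K2), fun Q X hR θ a b ha hb => ?_⟩
  have hKpos : (0 : ℝ) ≤ max 4 (max K1 K2) := le_trans (by norm_num) (le_max_left _ _)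
  have hR4 : RegP 4 Q X := hR.mono hKpos (le_max_left _ _)
  have hR1 : RegP K1 Q X := hR.mono hKpos ((le_max_left _ _).trans (le_max_right _ _))
  have hR2 : RegP K2 Q X := hR.mono hKpos ((le_max_right _ _).trans (le_max_right _ _))
  have hQ4 : (4 : ℝ) ≤ Q := hR4.Q_ge (by norm_num)
  have hQ4n : 4 ≤ Q := by exact_mod_cast hQ4
  have hX0n : 0 < X := hR4.X_pos (by norm_num)
  have hX0 : (0 : ℝ) < X := by exact_mod_cast hX0n
  have hX1 : (1 : ℝ) ≤ X := by exact_mod_cast hX0n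
  have hQ0 : (0 : ℝ) < Q := by linarith
  have hL1 : 1 ≤ Real.log X := hR4.logX_ge_one (by norm_num)
  set L := Real.log X with hL
  set w := (Q : ℝ) ^ (1 / 4 : ℝ) with hw
  have hw0 : 0 < w := Real.rpow_pos_of_pos hQ0 _
  have hw4 : w ^ 4 = Q := by
    rw [hw, ← Real.rpow_natCast, ← Real.rpow_mul hQ0.le]
    norm_num
  have hw2 : w ^ 2 = Real.sqrt Q := by
    rw [hw, ← Real.rpow_natCast, ← Real.rpow_mul hQ0.le, Real.sqrt_eq_rpow]
    norm_num
  have hwneg : (Q : ℝ) ^ (-(1 / 4) : ℝ) = 1 / w := by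
    rw [Real.rpow_neg hQ0.le, one_div w]
  have hw1 : 1 ≤ w := Real.one_le_rpow (by linarith) (by norm_num)
  have f1 := h1 Q X hR1
  have f2 := h2 Q X hR2
  rw [← hL, ← hw] at f1
  have f1' : (100 * (C + 1) * 3 ^ 10 + 1000) * L ^ 10 ≤ w := by
    have : L ^ (10 : ℝ) = L ^ 10 := by
      rw [← Real.rpow_natCast]; norm_num
    rwa [this] at f1
  have f2' : 1000 * (Q : ℝ) ^ 9 ≤ (X : ℝ) ^ (1 / 5 : ℝ) := by
    have : (Q : ℝ) ^ (9 : ℝ) = (Q : ℝ) ^ 9 := by
      rw [← Real.rpow_natCast]; norm_num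
    rwa [this] at f2
  clear f1 f2 h1 h2
  set x5 := (X : ℝ) ^ (1 / 5 : ℝ) with hx5
  have hx50 : 0 < x5 := Real.rpow_pos_of_pos hX0 _
  have hx51 : 1 ≤ x5 := Real.one_le_rpow hX1 (by norm_num)
  have hx5' : x5 ^ 5 = X := by
    rw [hx5, ← Real.rpow_natCast, ← Real.rpow_mul hX0.le]
    norm_num
  have hx5X : x5 ≤ X := by
    rw [← hx5']
    exact le_self_pow₀ hx51 (by norm_num)
  have hLw : 1000 * L ≤ w := by
    have e1 : L ≤ L ^ 10 := le_self_pow₀ hL1 (by norm_num)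
    have e2 : 0 ≤ 100 * (C + 1) * 3 ^ 10 * L ^ 10 := by positivity
    nlinarith
  -- `Q ≤ X` and `Y`
  have hQ9X : 1000 * (Q : ℝ) ^ 9 ≤ X := f2'.trans hx5X
  have hQle : ∀ n : ℕ, n ≤ 9 → (Q : ℝ) ^ n ≤ (Q : ℝ) ^ 9 := fun n hn =>
    pow_le_pow_right₀ (by linarith) hn
  set Y := X / Q ^ 2 with hY
  have hQ2 : (0 : ℝ) < (Q : ℝ) ^ 2 := by positivity
  have hYup : (Y : ℝ) ≤ X / (Q : ℝ) ^ 2 := by
    have : ((X / Q ^ 2 : ℕ) : ℝ) ≤ (X : ℝ) / ((Q ^ 2 : ℕ) : ℝ) := Nat.cast_div_le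
    rw [hY]
    push_cast at this ⊢
    exact this
  have hYlow : (X : ℝ) / (2 * (Q : ℝ) ^ 2) ≤ Y := by
    have e1 : (X : ℝ) / ((Q ^ 2 : ℕ) : ℝ) < ((X / Q ^ 2 : ℕ) : ℝ) + 1 := by
      rw [← Nat.floor_div_eq_div (K := ℝ)]
      exact Nat.lt_floor_add_one _
    rw [← hY] at e1
    push_cast at e1
    have e2 : (2 : ℝ) ≤ X / (Q : ℝ) ^ 2 := by
      rw [le_div_iff₀ hQ2]
      have := hQle 2 (by norm_num)
      nlinarith [pow_pos hQ0 9]
    have e3 : (X : ℝ) / (2 * (Q : ℝ) ^ 2) = X / (Q : ℝ) ^ 2 / 2 := by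
      field_simp
    rw [e3]
    linarith
  have hYpos : 1 ≤ Y := by
    have e2 : (1 : ℝ) ≤ X / (2 * (Q : ℝ) ^ 2) := by
      rw [le_div_iff₀ (by positivity)]
      have := hQle 2 (by norm_num)
      nlinarith [pow_pos hQ0 9]
    have : (1 : ℝ) ≤ Y := e2.trans hYlow
    exact_mod_cast this
  have hY0 : (0 : ℝ) < Y := by exact_mod_cast hYpos
  have hYX : Y + 1 ≤ X := by
    have e1 : (Y : ℝ) ≤ X / 16 := by
      refine hYup.trans ?_
      apply div_le_div_of_nonneg_left hX0.le (by norm_num)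
      nlinarith
    have e2 : (16 : ℝ) ≤ X := by
      have := hQle 0 (by norm_num)
      simp only [pow_zero] at this
      linarith
    have : (Y : ℝ) + 1 ≤ X := by linarith
    exact_mod_cast this
  rcases lt_or_ge b a with hab | hab
  · rw [Ico_eq_empty_of_le hab.le, sum_empty, norm_zero]
    positivity
  -- setup
  have haY : (Y : ℤ) + 1 ≤ a := by
    have : (Y : ℤ) + 1 ≤ X := by exact_mod_cast hYX
    omega
  set Z : ℝ := 5 * X with hZdef
  have hZ1 : 1 ≤ Z := by rw [hZdef]; linarith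
  have hYXr : (Y : ℝ) + 1 ≤ X := by exact_mod_cast hYX
  have hbr : (b : ℝ) ≤ 4 * X := by exact_mod_cast hb
  have har : (X : ℝ) ≤ a := by exact_mod_cast ha
  have hbaX : (b : ℝ) - a ≤ 3 * X := by linarith
  have hab' : (a : ℝ) ≤ b := by exact_mod_cast hab
  have hbYZ : (b : ℝ) + Y ≤ Z := by rw [hZdef]; linarith
  have hlZ : Real.log Z ≤ 3 * L := by
    rw [hZdef, Real.log_mul (by norm_num) hX0.ne']
    have e1 : Real.log 5 ≤ 2 := by
      rw [Real.log_le_iff_le_exp (by norm_num)]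
      have e2 : (1 : ℝ) + 1 ≤ Real.exp 1 := Real.add_one_le_exp 1
      have e3 : (2.7 : ℝ) < Real.exp 1 := lt_trans (by norm_num) Real.exp_one_gt_d9
      have e4 : Real.exp 2 = Real.exp 1 * Real.exp 1 := by rw [← Real.exp_add]; norm_num
      rw [e4]
      nlinarith
    linarith
  have hlZ0 : 0 ≤ Real.log Z := Real.log_nonneg hZ1
  -- decomposition
  have e0 : ∑ m ∈ Ico a b, ((lp m - Lk Q Y m : ℝ) : ℂ) * e (m * θ) =
      DB_S θ a b - ∑ x ∈ DB_P Q, DB_T θ Y a b (θ + (x.2 : ℝ) / x.1) := by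
    have e1 : ∑ x ∈ DB_P Q, DB_T θ Y a b (θ + (x.2 : ℝ) / x.1) =
        ∑ m ∈ Ico a b, (Lk Q Y m : ℂ) * e (m * θ) := by
      rw [DB_expand]
      unfold DB_P
      rw [sum_sigma]
    rw [e1]
    unfold DB_S
    rw [← sum_sub_distrib]
    refine sum_congr rfl fun m _ => ?_
    push_cast
    ring
  rw [e0, hwneg]
  -- far part
  set far : Finset (Σ _ : ℕ, ℕ) :=
    (DB_P Q).filter (fun x => ¬ nd (θ + (x.2 : ℝ) / x.1) < 1 / (2 * (Q : ℝ) ^ 2)) with hfar
  set near : Finset (Σ _ : ℕ, ℕ) :=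
    (DB_P Q).filter (fun x => nd (θ + (x.2 : ℝ) / x.1) < 1 / (2 * (Q : ℝ) ^ 2)) with hnear
  have hsplit : ∑ x ∈ DB_P Q, DB_T θ Y a b (θ + (x.2 : ℝ) / x.1) =
      ∑ x ∈ near, DB_T θ Y a b (θ + (x.2 : ℝ) / x.1) +
      ∑ x ∈ far, DB_T θ Y a b (θ + (x.2 : ℝ) / x.1) :=
    (sum_filter_add_sum_filter_not _ _ _).symm
  have hfarb : ∀ x ∈ far, ‖DB_T θ Y a b (θ + (x.2 : ℝ) / x.1)‖ ≤ 60 * (Q : ℝ) ^ 4 * L := by
    intro x hx
    rw [hfar, mem_filter] at hx
    have hnd := hx.2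
    push Not at hnd
    set β := θ + (x.2 : ℝ) / x.1 with hβ
    have g1 := DB_far θ Y hYpos a b β Z hab haY hbYZ hZ1
    have g2 := VB_four_nd_le β
    have g3 : 2 / (Q : ℝ) ^ 2 ≤ ‖e β - 1‖ := by
      refine le_trans ?_ g2
      have : 2 / (Q : ℝ) ^ 2 = 4 * (1 / (2 * (Q : ℝ) ^ 2)) := by field_simp; norm_num
      rw [this]
      linarith
    have g4 : 2 / (Q : ℝ) ^ 2 * ‖DB_T θ Y a b β‖ ≤ 4 / Y * ((b - a + 2 * Y) * Real.log Z) :=
      (mul_le_mul_of_nonneg_right g3 (norm_nonneg _)).trans g1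
    have g5 : 4 / (Y : ℝ) ≤ 8 * (Q : ℝ) ^ 2 / X := by
      rw [div_le_div_iff₀ hY0 hX0]
      rw [div_le_iff₀ (by positivity)] at hYlow
      linarith
    have g6 : ((b : ℝ) - a + 2 * Y) * Real.log Z ≤ 5 * X * (3 * L) := by
      apply mul_le_mul _ hlZ hlZ0 (by positivity)
      linarith
    have g7 : 0 ≤ ((b : ℝ) - a + 2 * Y) * Real.log Z := by
      apply mul_nonneg _ hlZ0
      linarith
    have g8 : 4 / (Y : ℝ) * ((b - a + 2 * Y) * Real.log Z) ≤
        8 * (Q : ℝ) ^ 2 / X * (5 * X * (3 * L)) :=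
      mul_le_mul g5 g6 g7 (by positivity)
    have g9 : 8 * (Q : ℝ) ^ 2 / X * (5 * X * (3 * L)) = 120 * (Q : ℝ) ^ 2 * L := by
      field_simp; ring
    have g10 : 2 / (Q : ℝ) ^ 2 * ‖DB_T θ Y a b β‖ ≤ 120 * (Q : ℝ) ^ 2 * L := by linarith
    rw [div_mul_eq_mul_div, div_le_iff₀ hQ2] at g10
    have g11 : 120 * (Q : ℝ) ^ 2 * L * (Q : ℝ) ^ 2 = 2 * (60 * (Q : ℝ) ^ 4 * L) := by ring
    linarith
  have hfartot : ‖∑ x ∈ far, DB_T θ Y a b (θ + (x.2 : ℝ) / x.1)‖ ≤ X / (4 * w) := by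
    calc _ ≤ ∑ x ∈ far, 60 * (Q : ℝ) ^ 4 * L := (norm_sum_le _ _).trans (sum_le_sum hfarb)
      _ = far.card * (60 * (Q : ℝ) ^ 4 * L) := by rw [sum_const, nsmul_eq_mul]
      _ ≤ (Q : ℝ) ^ 2 * (60 * (Q : ℝ) ^ 4 * L) := by
          apply mul_le_mul_of_nonneg_right _ (by positivity)
          refine le_trans ?_ (DB_P_card Q)
          exact_mod_cast card_filter_le _ _
      _ ≤ X / (4 * w) := by
          rw [le_div_iff₀ (by positivity)]
          have g1 : L ≤ w := by linarith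
          have g2 : w ≤ Q := by
            rw [← hw4]
            exact le_self_pow₀ hw1 (by norm_num)
          calc (Q : ℝ) ^ 2 * (60 * (Q : ℝ) ^ 4 * L) * (4 * w) =
                240 * (Q : ℝ) ^ 6 * (L * w) := by ring
            _ ≤ 240 * (Q : ℝ) ^ 6 * (Q * Q) := by
                apply mul_le_mul_of_nonneg_left _ (by positivity)
                exact mul_le_mul (g1.trans g2) g2 hw0.le hQ0.le
            _ = 240 * (Q : ℝ) ^ 8 := by ring
            _ ≤ 1000 * (Q : ℝ) ^ 9 := by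
                have := hQle 8 (by norm_num)
                nlinarith [pow_pos hQ0 8]
            _ ≤ X := hQ9X
  have hnear1 : near.card ≤ 1 := by
    rw [card_le_one]
    intro x hx y hy
    rw [hnear, mem_filter] at hx hy
    exact DB_sep Q θ x y hx.1 hy.1 hx.2 hy.2
  rw [hsplit, ← sub_sub]
  refine (norm_sub_le _ _).trans ?_
  have hmain : ‖DB_S θ a b - ∑ x ∈ near, DB_T θ Y a b (θ + (x.2 : ℝ) / x.1)‖ ≤
      X / (2 * w) := by
    by_cases hcase : ∃ x ∈ DB_P Q, nd (θ + (x.2 : ℝ) / x.1) ≤ (Q : ℝ) / X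
    · -- Case A
      obtain ⟨x, hx, hnd⟩ := hcase
      have hxn : x ∈ near := by
        rw [hnear, mem_filter]
        refine ⟨hx, lt_of_le_of_lt hnd ?_⟩
        rw [div_lt_div_iff₀ hX0 (by positivity)]
        have := hQle 3 (by norm_num)
        nlinarith [pow_pos hQ0 9]
      have hns : near = {x} := by
        rw [card_le_one] at hnear1
        ext y
        rw [mem_singleton]
        exact ⟨fun hy => hnear1 y hy x hxn, fun hy => hy ▸ hxn⟩
      rw [hns, sum_singleton]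
      set β := θ + (x.2 : ℝ) / x.1 with hβ
      refine (DB_near θ Y hYpos a b β Z hab haY hbYZ hZ1).trans ?_
      have g1 : 2 * (Y : ℝ) * Real.log Z ≤ 6 * (X / (Q : ℝ) ^ 2) * L := by
        calc 2 * (Y : ℝ) * Real.log Z ≤ 2 * (X / (Q : ℝ) ^ 2) * (3 * L) := by gcongr
          _ = _ := by ring
      have g2 : 7 * (Y : ℝ) * nd β * ((b - a) * Real.log Z) ≤
          7 * (X / (Q : ℝ) ^ 2) * (Q / X) * (3 * X * (3 * L)) := by
        have : 0 ≤ (b : ℝ) - a := by linarith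
        have hnd0 : 0 ≤ nd β := abs_nonneg _
        gcongr
      have g3 : 7 * (X / (Q : ℝ) ^ 2) * (Q / X) * (3 * X * (3 * L)) = 63 * (X / Q) * L := by
        field_simp
        ring
      have g4 : (X : ℝ) / (Q : ℝ) ^ 2 ≤ X / Q := by
        apply div_le_div_of_nonneg_left hX0.le hQ0
        nlinarith
      have g5 : 6 * (X / (Q : ℝ) ^ 2) * L ≤ 6 * (X / Q) * L := by gcongr
      have g6 : 69 * ((X : ℝ) / Q) * L ≤ X / (2 * w) := by
        rw [le_div_iff₀ (by positivity)]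
        have : 69 * ((X : ℝ) / Q) * L * (2 * w) = X * ((138 * L * w) / Q) := by
          field_simp
          ring
        rw [this]
        have h3 : 138 * L * w / Q ≤ 1 := by
          rw [div_le_one hQ0, ← hw4]
          have h4 : 138 * L * w ≤ w * w := by
            apply mul_le_mul_of_nonneg_right _ hw0.le
            linarith
          have h5 : w * w ≤ w ^ 4 := by
            have : w * w = w ^ 2 := by ring
            rw [this]
            exact pow_le_pow_right₀ hw1 (by norm_num)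
          linarith
        calc (X : ℝ) * ((138 * L * w) / Q) ≤ X * 1 := mul_le_mul_of_nonneg_left h3 hX0.le
          _ = X := mul_one _
      have g7 : 69 * ((X : ℝ) / Q) * L = 6 * (X / Q) * L + 63 * (X / Q) * L := by ring
      linarith
    · -- Case B
      push Not at hcase
      have hQX : Q ≤ X := by
        have e1 : (Q : ℝ) ≤ X := by
          have := hQle 1 (by norm_num)
          rw [pow_one] at this
          nlinarith [pow_pos hQ0 9]
        exact_mod_cast e1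
      obtain ⟨q, c, hq1, hq2, hco, hcθ⟩ := DB_dirichlet Q X (by omega) hQX θ hcase
      have hq1' : (Q : ℝ) < q := by exact_mod_cast hq1
      have hq0 : (0 : ℝ) < q := by linarith
      have hqX : (q : ℝ) ≤ X := hq2.trans (div_le_self hX0.le (by linarith))
      have hqN : q ≤ 5 * X := by
        have : (q : ℝ) ≤ 5 * X := by linarith
        exact_mod_cast this
      set B : ℝ := C * (((5 * X : ℕ) : ℝ) / Real.sqrt q + ((5 * X : ℕ) : ℝ) ^ (4 / 5 : ℝ) +
        Real.sqrt (((5 * X : ℕ) : ℝ) * q)) * (Real.log ((5 * X : ℕ) : ℝ)) ^ 10 with hB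
      have hvB : ∀ u v : ℕ, v ≤ 5 * X →
          ‖∑ m ∈ Ico u v, (ArithmeticFunction.vonMangoldt m : ℂ) * e (m * θ)‖ ≤ B :=
        fun u v hv' => hv θ q c (by omega) hco hcθ (5 * X) u v (by omega) hqN hv'
      set V : ℝ := B + 2 * Real.sqrt ((5 * X : ℕ) : ℝ) * Real.log ((5 * X : ℕ) : ℝ) with hV
      have hSV : ∀ u v : ℤ, 1 ≤ u → u ≤ v → v ≤ 5 * X → ‖DB_S θ u v‖ ≤ V := by
        intro u v hu huv hv5
        exact DB_vaughan B θ (5 * X) (by omega) hvB u v hu huv (by push_cast; exact hv5)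
      have hV0 : 0 ≤ V := (norm_nonneg _).trans (hSV 1 1 le_rfl le_rfl (by omega))
      have hTV : ∀ β : ℝ, ‖DB_T θ Y a b β‖ ≤ V := by
        intro β
        apply DB_T_le θ Y hYpos a b β V
        intro z hz
        rw [mem_Ioo] at hz
        have : (Y : ℤ) + 1 ≤ X := by exact_mod_cast hYX
        exact hSV _ _ (by omega) (by omega) (by omega)
      have hsum : ‖∑ x ∈ near, DB_T θ Y a b (θ + (x.2 : ℝ) / x.1)‖ ≤ V := by
        calc _ ≤ ∑ x ∈ near, V := (norm_sum_le _ _).trans (sum_le_sum fun x _ => hTV _)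
          _ = near.card * V := by rw [sum_const, nsmul_eq_mul]
          _ ≤ 1 * V := mul_le_mul_of_nonneg_right (by exact_mod_cast hnear1) hV0
          _ = V := one_mul _
      refine (norm_sub_le _ _).trans ((add_le_add (hSV a b (by omega) hab (by omega))
        hsum).trans ?_)
      -- the size of `V`
      have k1 : ((5 * X : ℕ) : ℝ) = 5 * X := by push_cast; ring
      have k2 : Real.log ((5 * X : ℕ) : ℝ) ≤ 3 * L := by rw [k1]; exact hlZ
      have k2' : 0 ≤ Real.log ((5 * X : ℕ) : ℝ) := by rw [k1]; exact hlZ0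
      have k3 : ((5 * X : ℕ) : ℝ) / Real.sqrt q ≤ 5 * (X / w ^ 2) := by
        rw [k1, mul_div_assoc, hw2]
        gcongr
      have k4 : Real.sqrt (((5 * X : ℕ) : ℝ) * q) ≤ 5 * (X / w ^ 2) := by
        rw [Real.sqrt_le_left (by positivity), k1]
        have e1 : (5 * (X / w ^ 2)) ^ 2 = 25 * X * (X / Q) := by
          rw [← hw4]
          field_simp
          ring
        rw [e1]
        have e2 : (5 : ℝ) * X * q ≤ 5 * X * (X / Q) := by gcongr
        have e3 : (0 : ℝ) ≤ X * (X / Q) := by positivity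
        nlinarith
      have hwx5 : w ^ 2 ≤ x5 := by
        have e1 : w ^ 2 ≤ w ^ 4 := pow_le_pow_right₀ hw1 (by norm_num)
        rw [hw4] at e1
        have e2 := hQle 1 (by norm_num)
        rw [pow_one] at e2
        nlinarith [pow_pos hQ0 9]
      have k5 : ((5 * X : ℕ) : ℝ) ^ (4 / 5 : ℝ) ≤ 5 * (X / w ^ 2) := by
        rw [k1, Real.mul_rpow (by norm_num) hX0.le]
        have e1 : (5 : ℝ) ^ (4 / 5 : ℝ) ≤ 5 := by
          calc (5 : ℝ) ^ (4 / 5 : ℝ) ≤ (5 : ℝ) ^ (1 : ℝ) :=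
                Real.rpow_le_rpow_of_exponent_le (by norm_num) (by norm_num)
            _ = 5 := Real.rpow_one 5
        have e2 : (X : ℝ) ^ (4 / 5 : ℝ) = x5 ^ 4 := by
          rw [hx5, ← Real.rpow_natCast, ← Real.rpow_mul hX0.le]
          norm_num
        have e3 : x5 ^ 4 ≤ X / w ^ 2 := by
          rw [le_div_iff₀ (by positivity)]
          calc x5 ^ 4 * w ^ 2 ≤ x5 ^ 4 * x5 :=
                mul_le_mul_of_nonneg_left hwx5 (by positivity)
            _ = (X : ℝ) := by rw [← hx5']; ring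
        rw [e2]
        exact mul_le_mul e1 e3 (by positivity) (by norm_num)
      have k6 : Real.sqrt ((5 * X : ℕ) : ℝ) ≤ 3 * (X / w ^ 2) := by
        rw [Real.sqrt_le_left (by positivity), k1]
        have e1 : (w ^ 2) ^ 2 ≤ X := by
          have e3 : (w ^ 2) ^ 2 = Q := by rw [← hw4]; ring
          rw [e3]
          exact_mod_cast hQX
        have e2 : (3 * (X / w ^ 2)) ^ 2 = 9 * X * (X / (w ^ 2) ^ 2) := by
          field_simp
          ring
        rw [e2]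
        have e3 : 1 ≤ (X : ℝ) / (w ^ 2) ^ 2 := by
          rw [le_div_iff₀ (by positivity)]
          linarith
        nlinarith
      have k7 : B ≤ C * (15 * (X / w ^ 2)) * (3 * L) ^ 10 := by
        rw [hB]
        have e1 : ((5 * X : ℕ) : ℝ) / Real.sqrt q + ((5 * X : ℕ) : ℝ) ^ (4 / 5 : ℝ) +
            Real.sqrt (((5 * X : ℕ) : ℝ) * q) ≤ 15 * (X / w ^ 2) := by linarith
        have e2 : 0 ≤ ((5 * X : ℕ) : ℝ) / Real.sqrt q + ((5 * X : ℕ) : ℝ) ^ (4 / 5 : ℝ) +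
            Real.sqrt (((5 * X : ℕ) : ℝ) * q) := by positivity
        exact mul_le_mul (mul_le_mul_of_nonneg_left e1 hC.le)
          (pow_le_pow_left₀ k2' k2 10) (pow_nonneg k2' 10) (by positivity)
      have k8 : 2 * Real.sqrt ((5 * X : ℕ) : ℝ) * Real.log ((5 * X : ℕ) : ℝ) ≤
          2 * (3 * (X / w ^ 2)) * (3 * L) := by
        exact mul_le_mul (mul_le_mul_of_nonneg_left k6 (by norm_num)) k2 k2' (by positivity)
      have k9 : V + V ≤ (X / w ^ 2) * (30 * C * 3 ^ 10 * L ^ 10 + 36 * L) := by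
        have e1 : (X / w ^ 2) * (30 * C * 3 ^ 10 * L ^ 10 + 36 * L) =
            2 * (C * (15 * (X / w ^ 2)) * (3 * L) ^ 10) + 2 * (2 * (3 * (X / w ^ 2)) * (3 * L)) := by
          ring
        rw [e1, hV]
        linarith
      refine k9.trans ?_
      have k10 : 30 * C * 3 ^ 10 * L ^ 10 + 36 * L ≤ w / 2 := by
        have e1 : 100 * (C + 1) * 3 ^ 10 * L ^ 10 + 1000 * L ^ 10 ≤ w := by
          rw [← add_mul]
          exact f1'
        have e2 : L ≤ L ^ 10 := le_self_pow₀ hL1 (by norm_num)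
        have e3 : 0 ≤ C * L ^ 10 := by positivity
        have e4 : 0 ≤ L ^ 10 := by positivity
        nlinarith
      calc (X : ℝ) / w ^ 2 * (30 * C * 3 ^ 10 * L ^ 10 + 36 * L) ≤ X / w ^ 2 * (w / 2) :=
            mul_le_mul_of_nonneg_left k10 (by positivity)
        _ = X / (2 * w) := by field_simp
  calc _ ≤ (X : ℝ) / (2 * w) + X / (4 * w) := add_le_add hmain hfartot
    _ ≤ X * (1 / w) := by
        have : (X : ℝ) / (2 * w) + X / (4 * w) = X * (1 / w) * (3 / 4) := by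
          field_simp
          ring
        rw [this]
        have h0 : 0 ≤ (X : ℝ) * (1 / w) := by positivity
        linarith

end Pool.Agent.Lib.H18Q
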