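import Pool.Agent.Lib.H18Q.GD
import Pool.Agent.Lib.H18P.P5

/-!
# Project H18Q, chunk GE: the final statement

Port of `H18P/P5.lean` (`final`).
-/

open Finset Pool.Agent.Lib.H18GB Pool.Agent.Lib.GoldbachGraph Pool.Agent.Lib.H18E Pool.Agent.Goldbach
  Pool.Agent.Lib.H18P

namespace Pool.Agent.Lib.H18Q

/-- **All for the two families.** PORT of `H18P.final` (`H18P/P5.lean`); `q1_aux`, `small_near`, `small_gold`
can be used as they are; `core_family_pow` with `c = (b + δ0)/2`. -/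
theorem final_pow (δ0 c0 : ℝ) (hM : MainPow δ0 c0) (hc0 : 0 < c0) (hδ : δ0 < 1 / 2) (a b : ℝ)
    (ha : 0 < a) (hab : a < b) (hb : b < δ0) :
    ∃ (E : Set ℕ) (n0 x0 : ℕ),
      (∀ x : ℕ, x0 ≤ x → ((E ∩ Set.Icc 0 x).ncard : ℝ) ≤ (x : ℝ) ^ (1 - a)) ∧
      (∀ u : ℕ, Even u → u ∉ E → n0 ≤ u ∧ (u : ℝ) ^ (1 - b) ≤ reps u) ∧
      (∀ n : ℕ, n0 ≤ n → (∃ K, CorePow goldbachVertices goldbachGraph b n0 n K ∧
          ∀ u : goldbachVertices n, (u : ℕ) = 0 ∨ (∃ p : ℕ, p.Prime ∧ Odd p ∧ (u : ℕ) = 2 * p) →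
            ∃ z ∈ K, (goldbachGraph n).edist u z ≤ 2) ∧
        ∃ K, CorePow evenVertices nearGoldbachGraph b n0 n K) ∧
      (∀ n : ℕ, n0 ≤ n →
        (∀ u v : goldbachVertices n, RichPow goldbachVertices goldbachGraph b n0 n u →
          RichPow goldbachVertices goldbachGraph b n0 n v → (goldbachGraph n).edist u v ≤ 31) ∧
        (∀ u v : evenVertices n, RichPow evenVertices nearGoldbachGraph b n0 n u →
          RichPow evenVertices nearGoldbachGraph b n0 n v → (nearGoldbachGraph n).edist u v ≤ 31)) ∧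
      (QuantGoldbachPow b → ∃ C N : ℕ, ∀ n : ℕ, N ≤ n →
        (∀ u v : goldbachVertices n, (goldbachGraph n).edist u v ≤ C) ∧
        (∀ u v : evenVertices n, (nearGoldbachGraph n).edist u v ≤ C)) := by
  classical
  obtain ⟨n0, hn0, hfam⟩ := core_family_pow δ0 c0 hM hc0 hδ b ((b + δ0) / 2) (ha.trans hab) (by linarith)
    (by linarith)
  obtain ⟨E, x0, hE1, hE2⟩ := fixed_set_pow δ0 c0 hM hδ a b ha hab hb n0
  have hg := hfam goldbachVertices (fun n => {p | p.Prime ∧ Odd p ∧ p < 2 * n})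
    (fun n a ha => ha)
    (fun n x hx => by
      rw [Finset.mem_Icc] at hx
      exact ⟨even_two_mul x, by omega⟩)
    (fun n m h1 h2 h3 => ⟨h1, h2, h3⟩)
    (fun n m hm => Or.inr ⟨hm.1, hm.2.1⟩)
    (fun n _ m _ => ⟨Even.zero, Nat.zero_le _⟩) n0 le_rfl
  have hv := hfam evenVertices (fun n => {1} ∪ {p | p.Prime ∧ Odd p ∧ p < 2 * n})
    (fun n a ha => ⟨ha.1, ha.2.2⟩)
    (fun n x hx => by
      rw [Finset.mem_Icc] at hx
      exact ⟨even_two_mul x, by omega, by omega⟩)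
    (fun n m h1 h2 h3 => Or.inr ⟨h1, h2, h3⟩)
    (fun n m hm => by
      rcases hm with hm | hm
      · exact Or.inl hm
      · exact Or.inr ⟨hm.1, hm.2.1⟩)
    (fun n h => absurd h.2.1 (by norm_num)) n0 le_rfl
  have hpair : ∀ n : ℕ, n0 ≤ n →
        (∀ u v : goldbachVertices n, RichPow goldbachVertices goldbachGraph b n0 n u →
          RichPow goldbachVertices goldbachGraph b n0 n v → (goldbachGraph n).edist u v ≤ 31) ∧
        (∀ u v : evenVertices n, RichPow evenVertices nearGoldbachGraph b n0 n u →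
          RichPow evenVertices nearGoldbachGraph b n0 n v → (nearGoldbachGraph n).edist u v ≤ 31) := by
    intro n hn
    obtain ⟨K, hK, -⟩ := hg n hn
    obtain ⟨K', hK', -⟩ := hv n hn
    exact ⟨fun u v hu hv => hK.pair (hK.rich u hu) (hK.rich v hv),
      fun u v hu hv => hK'.pair (hK'.rich u hu) (hK'.rich v hv)⟩
  refine ⟨E, n0, x0, hE1, hE2, fun n hn => ⟨?_, ?_⟩, hpair, ?_⟩
  · obtain ⟨K, hK, hK0⟩ := hg n hn
    exact ⟨K, hK, hK0 ⟨Even.zero, Nat.zero_le _⟩⟩
  · obtain ⟨K, hK, -⟩ := hv n hn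
    exact ⟨K, hK⟩
  · rintro ⟨hG, U0, hU0⟩
    set U := max U0 n0 + 8 with hU
    refine ⟨2 * (3 * U + 40), 2 * U + 20, fun n hn => ⟨?_, ?_⟩⟩
    · have hV : ∀ a ∈ goldbachVertices n, Even a ∧ a ≤ 2 * n := fun a ha => ha
      have hV2 : ∀ x ∈ Finset.Icc 1 n, 2 * x ∈ goldbachVertices n := fun x hx => by
        rw [Finset.mem_Icc] at hx
        exact ⟨even_two_mul x, by omega⟩
      have hS : ∀ m, m.Prime → Odd m → m < 2 * n → m ∈ {p | p.Prime ∧ Odd p ∧ p < 2 * n} :=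
        fun m h1 h2 h3 => ⟨h1, h2, h3⟩
      have hmem : ∀ k, 2 * k ≤ 2 * n → 2 * k ∈ goldbachVertices n := fun k hk => ⟨even_two_mul k, hk⟩
      have hs : 2 * U ∈ goldbachVertices n := hmem U (by omega)
      obtain ⟨e0, e246⟩ := small_gold (V := goldbachVertices n) (S := {p | p.Prime ∧ Odd p ∧ p < 2 * n})
        (hS 3 (by norm_num) (by decide) (by omega)) (hS 5 (by norm_num) (by decide) (by omega))
        (hS 7 (by norm_num) (by decide) (by omega)) (hS 11 (by norm_num) (by decide) (by omega))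
        (hmem 0 (by omega)) (hmem 1 (by omega)) (hmem 2 (by omega)) (hmem 3 (by omega)) (hmem 4 (by omega))
        (hmem 5 (by omega)) (hmem 7 (by omega))
      refine q1_aux hG hV hV2 hS U (2 * U) hs (by omega) le_rfl e246
        (fun hu => ⟨6, hmem 3 (by omega), by omega, e0⟩) ?_
      intro u hu hUu
      refine (hpair n (by omega)).1 ⟨u, hu⟩ ⟨2 * U, hs⟩ (Or.inr ⟨by simp only; omega, ?_⟩)
        (Or.inr ⟨by simp only; omega, ?_⟩)
      · exact hU0 u (by omega) hu.1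
      · exact hU0 (2 * U) (by omega) (even_two_mul U)
    · have hV : ∀ a ∈ evenVertices n, Even a ∧ a ≤ 2 * n := fun a ha => ⟨ha.1, ha.2.2⟩
      have hV2 : ∀ x ∈ Finset.Icc 1 n, 2 * x ∈ evenVertices n := fun x hx => by
        rw [Finset.mem_Icc] at hx
        exact ⟨even_two_mul x, by omega, by omega⟩
      have hS : ∀ m, m.Prime → Odd m → m < 2 * n → m ∈ ({1} ∪ {p | p.Prime ∧ Odd p ∧ p < 2 * n} : Set ℕ) :=
        fun m h1 h2 h3 => Or.inr ⟨h1, h2, h3⟩
      have hmem : ∀ k, 1 ≤ k → 2 * k ≤ 2 * n → 2 * k ∈ evenVertices n :=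
        fun k hk1 hk => ⟨even_two_mul k, by omega, hk⟩
      have hs : 2 * U ∈ evenVertices n := hmem U (by omega) (by omega)
      have e246 := small_near (V := evenVertices n) (S := ({1} ∪ {p | p.Prime ∧ Odd p ∧ p < 2 * n} : Set ℕ))
        (Or.inl rfl)
        (hS 3 (by norm_num) (by decide) (by omega)) (hS 5 (by norm_num) (by decide) (by omega))
        (hmem 1 (by omega) (by omega)) (hmem 2 (by omega) (by omega)) (hmem 3 (by omega) (by omega))
      refine q1_aux hG hV hV2 hS U (2 * U) hs (by omega) le_rfl e246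
        (fun hu => absurd hu.2.1 (by norm_num)) ?_
      intro u hu hUu
      refine (hpair n (by omega)).2 ⟨u, hu⟩ ⟨2 * U, hs⟩ (Or.inr ⟨by simp only; omega, ?_⟩)
        (Or.inr ⟨by simp only; omega, ?_⟩)
      · exact hU0 u (by omega) hu.1
      · exact hU0 (2 * U) (by omega) (even_two_mul U)

end Pool.Agent.Lib.H18Q
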