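import Pool.Agent.Lib.H18Q.MP
import Pool.Agent.Lib.H18Q.GE

/-!
# Project H18Q: the final statement (power savings)
-/

open Pool.Agent.Goldbach Pool.Agent.Lib.H18P

namespace Pool.Agent.Lib.H18Q

theorem main_pow' : ∃ δ0 c0 : ℝ, 0 < δ0 ∧ δ0 < 1 / 2 ∧ 0 < c0 ∧ MainPow δ0 c0 := main_pow

/-- **The theorem.** -/
theorem rich_pow : ∃ δ0 : ℝ, 0 < δ0 ∧ ∀ a b : ℝ, 0 < a → a < b → b < δ0 →
    ∃ (E : Set ℕ) (n0 x0 : ℕ),
      (∀ x : ℕ, x0 ≤ x → ((E ∩ Set.Icc 0 x).ncard : ℝ) ≤ (x : ℝ) ^ (1 - a)) ∧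
      (∀ u : ℕ, Even u → u ∉ E → n0 ≤ u ∧ (u : ℝ) ^ (1 - b) ≤ reps u) ∧
      (∀ n : ℕ, n0 ≤ n → (∃ K, CorePow goldbachVertices goldbachGraph b n0 n K ∧
          ∀ u : goldbachVertices n, (u : ℕ) = 0 ∨ (∃ p : ℕ, p.Prime ∧ Odd p ∧ (u : ℕ) = 2 * p) →
            ∃ z ∈ K, (goldbachGraph n).edist u z ≤ 2) ∧
        ∃ K, CorePow evenVertices nearGoldbachGraph b n0 n K) ∧
      (∀ n : ℕ, n0 ≤ n →
        (∀ u v : goldbachVertices n, RichPow goldbachVertices goldbachGraph b n0 n u →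
          RichPow goldbachVertices goldbachGraph b n0 n v → (goldbachGraph n).edist u v ≤ 31) ∧
        (∀ u v : evenVertices n, RichPow evenVertices nearGoldbachGraph b n0 n u →
          RichPow evenVertices nearGoldbachGraph b n0 n v → (nearGoldbachGraph n).edist u v ≤ 31)) ∧
      (QuantGoldbachPow b → ∃ C N : ℕ, ∀ n : ℕ, N ≤ n →
        (∀ u v : goldbachVertices n, (goldbachGraph n).edist u v ≤ C) ∧
        (∀ u v : evenVertices n, (nearGoldbachGraph n).edist u v ≤ C)) := by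
  obtain ⟨δ0, c0, h0, h2, hc0, hM⟩ := main_pow'
  exact ⟨δ0, h0, fun a b ha hab hb => final_pow δ0 c0 hM hc0 h2 a b ha hab hb⟩

end Pool.Agent.Lib.H18Q
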