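import Pool.Agent.Lib.H18Q.CDefs
import Pool.Agent.Lib.H68T.GAM1
import Pool.Agent.Lib.H68T.GAM2
import Pool.Agent.Lib.H18E.CM

/-!
# Project H18Q, chunk CA: the components of the projection
-/

open Finset

namespace Pool.Agent.Lib.H18Q

open Pool.Agent.Lib.H68T

theorem CA_chi_zero (r : ℕ) (χ : DirichletCharacter ℂ r) (m : ℤ) (h : ¬ IsCoprime (r : ℤ) m) :
    χ (m : ZMod r) = 0 := by
  apply MulChar.map_nonunit
  rw [ZMod.coe_int_isUnit_iff_isCoprime]
  exact h

theorem CA_sum_icc (Q r : ℕ) (hr : 1 ≤ r) (m : ℤ) (hrm : IsCoprime (r : ℤ) m) :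
    Gam Q r m = (r : ℝ) / Nat.totient r * ∑ q ∈ Icc 1 (Q / r), GAM_F r m q := by
  have himg : (Icc 1 Q).filter (fun q => r ∣ q) = (Icc 1 (Q / r)).image (fun q => r * q) := by
    ext q
    simp only [mem_filter, mem_Icc, mem_image]
    constructor
    · rintro ⟨⟨h1, h2⟩, ⟨e, rfl⟩⟩
      refine ⟨e, ⟨?_, ?_⟩, rfl⟩
      · rcases Nat.eq_zero_or_pos e with rfl | h
        · simp at h1
        · exact h
      · rw [Nat.le_div_iff_mul_le (by omega), mul_comm]
        exact h2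
    · rintro ⟨e, ⟨h1, h2⟩, rfl⟩
      refine ⟨⟨Nat.mul_pos (by omega) (by omega), ?_⟩, Dvd.intro _ rfl⟩
      rw [Nat.le_div_iff_mul_le (by omega), mul_comm] at h2
      exact h2
  unfold Gam
  rw [himg, Finset.sum_image (fun a _ b _ h => Nat.eq_of_mul_eq_mul_left (by omega) h),
    Finset.mul_sum]
  refine Finset.sum_congr rfl (fun q hq => ?_)
  rw [mem_Icc] at hq
  exact GAM_inner r m (by omega) hrm q (by omega)

theorem CA_F_zero (r : ℕ) (m : ℤ) (hrm : IsCoprime (r : ℤ) m) (q : ℕ) (hq : q ≠ 0)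
    (h : ¬ (Squarefree q ∧ Nat.Coprime q r)) : GAM_F r m q = 0 := by
  by_cases hs : Squarefree q
  · have hc : ¬ Nat.Coprime q r := fun h' => h ⟨hs, h'⟩
    obtain ⟨l, hl, hlq, hlr⟩ := Nat.Prime.not_coprime_iff_dvd.1 hc
    rw [← (GAM_F_mult r m).prod_primeFactors hs]
    refine Finset.prod_eq_zero (Nat.mem_primeFactors.2 ⟨hl, hlq, hq⟩) ?_
    rw [GAM_F_prime r m l hl, if_neg, if_pos hlr]
    intro hlm
    have h1 : IsCoprime (l : ℤ) m := by
      obtain ⟨c, rfl⟩ := hlr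
      rw [Nat.cast_mul, IsCoprime.mul_left_iff] at hrm
      exact hrm.1
    exact (Nat.prime_iff_prime_int.mp hl).not_unit (h1.isUnit_of_dvd' dvd_rfl hlm)
  · have h1 := GAM_F_abs r m q hq
    rw [if_neg hs, abs_nonpos_iff] at h1
    exact h1

theorem CA_F_one (m : ℤ) (k : ℕ) : GAM_F 1 m k =
    (ArithmeticFunction.moebius k : ℝ) / (Nat.totient k : ℝ) * cq k m := by
  rw [GAM_identity, ArithmeticFunction.pdiv_apply, ArithmeticFunction.pmul_apply, GAM_c_apply,
    ArithmeticFunction.intCoe_apply]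
  change _ / ((Nat.totient k : ℕ) : ℝ) = _
  ring

theorem CA_F_eq (r : ℕ) (m : ℤ) (k : ℕ) (hs : Squarefree k) (hc : Nat.Coprime k r) :
    GAM_F r m k = GAM_F 1 m k := by
  rw [← (GAM_F_mult r m).prod_primeFactors hs, ← (GAM_F_mult 1 m).prod_primeFactors hs]
  refine Finset.prod_congr rfl fun l hl => ?_
  have hl' := Nat.mem_primeFactors.1 hl
  rw [GAM_F_prime r m l hl'.1, GAM_F_prime 1 m l hl'.1]
  have h1 : ¬ l ∣ r := fun h => hl'.1.one_lt.ne' (Nat.dvd_one.1 (hc ▸ Nat.dvd_gcd hl'.2.1 h))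
  have h2 : ¬ l ∣ 1 := fun h => hl'.1.one_lt.ne' (Nat.dvd_one.1 h)
  rw [if_neg h1, if_neg h2]

theorem CA_mem_KS {Q r k : ℕ} : k ∈ KS Q r ↔ (1 ≤ k ∧ k ≤ Q / r) ∧ Squarefree k ∧ Nat.Coprime k r := by
  classical
  unfold KS
  rw [mem_filter, mem_Icc]

theorem CA_F_abs (m : ℤ) (k : ℕ) (hs : Squarefree k) : |GAM_F 1 m k| =
    ∏ l ∈ k.primeFactors, (if (l : ℤ) ∣ m then 1 else 1 / ((l : ℝ) - 1)) := by
  rw [← (GAM_F_mult 1 m).prod_primeFactors hs, Finset.abs_prod]
  refine Finset.prod_congr rfl fun l hl => ?_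
  have hl' := Nat.mem_primeFactors.1 hl
  have h2 : ¬ l ∣ 1 := fun h => hl'.1.one_lt.ne' (Nat.dvd_one.1 h)
  have h3 : (2 : ℝ) ≤ l := by exact_mod_cast hl'.1.two_le
  rw [GAM_F_prime 1 m l hl'.1, if_neg h2]
  split_ifs
  · simp
  · rw [abs_of_nonneg]
    exact div_nonneg zero_le_one (by linarith)

theorem CA_norm (p : Σ r : ℕ, DirichletCharacter ℂ r) (k : ℕ) (m : ℤ) :
    ‖gk p k m‖ = (p.1 : ℝ) / (Nat.totient p.1 : ℝ) * ‖p.2 (m : ZMod p.1)‖ * |GAM_F 1 m k| := by
  unfold gk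
  rw [norm_mul, norm_mul, RCLike.norm_conj, Complex.norm_real, Complex.norm_real, Real.norm_eq_abs,
    Real.norm_eq_abs, ← CA_F_one, abs_of_nonneg (by positivity : (0 : ℝ) ≤ (p.1 : ℝ) / (Nat.totient p.1 : ℝ))]

theorem CA_cq_congr (k : ℕ) (a b : ℤ) (h : (k : ℤ) ∣ a - b) : cq k a = cq k b := by
  unfold cq
  refine Finset.sum_congr ?_ fun _ _ => rfl
  refine Finset.filter_congr fun d hd => ?_
  have h1 : (d : ℤ) ∣ a - b := (Int.natCast_dvd_natCast.2 (Nat.dvd_of_mem_divisors hd)).trans h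
  exact (dvd_iff_dvd_of_dvd_sub h1)

theorem CA_cq_mul (a b : ℕ) (n : ℤ) (h : Nat.Coprime a b) : cq (a * b) n = cq a n * cq b n := by
  rw [← GAM_c_apply, ← GAM_c_apply, ← GAM_c_apply]
  exact (GAM_c_mult n).2 h

theorem CA_cq_prime (l : ℕ) (hl : l.Prime) (n : ℤ) : cq l n = -1 + if (l : ℤ) ∣ n then (l : ℝ) else 0 := by
  unfold cq
  rw [Finset.sum_filter, hl.divisors, Finset.sum_pair hl.one_lt.ne, Nat.div_one,
    Nat.div_self hl.pos, ArithmeticFunction.moebius_apply_one,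
    ArithmeticFunction.moebius_apply_prime hl]
  simp

theorem CA_range (l : ℕ) [NeZero l] (g : ZMod l → ℂ) : ∑ j ∈ range l, g (j : ZMod l) = ∑ z, g z := by
  refine Finset.sum_bij' (fun (j : ℕ) _ => (j : ZMod l)) (fun (z : ZMod l) _ => z.val)
    (fun _ _ => mem_univ _) (fun z _ => mem_range.2 (ZMod.val_lt z)) (fun j hj => ?_)
    (fun z _ => ZMod.natCast_zmod_val z) (fun _ _ => rfl)
  rw [ZMod.val_natCast, Nat.mod_eq_of_lt (mem_range.1 hj)]

theorem CA_shift (l : ℕ) [NeZero l] (f : ℤ → ℂ) (hf : ∀ a b : ℤ, (a : ZMod l) = b → f a = f b)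
    (a b : ℤ) (ha : IsUnit (a : ZMod l)) : ∑ j ∈ range l, f (a * j + b) = ∑ j ∈ range l, f j := by
  obtain ⟨F, hF⟩ : ∃ F : ZMod l → ℂ, ∀ n : ℤ, f n = F (n : ZMod l) := by
    refine ⟨fun z => f (z.val : ℤ), fun n => hf _ _ ?_⟩
    simp
  have h1 : ∑ j ∈ range l, f (a * j + b) = ∑ z : ZMod l, F ((a : ZMod l) * z + b) := by
    rw [← CA_range l fun z => F ((a : ZMod l) * z + b)]
    refine Finset.sum_congr rfl fun j _ => ?_
    rw [hF]
    push_cast
    rfl
  have h2 : ∑ j ∈ range l, f j = ∑ z : ZMod l, F z := by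
    rw [← CA_range l F]
    refine Finset.sum_congr rfl fun j _ => ?_
    rw [hF]
    push_cast
    rfl
  rw [h1, h2]
  have hbij : Function.Bijective fun z : ZMod l => (a : ZMod l) * z + b := by
    rw [← Finite.injective_iff_bijective]
    intro x y hxy
    exact ha.mul_left_cancel (add_right_cancel hxy)
  exact hbij.sum_comp F

/-- Expansion into components. Proof: if `(m, r) ≠ 1`, `r = p.1`, then `χ(m) = 0` and both sides
vanish. Otherwise `Gam Q r m = ∑_{q ≤ Q, r ∣ q} (...)`, `q = r k`, `k ≤ Q/r`, and the inner sum is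
`(r/φ(r)) GAM_F r m k` (`GAM_inner` in `H68T/GAM1`). `GAM_F r m` is multiplicative, `0` at squares of
primes and beyond (`GAM_F_prime_pow`), and at a prime `l` it is `-1` if `l ∣ m`, `0` if `l ∣ r` (then
`l ∤ m`), else `1/(l-1)` (`GAM_F_prime`). So it vanishes unless `k` is squarefree and coprime to
`r`, and then equals `GAM_F 1 m k = μ(k) c_k(m)/φ(k)` (`GAM_identity`; compare prime by prime). -/
theorem gam_expand (Q : ℕ) (p : Σ r : ℕ, DirichletCharacter ℂ r) (hp : p ∈ PC Q) (m : ℤ) :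
    (Gam Q p.1 m : ℂ) * (starRingEnd ℂ) (p.2 (m : ZMod p.1)) = ∑ k ∈ KS Q p.1, gk p k m := by
  obtain ⟨hr1, hrQ, hprim⟩ := mem_PC.1 hp
  by_cases hrm : IsCoprime (p.1 : ℤ) m
  · rw [CA_sum_icc Q p.1 hr1 m hrm]
    have h1 : ∑ q ∈ Icc 1 (Q / p.1), GAM_F p.1 m q = ∑ k ∈ KS Q p.1, GAM_F 1 m k := by
      rw [← Finset.sum_subset (s₁ := KS Q p.1)]
      · refine Finset.sum_congr rfl fun k hk => ?_
        obtain ⟨-, h2, h3⟩ := CA_mem_KS.1 hk
        exact CA_F_eq p.1 m k h2 h3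
      · intro k hk
        exact mem_Icc.2 (CA_mem_KS.1 hk).1
      · intro k hk hk'
        refine CA_F_zero p.1 m hrm k ?_ fun h => hk' (CA_mem_KS.2 ⟨mem_Icc.1 hk, h⟩)
        have := (mem_Icc.1 hk).1
        omega
    rw [h1]
    push_cast
    rw [Finset.mul_sum, Finset.sum_mul]
    refine Finset.sum_congr rfl fun k _ => ?_
    unfold gk
    rw [CA_F_one]
    push_cast
    ring
  · have h0 := CA_chi_zero p.1 p.2 m hrm
    rw [h0, map_zero, mul_zero]
    symm
    refine Finset.sum_eq_zero fun k _ => ?_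
    unfold gk
    rw [h0, map_zero, mul_zero, zero_mul]

/-- The component is bounded by the product over primes: `|χ(m)| ≤ ∏_{l ∣ r} 1[l ∤ m]`,
`r/φ(r) = ∏ l/(l-1)` (`GAM_ratio`), `|c_k(m)/φ(k)| = ∏_{l ∣ k} (1 or 1/(l-1))` for squarefree `k`
(`GAM_identity`, `GAM_F_prime`, multiplicativity). -/
theorem gk_le_aw (Q : ℕ) (p : Σ r : ℕ, DirichletCharacter ℂ r) (hp : p ∈ PC Q) (k : ℕ)
    (hk : k ∈ KS Q p.1) (m : ℤ) : ‖gk p k m‖ ≤ aw p k m := by
  obtain ⟨hr1, hrQ, hprim⟩ := mem_PC.1 hp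
  obtain ⟨-, hs, -⟩ := CA_mem_KS.1 hk
  rw [CA_norm, CA_F_abs m k hs]
  unfold aw
  refine mul_le_mul_of_nonneg_right ?_ ?_
  · by_cases hex : ∃ l ∈ p.1.primeFactors, (l : ℤ) ∣ m
    · obtain ⟨l, hl, hlm⟩ := hex
      have hl' := Nat.mem_primeFactors.1 hl
      have h0 : p.2 (m : ZMod p.1) = 0 := by
        refine CA_chi_zero p.1 p.2 m fun h => ?_
        obtain ⟨c, hc⟩ := hl'.2.1
        rw [hc, Nat.cast_mul, IsCoprime.mul_left_iff] at h
        exact (Nat.prime_iff_prime_int.mp hl'.1).not_unit (h.1.isUnit_of_dvd' dvd_rfl hlm)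
      rw [h0, norm_zero, mul_zero, Finset.prod_eq_zero hl (by rw [if_pos hlm])]
    · push Not at hex
      have h1 : ∏ l ∈ p.1.primeFactors, (if (l : ℤ) ∣ m then 0 else (l : ℝ) / ((l : ℝ) - 1)) =
          (p.1 : ℝ) / (Nat.totient p.1 : ℝ) := by
        rw [GAM_ratio p.1 (by omega)]
        refine Finset.prod_congr rfl fun l hl => ?_
        rw [if_neg (hex l hl)]
      rw [h1]
      exact mul_le_of_le_one_right (by positivity) (DirichletCharacter.norm_le_one p.2 _)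
  · refine Finset.prod_nonneg fun l hl => ?_
    have hl' := Nat.mem_primeFactors.1 hl
    have h3 : (2 : ℝ) ≤ l := by exact_mod_cast hl'.1.two_le
    split_ifs
    · exact zero_le_one
    · exact div_nonneg zero_le_one (by linarith)

/-- `|gk| ≤ Q`: `r/φ(r) ≤ r ≤ Q` and the other factors are at most `1`. -/
theorem gk_bound (Q : ℕ) (p : Σ r : ℕ, DirichletCharacter ℂ r) (hp : p ∈ PC Q) (k : ℕ)
    (hk : k ∈ KS Q p.1) (m : ℤ) : ‖gk p k m‖ ≤ Q := by
  obtain ⟨hr1, hrQ, hprim⟩ := mem_PC.1 hp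
  obtain ⟨-, hs, -⟩ := CA_mem_KS.1 hk
  rw [CA_norm, CA_F_abs m k hs]
  have h1 : ∏ l ∈ k.primeFactors, (if (l : ℤ) ∣ m then 1 else 1 / ((l : ℝ) - 1)) ≤ 1 := by
    refine Finset.prod_le_one (fun l hl => ?_) (fun l hl => ?_)
    · have hl' := Nat.mem_primeFactors.1 hl
      have h3 : (2 : ℝ) ≤ l := by exact_mod_cast hl'.1.two_le
      split_ifs
      · exact zero_le_one
      · exact div_nonneg zero_le_one (by linarith)
    · have hl' := Nat.mem_primeFactors.1 hl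
      have h3 : (2 : ℝ) ≤ l := by exact_mod_cast hl'.1.two_le
      split_ifs
      · exact le_rfl
      · rw [div_le_one (by linarith)]
        linarith
  have h0 : 0 ≤ ∏ l ∈ k.primeFactors, (if (l : ℤ) ∣ m then 1 else 1 / ((l : ℝ) - 1)) := by
    refine Finset.prod_nonneg fun l hl => ?_
    have hl' := Nat.mem_primeFactors.1 hl
    have h3 : (2 : ℝ) ≤ l := by exact_mod_cast hl'.1.two_le
    split_ifs
    · exact zero_le_one
    · exact div_nonneg zero_le_one (by linarith)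
  have h2 : (p.1 : ℝ) / (Nat.totient p.1 : ℝ) ≤ Q := by
    have h4 : (1 : ℝ) ≤ (Nat.totient p.1 : ℝ) := by
      exact_mod_cast Nat.totient_pos.2 (by omega)
    refine (div_le_self (by positivity) h4).trans ?_
    exact_mod_cast hrQ
  have h5 := DirichletCharacter.norm_le_one p.2 (m : ZMod p.1)
  calc (p.1 : ℝ) / (Nat.totient p.1 : ℝ) * ‖p.2 (m : ZMod p.1)‖ *
        ∏ l ∈ k.primeFactors, (if (l : ℤ) ∣ m then 1 else 1 / ((l : ℝ) - 1))
      ≤ (Q : ℝ) * 1 * 1 := by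
        refine mul_le_mul (mul_le_mul h2 h5 (norm_nonneg _) (by positivity)) h1 h0 (by positivity)
    _ = Q := by ring

theorem gk_period (p : Σ r : ℕ, DirichletCharacter ℂ r) (k : ℕ) (m j : ℤ) :
    gk p k (m + (p.1 * k : ℕ) * j) = gk p k m := by
  unfold gk
  have h1 : ((m + (p.1 * k : ℕ) * j : ℤ) : ZMod p.1) = (m : ZMod p.1) := by
    push_cast
    simp
  have h2 : cq k (m + (p.1 * k : ℕ) * j) = cq k m := by
    refine CA_cq_congr k _ _ ⟨p.1 * j, ?_⟩
    push_cast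
    ring
  rw [h1, h2]

/-- Primitivity. Let `l` be a prime dividing `p.1 k`, `N = p.1 k / l`. If `l ∣ k` (then `l ∤ r`):
`N = r (k/l)`, `χ` and `c_(k/l)` do not see the shift, `c_k = c_(k/l) c_l`
(`GAM_c_mult`; coprime since `k` is squarefree), and `c_l(n) = l - 1` if `l ∣ n`, `-1` else, so the sum
of `c_l` over the `l` different classes `m + j N` modulo `l` is `0`. If `l ∣ r` (then `l ∤ k`):
`N = k (r/l)`, `c_k` does not see the shift, and `∑_j conj χ(m + j k r/l) = 0`: the values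
`m + j k (r/l)` run through all classes modulo `r` congruent to `m` modulo `r/l` (`k` is a unit
modulo `l`); by primitivity there is a unit `u ≡ 1` modulo `r/l` with `χ(u) ≠ 1` (`CM_ex` in
`H18E/CM`), multiplication by `u` permutes these classes, so the sum `S` satisfies `S = χ(u) S`. -/
theorem gk_prim (Q : ℕ) (p : Σ r : ℕ, DirichletCharacter ℂ r) (hp : p ∈ PC Q) (k : ℕ)
    (hk : k ∈ KS Q p.1) (l : ℕ) (hl : l.Prime) (hlk : l ∣ p.1 * k) (m : ℤ) :
    ∑ j ∈ range l, gk p k (m + (j : ℤ) * (p.1 * k / l : ℕ)) = 0 := by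
  obtain ⟨hr1, hrQ, hprim⟩ := mem_PC.1 hp
  obtain ⟨⟨hk1, -⟩, hs, hcop⟩ := CA_mem_KS.1 hk
  have hl0 : NeZero l := ⟨hl.ne_zero⟩
  have hr0 : NeZero p.1 := ⟨by omega⟩
  by_cases hlk' : l ∣ k
  · obtain ⟨k', rfl⟩ := hlk'
    have hck : Nat.Coprime l k' := by
      rw [hl.coprime_iff_not_dvd]
      rintro ⟨c, rfl⟩
      exact hl.one_lt.ne' (Nat.isUnit_iff.1 (hs l ⟨c, by ring⟩))
    have hcr : Nat.Coprime l p.1 := Nat.Coprime.coprime_mul_right hcop
    have hN : p.1 * (l * k') / l = p.1 * k' := by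
      rw [show p.1 * (l * k') = l * (p.1 * k') by ring, Nat.mul_div_cancel_left _ hl.pos]
    rw [hN]
    have h1 : ∀ j : ℕ, gk p (l * k') (m + (j : ℤ) * (p.1 * k' : ℕ)) =
        ((((p.1 : ℝ) / (Nat.totient p.1 : ℝ) : ℝ) : ℂ) * (starRingEnd ℂ) (p.2 (m : ZMod p.1)) *
        (((ArithmeticFunction.moebius (l * k') : ℝ) / (Nat.totient (l * k') : ℝ) * cq k' m : ℝ) : ℂ)) *
        ((cq l (((p.1 * k' : ℕ) : ℤ) * j + m) : ℝ) : ℂ) := by
      intro j
      unfold gk
      have e1 : ((m + (j : ℤ) * (p.1 * k' : ℕ) : ℤ) : ZMod p.1) = (m : ZMod p.1) := by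
        push_cast
        simp
      have e2 : cq (l * k') (m + (j : ℤ) * (p.1 * k' : ℕ)) = cq l (((p.1 * k' : ℕ) : ℤ) * j + m) * cq k' m := by
        rw [CA_cq_mul l k' _ hck]
        congr 1
        · congr 1
          ring
        · refine CA_cq_congr k' _ _ ⟨j * p.1, ?_⟩
          push_cast
          ring
      rw [e1, e2]
      push_cast
      ring
    rw [Finset.sum_congr rfl fun j _ => h1 j, ← Finset.mul_sum]
    have h2 := CA_shift l (fun n => ((cq l n : ℝ) : ℂ)) (fun a b hab => by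
      rw [CA_cq_congr l a b ((ZMod.intCast_eq_intCast_iff_dvd_sub b a l).1 hab.symm)]) ((p.1 * k' : ℕ) : ℤ) m (by
      rw [Int.cast_natCast, ZMod.isUnit_iff_coprime]
      exact (Nat.Coprime.mul_right hcr hck).symm)
    rw [h2]
    have h3 : ∑ j ∈ range l, ((cq l (j : ℤ) : ℝ) : ℂ) = 0 := by
      rw [← Complex.ofReal_sum]
      have h4 : ∑ j ∈ range l, cq l (j : ℤ) = 0 := by
        have h5 : ∀ j ∈ range l, cq l (j : ℤ) = -1 + if j = 0 then (l : ℝ) else 0 := by
          intro j hj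
          rw [CA_cq_prime l hl]
          congr 1
          have h6 : ((l : ℤ) ∣ (j : ℤ)) ↔ j = 0 := by
            rw [Int.natCast_dvd_natCast]
            constructor
            · intro h
              exact Nat.eq_zero_of_dvd_of_lt h (mem_range.1 hj)
            · rintro rfl
              exact dvd_zero _
          simp only [h6]
        rw [Finset.sum_congr rfl h5, Finset.sum_add_distrib, Finset.sum_ite_eq' (range l) 0,
          if_pos (mem_range.2 hl.pos), Finset.sum_const, card_range]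
        simp
      rw [h4, Complex.ofReal_zero]
    rw [h3, mul_zero]
  · have hlr : l ∣ p.1 := (hl.dvd_mul.1 hlk).resolve_right hlk'
    obtain ⟨r', hr'⟩ := hlr
    have hr'0 : 0 < r' := by
      rcases Nat.eq_zero_or_pos r' with h | h
      · rw [h, mul_zero] at hr'
        omega
      · exact h
    have hN : p.1 * k / l = r' * k := by
      rw [hr', mul_assoc, Nat.mul_div_cancel_left _ hl.pos]
    rw [hN]
    obtain ⟨f, hf⟩ : ∃ f : ℤ → ℂ, ∀ t, f t = p.2 ((m + t * r' : ℤ) : ZMod p.1) := ⟨_, fun _ => rfl⟩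
    have hfc : ∀ a b : ℤ, (a : ZMod l) = b → f a = f b := by
      intro a b hab
      rw [hf, hf]
      congr 1
      rw [ZMod.intCast_eq_intCast_iff_dvd_sub] at hab ⊢
      obtain ⟨c, hc⟩ := hab
      refine ⟨c, ?_⟩
      rw [hr']
      push_cast
      linear_combination (r' : ℤ) * hc
    have h1 : ∀ j : ℕ, gk p k (m + (j : ℤ) * (r' * k : ℕ)) =
        ((((p.1 : ℝ) / (Nat.totient p.1 : ℝ) : ℝ) : ℂ) *
        (((ArithmeticFunction.moebius k : ℝ) / (Nat.totient k : ℝ) * cq k m : ℝ) : ℂ)) *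
        (starRingEnd ℂ) (f ((k : ℤ) * j + 0)) := by
      intro j
      unfold gk
      have e1 : p.2 ((m + (j : ℤ) * (r' * k : ℕ) : ℤ) : ZMod p.1) = f ((k : ℤ) * j + 0) := by
        rw [hf]
        congr 1
        push_cast
        ring
      have e2 : cq k (m + (j : ℤ) * (r' * k : ℕ)) = cq k m := by
        refine CA_cq_congr k _ _ ⟨j * r', ?_⟩
        push_cast
        ring
      rw [e1, e2]
      ring
    rw [Finset.sum_congr rfl fun j _ => h1 j, ← Finset.mul_sum, ← map_sum]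
    have hku : IsUnit ((k : ℤ) : ZMod l) := by
      rw [Int.cast_natCast, ZMod.isUnit_iff_coprime]
      exact ((hl.coprime_iff_not_dvd).2 hlk').symm
    rw [CA_shift l f hfc (k : ℤ) 0 hku]
    have hlt : r' < p.1 := by
      rw [hr']
      have := hl.two_le
      nlinarith
    have hdvd : r' ∣ p.1 := ⟨l, by rw [hr', mul_comm]⟩
    have hldvd : l ∣ p.1 := ⟨r', hr'⟩
    obtain ⟨u, hu1, hu2⟩ := Pool.Agent.Lib.H18E.CM_ex p.1 p.2 hprim r' hdvd hlt
    obtain ⟨U, hU⟩ : ∃ U : ℤ, U = (((u : ZMod p.1).val : ℕ) : ℤ) := ⟨_, rfl⟩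
    have hUu : ((U : ℤ) : ZMod p.1) = (u : ZMod p.1) := by
      rw [hU, Int.cast_natCast, ZMod.natCast_zmod_val]
    have hU1 : ((U : ℤ) : ZMod r') = 1 := by
      have h3 := congrArg (fun z : (ZMod r')ˣ => (z : ZMod r')) hu1
      have h4 : ZMod.castHom hdvd (ZMod r') (u : ZMod p.1) = 1 := by
        simpa [ZMod.unitsMap_def] using h3
      rw [← hUu, map_intCast] at h4
      exact h4
    have hUl : IsUnit ((U : ℤ) : ZMod l) := by
      have h3 : IsUnit (ZMod.castHom hldvd (ZMod l) (u : ZMod p.1)) := u.isUnit.map _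
      rw [← hUu, map_intCast] at h3
      exact h3
    obtain ⟨s, hs'⟩ : ∃ s : ℤ, U = 1 + s * r' := by
      have h3 : ((1 : ℤ) : ZMod r') = ((U : ℤ) : ZMod r') := by rw [hU1, Int.cast_one]
      rw [ZMod.intCast_eq_intCast_iff_dvd_sub] at h3
      obtain ⟨c, hc⟩ := h3
      exact ⟨c, by linear_combination hc⟩
    have h5 := CA_shift l f hfc U (s * m) hUl
    have h6 : ∀ j : ℕ, f (U * j + s * m) = p.2 (u : ZMod p.1) * f j := by
      intro j
      rw [hf, hf, ← hUu, ← map_mul]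
      congr 1
      rw [← Int.cast_mul]
      congr 1
      linear_combination (-m) * hs'
    rw [Finset.sum_congr rfl fun j _ => h6 j, ← Finset.mul_sum] at h5
    have h7 : ∑ j ∈ range l, f (j : ℤ) = 0 := by
      have h8 : (p.2 (u : ZMod p.1) - 1) * ∑ j ∈ range l, f (j : ℤ) = 0 := by
        linear_combination h5
      exact (mul_eq_zero.1 h8).resolve_left (sub_ne_zero.2 hu2)
    rw [h7, map_zero, mul_zero]

end Pool.Agent.Lib.H18Q
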