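import Mathlib

/-!
# Project H18Q, chunk CB: orthogonality of primitive periodic functions
-/

open Finset

namespace Pool.Agent.Lib.H18Q

/-- The sum of a function of period `P` over `P` consecutive integers does not change if the
argument is shifted (auxiliary; any period multiple). -/
theorem CB_shift (f : ℤ → ℂ) (P : ℕ) (hP : 0 < P) (hf : ∀ m, f (m + P) = f m) (N : ℤ) :
    ∑ c ∈ range P, f ((c : ℤ) + N) = ∑ c ∈ range P, f (c : ℤ) := by
  have hstep : ∀ N : ℤ, ∑ c ∈ range P, f ((c : ℤ) + (N + 1)) = ∑ c ∈ range P, f ((c : ℤ) + N) := by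
    intro N
    have h1 : ∑ c ∈ range (P + 1), f ((c : ℤ) + N) =
        ∑ c ∈ range P, f ((c : ℤ) + N) + f ((P : ℤ) + N) := Finset.sum_range_succ _ _
    have h2 : ∑ c ∈ range (P + 1), f ((c : ℤ) + N) =
        ∑ c ∈ range P, f (((c + 1 : ℕ) : ℤ) + N) + f (((0 : ℕ) : ℤ) + N) :=
      Finset.sum_range_succ' _ _
    have h3 : f ((P : ℤ) + N) = f (((0 : ℕ) : ℤ) + N) := by
      rw [show (P : ℤ) + N = N + P by ring, hf]
      simp
    have h4 : ∑ c ∈ range P, f (((c + 1 : ℕ) : ℤ) + N) = ∑ c ∈ range P, f ((c : ℤ) + (N + 1)) := by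
      apply Finset.sum_congr rfl
      intro c _
      congr 1
      push_cast
      ring
    rw [← h4]
    have h5 := h1.symm.trans h2
    rw [h3] at h5
    exact (add_right_cancel h5).symm
  induction N using Int.induction_on with
  | zero => simp
  | succ i ih => rw [hstep, ih]
  | pred i ih =>
    have := hstep (-(i : ℤ) - 1)
    rw [← this, show -(i : ℤ) - 1 + 1 = -(i : ℤ) by ring, ih]

theorem cb_mul (f : ℤ → ℂ) (q : ℕ) (hf : ∀ m, f (m + q) = f m) (m k : ℤ) :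
    f (m + k * q) = f m := by
  induction k using Int.induction_on with
  | zero => simp
  | succ i ih =>
    rw [show m + ((i : ℤ) + 1) * q = m + i * q + q by ring, hf, ih]
  | pred i ih =>
    have := hf (m + (-(i : ℤ) - 1) * q)
    rw [← this, show m + (-(i : ℤ) - 1) * q + q = m + -(i : ℤ) * q by ring, ih]

theorem cb_unit (G : ℤ → ℂ) (l : ℕ) (hl : l.Prime) (hG : ∀ m, G (m + l) = G m) (u : ℤ)
    (hu : ¬ (l : ℤ) ∣ u) : ∑ j ∈ range l, G ((j : ℤ) * u) = ∑ j ∈ range l, G (j : ℤ) := by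
  have hl0 : (0 : ℤ) < l := by exact_mod_cast hl.pos
  have hnn : ∀ j : ℕ, 0 ≤ ((j : ℤ) * u) % l := fun j => Int.emod_nonneg _ hl0.ne'
  have hlt : ∀ j : ℕ, ((j : ℤ) * u) % l < l := fun j => Int.emod_lt_of_pos _ hl0
  have hcast : ∀ j : ℕ, (((((j : ℤ) * u) % l).toNat : ℕ) : ℤ) = ((j : ℤ) * u) % l :=
    fun j => Int.toNat_of_nonneg (hnn j)
  have hper : ∀ j : ℕ, G ((j : ℤ) * u) = G ((((((j : ℤ) * u) % l).toNat : ℕ) : ℤ)) := by
    intro j
    rw [hcast]
    have h1 := Int.emod_add_mul_ediv ((j : ℤ) * u) l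
    conv_lhs => rw [← h1]
    rw [mul_comm (l : ℤ), cb_mul G l hG]
  have hmaps : ∀ j ∈ range l, (((j : ℤ) * u) % l).toNat ∈ range l := by
    intro j _
    rw [Finset.mem_range]
    have := hlt j
    have h2 := hcast j
    omega
  have hinj : Set.InjOn (fun j : ℕ => (((j : ℤ) * u) % l).toNat) (range l : Finset ℕ) := by
    intro a ha b hb hab
    simp only at hab
    have h1 : ((a : ℤ) * u) % l = ((b : ℤ) * u) % l := by
      rw [← hcast a, ← hcast b, hab]
    have h2 : (l : ℤ) ∣ (a : ℤ) * u - b * u := (Int.emod_emod_of_dvd _ dvd_rfl ▸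
      Int.emod_eq_emod_iff_emod_sub_eq_zero.mp h1 |> Int.dvd_of_emod_eq_zero)
    rw [← sub_mul] at h2
    have hlp : Prime (l : ℤ) := Nat.prime_iff_prime_int.mp hl
    rcases hlp.dvd_or_dvd h2 with h3 | h3
    · have ha' := Finset.mem_range.mp (Finset.mem_coe.mp ha)
      have hb' := Finset.mem_range.mp (Finset.mem_coe.mp hb)
      have h4 : (a : ℤ) - b = 0 := by
        apply Int.eq_zero_of_abs_lt_dvd h3
        rw [abs_lt]
        constructor <;> omega
      omega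
    · exact absurd h3 hu
  have hsurj : Set.SurjOn (fun j : ℕ => (((j : ℤ) * u) % l).toNat) (range l : Finset ℕ)
      (range l : Finset ℕ) :=
    Finset.surjOn_of_injOn_of_card_le _ (fun j hj => hmaps j hj) hinj le_rfl
  rw [Finset.sum_congr rfl fun j _ => hper j]
  exact Finset.sum_nbij (fun j : ℕ => (((j : ℤ) * u) % l).toNat) hmaps hinj hsurj
    (fun j _ => rfl)

theorem cb_aux (φ1 φ2 : ℤ → ℂ) (q1 q2 : ℕ) (h1 : 0 < q1) (h2 : 0 < q2)
    (p1 : ∀ m, φ1 (m + q1) = φ1 m) (p2 : ∀ m, φ2 (m + q2) = φ2 m) (l : ℕ) (hl : l.Prime)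
    (r1 : ∀ m : ℤ, ∑ j ∈ range l, φ1 (m + (j : ℤ) * (q1 / l : ℕ)) = 0)
    (hlt : q2.factorization l < q1.factorization l)
    (s t τ1 τ2 : ℤ) (hτ : τ1 = 1 ∨ τ1 = -1) :
    ∑ c ∈ range (q1 * q2), φ1 (s + τ1 * (c : ℤ)) * φ2 (t + τ2 * (c : ℤ)) = 0 := by
  set b := q2.factorization l with hb
  obtain ⟨q2', hq2'⟩ : ∃ q', q2 = l ^ b * q' := Nat.ordProj_dvd q2 l
  have hco : ¬ l ∣ q2' := by
    intro h
    have h3 : l ^ (b + 1) ∣ q2 := by
      rw [hq2', pow_succ]
      exact Nat.mul_dvd_mul_left _ h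
    have h4 := (hl.pow_dvd_iff_le_factorization h2.ne').mp h3
    omega
  obtain ⟨w, hw⟩ : l ^ (b + 1) ∣ q1 := (hl.pow_dvd_iff_le_factorization h1.ne').mpr hlt
  have hlq : q1 / l = l ^ b * w := by
    rw [hw, pow_succ, mul_assoc, mul_comm l w, ← mul_assoc, Nat.mul_div_cancel _ hl.pos]
  have hq1 : q1 = l * (q1 / l) := by
    rw [hlq, hw, pow_succ]
    ring
  have hN : (q1 / l) * q2' = w * q2 := by
    rw [hlq, hq2']
    ring
  set F : ℤ → ℂ := fun c => φ1 (s + τ1 * c) * φ2 (t + τ2 * c) with hF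
  have hFper : ∀ m, F (m + ((q1 * q2 : ℕ) : ℤ)) = F m := by
    intro m
    simp only [hF]
    rw [show s + τ1 * (m + ((q1 * q2 : ℕ) : ℤ)) = (s + τ1 * m) + (τ1 * q2) * q1 by
      push_cast; ring, show t + τ2 * (m + ((q1 * q2 : ℕ) : ℤ)) = (t + τ2 * m) + (τ2 * q1) * q2 by
      push_cast; ring, cb_mul φ1 q1 p1, cb_mul φ2 q2 p2]
  have hsum : ∀ j : ℕ, ∑ c ∈ range (q1 * q2), F (c : ℤ) =
      ∑ c ∈ range (q1 * q2), φ1 (s + τ1 * (c : ℤ) + (j : ℤ) * (τ1 * q2') * ((q1 / l : ℕ) : ℤ)) *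
        φ2 (t + τ2 * (c : ℤ)) := by
    intro j
    rw [← CB_shift F (q1 * q2) (Nat.mul_pos h1 h2) hFper ((j : ℤ) * (((q1 / l) * q2' : ℕ) : ℤ))]
    apply Finset.sum_congr rfl
    intro c _
    simp only [hF]
    congr 1
    · congr 1
      push_cast
      ring
    · rw [hN, show t + τ2 * ((c : ℤ) + (j : ℤ) * ((w * q2 : ℕ) : ℤ)) =
        (t + τ2 * c) + (τ2 * j * w) * q2 by push_cast; ring, cb_mul φ2 q2 p2]
  have hinner : ∀ x : ℤ, ∑ j ∈ range l, φ1 (x + (j : ℤ) * (τ1 * q2') * ((q1 / l : ℕ) : ℤ)) = 0 := by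
    intro x
    have hper : ∀ m : ℤ, (fun i : ℤ => φ1 (x + i * ((q1 / l : ℕ) : ℤ))) (m + l) =
        (fun i : ℤ => φ1 (x + i * ((q1 / l : ℕ) : ℤ))) m := by
      intro m
      simp only
      rw [show x + (m + (l : ℤ)) * ((q1 / l : ℕ) : ℤ) =
        x + m * ((q1 / l : ℕ) : ℤ) + ((l * (q1 / l) : ℕ) : ℤ) by push_cast; ring, ← hq1, p1]
    have hu : ¬ (l : ℤ) ∣ τ1 * q2' := by
      intro h
      apply hco
      rcases hτ with h3 | h3
      · rw [h3, one_mul] at h
        exact_mod_cast h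
      · rw [h3, neg_one_mul, dvd_neg] at h
        exact_mod_cast h
    have h3 := cb_unit (fun i : ℤ => φ1 (x + i * ((q1 / l : ℕ) : ℤ))) l hl hper (τ1 * q2') hu
    rw [h3]
    exact r1 x
  have htot : (l : ℂ) * ∑ c ∈ range (q1 * q2), F (c : ℤ) = 0 := by
    have h3 : ∑ _j ∈ range l, ∑ c ∈ range (q1 * q2), F (c : ℤ) =
        (l : ℂ) * ∑ c ∈ range (q1 * q2), F (c : ℤ) := by
      rw [Finset.sum_const, Finset.card_range, nsmul_eq_mul]
    rw [← h3, Finset.sum_congr rfl fun j _ => hsum j, Finset.sum_comm]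
    apply Finset.sum_eq_zero
    intro c _
    rw [← Finset.sum_mul, hinner, zero_mul]
  rcases mul_eq_zero.mp htot with h3 | h3
  · exact absurd (by exact_mod_cast h3) hl.pos.ne'
  · exact h3

/-- **Orthogonality.** Proof. By symmetry (substituting `c → τ c`, and exchanging the roles) let `l`
be a prime with `v_l(q1) > v_l(q2)` (exists as `q1 ≠ q2`; if only `v_l(q2) > v_l(q1)` occurs, exchange
the functions). Let `q2 = l^b q2'`, `l ∤ q2'`, and `N = (q1/l) q2'`. `q2 ∣ N` because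
`l^(b+1) ∣ q1`. The function `F(c) = φ1(s + c) φ2(t + τ c)` has period `q1 q2`. For `j = 0, …, l-1`,
by `CB_shift` `∑_c F(c) = ∑_c F(c + j N)`, and `F(c + jN) = φ1(s + c + j N) φ2(t + τ c)`. Sum over
`j`: `l ∑_c F(c) = ∑_c φ2(t + τ c) ∑_j φ1(s + c + j (q1/l) q2')`, and as `q2'` is a unit modulo `l` and
`φ1` has period `q1`, the inner sum is `∑_j φ1(s + c + j (q1/l)) = 0`. -/
theorem orth (φ1 φ2 : ℤ → ℂ) (q1 q2 : ℕ) (h1 : 0 < q1) (h2 : 0 < q2)
    (p1 : ∀ m, φ1 (m + q1) = φ1 m) (p2 : ∀ m, φ2 (m + q2) = φ2 m)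
    (r1 : ∀ l : ℕ, l.Prime → l ∣ q1 → ∀ m : ℤ,
      ∑ j ∈ range l, φ1 (m + (j : ℤ) * (q1 / l : ℕ)) = 0)
    (r2 : ∀ l : ℕ, l.Prime → l ∣ q2 → ∀ m : ℤ,
      ∑ j ∈ range l, φ2 (m + (j : ℤ) * (q2 / l : ℕ)) = 0)
    (hne : q1 ≠ q2) (s t τ : ℤ) (hτ : τ = 1 ∨ τ = -1) :
    ∑ c ∈ range (q1 * q2), φ1 (s + (c : ℤ)) * φ2 (t + τ * (c : ℤ)) = 0 := by
  obtain ⟨l, hl⟩ : ∃ l, q1.factorization l ≠ q2.factorization l := by
    by_contra h
    push Not at h
    exact hne (Nat.eq_of_factorization_eq h1.ne' h2.ne' h)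
  have hlp : l.Prime := by
    by_contra h
    exact hl (by rw [Nat.factorization_eq_zero_of_not_prime _ h,
      Nat.factorization_eq_zero_of_not_prime _ h])
  rcases Nat.lt_or_gt_of_ne hl with h | h
  · have hd : l ∣ q2 := Nat.dvd_of_factorization_pos (by omega)
    have h3 := cb_aux φ2 φ1 q2 q1 h2 h1 p2 p1 l hlp (r2 l hlp hd) h t s τ 1 hτ
    rw [mul_comm q1 q2, ← h3]
    apply Finset.sum_congr rfl
    intro c _
    rw [one_mul, mul_comm]
  · have hd : l ∣ q1 := Nat.dvd_of_factorization_pos (by omega)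
    have h3 := cb_aux φ1 φ2 q1 q2 h1 h2 p1 p2 l hlp (r1 l hlp hd) h s t 1 τ (Or.inl rfl)
    rw [← h3]
    apply Finset.sum_congr rfl
    intro c _
    rw [one_mul]

theorem cb_per (φ : ℕ → ℂ) (P : ℕ) (per : ∀ c, φ (c + P) = φ c) (n c : ℕ) :
    φ (n * P + c) = φ c := by
  induction n with
  | zero => simp
  | succ n ih =>
    rw [show (n + 1) * P + c = n * P + c + P by ring, per, ih]

theorem cb_slow (f : ℕ → ℂ) (H : ℕ) (Λ : ℝ) (fl : ∀ c, c + 1 < H → ‖f (c + 1) - f c‖ ≤ Λ)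
    (a r : ℕ) (h : a + r < H) : ‖f (a + r) - f a‖ ≤ r * Λ := by
  induction r with
  | zero => simp
  | succ r ih =>
    have h1 := ih (by omega)
    have h2 := fl (a + r) (by omega)
    calc ‖f (a + (r + 1)) - f a‖ = ‖(f (a + r + 1) - f (a + r)) + (f (a + r) - f a)‖ := by
          congr 1
          rw [← add_assoc]
          ring
      _ ≤ ‖f (a + r + 1) - f (a + r)‖ + ‖f (a + r) - f a‖ := norm_add_le _ _
      _ ≤ Λ + r * Λ := add_le_add h2 h1
      _ = ((r + 1 : ℕ) : ℝ) * Λ := by push_cast; ring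

/-- Periodic times slowly varying. Proof: split `[0, H)` into `⌊H/P⌋` blocks of length `P` and a
rest of length `< P`. In a block starting at `c0`, `|f(c) - f(c0)| ≤ P Λ`, so the block sum is
`f(c0) ∑_{one period} φ` up to `Φ P · P Λ`. Total: `(H/P) F |∑_{period} φ| + (H/P) Φ P² Λ + Φ P F`. -/
theorem per_slow (φ f : ℕ → ℂ) (P H : ℕ) (hP : 0 < P) (Φ F Λ : ℝ) (hΦ : 0 ≤ Φ) (hF : 0 ≤ F)
    (hΛ : 0 ≤ Λ) (per : ∀ c, φ (c + P) = φ c) (bd : ∀ c, ‖φ c‖ ≤ Φ)
    (fb : ∀ c < H, ‖f c‖ ≤ F) (fl : ∀ c, c + 1 < H → ‖f (c + 1) - f c‖ ≤ Λ) :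
    ‖∑ c ∈ range H, φ c * f c‖ ≤
      ‖∑ c ∈ range P, φ c‖ / P * F * H + Φ * P * (F + H * Λ) := by
  set S := ‖∑ c ∈ range P, φ c‖ with hS
  have hS0 : 0 ≤ S := norm_nonneg _
  have hP0 : (0 : ℝ) < P := by exact_mod_cast hP
  have hblock : ∀ n : ℕ, (n + 1) * P ≤ H →
      ‖∑ r ∈ range P, φ (n * P + r) * f (n * P + r)‖ ≤ S * F + P * (Φ * (P * Λ)) := by
    intro n hn
    have hn' : n * P + P ≤ H := by
      have : (n + 1) * P = n * P + P := by ring
      omega
    have h1 : ∑ r ∈ range P, φ (n * P + r) * f (n * P + r) =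
        (∑ r ∈ range P, φ r) * f (n * P) +
          ∑ r ∈ range P, φ r * (f (n * P + r) - f (n * P)) := by
      rw [Finset.sum_mul, ← Finset.sum_add_distrib]
      apply Finset.sum_congr rfl
      intro r _
      rw [cb_per φ P per]
      ring
    rw [h1]
    refine (norm_add_le _ _).trans (add_le_add ?_ ?_)
    · rw [norm_mul]
      exact mul_le_mul_of_nonneg_left (fb _ (by omega)) hS0
    · calc ‖∑ r ∈ range P, φ r * (f (n * P + r) - f (n * P))‖
          ≤ ∑ r ∈ range P, ‖φ r * (f (n * P + r) - f (n * P))‖ := norm_sum_le _ _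
        _ ≤ ∑ _r ∈ range P, Φ * (P * Λ) := by
            apply Finset.sum_le_sum
            intro r hr
            have hr' := Finset.mem_range.mp hr
            rw [norm_mul]
            apply mul_le_mul (bd r) _ (norm_nonneg _) hΦ
            refine (cb_slow f H Λ fl (n * P) r (by omega)).trans ?_
            apply mul_le_mul_of_nonneg_right _ hΛ
            exact_mod_cast hr'.le
        _ = P * (Φ * (P * Λ)) := by
            rw [Finset.sum_const, Finset.card_range, nsmul_eq_mul]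
  have hblocks : ∀ n : ℕ, n * P ≤ H →
      ‖∑ c ∈ range (n * P), φ c * f c‖ ≤ n * (S * F + P * (Φ * (P * Λ))) := by
    intro n
    induction n with
    | zero => simp
    | succ n ih =>
      intro hn
      have hn' : n * P ≤ H := by
        have : (n + 1) * P = n * P + P := by ring
        omega
      rw [show (n + 1) * P = n * P + P by ring, Finset.sum_range_add]
      refine (norm_add_le _ _).trans ?_
      have h1 := ih hn'
      have h2 := hblock n hn
      push_cast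
      linarith
  have hHd : H = H / P * P + H % P := by
    rw [mul_comm]
    exact (Nat.div_add_mod H P).symm
  have hrest : ‖∑ r ∈ range (H % P), φ (H / P * P + r) * f (H / P * P + r)‖ ≤ P * (Φ * F) := by
    calc ‖∑ r ∈ range (H % P), φ (H / P * P + r) * f (H / P * P + r)‖
        ≤ ∑ r ∈ range (H % P), ‖φ (H / P * P + r) * f (H / P * P + r)‖ := norm_sum_le _ _
      _ ≤ ∑ _r ∈ range (H % P), Φ * F := by
          apply Finset.sum_le_sum
          intro r hr
          have hr' := Finset.mem_range.mp hr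
          rw [norm_mul]
          exact mul_le_mul (bd _) (fb _ (by omega)) (norm_nonneg _) hΦ
      _ = (H % P : ℕ) * (Φ * F) := by
          rw [Finset.sum_const, Finset.card_range, nsmul_eq_mul]
      _ ≤ P * (Φ * F) := by
          apply mul_le_mul_of_nonneg_right _ (mul_nonneg hΦ hF)
          exact_mod_cast (Nat.mod_lt H hP).le
  have hdiv : ((H / P : ℕ) : ℝ) ≤ H / P := Nat.cast_div_le
  have hmain := hblocks (H / P) (Nat.div_mul_le_self H P)
  have hsplit : ∑ c ∈ range H, φ c * f c = ∑ c ∈ range (H / P * P), φ c * f c +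
      ∑ r ∈ range (H % P), φ (H / P * P + r) * f (H / P * P + r) := by
    conv_lhs => rw [hHd]
    rw [Finset.sum_range_add]
  rw [hsplit]
  refine (norm_add_le _ _).trans ?_
  have hnn : 0 ≤ S * F + P * (Φ * (P * Λ)) := by positivity
  calc ‖∑ c ∈ range (H / P * P), φ c * f c‖ +
        ‖∑ r ∈ range (H % P), φ (H / P * P + r) * f (H / P * P + r)‖
      ≤ (H / P : ℕ) * (S * F + P * (Φ * (P * Λ))) + P * (Φ * F) := add_le_add hmain hrest
    _ ≤ (H / P : ℝ) * (S * F + P * (Φ * (P * Λ))) + P * (Φ * F) := by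
        have := mul_le_mul_of_nonneg_right hdiv hnn
        linarith
    _ = S / P * F * H + Φ * P * (F + H * Λ) := by
        field_simp
        ring

end Pool.Agent.Lib.H18Q
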