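import Pool.Agent.Lib.H18Q.CDefs

/-!
# Project H18Q, chunk CC1: means of products of two components of the same modulus
-/

open Finset

namespace Pool.Agent.Lib.H18Q

open Pool.Agent.Lib.H68T

theorem cc1_permul {f : ℕ → ℝ} {a : ℕ} (hf : ∀ c, f (c + a) = f c) (j c : ℕ) :
    f (a * j + c) = f c := by
  induction j with
  | zero => simp
  | succ j ih => rw [show a * (j+1) + c = (a * j + c) + a by ring, hf, ih]

theorem cc1_mod {f : ℕ → ℝ} {a : ℕ} (hf : ∀ c, f (c + a) = f c) (c : ℕ) :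
    f c = f (c % a) := by
  conv_lhs => rw [← Nat.div_add_mod c a]
  exact cc1_permul hf _ _

theorem cc1_per {f : ℕ → ℝ} {a : ℕ} (hf : ∀ c, f (c + a) = f c) (m : ℕ) :
    ∑ c ∈ range (a * m), f c = m * ∑ c ∈ range a, f c := by
  induction m with
  | zero => simp
  | succ m ih =>
    rw [Nat.mul_succ, Finset.sum_range_add, ih]
    simp only [cc1_permul hf]
    push_cast
    ring

theorem cc1_two {f g : ℕ → ℝ} {a b : ℕ} (ha : 0 < a) (hb : 0 < b) (hab : Nat.Coprime a b)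
    (hf : ∀ c, f (c + a) = f c) (hg : ∀ c, g (c + b) = g c) :
    ∑ c ∈ range (a * b), f c * g c = (∑ c ∈ range a, f c) * ∑ c ∈ range b, g c := by
  rw [Finset.sum_mul_sum, ← Finset.sum_product']
  refine Finset.sum_nbij' (fun c => (c % a, c % b))
    (fun x => (Nat.chineseRemainder hab x.1 x.2 : ℕ)) ?_ ?_ ?_ ?_ ?_
  · intro c _
    simp only [mem_product, mem_range]
    exact ⟨Nat.mod_lt _ ha, Nat.mod_lt _ hb⟩
  · intro x _
    simp only [mem_range]
    exact Nat.chineseRemainder_lt_mul hab _ _ ha.ne' hb.ne'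
  · intro c hc
    simp only [mem_range] at hc
    have h1 := (Nat.chineseRemainder hab (c % a) (c % b)).2
    have h2 := Nat.chineseRemainder_lt_mul hab (c % a) (c % b) ha.ne' hb.ne'
    have h3 : (Nat.chineseRemainder hab (c % a) (c % b) : ℕ) ≡ c [MOD a * b] := by
      rw [← Nat.modEq_and_modEq_iff_modEq_mul hab]
      exact ⟨h1.1.trans (Nat.mod_modEq _ _), h1.2.trans (Nat.mod_modEq _ _)⟩
    exact Nat.ModEq.eq_of_lt_of_lt h3 h2 hc
  · intro x hx
    simp only [mem_product, mem_range] at hx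
    have h1 := (Nat.chineseRemainder hab x.1 x.2).2
    ext
    · simp only
      exact Nat.ModEq.eq_of_lt_of_lt ((Nat.mod_modEq _ _).trans h1.1) (Nat.mod_lt _ ha) hx.1
    · simp only
      exact Nat.ModEq.eq_of_lt_of_lt ((Nat.mod_modEq _ _).trans h1.2) (Nat.mod_lt _ hb) hx.2
  · intro c _
    simp only
    rw [← cc1_mod hf, ← cc1_mod hg]

theorem cc1_prodper (S : Finset ℕ) (h : ℕ → ℕ → ℝ) (hp : ∀ l ∈ S, ∀ c, h l (c + l) = h l c) :
    ∀ c, (∏ l ∈ S, h l (c + ∏ i ∈ S, i)) = ∏ l ∈ S, h l c := by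
  intro c
  refine Finset.prod_congr rfl fun l hl => ?_
  obtain ⟨k, hk⟩ := Finset.dvd_prod_of_mem (fun i : ℕ => i) hl
  have hk' : (∏ i ∈ S, i) = l * k := hk
  rw [hk', add_comm c, cc1_permul (hp l hl)]

theorem cc1_crtset (S : Finset ℕ) (hS : ∀ l ∈ S, l.Prime) (h : ℕ → ℕ → ℝ)
    (hp : ∀ l ∈ S, ∀ c, h l (c + l) = h l c) :
    ∑ c ∈ range (∏ l ∈ S, l), ∏ l ∈ S, h l c = ∏ l ∈ S, ∑ c ∈ range l, h l c := by
  induction S using Finset.induction_on with
  | empty => simp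
  | insert a S ha ih =>
    have h1 := ih (fun l hl => hS l (mem_insert_of_mem hl))
      (fun l hl => hp l (mem_insert_of_mem hl))
    rw [Finset.prod_insert ha, Finset.prod_insert ha, ← h1]
    simp only [Finset.prod_insert ha]
    have hpa : a.Prime := hS a (mem_insert_self _ _)
    refine cc1_two hpa.pos (Finset.prod_pos fun l hl => (hS l (mem_insert_of_mem hl)).pos) ?_
      (hp a (mem_insert_self _ _)) (cc1_prodper S h (fun l hl => hp l (mem_insert_of_mem hl)))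
    refine Nat.Coprime.prod_right fun l hl => ?_
    rw [Nat.coprime_primes hpa (hS l (mem_insert_of_mem hl))]
    rintro rfl
    exact ha hl

/-- Chinese remainder theorem for means: the functions `h l`, `l` a prime factor of `q`, have
period `l`. Proof: the product has period `R = ∏ l` (the radical), and `q` is a multiple of `R`, so the
mean over `[0, q)` is the mean over `[0, R)`; `c ↦ (c mod l)_l` is a bijection of `range R` onto the
product (`ZMod.prodEquivPi`, `Nat.chineseRemainder...`, or induction on the set of primes with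
`Nat.Coprime` two-factor statement: for coprime `a, b`, `f` of period `a`, `g` of period `b`:
`∑_{c < ab} f g = ∑_{c < a} f ∑_{c < b} g`). -/
theorem crt_mean (q : ℕ) (hq : 0 < q) (h : ℕ → ℕ → ℝ)
    (hp : ∀ l ∈ q.primeFactors, ∀ c, h l (c + l) = h l c) :
    (∑ c ∈ range q, ∏ l ∈ q.primeFactors, h l c) / q =
      ∏ l ∈ q.primeFactors, ((∑ c ∈ range l, h l c) / l) := by
  obtain ⟨m, hm⟩ := Nat.prod_primeFactors_dvd q
  have hR : 0 < ∏ l ∈ q.primeFactors, l :=
    Finset.prod_pos fun l hl => (Nat.prime_of_mem_primeFactors hl).pos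
  have h1 := cc1_per (f := fun c => ∏ l ∈ q.primeFactors, h l c)
    (cc1_prodper q.primeFactors h hp) m
  rw [← hm, cc1_crtset q.primeFactors (fun l hl => Nat.prime_of_mem_primeFactors hl) h hp] at h1
  rw [h1, Finset.prod_div_distrib]
  have h2 : (q : ℝ) = (∏ l ∈ q.primeFactors, (l : ℝ)) * m := by
    conv_lhs => rw [hm]
    push_cast
    rfl
  have hm0 : (m : ℝ) ≠ 0 := by
    rintro h0
    have : m = 0 := by exact_mod_cast h0
    subst this
    omega
  rw [h2]
  rw [mul_comm (m : ℝ), mul_div_mul_right _ _ hm0]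


noncomputable def cc1_al (r l : ℕ) (m : ℤ) : ℝ :=
  if l ∣ r then (if (l : ℤ) ∣ m then 0 else (l : ℝ) / ((l : ℝ) - 1))
  else (if (l : ℤ) ∣ m then 1 else 1 / ((l : ℝ) - 1))

theorem cc1_al_nonneg (r l : ℕ) (hl : l.Prime) (m : ℤ) : 0 ≤ cc1_al r l m := by
  have h2 : (2 : ℝ) ≤ l := by exact_mod_cast hl.two_le
  unfold cc1_al
  split_ifs
  · exact le_rfl
  · exact div_nonneg (by linarith) (by linarith)
  · exact zero_le_one
  · exact div_nonneg (by linarith) (by linarith)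

theorem cc1_aw (p : Σ r : ℕ, DirichletCharacter ℂ r) (k : ℕ)
    (hc : Nat.Coprime k p.1) (m : ℤ) :
    aw p k m = ∏ l ∈ (p.1 * k).primeFactors, cc1_al p.1 l m := by
  have hc' : Nat.Coprime p.1 k := hc.symm
  rw [hc'.primeFactors_mul, Finset.prod_union hc'.disjoint_primeFactors]
  unfold aw
  congr 1
  · refine Finset.prod_congr rfl fun l hl => ?_
    unfold cc1_al
    rw [if_pos (Nat.dvd_of_mem_primeFactors hl)]
  · refine Finset.prod_congr rfl fun l hl => ?_
    have hn : ¬ l ∣ p.1 := by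
      intro h
      have hlp := Nat.prime_of_mem_primeFactors hl
      exact (Nat.not_coprime_of_dvd_of_dvd hlp.one_lt h (Nat.dvd_of_mem_primeFactors hl)) hc'
    unfold cc1_al
    rw [if_neg hn]

/-- indicator -/
noncomputable def cc1_u (l : ℕ) (s : ℤ) (c : ℕ) : ℝ := if (l : ℤ) ∣ s + c then 1 else 0

theorem cc1_cnt (l : ℕ) (hl : 0 < l) (s : ℤ) : ∑ c ∈ range l, cc1_u l s c = 1 := by
  unfold cc1_u
  have hl' : (0 : ℤ) < l := by exact_mod_cast hl
  have h0 := Int.emod_nonneg (-s) hl'.ne'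
  have h1 := Int.emod_lt_of_pos (-s) hl'
  rw [Finset.sum_eq_single ((-s) % l).toNat]
  · rw [if_pos]
    have : (((-s) % l).toNat : ℤ) = (-s) % l := Int.toNat_of_nonneg h0
    rw [this]
    have h2 := Int.emod_add_mul_ediv (-s) l
    refine ⟨-((-s) / l), ?_⟩
    linarith
  · intro c hc hne
    rw [if_neg]
    intro hd
    apply hne
    rw [mem_range] at hc
    have hc' : (c : ℤ) < l := by exact_mod_cast hc
    have h3 : (c : ℤ) = (-s) % l := by
      have h5 : (-s) ≡ c [ZMOD l] := Int.modEq_iff_dvd.2 (by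
        rw [show (c : ℤ) - -s = s + c by ring]; exact hd)
      have h4 : (c : ℤ) % l = (-s) % l := h5.symm
      rw [← h4, Int.emod_eq_of_lt (by positivity) hc']
    rw [← h3]
    simp
  · intro h
    exfalso
    apply h
    rw [mem_range]
    zify
    rw [Int.toNat_of_nonneg h0]
    exact h1

theorem cc1_uu_eq (l : ℕ) (s s' : ℤ) (h : (l : ℤ) ∣ s - s') (c : ℕ) :
    cc1_u l s c * cc1_u l s' c = cc1_u l s c := by
  unfold cc1_u
  have : (l : ℤ) ∣ s + c ↔ (l : ℤ) ∣ s' + c := by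
    constructor
    · intro h1
      have := dvd_sub h1 h
      rwa [show s + (c : ℤ) - (s - s') = s' + c by ring] at this
    · intro h1
      have := dvd_add h1 h
      rwa [show s' + (c : ℤ) + (s - s') = s + c by ring] at this
  by_cases h1 : (l : ℤ) ∣ s + c
  · rw [if_pos h1, if_pos (this.1 h1)]; norm_num
  · rw [if_neg h1]; norm_num

theorem cc1_uu_ne (l : ℕ) (s s' : ℤ) (h : ¬ (l : ℤ) ∣ s - s') (c : ℕ) :
    cc1_u l s c * cc1_u l s' c = 0 := by
  unfold cc1_u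
  by_cases h1 : (l : ℤ) ∣ s + c
  · rw [if_neg (c := (l : ℤ) ∣ s' + c)]
    · simp
    · intro h2
      apply h
      have := dvd_sub h1 h2
      rwa [show s + (c : ℤ) - (s' + c) = s - s' by ring] at this
  · rw [if_neg h1]; simp

theorem cc1_lin (l : ℕ) (hl : 0 < l) (s s' : ℤ) (α β α' β' : ℝ) :
    ∑ c ∈ range l, (α + β * cc1_u l s c) * (α' + β' * cc1_u l s' c) =
      l * α * α' + α * β' + α' * β + β * β' * (if (l : ℤ) ∣ s - s' then 1 else 0) := by
  have h1 : ∀ c, (α + β * cc1_u l s c) * (α' + β' * cc1_u l s' c) =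
      α * α' + α * β' * cc1_u l s' c + α' * β * cc1_u l s c +
        β * β' * (cc1_u l s c * cc1_u l s' c) := fun c => by ring
  simp only [h1, Finset.sum_add_distrib, ← Finset.mul_sum, cc1_cnt l hl]
  rw [Finset.sum_const, card_range]
  have h2 : ∑ c ∈ range l, cc1_u l s c * cc1_u l s' c = if (l : ℤ) ∣ s - s' then 1 else 0 := by
    split_ifs with h
    · rw [Finset.sum_congr rfl fun c _ => cc1_uu_eq l s s' h c, cc1_cnt l hl]
    · rw [Finset.sum_congr rfl fun c _ => cc1_uu_ne l s s' h c]; simp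
  rw [h2]
  simp only [nsmul_eq_mul]
  ring

theorem cc1_al_lin (r l : ℕ) (s : ℤ) (c : ℕ) :
    cc1_al r l (s + c) = (if l ∣ r then (l : ℝ) / ((l : ℝ) - 1) else 1 / ((l : ℝ) - 1)) +
      (if l ∣ r then - ((l : ℝ) / ((l : ℝ) - 1)) else 1 - 1 / ((l : ℝ) - 1)) * cc1_u l s c := by
  unfold cc1_al cc1_u
  split_ifs <;> ring

theorem cc1_tau (l : ℕ) (t τ : ℤ) (hτ : τ = 1 ∨ τ = -1) (c : ℕ) (r : ℕ) :
    cc1_al r l (t + τ * c) = cc1_al r l (τ * t + c) := by
  have : (l : ℤ) ∣ t + τ * c ↔ (l : ℤ) ∣ τ * t + c := by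
    rcases hτ with rfl | rfl
    · simp
    · rw [show (-1 : ℤ) * t + c = -(t + -1 * c) by ring, Int.dvd_neg]
  unfold cc1_al
  simp only [this]

theorem cc1_local (r r' l : ℕ) (hl : l.Prime) (s t τ D : ℤ) (hτ : τ = 1 ∨ τ = -1)
    (hD : D = s - τ * t) (hD2 : (2 : ℤ) ∣ D) :
    (∑ c ∈ range l, cc1_al r l (s + (c : ℤ)) * cc1_al r' l (t + τ * (c : ℤ))) / (l : ℝ) ≤
      loc (r * r') D l := by
  have h2 : (2 : ℝ) ≤ l := by exact_mod_cast hl.two_le
  have hl1 : (0 : ℝ) < (l : ℝ) - 1 := by linarith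
  have hl0 : (0 : ℝ) < (l : ℝ) := by linarith
  simp only [cc1_tau l t τ hτ, cc1_al_lin]
  rw [cc1_lin l hl.pos, ← hD]
  unfold loc
  have hw : l ∣ r * r' ↔ l ∣ r ∨ l ∣ r' := hl.dvd_mul
  have h3 : ¬ (l : ℤ) ∣ D → (3 : ℝ) ≤ l := by
    intro h
    have : l ≠ 2 := by
      rintro rfl
      exact h hD2
    have h4 : 3 ≤ l := by have := hl.two_le; omega
    exact_mod_cast h4
  by_cases hd : (l : ℤ) ∣ D
  · simp only [hd, if_true]
    by_cases h1 : l ∣ r <;> by_cases h1' : l ∣ r' <;>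
      simp only [hw, h1, h1', if_true, if_false, or_true, true_or, or_self, or_false]
    · rw [div_le_div_iff₀ hl0 hl1]
      field_simp
      nlinarith
    · rw [div_le_div_iff₀ hl0 hl1]
      field_simp
      nlinarith
    · rw [div_le_div_iff₀ hl0 hl1]
      field_simp
      nlinarith
    · rw [div_le_div_iff₀ hl0 hl1]
      field_simp
      nlinarith
  · have h3' := h3 hd
    simp only [hd, if_false]
    by_cases h1 : l ∣ r <;> by_cases h1' : l ∣ r' <;>
      simp only [hw, h1, h1', if_true, if_false, or_true, true_or, or_self, or_false]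
    · rw [div_le_one hl0]
      field_simp
      nlinarith
    · rw [div_le_one hl0]
      field_simp
      nlinarith
    · rw [div_le_one hl0]
      field_simp
      nlinarith
    · rw [div_le_div_iff₀ hl0 (by positivity)]
      field_simp
      nlinarith


/-- **Local means.** Let `q = p.1 k = p'.1 k'`, `τ = ±1`, `D = s - τ t ≠ 0`, `2 ∣ D`. Then the mean over
`c` modulo `q` of `aw p k (s + c) aw p' k' (t + τ c)` is at most `∏_{l ∣ q} loc (p.1 p'.1) D l`.

Proof. `aw p k m = ∏_{l ∣ q} a_l(m)` with `a_l(m) = l/(l-1) 1[l ∤ m]` if `l ∣ p.1` and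
`a_l(m) = 1 if l ∣ m else 1/(l-1)` if `l ∣ k` (the prime factors of `q` are the disjoint union of those
of `p.1` and of `k`), similarly for `p'`. By `crt_mean` the mean is the product of the local means
`E_l = (1/l) ∑_{c < l} a_l(s+c) a'_l(t + τ c)` (all factors `≥ 0`, so it suffices to bound each
`E_l ≤ loc`). For `c` modulo `l`: `l ∣ s + c` for exactly one `c`, `l ∣ t + τ c` for exactly one `c`; they
agree iff `l ∣ s - τ t = D` (`c ≡ -s`, `c ≡ -τ t`). (A) `l ∣ p.1`, `l ∣ p'.1`: `E = (l/(l-1))²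
(1 - 1/l) = l/(l-1)` if `l ∣ D`; else `(l/(l-1))² (1 - 2/l) ≤ 1`. (B) `l ∣ p.1`, `l ∣ k'` (or
conversely): `l ∣ D`: `(l/(l-1)) ((l-1)/l) (1/(l-1)) = 1/(l-1) ≤ l/(l-1)`; `l ∤ D` (so `l ≥ 3`):
`(l/(l-1)) (1/l + ((l-2)/l)/(l-1)) ≤ 2/(l-1) ≤ 1`. (C) `l ∣ k`, `l ∣ k'`: `l ∣ D`:
`1/l + ((l-1)/l)/(l-1)² = 1/(l-1)`; `l ∤ D`: `2/(l (l-1)) + (l-2)/(l (l-1)²) ≤ 3/(l-1)²`. In case (C)
`l ∤ p.1 p'.1`; in (A), (B) `l ∣ p.1 p'.1`. -/
theorem loc_mean (Q : ℕ) (p p' : Σ r : ℕ, DirichletCharacter ℂ r) (hp : p ∈ PC Q)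
    (hp' : p' ∈ PC Q) (k k' : ℕ) (hk : k ∈ KS Q p.1) (hk' : k' ∈ KS Q p'.1)
    (he : p.1 * k = p'.1 * k') (s t τ D : ℤ) (hτ : τ = 1 ∨ τ = -1) (hD : D = s - τ * t)
    (hD2 : (2 : ℤ) ∣ D) :
    (∑ c ∈ range (p.1 * k), aw p k (s + (c : ℤ)) * aw p' k' (t + τ * (c : ℤ))) /
        (p.1 * k : ℕ) ≤
      ∏ l ∈ (p.1 * k).primeFactors, loc (p.1 * p'.1) D l := by
  have h1 := (mem_PC.1 hp).1
  unfold KS at hk hk'
  simp only [mem_filter, mem_Icc] at hk hk'
  have hq : 0 < p.1 * k := Nat.mul_pos h1 hk.1.1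
  have h2 : ∀ c : ℕ, aw p k (s + (c : ℤ)) * aw p' k' (t + τ * (c : ℤ)) =
      ∏ l ∈ (p.1 * k).primeFactors,
        (cc1_al p.1 l (s + (c : ℤ)) * cc1_al p'.1 l (t + τ * (c : ℤ))) := by
    intro c
    rw [cc1_aw p k hk.2.2, cc1_aw p' k' hk'.2.2, ← he, ← Finset.prod_mul_distrib]
  simp only [h2]
  rw [crt_mean (p.1 * k) hq
    (fun l c => cc1_al p.1 l (s + (c : ℤ)) * cc1_al p'.1 l (t + τ * (c : ℤ)))]
  · refine Finset.prod_le_prod ?_ ?_
    · intro l hl
      have hlp := Nat.prime_of_mem_primeFactors hl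
      refine div_nonneg (Finset.sum_nonneg fun c _ => mul_nonneg ?_ ?_) (Nat.cast_nonneg _)
      · exact cc1_al_nonneg _ _ hlp _
      · exact cc1_al_nonneg _ _ hlp _
    · intro l hl
      exact cc1_local _ _ l (Nat.prime_of_mem_primeFactors hl) s t τ D hτ hD hD2
  · intro l hl c
    have e1 : (l : ℤ) ∣ s + ((c + l : ℕ) : ℤ) ↔ (l : ℤ) ∣ s + (c : ℤ) := by
      push_cast
      rw [← add_assoc]
      exact Int.dvd_add_left (dvd_refl _)
    have e2 : (l : ℤ) ∣ t + τ * ((c + l : ℕ) : ℤ) ↔ (l : ℤ) ∣ t + τ * (c : ℤ) := by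
      push_cast
      rw [mul_add, ← add_assoc]
      exact (Int.dvd_add_left (Dvd.intro_left τ rfl))
    simp only [cc1_al, e1, e2]

theorem cc1_tele (N : ℕ) : ∑ n ∈ Icc 3 N, (1 : ℝ) / ((n : ℝ) - 1) ^ 2 ≤ 1 := by
  have h : ∀ N : ℕ, 2 ≤ N → ∑ n ∈ Icc 3 N, (1 : ℝ) / ((n : ℝ) - 1) ^ 2 ≤ 1 - 1 / ((N : ℝ) - 1) := by
    intro N hN
    induction N, hN using Nat.le_induction with
    | base => simp; norm_num
    | succ N hN ih =>
      rw [Finset.sum_Icc_succ_top (by omega)]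
      have h2 : (2 : ℝ) ≤ N := by exact_mod_cast hN
      have h3 : (1 : ℝ) / (((N + 1 : ℕ) : ℝ) - 1) ^ 2 ≤ 1 / ((N : ℝ) - 1) - 1 / (((N + 1 : ℕ) : ℝ) - 1) := by
        push_cast
        rw [show (N : ℝ) + 1 - 1 = N by ring]
        have h4 : (0 : ℝ) < (N : ℝ) - 1 := by linarith
        have h5 : (0 : ℝ) < N := by linarith
        rw [div_sub_div _ _ h4.ne' h5.ne', div_le_div_iff₀ (by positivity) (by positivity)]
        nlinarith
      linarith
  rcases le_or_gt 2 N with hN | hN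
  · have := h N hN
    have h2 : (2 : ℝ) ≤ N := by exact_mod_cast hN
    have h3 : (0 : ℝ) ≤ 1 / ((N : ℝ) - 1) := by
      apply div_nonneg <;> linarith
    linarith
  · rw [Finset.Icc_eq_empty (by omega)]; simp

theorem cc1_loc_nonneg (w : ℕ) (D : ℤ) (l : ℕ) (hl : l.Prime) : 0 ≤ loc w D l := by
  have h2 : (2 : ℝ) ≤ l := by exact_mod_cast hl.two_le
  unfold loc
  split_ifs
  · exact div_nonneg (by linarith) (by linarith)
  · exact div_nonneg (by linarith) (by linarith)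
  · exact zero_le_one
  · positivity

/-- the local factor -/
noncomputable def cc1_F (w : ℕ) (D : ℤ) (l : ℕ) : ℝ := if l ∣ w then loc w D l else 1 + loc w D l

theorem cc1_F_bound (w : ℕ) (D : ℤ) (hD2 : (2 : ℤ) ∣ D) (l : ℕ) (hl : l.Prime) :
    cc1_F w D l ≤ (if (l : ℤ) ∣ D then 1 + 1 / ((l : ℝ) - 1) else 1) *
      Real.exp (if 3 ≤ l then 3 / ((l : ℝ) - 1) ^ 2 else 0) := by
  have h2 : (2 : ℝ) ≤ l := by exact_mod_cast hl.two_le
  have hl1 : (0 : ℝ) < (l : ℝ) - 1 := by linarith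
  have he : (1 : ℝ) ≤ Real.exp (if 3 ≤ l then 3 / ((l : ℝ) - 1) ^ 2 else 0) := by
    apply Real.one_le_exp
    split_ifs
    · positivity
    · exact le_rfl
  unfold cc1_F loc
  by_cases hd : (l : ℤ) ∣ D
  · simp only [hd, if_true]
    have h3 : (l : ℝ) / ((l : ℝ) - 1) = 1 + 1 / ((l : ℝ) - 1) := by field_simp; ring
    have h4 : (0 : ℝ) ≤ 1 + 1 / ((l : ℝ) - 1) := by positivity
    by_cases h5 : l ∣ w
    · rw [if_pos h5, if_pos h5, h3]
      exact le_mul_of_one_le_right h4 he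
    · rw [if_neg h5, if_neg h5]
      exact le_mul_of_one_le_right h4 he
  · have h3 : 3 ≤ l := by
      have : l ≠ 2 := by
        rintro rfl
        exact hd hD2
      have := hl.two_le
      omega
    simp only [hd, if_false, h3, if_true, one_mul] at he ⊢
    split_ifs
    · exact he
    · have := Real.add_one_le_exp ((3 : ℝ) / ((l : ℝ) - 1) ^ 2)
      linarith

theorem cc1_F_nonneg (w : ℕ) (D : ℤ) (l : ℕ) (hl : l.Prime) : 0 ≤ cc1_F w D l := by
  unfold cc1_F
  have := cc1_loc_nonneg w D l hl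
  split_ifs
  · exact this
  · linarith

theorem cc1_prodF (w : ℕ) (D : ℤ) (hD : D ≠ 0) (hD2 : (2 : ℤ) ∣ D) (U : Finset ℕ)
    (hU : ∀ l ∈ U, l.Prime) :
    ∏ l ∈ U, cc1_F w D l ≤ Real.exp 3 * Pool.Agent.Lib.H18E.Gp 1 D := by
  have h1 : ∏ l ∈ U, cc1_F w D l ≤ ∏ l ∈ U, ((if (l : ℤ) ∣ D then 1 + 1 / ((l : ℝ) - 1) else 1) *
      Real.exp (if 3 ≤ l then 3 / ((l : ℝ) - 1) ^ 2 else 0)) :=
    Finset.prod_le_prod (fun l hl => cc1_F_nonneg w D l (hU l hl))
      (fun l hl => cc1_F_bound w D hD2 l (hU l hl))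
  refine h1.trans ?_
  rw [Finset.prod_mul_distrib, ← Real.exp_sum, mul_comm (Real.exp 3)]
  have hG : ∏ l ∈ U, (if (l : ℤ) ∣ D then 1 + 1 / ((l : ℝ) - 1) else 1) ≤
      Pool.Agent.Lib.H18E.Gp 1 D := by
    rw [← Finset.prod_filter]
    unfold Pool.Agent.Lib.H18E.Gp
    have hsub : U.filter (fun l : ℕ => (l : ℤ) ∣ D) ⊆
        D.natAbs.primeFactors.filter (fun p => ¬ p ∣ 1) := by
      intro l hl
      rw [mem_filter] at hl
      have hlp := hU l hl.1
      rw [mem_filter, Nat.mem_primeFactors]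
      refine ⟨⟨hlp, Int.natCast_dvd.1 hl.2, Int.natAbs_ne_zero.2 hD⟩, ?_⟩
      intro h
      exact hlp.one_lt.ne' (Nat.dvd_one.1 h)
    rw [← Finset.prod_sdiff hsub]
    have hf : ∀ l ∈ (D.natAbs.primeFactors.filter (fun p => ¬ p ∣ 1)),
        (1 : ℝ) ≤ 1 + 1 / ((l : ℝ) - 1) := by
      intro l hl
      rw [mem_filter] at hl
      have hlp := Nat.prime_of_mem_primeFactors hl.1
      have h2 : (2 : ℝ) ≤ l := by exact_mod_cast hlp.two_le
      have : (0 : ℝ) ≤ 1 / ((l : ℝ) - 1) := div_nonneg zero_le_one (by linarith)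
      linarith
    have h1' : (1 : ℝ) ≤ ∏ l ∈ (D.natAbs.primeFactors.filter (fun p => ¬ p ∣ 1)) \
        U.filter (fun l : ℕ => (l : ℤ) ∣ D), (1 + 1 / ((l : ℝ) - 1)) := by
      refine Finset.prod_induction _ (fun x => (1 : ℝ) ≤ x)
        (fun a b ha hb => one_le_mul_of_one_le_of_one_le ha hb) le_rfl ?_
      intro l hl
      exact hf l (mem_sdiff.1 hl).1
    refine le_mul_of_one_le_left (Finset.prod_nonneg fun l hl => ?_) h1'
    exact zero_le_one.trans (hf l (hsub hl))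
  have hE : Real.exp (∑ l ∈ U, (if 3 ≤ l then 3 / ((l : ℝ) - 1) ^ 2 else 0)) ≤ Real.exp 3 := by
    apply Real.exp_le_exp.2
    rw [← Finset.sum_filter]
    have h2 : ∑ l ∈ U.filter (fun l => 3 ≤ l), (3 : ℝ) / ((l : ℝ) - 1) ^ 2 ≤
        ∑ l ∈ Icc 3 (U.sup id), (3 : ℝ) / ((l : ℝ) - 1) ^ 2 := by
      refine Finset.sum_le_sum_of_subset_of_nonneg ?_ ?_
      · intro l hl
        rw [mem_filter] at hl
        rw [mem_Icc]
        exact ⟨hl.2, Finset.le_sup (f := id) hl.1⟩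
      · intro l _ _
        positivity
    have h3 : ∑ l ∈ Icc 3 (U.sup id), (3 : ℝ) / ((l : ℝ) - 1) ^ 2 =
        3 * ∑ l ∈ Icc 3 (U.sup id), (1 : ℝ) / ((l : ℝ) - 1) ^ 2 := by
      rw [Finset.mul_sum]
      refine Finset.sum_congr rfl fun l _ => ?_
      ring
    have h4 := cc1_tele (U.sup id)
    linarith
  refine mul_le_mul hG hE (Real.exp_pos _).le ?_
  unfold Pool.Agent.Lib.H18E.Gp
  refine Finset.prod_nonneg fun l hl => ?_
  rw [mem_filter] at hl
  have hlp := Nat.prime_of_mem_primeFactors hl.1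
  have h2 : (2 : ℝ) ≤ l := by exact_mod_cast hlp.two_le
  have : (0 : ℝ) ≤ 1 / ((l : ℝ) - 1) := div_nonneg zero_le_one (by linarith)
  linarith


theorem cc1_pf (Q : ℕ) (p p' : Σ r : ℕ, DirichletCharacter ℂ r) (hp : p ∈ PC Q)
    (hp' : p' ∈ PC Q) (k k' : ℕ) (hk : k ∈ KS Q p.1) (hk' : k' ∈ KS Q p'.1)
    (he : p.1 * k = p'.1 * k') :
    k.primeFactors = (p'.1.primeFactors \ p.1.primeFactors) ∪
      ((p.1 * k).primeFactors \ (p.1 * p'.1).primeFactors) := by
  have h1 := (mem_PC.1 hp).1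
  have h1' := (mem_PC.1 hp').1
  unfold KS at hk hk'
  simp only [mem_filter, mem_Icc] at hk hk'
  have hk0 : k ≠ 0 := by omega
  have hk0' : k' ≠ 0 := by omega
  ext l
  simp only [mem_union, mem_sdiff, Nat.mem_primeFactors]
  constructor
  · rintro ⟨hl, hlk, _⟩
    by_cases h : l ∣ p'.1
    · left
      refine ⟨⟨hl, h, by omega⟩, ?_⟩
      rintro ⟨_, h2, _⟩
      exact (Nat.not_coprime_of_dvd_of_dvd hl.one_lt hlk h2) hk.2.2
    · right
      refine ⟨⟨hl, Dvd.dvd.mul_left hlk _, Nat.mul_ne_zero (by omega) hk0⟩, ?_⟩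
      rintro ⟨_, h2, _⟩
      rcases hl.dvd_mul.1 h2 with h2 | h2
      · exact (Nat.not_coprime_of_dvd_of_dvd hl.one_lt hlk h2) hk.2.2
      · exact h h2
  · rintro (⟨⟨hl, h, _⟩, h2⟩ | ⟨⟨hl, h, _⟩, h2⟩)
    · refine ⟨hl, ?_, hk0⟩
      have h3 : l ∣ p.1 * k := by rw [he]; exact Dvd.dvd.mul_right h _
      rcases hl.dvd_mul.1 h3 with h4 | h4
      · exact absurd ⟨hl, h4, by omega⟩ h2
      · exact h4
    · refine ⟨hl, ?_, hk0⟩
      rcases hl.dvd_mul.1 h with h4 | h4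
      · exact absurd ⟨hl, Dvd.dvd.mul_right h4 _, Nat.mul_ne_zero (by omega) (by omega)⟩ h2
      · exact h4

theorem cc1_qpf (Q : ℕ) (p p' : Σ r : ℕ, DirichletCharacter ℂ r) (hp : p ∈ PC Q)
    (hp' : p' ∈ PC Q) (k k' : ℕ) (hk : k ∈ KS Q p.1) (hk' : k' ∈ KS Q p'.1)
    (he : p.1 * k = p'.1 * k') :
    (p.1 * p'.1).primeFactors ⊆ (p.1 * k).primeFactors := by
  have h1 := (mem_PC.1 hp).1
  have h1' := (mem_PC.1 hp').1
  unfold KS at hk hk'
  simp only [mem_filter, mem_Icc] at hk hk'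
  have hk0 : k ≠ 0 := by omega
  intro l
  simp only [Nat.mem_primeFactors]
  rintro ⟨hl, h, _⟩
  refine ⟨hl, ?_, Nat.mul_ne_zero (by omega) hk0⟩
  rcases hl.dvd_mul.1 h with h2 | h2
  · exact Dvd.dvd.mul_right h2 _
  · rw [he]; exact Dvd.dvd.mul_right h2 _

/-- **Sum over the moduli.** For fixed `p, p'` the sum of the local products over all pairs `(k, k')`
with `p.1 k = p'.1 k'` is at most `C Gp 1 D`, `Gp 1 D = ∏_{l ∣ D} l/(l-1)`.

Proof. Let `w = p.1 p'.1`. For such a pair, `q = p.1 k`, every prime of `w` divides `q`, and the other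
primes of `q` form a set `S` of primes `≤ Q` not dividing `w`. `q` (hence `k, k'`) is determined by `S`:
for `l ∣ p.1`, `v_l(q) = v_l(p.1)` (`k` coprime to `p.1`), for `l ∣ p'.1`, `v_l(q) = v_l(p'.1)`, for
`l ∈ S`, `v_l(q) = 1`. So the sum is at most `∏_{l ∣ w} loc(l) ∏_{l ≤ Q prime, l ∤ w} (1 + loc(l))`
(all `loc ≥ 0`). For `l ∣ D`: `loc(l) ≤ l/(l-1)` if `l ∣ w`, `1 + loc(l) = l/(l-1)` if `l ∤ w`. For
`l ∤ D` (`l ≥ 3`, as `2 ∣ D`): `loc(l) = 1` if `l ∣ w`, and `1 + 3/(l-1)² ≤ exp (3/(l-1)²)` if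
`l ∤ w`. The product over `l ≥ 3` of the last is at most `exp (3 ∑_{n ≥ 2} 1/n²) ≤ exp 3`, and the
primes dividing `D` contribute at most `Gp 1 D` (`1 + 1/(l-1) = l/(l-1) ≥ 1`). -/
theorem sum_loc : ∃ C : ℝ, 1 ≤ C ∧ ∀ (Q : ℕ) (p p' : Σ r : ℕ, DirichletCharacter ℂ r),
    p ∈ PC Q → p' ∈ PC Q → ∀ D : ℤ, D ≠ 0 → (2 : ℤ) ∣ D →
    ∑ k ∈ KS Q p.1, ∑ k' ∈ (KS Q p'.1).filter (fun k' => p.1 * k = p'.1 * k'),
      ∏ l ∈ (p.1 * k).primeFactors, loc (p.1 * p'.1) D l ≤ C * Pool.Agent.Lib.H18E.Gp 1 D := by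
  refine ⟨Real.exp 3, Real.one_le_exp (by norm_num), ?_⟩
  intro Q p p' hp hp' D hD hD2
  have h1 := (mem_PC.1 hp).1
  have h1' := (mem_PC.1 hp').1
  classical
  set w := p.1 * p'.1 with hw
  set KK : Finset ℕ := (KS Q p.1).filter (fun k => ∃ k' ∈ KS Q p'.1, p.1 * k = p'.1 * k') with hKK
  set P : Finset ℕ := (range (Q + 1)).filter (fun l => l.Prime ∧ ¬ l ∣ w) with hP
  set f : ℕ → ℝ := fun k => ∏ l ∈ (p.1 * k).primeFactors, loc w D l with hf
  have hf0 : ∀ k, 0 ≤ f k := fun k =>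
    Finset.prod_nonneg fun l hl => cc1_loc_nonneg w D l (Nat.prime_of_mem_primeFactors hl)
  -- step 1
  have s1 : ∑ k ∈ KS Q p.1, ∑ k' ∈ (KS Q p'.1).filter (fun k' => p.1 * k = p'.1 * k'), f k ≤
      ∑ k ∈ KK, f k := by
    rw [hKK, Finset.sum_filter]
    refine Finset.sum_le_sum fun k _ => ?_
    rw [Finset.sum_const, nsmul_eq_mul]
    split_ifs with h
    · have hcard : ((KS Q p'.1).filter (fun k' => p.1 * k = p'.1 * k')).card ≤ 1 := by
        rw [Finset.card_le_one]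
        intro a ha b hb
        rw [mem_filter] at ha hb
        have : p'.1 * a = p'.1 * b := by rw [← ha.2, ← hb.2]
        exact Nat.eq_of_mul_eq_mul_left (by omega) this
      have : (((KS Q p'.1).filter (fun k' => p.1 * k = p'.1 * k')).card : ℝ) ≤ 1 := by
        exact_mod_cast hcard
      nlinarith [hf0 k]
    · have : (KS Q p'.1).filter (fun k' => p.1 * k = p'.1 * k') = ∅ := by
        rw [Finset.filter_eq_empty_iff]
        intro k' hk' he
        exact h ⟨k', hk', he⟩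
      rw [this]; simp
  -- step 2: f k as product
  have s2 : ∀ k ∈ KK, f k = (∏ l ∈ w.primeFactors, loc w D l) *
      ∏ l ∈ (p.1 * k).primeFactors \ w.primeFactors, loc w D l := by
    intro k hk
    rw [hKK, mem_filter] at hk
    obtain ⟨hk1, k', hk', he⟩ := hk
    have hs := cc1_qpf Q p p' hp hp' k k' hk1 hk' he
    rw [← hw] at hs
    have h9 := Finset.prod_sdiff (f := fun l => loc w D l) hs
    rw [hf]
    simp only
    rw [← h9]
    ring
  -- step 3
  have s3 : ∑ k ∈ KK, ∏ l ∈ (p.1 * k).primeFactors \ w.primeFactors, loc w D l ≤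
      ∑ S ∈ P.powerset, ∏ l ∈ S, loc w D l := by
    have hinj : Set.InjOn (fun k => (p.1 * k).primeFactors \ w.primeFactors) (KK : Set ℕ) := by
      intro k hk k2 hk2 hE
      rw [Finset.mem_coe, hKK, mem_filter] at hk hk2
      obtain ⟨hk1, k', hk', he⟩ := hk
      obtain ⟨hk1b, k2', hk2', he2⟩ := hk2
      have e1 := cc1_pf Q p p' hp hp' k k' hk1 hk' he
      have e2 := cc1_pf Q p p' hp hp' k2 k2' hk1b hk2' he2
      simp only at hE
      rw [← hw] at e1 e2
      rw [hE, ← e2] at e1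
      have q1 : Squarefree k := by
        unfold KS at hk1
        simp only [mem_filter, mem_Icc] at hk1
        exact hk1.2.1
      have q2 : Squarefree k2 := by
        unfold KS at hk1b
        simp only [mem_filter, mem_Icc] at hk1b
        exact hk1b.2.1
      rw [← Nat.prod_primeFactors_of_squarefree q1, ← Nat.prod_primeFactors_of_squarefree q2, e1]
    rw [← Finset.sum_image (f := fun S : Finset ℕ => ∏ l ∈ S, loc w D l) hinj]
    refine Finset.sum_le_sum_of_subset_of_nonneg ?_ ?_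
    · intro S hS
      rw [Finset.mem_image] at hS
      obtain ⟨k, hk, rfl⟩ := hS
      rw [Finset.mem_powerset]
      intro l hl
      rw [mem_sdiff, Nat.mem_primeFactors, Nat.mem_primeFactors] at hl
      obtain ⟨⟨hlp, hd, hne⟩, hn⟩ := hl
      have hnw : ¬ l ∣ w := fun h => hn ⟨hlp, h, Nat.mul_ne_zero (by omega) (by omega)⟩
      rw [hP, mem_filter, mem_range]
      refine ⟨?_, hlp, hnw⟩
      rw [hKK, mem_filter] at hk
      have hk1 := hk.1
      unfold KS at hk1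
      simp only [mem_filter, mem_Icc] at hk1
      have hlk : l ∣ k := by
        rcases hlp.dvd_mul.1 hd with h | h
        · exact absurd (Dvd.dvd.mul_right h _) hnw
        · exact h
      have := Nat.le_of_dvd (by omega) hlk
      have := Nat.div_le_self Q p.1
      omega
    · intro S hS _
      rw [Finset.mem_powerset] at hS
      refine Finset.prod_nonneg fun l hl => cc1_loc_nonneg w D l ?_
      have := hS hl
      rw [hP, mem_filter] at this
      exact this.2.1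
  have s4 : ∑ S ∈ P.powerset, ∏ l ∈ S, loc w D l = ∏ l ∈ P, (1 + loc w D l) := by
    rw [Finset.prod_one_add]
  have hdis : Disjoint w.primeFactors P := by
    rw [Finset.disjoint_left]
    intro l hl hl2
    rw [hP, mem_filter] at hl2
    exact hl2.2.2 (Nat.dvd_of_mem_primeFactors hl)
  have s5 : (∏ l ∈ w.primeFactors, loc w D l) * ∏ l ∈ P, (1 + loc w D l) =
      ∏ l ∈ w.primeFactors ∪ P, cc1_F w D l := by
    rw [Finset.prod_union hdis]
    congr 1
    · refine Finset.prod_congr rfl fun l hl => ?_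
      unfold cc1_F
      rw [if_pos (Nat.dvd_of_mem_primeFactors hl)]
    · refine Finset.prod_congr rfl fun l hl => ?_
      rw [hP, mem_filter] at hl
      unfold cc1_F
      rw [if_neg hl.2.2]
  have s6 := cc1_prodF w D hD hD2 (w.primeFactors ∪ P) (by
    intro l hl
    rw [mem_union] at hl
    rcases hl with hl | hl
    · exact Nat.prime_of_mem_primeFactors hl
    · rw [hP, mem_filter] at hl
      exact hl.2.1)
  have hw0 : 0 ≤ ∏ l ∈ w.primeFactors, loc w D l :=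
    Finset.prod_nonneg fun l hl => cc1_loc_nonneg w D l (Nat.prime_of_mem_primeFactors hl)
  calc _ ≤ ∑ k ∈ KK, f k := s1
    _ = (∏ l ∈ w.primeFactors, loc w D l) *
        ∑ k ∈ KK, ∏ l ∈ (p.1 * k).primeFactors \ w.primeFactors, loc w D l := by
        rw [Finset.mul_sum]
        exact Finset.sum_congr rfl s2
    _ ≤ (∏ l ∈ w.primeFactors, loc w D l) * ∏ l ∈ P, (1 + loc w D l) := by
        refine mul_le_mul_of_nonneg_left ?_ hw0
        rw [← s4]
        exact s3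
    _ ≤ _ := by rw [s5]; exact s6

end Pool.Agent.Lib.H18Q
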