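import Pool.Agent.Lib.H18Q.QDefs
import Pool.Agent.Lib.H18E.Defs
import Pool.Agent.Lib.H18Q.R0

/-!
# Project H18Q: definitions for module C (correlations of components)
-/

open Finset

namespace Pool.Agent.Lib.H18Q

open Pool.Agent.Lib.H68T

noncomputable section

/-- The component of modulus `p.1 k` of `Gam Q p.1 m conj χ(m)`:
`(r/φ(r)) conj χ(m) μ(k) c_k(m)/φ(k)`, `r = p.1`. -/
def gk (p : Σ r : ℕ, DirichletCharacter ℂ r) (k : ℕ) (m : ℤ) : ℂ :=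
  (((p.1 : ℝ) / (Nat.totient p.1 : ℝ) : ℝ) : ℂ) * (starRingEnd ℂ) (p.2 (m : ZMod p.1)) *
    (((ArithmeticFunction.moebius k : ℝ) / (Nat.totient k : ℝ) * cq k m : ℝ) : ℂ)

/-- The squarefree `k ≤ Q/r` coprime to `r`. -/
def KS (Q r : ℕ) : Finset ℕ :=
  open Classical in (Icc 1 (Q / r)).filter (fun k => Squarefree k ∧ Nat.Coprime k r)

/-- The absolute value of a component as a product over primes. -/
def aw (p : Σ r : ℕ, DirichletCharacter ℂ r) (k : ℕ) (m : ℤ) : ℝ :=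
  (∏ l ∈ p.1.primeFactors, (if (l : ℤ) ∣ m then 0 else (l : ℝ) / ((l : ℝ) - 1))) *
    ∏ l ∈ k.primeFactors, (if (l : ℤ) ∣ m then 1 else 1 / ((l : ℝ) - 1))

/-- The local bound for the mean of the product of two components with difference (or sum) of the
arguments `D`; `w = p.1 p'.1`. -/
def loc (w : ℕ) (D : ℤ) (l : ℕ) : ℝ :=
  if (l : ℤ) ∣ D then (if l ∣ w then (l : ℝ) / ((l : ℝ) - 1) else 1 / ((l : ℝ) - 1))
  else (if l ∣ w then 1 else 3 / ((l : ℝ) - 1) ^ 2)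

/-- The full sum `∑_p Gam_p(m) conj χ_p(m) b_p`. -/
def SG (Q : ℕ) (b : (Σ r : ℕ, DirichletCharacter ℂ r) → ℂ) (m : ℤ) : ℂ :=
  ∑ p ∈ PC Q, (Gam Q p.1 m : ℂ) * (starRingEnd ℂ) (p.2 (m : ZMod p.1)) * b p

/-- The projection `Lk` at level `Q` on `[X, 4X]` is the model `mo` up to an error with
coefficients of total size `E`: both have coefficients (of the components) which vary slowly. -/
def Lev (Q X : ℕ) (E : ℝ) (mo : ℤ → ℝ) : Prop :=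
  ∃ (μ e : ℤ → (Σ r : ℕ, DirichletCharacter ℂ r) → ℂ)
    (mb eb : (Σ r : ℕ, DirichletCharacter ℂ r) → ℝ),
    (∀ p ∈ PC Q, 0 ≤ mb p ∧ mb p ≤ 2 ∧ 0 ≤ eb p ∧ eb p ≤ 2) ∧
    ∑ p ∈ PC Q, mb p ≤ 2 ∧ ∑ p ∈ PC Q, eb p ≤ E ∧
    ∀ m : ℤ, (X : ℤ) ≤ m → m ≤ 4 * X →
      (mo m : ℂ) = SG Q (μ m) m ∧
      ((Lk Q (X / Q ^ 2) m - mo m : ℝ) : ℂ) = SG Q (e m) m ∧
      ∀ p ∈ PC Q, ‖μ m p‖ ≤ mb p ∧ ‖e m p‖ ≤ eb p ∧
        ‖μ (m + 1) p - μ m p‖ ≤ (Q : ℝ) ^ 3 / X ∧ ‖e (m + 1) p - e m p‖ ≤ (Q : ℝ) ^ 3 / X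

end

end Pool.Agent.Lib.H18Q
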