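import Pool.Agent.Lib.H18Q.CA
import Pool.Agent.Lib.H18Q.CB
import Pool.Agent.Lib.H18Q.CC1

/-!
# Project H18Q, chunk CF: the correlation inequality
-/

open Finset

namespace Pool.Agent.Lib.H18Q

open Pool.Agent.Lib.H68T

theorem cf_KS {Q r k : ℕ} (hk : k ∈ KS Q r) : 1 ≤ k ∧ k ≤ Q / r := by
  unfold KS at hk
  rw [mem_filter, mem_Icc] at hk
  exact hk.1

theorem cf_q {Q : ℕ} {p : Σ r : ℕ, DirichletCharacter ℂ r} (hp : p ∈ PC Q) {k : ℕ}
    (hk : k ∈ KS Q p.1) : 0 < p.1 * k ∧ p.1 * k ≤ Q := by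
  have h1 := (mem_PC.mp hp).1
  have h2 := cf_KS hk
  refine ⟨Nat.mul_pos (by omega) (by omega), ?_⟩
  calc p.1 * k ≤ p.1 * (Q / p.1) := Nat.mul_le_mul_left _ h2.2
    _ ≤ Q := Nat.mul_div_le Q p.1

/-- the sum of a periodic function over several periods -/
theorem cf_periods (φ : ℕ → ℂ) (q : ℕ) (hφ : ∀ c, φ (c + q) = φ c) (n : ℕ) :
    ∑ c ∈ range (q * n), φ c = n * ∑ c ∈ range q, φ c := by
  have hper : ∀ n c, φ (q * n + c) = φ c := by
    intro n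
    induction n with
    | zero => intro c; rw [mul_zero, zero_add]
    | succ n ih =>
      intro c
      have h1 : q * (n + 1) + c = (q * n + c) + q := by ring
      rw [h1, hφ, ih]
  induction n with
  | zero => simp
  | succ n ih =>
    have h1 : q * (n + 1) = q * n + q := by ring
    rw [h1, sum_range_add, ih]
    have h2 : ∑ x ∈ range q, φ (q * n + x) = ∑ c ∈ range q, φ c :=
      sum_congr rfl fun x _ => hper n x
    rw [h2]
    push_cast
    ring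

/-- Two components with slowly varying coefficients.

Proof. `q = p.1 k`, `q' = p'.1 k'`, `φ(c) = gk p k (s + c) gk p' k' (t + τ c)` has period `P = q q'`
(`gk_period`), `|φ| ≤ Q²` (`gk_bound`), `P ≤ Q²`. `per_slow`. If `q ≠ q'`: `∑_{c < P} φ = 0` (`orth`
with `gk_prim`). If `q = q'`: the mean over `P = q²` is the mean over `q`, at most the mean of
`aw aw'` (`gk_le_aw`), at most `∏ loc` (`loc_mean`). -/
theorem CF_pair (Q H : ℕ) (p p' : Σ r : ℕ, DirichletCharacter ℂ r) (hp : p ∈ PC Q)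
    (hp' : p' ∈ PC Q) (k k' : ℕ) (hk : k ∈ KS Q p.1) (hk' : k' ∈ KS Q p'.1)
    (s t τ D : ℤ) (hτ : τ = 1 ∨ τ = -1) (hD : D = s - τ * t) (hD2 : (2 : ℤ) ∣ D)
    (f : ℕ → ℂ) (F Λ : ℝ) (hF : 0 ≤ F) (hΛ : 0 ≤ Λ) (fb : ∀ c < H, ‖f c‖ ≤ F)
    (fl : ∀ c, c + 1 < H → ‖f (c + 1) - f c‖ ≤ Λ) :
    ‖∑ c ∈ range H, gk p k (s + (c : ℤ)) * gk p' k' (t + τ * (c : ℤ)) * f c‖ ≤
      (if p.1 * k = p'.1 * k' then ∏ l ∈ (p.1 * k).primeFactors, loc (p.1 * p'.1) D l else 0) *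
        F * H + (Q : ℝ) ^ 4 * (F + H * Λ) := by
  obtain ⟨hq, hqQ⟩ := cf_q hp hk
  obtain ⟨hq', hqQ'⟩ := cf_q hp' hk'
  set q := p.1 * k with hqd
  set q' := p'.1 * k' with hqd'
  set φ : ℕ → ℂ := fun c => gk p k (s + (c : ℤ)) * gk p' k' (t + τ * (c : ℤ)) with hφ
  have hP : 0 < q * q' := Nat.mul_pos hq hq'
  have per : ∀ c, φ (c + q * q') = φ c := by
    intro c
    simp only [hφ]
    have h1 : s + ((c + q * q' : ℕ) : ℤ) = (s + c) + ((p.1 * k : ℕ) : ℤ) * (q' : ℤ) := by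
      rw [← hqd]
      push_cast
      ring
    have h2 : t + τ * ((c + q * q' : ℕ) : ℤ) =
        (t + τ * c) + ((p'.1 * k' : ℕ) : ℤ) * (τ * (q : ℤ)) := by
      rw [← hqd']
      push_cast
      ring
    rw [h1, h2, gk_period, gk_period]
  have bd : ∀ c, ‖φ c‖ ≤ (Q : ℝ) ^ 2 := by
    intro c
    simp only [hφ]
    rw [norm_mul, sq]
    exact mul_le_mul (gk_bound Q p hp k hk _) (gk_bound Q p' hp' k' hk' _) (norm_nonneg _)
      (Nat.cast_nonneg _)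
  have h := per_slow φ f (q * q') H hP ((Q : ℝ) ^ 2) F Λ (by positivity) hF hΛ per bd fb fl
  have hPQ : ((q * q' : ℕ) : ℝ) ≤ (Q : ℝ) ^ 2 := by
    rw [sq]
    push_cast
    exact mul_le_mul (by exact_mod_cast hqQ) (by exact_mod_cast hqQ') (Nat.cast_nonneg _)
      (Nat.cast_nonneg _)
  have herr : (Q : ℝ) ^ 2 * (q * q' : ℕ) * (F + H * Λ) ≤ (Q : ℝ) ^ 4 * (F + H * Λ) := by
    apply mul_le_mul_of_nonneg_right _ (by positivity)
    calc (Q : ℝ) ^ 2 * (q * q' : ℕ) ≤ (Q : ℝ) ^ 2 * (Q : ℝ) ^ 2 :=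
          mul_le_mul_of_nonneg_left hPQ (by positivity)
      _ = (Q : ℝ) ^ 4 := by ring
  refine h.trans (add_le_add ?_ herr)
  apply mul_le_mul_of_nonneg_right _ (Nat.cast_nonneg _)
  apply mul_le_mul_of_nonneg_right _ hF
  have hPr : (0 : ℝ) < ((q * q' : ℕ) : ℝ) := by exact_mod_cast hP
  by_cases he : q = q'
  · rw [if_pos he]
    rw [div_le_iff₀ hPr]
    have hper1 : ∀ c, φ (c + q) = φ c := by
      intro c
      simp only [hφ]
      have h1 : s + ((c + q : ℕ) : ℤ) = (s + c) + ((p.1 * k : ℕ) : ℤ) * 1 := by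
        rw [← hqd]
        push_cast
        ring
      have h2 : t + τ * ((c + q : ℕ) : ℤ) = (t + τ * c) + ((p'.1 * k' : ℕ) : ℤ) * τ := by
        rw [← hqd', ← he]
        push_cast
        ring
      rw [h1, h2, gk_period, gk_period]
    have h3 : ∑ c ∈ range (q * q'), φ c = (q' : ℂ) * ∑ c ∈ range q, φ c :=
      cf_periods φ q hper1 q'
    rw [h3, norm_mul, Complex.norm_natCast]
    have h4 : ‖∑ c ∈ range q, φ c‖ ≤
        (∏ l ∈ q.primeFactors, loc (p.1 * p'.1) D l) * q := by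
      have h5 := loc_mean Q p p' hp hp' k k' hk hk' he s t τ D hτ hD hD2
      rw [← hqd, div_le_iff₀ (by exact_mod_cast hq)] at h5
      refine le_trans (norm_sum_le _ _) (le_trans (sum_le_sum fun c _ => ?_) h5)
      simp only [hφ]
      rw [norm_mul]
      exact mul_le_mul (gk_le_aw Q p hp k hk _) (gk_le_aw Q p' hp' k' hk' _) (norm_nonneg _)
        ((norm_nonneg _).trans (gk_le_aw Q p hp k hk _))
    calc (q' : ℝ) * ‖∑ c ∈ range q, φ c‖ ≤
          (q' : ℝ) * ((∏ l ∈ q.primeFactors, loc (p.1 * p'.1) D l) * q) :=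
          mul_le_mul_of_nonneg_left h4 (Nat.cast_nonneg _)
      _ = (∏ l ∈ q.primeFactors, loc (p.1 * p'.1) D l) * ((q * q' : ℕ) : ℝ) := by
          push_cast
          ring
  · rw [if_neg he]
    have h0 : ∑ c ∈ range (q * q'), φ c = 0 := by
      apply orth (gk p k) (gk p' k') q q' hq hq' ?_ ?_ ?_ ?_ he s t τ hτ
      · intro m
        have := gk_period p k m 1
        rwa [mul_one, ← hqd] at this
      · intro m
        have := gk_period p' k' m 1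
        rwa [mul_one, ← hqd'] at this
      · intro l hl hlq m
        exact gk_prim Q p hp k hk l hl hlq m
      · intro l hl hlq m
        exact gk_prim Q p' hp' k' hk' l hl hlq m
    rw [h0, norm_zero, zero_div]

theorem cf_cards (Q : ℕ) : ((∑ p ∈ PC Q, (KS Q p.1).card : ℕ) : ℝ) ≤ (Q : ℝ) ^ 3 := by
  have h1 : ∑ p ∈ PC Q, (KS Q p.1).card ≤ ∑ _p ∈ PC Q, Q := by
    apply sum_le_sum
    intro p _
    have h2 : KS Q p.1 ⊆ Icc 1 Q := by
      intro k hk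
      have h3 := cf_KS hk
      rw [mem_Icc]
      exact ⟨h3.1, h3.2.trans (Nat.div_le_self _ _)⟩
    have h4 := card_le_card h2
    rwa [Nat.card_Icc, Nat.add_sub_cancel] at h4
  rw [sum_const, smul_eq_mul] at h1
  have h5 := card_PC_le Q
  have h6 : ∑ p ∈ PC Q, (KS Q p.1).card ≤ Q ^ 3 := by
    calc ∑ p ∈ PC Q, (KS Q p.1).card ≤ (PC Q).card * Q := h1
      _ ≤ Q ^ 2 * Q := Nat.mul_le_mul_right _ h5
      _ = Q ^ 3 := by ring
  exact_mod_cast h6

/-- **The correlation inequality.** Proof. Expand both `SG` by `gam_expand`: the sum over `c` is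
`∑_{p,p'} ∑_{k,k'} ∑_c gk gk' f`, `f(c) = b c p · b' c p'`, `|f| ≤ be p be' p'` (`≤ 4`),
`|f(c+1) - f(c)| ≤ 4 Λ`. `CF_pair` and `sum_loc`: the main parts give at most
`∑_{p,p'} be p be' p' C Gp 1 D H`; there are at most `Q² · Q` pairs `(p, k)`, so the error terms give at
most `Q^6 · Q^4 (4 + 4 H Λ)`. -/
theorem corr_main : ∃ C : ℝ, 1 ≤ C ∧ ∀ (Q H : ℕ) (s t τ D : ℤ)
    (b b' : ℕ → (Σ r : ℕ, DirichletCharacter ℂ r) → ℂ)
    (be be' : (Σ r : ℕ, DirichletCharacter ℂ r) → ℝ) (Λ : ℝ), (τ = 1 ∨ τ = -1) →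
    D = s - τ * t → D ≠ 0 → (2 : ℤ) ∣ D → 0 ≤ Λ →
    (∀ p ∈ PC Q, 0 ≤ be p ∧ be p ≤ 2 ∧ 0 ≤ be' p ∧ be' p ≤ 2 ∧
      (∀ c < H, ‖b c p‖ ≤ be p ∧ ‖b' c p‖ ≤ be' p) ∧
      ∀ c, c + 1 < H → ‖b (c + 1) p - b c p‖ ≤ Λ ∧ ‖b' (c + 1) p - b' c p‖ ≤ Λ) →
    ‖∑ c ∈ range H, SG Q (b c) (s + (c : ℤ)) * SG Q (b' c) (t + τ * (c : ℤ))‖ ≤
      C * (∑ p ∈ PC Q, be p) * (∑ p ∈ PC Q, be' p) * Pool.Agent.Lib.H18E.Gp 1 D * H +
        4 * (Q : ℝ) ^ 10 * (1 + H * Λ) := by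
  obtain ⟨C, hC, hsum⟩ := sum_loc
  refine ⟨C, hC, ?_⟩
  intro Q H s t τ D b b' be be' Λ hτ hD hD0 hD2 hΛ hb
  -- expansion
  have hexp : ∀ (β : (Σ r : ℕ, DirichletCharacter ℂ r) → ℂ) (m : ℤ),
      SG Q β m = ∑ p ∈ PC Q, ∑ k ∈ KS Q p.1, gk p k m * β p := by
    intro β m
    unfold SG
    apply sum_congr rfl
    intro p hp
    rw [gam_expand Q p hp m, sum_mul]
  have h1 : ∑ c ∈ range H, SG Q (b c) (s + (c : ℤ)) * SG Q (b' c) (t + τ * (c : ℤ)) =
      ∑ p ∈ PC Q, ∑ k ∈ KS Q p.1, ∑ p' ∈ PC Q, ∑ k' ∈ KS Q p'.1, ∑ c ∈ range H,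
        gk p k (s + (c : ℤ)) * gk p' k' (t + τ * (c : ℤ)) * (b c p * b' c p') := by
    have h2 : ∀ c ∈ range H, SG Q (b c) (s + (c : ℤ)) * SG Q (b' c) (t + τ * (c : ℤ)) =
        ∑ p ∈ PC Q, ∑ k ∈ KS Q p.1, ∑ p' ∈ PC Q, ∑ k' ∈ KS Q p'.1,
          gk p k (s + (c : ℤ)) * gk p' k' (t + τ * (c : ℤ)) * (b c p * b' c p') := by
      intro c _
      rw [hexp, hexp, sum_mul]
      apply sum_congr rfl
      intro p _
      rw [sum_mul]
      apply sum_congr rfl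
      intro k _
      rw [mul_sum]
      apply sum_congr rfl
      intro p' _
      rw [mul_sum]
      apply sum_congr rfl
      intro k' _
      ring
    rw [sum_congr rfl h2, sum_comm]
    apply sum_congr rfl
    intro p _
    rw [sum_comm]
    apply sum_congr rfl
    intro k _
    rw [sum_comm]
    apply sum_congr rfl
    intro p' _
    rw [sum_comm]
  rw [h1]
  -- the single terms
  let T : (Σ r : ℕ, DirichletCharacter ℂ r) → ℕ → (Σ r : ℕ, DirichletCharacter ℂ r) → ℕ → ℝ :=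
    fun p k p' k' =>
      (if p.1 * k = p'.1 * k' then ∏ l ∈ (p.1 * k).primeFactors, loc (p.1 * p'.1) D l else 0)
  have hterm : ∀ p ∈ PC Q, ∀ k ∈ KS Q p.1, ∀ p' ∈ PC Q, ∀ k' ∈ KS Q p'.1,
      ‖∑ c ∈ range H, gk p k (s + (c : ℤ)) * gk p' k' (t + τ * (c : ℤ)) *
        (b c p * b' c p')‖ ≤
      T p k p' k' * (be p * be' p' * H) + (Q : ℝ) ^ 4 * (4 * (1 + H * Λ)) := by
    intro p hp k hk p' hp' k' hk'
    obtain ⟨hb1, hb2, -, -, hb5, hb6⟩ := hb p hp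
    obtain ⟨-, -, hb3, hb4, hb7, hb8⟩ := hb p' hp'
    have hc := CF_pair Q H p p' hp hp' k k' hk hk' s t τ D hτ hD hD2
      (fun c => b c p * b' c p') (be p * be' p') (4 * Λ) (mul_nonneg hb1 hb3) (by linarith)
      (by
        intro c hc
        rw [norm_mul]
        exact mul_le_mul (hb5 c hc).1 (hb7 c hc).2 (norm_nonneg _) hb1)
      (by
        intro c hc
        have e1 : b (c + 1) p * b' (c + 1) p' - b c p * b' c p' =
            (b (c + 1) p - b c p) * b' (c + 1) p' + b c p * (b' (c + 1) p' - b' c p') := by ring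
        rw [e1]
        refine (norm_add_le _ _).trans ?_
        rw [norm_mul, norm_mul]
        have e2 : ‖b (c + 1) p - b c p‖ * ‖b' (c + 1) p'‖ ≤ Λ * 2 :=
          mul_le_mul (hb6 c hc).1 ((hb7 (c + 1) hc).2.trans hb4) (norm_nonneg _) hΛ
        have e3 : ‖b c p‖ * ‖b' (c + 1) p' - b' c p'‖ ≤ 2 * Λ :=
          mul_le_mul ((hb5 c (by omega)).1.trans hb2) (hb8 c hc).2 (norm_nonneg _) (by norm_num)
        linarith)
    refine hc.trans ?_
    have e4 : T p k p' k' * (be p * be' p') * H = T p k p' k' * (be p * be' p' * H) := by ring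
    change T p k p' k' * (be p * be' p') * H + _ ≤ _
    rw [e4]
    apply add_le_add le_rfl
    apply mul_le_mul_of_nonneg_left _ (by positivity)
    have e5 : be p * be' p' ≤ 2 * 2 := mul_le_mul hb2 hb4 hb3 (by norm_num)
    have e6 : 4 * (1 + (H : ℝ) * Λ) = 4 + H * (4 * Λ) := by ring
    rw [e6]
    linarith
  -- sum of the bounds
  have h3 : ‖∑ p ∈ PC Q, ∑ k ∈ KS Q p.1, ∑ p' ∈ PC Q, ∑ k' ∈ KS Q p'.1, ∑ c ∈ range H,
        gk p k (s + (c : ℤ)) * gk p' k' (t + τ * (c : ℤ)) * (b c p * b' c p')‖ ≤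
      ∑ p ∈ PC Q, ∑ k ∈ KS Q p.1, ∑ p' ∈ PC Q, ∑ k' ∈ KS Q p'.1,
        (T p k p' k' * (be p * be' p' * H) + (Q : ℝ) ^ 4 * (4 * (1 + H * Λ))) := by
    refine (norm_sum_le _ _).trans (sum_le_sum fun p hp => ?_)
    refine (norm_sum_le _ _).trans (sum_le_sum fun k hk => ?_)
    refine (norm_sum_le _ _).trans (sum_le_sum fun p' hp' => ?_)
    refine (norm_sum_le _ _).trans (sum_le_sum fun k' hk' => ?_)
    exact hterm p hp k hk p' hp' k' hk'
  refine h3.trans ?_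
  simp only [sum_add_distrib]
  apply add_le_add
  · -- main terms
    have h4 : ∑ p ∈ PC Q, ∑ k ∈ KS Q p.1, ∑ p' ∈ PC Q, ∑ k' ∈ KS Q p'.1,
        T p k p' k' * (be p * be' p' * H) =
        ∑ p ∈ PC Q, ∑ p' ∈ PC Q, (∑ k ∈ KS Q p.1, ∑ k' ∈ KS Q p'.1, T p k p' k') *
          (be p * be' p' * H) := by
      apply sum_congr rfl
      intro p _
      rw [sum_comm]
      apply sum_congr rfl
      intro p' _
      rw [sum_mul]
      apply sum_congr rfl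
      intro k _
      rw [sum_mul]
    rw [h4]
    have h5 : ∀ p ∈ PC Q, ∀ p' ∈ PC Q,
        (∑ k ∈ KS Q p.1, ∑ k' ∈ KS Q p'.1, T p k p' k') * (be p * be' p' * H) ≤
          C * Pool.Agent.Lib.H18E.Gp 1 D * (be p * be' p' * H) := by
      intro p hp p' hp'
      obtain ⟨hb1, -⟩ := hb p hp
      obtain ⟨-, -, hb3, -⟩ := hb p' hp'
      apply mul_le_mul_of_nonneg_right _ (by positivity)
      refine le_trans (le_of_eq ?_) (hsum Q p p' hp hp' D hD0 hD2)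
      apply sum_congr rfl
      intro k _
      rw [sum_filter]
    refine (sum_le_sum fun p hp => sum_le_sum fun p' hp' => h5 p hp p' hp').trans ?_
    apply le_of_eq
    have h6 : ∀ p ∈ PC Q, ∑ p' ∈ PC Q,
        C * Pool.Agent.Lib.H18E.Gp 1 D * (be p * be' p' * H) =
        be p * (C * Pool.Agent.Lib.H18E.Gp 1 D * H * ∑ p' ∈ PC Q, be' p') := by
      intro p _
      rw [mul_sum, mul_sum]
      apply sum_congr rfl
      intro p' _
      ring
    rw [sum_congr rfl h6, ← sum_mul]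
    ring
  · -- error terms
    have hE : 0 ≤ (Q : ℝ) ^ 4 * (4 * (1 + H * Λ)) := by positivity
    set E : ℝ := (Q : ℝ) ^ 4 * (4 * (1 + H * Λ)) with hEd
    have h7 : ∑ p ∈ PC Q, ∑ k ∈ KS Q p.1, ∑ p' ∈ PC Q, ∑ _k' ∈ KS Q p'.1, E =
        ((∑ p ∈ PC Q, (KS Q p.1).card : ℕ) : ℝ) *
          (((∑ p ∈ PC Q, (KS Q p.1).card : ℕ) : ℝ) * E) := by
      have h8 : ∑ p' ∈ PC Q, ∑ _k' ∈ KS Q p'.1, E =
          ((∑ p ∈ PC Q, (KS Q p.1).card : ℕ) : ℝ) * E := by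
        push_cast
        rw [sum_mul]
        apply sum_congr rfl
        intro p' _
        rw [sum_const, nsmul_eq_mul]
      rw [h8]
      have h9 : ∀ X : ℝ, ∑ p ∈ PC Q, ∑ _k ∈ KS Q p.1, X =
          ((∑ p ∈ PC Q, (KS Q p.1).card : ℕ) : ℝ) * X := by
        intro X
        push_cast
        rw [sum_mul]
        apply sum_congr rfl
        intro p' _
        rw [sum_const, nsmul_eq_mul]
      rw [h9]
    rw [h7]
    have h10 := cf_cards Q
    have h11 : (0 : ℝ) ≤ ((∑ p ∈ PC Q, (KS Q p.1).card : ℕ) : ℝ) := Nat.cast_nonneg _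
    calc ((∑ p ∈ PC Q, (KS Q p.1).card : ℕ) : ℝ) *
          (((∑ p ∈ PC Q, (KS Q p.1).card : ℕ) : ℝ) * E) ≤ (Q : ℝ) ^ 3 * ((Q : ℝ) ^ 3 * E) := by
          apply mul_le_mul h10 _ (mul_nonneg h11 hE) (by positivity)
          exact mul_le_mul_of_nonneg_right h10 hE
      _ = 4 * (Q : ℝ) ^ 10 * (1 + H * Λ) := by
          rw [hEd]
          ring

end Pool.Agent.Lib.H18Q
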