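import Pool.Agent.Lib.H18Q.W1
import Pool.Agent.Lib.H68T.BPS

/-!
# Project H18Q, chunk W3: prime powers in the weighted sums
-/

open Finset

namespace Pool.Agent.Lib.H18Q

open ArithmeticFunction Pool.Agent.Lib.H68T

theorem w3_pp_sum (N : ℕ) (hN : 1 ≤ N) :
    ∑ n ∈ Icc 1 N, (Λ n - lp n) ≤ 2 * √(N : ℝ) * Real.log (N : ℝ) := by
  have h1 := Chebyshev.psi_sub_theta_le (x := (N : ℝ)) (by exact_mod_cast hN)
  rw [Chebyshev.psi_sub_theta_eq_sum_not_prime, Nat.floor_natCast] at h1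
  refine le_trans (le_of_eq ?_) h1
  rw [Finset.sum_filter]
  apply Finset.sum_congr rfl
  intro n _
  unfold Pool.Agent.Lib.H68T.lp
  rw [Int.toNat_natCast]
  by_cases hp : n.Prime
  · simp [hp, vonMangoldt_apply_prime]
  · simp [hp]

theorem w3_nonneg (n : ℕ) : 0 ≤ Λ n - lp n := by
  have := BPS_lp_le n
  linarith

theorem w3_zero : Λ 0 - lp (0 : ℕ) = 0 := by
  unfold Pool.Agent.Lib.H68T.lp
  simp

/-- One dyadic block. -/
theorem w3_block (j : ℕ) (t : Finset ℕ) (ht : ∀ n ∈ t, 1 ≤ n ∧ Nat.log 2 n = j) :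
    ∑ n ∈ t, (Λ n - lp n) * (n : ℝ) ^ (-(3 / 4) : ℝ) ≤
      (4 * Real.log 2) * (((j : ℝ) + 1) * ((2 : ℝ) ^ (-(1 / 4) : ℝ)) ^ j) := by
  have h2j : (0 : ℝ) < (2 : ℝ) ^ j := by positivity
  have h1 : ∑ n ∈ t, (Λ n - lp n) * (n : ℝ) ^ (-(3 / 4) : ℝ) ≤
      ∑ n ∈ t, (Λ n - lp n) * ((2 : ℝ) ^ j) ^ (-(3 / 4) : ℝ) := by
    apply Finset.sum_le_sum
    intro n hn
    obtain ⟨hn1, hnj⟩ := ht n hn
    apply mul_le_mul_of_nonneg_left _ (w3_nonneg n)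
    apply Real.rpow_le_rpow_of_nonpos h2j _ (by norm_num)
    have := Nat.pow_log_le_self 2 (x := n) (by omega)
    rw [hnj] at this
    exact_mod_cast this
  have h2 : ∑ n ∈ t, (Λ n - lp n) ≤ ∑ n ∈ Icc 1 (2 ^ (j + 1)), (Λ n - lp n) := by
    apply Finset.sum_le_sum_of_subset_of_nonneg
    · intro n hn
      obtain ⟨hn1, hnj⟩ := ht n hn
      rw [Finset.mem_Icc]
      refine ⟨hn1, ?_⟩
      have := Nat.lt_pow_succ_log_self (b := 2) (by norm_num) n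
      rw [hnj] at this
      omega
    · intro n _ _
      exact w3_nonneg n
  have h3 := w3_pp_sum (2 ^ (j + 1)) (Nat.one_le_two_pow)
  have hl2 : 0 < Real.log 2 := Real.log_pos (by norm_num)
  have hlog : Real.log ((2 ^ (j + 1) : ℕ) : ℝ) = (j + 1) * Real.log 2 := by
    push_cast
    rw [Real.log_pow]
    push_cast
    ring
  rw [hlog] at h3
  rw [← Finset.sum_mul] at h1
  have hsq : √(((2 ^ (j + 1) : ℕ) : ℝ)) * ((2 : ℝ) ^ j) ^ (-(3 / 4) : ℝ) ≤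
      2 * ((2 : ℝ) ^ (-(1 / 4) : ℝ)) ^ j := by
    push_cast
    rw [Real.sqrt_eq_rpow, ← Real.rpow_natCast, ← Real.rpow_natCast, ← Real.rpow_mul (by norm_num),
      ← Real.rpow_mul (by norm_num), ← Real.rpow_natCast, ← Real.rpow_mul (by norm_num),
      ← Real.rpow_add (by norm_num)]
    have h4 : (2 : ℝ) * 2 ^ (-(1 / 4) * (j : ℝ)) = 2 ^ (1 + -(1 / 4) * (j : ℝ)) := by
      rw [Real.rpow_add (by norm_num), Real.rpow_one]
    rw [h4]
    apply Real.rpow_le_rpow_of_exponent_le (by norm_num)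
    push_cast
    linarith
  calc ∑ n ∈ t, (Λ n - lp n) * (n : ℝ) ^ (-(3 / 4) : ℝ)
      ≤ (∑ n ∈ t, (Λ n - lp n)) * ((2 : ℝ) ^ j) ^ (-(3 / 4) : ℝ) := h1
    _ ≤ (2 * √(((2 ^ (j + 1) : ℕ) : ℝ)) * ((j + 1) * Real.log 2)) *
        ((2 : ℝ) ^ j) ^ (-(3 / 4) : ℝ) := by
        apply mul_le_mul_of_nonneg_right (h2.trans h3)
        positivity
    _ = (2 * ((j + 1) * Real.log 2)) * (√(((2 ^ (j + 1) : ℕ) : ℝ)) *
        ((2 : ℝ) ^ j) ^ (-(3 / 4) : ℝ)) := by ring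
    _ ≤ (2 * ((j + 1) * Real.log 2)) * (2 * ((2 : ℝ) ^ (-(1 / 4) : ℝ)) ^ j) := by
        apply mul_le_mul_of_nonneg_left hsq
        positivity
    _ = _ := by ring

theorem w3_summable : Summable fun j : ℕ =>
    (4 * Real.log 2) * (((j : ℝ) + 1) * ((2 : ℝ) ^ (-(1 / 4) : ℝ)) ^ j) := by
  apply Summable.mul_left
  have hr : ‖(2 : ℝ) ^ (-(1 / 4) : ℝ)‖ < 1 := by
    rw [Real.norm_of_nonneg (by positivity)]
    exact Real.rpow_lt_one_of_one_lt_of_neg (by norm_num) (by norm_num)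
  have h1 := summable_pow_mul_geometric_of_norm_lt_one 1 hr
  have h0 := summable_geometric_of_norm_lt_one hr
  refine (h1.add h0).congr ?_
  intro j
  rw [pow_one]
  ring

theorem w3_total : ∃ C : ℝ, 0 < C ∧ ∀ s : Finset ℕ,
    ∑ n ∈ s, (Λ n - lp n) * (n : ℝ) ^ (-(3 / 4) : ℝ) ≤ C := by
  have hl2 : 0 < Real.log 2 := Real.log_pos (by norm_num)
  refine ⟨∑' j : ℕ, (4 * Real.log 2) * (((j : ℝ) + 1) * ((2 : ℝ) ^ (-(1 / 4) : ℝ)) ^ j) + 1,
    ?_, ?_⟩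
  · have : 0 ≤ ∑' j : ℕ, (4 * Real.log 2) * (((j : ℝ) + 1) * ((2 : ℝ) ^ (-(1 / 4) : ℝ)) ^ j) :=
      tsum_nonneg fun j => by positivity
    linarith
  · intro s
    have h1 : ∑ n ∈ s, (Λ n - lp n) * (n : ℝ) ^ (-(3 / 4) : ℝ) =
        ∑ n ∈ s.filter (fun n => 1 ≤ n), (Λ n - lp n) * (n : ℝ) ^ (-(3 / 4) : ℝ) := by
      rw [Finset.sum_filter]
      apply Finset.sum_congr rfl
      intro n _
      by_cases h : 1 ≤ n
      · rw [if_pos h]
      · rw [if_neg h]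
        have : n = 0 := by omega
        subst this
        rw [w3_zero, zero_mul]
    rw [h1, ← Finset.sum_fiberwise_of_maps_to (s := s.filter (fun n => 1 ≤ n))
      (t := (s.filter (fun n => 1 ≤ n)).image (Nat.log 2)) (g := Nat.log 2)
      (fun n hn => Finset.mem_image_of_mem _ hn)]
    calc _ ≤ ∑ j ∈ (s.filter (fun n => 1 ≤ n)).image (Nat.log 2),
          (4 * Real.log 2) * (((j : ℝ) + 1) * ((2 : ℝ) ^ (-(1 / 4) : ℝ)) ^ j) := by
          apply Finset.sum_le_sum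
          intro j _
          apply w3_block
          intro n hn
          rw [Finset.mem_filter, Finset.mem_filter] at hn
          exact ⟨hn.1.2, hn.2⟩
      _ ≤ ∑' j : ℕ, (4 * Real.log 2) * (((j : ℝ) + 1) * ((2 : ℝ) ^ (-(1 / 4) : ℝ)) ^ j) := by
          apply w3_summable.sum_le_tsum
          intro j _
          positivity
      _ ≤ _ := by linarith

/-- `∑_{n ∈ s, n ≥ x} (Λ(n) - lp(n))/n ≤ C x^(-1/4)`.

Proof: `Λ(n) - lp(n) = 0` unless `n = p^j`, `j ≥ 2`, where it is `log p`. The sum is at most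
`∑_p log p ∑_{j ≥ 2, p^j ≥ x} p^(-j) ≤ ∑_p log p · min(2 p^(-2), 2/x) `-ish; simpler:
`p^(-j) ≤ x^(-1/4) p^(-3j/4)` for `p^j ≥ x`, and `∑_p log p ∑_{j ≥ 2} p^(-3j/4) ≤ C ∑_p log p
p^(-3/2) < ∞`. Formally `(Λ(n) - lp(n))/n ≤ x^(-1/4) (Λ(n) - lp(n)) n^(-3/4)`, and the sum over all
`n` of `(Λ(n) - lp(n)) n^(-3/4)` is finite: from `ψ(u) - θ(u) ≤ C √u log u` (Mathlib
`Chebyshev.psi...` or `BPS_prime_powers` in `H68T/BPS`) over dyadic blocks. -/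
theorem W3_pp : ∃ C : ℝ, 0 < C ∧ ∀ (x : ℝ) (s : Finset ℕ), 1 ≤ x → (∀ n ∈ s, x ≤ n) →
    ∑ n ∈ s, (Λ n - lp n) / n ≤ C * x ^ (-(1 / 4) : ℝ) := by
  obtain ⟨C, hC, h⟩ := w3_total
  refine ⟨C, hC, ?_⟩
  intro x s hx hs
  calc ∑ n ∈ s, (Λ n - lp n) / n
      ≤ ∑ n ∈ s, (Λ n - lp n) * (n : ℝ) ^ (-(3 / 4) : ℝ) * x ^ (-(1 / 4) : ℝ) := by
        apply Finset.sum_le_sum
        intro n hn
        have hn1 : x ≤ n := hs n hn
        have hn0 : (0 : ℝ) < n := by linarith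
        rw [mul_assoc, div_eq_mul_inv]
        apply mul_le_mul_of_nonneg_left _ (w3_nonneg n)
        have h1 : (n : ℝ)⁻¹ = (n : ℝ) ^ (-(3 / 4) : ℝ) * (n : ℝ) ^ (-(1 / 4) : ℝ) := by
          rw [← Real.rpow_add hn0, ← Real.rpow_neg_one]
          norm_num
        rw [h1]
        apply mul_le_mul_of_nonneg_left _ (by positivity)
        exact Real.rpow_le_rpow_of_nonpos (by linarith) hn1 (by norm_num)
    _ = (∑ n ∈ s, (Λ n - lp n) * (n : ℝ) ^ (-(3 / 4) : ℝ)) * x ^ (-(1 / 4) : ℝ) := by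
        rw [Finset.sum_mul]
    _ ≤ _ := mul_le_mul_of_nonneg_right (h s) (by positivity)

/-- Hence, with `Jk_le`: `Jk(n) ≤ lam/n`. -/
theorem W3_Jk : ∃ C : ℝ, 0 < C ∧ ∀ (lam x : ℝ) (k : ℕ) (s : Finset ℕ), 0 < lam → 1 ≤ x →
    (∀ n ∈ s, x ≤ n) → ∑ n ∈ s, (Λ n - lp n) * Jk lam k n ≤ C * lam * x ^ (-(1 / 4) : ℝ) := by
  obtain ⟨C, hC, h⟩ := W3_pp
  refine ⟨C, hC, ?_⟩
  intro lam x k s hlam hx hs
  calc ∑ n ∈ s, (Λ n - lp n) * Jk lam k n
      ≤ ∑ n ∈ s, lam * ((Λ n - lp n) / n) := by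
        apply Finset.sum_le_sum
        intro n hn
        have hn1 : x ≤ n := hs n hn
        have hn0 : (0 : ℝ) < n := by linarith
        have h1 := Jk_le lam k n hlam
        have h2 : Jk lam k n ≤ lam / n := by
          rw [le_div_iff₀ hn0]
          linarith
        calc (Λ n - lp n) * Jk lam k n ≤ (Λ n - lp n) * (lam / n) :=
              mul_le_mul_of_nonneg_left h2 (w3_nonneg n)
          _ = _ := by ring
    _ = lam * ∑ n ∈ s, (Λ n - lp n) / n := by rw [Finset.mul_sum]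
    _ ≤ lam * (C * x ^ (-(1 / 4) : ℝ)) := mul_le_mul_of_nonneg_left (h x s hx hs) hlam.le
    _ = _ := by ring

end Pool.Agent.Lib.H18Q
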