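import Pool.Agent.Lib.H18Q.W2
import Pool.Agent.Lib.H18Q.W3

/-!
# Project H18Q, chunk D0: from the logarithmic derivative to a sum over primes
-/

open Finset

namespace Pool.Agent.Lib.H18Q

open ArithmeticFunction Pool.Agent.Lib.H68T

/-- The primes in `[x, y]`. -/
noncomputable def PI (x y : ℝ) : Finset ℕ := (Icc ⌈x⌉₊ ⌊y⌋₊).filter Nat.Prime

/-- Lower end of the range of primes. -/
noncomputable def xlo (K1 : ℕ) (lam : ℝ) : ℝ := Real.exp ((K1 - 1) / (2 ^ 20 * lam))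

/-- Upper end of the range of primes. -/
noncomputable def yhi (K1 : ℕ) (lam : ℝ) : ℝ := Real.exp (128 * K1 / lam)

/-- The sum over primes with weights `log n Jk(n)` and coefficients `c n`. -/
noncomputable def PP (c : ℕ → ℂ) (lam : ℝ) (k K1 : ℕ) (v : ℝ) : ℂ :=
  ∑ n ∈ PI (xlo K1 lam) (yhi K1 lam), ((Real.log n * Jk lam k n : ℝ) : ℂ) * c n *
    (n : ℂ) ^ (-(v * Complex.I))

theorem d0_iter (f : ℕ → ℂ) (m n : ℕ) :
    (LSeries.logMul^[m] f) n = (Complex.log n) ^ m * f n := by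
  induction m with
  | zero => simp
  | succ m ih =>
    rw [Function.iterate_succ_apply', LSeries.logMul, ih, pow_succ]
    ring

theorem d0_norm (n : ℕ) (hn : 1 ≤ n) (v : ℝ) : ‖(n : ℂ) ^ (-(v * Complex.I))‖ = 1 := by
  have h1 : -(v * Complex.I) = ((-v : ℝ) : ℂ) * Complex.I := by push_cast; ring
  rw [Complex.norm_natCast_cpow_of_pos (by omega)]
  simp

theorem d0_abs (c : ℕ → ℂ) (hc : ∀ n, ‖c n‖ ≤ 2) :
    LSeries.abscissaOfAbsConv (fun n => (Λ n : ℂ) * c n) ≤ (1 : ℝ) := by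
  apply LSeries.abscissaOfAbsConv_le_of_forall_lt_LSeriesSummable
  intro y hy
  have h1 : LSeriesSummable (fun n => (Λ n : ℂ)) (y : ℂ) :=
    ArithmeticFunction.LSeriesSummable_vonMangoldt (by rw [Complex.ofReal_re]; exact hy)
  have h2 := (h1.norm).mul_left 2
  refine Summable.of_norm_bounded h2 fun n => ?_
  by_cases hn : n = 0
  · subst hn
    simp
  · rw [LSeries.term_of_ne_zero hn, LSeries.term_of_ne_zero hn, norm_div, norm_div, norm_mul]
    have h3 : 0 ≤ ‖((Λ n : ℝ) : ℂ)‖ := norm_nonneg _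
    have h4 := hc n
    rw [← mul_div_assoc]
    refine div_le_div_of_nonneg_right ?_ (norm_nonneg _)
    nlinarith

/-- Derivatives of the Dirichlet series. Proof: `LSeries_iteratedDeriv` (abscissa of absolute
convergence of `Λ c` at most `1`, since `‖Λ n c n‖ ≤ 2 Λ n` and the series of `Λ` converges for
`Re s > 1`, `ArithmeticFunction.LSeriesSummable_vonMangoldt`): the `k`-th derivative is
`(-1)^k ∑ (log n)^k Λ(n) c(n) n^(-s)` (`LSeries.logMul` iterated), and
`lam^(k+1) (log n)^k / k! n^(-(1 + lam + i v)) = Jk lam k n n^(-i v)` for `n ≥ 1`; the term `n = 0`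
is `0` on both sides. -/
theorem D0_series (c : ℕ → ℂ) (hc : ∀ n, ‖c n‖ ≤ 2) (lam : ℝ) (hlam : 0 < lam) (k : ℕ) (v : ℝ) :
    (lam : ℂ) ^ (k + 1) * (iteratedDeriv k (LSeries (fun n => (Λ n : ℂ) * c n))
      (1 + lam + v * Complex.I) / (k.factorial : ℂ)) =
    (-1) ^ k * ∑' n : ℕ, ((Λ n * Jk lam k n : ℝ) : ℂ) * c n * (n : ℂ) ^ (-(v * Complex.I)) := by
  have hre : (1 + lam + v * Complex.I : ℂ).re = 1 + lam := by simp
  have habs : LSeries.abscissaOfAbsConv (fun n => (Λ n : ℂ) * c n) < ((1 + lam + v * Complex.I : ℂ).re : ℝ) := by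
    refine lt_of_le_of_lt (d0_abs c hc) ?_
    rw [hre]
    exact_mod_cast (by linarith : (1 : ℝ) < 1 + lam)
  rw [LSeries_iteratedDeriv k habs, LSeries]
  have h1 : ∀ X : ℂ, (lam : ℂ) ^ (k + 1) * ((-1) ^ k * X / (k.factorial : ℂ)) =
      (-1) ^ k * (((lam : ℂ) ^ (k + 1) / (k.factorial : ℂ)) * X) := by
    intro X
    ring
  rw [h1, ← tsum_mul_left]
  congr 1
  refine tsum_congr fun n => ?_
  by_cases hn : n = 0
  · subst hn
    rw [LSeries.term_zero]
    simp
  · have hn0 : (n : ℂ) ≠ 0 := by exact_mod_cast hn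
    have hnr : (0 : ℝ) < n := by exact_mod_cast Nat.pos_of_ne_zero hn
    rw [LSeries.term_of_ne_zero hn, d0_iter]
    have h2 : (n : ℂ) ^ (1 + lam + v * Complex.I : ℂ) = ((n : ℂ) ^ (-1 - lam : ℂ) * (n : ℂ) ^ (-(v * Complex.I)))⁻¹ := by
      rw [← Complex.cpow_add _ _ hn0, ← Complex.cpow_neg]
      congr 1
      ring
    rw [h2, div_inv_eq_mul]
    have h3 : ((Jk lam k n : ℝ) : ℂ) = (lam : ℂ) ^ (k + 1) * (Complex.log n) ^ k / (k.factorial : ℂ) * (n : ℂ) ^ (-1 - lam : ℂ) := by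
      unfold Jk
      push_cast
      rw [Complex.ofReal_cpow hnr.le]
      push_cast
      rfl
    rw [Complex.ofReal_mul, h3]
    ring

/-- Truncation to the primes between `xlo` and `yhi`: for `K1 ≥ C3`, `lam ≤ th0`,
`K1 ≤ k + 1 < 2 K1`, bounded coefficients, the error is at most `(1/8) 4096^(-K1)`.

Proof. `|n^(-iv)| ≤ 1`. The difference is at most `2 ∑' (Λ(n) - lp(n) 1[xlo ≤ n ≤ yhi]) Jk(n)`
(`lp n = log n` for primes, `lp ≤ Λ`); as all terms are nonnegative and finite sums suffice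
(`Real.tsum_le_of_sum_le` or `tsum_le_of_sum_range_le`; `Jk_summable`), bound three parts:
(1) `n < xlo`: `lam log n ≤ (K1 - 1)/2^20 ≤ k/2^20`, `Jk_low` with `B = 2^20`: `C (6/2^20)^k`,
`k ≥ K1 - 1`, and `6/2^20 ≤ 2^(-17)`: `≤ C 2^(-17 (K1-1)) ≤ (1/100) 4096^(-K1) = (1/100) 2^(-12 K1)`
for `K1 ≥ C3`. (2) `n > yhi`: `lam log n ≥ 128 K1 ≥ 64 k`, `Jk_high` with `B = 64`:
`C (192 e^(-32))^k`, `192 e^(-32) ≤ 2^(-38)`. (3) `xlo ≤ n ≤ yhi`: `(Λ - lp) Jk`, `W3_Jk` with
`x = xlo`: `C lam exp(-(K1-1)/(2^22 lam)) ≤ C exp(-(K1-1) 10^9/2^22) ≤ C exp(-200 (K1-1))`. -/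
theorem D0_trunc : ∃ C3 : ℝ, 1 ≤ C3 ∧ ∀ (c : ℕ → ℂ), (∀ n, ‖c n‖ ≤ 2) → ∀ (lam v : ℝ)
    (k K1 : ℕ), 0 < lam → lam ≤ th0 → C3 ≤ K1 → K1 ≤ k + 1 → k + 1 < 2 * K1 →
    ‖(∑' n : ℕ, ((Λ n * Jk lam k n : ℝ) : ℂ) * c n * (n : ℂ) ^ (-(v * Complex.I))) -
      PP c lam k K1 v‖ ≤ 1 / 8 * (1 / 4096) ^ K1 := by
  obtain ⟨A1, hA1, h1⟩ := Jk_low
  obtain ⟨A2, hA2, h2⟩ := Jk_high
  obtain ⟨A3, hA3, h3⟩ := W3_Jk
  refine ⟨(A1 + A2 + A3) * 2 ^ 21 + 2, by nlinarith, fun c hc lam v k K1 hlam hlam1 hK hk1 hk2 => ?_⟩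
  have hth : th0 ≤ 1 := by unfold th0; norm_num
  have hl1 : lam ≤ 1 := hlam1.trans hth
  have hK2 : (2 : ℝ) ≤ K1 := by nlinarith
  have hK2' : 2 ≤ K1 := by exact_mod_cast hK2
  have hkr : (K1 : ℝ) - 1 ≤ k := by
    have : (K1 : ℝ) ≤ k + 1 := by exact_mod_cast hk1
    linarith
  have hkr2 : (k : ℝ) ≤ 2 * K1 := by exact_mod_cast (by omega : k ≤ 2 * K1)
  obtain ⟨F, hF⟩ : ∃ F : ℕ → ℂ, F = fun n => ((Λ n * Jk lam k n : ℝ) : ℂ) * c n * (n : ℂ) ^ (-(v * Complex.I)) := ⟨_, rfl⟩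
  obtain ⟨P, hP⟩ : ∃ P, P = PI (xlo K1 lam) (yhi K1 lam) := ⟨_, rfl⟩
  classical
  obtain ⟨G, hG⟩ : ∃ G : ℕ → ℂ, G = fun n => if n ∈ P then ((Real.log n * Jk lam k n : ℝ) : ℂ) * c n * (n : ℂ) ^ (-(v * Complex.I)) else 0 := ⟨_, rfl⟩
  obtain ⟨E, hE⟩ : ∃ E : ℕ → ℝ, E = fun n => (Λ n - if n ∈ P then Real.log n else 0) * Jk lam k n := ⟨_, rfl⟩
  have hPpr : ∀ n ∈ P, n.Prime := by
    intro n hn
    rw [hP, PI, Finset.mem_filter] at hn
    exact hn.2
  have hJ : ∀ n, 0 ≤ Jk lam k n := fun n => Jk_nonneg lam k n hlam.le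
  have hE0 : ∀ n, 0 ≤ E n := by
    intro n
    rw [hE]
    refine mul_nonneg ?_ (hJ n)
    split_ifs with h
    · rw [vonMangoldt_apply_prime (hPpr n h)]
      exact sub_nonneg.2 le_rfl
    · rw [sub_zero]; exact vonMangoldt_nonneg
  have hEle : ∀ n, E n ≤ Λ n * Jk lam k n := by
    intro n
    rw [hE]
    refine mul_le_mul_of_nonneg_right ?_ (hJ n)
    split_ifs with h
    · exact sub_le_self _ (Real.log_natCast_nonneg n)
    · rw [sub_zero]
  have hEsum : Summable E := Summable.of_nonneg_of_le hE0 hEle (Jk_summable lam k hlam hl1)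
  have hPP : PP c lam k K1 v = ∑' n, G n := by
    rw [tsum_eq_sum (s := P) (fun n hn => by rw [hG]; exact if_neg hn), PP, ← hP]
    refine Finset.sum_congr rfl fun n hn => ?_
    rw [hG]
    exact (if_pos hn).symm
  have hGs : Summable G := summable_of_ne_finset_zero (s := P) (fun n hn => by rw [hG]; exact if_neg hn)
  have hFn : ∀ n, ‖F n‖ ≤ 2 * (Λ n * Jk lam k n) := by
    intro n
    rw [hF]
    by_cases hn : n = 0
    · subst hn
      simp
    · simp only [norm_mul, Complex.norm_real, d0_norm n (Nat.pos_of_ne_zero hn) v, mul_one, Real.norm_eq_abs]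
      rw [abs_of_nonneg vonMangoldt_nonneg, abs_of_nonneg (hJ n)]
      have h4 := hc n
      have h5 : 0 ≤ Λ n * Jk lam k n := mul_nonneg vonMangoldt_nonneg (hJ n)
      nlinarith
  have hFs : Summable F := Summable.of_norm_bounded ((Jk_summable lam k hlam hl1).mul_left 2) hFn
  have hdiff : ∀ n, ‖F n - G n‖ ≤ 2 * E n := by
    intro n
    have h4 : F n - G n = ((E n : ℝ) : ℂ) * c n * (n : ℂ) ^ (-(v * Complex.I)) := by
      rw [hF, hG, hE]
      simp only []
      split_ifs with h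
      · push_cast; ring
      · push_cast; ring
    rw [h4]
    by_cases hn : n = 0
    · subst hn
      have h5 : E 0 = 0 := by
        rw [hE]
        simp only []
        rw [if_neg (fun h => Nat.not_prime_zero (hPpr 0 h)), ArithmeticFunction.map_zero]
        ring
      rw [h5]
      simp
    · rw [norm_mul, norm_mul, d0_norm n (Nat.pos_of_ne_zero hn) v, mul_one, Complex.norm_real, Real.norm_eq_abs,
        abs_of_nonneg (hE0 n)]
      have h5 := hc n
      have h6 := hE0 n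
      nlinarith
  have hxlo : 1 ≤ xlo K1 lam := by
    unfold xlo
    apply Real.one_le_exp
    exact div_nonneg (by linarith) (by positivity)
  have hnum1 : ∀ C r : ℝ, 0 < C → 0 ≤ r → r ≤ (1 / 2) ^ 17 → C * r ^ k ≤ C * ((1 / 2) ^ 17) ^ (K1 - 1) := by
    intro C r hC hr hr2
    refine mul_le_mul_of_nonneg_left ?_ hC.le
    exact (pow_le_pow_left₀ hr hr2 k).trans
      (pow_le_pow_of_le_one (by positivity) (by norm_num) (by omega))
  have hfin : ∀ s : Finset ℕ, ∑ n ∈ s, E n ≤ (A1 + A2 + A3) * ((1 / 2) ^ 17) ^ (K1 - 1) := by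
    intro s
    obtain ⟨s1, hs1⟩ : ∃ s1, s1 = s.filter (fun n : ℕ => (n : ℝ) < xlo K1 lam) := ⟨_, rfl⟩
    obtain ⟨t, ht⟩ : ∃ t, t = s.filter (fun n : ℕ => ¬ (n : ℝ) < xlo K1 lam) := ⟨_, rfl⟩
    obtain ⟨s2, hs2⟩ : ∃ s2, s2 = t.filter (fun n : ℕ => yhi K1 lam < (n : ℝ)) := ⟨_, rfl⟩
    obtain ⟨s3, hs3⟩ : ∃ s3, s3 = t.filter (fun n : ℕ => ¬ yhi K1 lam < (n : ℝ)) := ⟨_, rfl⟩
    have hsplit : ∑ n ∈ s, E n = ∑ n ∈ s1, E n + (∑ n ∈ s2, E n + ∑ n ∈ s3, E n) := by
      rw [hs2, hs3, Finset.sum_filter_add_sum_filter_not, hs1, ht, Finset.sum_filter_add_sum_filter_not]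
    have hb1 : ∑ n ∈ s1, E n ≤ A1 * ((1 / 2) ^ 17) ^ (K1 - 1) := by
      refine (Finset.sum_le_sum fun n _ => hEle n).trans ?_
      refine (h1 lam (2 ^ 20) k s1 hlam hl1 (by norm_num) fun n hn => ?_).trans
        (hnum1 A1 _ hA1 (by positivity) (by norm_num))
      rw [hs1, Finset.mem_filter] at hn
      by_cases hn0 : n = 0
      · subst hn0
        simp only [Nat.cast_zero, Real.log_zero, mul_zero]
        positivity
      · have hnr : (0 : ℝ) < n := by exact_mod_cast Nat.pos_of_ne_zero hn0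
        have h4 := Real.log_lt_log hnr hn.2
        unfold xlo at h4
        rw [Real.log_exp, lt_div_iff₀ (by positivity)] at h4
        rw [le_div_iff₀ (by positivity)]
        linarith
    have hb2 : ∑ n ∈ s2, E n ≤ A2 * ((1 / 2) ^ 17) ^ (K1 - 1) := by
      refine (Finset.sum_le_sum fun n _ => hEle n).trans ?_
      have he : Real.exp (-(64 / 2)) ≤ (1 / 2) ^ 32 := by
        have h5 : (2 : ℝ) ≤ Real.exp 1 := by
          have := Real.add_one_le_exp (1 : ℝ)
          linarith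
        have h6 : Real.exp (-(64 / 2)) = (Real.exp 1)⁻¹ ^ 32 := by
          rw [← Real.exp_neg, ← Real.exp_nat_mul]
          congr 1
          norm_num
        rw [h6]
        refine pow_le_pow_left₀ (by positivity) ?_ 32
        rw [inv_eq_one_div]
        exact one_div_le_one_div_of_le (by norm_num) h5
      refine (h2 lam 64 k s2 hlam hl1 (by norm_num) fun n hn => ?_).trans
        (hnum1 A2 _ hA2 (by positivity) ?_)
      · rw [hs2, ht, Finset.mem_filter, Finset.mem_filter, not_lt] at hn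
        have hnr : (1 : ℝ) ≤ n := hxlo.trans hn.1.2
        refine ⟨by exact_mod_cast hnr, ?_⟩
        have h4 := Real.log_lt_log (by unfold yhi; positivity) hn.2
        unfold yhi at h4
        rw [Real.log_exp, div_lt_iff₀ hlam] at h4
        linarith
      · calc 3 * 64 * Real.exp (-(64 / 2)) ≤ 3 * 64 * (1 / 2) ^ 32 :=
              mul_le_mul_of_nonneg_left he (by norm_num)
          _ ≤ (1 / 2) ^ 17 := by norm_num
    have hb3 : ∑ n ∈ s3, E n ≤ A3 * ((1 / 2) ^ 17) ^ (K1 - 1) := by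
      have h4 : ∀ n ∈ s3, E n = (Λ n - lp n) * Jk lam k n := by
        intro n hn
        rw [hs3, ht, Finset.mem_filter, Finset.mem_filter, not_lt, not_lt] at hn
        rw [hE]
        simp only []
        congr 2
        by_cases hpn : n.Prime
        · rw [if_pos]
          · unfold H68T.lp
            rw [if_pos (by simpa using hpn)]
            simp
          · rw [hP, PI, Finset.mem_filter, Finset.mem_Icc]
            refine ⟨⟨Nat.ceil_le.2 hn.1.2, Nat.le_floor hn.2⟩, hpn⟩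
        · rw [if_neg (fun h => hpn (hPpr n h))]
          unfold H68T.lp
          rw [if_neg (by simpa using hpn)]
      rw [Finset.sum_congr rfl h4]
      refine (h3 lam (xlo K1 lam) k s3 hlam hxlo fun n hn => ?_).trans ?_
      · rw [hs3, ht, Finset.mem_filter, Finset.mem_filter, not_lt] at hn
        exact hn.1.2
      · have h5 : xlo K1 lam ^ (-(1 / 4) : ℝ) ≤ ((1 / 2) ^ 17) ^ (K1 - 1) := by
          unfold xlo
          rw [← Real.exp_mul]
          have h6 : Real.exp (-17) ≤ (1 / 2) ^ 17 := by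
            have h7 : (2 : ℝ) ≤ Real.exp 1 := by
              have := Real.add_one_le_exp (1 : ℝ)
              linarith
            have h8 : Real.exp (-17) = (Real.exp 1)⁻¹ ^ 17 := by
              rw [← Real.exp_neg, ← Real.exp_nat_mul]
              congr 1
              norm_num
            rw [h8]
            refine pow_le_pow_left₀ (by positivity) ?_ 17
            rw [inv_eq_one_div]
            exact one_div_le_one_div_of_le (by norm_num) h7
          refine le_trans ?_ (pow_le_pow_left₀ (Real.exp_pos _).le h6 (K1 - 1))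
          rw [← Real.exp_nat_mul]
          apply Real.exp_le_exp.2
          rw [Nat.cast_sub (by omega), Nat.cast_one]
          have h9 : (17 : ℝ) ≤ 1 / (2 ^ 22 * lam) := by
            rw [le_div_iff₀ (by positivity)]
            unfold th0 at hlam1
            calc 17 * (2 ^ 22 * lam) ≤ 17 * (2 ^ 22 * (1 / 10 ^ 9)) := by
                  have : (0 : ℝ) < 17 * 2 ^ 22 := by norm_num
                  nlinarith
              _ ≤ 1 := by norm_num
          have h10 : ((K1 : ℝ) - 1) / (2 ^ 20 * lam) * -(1 / 4) = -((K1 - 1) * (1 / (2 ^ 22 * lam))) := by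
            field_simp
            ring
          rw [h10]
          have h11 : (0 : ℝ) ≤ (K1 : ℝ) - 1 := by linarith
          nlinarith
        have h12 : A3 * lam ≤ A3 := by nlinarith
        exact mul_le_mul h12 h5 (by positivity) hA3.le
    rw [hsplit]
    nlinarith
  have htE : ∑' n, E n ≤ (A1 + A2 + A3) * ((1 / 2) ^ 17) ^ (K1 - 1) :=
    hEsum.tsum_le_of_sum_le hfin
  rw [hPP]
  have hFeq : (∑' n : ℕ, ((Λ n * Jk lam k n : ℝ) : ℂ) * c n * (n : ℂ) ^ (-(v * Complex.I))) = ∑' n, F n := by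
    rw [hF]
  rw [hFeq, ← hFs.tsum_sub hGs]
  have hns : Summable fun n => ‖F n - G n‖ := (hFs.sub hGs).norm
  refine (norm_tsum_le_tsum_norm hns).trans ?_
  refine (hns.tsum_le_tsum hdiff (hEsum.mul_left 2)).trans ?_
  rw [tsum_mul_left]
  refine (mul_le_mul_of_nonneg_left htE (by norm_num)).trans ?_
  obtain ⟨m, hm⟩ : ∃ m, K1 = m + 1 := ⟨K1 - 1, by omega⟩
  have hKm : K1 - 1 = m := by omega
  rw [hKm]
  have h4 : (K1 : ℝ) ≤ 2 ^ (5 * m) := by
    have h5 : K1 ≤ 2 ^ (5 * m) := by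
      have h6 : m < 2 ^ m := Nat.lt_two_pow_self
      have h7 : 2 ^ m ≤ 2 ^ (5 * m) := Nat.pow_le_pow_right (by norm_num) (by omega)
      omega
    exact_mod_cast h5
  have h5 : ((1 / 2 : ℝ) ^ 17) ^ m * 2 ^ (5 * m) = (1 / 4096) ^ m := by
    rw [pow_mul, ← mul_pow]
    congr 1
    norm_num
  have h6 : (0 : ℝ) < ((1 / 2) ^ 17) ^ m := by positivity
  rw [hm, pow_succ (1 / 4096 : ℝ) m, ← h5]
  have h7 : (A1 + A2 + A3) * 2 ^ 21 ≤ 2 ^ (5 * m) := by
    have : (A1 + A2 + A3) * 2 ^ 21 + 2 ≤ 2 ^ (5 * m) := hK.trans h4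
    linarith
  nlinarith

end Pool.Agent.Lib.H18Q
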