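import Pool.Agent.Lib.H18Q.E1
import Pool.Agent.Lib.H51D.DHC

/-!
# Project H18Q, chunk E2: few primes with `ψ(p) = 1`
-/

open Finset

namespace Pool.Agent.Lib.H18Q

open Pool.Agent.Lib.H68T

/-- `(∑_{m ≤ x} λ(m)/m) (∑_{x < p ≤ y, ψ(p) = 1} 2/p) ≤ ∑_{x < n ≤ x y} λ(n)/n`.

Proof. For `m ≤ x < p`, `p` prime, `ψ(p) = 1`: `p ∤ m`, `λ(m p) = 2 λ(m)` (`λ` is multiplicative;
directly: the divisors of `m p` are `d`, `p d` for `d ∣ m`, and `ψ(p d) = ψ(d)`), `x < m p ≤ x y`,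
and `(m, p) ↦ m p` is injective (`m p = m' p'`, `p ≠ p'` gives `p ∣ m' ≤ x < p`). `λ ≥ 0`
(`XRP_nonneg`, or `lam` lemmas in `H51D`). -/
theorem E2_product (r : ℕ) [NeZero r] (ψ : DirichletCharacter ℂ r) (h2 : ψ ^ 2 = 1) (x y : ℕ)
    (hx : 1 ≤ x) :
    (∑ m ∈ Icc 1 x, lam ψ m / m) *
      (∑ p ∈ (Ioc x y).filter (fun p : ℕ => p.Prime ∧ ψ (p : ZMod r) = 1), 2 / (p : ℝ)) ≤
      ∑ n ∈ Ioc x (x * y), lam ψ n / n := by
  classical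
  set P := (Ioc x y).filter (fun p : ℕ => p.Prime ∧ ψ (p : ZMod r) = 1) with hP
  have hPm : ∀ p ∈ P, x < p ∧ p ≤ y ∧ p.Prime ∧ ψ (p : ZMod r) = 1 := by
    intro p hp
    rw [hP, mem_filter, mem_Ioc] at hp
    exact ⟨hp.1.1, hp.1.2, hp.2.1, hp.2.2⟩
  have hval : ∀ q ∈ Icc 1 x ×ˢ P, lam ψ q.1 / q.1 * (2 / (q.2 : ℝ)) = lam ψ (q.1 * q.2) / ((q.1 * q.2 : ℕ) : ℝ) := by
    rintro ⟨m, p⟩ hq
    rw [mem_product, mem_Icc] at hq
    obtain ⟨h1, h3, h4, h5⟩ := hPm p hq.2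
    have hm1 := hq.1.1
    have hm2 := hq.1.2
    simp only at h1 h3 h4 h5 hm1 hm2 ⊢
    have hcop : m.Coprime p := by
      rw [Nat.coprime_comm, Nat.Prime.coprime_iff_not_dvd h4]
      intro hd
      have := Nat.le_of_dvd (by omega) hd
      omega
    have hlp : lam ψ p = 2 := by
      have := dha_lam_pp r ψ h2 p 1 h4
      rw [pow_one, sum_range_succ, sum_range_one, h5] at this
      rw [this]
      norm_num
    have hmul : lam ψ (m * p) = lam ψ m * 2 := by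
      rw [dha_lam ψ (m * p), (dha_lam_mult r ψ h2).map_mul_of_coprime hcop, ← dha_lam, ← dha_lam, hlp]
    rw [hmul]
    push_cast
    rw [mul_comm (m : ℝ) (p : ℝ)]
    have hm0 : (m : ℝ) ≠ 0 := by exact_mod_cast (by omega : m ≠ 0)
    have hp0 : (p : ℝ) ≠ 0 := by exact_mod_cast h4.ne_zero
    field_simp
  have hinj : Set.InjOn (fun q : ℕ × ℕ => q.1 * q.2) (Icc 1 x ×ˢ P : Finset (ℕ × ℕ)) := by
    rintro ⟨m, p⟩ hq ⟨m', p'⟩ hq' h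
    rw [mem_coe, mem_product, mem_Icc] at hq hq'
    obtain ⟨h1, h3, h4, h5⟩ := hPm p hq.2
    obtain ⟨h1', h3', h4', h5'⟩ := hPm p' hq'.2
    simp only at h h1 h1' hq hq' h4 h4'
    have hpp : p = p' := by
      have hd : p ∣ m' * p' := ⟨m, by rw [← h]; ring⟩
      rcases h4.dvd_mul.1 hd with h6 | h6
      · have := Nat.le_of_dvd (by omega) h6
        omega
      · exact (Nat.prime_dvd_prime_iff_eq h4 h4').1 h6
    subst hpp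
    have := Nat.eq_of_mul_eq_mul_right h4.pos h
    rw [this]
  rw [sum_mul_sum, ← sum_product', sum_congr rfl hval]
  have himg : ∑ q ∈ Icc 1 x ×ˢ P, lam ψ (q.1 * q.2) / ((q.1 * q.2 : ℕ) : ℝ) =
      ∑ n ∈ (Icc 1 x ×ˢ P).image (fun q : ℕ × ℕ => q.1 * q.2), lam ψ n / (n : ℝ) :=
    (sum_image (f := fun n : ℕ => lam ψ n / (n : ℝ)) hinj).symm
  rw [himg]
  refine sum_le_sum_of_subset_of_nonneg ?_ fun n _ _ => div_nonneg (lam_nonneg r ψ h2 n) (Nat.cast_nonneg _)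
  intro n hn
  rw [mem_image] at hn
  obtain ⟨⟨m, p⟩, hq, rfl⟩ := hn
  rw [mem_product, mem_Icc] at hq
  obtain ⟨h1, h3, h4, h5⟩ := hPm p hq.2
  simp only at h1 h3 hq ⊢
  rw [mem_Ioc]
  exact ⟨lt_of_lt_of_le h1 (Nat.le_mul_of_pos_left p (by omega)), Nat.mul_le_mul hq.1.2 h3⟩

/-- **Few primes with `ψ(p) = 1`.** Let `β` be a real zero of `L(s, ψ)`, `3/4 ≤ β < 1`,
`η = 1 - β`, `(4000 r)² ≤ x ≤ y`. Then
`∑_{x < p ≤ y, ψ(p) = 1} 1/p ≤ η (2 + log (x y)) + 10 r/√x`.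

Proof. `A = ∑_{m ≤ x} λ(m)/m ≥ 1` (term `m = 1`, `λ ≥ 0`), and `m^(-1) = m^(-β) m^(-η) ≥ m^(-β)
x^(-η)`, so by `E1_lower` `A ≥ x^(-η) ∑ λ(m) m^(-β) ≥ ‖L(1)‖/η - 2000 r x^(-1/2) ≥ ‖L(1)‖/η - 1/2`;
hence `A ≥ (2/3) ‖L(1)‖/η` (if `‖L(1)‖/η ≤ 3/2` from `A ≥ 1`, else from `t - 1/2 ≥ 2 t/3`). By
`E2_product` and `lam_tail` (`H51D/DHC`; `y N` there is `x`, `x y`):
`2 A ∑ 1/p ≤ ‖L(1)‖ (2 + log (x y)) + 20 r/√x`. Divide by `2 A ≥ 2`, `2 A ≥ (4/3) ‖L(1)‖/η`. -/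
theorem E2_primes (r : ℕ) [NeZero r] (ψ : DirichletCharacter ℂ r) (hψ : ψ ≠ 1) (h2 : ψ ^ 2 = 1)
    (β : ℝ) (hβ : 3 / 4 ≤ β) (hβ1 : β < 1) (h0 : ψ.LFunction (β : ℂ) = 0) (x y : ℕ)
    (hx : (4000 * r) ^ 2 ≤ x) (hxy : x ≤ y) :
    ∑ p ∈ (Ioc x y).filter (fun p : ℕ => p.Prime ∧ ψ (p : ZMod r) = 1), 1 / (p : ℝ) ≤
      (1 - β) * (2 + Real.log (x * y : ℕ)) + 10 * r / Real.sqrt x := by
  have hr1 : (1 : ℝ) ≤ r := by exact_mod_cast Nat.one_le_iff_ne_zero.2 (NeZero.ne r)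
  have hrn : 1 ≤ r := Nat.one_le_iff_ne_zero.2 (NeZero.ne r)
  have hx1 : 1 ≤ x := le_trans (Nat.one_le_pow _ _ (by omega)) hx
  have hxR : (0 : ℝ) < x := by exact_mod_cast hx1
  have hη : 0 < 1 - β := by linarith
  obtain ⟨η, hηd⟩ : ∃ η, η = 1 - β := ⟨_, rfl⟩
  obtain ⟨L1, hL1⟩ : ∃ L1, L1 = ‖ψ.LFunction 1‖ := ⟨_, rfl⟩
  have hL0 : 0 ≤ L1 := by rw [hL1]; exact norm_nonneg _
  obtain ⟨A, hA⟩ : ∃ A, A = ∑ m ∈ Icc 1 x, lam ψ m / m := ⟨_, rfl⟩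
  obtain ⟨S, hS⟩ : ∃ S, S = ∑ p ∈ (Ioc x y).filter (fun p : ℕ => p.Prime ∧ ψ (p : ZMod r) = 1), 1 / (p : ℝ) := ⟨_, rfl⟩
  have hS0 : 0 ≤ S := by
    rw [hS]
    exact sum_nonneg fun p _ => by positivity
  have h1 := E2_product r ψ h2 x y hx1
  have h2S : ∑ p ∈ (Ioc x y).filter (fun p : ℕ => p.Prime ∧ ψ (p : ZMod r) = 1), 2 / (p : ℝ) = 2 * S := by
    rw [hS, mul_sum]
    exact sum_congr rfl fun p _ => by ring
  rw [h2S, ← hA] at h1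
  have hxy1 : x ≤ x * y := Nat.le_mul_of_pos_right x (by omega)
  have h3 := lam_tail r ψ hψ h2 x (x * y) hx1 hxy1
  rw [← hL1] at h3
  have hA1 : 1 ≤ A := by
    have h4 : lam ψ 1 / ((1 : ℕ) : ℝ) ≤ A := by
      rw [hA]
      exact single_le_sum (f := fun m : ℕ => lam ψ m / (m : ℝ)) (fun m _ => div_nonneg (lam_nonneg r ψ h2 m) (Nat.cast_nonneg _))
        (mem_Icc.2 ⟨le_rfl, hx1⟩)
    have h5 : lam ψ 1 = 1 := by
      unfold lam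
      simp
    rw [h5] at h4
    simpa using h4
  have hsq : 4000 * (r : ℝ) ≤ Real.sqrt x := by
    apply Real.le_sqrt_of_sq_le
    exact_mod_cast hx
  have hAl : L1 / η - 1 / 2 ≤ A := by
    have h4 := E1_lower r ψ hψ h2 β hβ hβ1 h0 x hx1
    rw [← hL1, ← hηd] at h4
    have h5 : (x : ℝ) ^ (-η) * ∑ m ∈ Icc 1 x, lam ψ m * (m : ℝ) ^ (-β) ≤ A := by
      rw [hA, mul_sum]
      refine sum_le_sum fun m hm => ?_
      rw [mem_Icc] at hm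
      have hm0 : (0 : ℝ) < m := by exact_mod_cast (by omega : 0 < m)
      have hmx : (m : ℝ) ≤ x := by exact_mod_cast hm.2
      have h6 : (x : ℝ) ^ (-η) ≤ (m : ℝ) ^ (-η) :=
        Real.rpow_le_rpow_of_nonpos hm0 hmx (by rw [hηd]; linarith)
      have h7 : (m : ℝ) ^ (-η) * (m : ℝ) ^ (-β) = 1 / m := by
        rw [← Real.rpow_add hm0, hηd]
        have : -(1 - β) + -β = -1 := by ring
        rw [this, Real.rpow_neg_one, one_div]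
      calc (x : ℝ) ^ (-η) * (lam ψ m * (m : ℝ) ^ (-β)) ≤ (m : ℝ) ^ (-η) * (lam ψ m * (m : ℝ) ^ (-β)) :=
            mul_le_mul_of_nonneg_right h6 (mul_nonneg (lam_nonneg r ψ h2 m) (Real.rpow_nonneg hm0.le _))
        _ = lam ψ m * ((m : ℝ) ^ (-η) * (m : ℝ) ^ (-β)) := by ring
        _ = lam ψ m / m := by rw [h7]; ring
    have h6 := mul_le_mul_of_nonneg_left h4 (Real.rpow_nonneg hxR.le (-η))
    have h7 : (x : ℝ) ^ (-η) * (L1 * (x : ℝ) ^ η / η - 2000 * r * (x : ℝ) ^ (1 / 2 - β)) =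
        L1 / η - 2000 * r / Real.sqrt x := by
      have e1 : (x : ℝ) ^ (-η) * (x : ℝ) ^ η = 1 := by
        rw [← Real.rpow_add hxR, neg_add_cancel, Real.rpow_zero]
      have e2 : (x : ℝ) ^ (-η) * (x : ℝ) ^ (1 / 2 - β) = 1 / Real.sqrt x := by
        rw [← Real.rpow_add hxR, Real.sqrt_eq_rpow, one_div ((x : ℝ) ^ (1 / 2 : ℝ)), ← Real.rpow_neg hxR.le, hηd]
        congr 1
        ring
      calc (x : ℝ) ^ (-η) * (L1 * (x : ℝ) ^ η / η - 2000 * r * (x : ℝ) ^ (1 / 2 - β)) =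
          L1 * ((x : ℝ) ^ (-η) * (x : ℝ) ^ η) / η - 2000 * r * ((x : ℝ) ^ (-η) * (x : ℝ) ^ (1 / 2 - β)) := by ring
        _ = _ := by rw [e1, e2]; ring
    rw [h7] at h6
    have h8 : 2000 * r / Real.sqrt x ≤ 1 / 2 := by
      rw [div_le_iff₀ (by linarith)]
      linarith
    linarith
  have hη' : 0 < η := by rw [hηd]; exact hη
  have hLA : L1 ≤ 3 / 2 * η * A := by
    have h5 : L1 = L1 / η * η := by field_simp
    by_cases h6 : L1 / η ≤ 3 / 2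
    · rw [h5]
      nlinarith
    · push Not at h6
      rw [h5]
      nlinarith
  obtain ⟨l, hl⟩ : ∃ l, l = Real.log ((x * y : ℕ) : ℝ) := ⟨_, rfl⟩
  rw [← hl] at h3 ⊢
  rw [← hS, ← hηd]
  have hl0 : 0 ≤ l := by
    rw [hl]
    exact Real.log_natCast_nonneg _
  obtain ⟨z, hz⟩ : ∃ z, z = r / Real.sqrt x := ⟨_, rfl⟩
  have hz0 : 0 ≤ z := by
    rw [hz]
    positivity
  have e20 : 20 * r / Real.sqrt x = 20 * z := by rw [hz]; ring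
  have e10 : 10 * r / Real.sqrt x = 10 * z := by rw [hz]; ring
  rw [e20] at h3
  rw [e10]
  have h9 : A * (2 * S) ≤ 3 / 2 * η * A * (2 + l) + 20 * z :=
    (h1.trans h3).trans (add_le_add (mul_le_mul_of_nonneg_right hLA (by linarith)) le_rfl)
  have hA0 : 0 < A := by linarith
  by_contra hcon
  push Not at hcon
  have h10 : A * (2 * (η * (2 + l) + 10 * z)) < A * (2 * S) := by
    apply mul_lt_mul_of_pos_left _ hA0
    linarith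
  have h11 : 20 * z ≤ A * (20 * z) := le_mul_of_one_le_left (by positivity) hA1
  have h12 : 0 ≤ η * A * (2 + l) := by positivity
  nlinarith

end Pool.Agent.Lib.H18Q
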