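import Pool.Agent.Lib.H18Q.E4
import Pool.Agent.Lib.H18Q.D0
import Pool.Agent.Lib.H18Q.E2
import Pool.Agent.Lib.H68X.XSIE

/-!
# Project H18Q, chunk E6: the detecting sum is small
-/

open Finset

namespace Pool.Agent.Lib.H18Q

open ArithmeticFunction Pool.Agent.Lib.H68T

/-- `|PP(c_E)| ≤ C K1 η log Q`, `η = 1 - β`, for `C3 κ ≤ K1 ≤ 2 C3 κ`.

Proof. Let `lam = κ/log Q`, `x = xlo K1 lam`, `y = yhi K1 lam`; `log x = (K1 - 1) log Q/(2^20 κ) ≥
100 log Q` if `C3 ≥ 2^28`, so `x ≥ Q^100`, all primes `n ∈ PI x y` are `> Q ≥ r` and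
`ψ(n) = ±1`. `|PP| ≤ ∑ log n Jk(n) |1 + ψ(n) n^(-η)|`. If `ψ(n) = -1`:
`1 - n^(-η) ≤ η log n ≤ η log y = 128 η K1/lam`, and `∑ log n Jk(n) ≤ C` (`Jk_sum`, `Λ n = log n`): at
most `C 128 η K1 log Q/κ ≤ C' η log Q` (`K1 ≤ 2 C3 κ`). If `ψ(n) = 1`: factor `≤ 2`,
`log n Jk(n) ≤ lam log y/n = 128 K1/n` (`Jk_le`), and by `E2_primes` (between `X0 = ⌈x⌉ - 1 ≥ Q^99`
and `Y0 = ⌊y⌋`) `∑ 1/n ≤ η (2 + log (X0 Y0)) + 10 r/√X0 ≤ η (2 + 256 K1/lam) + 10 Q^(-48)`, where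
`K1/lam ≤ 2 C3 log Q`, and `10 Q^(-48) ≤ Q^(-3) ≤ η` for `Q` large (`zero_elementary` in
`H68X/XSIE`: `η ≥ c/r² ≥ c/Q²`). Total `≤ 256 K1 (C'' η log Q)`. -/
theorem E6_small (C3 : ℝ) (hC3 : 2 ^ 28 ≤ C3) : ∃ C K : ℝ, 0 < C ∧ ∀ Q : ℕ, K ≤ Q →
    ∀ (r : ℕ) [NeZero r] (ψ : DirichletCharacter ℂ r), r ≤ Q → ψ ≠ 1 → ψ ^ 2 = 1 → ∀ β : ℝ,
    7 / 8 ≤ β → β < 1 → ψ.LFunction (β : ℂ) = 0 →
    ∀ (p : Σ r : ℕ, DirichletCharacter ℂ r) (κ v : ℝ), 1 ≤ κ →
    κ ≤ th0 * Real.log Q → ∀ K1 k : ℕ, C3 * κ ≤ K1 → (K1 : ℝ) ≤ 2 * C3 * κ →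
    ‖PP (cE r ψ β p) (κ / Real.log Q) k K1 v‖ ≤ C * K1 * ((1 - β) * Real.log Q) := by
  obtain ⟨CJ, hCJ, hJ⟩ := Jk_sum
  obtain ⟨c, hc, hel⟩ := H68T.zero_elementary
  refine ⟨128 * CJ + 256 * (3 + 512 * C3), max 3 (10 / c), by positivity, ?_⟩
  intro Q hQ r _ ψ hrQ hψ hψ2 β hβ hβ1 h0 p κ v hκ hκQ K1 k hK1 hK2
  have hQ3 : (3 : ℝ) ≤ Q := (le_max_left _ _).trans hQ
  have hQc : 10 / c ≤ (Q : ℝ) := (le_max_right _ _).trans hQ
  have hQ3' : 3 ≤ Q := by exact_mod_cast hQ3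
  have hQ0 : (0 : ℝ) < Q := by linarith
  have hlogQ : 1 ≤ Real.log Q := by
    rw [Real.le_log_iff_exp_le hQ0]
    exact (lt_trans Real.exp_one_lt_d9 (by norm_num)).le.trans hQ3
  obtain ⟨Lq, hLq⟩ : ∃ Lq, Lq = Real.log Q := ⟨_, rfl⟩
  rw [← hLq] at hlogQ hκQ ⊢
  have hLq0 : 0 < Lq := by linarith
  obtain ⟨lam, hlam⟩ : ∃ lam, lam = κ / Lq := ⟨_, rfl⟩
  rw [← hlam]
  have hlam0 : 0 < lam := by rw [hlam]; positivity
  have hlamth : lam ≤ th0 := by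
    rw [hlam, div_le_iff₀ hLq0]
    exact hκQ
  have hlam1 : lam ≤ 1 := hlamth.trans (by unfold th0; norm_num)
  have hil : 1 / lam ≤ Lq := by
    rw [hlam, one_div_div]
    exact div_le_self hLq0.le hκ
  obtain ⟨η, hη⟩ : ∃ η, η = 1 - β := ⟨_, rfl⟩
  rw [← hη]
  have hη0 : 0 < η := by rw [hη]; linarith
  have hK1r : 2 ^ 28 ≤ (K1 : ℝ) := hC3.trans ((le_mul_of_one_le_right (by linarith) hκ).trans hK1)
  have hK10 : (0 : ℝ) < K1 := by linarith
  obtain ⟨x, hx⟩ : ∃ x, x = xlo K1 lam := ⟨_, rfl⟩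
  obtain ⟨y, hy⟩ : ∃ y, y = yhi K1 lam := ⟨_, rfl⟩
  obtain ⟨Y, hY⟩ : ∃ Y, Y = 128 * K1 / lam := ⟨_, rfl⟩
  have hY0 : 0 < Y := by rw [hY]; positivity
  have hylog : Real.log y = Y := by rw [hy, yhi, Real.log_exp, hY]
  have hy0 : 0 < y := by rw [hy, yhi]; positivity
  have hx0 : 0 < x := by rw [hx, xlo]; positivity
  -- x is large
  have hlogx : 100 * Lq ≤ Real.log x := by
    rw [hx, xlo, Real.log_exp, le_div_iff₀ (by positivity), hlam]
    have h1 : 100 * Lq * (2 ^ 20 * (κ / Lq)) = 100 * 2 ^ 20 * κ := by field_simp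
    rw [h1]
    have h2 : 2 ^ 28 * κ ≤ K1 := (mul_le_mul_of_nonneg_right hC3 (by linarith)).trans hK1
    linarith only [h2, hκ]
  have hxQ : (Q : ℝ) ^ 100 ≤ x := by
    rw [← Real.log_le_log_iff (by positivity) hx0, Real.log_pow, ← hLq]
    exact_mod_cast hlogx
  have hxy : x ≤ y := by
    rw [hx, hy, xlo, yhi]
    apply Real.exp_le_exp.2
    rw [div_le_div_iff₀ (by positivity) hlam0]
    have h1 : (0 : ℝ) < K1 * lam := by positivity
    linarith only [h1, hlam0]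
  obtain ⟨X0, hX0⟩ : ∃ X0, X0 = ⌈x⌉₊ - 1 := ⟨_, rfl⟩
  obtain ⟨Y0, hY0'⟩ : ∃ Y0, Y0 = ⌊y⌋₊ := ⟨_, rfl⟩
  have hceil : 1 ≤ ⌈x⌉₊ := Nat.one_le_iff_ne_zero.2 (by rw [Ne, Nat.ceil_eq_zero, not_le]; exact hx0)
  have hX0r : x - 1 ≤ X0 := by
    have h1 := Nat.le_ceil x
    have h2 : ((X0 : ℕ) : ℝ) = (⌈x⌉₊ : ℝ) - 1 := by
      rw [hX0, Nat.cast_sub hceil, Nat.cast_one]
    rw [h2]
    linarith
  have hX0x : (X0 : ℝ) ≤ x := by
    have h1 := Nat.ceil_lt_add_one hx0.le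
    have h2 : ((X0 : ℕ) : ℝ) = (⌈x⌉₊ : ℝ) - 1 := by
      rw [hX0, Nat.cast_sub hceil, Nat.cast_one]
    rw [h2]
    linarith
  have hX0Y0 : X0 ≤ Y0 := by
    rw [hY0']
    exact Nat.le_floor (hX0x.trans hxy)
  have hQ99 : (Q : ℝ) ^ 99 ≤ X0 := by
    refine le_trans ?_ hX0r
    have h1 : (Q : ℝ) ^ 100 = Q ^ 99 * Q := pow_succ _ _
    have h2 : (1 : ℝ) ≤ (Q : ℝ) ^ 99 := one_le_pow₀ (by linarith)
    have h3 := mul_le_mul_of_nonneg_left hQ3 (by linarith only [h2] : (0 : ℝ) ≤ (Q : ℝ) ^ 99)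
    linarith only [h1, h2, h3, hxQ]
  have hr1 : (1 : ℝ) ≤ r := by
    have : 0 < r := Nat.pos_of_ne_zero (NeZero.ne r)
    exact_mod_cast this
  have hrQr : (r : ℝ) ≤ Q := by exact_mod_cast hrQ
  have hX0big : (4000 * r) ^ 2 ≤ X0 := by
    have h1 : ((4000 * r) ^ 2 : ℝ) ≤ (Q : ℝ) ^ 99 := by
      have h2 : ((4000 * r) ^ 2 : ℝ) ≤ 16000000 * (Q : ℝ) ^ 2 := by
        have h5 := pow_le_pow_left₀ (by linarith only [hr1] : (0 : ℝ) ≤ r) hrQr 2
        linarith only [h5, mul_pow (4000 : ℝ) r 2]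
      have h3 : (16000000 : ℝ) ≤ (Q : ℝ) ^ 97 :=
        le_trans (by norm_num) (pow_le_pow_left₀ (by norm_num) hQ3 97)
      have h4 : (Q : ℝ) ^ 99 = Q ^ 97 * Q ^ 2 := by rw [← pow_add]
      rw [h4]
      exact h2.trans (mul_le_mul_of_nonneg_right h3 (by positivity))
    exact_mod_cast h1.trans hQ99
  have hE2 := E2_primes r ψ hψ hψ2 β (by linarith) hβ1 h0 X0 Y0 hX0big hX0Y0
  rw [← hη] at hE2
  have hX0pos : (0 : ℝ) < X0 := lt_of_lt_of_le (by positivity) hQ99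
  have hY0pos : (0 : ℝ) < Y0 := lt_of_lt_of_le hX0pos (by exact_mod_cast hX0Y0)
  have hlogXY : Real.log ((X0 * Y0 : ℕ) : ℝ) ≤ 512 * C3 * Lq := by
    rw [Nat.cast_mul, Real.log_mul hX0pos.ne' hY0pos.ne']
    have h1 : Real.log X0 ≤ Y := by
      rw [← hylog]
      exact Real.log_le_log hX0pos (hX0x.trans hxy)
    have h2 : Real.log Y0 ≤ Y := by
      rw [← hylog]
      refine Real.log_le_log hY0pos ?_
      rw [hY0']
      exact Nat.floor_le hy0.le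
    have h3 : Y ≤ 256 * C3 * Lq := by
      rw [hY, hlam]
      have h4 : 128 * (K1 : ℝ) / (κ / Lq) = 128 * K1 * Lq / κ := by field_simp
      rw [h4, div_le_iff₀ (by linarith)]
      have h5 := mul_le_mul_of_nonneg_left hK2 (by positivity : 0 ≤ 128 * Lq)
      linarith only [h5]
    linarith only [h1, h2, h3]
  have hsq : 10 * r / Real.sqrt X0 ≤ η := by
    have h1 : (Q : ℝ) ^ 49 ≤ Real.sqrt X0 := by
      apply Real.le_sqrt_of_sq_le
      refine le_trans ?_ hQ99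
      rw [← pow_mul]
      exact pow_le_pow_right₀ (by linarith) (by norm_num)
    have h2 : 10 * (r : ℝ) / Real.sqrt X0 ≤ 10 * Q / (Q : ℝ) ^ 49 :=
      div_le_div₀ (by positivity) (by linarith) (by positivity) h1
    have h3 : 10 * (Q : ℝ) / (Q : ℝ) ^ 49 ≤ c / (Q : ℝ) ^ 2 := by
      rw [div_le_div_iff₀ (by positivity) (by positivity)]
      have h4 : 10 ≤ c * Q := by
        rw [div_le_iff₀ hc] at hQc
        linarith
      have h5 : (1 : ℝ) ≤ (Q : ℝ) ^ 45 := one_le_pow₀ (by linarith)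
      have h6 : c * (Q : ℝ) ^ 49 = (c * Q) * (Q ^ 45 * Q ^ 3) := by ring
      rw [h6]
      have h7 : 10 * (Q : ℝ) * Q ^ 2 = 10 * (1 * Q ^ 3) := by ring
      rw [h7]
      exact mul_le_mul h4 (mul_le_mul_of_nonneg_right h5 (by positivity)) (by positivity) (by positivity)
    have h4 : c / (Q : ℝ) ^ 2 ≤ c / (r : ℝ) ^ 2 :=
      div_le_div_of_nonneg_left hc.le (by positivity) (pow_le_pow_left₀ (by linarith) hrQr 2)
    have h5 := hel r ψ hψ hψ2 β hβ1 h0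
    rw [← hη] at h5
    linarith
  have hprimes : ∑ n ∈ (Ioc X0 Y0).filter (fun n : ℕ => n.Prime ∧ ψ (n : ZMod r) = 1), 1 / (n : ℝ) ≤
      (3 + 512 * C3) * (η * Lq) := by
    refine hE2.trans ?_
    have h1 : η * (2 + Real.log ((X0 * Y0 : ℕ) : ℝ)) ≤ η * (2 + 512 * C3 * Lq) :=
      mul_le_mul_of_nonneg_left (by linarith) hη0.le
    have h2 : η ≤ η * Lq := le_mul_of_one_le_right hη0.le hlogQ
    linarith only [h1, h2, hsq]
  -- members of the range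
  have hmem : ∀ n ∈ PI x y, n.Prime ∧ X0 < n ∧ n ≤ Y0 := by
    intro n hn
    rw [PI, Finset.mem_filter, Finset.mem_Icc] at hn
    refine ⟨hn.2, by omega, by rw [hY0']; exact hn.1.2⟩
  classical
  have hterm : ∀ n ∈ PI x y, ‖((Real.log n * Jk lam k n : ℝ) : ℂ) * cE r ψ β p n *
      (n : ℂ) ^ (-(v * Complex.I))‖ ≤ Λ n * Jk lam k n * (η * Y) +
        (if ψ (n : ZMod r) = 1 then 256 * K1 * (1 / (n : ℝ)) else 0) := by
    intro n hn
    obtain ⟨hnp, hn1, hn2⟩ := hmem n hn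
    have hnpos : 0 < n := hnp.pos
    have hn0 : (0 : ℝ) < n := by exact_mod_cast hnpos
    have hJn : 0 ≤ Jk lam k n := Jk_nonneg lam k n hlam0.le
    have hlogn : 0 ≤ Real.log n := Real.log_natCast_nonneg n
    have hlogY : Real.log n ≤ Y := by
      rw [← hylog]
      refine Real.log_le_log hn0 ?_
      have h1 : (n : ℝ) ≤ Y0 := by exact_mod_cast hn2
      refine h1.trans ?_
      rw [hY0']
      exact Nat.floor_le hy0.le
    rw [norm_mul, norm_mul, d0_norm n hnpos v, mul_one, Complex.norm_real, Real.norm_eq_abs,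
      abs_of_nonneg (mul_nonneg hlogn hJn), vonMangoldt_apply_prime hnp]
    have hcE : ‖cE r ψ β p n‖ ≤ ‖1 + ψ (n : ZMod r) * (((n : ℝ) ^ (β - 1) : ℝ) : ℂ)‖ := by
      unfold cE
      rw [norm_mul]
      exact mul_le_of_le_one_left (norm_nonneg _) (DirichletCharacter.norm_le_one _ _)
    have hrn : (r : ℝ) < n := by
      have h1 : (X0 : ℝ) < n := by exact_mod_cast hn1
      have h2 : (Q : ℝ) ≤ (Q : ℝ) ^ 99 := le_self_pow₀ (by linarith) (by norm_num)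
      linarith
    have hrn' : r < n := by exact_mod_cast hrn
    have hunit : IsUnit (n : ZMod r) := by
      rw [ZMod.isUnit_iff_coprime]
      refine (Nat.Prime.coprime_iff_not_dvd hnp).2 fun hd => ?_
      exact absurd (Nat.le_of_dvd (Nat.pos_of_ne_zero (NeZero.ne r)) hd) (by omega)
    have hψn : ψ (n : ZMod r) = 1 ∨ ψ (n : ZMod r) = -1 := by
      have h1 : ψ (n : ZMod r) ^ 2 = 1 := by
        rw [← MulChar.pow_apply' ψ two_ne_zero, hψ2, MulChar.one_apply hunit]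
      exact sq_eq_one_iff.1 h1
    have hpow : (n : ℝ) ^ (β - 1) = Real.exp (-(η * Real.log n)) := by
      rw [Real.rpow_def_of_pos hn0, hη]
      congr 1
      ring
    have hpow1 : (n : ℝ) ^ (β - 1) ≤ 1 := by
      rw [hpow]
      exact Real.exp_le_one_iff.2 (neg_nonpos.2 (mul_nonneg hη0.le hlogn))
    have hpow0 : 1 - η * Real.log n ≤ (n : ℝ) ^ (β - 1) := by
      rw [hpow]
      have := Real.add_one_le_exp (-(η * Real.log n))
      linarith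
    have hpow2 : 0 ≤ (n : ℝ) ^ (β - 1) := by positivity
    rcases hψn with h1 | h1
    · rw [if_pos h1]
      have h2 : ‖cE r ψ β p n‖ ≤ 2 := cE_norm r ψ β hβ1 p n
      have h3 := Jk_le lam k n hlam0
      have h4 : 0 ≤ Real.log n * Jk lam k n * (η * Y) := by positivity
      have h5 : Real.log n * Jk lam k n * ‖cE r ψ β p n‖ ≤ 256 * K1 * (1 / (n : ℝ)) := by
        calc Real.log n * Jk lam k n * ‖cE r ψ β p n‖ ≤ Real.log n * Jk lam k n * 2 :=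
              mul_le_mul_of_nonneg_left h2 (by positivity)
          _ ≤ Y * Jk lam k n * 2 :=
              mul_le_mul_of_nonneg_right (mul_le_mul_of_nonneg_right hlogY hJn) (by norm_num)
          _ ≤ Y * (lam / n) * 2 := by
              refine mul_le_mul_of_nonneg_right (mul_le_mul_of_nonneg_left ?_ hY0.le) (by norm_num)
              rw [le_div_iff₀ hn0]
              linarith
          _ = 256 * K1 * (1 / (n : ℝ)) := by
              rw [hY]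
              field_simp
              norm_num
      linarith
    · rw [if_neg (by rw [h1]; norm_num), add_zero, mul_assoc, mul_assoc]
      refine mul_le_mul_of_nonneg_left (mul_le_mul_of_nonneg_left (hcE.trans ?_) hJn) hlogn
      rw [h1]
      have h2 : (1 + -1 * (((n : ℝ) ^ (β - 1) : ℝ) : ℂ)) = ((1 - (n : ℝ) ^ (β - 1) : ℝ) : ℂ) := by
        push_cast
        ring
      rw [h2, Complex.norm_real, Real.norm_eq_abs, abs_of_nonneg (by linarith)]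
      have h3 : η * Real.log n ≤ η * Y := mul_le_mul_of_nonneg_left hlogY hη0.le
      linarith
  have hsum1 : ∑ n ∈ PI x y, Λ n * Jk lam k n * (η * Y) ≤ CJ * (η * Y) := by
    rw [← Finset.sum_mul]
    exact mul_le_mul_of_nonneg_right (hJ lam k _ hlam0 hlam1) (by positivity)
  have hsum2 : ∑ n ∈ PI x y, (if ψ (n : ZMod r) = 1 then 256 * K1 * (1 / (n : ℝ)) else 0) ≤
      256 * K1 * ((3 + 512 * C3) * (η * Lq)) := by
    rw [← Finset.sum_filter, ← Finset.mul_sum]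
    refine mul_le_mul_of_nonneg_left (le_trans ?_ hprimes) (by positivity)
    apply Finset.sum_le_sum_of_subset_of_nonneg
    · intro n hn
      rw [Finset.mem_filter] at hn ⊢
      obtain ⟨h1, h2, h3⟩ := hmem n hn.1
      rw [Finset.mem_Ioc]
      exact ⟨⟨h2, h3⟩, h1, hn.2⟩
    · intro n _ _
      positivity
  have hfin : ‖PP (cE r ψ β p) lam k K1 v‖ ≤ CJ * (η * Y) + 256 * K1 * ((3 + 512 * C3) * (η * Lq)) := by
    unfold PP
    rw [← hx, ← hy]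
    refine (norm_sum_le _ _).trans ((Finset.sum_le_sum hterm).trans ?_)
    rw [Finset.sum_add_distrib]
    linarith
  refine hfin.trans ?_
  have hYL : Y ≤ 128 * K1 * Lq := by
    rw [hY, mul_div_assoc, ← mul_one_div, ← mul_assoc]
    exact mul_le_mul_of_nonneg_left hil (by positivity)
  have h1 : CJ * (η * Y) ≤ CJ * (η * (128 * K1 * Lq)) :=
    mul_le_mul_of_nonneg_left (mul_le_mul_of_nonneg_left hYL hη0.le) hCJ.le
  refine (add_le_add h1 le_rfl).trans (le_of_eq ?_)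
  ring

end Pool.Agent.Lib.H18Q
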