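import Pool.Agent.Lib.H18Q.E5
import Pool.Agent.Lib.H18Q.E6
import Pool.Agent.Lib.H68T.ZF3
import Pool.Agent.Lib.H68T.LAB3

/-!
# Project H18Q, chunk E7: strong form of the Deuring-Heilbronn phenomenon
-/

open Finset

namespace Pool.Agent.Lib.H18Q

open ArithmeticFunction Pool.Agent.Lib.H68T

/-- **Repulsion of zeros.** If `L(s, ψ)` has a real zero `β` with `η log Q ≤ c1`, `η = 1 - β`, then
all other zeros `ρ` (`Lx r ψ β p ρ = 0`, `p ∈ PC Q`) with `|Im ρ| ≤ Q^8` have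
`1 - Re ρ ≥ log (1/(η log Q))/(C log Q)`.

Proof. Let `Y = log (1/(η log Q)) ≥ log (1/c1)`. `η ≥ c/Q²` (`zero_elementary`), so `Y ≤ 3 log Q` for
`Q` large. Suppose `1 - Re ρ < Y/(C log Q)` and put `κ = Y/C`: `κ ≥ 1` if `c1 ≤ exp (-C)`, and
`κ ≤ 3 log Q/C ≤ th0 log Q` if `C ≥ 3 · 10^9`; `β ≥ 7/8` for `Q` large. For `p = p0`
(`Lx r ψ β p0 = Lp p0 = gl2_Z`, since `(r, ψ) ≠ p0`): `Re ρ > 1 - 3/C ≥ 1 - δ` with the `δ` of
`zf3_low` (`C ≥ 3/δ`), so `|Im ρ| > 1` (`lab3_Z_zero`). Let `C3 = max (2^28) (C3 of E5_detect)`,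
`K1 = ⌈C3 κ⌉ ≤ 2 C3 κ`, `v = Im ρ`. `E5_detect` and `E6_small`: `(1/4) 4096^(-K1) ≤ C' K1 e^(-Y)`, so
`Y ≤ log (4 C' K1) + K1 log 4096 ≤ C4 K1 ≤ 2 C4 C3 κ = 2 C4 C3 Y/C` with `C4 = 4 C' + 10`
(`log t ≤ t`, `K1 ≥ 1`); a contradiction if `C > 2 C4 C3` (`Y > 0`). -/
theorem repulsion : ∃ C c1 K : ℝ, 1 ≤ C ∧ 0 < c1 ∧ c1 < 1 ∧ ∀ Q : ℕ, K ≤ Q →
    ∀ (r : ℕ) [NeZero r] (ψ : DirichletCharacter ℂ r), r ≤ Q → ψ.IsPrimitive → ψ ≠ 1 →
    ψ ^ 2 = 1 → ∀ β : ℝ, β < 1 → ψ.LFunction (β : ℂ) = 0 → (1 - β) * Real.log Q ≤ c1 →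
    ∀ p ∈ PC Q, ∀ ρ : ℂ, Lx r ψ β p ρ = 0 → |ρ.im| ≤ (Q : ℝ) ^ 8 →
    Real.log (1 / ((1 - β) * Real.log Q)) / (C * Real.log Q) ≤ 1 - ρ.re := by
  obtain ⟨C3', K5, hC3', hdet⟩ := E5_detect
  obtain ⟨C3, hC3⟩ : ∃ C3, C3 = max (2 ^ 28 : ℝ) C3' := ⟨_, rfl⟩
  have hC3a : (2 : ℝ) ^ 28 ≤ C3 := hC3 ▸ le_max_left _ _
  have hC3b : C3' ≤ C3 := hC3 ▸ le_max_right _ _
  obtain ⟨C', K6, hC', hsmall⟩ := E6_small C3 hC3a
  obtain ⟨δ, hδ, hzf⟩ := zf3_low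
  obtain ⟨c, hc, hze⟩ := zero_elementary
  have hC30 : 0 < C3 := lt_of_lt_of_le (by positivity) hC3a
  have hC31 : 1 ≤ C3 := le_trans (by norm_num) hC3a
  obtain ⟨C4, hC4⟩ : ∃ C4, C4 = 4 * C' + 10 := ⟨_, rfl⟩
  have hC40 : 0 < C4 := by rw [hC4]; positivity
  obtain ⟨C, hC⟩ : ∃ C, C = 2 * C4 * C3 + 1 + 3 * 10 ^ 9 + 3 / δ := ⟨_, rfl⟩
  have hd3 : 0 < 3 / δ := by positivity
  have h243 : 0 < 2 * C4 * C3 := by positivity
  have hCa : 2 * C4 * C3 < C := by rw [hC]; linarith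
  have hCb : 3 * 10 ^ 9 ≤ C := by rw [hC]; linarith
  have hCc : 3 / δ ≤ C := by rw [hC]; linarith
  have hC1 : 1 ≤ C := by linarith
  have hC0 : 0 < C := by linarith
  refine ⟨C, Real.exp (-C), K5 ⊔ K6 ⊔ (1 / c) ⊔ Real.exp 8, hC1, Real.exp_pos _, by
    rw [Real.exp_lt_one_iff]; linarith, ?_⟩
  intro Q hQ r hr0 ψ hrQ hψp hψ1 hψ2 β hβ1 hβ0 hηc p hp ρ hρ0 hρi
  have hQ5 : K5 ≤ Q := le_trans (le_trans (le_trans le_sup_left le_sup_left) le_sup_left) hQ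
  have hQ6 : K6 ≤ Q := le_trans (le_trans (le_trans le_sup_right le_sup_left) le_sup_left) hQ
  have hQc : 1 / c ≤ Q := le_trans (le_trans le_sup_right le_sup_left) hQ
  have hQ8 : Real.exp 8 ≤ Q := le_trans le_sup_right hQ
  have hQ0 : (0 : ℝ) < Q := lt_of_lt_of_le (Real.exp_pos _) hQ8
  obtain ⟨l, hl⟩ : ∃ l, l = Real.log Q := ⟨_, rfl⟩
  have hl8 : 8 ≤ l := by
    rw [hl, ← Real.log_exp 8]
    exact Real.log_le_log (Real.exp_pos _) hQ8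
  have hl0 : 0 < l := by linarith
  have hQ1 : (1 : ℝ) ≤ Q := le_trans (Real.one_le_exp (by norm_num)) hQ8
  rw [← hl] at hηc ⊢
  obtain ⟨η, hη⟩ : ∃ η, η = 1 - β := ⟨_, rfl⟩
  rw [← hη] at hηc ⊢
  have hη0 : 0 < η := by rw [hη]; linarith
  have hηl : 0 < η * l := by positivity
  have hr1 : (1 : ℝ) ≤ r := by exact_mod_cast Nat.one_le_iff_ne_zero.2 (NeZero.ne r)
  have hrQ' : (r : ℝ) ≤ Q := by exact_mod_cast hrQ
  have hηlow : c / (Q : ℝ) ^ 2 ≤ η := by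
    have h1 := hze r ψ hψ1 hψ2 β hβ1 hβ0
    rw [← hη] at h1
    refine le_trans ?_ h1
    exact div_le_div_of_nonneg_left hc.le (by positivity) (pow_le_pow_left₀ (by linarith) hrQ' 2)
  obtain ⟨Y, hY⟩ : ∃ Y, Y = Real.log (1 / (η * l)) := ⟨_, rfl⟩
  have hYe : Real.exp (-Y) = η * l := by
    rw [hY, one_div, Real.log_inv, neg_neg, Real.exp_log hηl]
  have hYC : C ≤ Y := by
    have h1 : Real.exp (-Y) ≤ Real.exp (-C) := by rw [hYe]; exact hηc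
    have h2 := Real.exp_le_exp.1 h1
    linarith
  have hY3 : Y ≤ 3 * l := by
    have h1 : Real.exp (-(3 * l)) ≤ Real.exp (-Y) := by
      rw [hYe]
      have h2 : Real.exp (-(3 * l)) = 1 / (Q : ℝ) ^ 3 := by
        rw [Real.exp_neg, one_div, hl]
        congr 1
        have : 3 * Real.log Q = Real.log Q * (3 : ℕ) := by push_cast; ring
        rw [this, Real.exp_mul, Real.exp_log hQ0, Real.rpow_natCast]
      rw [h2]
      have h3 : 1 ≤ c * Q := by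
        rw [div_le_iff₀ hc] at hQc
        linarith
      have h4 : 1 / (Q : ℝ) ^ 3 ≤ c / (Q : ℝ) ^ 2 := by
        rw [div_le_div_iff₀ (by positivity) (by positivity)]
        have : c * (Q : ℝ) ^ 3 = (c * Q) * (Q : ℝ) ^ 2 := by ring
        rw [this]
        nlinarith [sq_nonneg (Q : ℝ)]
      have h5 : η ≤ η * l := le_mul_of_one_le_right hη0.le (by linarith)
      linarith
    have h2 := Real.exp_le_exp.1 h1
    linarith
  rw [← hY]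
  by_contra hcon
  push Not at hcon
  obtain ⟨κ, hκ⟩ : ∃ κ, κ = Y / C := ⟨_, rfl⟩
  have hκl : Y / (C * l) = κ / l := by
    rw [hκ]
    field_simp
  rw [hκl] at hcon
  have hκ1 : 1 ≤ κ := by
    rw [hκ, le_div_iff₀ hC0]
    linarith
  have hκ3 : κ ≤ 3 * l / C := by
    rw [hκ]
    exact div_le_div_of_nonneg_right hY3 hC0.le
  have hκth : κ ≤ th0 * Real.log Q := by
    rw [← hl]
    refine hκ3.trans ?_
    unfold th0
    rw [div_le_iff₀ hC0]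
    have : 3 * l = 1 / 10 ^ 9 * l * (3 * 10 ^ 9) := by ring
    rw [this]
    exact mul_le_mul_of_nonneg_left hCb (by positivity)
  have hβ7 : 7 / 8 ≤ β := by
    have h1 : η * l ≤ 1 := hηc.trans (Real.exp_le_one_iff.2 (by linarith))
    have h2 : η * 8 ≤ 1 := le_trans (mul_le_mul_of_nonneg_left hl8 hη0.le) h1
    rw [hη] at h2
    linarith
  have hv9 : |ρ.im| ≤ (Q : ℝ) ^ 9 := hρi.trans (pow_le_pow_right₀ hQ1 (by norm_num))
  have hκl3 : κ / l ≤ 3 / C := by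
    rw [div_le_div_iff₀ hl0 hC0]
    rw [le_div_iff₀ hC0] at hκ3
    linarith
  have hp0v : p = p0 → 1 / 2 ≤ |ρ.im| := by
    intro hp0
    have hne : p ≠ ⟨r, ψ⟩ := by
      intro h
      rw [hp0] at h
      have h1 : r = 1 := (congrArg Sigma.fst h).symm
      subst h1
      apply hψ1
      have h2 : (p0 : Σ r : ℕ, DirichletCharacter ℂ r) = ⟨1, 1⟩ := rfl
      rw [h2] at h
      exact (eq_of_heq (Sigma.mk.inj h).2).symm
    rw [Lx_of_ne r ψ β p hne, hp0, Lp_p0] at hρ0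
    have hz := lab3_Z_zero ρ hρ0
    by_contra hlt
    push Not at hlt
    have h1 := hzf ρ hz (by linarith)
    have h2 : 3 / C ≤ δ := by
      rw [div_le_iff₀ hC0]
      rw [div_le_iff₀ hδ] at hCc
      linarith
    linarith
  obtain ⟨K1, hK1⟩ : ∃ K1 : ℕ, K1 = ⌈C3 * κ⌉₊ := ⟨_, rfl⟩
  have hκ0 : 0 < κ := by linarith
  have hK1a : C3 * κ ≤ K1 := by rw [hK1]; exact Nat.le_ceil _
  have hC3κ : 1 ≤ C3 * κ := by nlinarith
  have hK1b : (K1 : ℝ) ≤ 2 * C3 * κ := by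
    have := Nat.ceil_lt_add_one (show 0 ≤ C3 * κ by positivity)
    rw [← hK1] at this
    linarith
  have hK1c : C3' * κ ≤ K1 := (mul_le_mul_of_nonneg_right hC3b hκ0.le).trans hK1a
  have hK11 : (1 : ℝ) ≤ K1 := hC3κ.trans hK1a
  obtain ⟨k, hk1, hk2, hk3⟩ := hdet Q hQ5 r ψ hrQ hψp hψ1 hψ2 β hβ7 hβ1 hβ0 p hp κ ρ.im hκ1 hκth hv9 hp0v K1 hK1c
    ⟨ρ, hρ0, by rw [← hl]; linarith, by
      rw [sub_self, abs_zero, ← hl]
      positivity⟩
  have h4 := hsmall Q hQ6 r ψ hrQ hψ1 hψ2 β hβ7 hβ1 hβ0 p κ ρ.im hκ1 hκth K1 k hK1a hK1b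
  rw [← hl, ← hη, ← hYe] at h4
  rw [← hl] at hk3
  have h5 : 1 / 4 * (1 / 4096 : ℝ) ^ K1 ≤ C' * K1 * Real.exp (-Y) := hk3.trans h4
  have h6 : Real.exp Y ≤ 4 * C' * K1 * 4096 ^ K1 := by
    have h7 : (1 / 4096 : ℝ) ^ K1 = 1 / 4096 ^ K1 := by rw [div_pow, one_pow]
    rw [h7, Real.exp_neg] at h5
    have h8 : (0 : ℝ) < 4096 ^ K1 := by positivity
    have h9 : 0 < Real.exp Y := Real.exp_pos _
    have h10 : 1 / 4 * (1 / 4096 ^ K1) * (4 * 4096 ^ K1 * Real.exp Y) ≤ C' * K1 * (Real.exp Y)⁻¹ * (4 * 4096 ^ K1 * Real.exp Y) :=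
      mul_le_mul_of_nonneg_right h5 (by positivity)
    have e1 : 1 / 4 * (1 / 4096 ^ K1) * (4 * 4096 ^ K1 * Real.exp Y) = Real.exp Y := by field_simp
    have e2 : C' * K1 * (Real.exp Y)⁻¹ * (4 * 4096 ^ K1 * Real.exp Y) = 4 * C' * K1 * 4096 ^ K1 := by field_simp
    rwa [e1, e2] at h10
  have h7 : Y ≤ C4 * K1 := by
    have h8 : 4 * C' * K1 * 4096 ^ K1 ≤ Real.exp (C4 * K1) := by
      have h9 : 4 * C' * K1 ≤ Real.exp (4 * C' * K1) := by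
        have := Real.add_one_le_exp (4 * C' * K1)
        linarith
      have h10 : (4096 : ℝ) ≤ Real.exp 10 := by
        have h11 : (2.7 : ℝ) ≤ Real.exp 1 := le_trans (by norm_num) (Real.exp_one_gt_d9).le
        have h12 : Real.exp 10 = Real.exp 1 ^ 10 := by
          rw [← Real.exp_nat_mul]
          norm_num
        rw [h12]
        calc (4096 : ℝ) ≤ 2.7 ^ 10 := by norm_num
          _ ≤ _ := pow_le_pow_left₀ (by norm_num) h11 10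
      have h11 : (4096 : ℝ) ^ K1 ≤ Real.exp (10 * K1) := by
        have h12 : Real.exp (10 * K1) = Real.exp 10 ^ K1 := by
          rw [← Real.exp_nat_mul]
          congr 1
          ring
        rw [h12]
        exact pow_le_pow_left₀ (by norm_num) h10 K1
      have h12 : Real.exp (C4 * K1) = Real.exp (4 * C' * K1) * Real.exp (10 * K1) := by
        rw [← Real.exp_add, hC4]
        congr 1
        ring
      rw [h12]
      exact mul_le_mul h9 h11 (by positivity) (Real.exp_pos _).le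
    exact Real.exp_le_exp.1 (h6.trans h8)
  have h8 : C4 * K1 ≤ C4 * (2 * C3 * κ) := mul_le_mul_of_nonneg_left hK1b hC40.le
  have h9 : C4 * (2 * C3 * κ) = 2 * C4 * C3 * κ := by ring
  have h10 : 2 * C4 * C3 * κ < C * κ := mul_lt_mul_of_pos_right hCa hκ0
  have h11 : C * κ = Y := by
    rw [hκ]
    field_simp
  linarith

end Pool.Agent.Lib.H18Q
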