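import Pool.Agent.Lib.H18Q.Z5A
import Pool.Agent.Lib.H68X.XZ4

/-!
# Project H18Q, chunk Z5B: growth data with the exceptional zero removed
-/

open Finset

namespace Pool.Agent.Lib.H18Q

open Pool.Agent.Lib.H68T

/-- Growth data of `L(s, ψ)/(s - β)`.

Proof. `g = dslope ψ.LFunction β` is entire (`XZ4_dslope_diff`), `g s = L(s)/(s - β)` for `s ≠ β`.
`zre`: `g ρ = 0` implies `L(ρ) = 0` (`ρ ≠ β`: numerator; `ρ = β`: `Re β < 1` anyway). Growth:
`dslope_bound` (`|g s| ≤ 16 N (1 + |s|)` for `Re s ≥ 1/2`, file `H68X/XZ3`), and at `s₀ = 1 + lam +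
i v`, `|g s₀| = |L(s₀)|/|s₀ - β| ≥ (lam/2)/(Q^10 + 3)` (`lab2_lower`, `|s₀ - β| ≤ |v| + 2`).
Logarithmic derivative: `XZ4_dslope_logderiv`: `L'/L - 1/(s₀ - β)`, and `|s₀ - β| ≥ 1 + lam - β ≥
lam`. -/
theorem LDat_dslope : ∃ C0 K : ℝ, 1 ≤ C0 ∧ ∀ Q : ℕ, K ≤ Q → ∀ (r : ℕ) [NeZero r]
    (ψ : DirichletCharacter ℂ r), r ≤ Q → ψ ≠ 1 → ∀ β : ℝ, 3 / 4 ≤ β → β < 1 →
    ψ.LFunction (β : ℂ) = 0 →
    LDat C0 (Real.log Q) ((Q : ℝ) ^ 10) (dslope ψ.LFunction (β : ℂ)) := by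
  obtain ⟨C₀, hC₀, hvM⟩ := vonMangoldt_le
  refine ⟨40 + C₀, 32, by linarith, ?_⟩
  intro Q hQ r _ ψ hrQ hψ β hβ hβ1 hβ0
  have hQpos : (0 : ℝ) < Q := by linarith
  set L : ℝ := Real.log Q with hL
  have hQexp : (Q : ℝ) = Real.exp L := (Real.exp_log hQpos).symm
  have hLpos : 0 < L := Real.log_pos (by linarith)
  have hLQ : L ≤ Q := (Real.log_le_sub_one_of_pos hQpos).trans (by linarith)
  have hf := DirichletCharacter.differentiable_LFunction hψ
  set F : ℂ → ℂ := dslope ψ.LFunction (β : ℂ) with hF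
  have hFd : Differentiable ℂ F := XZ4_dslope_diff hf _
  have hLne : ∀ s : ℂ, 1 ≤ s.re → ψ.LFunction s ≠ 0 := fun s hs =>
    DirichletCharacter.LFunction_ne_zero_of_one_le_re ψ (Or.inl hψ) hs
  have hsβ : ∀ s : ℂ, 1 ≤ s.re → s ≠ (β : ℂ) := by
    intro s hs h
    rw [h, Complex.ofReal_re] at hs
    linarith
  have hFL : ∀ s : ℂ, s ≠ (β : ℂ) → F s * (s - (β : ℂ)) = ψ.LFunction s := by
    intro s hs
    rw [hF, dslope_of_ne _ hs, slope_def_field, hβ0, sub_zero]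
    have : s - (β : ℂ) ≠ 0 := sub_ne_zero.2 hs
    field_simp
  refine ⟨hFd, ?_, ?_, ?_⟩
  · intro ρ hρ
    by_contra hcon
    push Not at hcon
    have h1 := hFL ρ (hsβ ρ hcon)
    rw [hρ, zero_mul] at h1
    exact hLne ρ hcon h1.symm
  · intro lam v hlam hlam8 hv s hs
    have hlam0 : 0 < lam := (by positivity : (0 : ℝ) < 1 / L).trans_le hlam
    set s₀ : ℂ := 1 + lam + v * Complex.I with hs₀
    have hre : s₀.re = 1 + lam := by simp [hs₀]
    have him : s₀.im = v := by simp [hs₀]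
    have hQ10 : (1 : ℝ) ≤ (Q : ℝ) ^ 10 := one_le_pow₀ (by linarith)
    have hn0 : ‖s₀‖ ≤ 2 + (Q : ℝ) ^ 10 := by
      have h1 := Complex.norm_le_abs_re_add_abs_im s₀
      rw [hre, him, abs_of_pos (by linarith)] at h1
      linarith
    have hdist : ‖s - s₀‖ ≤ 1 / 2 := by
      rwa [Metric.mem_closedBall, dist_eq_norm] at hs
    have hsre : 1 / 2 ≤ s.re := by
      have h1 := Complex.abs_re_le_norm (s - s₀)
      rw [Complex.sub_re, hre] at h1
      have h2 := (abs_le.1 (h1.trans hdist)).1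
      linarith
    have hns : ‖s‖ ≤ 3 + (Q : ℝ) ^ 10 := by
      have h1 : ‖s‖ ≤ ‖s - s₀‖ + ‖s₀‖ := by
        have := norm_add_le (s - s₀) s₀
        rwa [sub_add_cancel] at this
      linarith
    have hb := dslope_bound r ψ hψ β hβ hβ1 hβ0 s hsre
    have hrQ' : (r : ℝ) ≤ Q := by exact_mod_cast hrQ
    have hup : ‖F s‖ ≤ 16 * Q * (4 + (Q : ℝ) ^ 10) := by
      refine hb.trans ?_
      have h1 : 0 ≤ 1 + ‖s‖ := by positivity
      have h2 : 16 * (r : ℝ) * (1 + ‖s‖) ≤ 16 * Q * (1 + ‖s‖) :=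
        mul_le_mul_of_nonneg_right (by linarith) h1
      refine h2.trans ?_
      apply mul_le_mul_of_nonneg_left _ (by positivity)
      linarith
    -- the lower bound at the centre
    have hs₀gt : 1 < s₀.re := by rw [hre]; linarith
    have hlow := lab2_lower r ψ s₀ hs₀gt
    rw [← DirichletCharacter.LFunction_eq_LSeries ψ hs₀gt, hre] at hlow
    have hlow2 : lam / 2 ≤ ‖ψ.LFunction s₀‖ := by
      refine le_trans ?_ hlow
      rw [show 1 + lam - 1 = lam by ring, div_le_div_iff₀ (by norm_num) (by linarith)]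
      nlinarith
    have hnb : ‖s₀ - (β : ℂ)‖ ≤ 4 + (Q : ℝ) ^ 10 := by
      have h1 := norm_sub_le s₀ (β : ℂ)
      have h2 : ‖(β : ℂ)‖ ≤ 1 := by
        rw [Complex.norm_real, Real.norm_eq_abs, abs_of_pos (by linarith)]
        exact hβ1.le
      linarith
    have hmul := hFL s₀ (hsβ s₀ hs₀gt.le)
    have hlow3 : lam / 2 ≤ ‖F s₀‖ * (4 + (Q : ℝ) ^ 10) := by
      refine hlow2.trans ?_
      rw [← hmul, norm_mul]
      exact mul_le_mul_of_nonneg_left hnb (norm_nonneg _)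
    have hlow4 : 1 ≤ 2 * Q * (4 + (Q : ℝ) ^ 10) * ‖F s₀‖ := by
      have h1 : 1 / (Q : ℝ) ≤ lam :=
        (one_div_le_one_div_of_le hLpos hLQ).trans hlam
      have h2 : 1 ≤ lam * Q := by
        rw [div_le_iff₀ hQpos] at h1
        exact h1
      have h3 : lam * Q ≤ 2 * (‖F s₀‖ * (4 + (Q : ℝ) ^ 10)) * Q :=
        mul_le_mul_of_nonneg_right (by linarith) hQpos.le
      calc (1 : ℝ) ≤ 2 * (‖F s₀‖ * (4 + (Q : ℝ) ^ 10)) * Q := h2.trans h3
        _ = 2 * Q * (4 + (Q : ℝ) ^ 10) * ‖F s₀‖ := by ring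
    have hexp : 16 * Q * (4 + (Q : ℝ) ^ 10) * (2 * Q * (4 + (Q : ℝ) ^ 10)) ≤
        Real.exp ((40 + C₀) * L) := by
      have h1 : (Q : ℝ) ^ 40 ≤ Real.exp ((40 + C₀) * L) := by
        rw [hQexp, ← Real.exp_nat_mul]
        apply Real.exp_le_exp.mpr
        push_cast
        nlinarith
      refine le_trans ?_ h1
      have h2 : 4 + (Q : ℝ) ^ 10 ≤ 5 * (Q : ℝ) ^ 10 := by linarith
      have h3 : 16 * Q * (4 + (Q : ℝ) ^ 10) * (2 * Q * (4 + (Q : ℝ) ^ 10)) ≤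
          16 * Q * (5 * (Q : ℝ) ^ 10) * (2 * Q * (5 * (Q : ℝ) ^ 10)) := by
        apply mul_le_mul
        · exact mul_le_mul_of_nonneg_left h2 (by positivity)
        · exact mul_le_mul_of_nonneg_left h2 (by positivity)
        · positivity
        · positivity
      refine h3.trans ?_
      have h4 : 16 * Q * (5 * (Q : ℝ) ^ 10) * (2 * Q * (5 * (Q : ℝ) ^ 10)) =
          800 * (Q : ℝ) ^ 22 := by ring
      rw [h4]
      have h5 : (800 : ℝ) ≤ (Q : ℝ) ^ 2 := by nlinarith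
      calc 800 * (Q : ℝ) ^ 22 ≤ (Q : ℝ) ^ 2 * (Q : ℝ) ^ 22 :=
            mul_le_mul_of_nonneg_right h5 (by positivity)
        _ = (Q : ℝ) ^ 24 := by ring
        _ ≤ (Q : ℝ) ^ 40 := pow_le_pow_right₀ (by linarith) (by norm_num)
    calc ‖F s‖ ≤ 16 * Q * (4 + (Q : ℝ) ^ 10) := hup
      _ ≤ 16 * Q * (4 + (Q : ℝ) ^ 10) * (2 * Q * (4 + (Q : ℝ) ^ 10) * ‖F s₀‖) :=
          le_mul_of_one_le_right (by positivity) hlow4
      _ = 16 * Q * (4 + (Q : ℝ) ^ 10) * (2 * Q * (4 + (Q : ℝ) ^ 10)) * ‖F s₀‖ := by ring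
      _ ≤ Real.exp ((40 + C₀) * L) * ‖F s₀‖ :=
          mul_le_mul_of_nonneg_right hexp (norm_nonneg _)
  · intro lam v hlam hlam8 _
    have hlam0 : 0 < lam := (by positivity : (0 : ℝ) < 1 / L).trans_le hlam
    set s₀ : ℂ := 1 + lam + v * Complex.I with hs₀
    have hre : s₀.re = 1 + lam := by simp [hs₀]
    have hs₀gt : 1 < s₀.re := by rw [hre]; linarith
    rw [logDeriv_apply, XZ4_dslope_logderiv hf (β : ℂ) s₀ hβ0 (hsβ s₀ hs₀gt.le)
      (hLne s₀ hs₀gt.le)]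
    have h1 : ‖deriv ψ.LFunction s₀ / ψ.LFunction s₀‖ ≤ 1 / lam + C₀ := by
      have h2 := lab1_char r ψ s₀ hs₀gt
      rw [logDeriv_apply] at h2
      have h3 : ‖deriv ψ.LFunction s₀ / ψ.LFunction s₀‖ =
          ‖LSeries (fun n => (ArithmeticFunction.vonMangoldt n : ℂ) * ψ (n : ZMod r)) s₀‖ := by
        rw [h2, norm_neg]
      rw [h3]
      refine (norm_LSeries_vM_le r ψ s₀ hs₀gt).trans ?_
      have h4 := hvM s₀.re hs₀gt (by rw [hre]; linarith)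
      refine h4.trans ?_
      rw [hre, show 1 + lam - 1 = lam by ring]
    have h5 : ‖1 / (s₀ - (β : ℂ))‖ ≤ 1 / lam := by
      rw [norm_div, norm_one]
      apply one_div_le_one_div_of_le hlam0
      have h6 := Complex.re_le_norm (s₀ - (β : ℂ))
      rw [Complex.sub_re, Complex.ofReal_re, hre] at h6
      linarith
    refine (norm_sub_le _ _).trans ((add_le_add h1 h5).trans ?_)
    rw [le_div_iff₀ hlam0]
    have h7 : (1 / lam + C₀ + 1 / lam) * lam = 2 + C₀ * lam := by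
      field_simp
      ring
    rw [h7]
    nlinarith

end Pool.Agent.Lib.H18Q
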