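import Mathlib

/-!
# Project H18Q, chunk S4: the Gaussian identity for Dirichlet polynomials
-/

open Finset

namespace Pool.Agent.Lib.H18Q

theorem S4_sq {ι : Type*} (s : Finset ι) (f : ι → ℂ) :
    ((‖∑ i ∈ s, f i‖ ^ 2 : ℝ) : ℂ) = ∑ i ∈ s, ∑ j ∈ s, f i * (starRingEnd ℂ) (f j) := by
  rw [← Complex.normSq_eq_norm_sq, ← Complex.mul_conj, map_sum, sum_mul_sum]

/-- The terms of the left side. -/
theorem S4_left {ι : Type*} (s : Finset ι) (a : ι → ℝ) (b : ι → ℂ) (T : ℝ) (v : ℝ) :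
    ((Real.exp (-(v ^ 2 / T ^ 2)) * ‖∑ i ∈ s, b i * Complex.exp (-(v * a i * Complex.I))‖ ^ 2 : ℝ) : ℂ) =
      ∑ i ∈ s, ∑ j ∈ s, b i * (starRingEnd ℂ) (b j) *
        Complex.exp (-(1 / (T : ℂ) ^ 2) * (v : ℂ) ^ 2 + (-(((a i - a j : ℝ)) : ℂ) * Complex.I) * v + 0) := by
  rw [Complex.ofReal_mul, S4_sq, mul_sum]
  refine sum_congr rfl fun i _ => ?_
  rw [mul_sum]
  refine sum_congr rfl fun j _ => ?_
  have h1 : (starRingEnd ℂ) (b j * Complex.exp (-(v * a j * Complex.I))) =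
      (starRingEnd ℂ) (b j) * Complex.exp (v * a j * Complex.I) := by
    rw [map_mul, ← Complex.exp_conj]
    congr 2
    simp
  rw [h1, Complex.ofReal_exp]
  have h2 : Complex.exp (-(1 / (T : ℂ) ^ 2) * (v : ℂ) ^ 2 + (-(((a i - a j : ℝ)) : ℂ) * Complex.I) * v + 0) =
      Complex.exp (((-(v ^ 2 / T ^ 2) : ℝ)) : ℂ) * Complex.exp (-(v * a i * Complex.I)) * Complex.exp (v * a j * Complex.I) := by
    rw [← Complex.exp_add, ← Complex.exp_add]
    congr 1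
    push_cast
    ring
  rw [h2]
  ring

/-- The terms of the right side. -/
theorem S4_right {ι : Type*} (s : Finset ι) (a : ι → ℝ) (b : ι → ℂ) (T : ℝ) (y : ℝ) :
    ((‖∑ i ∈ s, b i * Real.exp (-(T ^ 2 * (y - a i) ^ 2 / 2))‖ ^ 2 : ℝ) : ℂ) =
      ∑ i ∈ s, ∑ j ∈ s, b i * (starRingEnd ℂ) (b j) *
        Complex.exp (-(T : ℂ) ^ 2 * (y : ℂ) ^ 2 + ((T : ℂ) ^ 2 * (a i + a j)) * y +
          -((T : ℂ) ^ 2 * ((a i : ℂ) ^ 2 + (a j : ℂ) ^ 2) / 2)) := by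
  rw [S4_sq]
  refine sum_congr rfl fun i _ => sum_congr rfl fun j _ => ?_
  have h1 : (starRingEnd ℂ) (b j * Real.exp (-(T ^ 2 * (y - a j) ^ 2 / 2))) =
      (starRingEnd ℂ) (b j) * Real.exp (-(T ^ 2 * (y - a j) ^ 2 / 2)) := by
    rw [map_mul, Complex.conj_ofReal]
  rw [h1, Complex.ofReal_exp, Complex.ofReal_exp]
  have h2 : Complex.exp (-(T : ℂ) ^ 2 * (y : ℂ) ^ 2 + ((T : ℂ) ^ 2 * (a i + a j)) * y +
          -((T : ℂ) ^ 2 * ((a i : ℂ) ^ 2 + (a j : ℂ) ^ 2) / 2)) =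
      Complex.exp (((-(T ^ 2 * (y - a i) ^ 2 / 2) : ℝ)) : ℂ) * Complex.exp (((-(T ^ 2 * (y - a j) ^ 2 / 2) : ℝ)) : ℂ) := by
    rw [← Complex.exp_add]
    congr 1
    push_cast
    ring
  rw [h2]
  ring

theorem S4_b1 {T : ℝ} (hT : 0 < T) : (-(1 / (T : ℂ) ^ 2)).re < 0 := by
  have h : -(1 / (T : ℂ) ^ 2) = ((-(1 / T ^ 2) : ℝ) : ℂ) := by push_cast; rfl
  rw [h, Complex.ofReal_re, neg_lt_zero]
  positivity

theorem S4_b2 {T : ℝ} (hT : 0 < T) : (-(T : ℂ) ^ 2).re < 0 := by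
  have h : -(T : ℂ) ^ 2 = ((-(T ^ 2) : ℝ) : ℂ) := by push_cast; rfl
  rw [h, Complex.ofReal_re, neg_lt_zero]
  positivity

/-- The constants. -/
theorem S4_const {T : ℝ} (hT : 0 < T) :
    ((Real.pi : ℂ) / -(-(1 / (T : ℂ) ^ 2))) ^ (1 / 2 : ℂ) = (T : ℂ) ^ 2 * ((Real.pi : ℂ) / -(-(T : ℂ) ^ 2)) ^ (1 / 2 : ℂ) := by
  have hT' : (T : ℂ) ≠ 0 := Complex.ofReal_ne_zero.2 hT.ne'
  have e1 : ((Real.pi : ℂ) / -(-(1 / (T : ℂ) ^ 2))) = ((Real.pi * T ^ 2 : ℝ) : ℂ) := by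
    push_cast
    field_simp
  have e2 : ((Real.pi : ℂ) / -(-(T : ℂ) ^ 2)) = ((Real.pi / T ^ 2 : ℝ) : ℂ) := by
    push_cast
    rw [neg_neg]
  have e3 : (1 / 2 : ℂ) = ((1 / 2 : ℝ) : ℂ) := by push_cast; rfl
  rw [e1, e2, e3, ← Complex.ofReal_cpow (by positivity), ← Complex.ofReal_cpow (by positivity), ← Complex.ofReal_pow,
    ← Complex.ofReal_mul]
  congr 1
  rw [← Real.sqrt_eq_rpow, ← Real.sqrt_eq_rpow, Real.sqrt_mul Real.pi_pos.le, Real.sqrt_div Real.pi_pos.le,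
    Real.sqrt_sq hT.le]
  field_simp

/-- `∫ e^(-v²/T²) |∑ b_i e^(-i v a_i)|² dv = T² ∫ |∑ b_i e^(-T² (y - a_i)²/2)|² dy`.

Proof. Expand both sides as double sums over `i, j`. Left: `b_i conj b_j ∫ e^(-v²/T²)
e^(-i v (a_i - a_j)) dv = b_i conj b_j √π T e^(-T² (a_i - a_j)²/4)` (Gaussian integral
`integral_cexp_quadratic` or `fourierIntegral_gaussian`). Right: `T² b_i conj b_j
∫ e^(-T² (y-a_i)²/2 - T² (y-a_j)²/2) dy`, and `(y-a)²/2 + (y-b)²/2 = (y - (a+b)/2)² + (a-b)²/4`, so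
it is `T² b_i conj b_j e^(-T² (a_i-a_j)²/4) √π/T`. -/
theorem gauss_identity {ι : Type*} (s : Finset ι) (a : ι → ℝ) (b : ι → ℂ) (T : ℝ) (hT : 0 < T) :
    ∫ v : ℝ, Real.exp (-(v ^ 2 / T ^ 2)) * ‖∑ i ∈ s, b i * Complex.exp (-(v * a i * Complex.I))‖ ^ 2
      = T ^ 2 * ∫ y : ℝ, ‖∑ i ∈ s, b i * Real.exp (-(T ^ 2 * (y - a i) ^ 2 / 2))‖ ^ 2 := by
  have hT' : (T : ℂ) ≠ 0 := Complex.ofReal_ne_zero.2 hT.ne'
  apply Complex.ofReal_injective
  rw [Complex.ofReal_mul, ← integral_complex_ofReal, ← integral_complex_ofReal]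
  simp only [S4_left s a b T, S4_right s a b T]
  have i1 : ∀ i j, MeasureTheory.Integrable (fun v : ℝ => b i * (starRingEnd ℂ) (b j) *
        Complex.exp (-(1 / (T : ℂ) ^ 2) * (v : ℂ) ^ 2 + (-(((a i - a j : ℝ)) : ℂ) * Complex.I) * v + 0)) :=
    fun i j => (integrable_cexp_quadratic' (S4_b1 hT) _ _).const_mul _
  have i2 : ∀ i j, MeasureTheory.Integrable (fun y : ℝ => b i * (starRingEnd ℂ) (b j) *
        Complex.exp (-(T : ℂ) ^ 2 * (y : ℂ) ^ 2 + ((T : ℂ) ^ 2 * (a i + a j)) * y +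
          -((T : ℂ) ^ 2 * ((a i : ℂ) ^ 2 + (a j : ℂ) ^ 2) / 2))) :=
    fun i j => (integrable_cexp_quadratic' (S4_b2 hT) _ _).const_mul _
  rw [MeasureTheory.integral_finsetSum _ fun i _ => MeasureTheory.integrable_finsetSum _ fun j _ => i1 i j,
    MeasureTheory.integral_finsetSum _ fun i _ => MeasureTheory.integrable_finsetSum _ fun j _ => i2 i j, mul_sum]
  refine sum_congr rfl fun i _ => ?_
  rw [MeasureTheory.integral_finsetSum _ fun j _ => i1 i j, MeasureTheory.integral_finsetSum _ fun j _ => i2 i j, mul_sum]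
  refine sum_congr rfl fun j _ => ?_
  rw [MeasureTheory.integral_const_mul, MeasureTheory.integral_const_mul, integral_cexp_quadratic (S4_b1 hT),
    integral_cexp_quadratic (S4_b2 hT), S4_const hT]
  have e : (0 : ℂ) - (-(((a i - a j : ℝ)) : ℂ) * Complex.I) ^ 2 / (4 * -(1 / (T : ℂ) ^ 2)) =
      -((T : ℂ) ^ 2 * ((a i : ℂ) ^ 2 + (a j : ℂ) ^ 2) / 2) - ((T : ℂ) ^ 2 * (a i + a j)) ^ 2 / (4 * -(T : ℂ) ^ 2) := by
    push_cast
    rw [neg_mul, neg_sq, mul_pow, Complex.I_sq]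
    field_simp
    ring
  rw [e, Complex.ofReal_pow]
  ring

/-- Both integrands are integrable (continuous, dominated by Gaussians; the sum in the second
integrand is bounded and each term is a Gaussian). -/
theorem gauss_integrable {ι : Type*} (s : Finset ι) (a : ι → ℝ) (b : ι → ℂ) (T : ℝ)
    (hT : 0 < T) :
    MeasureTheory.Integrable (fun v : ℝ => Real.exp (-(v ^ 2 / T ^ 2)) *
      ‖∑ i ∈ s, b i * Complex.exp (-(v * a i * Complex.I))‖ ^ 2) ∧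
    MeasureTheory.Integrable (fun y : ℝ =>
      ‖∑ i ∈ s, b i * Real.exp (-(T ^ 2 * (y - a i) ^ 2 / 2))‖ ^ 2) := by
  have i1 : ∀ i j, MeasureTheory.Integrable (fun v : ℝ => b i * (starRingEnd ℂ) (b j) *
        Complex.exp (-(1 / (T : ℂ) ^ 2) * (v : ℂ) ^ 2 + (-(((a i - a j : ℝ)) : ℂ) * Complex.I) * v + 0)) :=
    fun i j => (integrable_cexp_quadratic' (S4_b1 hT) _ _).const_mul _
  have i2 : ∀ i j, MeasureTheory.Integrable (fun y : ℝ => b i * (starRingEnd ℂ) (b j) *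
        Complex.exp (-(T : ℂ) ^ 2 * (y : ℂ) ^ 2 + ((T : ℂ) ^ 2 * (a i + a j)) * y +
          -((T : ℂ) ^ 2 * ((a i : ℂ) ^ 2 + (a j : ℂ) ^ 2) / 2))) :=
    fun i j => (integrable_cexp_quadratic' (S4_b2 hT) _ _).const_mul _
  constructor
  · have h : MeasureTheory.Integrable (fun v : ℝ => (((Real.exp (-(v ^ 2 / T ^ 2)) *
        ‖∑ i ∈ s, b i * Complex.exp (-(v * a i * Complex.I))‖ ^ 2 : ℝ)) : ℂ)) := by
      simp only [S4_left s a b T]
      exact MeasureTheory.integrable_finsetSum _ fun i _ => MeasureTheory.integrable_finsetSum _ fun j _ => i1 i j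
    exact h.re
  · have h : MeasureTheory.Integrable (fun y : ℝ => (((‖∑ i ∈ s, b i * Real.exp (-(T ^ 2 * (y - a i) ^ 2 / 2))‖ ^ 2 : ℝ)) : ℂ)) := by
      simp only [S4_right s a b T]
      exact MeasureTheory.integrable_finsetSum _ fun i _ => MeasureTheory.integrable_finsetSum _ fun j _ => i2 i j
    exact h.re

/-- Hence the integral over `[-T, T]`, where `e^(-v²/T²) ≥ e^(-1) ≥ 1/3`. -/
theorem gauss_interval {ι : Type*} (s : Finset ι) (a : ι → ℝ) (b : ι → ℂ) (T : ℝ) (hT : 0 < T) :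
    ∫ v in (-T)..T, ‖∑ i ∈ s, b i * Complex.exp (-(v * a i * Complex.I))‖ ^ 2 ≤
      3 * T ^ 2 * ∫ y : ℝ, ‖∑ i ∈ s, b i * Real.exp (-(T ^ 2 * (y - a i) ^ 2 / 2))‖ ^ 2 := by
  have hint := (gauss_integrable s a b T hT).1
  have hab : -T ≤ T := by linarith
  rw [mul_assoc, ← gauss_identity s a b T hT]
  have hcont : Continuous fun v : ℝ => ‖∑ i ∈ s, b i * Complex.exp (-(v * a i * Complex.I))‖ ^ 2 := by fun_prop
  calc ∫ v in (-T)..T, ‖∑ i ∈ s, b i * Complex.exp (-(v * a i * Complex.I))‖ ^ 2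
      ≤ ∫ v in (-T)..T, 3 * (Real.exp (-(v ^ 2 / T ^ 2)) * ‖∑ i ∈ s, b i * Complex.exp (-(v * a i * Complex.I))‖ ^ 2) := by
        refine intervalIntegral.integral_mono_on hab (hcont.intervalIntegrable _ _)
          (hint.const_mul 3).intervalIntegrable fun v hv => ?_
        have h1 : v ^ 2 / T ^ 2 ≤ 1 := by
          rw [div_le_one (by positivity)]
          exact sq_le_sq' hv.1 hv.2
        have h2 : (1 : ℝ) ≤ 3 * Real.exp (-(v ^ 2 / T ^ 2)) := by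
          have h3 : Real.exp (-1) ≤ Real.exp (-(v ^ 2 / T ^ 2)) := Real.exp_le_exp.2 (by linarith)
          have h4 : Real.exp 1 < 3 := Real.exp_one_lt_three
          have h5 : 1 / 3 < Real.exp (-1) := by
            rw [Real.exp_neg, ← one_div]
            exact one_div_lt_one_div_of_lt (Real.exp_pos 1) h4
          linarith
        rw [← mul_assoc]
        exact le_mul_of_one_le_left (by positivity) h2
    _ = ∫ v in Set.Ioc (-T) T, 3 * (Real.exp (-(v ^ 2 / T ^ 2)) * ‖∑ i ∈ s, b i * Complex.exp (-(v * a i * Complex.I))‖ ^ 2) :=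
        intervalIntegral.integral_of_le hab
    _ ≤ ∫ v : ℝ, 3 * (Real.exp (-(v ^ 2 / T ^ 2)) * ‖∑ i ∈ s, b i * Complex.exp (-(v * a i * Complex.I))‖ ^ 2) :=
        MeasureTheory.setIntegral_le_integral (hint.const_mul 3) (Filter.Eventually.of_forall fun v => by positivity)
    _ = _ := MeasureTheory.integral_const_mul _ _

end Pool.Agent.Lib.H18Q
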