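import Pool.Agent.Lib.H18Q.S3
import Pool.Agent.Lib.H18Q.S4

/-!
# Project H18Q, chunk S5: cells and the hybrid large sieve over primes
-/

open Finset

namespace Pool.Agent.Lib.H18Q

open Pool.Agent.Lib.H68T

theorem s5_log_le {x : ℝ} (hx : 0 < x) : Real.log x ≤ 5 * x ^ (1 / 5 : ℝ) := by
  have h1 : Real.log (x ^ (1 / 5 : ℝ)) = 1 / 5 * Real.log x := Real.log_rpow hx _
  have h2 : Real.log (x ^ (1 / 5 : ℝ)) ≤ x ^ (1 / 5 : ℝ) :=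
    (Real.log_le_sub_one_of_pos (Real.rpow_pos_of_pos hx _)).trans (by linarith)
  rw [h1] at h2
  linarith

/-- The numerical inequalities for one cell. -/
theorem s5_num {Q : ℕ} (hQ : 2 ≤ Q) {x : ℝ} (hx : (Q : ℝ) ^ 100 ≤ x) :
    0 < Real.log x ∧ 2 ≤ ⌊x ^ (1 / 40 : ℝ)⌋₊ ∧ (⌊x ^ (1 / 40 : ℝ)⌋₊ : ℝ) < x ∧
    Real.log x / 80 ≤ Real.log (⌊x ^ (1 / 40 : ℝ)⌋₊ : ℝ) ∧
    2 * (⌊x ^ (1 / 40 : ℝ)⌋₊ : ℝ) ^ 8 * (Q : ℝ) ^ 4 ≤ x / ((Q : ℝ) ^ 9 * Real.log x) := by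
  have hQ2 : (2 : ℝ) ≤ Q := by exact_mod_cast hQ
  have hQ0 : (0 : ℝ) < Q := by linarith
  have h100 : (2 : ℝ) ^ 100 ≤ x := (pow_le_pow_left₀ (by norm_num) hQ2 100).trans hx
  have hx1 : (1 : ℝ) < x := lt_of_lt_of_le (by norm_num) h100
  have hx0 : (0 : ℝ) < x := by linarith
  have hlog : 0 < Real.log x := Real.log_pos hx1
  have hy0 : 0 < x ^ (1 / 40 : ℝ) := Real.rpow_pos_of_pos hx0 _
  have hy4 : (4 : ℝ) ≤ x ^ (1 / 40 : ℝ) := by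
    have h1 : ((2 : ℝ) ^ 80) ^ (1 / 40 : ℝ) ≤ x ^ (1 / 40 : ℝ) := by
      apply Real.rpow_le_rpow (by positivity) _ (by norm_num)
      exact (pow_le_pow_right₀ (by norm_num) (by norm_num)).trans h100
    have h2 : ((2 : ℝ) ^ 80) ^ (1 / 40 : ℝ) = 4 := by
      rw [← Real.rpow_natCast, ← Real.rpow_mul (by norm_num)]
      norm_num
    rw [h2] at h1
    exact h1
  have hz1 : (⌊x ^ (1 / 40 : ℝ)⌋₊ : ℝ) ≤ x ^ (1 / 40 : ℝ) := Nat.floor_le hy0.le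
  have hz2 : x ^ (1 / 40 : ℝ) < (⌊x ^ (1 / 40 : ℝ)⌋₊ : ℝ) + 1 := Nat.lt_floor_add_one _
  have hz3 : x ^ (1 / 40 : ℝ) / 2 ≤ (⌊x ^ (1 / 40 : ℝ)⌋₊ : ℝ) := by linarith
  have hz0 : (0 : ℝ) < (⌊x ^ (1 / 40 : ℝ)⌋₊ : ℝ) := by linarith
  refine ⟨hlog, ?_, ?_, ?_, ?_⟩
  · apply Nat.le_floor
    push_cast
    linarith
  · have h1 : x ^ (1 / 40 : ℝ) < x ^ (1 : ℝ) :=
      Real.rpow_lt_rpow_of_exponent_lt hx1 (by norm_num)
    rw [Real.rpow_one] at h1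
    linarith
  · have h1 : Real.log (x ^ (1 / 40 : ℝ) / 2) ≤ Real.log (⌊x ^ (1 / 40 : ℝ)⌋₊ : ℝ) :=
      Real.log_le_log (by positivity) hz3
    rw [Real.log_div hy0.ne' (by norm_num), Real.log_rpow hx0] at h1
    have h2 : Real.log ((2 : ℝ) ^ 80) ≤ Real.log x := by
      apply Real.log_le_log (by positivity)
      exact (pow_le_pow_right₀ (by norm_num) (by norm_num)).trans h100
    rw [Real.log_pow] at h2
    push_cast at h2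
    linarith
  · have h1 : (⌊x ^ (1 / 40 : ℝ)⌋₊ : ℝ) ^ 8 ≤ x ^ (1 / 5 : ℝ) := by
      have h2 := pow_le_pow_left₀ hz0.le hz1 8
      have h3 : (x ^ (1 / 40 : ℝ)) ^ 8 = x ^ (1 / 5 : ℝ) := by
        rw [← Real.rpow_natCast, ← Real.rpow_mul hx0.le]
        norm_num
      rw [h3] at h2
      exact h2
    have h13 : (Q : ℝ) ^ 13 ≤ x ^ (13 / 100 : ℝ) := by
      have h2 : ((Q : ℝ) ^ 100) ^ (13 / 100 : ℝ) ≤ x ^ (13 / 100 : ℝ) :=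
        Real.rpow_le_rpow (by positivity) hx (by norm_num)
      have h3 : ((Q : ℝ) ^ 100) ^ (13 / 100 : ℝ) = (Q : ℝ) ^ 13 := by
        rw [← Real.rpow_natCast, ← Real.rpow_mul hQ0.le, ← Real.rpow_natCast]
        norm_num
      rw [h3] at h2
      exact h2
    have h10 : (10 : ℝ) ≤ x ^ (47 / 100 : ℝ) := by
      have h2 : ((2 : ℝ) ^ 100) ^ (47 / 100 : ℝ) ≤ x ^ (47 / 100 : ℝ) :=
        Real.rpow_le_rpow (by positivity) h100 (by norm_num)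
      have h3 : ((2 : ℝ) ^ 100) ^ (47 / 100 : ℝ) = (2 : ℝ) ^ 47 := by
        rw [← Real.rpow_natCast, ← Real.rpow_mul (by norm_num), ← Real.rpow_natCast]
        norm_num
      rw [h3] at h2
      exact le_trans (by norm_num) h2
    have hl := s5_log_le hx0
    rw [le_div_iff₀ (by positivity)]
    have h5 : 0 < x ^ (1 / 5 : ℝ) := Real.rpow_pos_of_pos hx0 _
    have h6 : 0 < x ^ (13 / 100 : ℝ) := Real.rpow_pos_of_pos hx0 _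
    have e1 : x ^ (1 / 5 : ℝ) * x ^ (13 / 100 : ℝ) * x ^ (1 / 5 : ℝ) * x ^ (47 / 100 : ℝ) = x := by
      rw [← Real.rpow_add hx0, ← Real.rpow_add hx0, ← Real.rpow_add hx0]
      norm_num
    calc 2 * (⌊x ^ (1 / 40 : ℝ)⌋₊ : ℝ) ^ 8 * (Q : ℝ) ^ 4 * ((Q : ℝ) ^ 9 * Real.log x)
        = 2 * (⌊x ^ (1 / 40 : ℝ)⌋₊ : ℝ) ^ 8 * (Q : ℝ) ^ 13 * Real.log x := by ring
      _ ≤ 2 * x ^ (1 / 5 : ℝ) * x ^ (13 / 100 : ℝ) * (5 * x ^ (1 / 5 : ℝ)) := by gcongr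
      _ = x ^ (1 / 5 : ℝ) * x ^ (13 / 100 : ℝ) * x ^ (1 / 5 : ℝ) * 10 := by ring
      _ ≤ x ^ (1 / 5 : ℝ) * x ^ (13 / 100 : ℝ) * x ^ (1 / 5 : ℝ) * x ^ (47 / 100 : ℝ) := by
          gcongr
      _ = x := e1

theorem s5_geom (F : Finset ℤ) : ∑ j ∈ F, (1 / 2 : ℝ) ^ j.natAbs ≤ 4 := by
  classical
  have key : ∀ G : Finset ℕ, ∑ i ∈ G, (1 / 2 : ℝ) ^ i ≤ 2 := by
    intro G
    have h := summable_geometric_two.sum_le_tsum G (fun i _ => by positivity)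
    rw [tsum_geometric_two] at h
    exact h
  have h1 : ∀ P : ℤ → Prop, [DecidablePred P] →
      (∀ a b : ℤ, P a → P b → a.natAbs = b.natAbs → a = b) →
      ∑ j ∈ F.filter P, (1 / 2 : ℝ) ^ j.natAbs ≤ 2 := by
    intro P _ hP
    have h2 : ∑ i ∈ (F.filter P).image Int.natAbs, (1 / 2 : ℝ) ^ i =
        ∑ j ∈ F.filter P, (1 / 2 : ℝ) ^ j.natAbs := by
      apply Finset.sum_image
      intro a ha b hb hab
      exact hP a b (Finset.mem_filter.1 ha).2 (Finset.mem_filter.1 hb).2 hab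
    rw [← h2]
    exact key _
  rw [← Finset.sum_filter_add_sum_filter_not F (fun j => 0 ≤ j)]
  have h2 := h1 (fun j => 0 ≤ j) (by intro a b ha hb hab; omega)
  have h3 := h1 (fun j => ¬ 0 ≤ j) (by intro a b ha hb hab; omega)
  linarith

theorem s5_weight (t : ℝ) :
    (2 : ℝ) ^ (⌊t⌋.natAbs) * Real.exp (-(t ^ 2)) ≤ 4 * Real.exp (-(t ^ 2 / 2)) := by
  have h1 : ((⌊t⌋.natAbs : ℕ) : ℝ) ≤ |t| + 1 := by
    rw [Nat.cast_natAbs, Int.cast_abs]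
    have h2 := Int.floor_le t
    have h3 := Int.lt_floor_add_one t
    rw [abs_le]
    constructor
    · have := neg_abs_le t
      linarith
    · have := le_abs_self t
      linarith
  have hl0 : 0 < Real.log 2 := Real.log_pos (by norm_num)
  have hl1 : Real.log 2 ≤ 1 := by
    have := Real.log_le_sub_one_of_pos (show (0 : ℝ) < 2 by norm_num)
    linarith
  have e2 : (2 : ℝ) ^ (⌊t⌋.natAbs) = Real.exp (Real.log 2 * (⌊t⌋.natAbs : ℕ)) := by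
    rw [Real.exp_mul, Real.exp_log (by norm_num), Real.rpow_natCast]
  have e4 : (4 : ℝ) = Real.exp (2 * Real.log 2) := by
    rw [mul_comm, Real.exp_mul, Real.exp_log (by norm_num)]
    norm_num
  rw [e2, e4, ← Real.exp_add, ← Real.exp_add]
  apply Real.exp_le_exp.2
  have h5 : Real.log 2 * (⌊t⌋.natAbs : ℕ) ≤ Real.log 2 * (|t| + 1) :=
    mul_le_mul_of_nonneg_left h1 hl0.le
  have h6 : t ^ 2 = |t| ^ 2 := (sq_abs t).symm
  rw [h6]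
  nlinarith [sq_nonneg (|t| - Real.log 2), abs_nonneg t]

/-- One cell: the primes `n ≥ x`, `x ≥ Q^100`, with `u ≤ log n < u + 1/Q^9`:
`∑_p |∑_n a_n χ_p(n)|² ≤ (C/(Q^9 log x)) ∑ n |a_n|²`.

Proof. If the cell contains `n0 ≥ x`, all its members lie in `(M, M + N]` with `M = n_min - 1`,
`N ≤ n_min (e^(1/Q^9) - 1) + 1 ≤ 2 n_min/Q^9 + 1 ≤ 3 n_min/Q^9` (`n_min` the least member, if the
cell is not empty; `n_min ≥ x ≥ Q^100`, `Q ≥ 2`). `S3_primal` with `z = ⌊x^(1/40)⌋` (`≥ 2`,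
`z < x ≤ n`, `log z ≥ (log x)/80`, `z^8 ≤ x^(1/5)`), `2 z^8 Q^4 ≤ 2 x^(1/5) Q^4 ≤ x/(Q^9 log x)`
(`x^(4/5) ≥ 2 Q^13 log x`, as `x ≥ Q^100`, `Q` large, `log x ≤ x^(1/5)` for `x` large). So the
constant is `≤ 240 n_min/(Q^9 log x) + x/(Q^9 log x) ≤ 241 n/(Q^9 log x)` for every member
`n ≥ n_min`. -/
theorem S5_cell : ∃ C K : ℝ, 0 < C ∧ ∀ Q : ℕ, K ≤ Q → ∀ x : ℝ, (Q : ℝ) ^ 100 ≤ x → ∀ u : ℝ,
    ∀ s : Finset ℕ, (∀ n ∈ s, n.Prime ∧ x ≤ n ∧ u ≤ Real.log n ∧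
      Real.log n < u + 1 / (Q : ℝ) ^ 9) → ∀ a : ℕ → ℂ,
    ∑ p ∈ PC Q, ‖∑ n ∈ s, a n * p.2 (n : ZMod p.1)‖ ^ 2 ≤
      C / ((Q : ℝ) ^ 9 * Real.log x) * ∑ n ∈ s, (n : ℝ) * ‖a n‖ ^ 2 := by
  refine ⟨241, 2, by norm_num, ?_⟩
  intro Q hQK x hx u s hs a
  have hQ : 2 ≤ Q := by exact_mod_cast hQK
  have hQ2 : (2 : ℝ) ≤ Q := by exact_mod_cast hQ
  have hQ0 : (0 : ℝ) < Q := by linarith
  obtain ⟨hlog, hz2, hzx, hlz, h8⟩ := s5_num hQ hx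
  have hx0 : 0 < x := lt_of_lt_of_le (by positivity) hx
  rcases s.eq_empty_or_nonempty with rfl | hne
  · simp
  have hmin := s.min'_mem hne
  have hmax := s.max'_mem hne
  generalize hn0 : s.min' hne = n0 at hmin
  generalize hn1 : s.max' hne = n1 at hmax
  have hle0 : ∀ n ∈ s, n0 ≤ n := fun n hn => hn0 ▸ s.min'_le n hn
  have hle1 : ∀ n ∈ s, n ≤ n1 := fun n hn => hn1 ▸ s.le_max' n hn
  obtain ⟨hp0, hx0', hu0, -⟩ := hs n0 hmin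
  obtain ⟨hp1, -, -, hu1⟩ := hs n1 hmax
  have hn0pos : (0 : ℝ) < n0 := by exact_mod_cast hp0.pos
  have hn1pos : (0 : ℝ) < n1 := by exact_mod_cast hp1.pos
  have h01 : n0 ≤ n1 := hle0 n1 hmax
  have hN : ((n1 - (n0 - 1) : ℕ) : ℝ) ≤ 3 * n0 / (Q : ℝ) ^ 9 := by
    have h1 : ((n1 - (n0 - 1) : ℕ) : ℝ) = n1 - n0 + 1 := by
      have h2 := hp0.pos
      rw [Nat.cast_sub (by omega), Nat.cast_sub (by omega)]
      push_cast
      ring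
    rw [h1]
    have hQ9 : (1 : ℝ) ≤ (Q : ℝ) ^ 9 := one_le_pow₀ (by linarith)
    have ht : |1 / (Q : ℝ) ^ 9| ≤ 1 := by
      rw [abs_of_pos (by positivity), div_le_one (by positivity)]
      exact hQ9
    have h2 := (abs_le.1 (Real.abs_exp_sub_one_le ht)).2
    rw [abs_of_pos (by positivity)] at h2
    have h3 : (n1 : ℝ) ≤ n0 * Real.exp (1 / (Q : ℝ) ^ 9) := by
      rw [← Real.exp_log hn1pos, ← Real.exp_log hn0pos, ← Real.exp_add]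
      apply Real.exp_le_exp.2
      linarith
    have h4 : (1 : ℝ) ≤ n0 / (Q : ℝ) ^ 9 := by
      rw [le_div_iff₀ (by positivity), one_mul]
      have h5 : (Q : ℝ) ^ 9 ≤ (Q : ℝ) ^ 100 := pow_le_pow_right₀ (by linarith) (by norm_num)
      linarith
    have h5 : (n0 : ℝ) * Real.exp (1 / (Q : ℝ) ^ 9) ≤ n0 * (1 + 2 * (1 / (Q : ℝ) ^ 9)) :=
      mul_le_mul_of_nonneg_left (by linarith) hn0pos.le
    have h6 : (n0 : ℝ) * (1 + 2 * (1 / (Q : ℝ) ^ 9)) = n0 + 2 * (n0 / (Q : ℝ) ^ 9) := by ring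
    have h7 : 3 * (n0 : ℝ) / (Q : ℝ) ^ 9 = 3 * (n0 / (Q : ℝ) ^ 9) := by ring
    rw [h7]
    linarith
  have hmain := S3_primal Q ⌊x ^ (1 / 40 : ℝ)⌋₊ (n0 - 1) (n1 - (n0 - 1)) hz2 (by omega) s (by
    intro n hn
    obtain ⟨h1, h2, -, -⟩ := hs n hn
    have h3 := hle0 n hn
    have h4 := hle1 n hn
    have h5 := hp0.pos
    refine ⟨h1, ?_, by omega, by omega⟩
    have h6 : (⌊x ^ (1 / 40 : ℝ)⌋₊ : ℝ) < n := lt_of_lt_of_le hzx h2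
    exact_mod_cast h6) a
  refine hmain.trans ?_
  have hlz0 : 0 < Real.log (⌊x ^ (1 / 40 : ℝ)⌋₊ : ℝ) := lt_of_lt_of_le (by positivity) hlz
  have hA : ((n1 - (n0 - 1) : ℕ) : ℝ) / Real.log (⌊x ^ (1 / 40 : ℝ)⌋₊ : ℝ) ≤
      240 * (n0 / ((Q : ℝ) ^ 9 * Real.log x)) := by
    calc ((n1 - (n0 - 1) : ℕ) : ℝ) / Real.log (⌊x ^ (1 / 40 : ℝ)⌋₊ : ℝ)
        ≤ (3 * n0 / (Q : ℝ) ^ 9) / (Real.log x / 80) := by gcongr
      _ = 240 * (n0 / ((Q : ℝ) ^ 9 * Real.log x)) := by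
          field_simp
          ring
  have hB : x / ((Q : ℝ) ^ 9 * Real.log x) ≤ n0 / ((Q : ℝ) ^ 9 * Real.log x) := by gcongr
  have hC : ((n1 - (n0 - 1) : ℕ) : ℝ) / Real.log (⌊x ^ (1 / 40 : ℝ)⌋₊ : ℝ) +
      2 * (⌊x ^ (1 / 40 : ℝ)⌋₊ : ℝ) ^ 8 * (Q : ℝ) ^ 4 ≤
      241 * (n0 / ((Q : ℝ) ^ 9 * Real.log x)) := by linarith
  refine (mul_le_mul_of_nonneg_right hC (Finset.sum_nonneg fun n _ => by positivity)).trans ?_
  rw [Finset.mul_sum, Finset.mul_sum]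
  apply Finset.sum_le_sum
  intro n hn
  have h1 : (n0 : ℝ) ≤ n := by exact_mod_cast hle0 n hn
  calc 241 * (n0 / ((Q : ℝ) ^ 9 * Real.log x)) * ‖a n‖ ^ 2
      ≤ 241 * (n / ((Q : ℝ) ^ 9 * Real.log x)) * ‖a n‖ ^ 2 := by gcongr
    _ = 241 / ((Q : ℝ) ^ 9 * Real.log x) * (n * ‖a n‖ ^ 2) := by ring

/-- The smoothed sum at a point `y`: with `T = Q^9`,
`∑_p |∑_n a_n χ_p(n) e^(-T² (y - log n)²/2)|² ≤ (C/(T log x)) ∑ n |a_n|² e^(-T² (y - log n)²/2)`.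

Proof. Cells `s_j = {n ∈ s : j ≤ T (log n - y) < j + 1}`, `j = ⌊T (log n - y)⌋ ∈ ℤ`. Cauchy-Schwarz:
`|∑_j S_j|² ≤ (∑_j 2^(-|j|)) ∑_j 2^|j| |S_j|² ≤ 3 ∑_j 2^|j| |S_j|²`, over the finitely many `j` with
`s_j` nonempty. `S5_cell` for each `j` with the coefficients `a_n e^(-T² (y - log n)²/2)`:
`|t| = T |y - log n| ≥ |j| - 1`, `2^|j| e^(-t²) ≤ 2^(|t| + 1) e^(-t²) ≤ 4 e^(-t²/2)`
(`|t| log 2 ≤ t²/2 + (log 2)²/2`). -/
theorem S5_point : ∃ C K : ℝ, 0 < C ∧ ∀ Q : ℕ, K ≤ Q → ∀ x : ℝ, (Q : ℝ) ^ 100 ≤ x →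
    ∀ s : Finset ℕ, (∀ n ∈ s, n.Prime ∧ x ≤ n) → ∀ (a : ℕ → ℂ) (y : ℝ),
    ∑ p ∈ PC Q, ‖∑ n ∈ s, a n * p.2 (n : ZMod p.1) *
      Real.exp (-(((Q : ℝ) ^ 9) ^ 2 * (y - Real.log n) ^ 2 / 2))‖ ^ 2 ≤
      C / ((Q : ℝ) ^ 9 * Real.log x) * ∑ n ∈ s, (n : ℝ) * ‖a n‖ ^ 2 *
        Real.exp (-(((Q : ℝ) ^ 9) ^ 2 * (y - Real.log n) ^ 2 / 2)) := by
  classical
  obtain ⟨C, K, hC, h⟩ := S5_cell
  refine ⟨16 * C, max K 2, by positivity, ?_⟩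
  intro Q hQK x hx s hs a y
  have hQ1 : K ≤ Q := (le_max_left _ _).trans hQK
  have hQ2 : (2 : ℝ) ≤ Q := (le_max_right _ _).trans hQK
  have hQn : 2 ≤ Q := by exact_mod_cast hQ2
  have hQ0 : (0 : ℝ) < Q := by linarith
  have hlog := (s5_num hQn hx).1
  have hT : (0 : ℝ) < (Q : ℝ) ^ 9 := by positivity
  let j : ℕ → ℤ := fun n => ⌊(Q : ℝ) ^ 9 * (Real.log n - y)⌋
  let b : ℕ → ℂ := fun n => a n * Real.exp (-(((Q : ℝ) ^ 9) ^ 2 * (y - Real.log n) ^ 2 / 2))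
  have hcell : ∀ i : ℤ, ∑ p ∈ PC Q, ‖∑ n ∈ s.filter (fun n => j n = i), b n * p.2 (n : ZMod p.1)‖ ^ 2 ≤
      C / ((Q : ℝ) ^ 9 * Real.log x) * ∑ n ∈ s.filter (fun n => j n = i), (n : ℝ) * ‖b n‖ ^ 2 := by
    intro i
    apply h Q hQ1 x hx (y + i / (Q : ℝ) ^ 9)
    intro n hn
    obtain ⟨h1, h2⟩ := Finset.mem_filter.1 hn
    obtain ⟨h3, h4⟩ := hs n h1
    have h5 : (i : ℝ) ≤ (Q : ℝ) ^ 9 * (Real.log n - y) := by
      rw [← h2]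
      exact Int.floor_le _
    have h6 : (Q : ℝ) ^ 9 * (Real.log n - y) < i + 1 := by
      rw [← h2]
      exact Int.lt_floor_add_one _
    refine ⟨h3, h4, ?_, ?_⟩
    · have h7 : (i : ℝ) / (Q : ℝ) ^ 9 ≤ Real.log n - y := by
        rw [div_le_iff₀ hT]
        linarith
      linarith
    · have h7 : Real.log n - y < ((i : ℝ) + 1) / (Q : ℝ) ^ 9 := by
        rw [lt_div_iff₀ hT]
        linarith
      have h8 : ((i : ℝ) + 1) / (Q : ℝ) ^ 9 = i / (Q : ℝ) ^ 9 + 1 / (Q : ℝ) ^ 9 := add_div _ _ _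
      linarith
  have hsum : ∀ p ∈ PC Q, ‖∑ n ∈ s, a n * p.2 (n : ZMod p.1) *
      Real.exp (-(((Q : ℝ) ^ 9) ^ 2 * (y - Real.log n) ^ 2 / 2))‖ ^ 2 ≤
      4 * ∑ i ∈ s.image j, (2 : ℝ) ^ i.natAbs *
        ‖∑ n ∈ s.filter (fun n => j n = i), b n * p.2 (n : ZMod p.1)‖ ^ 2 := by
    intro p _
    have h1 : ∑ n ∈ s, a n * p.2 (n : ZMod p.1) *
        Real.exp (-(((Q : ℝ) ^ 9) ^ 2 * (y - Real.log n) ^ 2 / 2)) =
        ∑ i ∈ s.image j, ∑ n ∈ s.filter (fun n => j n = i), b n * p.2 (n : ZMod p.1) := by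
      rw [Finset.sum_fiberwise_of_maps_to (fun n hn => Finset.mem_image_of_mem j hn)]
      apply Finset.sum_congr rfl
      intro n _
      show _ = a n * Real.exp (-(((Q : ℝ) ^ 9) ^ 2 * (y - Real.log n) ^ 2 / 2)) *
        p.2 (n : ZMod p.1)
      ring
    rw [h1]
    have h2 : ‖∑ i ∈ s.image j, ∑ n ∈ s.filter (fun n => j n = i), b n * p.2 (n : ZMod p.1)‖ ^ 2 ≤
        (∑ i ∈ s.image j, ‖∑ n ∈ s.filter (fun n => j n = i), b n * p.2 (n : ZMod p.1)‖) ^ 2 :=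
      pow_le_pow_left₀ (norm_nonneg _) (norm_sum_le _ _) 2
    have h3 : (∑ i ∈ s.image j,
        ‖∑ n ∈ s.filter (fun n => j n = i), b n * p.2 (n : ZMod p.1)‖) ^ 2 ≤
        (∑ i ∈ s.image j, (1 / 2 : ℝ) ^ i.natAbs) * ∑ i ∈ s.image j, (2 : ℝ) ^ i.natAbs *
        ‖∑ n ∈ s.filter (fun n => j n = i), b n * p.2 (n : ZMod p.1)‖ ^ 2 := by
      apply Finset.sum_sq_le_sum_mul_sum_of_sq_eq_mul
      · intro i _
        positivity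
      · intro i _
        positivity
      · intro i _
        rw [← mul_assoc, ← mul_pow]
        norm_num
    refine (h2.trans h3).trans ?_
    apply mul_le_mul_of_nonneg_right (s5_geom _)
    exact Finset.sum_nonneg fun i _ => by positivity
  refine (Finset.sum_le_sum hsum).trans ?_
  rw [← Finset.mul_sum, Finset.sum_comm]
  have h2 : ∀ i ∈ s.image j, ∑ p ∈ PC Q, (2 : ℝ) ^ i.natAbs *
      ‖∑ n ∈ s.filter (fun n => j n = i), b n * p.2 (n : ZMod p.1)‖ ^ 2 ≤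
      4 * C / ((Q : ℝ) ^ 9 * Real.log x) * ∑ n ∈ s.filter (fun n => j n = i),
        (n : ℝ) * ‖a n‖ ^ 2 * Real.exp (-(((Q : ℝ) ^ 9) ^ 2 * (y - Real.log n) ^ 2 / 2)) := by
    intro i _
    rw [← Finset.mul_sum]
    have h3 : (2 : ℝ) ^ i.natAbs * ∑ p ∈ PC Q,
        ‖∑ n ∈ s.filter (fun n => j n = i), b n * p.2 (n : ZMod p.1)‖ ^ 2 ≤
        (2 : ℝ) ^ i.natAbs * (C / ((Q : ℝ) ^ 9 * Real.log x) *
          ∑ n ∈ s.filter (fun n => j n = i), (n : ℝ) * ‖b n‖ ^ 2) :=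
      mul_le_mul_of_nonneg_left (hcell i) (by positivity)
    refine h3.trans ?_
    have h4 : (2 : ℝ) ^ i.natAbs * (C / ((Q : ℝ) ^ 9 * Real.log x) *
        ∑ n ∈ s.filter (fun n => j n = i), (n : ℝ) * ‖b n‖ ^ 2) =
        C / ((Q : ℝ) ^ 9 * Real.log x) * ∑ n ∈ s.filter (fun n => j n = i),
          (2 : ℝ) ^ i.natAbs * ((n : ℝ) * ‖b n‖ ^ 2) := by
      rw [← Finset.mul_sum]
      ring
    have h5 : 4 * C / ((Q : ℝ) ^ 9 * Real.log x) = C / ((Q : ℝ) ^ 9 * Real.log x) * 4 := by ring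
    rw [h4, h5, mul_assoc]
    apply mul_le_mul_of_nonneg_left _ (by positivity)
    rw [Finset.mul_sum]
    apply Finset.sum_le_sum
    intro n hn
    have h6 : j n = i := (Finset.mem_filter.1 hn).2
    have h7 : ‖b n‖ ^ 2 = ‖a n‖ ^ 2 * Real.exp (-(((Q : ℝ) ^ 9 * (Real.log n - y)) ^ 2)) := by
      show ‖a n * (Real.exp (-(((Q : ℝ) ^ 9) ^ 2 * (y - Real.log n) ^ 2 / 2)) : ℂ)‖ ^ 2 = _
      rw [norm_mul, mul_pow, Complex.norm_real, Real.norm_eq_abs, Real.abs_exp, ← Real.exp_nat_mul]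
      congr 2
      push_cast
      ring
    have h8 := s5_weight ((Q : ℝ) ^ 9 * (Real.log n - y))
    have h9 : Real.exp (-(((Q : ℝ) ^ 9) ^ 2 * (y - Real.log n) ^ 2 / 2)) =
        Real.exp (-(((Q : ℝ) ^ 9 * (Real.log n - y)) ^ 2 / 2)) := by
      congr 1
      ring
    have h10 : (2 : ℝ) ^ i.natAbs = (2 : ℝ) ^ (⌊(Q : ℝ) ^ 9 * (Real.log n - y)⌋.natAbs) := by
      rw [← h6]
    rw [h7, h9, h10]
    calc (2 : ℝ) ^ (⌊(Q : ℝ) ^ 9 * (Real.log n - y)⌋.natAbs) * ((n : ℝ) * (‖a n‖ ^ 2 *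
          Real.exp (-(((Q : ℝ) ^ 9 * (Real.log n - y)) ^ 2))))
        = ((n : ℝ) * ‖a n‖ ^ 2) * ((2 : ℝ) ^ (⌊(Q : ℝ) ^ 9 * (Real.log n - y)⌋.natAbs) *
          Real.exp (-(((Q : ℝ) ^ 9 * (Real.log n - y)) ^ 2))) := by ring
      _ ≤ ((n : ℝ) * ‖a n‖ ^ 2) * (4 * Real.exp (-(((Q : ℝ) ^ 9 * (Real.log n - y)) ^ 2 / 2))) :=
          mul_le_mul_of_nonneg_left h8 (by positivity)
      _ = 4 * ((n : ℝ) * ‖a n‖ ^ 2 *
          Real.exp (-(((Q : ℝ) ^ 9 * (Real.log n - y)) ^ 2 / 2))) := by ring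
  have h3 := Finset.sum_le_sum h2
  rw [← Finset.mul_sum, Finset.sum_fiberwise_of_maps_to
    (fun n hn => Finset.mem_image_of_mem j hn)] at h3
  calc 4 * ∑ i ∈ s.image j, ∑ p ∈ PC Q, (2 : ℝ) ^ i.natAbs *
        ‖∑ n ∈ s.filter (fun n => j n = i), b n * p.2 (n : ZMod p.1)‖ ^ 2
      ≤ 4 * (4 * C / ((Q : ℝ) ^ 9 * Real.log x) * ∑ n ∈ s, (n : ℝ) * ‖a n‖ ^ 2 *
        Real.exp (-(((Q : ℝ) ^ 9) ^ 2 * (y - Real.log n) ^ 2 / 2))) :=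
        mul_le_mul_of_nonneg_left h3 (by norm_num)
    _ = 16 * C / ((Q : ℝ) ^ 9 * Real.log x) * ∑ n ∈ s, (n : ℝ) * ‖a n‖ ^ 2 *
        Real.exp (-(((Q : ℝ) ^ 9) ^ 2 * (y - Real.log n) ^ 2 / 2)) := by ring

/-- **Hybrid large sieve over primes.** Proof: `gauss_interval` with `T = Q^9`, `a i = log n`
(`n^(-iv) = exp(-i v log n)`, `n ≥ 1`), sum over `p`, `S5_point`, and
`∫ e^(-T² (y - log n)²/2) dy = √(2π)/T ≤ 3/T`: the total is at most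
`3 T² · C/(T log x) · 3/T ∑ n |a_n|²`. -/
theorem hybrid : ∃ C K : ℝ, 0 < C ∧ ∀ Q : ℕ, K ≤ Q → ∀ x : ℝ, (Q : ℝ) ^ 100 ≤ x →
    ∀ s : Finset ℕ, (∀ n ∈ s, n.Prime ∧ x ≤ n) → ∀ a : ℕ → ℂ,
    ∑ p ∈ PC Q, ∫ v in (-(Q : ℝ) ^ 9)..((Q : ℝ) ^ 9), ‖∑ n ∈ s, a n * p.2 (n : ZMod p.1) *
      (n : ℂ) ^ (-(v * Complex.I))‖ ^ 2 ≤
      C / Real.log x * ∑ n ∈ s, (n : ℝ) * ‖a n‖ ^ 2 := by
  classical
  obtain ⟨C, K, hC, h⟩ := S5_point
  refine ⟨9 * C, max K 2, by positivity, ?_⟩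
  intro Q hQK x hx s hs a
  have hQ1 : K ≤ Q := (le_max_left _ _).trans hQK
  have hQ2 : (2 : ℝ) ≤ Q := (le_max_right _ _).trans hQK
  have hQn : 2 ≤ Q := by exact_mod_cast hQ2
  have hQ0 : (0 : ℝ) < Q := by linarith
  have hlog := (s5_num hQn hx).1
  have hT : (0 : ℝ) < (Q : ℝ) ^ 9 := by positivity
  have h1 : ∀ p ∈ PC Q, ∫ v in (-(Q : ℝ) ^ 9)..((Q : ℝ) ^ 9), ‖∑ n ∈ s, a n * p.2 (n : ZMod p.1) *
      (n : ℂ) ^ (-(v * Complex.I))‖ ^ 2 ≤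
      3 * ((Q : ℝ) ^ 9) ^ 2 * ∫ y : ℝ, ‖∑ n ∈ s, a n * p.2 (n : ZMod p.1) *
        Real.exp (-(((Q : ℝ) ^ 9) ^ 2 * (y - Real.log n) ^ 2 / 2))‖ ^ 2 := by
    intro p _
    have h2 := gauss_interval s (fun n : ℕ => Real.log n) (fun n => a n * p.2 (n : ZMod p.1))
      ((Q : ℝ) ^ 9) hT
    have h3 : ∀ v : ℝ, ‖∑ n ∈ s, a n * p.2 (n : ZMod p.1) * (n : ℂ) ^ (-(v * Complex.I))‖ ^ 2 =
        ‖∑ n ∈ s, a n * p.2 (n : ZMod p.1) * Complex.exp (-(v * Real.log n * Complex.I))‖ ^ 2 := by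
      intro v
      congr 2
      apply Finset.sum_congr rfl
      intro n hn
      congr 1
      have hn0 : (n : ℂ) ≠ 0 := by exact_mod_cast (hs n hn).1.ne_zero
      rw [Complex.cpow_def_of_ne_zero hn0]
      congr 1
      rw [Complex.ofReal_log (by positivity)]
      push_cast
      ring
    simp only [h3]
    exact h2
  refine (Finset.sum_le_sum h1).trans ?_
  rw [← Finset.mul_sum, ← MeasureTheory.integral_finset_sum]
  · have hint : ∀ n : ℕ, MeasureTheory.Integrable (fun y : ℝ => (n : ℝ) * ‖a n‖ ^ 2 *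
        Real.exp (-(((Q : ℝ) ^ 9) ^ 2 * (y - Real.log n) ^ 2 / 2))) := by
      intro n
      apply MeasureTheory.Integrable.const_mul
      have h3 := (integrable_exp_neg_mul_sq
        (show (0 : ℝ) < ((Q : ℝ) ^ 9) ^ 2 / 2 by positivity)).comp_sub_right (Real.log n)
      refine h3.congr (Filter.Eventually.of_forall fun y => ?_)
      show Real.exp (-(((Q : ℝ) ^ 9) ^ 2 / 2) * (y - Real.log n) ^ 2) = _
      congr 1
      ring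
    have hval : ∀ n : ℕ, ∫ y : ℝ, (n : ℝ) * ‖a n‖ ^ 2 *
        Real.exp (-(((Q : ℝ) ^ 9) ^ 2 * (y - Real.log n) ^ 2 / 2)) ≤
        (n : ℝ) * ‖a n‖ ^ 2 * (3 / (Q : ℝ) ^ 9) := by
      intro n
      rw [MeasureTheory.integral_const_mul]
      apply mul_le_mul_of_nonneg_left _ (by positivity)
      have h3 : ∫ y : ℝ, Real.exp (-(((Q : ℝ) ^ 9) ^ 2 * (y - Real.log n) ^ 2 / 2)) =
          ∫ y : ℝ, Real.exp (-(((Q : ℝ) ^ 9) ^ 2 / 2) * y ^ 2) := by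
        rw [← MeasureTheory.integral_sub_right_eq_self
          (fun y : ℝ => Real.exp (-(((Q : ℝ) ^ 9) ^ 2 / 2) * y ^ 2)) (Real.log n)]
        congr 1
        ext y
        congr 1
        ring
      rw [h3, integral_gaussian]
      rw [Real.sqrt_le_left (by positivity), div_pow, div_le_div_iff₀ (by positivity)
        (by positivity)]
      have h4 := Real.pi_lt_d2
      have h5 : (0 : ℝ) < ((Q : ℝ) ^ 9) ^ 2 := by positivity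
      nlinarith
    calc 3 * ((Q : ℝ) ^ 9) ^ 2 * ∫ y : ℝ, ∑ p ∈ PC Q, ‖∑ n ∈ s, a n * p.2 (n : ZMod p.1) *
          Real.exp (-(((Q : ℝ) ^ 9) ^ 2 * (y - Real.log n) ^ 2 / 2))‖ ^ 2
        ≤ 3 * ((Q : ℝ) ^ 9) ^ 2 * ∫ y : ℝ, C / ((Q : ℝ) ^ 9 * Real.log x) *
          ∑ n ∈ s, (n : ℝ) * ‖a n‖ ^ 2 *
          Real.exp (-(((Q : ℝ) ^ 9) ^ 2 * (y - Real.log n) ^ 2 / 2)) := by
          apply mul_le_mul_of_nonneg_left _ (by positivity)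
          apply MeasureTheory.integral_mono
          · apply MeasureTheory.integrable_finset_sum
            intro p _
            exact (gauss_integrable s (fun n : ℕ => Real.log n)
              (fun n => a n * p.2 (n : ZMod p.1)) ((Q : ℝ) ^ 9) hT).2
          · exact (MeasureTheory.integrable_finset_sum _ fun n _ => hint n).const_mul _
          · intro y
            exact h Q hQ1 x hx s hs a y
      _ ≤ 3 * ((Q : ℝ) ^ 9) ^ 2 * (C / ((Q : ℝ) ^ 9 * Real.log x) *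
          ∑ n ∈ s, (n : ℝ) * ‖a n‖ ^ 2 * (3 / (Q : ℝ) ^ 9)) := by
          apply mul_le_mul_of_nonneg_left _ (by positivity)
          rw [MeasureTheory.integral_const_mul]
          apply mul_le_mul_of_nonneg_left _ (by positivity)
          rw [MeasureTheory.integral_finset_sum _ fun n _ => hint n]
          exact Finset.sum_le_sum fun n _ => hval n
      _ = 9 * C / Real.log x * ∑ n ∈ s, (n : ℝ) * ‖a n‖ ^ 2 := by
          rw [← Finset.sum_mul]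
          field_simp
          ring
  · intro p _
    exact (gauss_integrable s (fun n : ℕ => Real.log n)
      (fun n => a n * p.2 (n : ZMod p.1)) ((Q : ℝ) ^ 9) hT).2

end Pool.Agent.Lib.H18Q
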