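import Mathlib

/-!
# Project H18Q, chunk Z7: counting points by measure
-/

open Finset

namespace Pool.Agent.Lib.H18Q

/-- Let `γ i`, `i ∈ S`, be reals with weights `m i ≥ 0`, `lam > 0`, all `[γ i - lam, γ i + lam]`
contained in `[a, b]`; suppose the points within `lam` of any `v` have total weight at most `B`,
and `g ≥ 0` is continuous with `g v ≥ 1` whenever some `γ i` is within `lam` of `v ∈ [a, b]`. Then
`∑ m i ≤ B/(2 lam) ∫_a^b g`.

Proof: `2 lam m i = ∫_a^b m i 1[|γ i - v| ≤ lam] dv`; sum over `i`; the integrand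
`∑_i m i 1[|γ i - v| ≤ lam]` is at most `B` and is `0` if no `γ i` is within `lam` of `v`, so it is at
most `B g(v)`. -/
theorem count_by_measure {ι : Type*} (S : Finset ι) (γ m : ι → ℝ) (lam a b B : ℝ) (g : ℝ → ℝ)
    (hlam : 0 < lam) (hm : ∀ i ∈ S, 0 ≤ m i) (hB : 0 ≤ B)
    (ha : ∀ i ∈ S, a ≤ γ i - lam) (hb : ∀ i ∈ S, γ i + lam ≤ b) (hab : a ≤ b)
    (hloc : ∀ v ∈ Set.Icc a b, ∑ i ∈ S with |γ i - v| ≤ lam, m i ≤ B)
    (hg : Continuous g) (hg0 : ∀ v, 0 ≤ g v)
    (hg1 : ∀ v ∈ Set.Icc a b, (∃ i ∈ S, |γ i - v| ≤ lam) → 1 ≤ g v) :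
    ∑ i ∈ S, m i ≤ B / (2 * lam) * ∫ v in a..b, g v := by
  classical
  have hind : ∀ i v, (if |γ i - v| ≤ lam then m i else 0) =
      (Set.Icc (γ i - lam) (γ i + lam)).indicator (fun _ => m i) v := by
    intro i v
    rw [Set.indicator_apply]
    have h1 : |γ i - v| ≤ lam ↔ v ∈ Set.Icc (γ i - lam) (γ i + lam) := by
      rw [abs_le, Set.mem_Icc]
      constructor
      · rintro ⟨h1, h2⟩
        constructor <;> linarith
      · rintro ⟨h1, h2⟩
        constructor <;> linarith
    by_cases h : |γ i - v| ≤ lam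
    · rw [if_pos h, if_pos (h1.1 h)]
    · rw [if_neg h, if_neg fun h2 => h (h1.2 h2)]
  have hint : ∀ i, MeasureTheory.Integrable (fun v : ℝ => if |γ i - v| ≤ lam then m i else 0) := by
    intro i
    simp only [hind]
    rw [MeasureTheory.integrable_indicator_iff measurableSet_Icc]
    exact MeasureTheory.integrableOn_const (by rw [Real.volume_Icc]; exact ENNReal.ofReal_ne_top)
  have hval : ∀ i ∈ S, ∫ v in a..b, (if |γ i - v| ≤ lam then m i else 0) = 2 * lam * m i := by
    intro i hi
    rw [intervalIntegral.integral_of_le hab, ← MeasureTheory.integral_Icc_eq_integral_Ioc]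
    simp only [hind]
    rw [MeasureTheory.setIntegral_indicator measurableSet_Icc]
    have h1 : Set.Icc a b ∩ Set.Icc (γ i - lam) (γ i + lam) = Set.Icc (γ i - lam) (γ i + lam) :=
      Set.inter_eq_right.2 (Set.Icc_subset_Icc (ha i hi) (hb i hi))
    rw [h1, MeasureTheory.setIntegral_const, MeasureTheory.measureReal_def, Real.volume_Icc,
      ENNReal.toReal_ofReal (by linarith), smul_eq_mul]
    ring
  have hsum : ∑ i ∈ S, 2 * lam * m i = ∫ v in a..b, ∑ i ∈ S, (if |γ i - v| ≤ lam then m i else 0) := by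
    rw [intervalIntegral.integral_finsetSum fun i _ => (hint i).intervalIntegrable]
    exact sum_congr rfl fun i hi => (hval i hi).symm
  have hle : ∫ v in a..b, ∑ i ∈ S, (if |γ i - v| ≤ lam then m i else 0) ≤ ∫ v in a..b, B * g v := by
    refine intervalIntegral.integral_mono_on hab ?_ ?_ fun v hv => ?_
    · exact (MeasureTheory.integrable_finsetSum _ fun i _ => hint i).intervalIntegrable
    · exact (continuous_const.mul hg).intervalIntegrable _ _
    · by_cases h : ∃ i ∈ S, |γ i - v| ≤ lam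
      · have h1 := hloc v hv
        rw [sum_filter] at h1
        exact h1.trans (le_mul_of_one_le_right hB (hg1 v hv h))
      · rw [sum_eq_zero]
        · exact mul_nonneg hB (hg0 v)
        · intro i hi
          exact if_neg fun h2 => h ⟨i, hi, h2⟩
  rw [intervalIntegral.integral_const_mul, ← hsum, ← mul_sum] at hle
  rw [div_mul_eq_mul_div, le_div_iff₀ (by positivity)]
  linarith

end Pool.Agent.Lib.H18Q
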