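import Pool.Agent.Lib.H18Q.D1
import Pool.Agent.Lib.H18Q.S5
import Pool.Agent.Lib.H18Q.Z7
import Pool.Agent.Lib.H68T.ZF3

/-!
# Project H18Q, chunk ZN: log-free zero density
-/

open Finset

namespace Pool.Agent.Lib.H18Q

open ArithmeticFunction Pool.Agent.Lib.H68T

theorem PP_continuous (c : ℕ → ℂ) (lam : ℝ) (k K1 : ℕ) : Continuous (PP c lam k K1) := by
  unfold PP
  refine continuous_finsetSum _ fun n hn => ?_
  have hn0 : (n : ℂ) ≠ 0 := by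
    have h1 := (mem_filter.1 hn).2
    exact_mod_cast h1.ne_zero
  refine continuous_const.mul ?_
  exact Continuous.const_cpow (by fun_prop) (Or.inl hn0)

/-- The mean square of the sums over primes: for `K1 ≥ C3 κ`, `lam = κ/log Q ≤ th0`,
`∑_p ∫_{|v| ≤ Q^9} |PP|² ≤ C K1 lam`... in the form `≤ C K1²` (weak, enough) times `lam`.

Proof. `hybrid` with `x = xlo K1 lam`; `x ≥ Q^100` since `log x = (K1 - 1) log Q/(2^20 κ) ≥ 100 log Q`
for `K1 ≥ 2^28 κ`, `κ ≥ 1` (so `C3 ≥ 2^28`). `∑ n |log n Jk(n)|² ≤ max(n Jk(n)) max (log n)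
∑ log n Jk(n) ≤ lam · (128 K1/lam) · C = 128 C K1` (`Jk_le`; primes: `Λ n = log n`, `Jk_sum`;
`log n ≤ log yhi = 128 K1/lam`). And `1/log x = 2^20 lam/(K1 - 1) ≤ 2^21 lam/K1`. Total
`≤ C' lam ≤ C' lam K1`. -/
theorem PP_mean : ∃ C C3 K : ℝ, 0 < C ∧ 1 ≤ C3 ∧ ∀ Q : ℕ, K ≤ Q → ∀ κ : ℝ, 1 ≤ κ →
    κ ≤ th0 * Real.log Q → ∀ K1 : ℕ, C3 * κ ≤ K1 → ∀ k : ℕ,
    ∑ p ∈ PC Q, ∫ v in (-(Q : ℝ) ^ 9)..((Q : ℝ) ^ 9),
      ‖PP (fun n => p.2 (n : ZMod p.1)) (κ / Real.log Q) k K1 v‖ ^ 2 ≤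
      C * (κ / Real.log Q) := by
  obtain ⟨Ch, Kh, hCh, hyb⟩ := hybrid
  obtain ⟨CJ, hCJ, hJ⟩ := Jk_sum
  refine ⟨Ch * CJ * 2 ^ 28, 2 ^ 28, max Kh 3, by positivity, by norm_num, ?_⟩
  intro Q hQ κ hκ hκθ K1 hK1 k
  have hQ3 : (3 : ℝ) ≤ Q := (le_max_right _ _).trans hQ
  have hL : 0 < Real.log Q := Real.log_pos (by linarith)
  set lam : ℝ := κ / Real.log Q with hlam
  have hlam0 : 0 < lam := by positivity
  have hlam1 : lam ≤ th0 := by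
    rw [hlam, div_le_iff₀ hL]
    exact hκθ
  have hth : th0 ≤ 1 := by
    unfold th0
    norm_num
  have hlamle : lam ≤ 1 := hlam1.trans hth
  have hK2 : (2 : ℝ) ^ 28 ≤ K1 := by nlinarith
  have hK1pos : (0 : ℝ) < K1 := by linarith [pow_pos (two_pos : (0:ℝ) < 2) 28]
  have hlogx : Real.log (xlo K1 lam) = (K1 - 1) / (2 ^ 20 * lam) := by
    unfold xlo
    rw [Real.log_exp]
  have hlogx2 : (K1 : ℝ) / (2 ^ 21 * lam) ≤ Real.log (xlo K1 lam) := by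
    rw [hlogx, div_le_div_iff₀ (by positivity) (by positivity)]
    have : (K1 : ℝ) ≤ (K1 - 1) * 2 := by linarith
    calc (K1 : ℝ) * (2 ^ 20 * lam) ≤ ((K1 - 1) * 2) * (2 ^ 20 * lam) :=
          mul_le_mul_of_nonneg_right this (by positivity)
      _ = (K1 - 1) * (2 ^ 21 * lam) := by ring
  have hlogpos : 0 < Real.log (xlo K1 lam) := lt_of_lt_of_le (by positivity) hlogx2
  have hx : (Q : ℝ) ^ 100 ≤ xlo K1 lam := by
    unfold xlo
    rw [← Real.exp_log (show (0 : ℝ) < (Q : ℝ) ^ 100 by positivity), Real.log_pow,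
      Real.exp_le_exp, le_div_iff₀ (by positivity)]
    have h1 : ((100 : ℕ) : ℝ) * Real.log Q * (2 ^ 20 * lam) = 100 * 2 ^ 20 * κ := by
      rw [hlam]
      push_cast
      field_simp
    rw [h1]
    nlinarith
  have hs : ∀ n ∈ PI (xlo K1 lam) (yhi K1 lam), n.Prime ∧ xlo K1 lam ≤ n := by
    intro n hn
    unfold PI at hn
    rw [mem_filter, mem_Icc] at hn
    exact ⟨hn.2, Nat.ceil_le.1 hn.1.1⟩
  have h1 := hyb Q ((le_max_left _ _).trans hQ) (xlo K1 lam) hx _ hs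
    (fun n => ((Real.log n * Jk lam k n : ℝ) : ℂ))
  have h2 : ∑ n ∈ PI (xlo K1 lam) (yhi K1 lam), (n : ℝ) * ‖((Real.log n * Jk lam k n : ℝ) : ℂ)‖ ^ 2 ≤
      128 * K1 * CJ := by
    have h3 : ∀ n ∈ PI (xlo K1 lam) (yhi K1 lam),
        (n : ℝ) * ‖((Real.log n * Jk lam k n : ℝ) : ℂ)‖ ^ 2 ≤ 128 * K1 * (Λ n * Jk lam k n) := by
      intro n hn
      have hp := (hs n hn).1
      have hn1 : (1 : ℝ) ≤ n := by exact_mod_cast hp.one_lt.le
      have hlogn : 0 ≤ Real.log n := Real.log_nonneg hn1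
      have hJ0 := Jk_nonneg lam k n hlam0.le
      have hJ1 := Jk_le lam k n hlam0
      have hny : (n : ℝ) ≤ yhi K1 lam := by
        unfold PI at hn
        rw [mem_filter, mem_Icc] at hn
        exact (Nat.le_floor_iff (by unfold yhi; positivity)).1 hn.1.2
      have hlogn2 : Real.log n ≤ 128 * K1 / lam := by
        have := Real.log_le_log (by linarith) hny
        unfold yhi at this
        rwa [Real.log_exp] at this
      rw [Complex.norm_real, Real.norm_eq_abs, sq_abs, vonMangoldt_apply_prime hp]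
      calc (n : ℝ) * (Real.log n * Jk lam k n) ^ 2
          = (n * Jk lam k n) * (Real.log n * (Real.log n * Jk lam k n)) := by ring
        _ ≤ lam * ((128 * K1 / lam) * (Real.log n * Jk lam k n)) := by
            apply mul_le_mul hJ1 _ (by positivity) hlam0.le
            exact mul_le_mul_of_nonneg_right hlogn2 (by positivity)
        _ = 128 * K1 * (Real.log n * Jk lam k n) := by field_simp
    refine (Finset.sum_le_sum h3).trans ?_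
    rw [← Finset.mul_sum]
    exact mul_le_mul_of_nonneg_left (hJ lam k _ hlam0 hlamle) (by positivity)
  have h4 : Ch / Real.log (xlo K1 lam) ≤ Ch * (2 ^ 21 * lam / K1) := by
    rw [div_eq_mul_inv]
    refine mul_le_mul_of_nonneg_left ?_ hCh.le
    rw [← one_div, div_le_div_iff₀ hlogpos hK1pos, one_mul]
    rw [div_le_iff₀ (by positivity)] at hlogx2
    linarith
  calc ∑ p ∈ PC Q, ∫ v in (-(Q : ℝ) ^ 9)..((Q : ℝ) ^ 9),
        ‖PP (fun n => p.2 (n : ZMod p.1)) lam k K1 v‖ ^ 2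
      ≤ Ch / Real.log (xlo K1 lam) *
        ∑ n ∈ PI (xlo K1 lam) (yhi K1 lam), (n : ℝ) * ‖((Real.log n * Jk lam k n : ℝ) : ℂ)‖ ^ 2 := h1
    _ ≤ Ch * (2 ^ 21 * lam / K1) * (128 * K1 * CJ) :=
        mul_le_mul h4 h2 (Finset.sum_nonneg fun _ _ => by positivity) (by positivity)
    _ = Ch * CJ * 2 ^ 28 * lam := by
        field_simp
        ring

/-- **Log-free zero density.** `∑_{p ∈ PC Q} #{zeros of L(s, χ_p), Re ≥ 1 - κ/log Q, |Im| ≤ Q^8} ≤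
C exp (C κ)`.

Proof. Let `δ` be the constant of `zf3_low`; `θ = min th0 δ` (then for `p0` all zeros `ρ` of
`Lp p0 = gl2_Z` with `Re ρ ≥ 1 - κ/log Q` have `|Im ρ| > 1`; zeros of `gl2_Z` are zeros of `ζ`,
`lab3_Z_zero`). `lam = κ/log Q`, `K1 = ⌈C3 κ⌉` with the larger `C3` of `detect_primes`, `PP_mean`;
`g_p(v) = 16 · 4096^(2 K1) ∑_{k < 2 K1} ‖PP χ_p lam k K1 v‖²` (for `p = p0` too). `count_by_measure`
with `S = ZR (Lp p) (1 - lam) (Q^8)`, `γ = Im`, `m = od`, `[a, b] = [-Q^9, Q^9]`, `B = C1 lam log Q =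
C1 κ` from `ldat_box` (`LDat_Lp`, `ℓ = log Q`, `lam ≤ th0 ≤ 1/12`); the hypothesis `hg1` is
`detect_primes` (if `|Im ρ - v| ≤ lam`, and for `p0`: `|v| ≥ 1 - lam ≥ 1/2`). So
`∑_p ∑_ρ od ≤ (C1 κ/(2 lam)) 16 · 4096^(2 K1) ∑_{k < 2 K1} ∑_p ∫ ‖PP‖² ≤
(C1 κ/(2 lam)) 16 · 4096^(2 K1) 2 K1 C lam ≤ C' κ K1 4096^(2 K1)`, and `K1 ≤ C3 κ + 1 ≤ 2 C3 κ`,
`κ ≤ e^κ`. -/
theorem zero_density : ∃ C θ K : ℝ, 1 ≤ C ∧ 0 < θ ∧ ∀ Q : ℕ, K ≤ Q → ∀ κ : ℝ, 1 ≤ κ →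
    κ ≤ θ * Real.log Q →
    ∑ p ∈ PC Q, ∑ ρ ∈ ZR (Lp p) (1 - κ / Real.log Q) ((Q : ℝ) ^ 8), (od (Lp p) ρ : ℝ) ≤
      C * Real.exp (C * κ) := by
  obtain ⟨δ, hδ, hlow⟩ := zf3_low
  obtain ⟨C0, KL, hC0, hLD⟩ := LDat_Lp
  obtain ⟨C1, hC1, hbox⟩ := ldat_box C0 hC0
  obtain ⟨C3d, Kd, hC3d, hdet⟩ := detect_primes
  obtain ⟨Cm, C3m, Km, hCm, hC3m, hmean⟩ := PP_mean
  set C3 : ℝ := max C3d C3m with hC3
  have hC3one : 1 ≤ C3 := hC3d.trans (le_max_left _ _)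
  have hth0 : (0 : ℝ) < th0 := by
    unfold th0
    norm_num
  refine ⟨1 + 32 * C1 * Cm * C3 + 40 * C3 + 2, min th0 δ, max (max KL Kd) (max Km 3), ?_,
    lt_min hth0 hδ, ?_⟩
  · have : 0 ≤ 32 * C1 * Cm * C3 := by positivity
    linarith
  intro Q hQ κ hκ hκθ
  have hQL : KL ≤ Q := ((le_max_left _ _).trans (le_max_left _ _)).trans hQ
  have hQd : Kd ≤ Q := ((le_max_right _ _).trans (le_max_left _ _)).trans hQ
  have hQm : Km ≤ Q := ((le_max_left _ _).trans (le_max_right _ _)).trans hQ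
  have hQ3 : (3 : ℝ) ≤ Q := ((le_max_right _ _).trans (le_max_right _ _)).trans hQ
  have hL : 0 < Real.log Q := Real.log_pos (by linarith)
  set L : ℝ := Real.log Q with hLdef
  have hκth : κ ≤ th0 * L := hκθ.trans (mul_le_mul_of_nonneg_right (min_le_left _ _) hL.le)
  have hκδ : κ ≤ δ * L := hκθ.trans (mul_le_mul_of_nonneg_right (min_le_right _ _) hL.le)
  set lam : ℝ := κ / L with hlam
  have hlam0 : 0 < lam := by positivity
  have hlam1 : lam ≤ th0 := by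
    rw [hlam, div_le_iff₀ hL]
    exact hκth
  have hlamδ : lam ≤ δ := by
    rw [hlam, div_le_iff₀ hL]
    exact hκδ
  have hth1 : th0 ≤ 1 / 12 := by
    unfold th0
    norm_num
  have hlam12 : lam ≤ 1 / 12 := hlam1.trans hth1
  have hL8 : 8 ≤ L := by
    have h1 : 1 ≤ th0 * L := hκ.trans hκth
    have h2 : th0 * L ≤ 1 / 12 * L := mul_le_mul_of_nonneg_right hth1 hL.le
    linarith
  have hlamL : lam * L = κ := by
    rw [hlam]
    field_simp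
  have hinv : 1 / L ≤ lam := by
    rw [hlam]
    exact div_le_div_of_nonneg_right hκ hL.le
  obtain ⟨K1, hK1a, hK1b⟩ : ∃ K1 : ℕ, C3 * κ ≤ K1 ∧ (K1 : ℝ) ≤ 2 * C3 * κ := by
    refine ⟨⌈C3 * κ⌉₊, Nat.le_ceil _, ?_⟩
    have h1 := (Nat.ceil_lt_add_one (show 0 ≤ C3 * κ by positivity)).le
    have h2 : 1 ≤ C3 * κ := one_le_mul_of_one_le_of_one_le hC3one hκ
    linarith
  set A : ℝ := 16 * 4096 ^ (2 * K1) with hA
  have hA0 : 0 < A := by positivity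
  have hQ9 : (0 : ℝ) ≤ (Q : ℝ) ^ 9 := by positivity
  have hQ8 : (Q : ℝ) ^ 8 + 1 ≤ (Q : ℝ) ^ 9 := by
    have h1 : (1 : ℝ) ≤ (Q : ℝ) ^ 8 := one_le_pow₀ (by linarith)
    have h2 : (Q : ℝ) ^ 9 = (Q : ℝ) ^ 8 * Q := by ring
    rw [h2]
    nlinarith
  have hQ10 : (Q : ℝ) ^ 9 ≤ (Q : ℝ) ^ 10 := pow_le_pow_right₀ (by linarith) (by norm_num)
  have key : ∀ p ∈ PC Q, ∑ ρ ∈ ZR (Lp p) (1 - lam) ((Q : ℝ) ^ 8), (od (Lp p) ρ : ℝ) ≤
      C1 * (lam * L) / (2 * lam) * ∫ v in (-(Q : ℝ) ^ 9)..((Q : ℝ) ^ 9),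
        A * ∑ k ∈ range (2 * K1), ‖PP (fun n => p.2 (n : ZMod p.1)) lam k K1 v‖ ^ 2 := by
    intro p hp
    have hD := hLD Q hQL p hp
    have hne : ∃ c, Lp p c ≠ 0 := ⟨2, fun h => absurd (hD.zre 2 h) (by norm_num)⟩
    have hmem : ∀ ρ ∈ ZR (Lp p) (1 - lam) ((Q : ℝ) ^ 8), Lp p ρ = 0 ∧ 1 - lam ≤ ρ.re ∧
        |ρ.im| ≤ (Q : ℝ) ^ 8 := by
      intro ρ hρ
      obtain ⟨h1, h2, -, h3⟩ := (mem_ZR hD.diff hne).1 hρ
      exact ⟨h1, h2, h3⟩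
    refine count_by_measure (ZR (Lp p) (1 - lam) ((Q : ℝ) ^ 8)) (fun ρ => ρ.im)
      (fun ρ => (od (Lp p) ρ : ℝ)) lam (-(Q : ℝ) ^ 9) ((Q : ℝ) ^ 9) (C1 * (lam * L)) _ hlam0
      (fun _ _ => Nat.cast_nonneg _) (by positivity) ?_ ?_ (by linarith) ?_ ?_ ?_ ?_
    · intro ρ hρ
      have h1 := (abs_le.1 (hmem ρ hρ).2.2).1
      show -(Q : ℝ) ^ 9 ≤ ρ.im - lam
      linarith
    · intro ρ hρ
      have h1 := (abs_le.1 (hmem ρ hρ).2.2).2
      show ρ.im + lam ≤ (Q : ℝ) ^ 9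
      linarith
    · intro v hv
      refine hbox L ((Q : ℝ) ^ 10) (Lp p) hL8 hD lam v hinv hlam12
        ((abs_le.2 ⟨hv.1, hv.2⟩).trans hQ10) _ ?_
      intro ρ hρ
      rw [mem_filter] at hρ
      exact ⟨(hmem ρ hρ.1).1, (hmem ρ hρ.1).2.1, hρ.2⟩
    · refine continuous_const.mul (continuous_finsetSum _ fun k _ => ?_)
      exact ((PP_continuous _ _ _ _).norm).pow 2
    · intro v
      exact mul_nonneg hA0.le (Finset.sum_nonneg fun _ _ => sq_nonneg _)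
    · rintro v hv ⟨ρ, hρ, hρv⟩
      obtain ⟨h1, h2, h3⟩ := hmem ρ hρ
      have hv9 : |v| ≤ (Q : ℝ) ^ 9 := abs_le.2 ⟨hv.1, hv.2⟩
      have hp0 : p = p0 → 1 / 2 ≤ |v| := by
        rintro rfl
        rw [Lp_p0] at h1
        have h4 : 1 < |ρ.im| := by
          by_contra h5
          push Not at h5
          have := hlow ρ (lab3_Z_zero ρ h1) h5
          linarith
        have h6 : |ρ.im| - |v| ≤ |ρ.im - v| := abs_sub_abs_le_abs_sub _ _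
        have h7 : |ρ.im - v| ≤ lam := hρv
        linarith
      obtain ⟨k, hk1, hk2, hk3⟩ := hdet Q hQd p hp κ v hκ hκth hv9 hp0 K1
        ((mul_le_mul_of_nonneg_right (le_max_left _ _) (by linarith)).trans hK1a)
        ⟨ρ, h1, h2, hρv⟩
      have h8 : 1 ≤ A * ‖PP (fun n => p.2 (n : ZMod p.1)) lam k K1 v‖ ^ 2 := by
        have h9 : (1 / 4 * (1 / 4096 : ℝ) ^ K1) ^ 2 ≤
            ‖PP (fun n => p.2 (n : ZMod p.1)) lam k K1 v‖ ^ 2 :=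
          pow_le_pow_left₀ (by positivity) hk3 2
        have h10 : A * (1 / 4 * (1 / 4096 : ℝ) ^ K1) ^ 2 = 1 := by
          have h11 : (4096 : ℝ) ^ K1 * (1 / 4096 : ℝ) ^ K1 = 1 := by
            rw [← mul_pow]
            norm_num
          calc A * (1 / 4 * (1 / 4096 : ℝ) ^ K1) ^ 2
              = ((4096 : ℝ) ^ K1 * (1 / 4096 : ℝ) ^ K1) ^ 2 := by
                rw [hA, two_mul, pow_add]
                ring
            _ = 1 := by rw [h11, one_pow]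
        calc (1 : ℝ) = A * (1 / 4 * (1 / 4096 : ℝ) ^ K1) ^ 2 := h10.symm
          _ ≤ _ := mul_le_mul_of_nonneg_left h9 hA0.le
      refine h8.trans (mul_le_mul_of_nonneg_left ?_ hA0.le)
      exact Finset.single_le_sum (f := fun k =>
        ‖PP (fun n => p.2 (n : ZMod p.1)) lam k K1 v‖ ^ 2) (fun _ _ => sq_nonneg _)
        (mem_range.2 (by omega))
  have hint : ∀ p ∈ PC Q, ∫ v in (-(Q : ℝ) ^ 9)..((Q : ℝ) ^ 9),
        A * ∑ k ∈ range (2 * K1), ‖PP (fun n => p.2 (n : ZMod p.1)) lam k K1 v‖ ^ 2 =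
      A * ∑ k ∈ range (2 * K1), ∫ v in (-(Q : ℝ) ^ 9)..((Q : ℝ) ^ 9),
        ‖PP (fun n => p.2 (n : ZMod p.1)) lam k K1 v‖ ^ 2 := by
    intro p _
    rw [intervalIntegral.integral_const_mul, intervalIntegral.integral_finsetSum]
    intro k _
    exact (((PP_continuous _ _ _ _).norm).pow 2).intervalIntegrable _ _
  have hsum : ∑ p ∈ PC Q, ∑ k ∈ range (2 * K1), ∫ v in (-(Q : ℝ) ^ 9)..((Q : ℝ) ^ 9),
        ‖PP (fun n => p.2 (n : ZMod p.1)) lam k K1 v‖ ^ 2 ≤ (2 * K1 : ℕ) * (Cm * lam) := by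
    rw [Finset.sum_comm]
    have h1 : ∀ k ∈ range (2 * K1), ∑ p ∈ PC Q, ∫ v in (-(Q : ℝ) ^ 9)..((Q : ℝ) ^ 9),
        ‖PP (fun n => p.2 (n : ZMod p.1)) lam k K1 v‖ ^ 2 ≤ Cm * lam := by
      intro k _
      exact hmean Q hQm κ hκ hκth K1
        ((mul_le_mul_of_nonneg_right (le_max_right _ _) (by linarith)).trans hK1a) k
    refine (Finset.sum_le_sum h1).trans (le_of_eq ?_)
    rw [Finset.sum_const, card_range, nsmul_eq_mul]
  have htot : ∑ p ∈ PC Q, ∑ ρ ∈ ZR (Lp p) (1 - lam) ((Q : ℝ) ^ 8), (od (Lp p) ρ : ℝ) ≤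
      C1 * (lam * L) / (2 * lam) * (A * ((2 * K1 : ℕ) * (Cm * lam))) := by
    refine (Finset.sum_le_sum key).trans ?_
    rw [← Finset.mul_sum, Finset.sum_congr rfl hint, ← Finset.mul_sum]
    refine mul_le_mul_of_nonneg_left ?_ (by positivity)
    exact mul_le_mul_of_nonneg_left hsum hA0.le
  refine htot.trans ?_
  have e1 : C1 * (lam * L) / (2 * lam) * (A * ((2 * K1 : ℕ) * (Cm * lam))) =
      C1 * Cm * κ * K1 * A := by
    push_cast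
    rw [← hlamL]
    field_simp
  rw [e1]
  have hA1 : A ≤ 16 * Real.exp (40 * C3 * κ) := by
    rw [hA]
    refine mul_le_mul_of_nonneg_left ?_ (by norm_num)
    have h1 : (4096 : ℝ) ≤ Real.exp 10 := by
      have h2 : Real.exp 10 = Real.exp 1 ^ 10 := by
        rw [← Real.exp_nat_mul]
        norm_num
      have h3 : (2.7 : ℝ) ≤ Real.exp 1 := by
        have := Real.exp_one_gt_d9
        linarith
      rw [h2]
      calc (4096 : ℝ) ≤ 2.7 ^ 10 := by norm_num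
        _ ≤ Real.exp 1 ^ 10 := pow_le_pow_left₀ (by norm_num) h3 10
    calc (4096 : ℝ) ^ (2 * K1) ≤ Real.exp 10 ^ (2 * K1) := pow_le_pow_left₀ (by norm_num) h1 _
      _ = Real.exp ((2 * K1 : ℕ) * 10) := by rw [← Real.exp_nat_mul]
      _ ≤ Real.exp (40 * C3 * κ) := by
        rw [Real.exp_le_exp]
        push_cast
        linarith
  have hκe : κ ≤ Real.exp κ := by
    have := Real.add_one_le_exp κ
    linarith
  have hκ0 : 0 ≤ κ := by linarith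
  calc C1 * Cm * κ * K1 * A ≤ C1 * Cm * κ * (2 * C3 * κ) * (16 * Real.exp (40 * C3 * κ)) := by
        apply mul_le_mul _ hA1 hA0.le (by positivity)
        exact mul_le_mul_of_nonneg_left hK1b (by positivity)
    _ = (32 * C1 * Cm * C3) * ((κ * κ) * Real.exp (40 * C3 * κ)) := by ring
    _ ≤ (32 * C1 * Cm * C3) * ((Real.exp κ * Real.exp κ) * Real.exp (40 * C3 * κ)) := by
        refine mul_le_mul_of_nonneg_left ?_ (by positivity)
        refine mul_le_mul_of_nonneg_right ?_ (Real.exp_nonneg _)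
        exact mul_le_mul hκe hκe hκ0 (Real.exp_nonneg _)
    _ = (32 * C1 * Cm * C3) * Real.exp ((40 * C3 + 2) * κ) := by
        rw [← Real.exp_add, ← Real.exp_add]
        congr 2
        ring
    _ ≤ (1 + 32 * C1 * Cm * C3 + 40 * C3 + 2) *
          Real.exp ((1 + 32 * C1 * Cm * C3 + 40 * C3 + 2) * κ) := by
        have h0 : 0 ≤ 32 * C1 * Cm * C3 := by positivity
        apply mul_le_mul _ _ (Real.exp_nonneg _) (by positivity)
        · linarith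
        · rw [Real.exp_le_exp]
          exact mul_le_mul_of_nonneg_right (by linarith) hκ0

/-- The crude count of the zeros with `Re ρ ≥ 7/8`, `|Im ρ| ≤ Q^8` of one function.

Proof: with `lam = 1/16`, `s₀ = 1 + lam + i v`: a zero `ρ` (`Re ρ < 1`) with `Re ρ ≥ 7/8` and
`|Im ρ - v| ≤ 1/8` has `|ρ - s₀| ≤ sqrt((3/16)² + (1/8)²) < 1/4`, so `(lam/|s₀ - ρ|)² ≥ 1/16`, and by
`ldat_sum` (`LDat_Lp`) there are, with multiplicity, at most `16 C1 lam log Q = C1 log Q` such zeros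
for each `v`, `|v| ≤ Q^10`. The points `v = j/8`, `j` an integer, `|j| ≤ 8 Q^8 + 1`, serve all zeros.
`(16 Q^8 + 3) C1 log Q ≤ Q^9` for `Q` large. -/
theorem zero_crude : ∃ K : ℝ, ∀ Q : ℕ, K ≤ Q → ∀ p ∈ PC Q,
    ∑ ρ ∈ ZR (Lp p) (1 - 1 / 8) ((Q : ℝ) ^ 8), (od (Lp p) ρ : ℝ) ≤ (Q : ℝ) ^ 9 := by
  obtain ⟨C0, KL, hC0, hLD⟩ := LDat_Lp
  obtain ⟨C1, hC1, hsum⟩ := ldat_sum C0 hC0
  refine ⟨max (max KL (Real.exp 16)) ((38 * C1) ^ 2), ?_⟩
  intro Q hQ p hp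
  have hQL : KL ≤ Q := ((le_max_left _ _).trans (le_max_left _ _)).trans hQ
  have hQe : Real.exp 16 ≤ Q := ((le_max_right _ _).trans (le_max_left _ _)).trans hQ
  have hQC : (38 * C1) ^ 2 ≤ Q := (le_max_right _ _).trans hQ
  have hQ0 : (0 : ℝ) < Q := (Real.exp_pos _).trans_le hQe
  set L : ℝ := Real.log Q with hLdef
  have hL16 : 16 ≤ L := by
    have := Real.log_le_log (Real.exp_pos _) hQe
    rwa [Real.log_exp] at this
  have hQ16 : (16 : ℝ) ≤ Q := by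
    have := Real.add_one_le_exp (16 : ℝ)
    linarith
  have hQ1 : (1 : ℝ) ≤ Q := by linarith
  have hD := hLD Q hQL p hp
  have hne : ∃ c, Lp p c ≠ 0 := ⟨2, fun h => absurd (hD.zre 2 h) (by norm_num)⟩
  set Z := ZR (Lp p) (1 - 1 / 8) ((Q : ℝ) ^ 8) with hZ
  have hmem : ∀ ρ ∈ Z, Lp p ρ = 0 ∧ 7 / 8 ≤ ρ.re ∧ ρ.re < 1 ∧ |ρ.im| ≤ (Q : ℝ) ^ 8 := by
    intro ρ hρ
    obtain ⟨h1, h2, -, h3⟩ := (mem_ZR hD.diff hne).1 hρ
    exact ⟨h1, by linarith, hD.zre ρ h1, h3⟩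
  set J : Finset ℤ := Icc (-(8 * (Q : ℤ) ^ 8 + 1)) (8 * (Q : ℤ) ^ 8 + 1) with hJ
  have hmaps : ∀ ρ ∈ Z, ⌊8 * ρ.im⌋ ∈ J := by
    intro ρ hρ
    have h1 := abs_le.1 (hmem ρ hρ).2.2.2
    have h2 := Int.floor_le (8 * ρ.im)
    have h3 := Int.lt_floor_add_one (8 * ρ.im)
    rw [hJ, mem_Icc]
    constructor
    · have h4 : (-(8 * (Q : ℝ) ^ 8 + 1)) ≤ (⌊8 * ρ.im⌋ : ℝ) := by linarith
      exact_mod_cast h4
    · have h4 : (⌊8 * ρ.im⌋ : ℝ) ≤ 8 * (Q : ℝ) ^ 8 + 1 := by linarith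
      exact_mod_cast h4
  rw [← Finset.sum_fiberwise_of_maps_to hmaps]
  have hT : (Q : ℝ) ^ 8 + 1 ≤ (Q : ℝ) ^ 10 := by
    have h1 : (1 : ℝ) ≤ (Q : ℝ) ^ 8 := one_le_pow₀ hQ1
    have h2 : (Q : ℝ) ^ 10 = (Q : ℝ) ^ 8 * Q ^ 2 := by ring
    have h3 : (2 : ℝ) ≤ (Q : ℝ) ^ 2 := by nlinarith
    have h4 := mul_le_mul_of_nonneg_left h3 (zero_le_one.trans h1)
    rw [h2]
    linarith
  have hcell : ∀ j ∈ J, ∑ ρ ∈ Z with ⌊8 * ρ.im⌋ = j, (od (Lp p) ρ : ℝ) ≤ C1 * L := by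
    intro j hj
    rw [hJ, mem_Icc] at hj
    have hj1 : (-(8 * (Q : ℝ) ^ 8 + 1)) ≤ (j : ℝ) := by exact_mod_cast hj.1
    have hj2 : (j : ℝ) ≤ 8 * (Q : ℝ) ^ 8 + 1 := by exact_mod_cast hj.2
    have hv : |(j : ℝ) / 8| ≤ (Q : ℝ) ^ 10 := by
      rw [abs_le]
      constructor <;> linarith
    have h1 := hsum L ((Q : ℝ) ^ 10) (Lp p) (by linarith) hD (1 / 16) ((j : ℝ) / 8)
      (by rw [div_le_div_iff₀ (by linarith) (by norm_num)]; linarith) (by norm_num) hv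
    set s₀ : ℂ := 1 + ((1 / 16 : ℝ) : ℂ) + (((j : ℝ) / 8 : ℝ) : ℂ) * Complex.I with hs₀
    have hgeo : ∀ ρ ∈ Z.filter (fun ρ => ⌊8 * ρ.im⌋ = j), 1 / 16 ≤ ‖s₀ - ρ‖ ∧ ‖s₀ - ρ‖ ≤ 1 / 4 := by
      intro ρ hρ
      rw [mem_filter] at hρ
      obtain ⟨-, h2, h3, -⟩ := hmem ρ hρ.1
      have h4 := Int.floor_le (8 * ρ.im)
      have h5 := Int.lt_floor_add_one (8 * ρ.im)
      rw [hρ.2] at h4 h5
      have hre : (s₀ - ρ).re = 1 + 1 / 16 - ρ.re := by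
        rw [hs₀]
        simp
      have him : (s₀ - ρ).im = j / 8 - ρ.im := by
        rw [hs₀]
        simp
      constructor
      · refine le_trans ?_ (Complex.abs_re_le_norm _)
        rw [hre]
        exact le_trans (by linarith) (le_abs_self _)
      · refine abs_le_of_sq_le_sq' ?_ (by norm_num) |>.2
        rw [← Complex.normSq_eq_norm_sq, Complex.normSq_apply, hre, him]
        have h6 : (j : ℝ) / 8 - ρ.im ≤ 0 := by linarith
        have h7 : -(1 / 8) ≤ (j : ℝ) / 8 - ρ.im := by linarith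
        nlinarith
    have hsub : Z.filter (fun ρ => ⌊8 * ρ.im⌋ = j) ⊆ ZD (Lp p) s₀ (1 / 4) := by
      intro ρ hρ
      rw [mem_ZD hD.diff hne, ← norm_neg, neg_sub]
      exact ⟨(hmem ρ (mem_filter.1 hρ).1).1, (hgeo ρ hρ).2⟩
    have h2 : ∑ ρ ∈ Z.filter (fun ρ => ⌊8 * ρ.im⌋ = j), (od (Lp p) ρ : ℝ) * (1 / 16) ≤
        ∑ ρ ∈ ZD (Lp p) s₀ (1 / 4), (od (Lp p) ρ : ℝ) * ((1 / 16 : ℝ) / ‖s₀ - ρ‖) ^ 2 := by
      refine (Finset.sum_le_sum fun ρ hρ => ?_).trans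
        (Finset.sum_le_sum_of_subset_of_nonneg hsub fun _ _ _ => by positivity)
      refine mul_le_mul_of_nonneg_left ?_ (Nat.cast_nonneg _)
      obtain ⟨h3, h4⟩ := hgeo ρ hρ
      have h5 : 0 < ‖s₀ - ρ‖ := by linarith
      have h6 : (1 / 4 : ℝ) ≤ (1 / 16 : ℝ) / ‖s₀ - ρ‖ := by
        rw [le_div_iff₀ h5]
        linarith
      calc (1 / 16 : ℝ) = (1 / 4) ^ 2 := by norm_num
        _ ≤ _ := pow_le_pow_left₀ (by norm_num) h6 2
    rw [← Finset.sum_mul] at h2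
    have h3 := h2.trans h1
    linarith
  refine (Finset.sum_le_sum hcell).trans ?_
  rw [Finset.sum_const, nsmul_eq_mul]
  have hcard : ((J.card : ℕ) : ℝ) ≤ 19 * (Q : ℝ) ^ 8 := by
    have h1 : ((J.card : ℕ) : ℤ) = 16 * (Q : ℤ) ^ 8 + 3 := by
      rw [hJ, Int.card_Icc]
      have : (0 : ℤ) ≤ (Q : ℤ) ^ 8 := by positivity
      rw [Int.toNat_of_nonneg (by linarith)]
      ring
    have h2 : ((J.card : ℕ) : ℝ) = 16 * (Q : ℝ) ^ 8 + 3 := by exact_mod_cast h1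
    have h3 : (1 : ℝ) ≤ (Q : ℝ) ^ 8 := one_le_pow₀ hQ1
    linarith
  have hlog : L ≤ 2 * Real.sqrt Q := by
    have h1 : L = 2 * Real.log (Real.sqrt Q) := by
      rw [Real.log_sqrt hQ0.le]
      ring
    have h2 := Real.log_le_sub_one_of_pos (Real.sqrt_pos.2 hQ0)
    linarith
  have hsq : 38 * C1 ≤ Real.sqrt Q := Real.le_sqrt_of_sq_le hQC
  have hss : Real.sqrt Q * Real.sqrt Q = Q := Real.mul_self_sqrt hQ0.le
  have hfin : 19 * (C1 * L) ≤ Q := by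
    have h1 : 0 ≤ Real.sqrt Q := Real.sqrt_nonneg _
    calc 19 * (C1 * L) ≤ 19 * (C1 * (2 * Real.sqrt Q)) := by
          refine mul_le_mul_of_nonneg_left ?_ (by norm_num)
          exact mul_le_mul_of_nonneg_left hlog (by linarith)
      _ = (38 * C1) * Real.sqrt Q := by ring
      _ ≤ Real.sqrt Q * Real.sqrt Q := mul_le_mul_of_nonneg_right hsq h1
      _ = Q := hss
  calc ((J.card : ℕ) : ℝ) * (C1 * L) ≤ 19 * (Q : ℝ) ^ 8 * (C1 * L) :=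
        mul_le_mul_of_nonneg_right hcard (by positivity)
    _ = (Q : ℝ) ^ 8 * (19 * (C1 * L)) := by ring
    _ ≤ (Q : ℝ) ^ 8 * Q := mul_le_mul_of_nonneg_left hfin (by positivity)
    _ = (Q : ℝ) ^ 9 := by ring

end Pool.Agent.Lib.H18Q
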