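import Pool.Agent.Lib.H18Q.PDefs
import Pool.Agent.Lib.H18Q.ZN
import Pool.Agent.Lib.H18Q.Z5B
import Pool.Agent.Lib.H68T.ZF1
import Pool.Agent.Lib.H68T.ZF2

/-!
# Project H18Q, chunk PD: sums over the zeros
-/

open Finset

namespace Pool.Agent.Lib.H18Q

open Pool.Agent.Lib.H68T

theorem pd_mono {C0 C1 ℓ T : ℝ} {f : ℂ → ℂ} (h : LDat C0 ℓ T f) (hC : C0 ≤ C1) (hℓ : 0 < ℓ) :
    LDat C1 ℓ T f := by
  refine ⟨h.diff, h.zre, ?_, ?_⟩
  · intro lam v h1 h2 h3 s hs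
    refine (h.growth lam v h1 h2 h3 s hs).trans ?_
    exact mul_le_mul_of_nonneg_right (Real.exp_le_exp.2 (mul_le_mul_of_nonneg_right hC hℓ.le))
      (norm_nonneg _)
  · intro lam v h1 h2 h3
    refine (h.ld lam v h1 h2 h3).trans ?_
    have : 0 < lam := lt_of_lt_of_le (by positivity) h1
    exact div_le_div_of_nonneg_right hC this.le

theorem pd_ne {C0 ℓ T : ℝ} {f : ℂ → ℂ} (h : LDat C0 ℓ T f) : ∃ c, f c ≠ 0 := by
  refine ⟨2, fun h0 => ?_⟩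
  have := h.zre 2 h0
  norm_num at this

theorem pd_log {Q : ℕ} (h : (2 : ℝ) ≤ Q) : 0 < Real.log Q := Real.log_pos (by linarith)

theorem Fam_Lp : ∃ C0 K : ℝ, 1 ≤ C0 ∧ ∀ Q : ℕ, K ≤ Q → Fam C0 Q Lp := by
  obtain ⟨C0, K, h0, h⟩ := LDat_Lp
  exact ⟨C0, K, h0, fun Q hQ => ⟨fun p hp => h Q hQ p hp, fun p _ ρ hρ => hρ, fun p _ ρ => le_refl _⟩⟩

/-- The family with the exceptional zero removed: `LDat_Lp` and `LDat_dslope`; `dslope_zero`,
`od_dslope_le` of `Z0`. (`(r, ψ) ≠ p0` as `ψ ≠ 1`; `Lp ⟨r, ψ⟩ = ψ.LFunction` by `Lp_mk`.) -/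
theorem Fam_Lx : ∃ C0 K : ℝ, 1 ≤ C0 ∧ ∀ Q : ℕ, K ≤ Q → ∀ (r : ℕ) [NeZero r]
    (ψ : DirichletCharacter ℂ r), r ≤ Q → ψ ≠ 1 → ∀ β : ℝ, 3 / 4 ≤ β → β < 1 →
    ψ.LFunction (β : ℂ) = 0 → Fam C0 Q (Lx r ψ β) := by
  obtain ⟨C1, K1, h1, H1⟩ := LDat_Lp
  obtain ⟨C2, K2, h2, H2⟩ := LDat_dslope
  refine ⟨max C1 C2, max (max K1 K2) 2, h1.trans (le_max_left _ _), ?_⟩
  intro Q hQ r _ ψ hr hψ β hβ hβ1 hβ0
  have hQ1 : K1 ≤ Q := ((le_max_left _ _).trans (le_max_left _ _)).trans hQ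
  have hQ2 : K2 ≤ Q := ((le_max_right _ _).trans (le_max_left _ _)).trans hQ
  have hQ3 : (2 : ℝ) ≤ Q := (le_max_right _ _).trans hQ
  have hL := pd_log hQ3
  have hne : (⟨r, ψ⟩ : Σ r : ℕ, DirichletCharacter ℂ r) ≠ p0 := by
    intro h
    unfold p0 at h
    rw [Sigma.mk.injEq] at h
    obtain ⟨h3, h4⟩ := h
    subst h3
    exact hψ (eq_of_heq h4)
  have hLp := Lp_mk r ψ hne
  refine ⟨?_, ?_, ?_⟩
  · intro p hp
    by_cases h : p = ⟨r, ψ⟩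
    · subst h
      rw [Lx_mk, hLp]
      exact pd_mono (H2 Q hQ2 r ψ hr hψ β hβ hβ1 hβ0) (le_max_right _ _) hL
    · rw [Lx_of_ne r ψ β p h]
      exact pd_mono (H1 Q hQ1 p hp) (le_max_left _ _) hL
  · intro p hp ρ hρ
    by_cases h : p = ⟨r, ψ⟩
    · subst h
      rw [Lx_mk] at hρ
      exact dslope_zero (by rw [hLp]; exact hβ0) hρ
    · rwa [Lx_of_ne r ψ β p h] at hρ
  · intro p hp ρ
    by_cases h : p = ⟨r, ψ⟩
    · subst h
      rw [Lx_mk]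
      have h5 := H1 Q hQ1 _ hp
      exact od_dslope_le h5.diff (pd_ne h5) (by rw [hLp]; exact hβ0) ρ
    · rw [Lx_of_ne r ψ β p h]

/-- Zero-free region at a good level: `zero_free_complex`, `zero_free_real`, `zero_free_zeta`
(`lab3_Z_zero`) and `Good` for the real zeros of real characters (a zero `ρ` with `Im ρ = 0` is
`(Re ρ : ℂ)`, `Re ρ ≤ 1`). -/
theorem zero_free_good (c : ℝ) (hc : 0 < c) : ∃ c' K : ℝ, 0 < c' ∧ ∀ Q : ℕ, K ≤ Q → Good c Q →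
    ∀ p ∈ PC Q, ∀ ρ : ℂ, Lp p ρ = 0 → |ρ.im| ≤ (Q : ℝ) ^ 8 →
    c' / Real.log Q ≤ 1 - ρ.re := by
  obtain ⟨c1, K1, hc1, H1⟩ := zero_free_complex
  obtain ⟨c2, K2, hc2, H2⟩ := zero_free_real
  obtain ⟨c3, K3, hc3, H3⟩ := zero_free_zeta
  obtain ⟨C0, K4, h0, H4⟩ := LDat_Lp
  refine ⟨min (min c1 c2) (min c3 c), max (max K1 K2) (max (max K3 K4) 2),
    lt_min (lt_min hc1 hc2) (lt_min hc3 hc), ?_⟩
  intro Q hQ hG p hp ρ hρ him
  have hQ1 : K1 ≤ Q := ((le_max_left _ _).trans (le_max_left _ _)).trans hQ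
  have hQ2 : K2 ≤ Q := ((le_max_right _ _).trans (le_max_left _ _)).trans hQ
  have hQ' : max (max K3 K4) 2 ≤ (Q : ℝ) := (le_max_right _ _).trans hQ
  have hQ3 : K3 ≤ Q := ((le_max_left _ _).trans (le_max_left _ _)).trans hQ'
  have hQ4 : K4 ≤ Q := ((le_max_right _ _).trans (le_max_left _ _)).trans hQ'
  have hQ5 : (2 : ℝ) ≤ Q := (le_max_right _ _).trans hQ'
  have hL := pd_log hQ5
  have him' : |ρ.im| ≤ (Q : ℝ) ^ 12 + 1 := by
    have h1 : (Q : ℝ) ^ 8 ≤ (Q : ℝ) ^ 12 := pow_le_pow_right₀ (by linarith) (by norm_num)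
    linarith
  have fin : ∀ c' : ℝ, min (min c1 c2) (min c3 c) ≤ c' → ρ.re < 1 - c' / Real.log Q →
      min (min c1 c2) (min c3 c) / Real.log Q ≤ 1 - ρ.re := by
    intro c' h1 h2
    have h3 : min (min c1 c2) (min c3 c) / Real.log Q ≤ c' / Real.log Q :=
      div_le_div_of_nonneg_right h1 hL.le
    linarith
  have m1 : min (min c1 c2) (min c3 c) ≤ c1 := (min_le_left _ _).trans (min_le_left _ _)
  have m2 : min (min c1 c2) (min c3 c) ≤ c2 := (min_le_left _ _).trans (min_le_right _ _)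
  have m3 : min (min c1 c2) (min c3 c) ≤ c3 := (min_le_right _ _).trans (min_le_left _ _)
  have m4 : min (min c1 c2) (min c3 c) ≤ c := (min_le_right _ _).trans (min_le_right _ _)
  by_cases hp0 : p = p0
  · rw [hp0, Lp_p0] at hρ
    exact fin c3 m3 (H3 Q hQ3 ρ (lab3_Z_zero ρ hρ) him')
  · have hψ := ne_one_of_ne_p0 hp hp0
    have hre := (H4 Q hQ4 p hp).zre ρ hρ
    obtain ⟨hne, hLp⟩ := Lp_mem hp hp0
    obtain ⟨hr1, hr2, hprim⟩ := mem_PC.1 hp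
    rw [hLp] at hρ
    by_cases hsq : p.2 ^ 2 = 1
    · by_cases hi : ρ.im = 0
      · have hρ' : ρ = (ρ.re : ℂ) := by
          apply Complex.ext
          · simp
          · simp [hi]
        have h5 : ρ.re < 1 - c / Real.log Q := by
          by_contra hcon
          push Not at hcon
          rw [hρ'] at hρ
          exact hG p.1 p.2 hr2 hprim hψ hsq ρ.re hcon hre.le hρ
        exact fin c m4 h5
      · exact fin c2 m2 (H2 Q hQ2 p.1 p.2 hr2 hψ hsq ρ hρ hi him')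
    · exact fin c1 m1 (H1 Q hQ1 p.1 p.2 hr2 hsq ρ hρ him')

theorem pd_exp {x : ℝ} (h0 : 0 ≤ x) (h1 : x ≤ 1) : 1 / (1 + x) ≤ Real.exp (-(x / 2)) := by
  have h2 : 1 / (1 + x) ≤ 1 - x / 2 := by
    rw [div_le_iff₀ (by linarith)]
    nlinarith
  exact h2.trans (Real.one_sub_le_exp_neg (x / 2))

theorem pd_pow {x : ℝ} (h0 : 0 ≤ x) (h1 : x ≤ 1) (k : ℕ) :
    (1 / (1 + x)) ^ k ≤ Real.exp (-(x / 2 * k)) := by
  have h2 := pow_le_pow_left₀ (by positivity) (pd_exp h0 h1) k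
  refine h2.trans (le_of_eq ?_)
  rw [← Real.exp_nat_mul]
  congr 1
  ring

theorem pd_geo (C κ : ℝ) (hC : 1 ≤ C) (hκ : C + 1 ≤ κ) (J : ℕ) :
    ∑ j ∈ Finset.range J, Real.exp (-(κ * j)) * (C * Real.exp (C * (j + 1))) ≤ 2 * C * Real.exp C := by
  have h1 : Real.exp (-1) ≤ 1 / 2 := by
    have h2 : (2 : ℝ) ≤ Real.exp 1 := by
      have := Real.add_one_le_exp (1 : ℝ)
      linarith
    rw [Real.exp_neg, one_div]
    exact inv_anti₀ (by norm_num) h2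
  have h3 : ∀ j ∈ Finset.range J, Real.exp (-(κ * j)) * (C * Real.exp (C * (j + 1))) ≤
      C * Real.exp C * (1 / 2) ^ j := by
    intro j _
    have h4 : Real.exp (-(κ * j)) * (C * Real.exp (C * (j + 1))) =
        C * Real.exp C * (Real.exp (C - κ)) ^ j := by
      rw [← Real.exp_nat_mul]
      have : Real.exp (-(κ * j)) * (C * Real.exp (C * (j + 1))) =
          C * (Real.exp (-(κ * j)) * Real.exp (C * (j + 1))) := by ring
      rw [this, ← Real.exp_add, mul_assoc, ← Real.exp_add]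
      congr 2
      ring
    rw [h4]
    apply mul_le_mul_of_nonneg_left _ (by positivity)
    exact pow_le_pow_left₀ (Real.exp_pos _).le ((Real.exp_le_exp.2 (by linarith)).trans h1) j
  calc _ ≤ ∑ j ∈ Finset.range J, C * Real.exp C * (1 / 2) ^ j := Finset.sum_le_sum h3
    _ = C * Real.exp C * ∑ j ∈ Finset.range J, (1 / 2 : ℝ) ^ j := by rw [Finset.mul_sum]
    _ ≤ C * Real.exp C * 2 := by
        apply mul_le_mul_of_nonneg_left _ (by positivity)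
        exact sum_geometric_two_le J
    _ = 2 * C * Real.exp C := by ring

/-- **Sum over the zeros.** If all zeros of the family with `|Im ρ| ≤ Q^8` have
`1 - Re ρ ≥ z/log Q`, then `∑_p ∑_ρ od(ρ) (1 + 64 (1 - Re ρ))^(-kX X) ≤ C exp (-K z/16) + Q^(-6)`.

Proof. Let `k = kX X ≥ log X/64 - 1 ≥ (K/100) log Q` (`log X ≥ K log Q`, `K` large), `δ = 1 - Re ρ`,
`θ' = min (θ/2) (1/64)` with the `θ` of `zero_density`. (i) `δ ≥ θ'`: the term is at most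
`(1 + 64 θ')^(-k) ≤ exp (-32 θ' k) ≤ Q^(-32 θ' K/100)` (`log (1+x) ≥ x/2` for `0 ≤ x ≤ 1`), the number
of zeros is at most `Q² Q^9` (`card_PC_le`, `zero_crude`, `Fam.zer`, `Fam.ord`): total `≤ Q^(-6)` if
`32 θ' K/100 ≥ 17`. (ii) `δ < θ'`: with `y = δ log Q ≥ z` the term is at most `exp (-32 δ k) ≤
exp (-(32 K/100) y) ≤ exp (-(K/8) z) exp (-(K/8) y)` (also if `z < 0`: then use `y ≥ 0`,
`exp(-K z/16) ≥ 1`). Split by `j = ⌊y⌋`, `0 ≤ j ≤ θ' log Q`, `j + 1 ≤ θ log Q` for `Q` large: the zeros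
with `y < j + 1` number at most `C exp (C (j+1))` (`zero_density` with `κ = j + 1`; `Fam.zer`,
`Fam.ord`). `∑_j C exp (C (j+1) - (K/8) j) ≤ 2 C e^C` for `K ≥ 8 (C + 1)`. -/
theorem zero_sum (C0 : ℝ) (h0 : 1 ≤ C0) : ∃ C K0 : ℝ, 1 ≤ C ∧ 1 ≤ K0 ∧ ∀ K : ℝ, K0 ≤ K →
    ∀ Q X : ℕ, RegP K Q X → ∀ g : (Σ r : ℕ, DirichletCharacter ℂ r) → ℂ → ℂ, Fam C0 Q g →
    ∀ z : ℝ, (∀ p ∈ PC Q, ∀ ρ : ℂ, g p ρ = 0 → |ρ.im| ≤ (Q : ℝ) ^ 8 →
      z / Real.log Q ≤ 1 - ρ.re) →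
    ∑ p ∈ PC Q, ∑ ρ ∈ ZR (g p) (1 - 1 / 8) ((Q : ℝ) ^ 8), (od (g p) ρ : ℝ) *
      (1 / (1 + 64 * (1 - ρ.re))) ^ kX X ≤ C * Real.exp (-(K / 16 * z)) + (Q : ℝ) ^ (-6 : ℝ) := by
  obtain ⟨C, θ, K1, hC, hθ, HD⟩ := zero_density
  obtain ⟨K2, HC⟩ := zero_crude
  obtain ⟨C4, K4, h4, H4⟩ := LDat_Lp
  obtain ⟨θ', hθ'0, hθ'1, hθ'2⟩ : ∃ θ' : ℝ, 0 < θ' ∧ θ' ≤ θ / 2 ∧ θ' ≤ 1 / 64 :=
    ⟨min (θ / 2) (1 / 64), lt_min (by linarith) (by norm_num), min_le_left _ _, min_le_right _ _⟩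
  obtain ⟨K0, hK0a, hK0b, hK0c, hK0d, hK0e, hK0f, hK0g⟩ : ∃ K0 : ℝ, 14 ≤ K0 ∧ 8 * (C + 1) ≤ K0 ∧
      1700 / (32 * θ') ≤ K0 ∧ K1 ≤ K0 ∧ K2 ≤ K0 ∧ K4 ≤ K0 ∧ 2 / θ ≤ K0 := by
    refine ⟨14 + 8 * (C + 1) + 1700 / (32 * θ') + |K1| + |K2| + |K4| + 2 / θ, ?_, ?_, ?_, ?_, ?_, ?_, ?_⟩ <;>
    · have e1 : 0 < 1700 / (32 * θ') := by positivity
      have e2 : 0 < 2 / θ := by positivity
      have e3 := abs_nonneg K1
      have e4 := abs_nonneg K2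
      have e5 := abs_nonneg K4
      have e6 := le_abs_self K1
      have e7 := le_abs_self K2
      have e8 := le_abs_self K4
      linarith
  refine ⟨2 * C * Real.exp C, K0, ?_, by linarith, ?_⟩
  · have := Real.add_one_le_exp C
    nlinarith
  intro K hK Q X hR g hg z hz
  have hK1 : 1 ≤ K := by linarith
  have hLK : K ≤ Real.log Q := hR.logQ_ge hK1
  have hQK : K ≤ (Q : ℝ) := hR.Q_ge hK1
  obtain ⟨L, hL⟩ : ∃ L, L = Real.log Q := ⟨_, rfl⟩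
  rw [← hL] at hLK
  have hL0 : 0 < L := by linarith
  have hQ0 : (0 : ℝ) < Q := by linarith
  have hQL : (Q : ℝ) = Real.exp L := by rw [hL, Real.exp_log hQ0]
  -- k
  have hk : K * L / 100 ≤ (kX X : ℝ) := by
    unfold kX
    have h1 := Nat.lt_floor_add_one (Real.log X / 64)
    have h2 := hR.2.2
    rw [← hL] at h2
    have h3 : 14 * 14 ≤ K * L := by nlinarith
    linarith
  have hθK : 17 ≤ 32 * θ' * K / 100 := by
    have h1 : 1700 / (32 * θ') ≤ K := by linarith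
    rw [div_le_iff₀ (by positivity)] at h1
    linarith
  have hdatg : ∀ p ∈ PC Q, ∀ ρ, ρ ∈ ZR (g p) (1 - 1 / 8) ((Q : ℝ) ^ 8) ↔
      g p ρ = 0 ∧ 1 - 1 / 8 ≤ ρ.re ∧ ρ.re ≤ 1 ∧ |ρ.im| ≤ (Q : ℝ) ^ 8 := by
    intro p hp ρ
    exact mem_ZR (hg.dat p hp).diff (pd_ne (hg.dat p hp))
  have hdatL : ∀ p ∈ PC Q, ∀ σ : ℝ, ∀ ρ, ρ ∈ ZR (Lp p) σ ((Q : ℝ) ^ 8) ↔
      Lp p ρ = 0 ∧ σ ≤ ρ.re ∧ ρ.re ≤ 1 ∧ |ρ.im| ≤ (Q : ℝ) ^ 8 := by
    intro p hp σ ρ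
    have h5 := H4 Q (by linarith) p hp
    exact mem_ZR h5.diff (pd_ne h5)
  obtain ⟨J, hJ⟩ : ∃ J : ℕ, J = ⌊θ' * L⌋₊ + 1 := ⟨_, rfl⟩
  -- the pointwise bound
  have hpt : ∀ p ∈ PC Q, ∀ ρ ∈ ZR (g p) (1 - 1 / 8) ((Q : ℝ) ^ 8),
      (1 / (1 + 64 * (1 - ρ.re))) ^ kX X ≤ Real.exp (-(17 * L)) +
        Real.exp (-(K / 16 * z)) * ∑ j ∈ Finset.range J,
          (if (1 - ρ.re) * L < j + 1 then Real.exp (-(K / 8 * j)) else 0) := by
    intro p hp ρ hρ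
    obtain ⟨h1, h2, h3, h5⟩ := (hdatg p hp ρ).1 hρ
    have hzρ := hz p hp ρ h1 h5
    obtain ⟨δ, hδ⟩ : ∃ δ, δ = 1 - ρ.re := ⟨_, rfl⟩
    rw [← hδ] at hzρ ⊢
    have hδ0 : 0 ≤ δ := by linarith
    have hsum0 : 0 ≤ ∑ j ∈ Finset.range J,
        (if δ * L < j + 1 then Real.exp (-(K / 8 * j)) else 0) := by
      apply Finset.sum_nonneg
      intro j _
      split_ifs
      · exact (Real.exp_pos _).le
      · exact le_refl _
    by_cases hc : θ' ≤ δ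
    · have h6 : (1 / (1 + 64 * δ)) ^ kX X ≤ (1 / (1 + 64 * θ')) ^ kX X := by
        apply pow_le_pow_left₀ (by positivity)
        apply one_div_le_one_div_of_le (by positivity)
        linarith
      have h7 := pd_pow (x := 64 * θ') (by positivity) (by linarith) (kX X)
      have h8 : Real.exp (-(64 * θ' / 2 * (kX X : ℝ))) ≤ Real.exp (-(17 * L)) := by
        apply Real.exp_le_exp.2
        have h9 : 32 * θ' * (K * L / 100) ≤ 32 * θ' * (kX X : ℝ) :=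
          mul_le_mul_of_nonneg_left hk (by positivity)
        have h10 : 17 * L ≤ 32 * θ' * K / 100 * L := mul_le_mul_of_nonneg_right hθK hL0.le
        have h11 : 32 * θ' * K / 100 * L = 32 * θ' * (K * L / 100) := by ring
        have h12 : 64 * θ' / 2 * (kX X : ℝ) = 32 * θ' * (kX X : ℝ) := by ring
        linarith
      have h9 := mul_nonneg (Real.exp_pos (-(K / 16 * z))).le hsum0
      linarith
    · push Not at hc
      have h6 := pd_pow (x := 64 * δ) (by positivity) (by linarith) (kX X)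
      have hy0 : 0 ≤ δ * L := by positivity
      have hzy : z ≤ δ * L := by
        rw [← hL, div_le_iff₀ hL0] at hzρ
        exact hzρ
      have h7 : Real.exp (-(64 * δ / 2 * (kX X : ℝ))) ≤
          Real.exp (-(K / 16 * z)) * Real.exp (-(K / 8 * (δ * L))) := by
        rw [← Real.exp_add]
        apply Real.exp_le_exp.2
        have h8 : 32 * δ * (K * L / 100) ≤ 32 * δ * (kX X : ℝ) :=
          mul_le_mul_of_nonneg_left hk (by positivity)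
        have h9 : K / 16 * z ≤ K / 16 * (δ * L) := mul_le_mul_of_nonneg_left hzy (by positivity)
        have h10 : 0 ≤ K * (δ * L) := by positivity
        have h11 : 32 * δ * (K * L / 100) = 32 / 100 * (K * (δ * L)) := by ring
        have h12 : 64 * δ / 2 * (kX X : ℝ) = 32 * δ * (kX X : ℝ) := by ring
        have h13 : K / 16 * (δ * L) = 1 / 16 * (K * (δ * L)) := by ring
        have h14 : K / 8 * (δ * L) = 1 / 8 * (K * (δ * L)) := by ring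
        linarith
      have hjJ : ⌊δ * L⌋₊ ∈ Finset.range J := by
        rw [Finset.mem_range, hJ]
        have : ⌊δ * L⌋₊ ≤ ⌊θ' * L⌋₊ := Nat.floor_le_floor (mul_le_mul_of_nonneg_right hc.le hL0.le)
        omega
      have h8 : Real.exp (-(K / 8 * (δ * L))) ≤ ∑ j ∈ Finset.range J,
          (if δ * L < j + 1 then Real.exp (-(K / 8 * j)) else 0) := by
        have h9 : (if δ * L < (⌊δ * L⌋₊ : ℝ) + 1 then Real.exp (-(K / 8 * (⌊δ * L⌋₊ : ℝ))) else 0) ≤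
            ∑ j ∈ Finset.range J, (if δ * L < j + 1 then Real.exp (-(K / 8 * j)) else 0) := by
          refine Finset.single_le_sum
            (f := fun j : ℕ => if δ * L < (j : ℝ) + 1 then Real.exp (-(K / 8 * (j : ℝ))) else 0) ?_ hjJ
          intro j _
          split_ifs
          · exact (Real.exp_pos _).le
          · exact le_refl _
        rw [if_pos (Nat.lt_floor_add_one _)] at h9
        refine le_trans (Real.exp_le_exp.2 ?_) h9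
        have h10 := Nat.floor_le hy0
        have h11 : K / 8 * (⌊δ * L⌋₊ : ℝ) ≤ K / 8 * (δ * L) := mul_le_mul_of_nonneg_left h10 (by positivity)
        linarith
      have h9 := mul_le_mul_of_nonneg_left h8 (Real.exp_pos (-(K / 16 * z))).le
      have h10 := (Real.exp_pos (-(17 * L))).le
      linarith
  -- summation
  have hsum1 : ∑ p ∈ PC Q, ∑ ρ ∈ ZR (g p) (1 - 1 / 8) ((Q : ℝ) ^ 8), (od (g p) ρ : ℝ) *
      (1 / (1 + 64 * (1 - ρ.re))) ^ kX X ≤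
      ∑ p ∈ PC Q, ∑ ρ ∈ ZR (g p) (1 - 1 / 8) ((Q : ℝ) ^ 8), ((od (g p) ρ : ℝ) * Real.exp (-(17 * L)) +
        Real.exp (-(K / 16 * z)) * ∑ j ∈ Finset.range J, Real.exp (-(K / 8 * j)) *
          (if (1 - ρ.re) * L < j + 1 then (od (g p) ρ : ℝ) else 0)) := by
    refine Finset.sum_le_sum fun p hp => Finset.sum_le_sum fun ρ hρ => ?_
    refine (mul_le_mul_of_nonneg_left (hpt p hp ρ hρ) (Nat.cast_nonneg _)).trans (le_of_eq ?_)
    rw [mul_add, mul_left_comm]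
    congr 2
    rw [Finset.mul_sum]
    refine Finset.sum_congr rfl fun j _ => ?_
    split_ifs
    · ring
    · simp
  refine hsum1.trans ?_
  have hsub : ∀ p ∈ PC Q, ∀ σ : ℝ, ∀ R : Finset ℂ, (∀ ρ ∈ R, g p ρ = 0 ∧ σ ≤ ρ.re ∧ ρ.re ≤ 1 ∧
      |ρ.im| ≤ (Q : ℝ) ^ 8) → ∑ ρ ∈ R, (od (g p) ρ : ℝ) ≤
        ∑ ρ ∈ ZR (Lp p) σ ((Q : ℝ) ^ 8), (od (Lp p) ρ : ℝ) := by
    intro p hp σ R hR'
    calc ∑ ρ ∈ R, (od (g p) ρ : ℝ) ≤ ∑ ρ ∈ R, (od (Lp p) ρ : ℝ) :=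
          Finset.sum_le_sum fun ρ _ => by exact_mod_cast hg.ord p hp ρ
      _ ≤ _ := by
          apply Finset.sum_le_sum_of_subset_of_nonneg
          · intro ρ hρ
            obtain ⟨h1, h2⟩ := hR' ρ hρ
            exact (hdatL p hp σ ρ).2 ⟨hg.zer p hp ρ h1, h2⟩
          · intro ρ _ _
            exact Nat.cast_nonneg _
  have hA : ∑ p ∈ PC Q, ∑ ρ ∈ ZR (g p) (1 - 1 / 8) ((Q : ℝ) ^ 8), (od (g p) ρ : ℝ) ≤ Real.exp (11 * L) := by
    have h1 : ∀ p ∈ PC Q, ∑ ρ ∈ ZR (g p) (1 - 1 / 8) ((Q : ℝ) ^ 8), (od (g p) ρ : ℝ) ≤ (Q : ℝ) ^ 9 := by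
      intro p hp
      refine (hsub p hp (1 - 1 / 8) _ (fun ρ hρ => (hdatg p hp ρ).1 hρ)).trans ?_
      exact HC Q (by linarith) p hp
    refine (Finset.sum_le_card_nsmul _ _ _ h1).trans ?_
    rw [nsmul_eq_mul]
    have h2 : ((PC Q).card : ℝ) ≤ (Q : ℝ) ^ 2 := by exact_mod_cast card_PC_le Q
    calc ((PC Q).card : ℝ) * (Q : ℝ) ^ 9 ≤ (Q : ℝ) ^ 2 * (Q : ℝ) ^ 9 :=
          mul_le_mul_of_nonneg_right h2 (by positivity)
      _ = (Q : ℝ) ^ 11 := by ring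
      _ = Real.exp (11 * L) := by
          rw [hQL, ← Real.exp_nat_mul]
          norm_num
  have hB : ∀ j ∈ Finset.range J, ∑ p ∈ PC Q, ∑ ρ ∈ ZR (g p) (1 - 1 / 8) ((Q : ℝ) ^ 8),
      (if (1 - ρ.re) * L < j + 1 then (od (g p) ρ : ℝ) else 0) ≤ C * Real.exp (C * (j + 1)) := by
    intro j hj
    rw [Finset.mem_range, hJ] at hj
    have hjL : (j : ℝ) ≤ θ' * L := by
      have h1 : j ≤ ⌊θ' * L⌋₊ := by omega
      have h2 : (j : ℝ) ≤ (⌊θ' * L⌋₊ : ℝ) := by exact_mod_cast h1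
      exact h2.trans (Nat.floor_le (by positivity))
    have h1 : (j : ℝ) + 1 ≤ θ * Real.log Q := by
      rw [← hL]
      have h2 : 2 / θ ≤ L := by linarith
      rw [div_le_iff₀ hθ] at h2
      have h3 : θ' * L ≤ θ / 2 * L := mul_le_mul_of_nonneg_right hθ'1 hL0.le
      linarith
    refine le_trans ?_ (HD Q (by linarith) (j + 1) (by
      have : (0 : ℝ) ≤ j := Nat.cast_nonneg j
      linarith) h1)
    refine Finset.sum_le_sum fun p hp => ?_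
    rw [← Finset.sum_filter]
    refine hsub p hp (1 - (j + 1) / Real.log Q) _ ?_
    intro ρ hρ
    rw [Finset.mem_filter] at hρ
    obtain ⟨h2, h3, h5, h6⟩ := (hdatg p hp ρ).1 hρ.1
    refine ⟨h2, ?_, h5, h6⟩
    rw [← hL]
    have h7 : 1 - ρ.re ≤ (j + 1) / L := by
      rw [le_div_iff₀ hL0]
      exact hρ.2.le
    linarith
  -- assembly
  have hsplit : ∑ p ∈ PC Q, ∑ ρ ∈ ZR (g p) (1 - 1 / 8) ((Q : ℝ) ^ 8), ((od (g p) ρ : ℝ) * Real.exp (-(17 * L)) +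
        Real.exp (-(K / 16 * z)) * ∑ j ∈ Finset.range J, Real.exp (-(K / 8 * j)) *
          (if (1 - ρ.re) * L < j + 1 then (od (g p) ρ : ℝ) else 0)) =
      (∑ p ∈ PC Q, ∑ ρ ∈ ZR (g p) (1 - 1 / 8) ((Q : ℝ) ^ 8), (od (g p) ρ : ℝ)) * Real.exp (-(17 * L)) +
      Real.exp (-(K / 16 * z)) * ∑ j ∈ Finset.range J, Real.exp (-(K / 8 * j)) *
        ∑ p ∈ PC Q, ∑ ρ ∈ ZR (g p) (1 - 1 / 8) ((Q : ℝ) ^ 8),
          (if (1 - ρ.re) * L < j + 1 then (od (g p) ρ : ℝ) else 0) := by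
    simp only [Finset.sum_add_distrib]
    congr 1
    · rw [Finset.sum_mul]
      refine Finset.sum_congr rfl fun p _ => ?_
      rw [Finset.sum_mul]
    · simp only [← Finset.mul_sum]
      congr 1
      simp only [Finset.mul_sum]
      have e1 : ∀ p ∈ PC Q, ∑ ρ ∈ ZR (g p) (1 - 1 / 8) ((Q : ℝ) ^ 8), ∑ j ∈ Finset.range J,
          Real.exp (-(K / 8 * j)) * (if (1 - ρ.re) * L < j + 1 then (od (g p) ρ : ℝ) else 0) =
          ∑ j ∈ Finset.range J, ∑ ρ ∈ ZR (g p) (1 - 1 / 8) ((Q : ℝ) ^ 8),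
          Real.exp (-(K / 8 * j)) * (if (1 - ρ.re) * L < j + 1 then (od (g p) ρ : ℝ) else 0) :=
        fun p _ => Finset.sum_comm
      rw [Finset.sum_congr rfl e1]
      exact Finset.sum_comm
  rw [hsplit]
  have h1 : (∑ p ∈ PC Q, ∑ ρ ∈ ZR (g p) (1 - 1 / 8) ((Q : ℝ) ^ 8), (od (g p) ρ : ℝ)) *
      Real.exp (-(17 * L)) ≤ (Q : ℝ) ^ (-6 : ℝ) := by
    calc _ ≤ Real.exp (11 * L) * Real.exp (-(17 * L)) := mul_le_mul_of_nonneg_right hA (Real.exp_pos _).le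
      _ = (Q : ℝ) ^ (-6 : ℝ) := by
          rw [← Real.exp_add, Real.rpow_def_of_pos hQ0, ← hL]
          congr 1
          ring
  have h2 : ∑ j ∈ Finset.range J, Real.exp (-(K / 8 * j)) *
        ∑ p ∈ PC Q, ∑ ρ ∈ ZR (g p) (1 - 1 / 8) ((Q : ℝ) ^ 8),
          (if (1 - ρ.re) * L < j + 1 then (od (g p) ρ : ℝ) else 0) ≤ 2 * C * Real.exp C := by
    refine (Finset.sum_le_sum fun j hj => mul_le_mul_of_nonneg_left (hB j hj) (Real.exp_pos _).le).trans ?_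
    exact pd_geo C (K / 8) hC (by linarith) J
  have h3 := mul_le_mul_of_nonneg_left h2 (Real.exp_pos (-(K / 16 * z))).le
  calc _ ≤ (Q : ℝ) ^ (-6 : ℝ) + Real.exp (-(K / 16 * z)) * (2 * C * Real.exp C) := add_le_add h1 h3
    _ = _ := by ring

end Pool.Agent.Lib.H18Q
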