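import Pool.Agent.Lib.H18Q.PDefs
import Pool.Agent.Lib.H68X.XFB

/-!
# Project H18Q, chunk PF: the smooth main terms
-/

open Finset

namespace Pool.Agent.Lib.H18Q

open Pool.Agent.Lib.H68T

theorem pf_sum_int {A M t : ℝ} {O O1 O2 : ℝ → ℝ} (h : XFB_Amp A M O O1 O2) (hM : 0 ≤ M)
    (_hA : 0 < A) (N N0 : ℕ) (hN : A + 6 < Real.log N) (hN0 : 1 ≤ N0) (hAN : Real.log N0 < A) :
    ‖∑ n ∈ Icc 1 N, XFB_W O t (n:ℝ) - ∫ u in (1:ℝ)..(N : ℝ), XFB_W O t u‖ ≤
      M * (2 + |t|) * (2 / N0) := by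
  have hNpos : 1 ≤ N := by
    rcases Nat.eq_zero_or_pos N with h0 | h0
    · rw [h0] at hN; simp at hN; linarith
    · exact h0
  have hzero : ∀ u : ℝ, 1 ≤ u → u ≤ N0 → XFB_W O t u = 0 := by
    intro u hu hu'
    unfold XFB_W
    rw [h.z0 _ (by
      rw [Set.mem_Icc]
      intro h'
      have := Real.log_le_log (by linarith) hu'
      linarith [h'.1])]
    simp
  have hNN : N0 ≤ N := by
    by_contra hc
    push Not at hc
    have : Real.log N ≤ Real.log N0 := Real.log_le_log (by exact_mod_cast hNpos)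
      (by exact_mod_cast hc.le)
    linarith
  have hW1 : XFB_W O t ((1 : ℕ) : ℝ) = 0 := hzero _ (by simp) (by exact_mod_cast hN0)
  have hint : ∀ N : ℕ, 1 ≤ N → ∫ u in (1:ℝ)..(N:ℝ), XFB_W O t u =
      ∑ n ∈ Ico 1 N, ∫ u in (n:ℝ)..((n + 1 : ℕ) : ℝ), XFB_W O t u := by
    intro N hN
    induction N, hN using Nat.le_induction with
    | base => simp
    | succ N hN ih =>
      rw [sum_Ico_succ_top hN, ← ih, intervalIntegral.integral_add_adjacent_intervals]
      · exact XFB_W_ii O h.c0 t 1 N one_pos (by exact_mod_cast hN)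
      · exact XFB_W_ii O h.c0 t N _ (by exact_mod_cast hN) (by push_cast; linarith)
  have hsum : ∀ N : ℕ, 1 ≤ N → ∑ n ∈ Icc 1 N, XFB_W O t (n:ℝ) =
      ∑ n ∈ Ico 1 N, XFB_W O t ((n + 1 : ℕ) : ℝ) := by
    intro N hN
    induction N, hN using Nat.le_induction with
    | base => simpa using hW1
    | succ N hN ih =>
      rw [sum_Ico_succ_top hN, ← ih, sum_Icc_succ_top (by omega)]
  have hdiff : ‖∑ n ∈ Icc 1 N, XFB_W O t (n:ℝ) - ∫ u in (1:ℝ)..(N : ℝ), XFB_W O t u‖ ≤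
      M * (2 + |t|) * (2 / N0) := by
    rw [hint _ hNpos, hsum _ hNpos, ← sum_sub_distrib]
    have hz : ∑ n ∈ Ico 1 N, (XFB_W O t ((n + 1 : ℕ) : ℝ) -
        ∫ u in (n:ℝ)..((n + 1 : ℕ) : ℝ), XFB_W O t u) =
        ∑ n ∈ Ico N0 N, (XFB_W O t ((n + 1 : ℕ) : ℝ) -
        ∫ u in (n:ℝ)..((n + 1 : ℕ) : ℝ), XFB_W O t u) := by
      symm
      apply sum_subset
      · intro n hn
        rw [mem_Ico] at hn ⊢
        exact ⟨le_trans hN0 hn.1, hn.2⟩
      · intro n hn hn'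
        rw [mem_Ico] at hn
        rw [mem_Ico, not_and] at hn'
        have hlt : n < N0 := by
          by_contra h
          exact hn' (not_lt.mp h) hn.2
        have hlt' : ((n + 1 : ℕ) : ℝ) ≤ (N0:ℝ) := by exact_mod_cast hlt
        have z2 : XFB_W O t ((n + 1 : ℕ) : ℝ) = 0 := hzero _ (by push_cast; linarith) hlt'
        rw [z2, zero_sub, neg_eq_zero]
        rw [intervalIntegral.integral_congr (g := fun _ => (0:ℂ))]
        · simp
        · intro u hu
          rw [Set.uIcc_of_le (by push_cast; linarith)] at hu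
          have hn1 : (1:ℝ) ≤ n := by exact_mod_cast hn.1
          exact hzero _ (by linarith [hu.1]) (hu.2.trans hlt')
    rw [hz]
    have hterm : ∀ n ∈ Ico N0 N, ‖XFB_W O t ((n + 1 : ℕ) : ℝ) -
        ∫ u in (n:ℝ)..((n + 1 : ℕ) : ℝ), XFB_W O t u‖ ≤ M * (2 + |t|) * (1 / (n : ℝ) ^ 2) := by
      intro n hn
      rw [mem_Ico] at hn
      have hn1 : 1 ≤ n := le_trans hN0 hn.1
      have hn1' : (1:ℝ) ≤ n := by exact_mod_cast hn1
      have hle : (n:ℝ) ≤ ((n + 1 : ℕ) : ℝ) := by push_cast; linarith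
      have h5 : (((n + 1 : ℕ) : ℝ) - n) = 1 := by push_cast; ring
      have hconst : XFB_W O t ((n + 1 : ℕ) : ℝ) =
          ∫ u in (n:ℝ)..((n + 1 : ℕ) : ℝ), XFB_W O t ((n + 1 : ℕ) : ℝ) := by
        rw [intervalIntegral.integral_const, h5, one_smul]
      rw [hconst, ← intervalIntegral.integral_sub (by simp)
        (XFB_W_ii O h.c0 t n _ (by linarith) hle)]
      have := intervalIntegral.norm_integral_le_of_norm_le_const (a := (n:ℝ))
        (b := ((n + 1 : ℕ) : ℝ)) (C := M * (2 + |t|) * (1 / (n : ℝ) ^ 2))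
        (f := fun u => XFB_W O t ((n + 1 : ℕ) : ℝ) - XFB_W O t u) ?_
      · rw [h5, abs_one, mul_one] at this
        exact this
      · intro u hu
        rw [Set.uIoc_of_le hle] at hu
        have hu1 : 1 ≤ u := by linarith [hu.1]
        refine (XFB_diff h hM t u ((n + 1 : ℕ) : ℝ) hu1 hu.2).trans ?_
        have h7 : (((n + 1 : ℕ) : ℝ) - u) / u ^ 2 ≤ 1 / (n:ℝ) ^ 2 := by
          apply div_le_div₀ zero_le_one
          · have := hu.1; push_cast; linarith
          · positivity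
          · exact pow_le_pow_left₀ (by linarith) hu.1.le 2
        have := abs_nonneg t
        exact mul_le_mul_of_nonneg_left h7 (by positivity)
    refine (norm_sum_le _ _).trans ((sum_le_sum hterm).trans ?_)
    rw [← mul_sum]
    have := abs_nonneg t
    exact mul_le_mul_of_nonneg_left (LONG_sum_inv_sq N0 N hN0) (by positivity)
  exact hdiff

/-- The integral `Mb` over the support. -/
theorem pf_Mb (X : ℕ) (hX : 8 ≤ X) (b t : ℝ) :
    Mb X b t = ∫ y in (0:ℝ)..Real.log ((60 * X : ℕ) : ℝ),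
      (XFB_O (-Real.log X) b y : ℂ) * Complex.exp (-(t * Complex.I) * y) := by
  have hX0 : (0:ℝ) < X := by
    have : 0 < X := by omega
    exact_mod_cast this
  have hX8 : (8:ℝ) ≤ X := by exact_mod_cast hX
  have hexp2 : Real.exp 2 ≤ 8 := by
    have h2 : Real.exp 2 = (Real.exp 1) ^ 2 := by rw [← Real.exp_nat_mul]; norm_num
    rw [h2]
    have h1 := Real.exp_one_lt_d9
    calc (Real.exp 1) ^ 2 ≤ (2.7182818286:ℝ) ^ 2 := pow_le_pow_left₀ (Real.exp_pos 1).le h1.le 2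
      _ ≤ 8 := by norm_num
  have hlX : 2 ≤ Real.log X := (Real.le_log_iff_exp_le hX0).mpr (hexp2.trans hX8)
  have hl60 : (4:ℝ) < Real.log 60 := by
    rw [Real.lt_log_iff_exp_lt (by norm_num)]
    have : Real.exp 4 = (Real.exp 1) ^ 4 := by
      rw [← Real.exp_nat_mul]; norm_num
    rw [this]
    have h1 := Real.exp_one_lt_d9
    calc (Real.exp 1) ^ 4 ≤ (2.7182818286:ℝ) ^ 4 :=
          pow_le_pow_left₀ (Real.exp_pos 1).le h1.le 4
      _ < 60 := by norm_num
  have hlN : Real.log X + 4 < Real.log ((60 * X : ℕ) : ℝ) := by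
    push_cast
    rw [Real.log_mul (by norm_num) hX0.ne']
    linarith
  have hpt : ∀ y : ℝ, (w (y - Real.log X) : ℂ) *
      Complex.exp (-((1 - b : ℝ) + t * Complex.I) * y) =
      (XFB_O (-Real.log X) b y : ℂ) * Complex.exp (-(t * Complex.I) * y) := by
    intro y
    unfold XFB_O
    rw [← sub_eq_add_neg]
    push_cast
    rw [mul_assoc, ← Complex.exp_add]
    congr 2
    ring
  have hz : ∀ y : ℝ, y ∉ Set.Ioc 0 (Real.log ((60 * X : ℕ) : ℝ)) →
      w (y - Real.log X) = 0 := by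
    intro y hy
    rw [Set.mem_Ioc, not_and_or, not_lt, not_le] at hy
    unfold w
    rcases hy with hy | hy
    · rw [Real.smoothTransition.zero_of_nonpos (by linarith), zero_mul]
    · rw [Real.smoothTransition.zero_of_nonpos (x := 4 - (y - Real.log X)) (by linarith), mul_zero]
  unfold Mb
  rw [intervalIntegral.integral_of_le (by linarith)]
  rw [← MeasureTheory.setIntegral_eq_integral_of_forall_compl_eq_zero
    (s := Set.Ioc 0 (Real.log ((60 * X : ℕ) : ℝ)))]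
  · exact MeasureTheory.setIntegral_congr_fun measurableSet_Ioc (fun y _ => hpt y)
  · intro y hy
    rw [hz y hy]
    simp

theorem PF_F0 (X : ℕ) (t : ℝ) : F0 X t = Fb X 1 t := by
  unfold F0 Fb
  congr 1
  funext m
  simp

/-- Sum and integral: `|Fb X b t - Mb X b t| ≤ C (1 + |t|)/X` for `1/2 ≤ b ≤ 1`, `X` large.

Proof. `Fb X b t = ∑_{m ≤ 60 X} φ(m)`, `φ(x) = w(log x - log X) x^(b - 2 - it)`, and substituting
`x = e^u`, `Mb X b t = ∫_0^∞ φ(x) dx = ∫_{X/e²}^{e⁴ X} φ`. `|φ'(x)| ≤ C (1 + |t|) x^(b-3) ≤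
C (1+|t|) x^(-2)`. `|∑_{m ∈ (A, B]} φ(m) - ∫_A^B φ| ≤ ∫_A^B |φ'| ≤ C (1+|t|)/A` with `A = ⌊X/8⌋ - 1`
(`φ = 0` below, as `e² < 7.4`), `B = 60 X`. The lemmas `XFB_W`, `XFB_diff`, `XFB_subst`, `XFB_eq` of
`H68X/XFB` do exactly this. -/
theorem PF_main : ∃ C K : ℝ, 0 < C ∧ ∀ X : ℕ, K ≤ X → ∀ b t : ℝ, 1 / 2 ≤ b → b ≤ 1 →
    ‖Fb X b t - Mb X b t‖ ≤ C * (1 + |t|) / X := by
  obtain ⟨M, hM, hamp⟩ := XFB_amp
  refine ⟨40 * (M + 1), 100, by positivity, fun X hXK b t hb hb1 => ?_⟩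
  have hX100 : (100:ℝ) ≤ X := hXK
  have hXn : 100 ≤ X := by exact_mod_cast hX100
  have hX0 : (0:ℝ) < X := by linarith
  rw [XFB_eq X b t (by omega), pf_Mb X (by omega) b t]
  have hexp2 : Real.exp 2 ≤ 8 := by
    have h2 : Real.exp 2 = (Real.exp 1) ^ 2 := by rw [← Real.exp_nat_mul]; norm_num
    rw [h2]
    have h1 := Real.exp_one_lt_d9
    calc (Real.exp 1) ^ 2 ≤ (2.7182818286:ℝ) ^ 2 := pow_le_pow_left₀ (Real.exp_pos 1).le h1.le 2
      _ ≤ 8 := by norm_num
  have hlX : 3 ≤ Real.log X := by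
    have h1 : Real.exp 3 ≤ 100 := by
      have h2 : Real.exp 3 = (Real.exp 1) ^ 3 := by rw [← Real.exp_nat_mul]; norm_num
      rw [h2]
      have h1 := Real.exp_one_lt_d9
      calc (Real.exp 1) ^ 3 ≤ (2.7182818286:ℝ) ^ 3 := pow_le_pow_left₀ (Real.exp_pos 1).le h1.le 3
        _ ≤ 100 := by norm_num
    exact (Real.le_log_iff_exp_le hX0).mpr (h1.trans hX100)
  have hA := hamp (-Real.log X) b (by linarith) hb hb1
  rw [neg_neg] at hA
  have hN01 : 1 ≤ X / 9 := by omega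
  have hN0' : ((X / 9 : ℕ) : ℝ) ≤ X / 9 := by exact_mod_cast Nat.cast_div_le
  have hN0'' : (X : ℝ) / 10 ≤ ((X / 9 : ℕ) : ℝ) := by
    have h1 : X < (X / 9 + 1) * 9 := by omega
    have h2 : (X : ℝ) < (((X / 9 : ℕ) : ℝ) + 1) * 9 := by exact_mod_cast h1
    linarith
  have hN00 : (0:ℝ) < ((X / 9 : ℕ) : ℝ) := by exact_mod_cast hN01
  have hlN0 : Real.log ((X / 9 : ℕ) : ℝ) < Real.log X - 2 := by
    have h1 : Real.log ((X / 9 : ℕ) : ℝ) ≤ Real.log (X / 9) := Real.log_le_log hN00 hN0'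
    rw [Real.log_div hX0.ne' (by norm_num)] at h1
    have h2 : 2 < Real.log 9 := by
      rw [Real.lt_log_iff_exp_lt (by norm_num)]; linarith
    linarith
  have hlN : Real.log X - 2 + 6 < Real.log ((60 * X : ℕ) : ℝ) := by
    push_cast
    rw [Real.log_mul (by norm_num) hX0.ne']
    have hlog60 : (4:ℝ) < Real.log 60 := by
      rw [Real.lt_log_iff_exp_lt (by norm_num)]
      have : Real.exp 4 = (Real.exp 1) ^ 4 := by
        rw [← Real.exp_nat_mul]; norm_num
      rw [this]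
      have h1 := Real.exp_one_lt_d9
      calc (Real.exp 1) ^ 4 ≤ (2.7182818286:ℝ) ^ 4 :=
            pow_le_pow_left₀ (Real.exp_pos 1).le h1.le 4
        _ < 60 := by norm_num
    linarith
  have hmain := pf_sum_int (t := t) hA hM (by linarith) (60 * X) (X / 9) hlN hN01 hlN0
  have h60 : (1:ℝ) ≤ ((60 * X : ℕ) : ℝ) := by
    have : 1 ≤ 60 * X := by omega
    exact_mod_cast this
  rw [XFB_subst _ hA.c0 t _ h60] at hmain
  refine hmain.trans ?_
  have ht := abs_nonneg t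
  calc M * (2 + |t|) * (2 / ((X / 9 : ℕ) : ℝ)) ≤ (M + 1) * (2 * (1 + |t|)) * (20 / X) := by
        apply mul_le_mul _ _ (by positivity) (by positivity)
        · nlinarith
        · rw [div_le_div_iff₀ hN00 hX0]
          linarith
    _ = 40 * (M + 1) * (1 + |t|) / X := by ring

end Pool.Agent.Lib.H18Q
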