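import Pool.Agent.Lib.H18Q.PG2
import Pool.Agent.Lib.H18Q.PD
import Pool.Agent.Lib.H18Q.PF
import Pool.Agent.Lib.H18Q.E7
import Pool.Agent.Lib.H68X.XZ4
import Pool.Agent.Lib.H68X.XSIE

/-!
# Project H18Q, chunk PH: the L1 norms at good and at exceptional levels
-/

open Finset

namespace Pool.Agent.Lib.H18Q

open Pool.Agent.Lib.H68T

theorem ph_w_cont : Continuous w := by
  unfold w
  exact (Real.smoothTransition.continuous.comp (by fun_prop)).mul
    (Real.smoothTransition.continuous.comp (by fun_prop))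

theorem ph_w_zero {y : ℝ} (hy : y ∉ Set.Icc (-2 : ℝ) 4) : w y = 0 := by
  unfold w
  rw [Set.mem_Icc, not_and_or, not_le, not_le] at hy
  rcases hy with h | h
  · rw [Real.smoothTransition.zero_of_nonpos (by linarith), zero_mul]
  · rw [Real.smoothTransition.zero_of_nonpos (x := 4 - y) (by linarith), mul_zero]

theorem ph_FF_cont (X : ℕ) (h : ℕ → ℂ) : Continuous (FF X h) := by
  unfold FF
  refine continuous_finsetSum _ fun m hm => ?_
  have hm0 : (m : ℂ) ≠ 0 := by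
    have := (mem_Icc.1 hm).1
    exact_mod_cast (by omega : m ≠ 0)
  exact continuous_const.mul (Continuous.const_cpow (by fun_prop) (Or.inl hm0))

theorem ph_Mb_cont (X : ℕ) (b : ℝ) : Continuous (Mb X b) := by
  have h1 : Mb X b = fun t : ℝ => ∫ u in Set.Icc (Real.log X - 2) (Real.log X + 4),
      (w (u - Real.log X) : ℂ) * Complex.exp (-((1 - b : ℝ) + t * Complex.I) * u) := by
    funext t
    unfold Mb
    symm
    apply MeasureTheory.setIntegral_eq_integral_of_forall_compl_eq_zero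
    intro u hu
    rw [ph_w_zero, Complex.ofReal_zero, zero_mul]
    intro h
    apply hu
    constructor <;> linarith [h.1, h.2]
  rw [h1]
  refine continuous_parametric_integral_of_continuous ?_ isCompact_Icc
  have hw := ph_w_cont
  refine Continuous.mul ?_ ?_
  · exact Complex.continuous_ofReal.comp (hw.comp (by fun_prop))
  · fun_prop

/-- comparison of the L1 norms -/
theorem ph_tri (A M F : ℝ → ℂ) (hA : Continuous A) (hM : Continuous M) (hF : Continuous F)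
    (S E : ℝ) (hS : 0 ≤ S) (hE : ∀ t ∈ Set.Icc (-S) S, ‖F t - M t‖ ≤ E) :
    ∫ t in (-S)..S, ‖A t - F t‖ ≤ (∫ t in (-S)..S, ‖A t - M t‖) + 2 * S * E := by
  have h1 : ∫ t in (-S)..S, ‖A t - F t‖ ≤ ∫ t in (-S)..S, (‖A t - M t‖ + E) := by
    apply intervalIntegral.integral_mono_on (by linarith)
    · exact ((hA.sub hF).norm).intervalIntegrable _ _
    · exact (((hA.sub hM).norm).add continuous_const).intervalIntegrable _ _
    · intro t ht
      have h2 := hE t ht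
      calc ‖A t - F t‖ = ‖(A t - M t) - (F t - M t)‖ := by ring_nf
        _ ≤ ‖A t - M t‖ + ‖F t - M t‖ := norm_sub_le _ _
        _ ≤ _ := by linarith
  refine h1.trans (le_of_eq ?_)
  have h2 : Continuous fun t => ‖A t - M t‖ := (hA.sub hM).norm
  rw [intervalIntegral.integral_add (h2.intervalIntegrable _ _)
    (continuous_const.intervalIntegrable _ _), intervalIntegral.integral_const, smul_eq_mul]
  ring

theorem ph_q6 {Q : ℕ} (hQ : (1 : ℝ) ≤ Q) : (Q : ℝ) ^ (-6 : ℝ) = 1 / (Q : ℝ) ^ 6 := by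
  have e2 : (Q : ℝ) ^ (6 : ℝ) = (Q : ℝ) ^ 6 := by exact_mod_cast Real.rpow_natCast (Q : ℝ) 6
  rw [Real.rpow_neg (by linarith), e2, one_div]

/-- the error of the main term -/
theorem ph_err {CF K : ℝ} {Q X : ℕ} (hCF : 0 < CF) (hK : 21 ≤ K) (hKC : 4 * CF ≤ K)
    (h : RegP K Q X) :
    2 * (Q : ℝ) ^ 7 * (CF * (1 + (Q : ℝ) ^ 7) / X) ≤ 1 / (Q : ℝ) ^ 6 := by
  have hK1 : 1 ≤ K := by linarith
  have hQK := h.Q_ge hK1
  have hQ0 : (0 : ℝ) < Q := by linarith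
  have hX0 : (0 : ℝ) < X := by exact_mod_cast h.X_pos (by linarith)
  have hlQ : 0 ≤ Real.log Q := by linarith [h.logQ_ge hK1]
  have hX : (Q : ℝ) ^ 21 ≤ X := by
    rw [← Real.log_le_log_iff (by positivity) hX0, Real.log_pow]
    have h1 := h.logQ_le hK1
    have h2 : 21 * Real.log Q ≤ K * Real.log Q := mul_le_mul_of_nonneg_right hK hlQ
    push_cast
    linarith
  have h7 : (1 : ℝ) ≤ (Q : ℝ) ^ 7 := one_le_pow₀ (by linarith)
  rw [← mul_div_assoc, div_le_div_iff₀ hX0 (by positivity)]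
  calc 2 * (Q : ℝ) ^ 7 * (CF * (1 + (Q : ℝ) ^ 7)) * (Q : ℝ) ^ 6
      ≤ 2 * (Q : ℝ) ^ 7 * (CF * (2 * (Q : ℝ) ^ 7)) * (Q : ℝ) ^ 6 := by
        apply mul_le_mul_of_nonneg_right _ (by positivity)
        apply mul_le_mul_of_nonneg_left _ (by positivity)
        apply mul_le_mul_of_nonneg_left _ hCF.le
        linarith
    _ = (4 * CF) * (Q : ℝ) ^ 20 := by ring
    _ ≤ Q * (Q : ℝ) ^ 20 := mul_le_mul_of_nonneg_right (hKC.trans hQK) (by positivity)
    _ = (Q : ℝ) ^ 21 := by ring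
    _ ≤ X := hX
    _ = 1 * X := (one_mul _).symm

/-- the logarithmic derivatives -/
theorem ph_ld_p0 (s : ℂ) (hs : 1 < s.re) : logDeriv (Lp p0) s =
    -LSeries (fun n => (ArithmeticFunction.vonMangoldt n : ℂ) * p0.2 (n : ZMod p0.1)) s +
      ((1 : ℝ) : ℂ) / (s - ((1 : ℝ) : ℂ)) := by
  have hfun : (fun n : ℕ => (ArithmeticFunction.vonMangoldt n : ℂ) * (p0.2 (n : ZMod p0.1) : ℂ)) =
      fun n : ℕ => (ArithmeticFunction.vonMangoldt n : ℂ) := by
    funext n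
    have h1 : (p0.2 : DirichletCharacter ℂ p0.1) (n : ZMod p0.1) = 1 := by
      have h2 : (n : ZMod p0.1) = 1 := by
        have : Subsingleton (ZMod p0.1) := by
          change Subsingleton (ZMod 1)
          infer_instance
        exact Subsingleton.elim _ _
      rw [h2, map_one]
    rw [h1, mul_one]
  rw [hfun, Lp_p0, lab1_Z s hs, Complex.ofReal_one]
  ring

theorem ph_ld_ne {Q : ℕ} {p : Σ r : ℕ, DirichletCharacter ℂ r} (hp : p ∈ PC Q) (h : p ≠ p0) (s : ℂ)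
    (hs : 1 < s.re) (b : ℝ) : logDeriv (Lp p) s =
    -LSeries (fun n => (ArithmeticFunction.vonMangoldt n : ℂ) * p.2 (n : ZMod p.1)) s +
      ((0 : ℝ) : ℂ) / (s - (b : ℂ)) := by
  obtain ⟨hne, hLp⟩ := Lp_mem hp h
  rw [hLp, lab1_char p.1 p.2 s hs, Complex.ofReal_zero, zero_div]
  ring

/-- splitting of the sum -/
theorem ph_split {α : Type*} (S : Finset α) (a : α) (ha : a ∈ S) (P : α → Prop) [DecidablePred P]
    (hP : ∀ x, P x ↔ x ≠ a) (f : α → ℝ) : ∑ x ∈ S, f x = f a + ∑ x ∈ S.filter P, f x := by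
  classical
  rw [← Finset.add_sum_erase S f ha]
  congr 1
  refine Finset.sum_congr ?_ fun _ _ => rfl
  ext x
  rw [Finset.mem_erase, Finset.mem_filter, hP]
  tauto

open scoped Classical in
/-- Good levels. Proof: `L1_family` with `g = Lp` (`Fam_Lp`), `ε p = 1`, `b p = 1` for `p0`
(`lab1_Z`, `Lp_p0`), `ε p = 0`, `b p = 1` else (`lab1_char`, `Lp_mem`); `zero_sum` with `z = c'` of
`zero_free_good`; `PF_main` with `b = 1` and `PF_F0` (`∫_{|t| ≤ Q^7} C (1+|t|)/X ≤ Q^(-6)` for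
`X ≥ Q^30`). The total is at most `C (C exp (-K c'/16) + Q^(-6)) + 2 Q^(-6) ≤ e0` for `K` and `Q`
large (`Q ≥ exp(K²)` by `RegP`; use `RegP.mono` to apply `zero_sum` with the large `K`). -/
theorem L1_good (c e0 : ℝ) (hc : 0 < c) (he : 0 < e0) : ∃ K : ℝ, 1 ≤ K ∧ ∀ Q X : ℕ,
    RegP K Q X → Good c Q →
    (∫ t in (-(Q : ℝ) ^ 7)..((Q : ℝ) ^ 7), ‖FL X p0 t - F0 X t‖) +
    ∑ p ∈ (PC Q).filter (fun p => p ≠ p0), ∫ t in (-(Q : ℝ) ^ 7)..((Q : ℝ) ^ 7),
      ‖FL X p t‖ ≤ e0 := by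
  obtain ⟨C0, K1, h0, hfam⟩ := Fam_Lp
  obtain ⟨CL, KL, hCL, hKL, hL1⟩ := L1_family C0 h0
  obtain ⟨CZ, KZ, hCZ, hKZ, hZ⟩ := zero_sum C0 h0
  obtain ⟨c', K2, hc', hfree⟩ := zero_free_good c hc
  obtain ⟨CF, KF, hCF, hF⟩ := PF_main
  refine ⟨max (max (max KL KZ) (max K1 K2)) (max (max KF 21) (max (4 * CF)
    (max (32 * CL * CZ / (c' * e0)) (2 * (CL + 2) / e0)))),
    le_trans hKL ((le_max_left _ _).trans ((le_max_left _ _).trans (le_max_left _ _))), ?_⟩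
  intro Q X hreg hgood
  obtain ⟨K, hKd⟩ : ∃ K, K = max (max (max KL KZ) (max K1 K2)) (max (max KF 21) (max (4 * CF)
    (max (32 * CL * CZ / (c' * e0)) (2 * (CL + 2) / e0)))) := ⟨_, rfl⟩
  rw [← hKd] at hreg
  have k1 : KL ≤ K := by rw [hKd]; exact (le_max_left _ _).trans ((le_max_left _ _).trans (le_max_left _ _))
  have k2 : KZ ≤ K := by rw [hKd]; exact (le_max_right _ _).trans ((le_max_left _ _).trans (le_max_left _ _))
  have k3 : K1 ≤ K := by rw [hKd]; exact (le_max_left _ _).trans ((le_max_right _ _).trans (le_max_left _ _))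
  have k4 : K2 ≤ K := by rw [hKd]; exact (le_max_right _ _).trans ((le_max_right _ _).trans (le_max_left _ _))
  have k5 : KF ≤ K := by rw [hKd]; exact (le_max_left _ _).trans ((le_max_left _ _).trans (le_max_right _ _))
  have k6 : 21 ≤ K := by rw [hKd]; exact (le_max_right _ _).trans ((le_max_left _ _).trans (le_max_right _ _))
  have k7 : 4 * CF ≤ K := by
    rw [hKd]; exact (le_max_left _ _).trans ((le_max_right _ _).trans (le_max_right _ _))
  have k8 : 32 * CL * CZ / (c' * e0) ≤ K := by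
    rw [hKd]
    exact (le_max_left _ _).trans ((le_max_right _ _).trans ((le_max_right _ _).trans (le_max_right _ _)))
  have k9 : 2 * (CL + 2) / e0 ≤ K := by
    rw [hKd]
    exact (le_max_right _ _).trans ((le_max_right _ _).trans ((le_max_right _ _).trans (le_max_right _ _)))
  clear hKd
  have hK1 : 1 ≤ K := by linarith
  have hQK := hreg.Q_ge hK1
  have hXK := hreg.X_ge (by linarith)
  have hQ1 : (1 : ℝ) ≤ Q := by linarith
  have hQ1' : 1 ≤ Q := by exact_mod_cast hQ1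
  have hfamQ := hfam Q (k3.trans hQK)
  have hpow : (0 : ℝ) ≤ (Q : ℝ) ^ 7 := by positivity
  -- the family
  have hmain := hL1 Q X (hreg.mono (by linarith) k1) Lp (fun p => if p = p0 then 1 else 0)
    (fun _ => 1) hfamQ (by
      intro p hp
      refine ⟨?_, le_refl _, ?_⟩
      · split_ifs <;> simp
      · intro s hs
        by_cases h : p = p0
        · rw [if_pos h, h]
          exact ph_ld_p0 s hs
        · rw [if_neg h]
          exact ph_ld_ne hp h s hs 1)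
  have hzs := hZ K k2 Q X hreg Lp hfamQ c' (hfree Q (k4.trans hQK) hgood)
  rw [ph_split (PC Q) p0 (p0_mem hQ1') (fun p => p ≠ p0) (fun _ => Iff.rfl)] at hmain
  have hsum : ∑ p ∈ (PC Q).filter (fun p => p ≠ p0), ∫ t in (-(Q : ℝ) ^ 7)..((Q : ℝ) ^ 7),
      ‖FL X p t - (((if p = p0 then 1 else 0 : ℝ)) : ℂ) * Mb X 1 t‖ =
      ∑ p ∈ (PC Q).filter (fun p => p ≠ p0), ∫ t in (-(Q : ℝ) ^ 7)..((Q : ℝ) ^ 7), ‖FL X p t‖ := by
    refine Finset.sum_congr rfl fun p hp => ?_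
    rw [if_neg (mem_filter.1 hp).2]
    simp
  rw [hsum] at hmain
  have htri := ph_tri (FL X p0) (Mb X 1) (F0 X) (ph_FF_cont X _) (ph_Mb_cont X 1) (ph_FF_cont X _)
    ((Q : ℝ) ^ 7) (CF * (1 + (Q : ℝ) ^ 7) / X) hpow (by
      intro t ht
      rw [PF_F0]
      refine (hF X (k5.trans hXK) 1 t (by norm_num) le_rfl).trans ?_
      apply div_le_div_of_nonneg_right _ (Nat.cast_nonneg _)
      apply mul_le_mul_of_nonneg_left _ hCF.le
      have := abs_le.2 ⟨ht.1, ht.2⟩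
      linarith)
  have herr := ph_err hCF k6 k7 hreg
  have hp0t : ∫ t in (-(Q : ℝ) ^ 7)..((Q : ℝ) ^ 7),
      ‖FL X p0 t - (((if p0 = p0 then 1 else 0 : ℝ)) : ℂ) * Mb X 1 t‖ =
      ∫ t in (-(Q : ℝ) ^ 7)..((Q : ℝ) ^ 7), ‖FL X p0 t - Mb X 1 t‖ := by
    rw [if_pos rfl]
    simp
  rw [hp0t] at hmain
  rw [ph_q6 hQ1] at hmain hzs
  have hq : 1 / (Q : ℝ) ^ 6 ≤ 1 / Q := by
    apply one_div_le_one_div_of_le (by linarith)
    calc (Q : ℝ) = (Q : ℝ) ^ 1 := (pow_one _).symm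
      _ ≤ (Q : ℝ) ^ 6 := pow_le_pow_right₀ hQ1 (by norm_num)
  have hexp : Real.exp (-(K / 16 * c')) ≤ 16 / (K * c') := by
    have hx : 0 < K * c' / 16 := by positivity
    have h1 := Real.add_one_le_exp (K * c' / 16)
    rw [show -(K / 16 * c') = -(K * c' / 16) by ring, Real.exp_neg]
    rw [show (16 : ℝ) / (K * c') = (K * c' / 16)⁻¹ by rw [inv_div]]
    exact inv_anti₀ hx (by linarith)
  have hA1 : CL * (CZ * Real.exp (-(K / 16 * c'))) ≤ e0 / 2 := by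
    have h1 : CL * (CZ * Real.exp (-(K / 16 * c'))) ≤ CL * (CZ * (16 / (K * c'))) := by
      apply mul_le_mul_of_nonneg_left _ (by linarith)
      exact mul_le_mul_of_nonneg_left hexp (by linarith)
    refine h1.trans ?_
    rw [div_le_iff₀ (by positivity)] at k8
    have h2 : CL * (CZ * (16 / (K * c'))) = CL * CZ * 16 / (K * c') := by ring
    rw [h2, div_le_iff₀ (by positivity)]
    linarith
  have hA2 : (CL + 2) * (1 / (Q : ℝ) ^ 6) ≤ e0 / 2 := by
    have h1 : (CL + 2) * (1 / (Q : ℝ) ^ 6) ≤ (CL + 2) * (1 / Q) :=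
      mul_le_mul_of_nonneg_left hq (by linarith)
    refine h1.trans ?_
    rw [div_le_iff₀ he] at k9
    rw [mul_one_div, div_le_iff₀ (by linarith)]
    have h2 : K * e0 ≤ Q * e0 := mul_le_mul_of_nonneg_right hQK he.le
    linarith
  have hA3 := mul_le_mul_of_nonneg_left hzs (by linarith : (0 : ℝ) ≤ CL)
  have hA4 : CL * (CZ * Real.exp (-(K / 16 * c')) + 1 / (Q : ℝ) ^ 6) =
      CL * (CZ * Real.exp (-(K / 16 * c'))) + CL * (1 / (Q : ℝ) ^ 6) := by ring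
  rw [hA4] at hA3
  have hA5 : (CL + 2) * (1 / (Q : ℝ) ^ 6) = CL * (1 / (Q : ℝ) ^ 6) + 2 * (1 / (Q : ℝ) ^ 6) := by ring
  rw [hA5] at hA2
  linarith

open scoped Classical in
/-- Exceptional levels. Proof: `L1_family` with `g = Lx r ψ β` (`Fam_Lx`; `β ≥ 7/8` since
`1 - β ≤ c1/log Q`), `ε = 1, b = 1` for `p0`, `ε = -1, b = β` for `(r, ψ)` (`Lx_mk`, `Lp_mk`,
`lab1_char`, and `logDeriv (dslope L β) = logDeriv L - 1/(s - β)`, `XZ4_dslope_logderiv`), `ε = 0`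
else; `zero_sum` with `z = Y/C`, `Y = log (1/(η log Q))`, `η = 1 - β` (`repulsion`; `c1` the one of
`repulsion`): `exp (-K z/16) = (η log Q)^(K/(16 C)) ≤ c1^(K/(16 C) - 1) η log Q` and `c1 < 1`; so it
is `≤ (e0/2)/C² · η log Q` for `K` large. `PF_main` for `b = 1` and `b = β`. The errors `Q^(-6)` are
`≤ e0/10 η log Q` since `η ≥ c/r² ≥ c/Q²` (`zero_elementary` in `H68X/XSIE`). If `η log Q` is `0`...
it is positive (`β < 1`, `Q ≥ 2`). -/
theorem L1_exceptional : ∃ c1 : ℝ, 0 < c1 ∧ c1 < 1 ∧ ∀ e0 : ℝ, 0 < e0 → ∃ K : ℝ, 1 ≤ K ∧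
    ∀ Q X : ℕ, RegP K Q X → ∀ (r : ℕ) [NeZero r] (ψ : DirichletCharacter ℂ r), r ≤ Q →
    ψ.IsPrimitive → ψ ≠ 1 → ψ ^ 2 = 1 → ∀ β : ℝ, β < 1 → ψ.LFunction (β : ℂ) = 0 →
    (1 - β) * Real.log Q ≤ c1 →
    (∫ t in (-(Q : ℝ) ^ 7)..((Q : ℝ) ^ 7), ‖FL X p0 t - F0 X t‖) +
    (∫ t in (-(Q : ℝ) ^ 7)..((Q : ℝ) ^ 7), ‖FL X ⟨r, ψ⟩ t + Fb X β t‖) +
    ∑ p ∈ (PC Q).filter (fun p => p ≠ p0 ∧ p ≠ ⟨r, ψ⟩),
      ∫ t in (-(Q : ℝ) ^ 7)..((Q : ℝ) ^ 7), ‖FL X p t‖ ≤ e0 * ((1 - β) * Real.log Q) := by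
  obtain ⟨CR, c1, KR, hCR, hc1, hc11, hrep⟩ := repulsion
  obtain ⟨C0, K1, h0, hfam⟩ := Fam_Lx
  obtain ⟨CL, KL, hCL, hKL, hL1⟩ := L1_family C0 h0
  obtain ⟨CZ, KZ, hCZ, hKZ, hZ⟩ := zero_sum C0 h0
  obtain ⟨CF, KF, hCF, hF⟩ := PF_main
  obtain ⟨ce, hce, hel⟩ := zero_elementary
  refine ⟨c1, hc1, hc11, fun e0 he => ?_⟩
  have hlam : 0 < Real.log (1 / c1) := Real.log_pos (by rw [lt_div_iff₀ hc1]; linarith)
  obtain ⟨lam, hlamd⟩ : ∃ lam, lam = Real.log (1 / c1) := ⟨_, rfl⟩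
  rw [← hlamd] at hlam
  refine ⟨max (max (max KL KZ) (max K1 KR)) (max (max KF 21) (max (4 * CF)
    (max (16 * CR * (1 + 2 * CL * CZ / (e0 * lam))) (2 * (CL + 3) / (e0 * ce))))),
    le_trans hKL ((le_max_left _ _).trans ((le_max_left _ _).trans (le_max_left _ _))), ?_⟩
  intro Q X hreg r _ ψ hr hprim hψ1 hψ2 β hβ hLβ hsmall
  obtain ⟨K, hKd⟩ : ∃ K, K = max (max (max KL KZ) (max K1 KR)) (max (max KF 21) (max (4 * CF)
    (max (16 * CR * (1 + 2 * CL * CZ / (e0 * lam))) (2 * (CL + 3) / (e0 * ce))))) := ⟨_, rfl⟩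
  rw [← hKd] at hreg
  have k1 : KL ≤ K := by rw [hKd]; exact (le_max_left _ _).trans ((le_max_left _ _).trans (le_max_left _ _))
  have k2 : KZ ≤ K := by rw [hKd]; exact (le_max_right _ _).trans ((le_max_left _ _).trans (le_max_left _ _))
  have k3 : K1 ≤ K := by rw [hKd]; exact (le_max_left _ _).trans ((le_max_right _ _).trans (le_max_left _ _))
  have k4 : KR ≤ K := by rw [hKd]; exact (le_max_right _ _).trans ((le_max_right _ _).trans (le_max_left _ _))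
  have k5 : KF ≤ K := by rw [hKd]; exact (le_max_left _ _).trans ((le_max_left _ _).trans (le_max_right _ _))
  have k6 : 21 ≤ K := by rw [hKd]; exact (le_max_right _ _).trans ((le_max_left _ _).trans (le_max_right _ _))
  have k7 : 4 * CF ≤ K := by
    rw [hKd]; exact (le_max_left _ _).trans ((le_max_right _ _).trans (le_max_right _ _))
  have k8 : 16 * CR * (1 + 2 * CL * CZ / (e0 * lam)) ≤ K := by
    rw [hKd]
    exact (le_max_left _ _).trans ((le_max_right _ _).trans ((le_max_right _ _).trans (le_max_right _ _)))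
  have k9 : 2 * (CL + 3) / (e0 * ce) ≤ K := by
    rw [hKd]
    exact (le_max_right _ _).trans ((le_max_right _ _).trans ((le_max_right _ _).trans (le_max_right _ _)))
  clear hKd
  have hK1 : 1 ≤ K := by linarith
  have hQK := hreg.Q_ge hK1
  have hXK := hreg.X_ge (by linarith)
  have hlQ := hreg.logQ_ge hK1
  have hQ1 : (1 : ℝ) ≤ Q := by linarith
  have hQ1' : 1 ≤ Q := by exact_mod_cast hQ1
  have hη : 0 < 1 - β := by linarith
  have hβ34 : 3 / 4 ≤ β := by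
    by_contra hcon
    have h1 : (1 / 4 : ℝ) ≤ 1 - β := by linarith [not_le.1 hcon]
    have h2 : (1 / 4 : ℝ) * 21 ≤ (1 - β) * Real.log Q :=
      mul_le_mul h1 (by linarith) (by norm_num) hη.le
    linarith
  have hfamQ := hfam Q (k3.trans hQK) r ψ hr hψ1 β hβ34 hβ hLβ
  have hpow : (0 : ℝ) ≤ (Q : ℝ) ^ 7 := by positivity
  have hmemψ : (⟨r, ψ⟩ : Σ r : ℕ, DirichletCharacter ℂ r) ∈ PC Q :=
    mem_PC.2 ⟨Nat.pos_of_ne_zero (NeZero.ne r), hr, hprim⟩
  have hneψ : (⟨r, ψ⟩ : Σ r : ℕ, DirichletCharacter ℂ r) ≠ p0 := by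
    intro h
    unfold p0 at h
    obtain ⟨h1, h2⟩ := Sigma.mk.inj_iff.1 h
    subst h1
    exact hψ1 (eq_of_heq h2)
  -- the family
  have hmain := hL1 Q X (hreg.mono (by linarith) k1) (Lx r ψ β)
    (fun p => if p = p0 then 1 else if p = ⟨r, ψ⟩ then -1 else 0)
    (fun p => if p = ⟨r, ψ⟩ then β else 1) hfamQ (by
      intro p hp
      refine ⟨?_, ?_, ?_⟩
      · split_ifs <;> simp
      · split_ifs
        · exact hβ.le
        · exact le_rfl
      · intro s hs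
        by_cases h : p = p0
        · have h2 : p ≠ ⟨r, ψ⟩ := by rw [h]; exact fun h3 => hneψ h3.symm
          rw [if_pos h, if_neg h2, Lx_of_ne r ψ β p h2, h]
          exact ph_ld_p0 s hs
        · by_cases h2 : p = ⟨r, ψ⟩
          · rw [if_neg h, if_pos h2, if_pos h2, h2, Lx_mk, logDeriv_apply]
            have hd := DirichletCharacter.differentiable_LFunction hψ1
            rw [Lp_mk r ψ hneψ]
            rw [XZ4_dslope_logderiv hd (β : ℂ) s hLβ (by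
              rintro rfl
              rw [Complex.ofReal_re] at hs
              linarith) (DirichletCharacter.LFunction_ne_zero_of_one_le_re ψ (Or.inl hψ1) hs.le)]
            rw [← logDeriv_apply, lab1_char r ψ s hs]
            push_cast
            ring
          · rw [if_neg h, if_neg h2, if_neg h2, Lx_of_ne r ψ β p h2]
            exact ph_ld_ne hp h s hs 1)
  have hx0 : 0 < (1 - β) * Real.log Q := mul_pos hη (by linarith)
  obtain ⟨x, hxd⟩ : ∃ x, x = (1 - β) * Real.log Q := ⟨_, rfl⟩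
  rw [← hxd] at hx0 hsmall ⊢
  have hzs := hZ K k2 Q X hreg (Lx r ψ β) hfamQ (Real.log (1 / x) / CR) (by
    intro p hp ρ hρ him
    have h1 := hrep Q (k4.trans hQK) r ψ hr hprim hψ1 hψ2 β hβ hLβ (by rw [← hxd]; exact hsmall)
      p hp ρ hρ him
    rw [div_div, hxd]
    exact h1)
  rw [ph_split (PC Q) p0 (p0_mem hQ1') (fun p => p ≠ p0) (fun _ => Iff.rfl),
    ph_split ((PC Q).filter (fun p => p ≠ p0)) ⟨r, ψ⟩ (mem_filter.2 ⟨hmemψ, hneψ⟩)
      (fun p => p ≠ ⟨r, ψ⟩) (fun _ => Iff.rfl)] at hmain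
  have hfilt : ((PC Q).filter (fun p => p ≠ p0)).filter (fun p => p ≠ ⟨r, ψ⟩) =
      (PC Q).filter (fun p => p ≠ p0 ∧ p ≠ ⟨r, ψ⟩) := by
    ext p
    simp only [mem_filter]
    tauto
  rw [hfilt] at hmain
  have hsum : ∑ p ∈ (PC Q).filter (fun p => p ≠ p0 ∧ p ≠ ⟨r, ψ⟩),
      ∫ t in (-(Q : ℝ) ^ 7)..((Q : ℝ) ^ 7),
      ‖FL X p t - (((if p = p0 then 1 else if p = ⟨r, ψ⟩ then -1 else 0 : ℝ)) : ℂ) *
        Mb X (if p = ⟨r, ψ⟩ then β else 1) t‖ =
      ∑ p ∈ (PC Q).filter (fun p => p ≠ p0 ∧ p ≠ ⟨r, ψ⟩),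
        ∫ t in (-(Q : ℝ) ^ 7)..((Q : ℝ) ^ 7), ‖FL X p t‖ := by
    refine Finset.sum_congr rfl fun p hp => ?_
    rw [if_neg (mem_filter.1 hp).2.1, if_neg (mem_filter.1 hp).2.2]
    simp
  rw [hsum] at hmain
  have htri := ph_tri (FL X p0) (Mb X 1) (F0 X) (ph_FF_cont X _) (ph_Mb_cont X 1) (ph_FF_cont X _)
    ((Q : ℝ) ^ 7) (CF * (1 + (Q : ℝ) ^ 7) / X) hpow (by
      intro t ht
      rw [PF_F0]
      refine (hF X (k5.trans hXK) 1 t (by norm_num) le_rfl).trans ?_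
      apply div_le_div_of_nonneg_right _ (Nat.cast_nonneg _)
      apply mul_le_mul_of_nonneg_left _ hCF.le
      have := abs_le.2 ⟨ht.1, ht.2⟩
      linarith)
  have htri2 := ph_tri (FL X ⟨r, ψ⟩) (fun t => -Mb X β t) (fun t => -Fb X β t) (ph_FF_cont X _)
    (ph_Mb_cont X β).neg (ph_FF_cont X _).neg
    ((Q : ℝ) ^ 7) (CF * (1 + (Q : ℝ) ^ 7) / X) hpow (by
      intro t ht
      rw [show -Fb X β t - -Mb X β t = -(Fb X β t - Mb X β t) by ring, norm_neg]
      refine (hF X (k5.trans hXK) β t (by linarith) hβ.le).trans ?_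
      apply div_le_div_of_nonneg_right _ (Nat.cast_nonneg _)
      apply mul_le_mul_of_nonneg_left _ hCF.le
      have := abs_le.2 ⟨ht.1, ht.2⟩
      linarith)
  simp only [sub_neg_eq_add] at htri2
  have herr := ph_err hCF k6 k7 hreg
  have hp0t : ∫ t in (-(Q : ℝ) ^ 7)..((Q : ℝ) ^ 7),
      ‖FL X p0 t - (((if p0 = p0 then 1 else if p0 = ⟨r, ψ⟩ then -1 else 0 : ℝ)) : ℂ) *
        Mb X (if p0 = ⟨r, ψ⟩ then β else 1) t‖ =
      ∫ t in (-(Q : ℝ) ^ 7)..((Q : ℝ) ^ 7), ‖FL X p0 t - Mb X 1 t‖ := by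
    rw [if_pos rfl, if_neg (fun h3 => hneψ h3.symm)]
    simp
  have hψt : ∫ t in (-(Q : ℝ) ^ 7)..((Q : ℝ) ^ 7),
      ‖FL X ⟨r, ψ⟩ t - (((if (⟨r, ψ⟩ : Σ r : ℕ, DirichletCharacter ℂ r) = p0 then 1 else
        if (⟨r, ψ⟩ : Σ r : ℕ, DirichletCharacter ℂ r) = ⟨r, ψ⟩ then -1 else 0 : ℝ)) : ℂ) *
        Mb X (if (⟨r, ψ⟩ : Σ r : ℕ, DirichletCharacter ℂ r) = ⟨r, ψ⟩ then β else 1) t‖ =
      ∫ t in (-(Q : ℝ) ^ 7)..((Q : ℝ) ^ 7), ‖FL X ⟨r, ψ⟩ t + Mb X β t‖ := by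
    rw [if_neg hneψ, if_pos rfl, if_pos rfl]
    simp
  rw [hp0t, hψt] at hmain
  rw [ph_q6 hQ1] at hmain hzs
  -- the numbers
  have hA1 : CL * (CZ * Real.exp (-(K / 16 * (Real.log (1 / x) / CR)))) ≤ e0 / 2 * x := by
    have hxc : lam ≤ Real.log (1 / x) := by
      rw [hlamd]
      exact Real.log_le_log (by positivity) (one_div_le_one_div_of_le hx0 hsmall)
    have hxlog : Real.log (1 / x) = -Real.log x := by rw [one_div, Real.log_inv]
    set Y := Real.log (1 / x) with hY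
    have hY0 : 0 < Y := by linarith
    have e1 : -(K / 16 * (Y / CR)) = Real.log x + -((K / (16 * CR) - 1) * Y) := by
      have : Real.log x = -Y := by linarith
      rw [this]
      field_simp
      ring
    rw [e1, Real.exp_add, Real.exp_log hx0]
    have ha : 2 * CL * CZ / (e0 * lam) ≤ K / (16 * CR) - 1 := by
      have : 1 + 2 * CL * CZ / (e0 * lam) ≤ K / (16 * CR) := by
        rw [le_div_iff₀ (by positivity)]
        linarith
      linarith
    have hb : 2 * CL * CZ / e0 ≤ (K / (16 * CR) - 1) * Y := by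
      have h1 : 2 * CL * CZ / e0 = 2 * CL * CZ / (e0 * lam) * lam := by
        field_simp
      rw [h1]
      exact mul_le_mul ha hxc hlam.le (le_trans (by positivity) ha)
    have hc : Real.exp (-((K / (16 * CR) - 1) * Y)) ≤ e0 / (2 * CL * CZ) := by
      have h1 : 0 < 2 * CL * CZ / e0 := by positivity
      have h2 := Real.add_one_le_exp ((K / (16 * CR) - 1) * Y)
      have h3 : e0 / (2 * CL * CZ) = (2 * CL * CZ / e0)⁻¹ := by rw [inv_div]
      rw [Real.exp_neg, h3]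
      exact inv_anti₀ h1 (by linarith)
    calc CL * (CZ * (x * Real.exp (-((K / (16 * CR) - 1) * Y)))) =
        (CL * CZ * x) * Real.exp (-((K / (16 * CR) - 1) * Y)) := by ring
      _ ≤ (CL * CZ * x) * (e0 / (2 * CL * CZ)) := mul_le_mul_of_nonneg_left hc (by positivity)
      _ = e0 / 2 * x := by field_simp
  have hA2 : (CL + 3) * (1 / (Q : ℝ) ^ 6) ≤ e0 / 2 * x := by
    have hr1 : (1 : ℝ) ≤ r := by exact_mod_cast Nat.pos_of_ne_zero (NeZero.ne r)
    have hrQ : (r : ℝ) ≤ Q := by exact_mod_cast hr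
    have h1 := hel r ψ hψ1 hψ2 β hβ hLβ
    have h2 : ce / (Q : ℝ) ^ 2 ≤ 1 - β := by
      refine le_trans ?_ h1
      apply div_le_div_of_nonneg_left hce.le (by positivity)
      exact pow_le_pow_left₀ (by linarith) hrQ 2
    have h3 : ce / (Q : ℝ) ^ 2 ≤ x := by
      rw [hxd]
      have h4 : 0 ≤ ce / (Q : ℝ) ^ 2 := by positivity
      calc ce / (Q : ℝ) ^ 2 = ce / (Q : ℝ) ^ 2 * 1 := (mul_one _).symm
        _ ≤ (1 - β) * Real.log Q := mul_le_mul h2 (by linarith) zero_le_one hη.le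
    refine le_trans ?_ (mul_le_mul_of_nonneg_left h3 (by positivity))
    rw [div_le_iff₀ (by positivity)] at k9
    have h5 : (CL + 3) * (1 / (Q : ℝ) ^ 6) = (CL + 3) / (Q : ℝ) ^ 4 / (Q : ℝ) ^ 2 := by
      field_simp
    have h6 : e0 / 2 * (ce / (Q : ℝ) ^ 2) = (e0 * ce / 2) / (Q : ℝ) ^ 2 := by ring
    rw [h5, h6]
    apply div_le_div_of_nonneg_right _ (by positivity)
    rw [div_le_iff₀ (by positivity)]
    have h7 : (Q : ℝ) ≤ (Q : ℝ) ^ 4 := by
      calc (Q : ℝ) = (Q : ℝ) ^ 1 := (pow_one _).symm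
        _ ≤ (Q : ℝ) ^ 4 := pow_le_pow_right₀ hQ1 (by norm_num)
    have h8 : K * (e0 * ce) ≤ (Q : ℝ) ^ 4 * (e0 * ce) :=
      mul_le_mul_of_nonneg_right (hQK.trans h7) (by positivity)
    linarith
  have hA3 := mul_le_mul_of_nonneg_left hzs (by linarith : (0 : ℝ) ≤ CL)
  have hA4 : CL * (CZ * Real.exp (-(K / 16 * (Real.log (1 / x) / CR))) + 1 / (Q : ℝ) ^ 6) =
      CL * (CZ * Real.exp (-(K / 16 * (Real.log (1 / x) / CR)))) + CL * (1 / (Q : ℝ) ^ 6) := by ring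
  rw [hA4] at hA3
  have hA5 : (CL + 3) * (1 / (Q : ℝ) ^ 6) = CL * (1 / (Q : ℝ) ^ 6) + 3 * (1 / (Q : ℝ) ^ 6) := by ring
  rw [hA5] at hA2
  linarith

end Pool.Agent.Lib.H18Q
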