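import Pool.Agent.Lib.H18Q.CDefs
import Pool.Agent.Lib.H18Q.R2B
import Pool.Agent.Lib.H18Q.PH
import Pool.Agent.Lib.H68T.DA
import Pool.Agent.Lib.H68X.XSIE
import Pool.Agent.Lib.H68X.XDA

/-!
# Project H18Q, chunk CL1: the projection at good and at exceptional levels
-/

open Finset

namespace Pool.Agent.Lib.H18Q

open Pool.Agent.Lib.H68T

/-- `∑_n lp(n) tent(m - n) χ(n)`. -/
noncomputable def Bc (Q X : ℕ) (p : Σ r : ℕ, DirichletCharacter ℂ r) (m : ℤ) : ℂ :=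
  ∑ n ∈ Icc 1 (60 * X), ((lp n * tent (X / Q ^ 2) (m - n) : ℝ) : ℂ) * p.2 (n : ZMod p.1)

theorem cl1_tent_lip {Y : ℕ} (z : ℤ) : |tent Y (z + 1) - tent Y z| ≤ 1 / (Y : ℝ) ^ 2 := by
  unfold tent
  rw [← sub_div, abs_div, abs_of_nonneg (by positivity : (0 : ℝ) ≤ (Y : ℝ) ^ 2)]
  apply div_le_div_of_nonneg_right _ (by positivity)
  rw [max_comm 0 _, max_comm 0 ((Y : ℝ) - |(z : ℝ)|)]
  refine (abs_max_sub_max_le_abs _ _ _).trans ?_
  have h1 : ((Y : ℝ) - |((z + 1 : ℤ) : ℝ)|) - ((Y : ℝ) - |(z : ℝ)|) = |(z : ℝ)| - |((z + 1 : ℤ) : ℝ)| := by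
    ring
  rw [h1]
  refine (abs_abs_sub_abs_le_abs_sub _ _).trans ?_
  push_cast
  rw [show (z : ℝ) - (z + 1) = -1 by ring, abs_neg, abs_one]

theorem cl1_tent_zero {Y : ℕ} {z : ℤ} (h : ¬ (-(Y : ℤ) ≤ z ∧ z < Y)) :
    tent Y (z + 1) - tent Y z = 0 := by
  have h1 : ∀ z' : ℤ, (Y : ℤ) ≤ |z'| → tent Y z' = 0 := by
    intro z' hz'
    unfold tent
    have h2 : (Y : ℝ) ≤ |(z' : ℝ)| := by exact_mod_cast hz'
    rw [max_eq_left (by linarith), zero_div]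
  rw [not_and_or, not_le, not_lt] at h
  rcases h with h | h
  · rw [h1 (z + 1) (by rw [abs_of_nonpos (by omega)]; omega),
      h1 z (by rw [abs_of_nonpos (by omega)]; omega), sub_zero]
  · rw [h1 (z + 1) (by rw [abs_of_nonneg (by omega)]; omega),
      h1 z (by rw [abs_of_nonneg (by omega)]; omega), sub_zero]

/-- Slow variation. Proof: `Y = X / Q²`; `|tent Y (z + 1) - tent Y z| ≤ 1/Y²`, and it vanishes unless
`|z| ≤ Y + 1`; so the difference is at most `(2 Y + 5) log (60 X)/Y² ≤ 7 log (60 X)/Y ≤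
14 Q² log (60 X)/X ≤ Q^3/(2 X)` (`X/Q² ≤ 2 Y`; `log (60 X) ≤ Q/28` for `K` large). -/
theorem Bc_lip : ∃ K : ℝ, 1 ≤ K ∧ ∀ Q X : ℕ, RegP K Q X → ∀ (p : Σ r : ℕ, DirichletCharacter ℂ r)
    (m : ℤ), (X : ℤ) ≤ m → m ≤ 4 * X → ‖Bc Q X p (m + 1) - Bc Q X p m‖ ≤ (Q : ℝ) ^ 3 / (2 * X) := by
  obtain ⟨K1, hK1, h1⟩ := BPS_regimeP
  obtain ⟨K2, hK2, h2⟩ := regp_log_le 48 1 1 one_pos
  refine ⟨max K1 K2, hK1.trans (le_max_left _ _), fun Q X hreg p m hm hm4 => ?_⟩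
  have hK0 : 0 ≤ max K1 K2 := by linarith [le_max_left K1 K2]
  obtain ⟨hQ, hX, hY, hYX, hXY, -⟩ := h1 Q X (hreg.mono hK0 (le_max_left _ _))
  have hlog := h2 Q X (hreg.mono hK0 (le_max_right _ _))
  rw [Real.rpow_one, Real.rpow_one] at hlog
  have hlX := hreg.logX_ge_one (by linarith [le_max_left K1 K2] : 0 < max K1 K2)
  obtain ⟨Y, hYd⟩ : ∃ Y, Y = X / Q ^ 2 := ⟨_, rfl⟩
  have hX0 : (0 : ℝ) < X := by exact_mod_cast hX
  have hQ0 : (0 : ℝ) < Q := by exact_mod_cast hQ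
  have hBc : ∀ m, Bc Q X p m = ∑ n ∈ Icc 1 (60 * X), ((lp n * tent Y (m - n) : ℝ) : ℂ) *
      p.2 (n : ZMod p.1) := by
    intro m
    unfold Bc
    rw [← hYd]
  rw [← hYd] at hY hYX hXY
  have hY0 : (0 : ℝ) < Y := by exact_mod_cast hY
  rw [hBc, hBc, ← Finset.sum_sub_distrib]
  set L := Real.log (60 * X) with hL
  have hLb : L ≤ 6 * Real.log X := by
    rw [hL, Real.log_mul (by norm_num) hX0.ne']
    have h3 : Real.log 60 ≤ 5 := by
      rw [Real.log_le_iff_le_exp (by norm_num)]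
      have h4 : (2.7 : ℝ) ≤ Real.exp 1 := by linarith [Real.exp_one_gt_d9]
      have h5 : Real.exp 5 = Real.exp 1 ^ 5 := by
        rw [← Real.exp_nat_mul]
        norm_num
      rw [h5]
      calc (60 : ℝ) ≤ 2.7 ^ 5 := by norm_num
        _ ≤ Real.exp 1 ^ 5 := pow_le_pow_left₀ (by norm_num) h4 5
    linarith
  have hL0 : 0 ≤ L := by
    rw [hL]
    apply Real.log_nonneg
    have : (1 : ℝ) ≤ X := by exact_mod_cast hX
    linarith
  have hlp : ∀ n ∈ Icc 1 (60 * X), 0 ≤ lp n ∧ lp n ≤ L := by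
    intro n hn
    rw [mem_Icc] at hn
    unfold Pool.Agent.Lib.H68T.lp
    have h3 : (1 : ℝ) ≤ ((n : ℤ) : ℝ) := by exact_mod_cast hn.1
    have h4 : ((n : ℤ) : ℝ) ≤ 60 * X := by exact_mod_cast hn.2
    split_ifs
    · exact ⟨Real.log_nonneg h3, Real.log_le_log (by linarith) h4⟩
    · exact ⟨le_rfl, hL0⟩
  have hterm : ∀ n ∈ Icc 1 (60 * X), ‖((lp n * tent Y (m + 1 - n) : ℝ) : ℂ) * p.2 (n : ZMod p.1) -
      ((lp n * tent Y (m - n) : ℝ) : ℂ) * p.2 (n : ZMod p.1)‖ ≤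
      if -(Y : ℤ) ≤ m - n ∧ m - n < Y then L * (1 / (Y : ℝ) ^ 2) else 0 := by
    intro n hn
    rw [← sub_mul, ← Complex.ofReal_sub, ← mul_sub, norm_mul, Complex.norm_real, Real.norm_eq_abs, abs_mul]
    have e1 : m + 1 - (n : ℤ) = (m - n) + 1 := by ring
    rw [e1]
    have hchi : ‖p.2 (n : ZMod p.1)‖ ≤ 1 := DirichletCharacter.norm_le_one p.2 _
    split_ifs with h
    · calc |lp n| * |tent Y (m - n + 1) - tent Y (m - n)| * ‖p.2 (n : ZMod p.1)‖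
          ≤ (L * (1 / (Y : ℝ) ^ 2)) * 1 := by
            apply mul_le_mul _ hchi (norm_nonneg _) (by positivity)
            apply mul_le_mul _ (cl1_tent_lip _) (abs_nonneg _) hL0
            rw [abs_of_nonneg (hlp n hn).1]
            exact (hlp n hn).2
        _ = _ := mul_one _
    · rw [cl1_tent_zero h, abs_zero, mul_zero, zero_mul]
  refine (norm_sum_le _ _).trans ((Finset.sum_le_sum hterm).trans ?_)
  rw [← Finset.sum_filter, Finset.sum_const, nsmul_eq_mul]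
  have hcard : ((Icc 1 (60 * X)).filter (fun n : ℕ => -(Y : ℤ) ≤ m - n ∧ m - n < Y)).card ≤ 2 * Y := by
    have hsub : (Icc 1 (60 * X)).filter (fun n : ℕ => -(Y : ℤ) ≤ m - n ∧ m - n < Y) ⊆
        Ioc (m.toNat - Y) (m.toNat + Y) := by
      intro n hn
      rw [mem_filter] at hn
      rw [mem_Ioc]
      omega
    refine (Finset.card_le_card hsub).trans ?_
    rw [Nat.card_Ioc]
    omega
  have hcard' : (((Icc 1 (60 * X)).filter (fun n : ℕ => -(Y : ℤ) ≤ m - n ∧ m - n < Y)).card : ℝ) ≤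
      2 * Y := by exact_mod_cast hcard
  refine (mul_le_mul_of_nonneg_right hcard' (by positivity)).trans ?_
  have e2 : 2 * (Y : ℝ) * (L * (1 / (Y : ℝ) ^ 2)) = 2 * L / Y := by
    field_simp
  rw [e2, div_le_div_iff₀ hY0 (by positivity)]
  have h8 : 8 * L ≤ Q := by linarith
  calc 2 * L * (2 * (X : ℝ)) = 4 * L * X := by ring
    _ ≤ 4 * L * (2 * (Q : ℝ) ^ 2 * Y) := mul_le_mul_of_nonneg_left hXY (by linarith)
    _ = (8 * L) * ((Q : ℝ) ^ 2 * Y) := by ring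
    _ ≤ Q * ((Q : ℝ) ^ 2 * Y) := mul_le_mul_of_nonneg_right h8 (by positivity)
    _ = (Q : ℝ) ^ 3 * Y := by ring

/-- `Lk` as a sum over the components: `DA_expand` (`Q + X/Q² ≤ X`, `X/Q² < X` for `K` large). -/
theorem Lk_SG : ∃ K : ℝ, 1 ≤ K ∧ ∀ Q X : ℕ, RegP K Q X → ∀ m : ℤ, (X : ℤ) ≤ m → m ≤ 4 * X →
    (Lk Q (X / Q ^ 2) m : ℂ) = SG Q (fun p => Bc Q X p m) m := by
  obtain ⟨K1, hK1, h1⟩ := BPS_regimeP
  obtain ⟨K2, hK2, h2⟩ := regp_pow_le 2 1 1 one_pos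
  refine ⟨max K1 K2, hK1.trans (le_max_left _ _), fun Q X hreg m hm hm4 => ?_⟩
  have hK0 : 0 ≤ max K1 K2 := by linarith [le_max_left K1 K2]
  obtain ⟨hQ, hX, hY, hYX, hXY, -⟩ := h1 Q X (hreg.mono hK0 (le_max_left _ _))
  have hlog := h2 Q X (hreg.mono hK0 (le_max_right _ _))
  rw [Real.rpow_one, Real.rpow_one] at hlog
  have h3 : 2 * Q ≤ X := by exact_mod_cast hlog
  unfold SG Bc
  exact DA_expand Q X (X / Q ^ 2) m hm hm4 (by omega) (by omega)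

theorem cl1_SG_sub (Q : ℕ) (b b' : (Σ r : ℕ, DirichletCharacter ℂ r) → ℂ) (m : ℤ) :
    SG Q (fun p => b p - b' p) m = SG Q b m - SG Q b' m := by
  unfold SG
  rw [← Finset.sum_sub_distrib]
  exact Finset.sum_congr rfl fun p _ => by ring

theorem cl1_int_nonneg (Q : ℕ) (F : ℝ → ℂ) : 0 ≤ ∫ t in (-(Q : ℝ) ^ 7)..((Q : ℝ) ^ 7), ‖F t‖ := by
  apply intervalIntegral.integral_nonneg
  · have : (0 : ℝ) ≤ (Q : ℝ) ^ 7 := by positivity
    linarith
  · intro t _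
    exact norm_nonneg _

theorem cl1_p0_one (m : ℤ) : (starRingEnd ℂ) (p0.2 (m : ZMod p0.1)) = 1 := by
  have h1 : (m : ZMod p0.1) = 1 := by
    have : Subsingleton (ZMod p0.1) := by
      change Subsingleton (ZMod 1)
      infer_instance
    exact Subsingleton.elim _ _
  rw [h1, map_one, map_one]

/-- the bound for `p0` -/
theorem cl1_B0 : ∃ K : ℝ, 1 ≤ K ∧ ∀ Q X : ℕ, RegP K Q X → ∀ m : ℤ, (X : ℤ) ≤ m → m ≤ 4 * X →
    ‖Bc Q X p0 m - 1‖ ≤
      (∫ t in (-(Q : ℝ) ^ 7)..((Q : ℝ) ^ 7), ‖FL X p0 t - F0 X t‖) +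
        (Q : ℝ) ^ (-(5 / 2) : ℝ) := by
  obtain ⟨K, hK, h⟩ := B0_leP
  refine ⟨K, hK, fun Q X hreg m hm hm4 => ?_⟩
  refine le_trans (le_of_eq ?_) (h Q X hreg m hm hm4)
  have h1 : Bc Q X p0 m - 1 = ((∑ n ∈ Icc 1 (60 * X), lp n * tent (X / Q ^ 2) (m - n) - 1 : ℝ) : ℂ) := by
    unfold Bc
    push_cast
    congr 1
    refine Finset.sum_congr rfl fun n _ => ?_
    have h1 : (n : ZMod p0.1) = 1 := by
      have : Subsingleton (ZMod p0.1) := by
        change Subsingleton (ZMod 1)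
        infer_instance
      exact Subsingleton.elim _ _
    rw [h1, map_one, mul_one]
  rw [h1, Complex.norm_real, Real.norm_eq_abs]

theorem cl1_Qpow {Q : ℕ} (hQ : 1 ≤ Q) : (Q : ℝ) ^ 2 * (Q : ℝ) ^ (-(5 / 2) : ℝ) = 1 / Real.sqrt Q ∧
    (Q : ℝ) ^ (-(3 / 2) : ℝ) ≤ 1 / Real.sqrt Q := by
  have hQ0 : (0 : ℝ) < Q := by exact_mod_cast hQ
  have hQ1 : (1 : ℝ) ≤ Q := by exact_mod_cast hQ
  have h1 : 1 / Real.sqrt Q = (Q : ℝ) ^ (-(1 / 2) : ℝ) := by
    rw [Real.sqrt_eq_rpow, Real.rpow_neg hQ0.le, one_div]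
  rw [h1]
  constructor
  · have h2 : (Q : ℝ) ^ 2 = (Q : ℝ) ^ (2 : ℝ) := by exact_mod_cast (Real.rpow_natCast (Q : ℝ) 2).symm
    rw [h2, ← Real.rpow_add hQ0]
    norm_num
  · exact Real.rpow_le_rpow_of_exponent_le hQ1 (by norm_num)

/-- **Good levels.** Proof. `μ m p = 1` for `p = p0`, `0` else (`Gam Q 1 m = G Q m`: `Gam_one`; the
trivial character modulo `1` is `1`), `e m p = Bc Q X p m - μ m p`, `mb = μ`, `eb p0 = ∫ ‖FL - F0‖ +
Q^(-5/2)` (`B0_leP`), `eb p = ∫ ‖FL‖ + Q^(-5/2)` (`B_leP`); `∑ eb ≤ e0/2 + Q² Q^(-5/2) ≤ e0` by `L1_good`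
with `e0/2`; `eb ≤ e0 ≤ 2`. `Bc_lip`, `Lk_SG` (linearity of `SG`). -/
theorem lev_good (c e0 : ℝ) (hc : 0 < c) (he : 0 < e0) (he1 : e0 ≤ 1) : ∃ K : ℝ, 1 ≤ K ∧
    ∀ Q X : ℕ, RegP K Q X → Good c Q → Lev Q X e0 (fun m => G Q m) := by
  classical
  obtain ⟨K1, hK1, hL1⟩ := L1_good c (e0 / 2) hc (by positivity)
  obtain ⟨K2, hK2, hLip⟩ := Bc_lip
  obtain ⟨K3, hK3, hLk⟩ := Lk_SG
  obtain ⟨K4, hK4, hB0⟩ := cl1_B0
  obtain ⟨K5, hK5, hB⟩ := B_leP
  refine ⟨max (max (max K1 K2) (max K3 K4)) (max K5 (4 / e0 ^ 2)),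
    hK1.trans ((le_max_left _ _).trans ((le_max_left _ _).trans (le_max_left _ _))), ?_⟩
  intro Q X hreg hgood
  obtain ⟨K, hKd⟩ : ∃ K, K = max (max (max K1 K2) (max K3 K4)) (max K5 (4 / e0 ^ 2)) := ⟨_, rfl⟩
  rw [← hKd] at hreg
  have k1 : K1 ≤ K := by rw [hKd]; exact (le_max_left _ _).trans ((le_max_left _ _).trans (le_max_left _ _))
  have k2 : K2 ≤ K := by rw [hKd]; exact (le_max_right _ _).trans ((le_max_left _ _).trans (le_max_left _ _))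
  have k3 : K3 ≤ K := by rw [hKd]; exact (le_max_left _ _).trans ((le_max_right _ _).trans (le_max_left _ _))
  have k4 : K4 ≤ K := by rw [hKd]; exact (le_max_right _ _).trans ((le_max_right _ _).trans (le_max_left _ _))
  have k5 : K5 ≤ K := by rw [hKd]; exact (le_max_left _ _).trans (le_max_right _ _)
  have k6 : 4 / e0 ^ 2 ≤ K := by rw [hKd]; exact (le_max_right _ _).trans (le_max_right _ _)
  clear hKd
  have hKp : 1 ≤ K := hK1.trans k1
  have hK0 : 0 ≤ K := by linarith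
  have hQ1 : 1 ≤ Q := hreg.Q_pos hKp
  have hQ1' : (1 : ℝ) ≤ Q := by exact_mod_cast hQ1
  have hQK := hreg.Q_ge hKp
  have hX0 : (0 : ℝ) < X := by exact_mod_cast hreg.X_pos (by linarith)
  have hL := hL1 Q X (hreg.mono hK0 k1) hgood
  obtain ⟨q, hq⟩ : ∃ q, q = (Q : ℝ) ^ (-(5 / 2) : ℝ) := ⟨_, rfl⟩
  have hq0 : 0 ≤ q := by rw [hq]; positivity
  obtain ⟨eb, heb⟩ : ∃ eb : (Σ r : ℕ, DirichletCharacter ℂ r) → ℝ, eb = fun p =>
    (if p = p0 then ∫ t in (-(Q : ℝ) ^ 7)..((Q : ℝ) ^ 7), ‖FL X p0 t - F0 X t‖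
      else ∫ t in (-(Q : ℝ) ^ 7)..((Q : ℝ) ^ 7), ‖FL X p t‖) + q := ⟨_, rfl⟩
  have heb0 : ∀ p, 0 ≤ eb p := by
    intro p
    rw [heb]
    simp only
    split_ifs
    · exact add_nonneg (cl1_int_nonneg Q _) hq0
    · exact add_nonneg (cl1_int_nonneg Q _) hq0
  have hsum : ∑ p ∈ PC Q, eb p ≤ e0 := by
    have h1 : ∑ p ∈ PC Q, eb p =
        ∑ p ∈ PC Q, (if p = p0 then ∫ t in (-(Q : ℝ) ^ 7)..((Q : ℝ) ^ 7), ‖FL X p0 t - F0 X t‖
          else ∫ t in (-(Q : ℝ) ^ 7)..((Q : ℝ) ^ 7), ‖FL X p t‖) + (PC Q).card * q := by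
      rw [heb, Finset.sum_add_distrib, Finset.sum_const, nsmul_eq_mul]
    rw [h1, ph_split (PC Q) p0 (p0_mem hQ1) (fun p => p ≠ p0) (fun _ => Iff.rfl), if_pos rfl]
    have h2 : ∑ p ∈ (PC Q).filter (fun p => p ≠ p0),
        (if p = p0 then ∫ t in (-(Q : ℝ) ^ 7)..((Q : ℝ) ^ 7), ‖FL X p0 t - F0 X t‖
          else ∫ t in (-(Q : ℝ) ^ 7)..((Q : ℝ) ^ 7), ‖FL X p t‖) =
        ∑ p ∈ (PC Q).filter (fun p => p ≠ p0), ∫ t in (-(Q : ℝ) ^ 7)..((Q : ℝ) ^ 7), ‖FL X p t‖ :=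
      Finset.sum_congr rfl fun p hp => by rw [if_neg (mem_filter.1 hp).2]
    rw [h2]
    have h3 : ((PC Q).card : ℝ) * q ≤ 1 / Real.sqrt Q := by
      rw [← (cl1_Qpow hQ1).1, ← hq]
      apply mul_le_mul_of_nonneg_right _ hq0
      exact_mod_cast card_PC_le Q
    have h4 : 1 / Real.sqrt Q ≤ e0 / 2 := by
      have h5 : 2 / e0 ≤ Real.sqrt Q := by
        apply Real.le_sqrt_of_sq_le
        rw [div_pow]
        norm_num
        linarith
      rw [div_le_iff₀ (by positivity)] at h5 ⊢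
      · linarith
    linarith
  refine ⟨fun _ p => if p = p0 then 1 else 0, fun m p => Bc Q X p m - (if p = p0 then 1 else 0),
    fun p => if p = p0 then 1 else 0, eb, ?_, ?_, hsum, ?_⟩
  · intro p hp
    beta_reduce
    refine ⟨?_, ?_, heb0 p, ?_⟩
    · split_ifs <;> norm_num
    · split_ifs <;> norm_num
    · have h1 := Finset.single_le_sum (f := eb) (fun p _ => heb0 p) hp
      linarith
  · rw [Finset.sum_ite_eq' (PC Q) p0 (fun _ => (1 : ℝ)), if_pos (p0_mem hQ1)]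
    norm_num
  · intro m hm hm4
    have hG : ((G Q m : ℝ) : ℂ) = SG Q (fun p => if p = p0 then 1 else 0) m := by
      unfold SG
      beta_reduce
      rw [Finset.sum_eq_single p0]
      · rw [cl1_p0_one, if_pos rfl, mul_one, mul_one]
        have : Gam Q p0.1 m = Gam Q 1 m := rfl
        rw [this, Gam_one]
      · intro p _ hp
        rw [if_neg hp, mul_zero]
      · intro h
        exact absurd (p0_mem hQ1) h
    refine ⟨hG, ?_, ?_⟩
    · rw [Complex.ofReal_sub, hLk Q X (hreg.mono hK0 k3) m hm hm4, hG]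
      exact (cl1_SG_sub Q _ _ m).symm
    · intro p hp
      have hpos : 0 ≤ (Q : ℝ) ^ 3 / X := by positivity
      beta_reduce
      refine ⟨?_, ?_, ?_, ?_⟩
      · split_ifs <;> simp
      · rw [heb]
        simp only
        split_ifs with h
        · rw [h, hq]
          exact hB0 Q X (hreg.mono hK0 k4) m hm hm4
        · rw [sub_zero, hq]
          exact hB Q X (hreg.mono hK0 k5) p (mem_PC.1 hp).1 m hm hm4
      · simp only [sub_self, norm_zero]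
        exact hpos
      · have h1 := hLip Q X (hreg.mono hK0 k2) p m hm hm4
        have h2 : (Bc Q X p (m + 1) - (if p = p0 then 1 else 0)) - (Bc Q X p m - (if p = p0 then 1 else 0)) =
            Bc Q X p (m + 1) - Bc Q X p m := by ring
        rw [h2]
        refine h1.trans ?_
        apply div_le_div_of_nonneg_left (by positivity) hX0
        linarith

/-- `m^(β-1)` varies slowly -/
theorem cl1_rpow {x β : ℝ} (hx : 1 ≤ x) (hβ : 0 ≤ β) (hβ1 : β ≤ 1) :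
    |(x + 1) ^ (β - 1) - x ^ (β - 1)| ≤ 1 / x ∧ x ^ (β - 1) ≤ 1 ∧ 0 ≤ x ^ (β - 1) := by
  have hx0 : 0 < x := by linarith
  have h1 : x ^ (β - 1) ≤ 1 := Real.rpow_le_one_of_one_le_of_nonpos hx (by linarith)
  have h0 : 0 ≤ x ^ (β - 1) := Real.rpow_nonneg hx0.le _
  refine ⟨?_, h1, h0⟩
  have h2 : (x + 1) ^ (β - 1) ≤ x ^ (β - 1) :=
    Real.rpow_le_rpow_of_nonpos hx0 (by linarith) (by linarith)
  rw [abs_of_nonpos (by linarith)]
  have h3 : x / (x + 1) ≤ (x / (x + 1)) ^ (1 - β) := by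
    have h4 : 0 < x / (x + 1) := by positivity
    have h5 : x / (x + 1) ≤ 1 := by
      rw [div_le_one (by linarith)]
      linarith
    calc x / (x + 1) = (x / (x + 1)) ^ (1 : ℝ) := (Real.rpow_one _).symm
      _ ≤ (x / (x + 1)) ^ (1 - β) := Real.rpow_le_rpow_of_exponent_ge h4 h5 (by linarith)
  have h4 : (x + 1) ^ (β - 1) = x ^ (β - 1) * (x / (x + 1)) ^ (1 - β) := by
    rw [Real.div_rpow hx0.le (by linarith), mul_div_assoc', ← Real.rpow_add hx0,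
      show β - 1 + (1 - β) = 0 by ring, Real.rpow_zero, show β - 1 = -(1 - β) by ring,
      Real.rpow_neg (by linarith), one_div]
  rw [h4]
  have h5 : -(x ^ (β - 1) * (x / (x + 1)) ^ (1 - β) - x ^ (β - 1)) =
      x ^ (β - 1) * (1 - (x / (x + 1)) ^ (1 - β)) := by ring
  rw [h5]
  have h6 : 1 - (x / (x + 1)) ^ (1 - β) ≤ 1 / x := by
    have h7 : 1 - x / (x + 1) = 1 / (x + 1) := by field_simp; ring
    have h8 : 1 / (x + 1) ≤ 1 / x := one_div_le_one_div_of_le hx0 (by linarith)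
    linarith
  have h9 : 0 ≤ 1 - (x / (x + 1)) ^ (1 - β) := by
    have : (x / (x + 1)) ^ (1 - β) ≤ 1 := by
      apply Real.rpow_le_one (by positivity) _ (by linarith)
      rw [div_le_one (by linarith)]
      linarith
    linarith
  calc x ^ (β - 1) * (1 - (x / (x + 1)) ^ (1 - β)) ≤ 1 * (1 - (x / (x + 1)) ^ (1 - β)) :=
        mul_le_mul_of_nonneg_right h1 h9
    _ ≤ 1 / x := by linarith

/-- **Exceptional levels.** Proof. As `lev_good` with `μ m p0 = 1`, `μ m (r, ψ) = -m^(β-1)`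
(for `m ≥ 1`; `(r, ψ) ≠ p0`), `0` else; `mb = 1, 1, 0`. `Mod Q r ε β m = G Q m - ε m^(β-1) Gam Q r m`,
`ε = (ψ m).re`, `conj ψ(m) = ψ(m) = ε` (real character, `XDA_real`). `e m (r, ψ) = Bc + m^(β-1)`
(`B1_leP`), `|m^(β-1) - (m+1)^(β-1)| ≤ 1/m ≤ 1/X`. The total is at most `(e0/2) (1-β) log Q +
Q^(-1/2) + Q^(-3/2)` (`L1_exceptional` with `e0/2`), and `1 - β ≥ c/r² ≥ c Q^(-1/50)`
(`zero_elementary`, `r^100 ≤ Q`), so the last two terms are at most `(e0/2) (1-β) log Q`. `β ≥ 1/2`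
from `(1-β) log Q ≤ c1 < 1`. -/
theorem lev_exc : ∃ c1 : ℝ, 0 < c1 ∧ c1 < 1 ∧ ∀ e0 : ℝ, 0 < e0 → e0 ≤ 1 → ∃ K : ℝ, 1 ≤ K ∧
    ∀ Q X : ℕ, RegP K Q X → ∀ (r : ℕ) [NeZero r] (ψ : DirichletCharacter ℂ r), r ^ 100 ≤ Q →
    ψ.IsPrimitive → ψ ≠ 1 → ψ ^ 2 = 1 → ∀ β : ℝ, β < 1 → ψ.LFunction (β : ℂ) = 0 →
    (1 - β) * Real.log Q ≤ c1 →
    Lev Q X (e0 * ((1 - β) * Real.log Q))
      (fun m => Mod Q r (ψ (m : ZMod r)).re β m) := by
  classical
  obtain ⟨c1, hc1, hc11, hL1⟩ := L1_exceptional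
  obtain ⟨K2, hK2, hLip⟩ := Bc_lip
  obtain ⟨K3, hK3, hLk⟩ := Lk_SG
  obtain ⟨K4, hK4, hB0⟩ := cl1_B0
  obtain ⟨K5, hK5, hB⟩ := B_leP
  obtain ⟨K6, hK6, hB1⟩ := B1_leP
  obtain ⟨ce, hce, hel⟩ := zero_elementary
  refine ⟨c1, hc1, hc11, fun e0 he he1 => ?_⟩
  obtain ⟨K1, hK1, hL1⟩ := hL1 (e0 / 2) (by positivity)
  refine ⟨max (max (max K1 K2) (max K3 K4)) (max (max K5 K6) (max 3 ((4 / (e0 * ce)) ^ 4))),
    hK1.trans ((le_max_left _ _).trans ((le_max_left _ _).trans (le_max_left _ _))), ?_⟩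
  intro Q X hreg r _ ψ hr100 hprim hψ1 hψ2 β hβ hLβ hsmall
  obtain ⟨K, hKd⟩ : ∃ K, K = max (max (max K1 K2) (max K3 K4)) (max (max K5 K6)
    (max 3 ((4 / (e0 * ce)) ^ 4))) := ⟨_, rfl⟩
  rw [← hKd] at hreg
  have k1 : K1 ≤ K := by rw [hKd]; exact (le_max_left _ _).trans ((le_max_left _ _).trans (le_max_left _ _))
  have k2 : K2 ≤ K := by rw [hKd]; exact (le_max_right _ _).trans ((le_max_left _ _).trans (le_max_left _ _))
  have k3 : K3 ≤ K := by rw [hKd]; exact (le_max_left _ _).trans ((le_max_right _ _).trans (le_max_left _ _))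
  have k4 : K4 ≤ K := by rw [hKd]; exact (le_max_right _ _).trans ((le_max_right _ _).trans (le_max_left _ _))
  have k5 : K5 ≤ K := by rw [hKd]; exact (le_max_left _ _).trans ((le_max_left _ _).trans (le_max_right _ _))
  have k6 : K6 ≤ K := by rw [hKd]; exact (le_max_right _ _).trans ((le_max_left _ _).trans (le_max_right _ _))
  have k7 : 3 ≤ K := by rw [hKd]; exact (le_max_left _ _).trans ((le_max_right _ _).trans (le_max_right _ _))
  have k8 : (4 / (e0 * ce)) ^ 4 ≤ K := by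
    rw [hKd]; exact (le_max_right _ _).trans ((le_max_right _ _).trans (le_max_right _ _))
  clear hKd
  have hKp : 1 ≤ K := hK1.trans k1
  have hK0 : 0 ≤ K := by linarith
  have hQ1 : 1 ≤ Q := hreg.Q_pos hKp
  have hQ1' : (1 : ℝ) ≤ Q := by exact_mod_cast hQ1
  have hQK := hreg.Q_ge hKp
  have hlQ := hreg.logQ_ge hKp
  have hX1 : 1 ≤ X := hreg.X_pos (by linarith)
  have hX0 : (0 : ℝ) < X := by exact_mod_cast hX1
  have hr0 : 1 ≤ r := Nat.pos_of_ne_zero (NeZero.ne r)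
  have hr : r ≤ Q := (Nat.le_self_pow (by norm_num) r).trans hr100
  have hη : 0 < 1 - β := by linarith
  have hβ12 : 1 / 2 ≤ β := by
    by_contra hcon
    have h1 : (1 / 2 : ℝ) ≤ 1 - β := by linarith [not_le.1 hcon]
    have h2 : (1 / 2 : ℝ) * 3 ≤ (1 - β) * Real.log Q :=
      mul_le_mul h1 (by linarith) (by norm_num) hη.le
    linarith
  have hL := hL1 Q X (hreg.mono hK0 k1) r ψ hr hprim hψ1 hψ2 β hβ hLβ hsmall
  have hmemψ : (⟨r, ψ⟩ : Σ r : ℕ, DirichletCharacter ℂ r) ∈ PC Q :=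
    mem_PC.2 ⟨hr0, hr, hprim⟩
  have hneψ : (⟨r, ψ⟩ : Σ r : ℕ, DirichletCharacter ℂ r) ≠ p0 := by
    intro h
    unfold p0 at h
    obtain ⟨h1, h2⟩ := Sigma.mk.inj_iff.1 h
    subst h1
    exact hψ1 (eq_of_heq h2)
  obtain ⟨x, hxd⟩ : ∃ x, x = (1 - β) * Real.log Q := ⟨_, rfl⟩
  have hx0 : 0 < x := by rw [hxd]; exact mul_pos hη (by linarith)
  rw [← hxd] at hsmall hL ⊢
  obtain ⟨q, hq⟩ : ∃ q, q = (Q : ℝ) ^ (-(5 / 2) : ℝ) := ⟨_, rfl⟩
  have hq0 : 0 ≤ q := by rw [hq]; positivity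
  obtain ⟨q', hq'⟩ : ∃ q', q' = (Q : ℝ) ^ (-(3 / 2) : ℝ) := ⟨_, rfl⟩
  have hq'0 : 0 ≤ q' := by rw [hq']; positivity
  obtain ⟨I, hI⟩ : ∃ I : (Σ r : ℕ, DirichletCharacter ℂ r) → ℝ, I = fun p =>
    (if p = p0 then ∫ t in (-(Q : ℝ) ^ 7)..((Q : ℝ) ^ 7), ‖FL X p0 t - F0 X t‖
      else if p = ⟨r, ψ⟩ then ∫ t in (-(Q : ℝ) ^ 7)..((Q : ℝ) ^ 7), ‖FL X ⟨r, ψ⟩ t + Fb X β t‖
      else ∫ t in (-(Q : ℝ) ^ 7)..((Q : ℝ) ^ 7), ‖FL X p t‖) := ⟨_, rfl⟩
  have hI0 : ∀ p, 0 ≤ I p := by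
    intro p
    rw [hI]
    simp only
    split_ifs
    · exact cl1_int_nonneg Q _
    · exact cl1_int_nonneg Q _
    · exact cl1_int_nonneg Q _
  obtain ⟨eb, heb⟩ : ∃ eb : (Σ r : ℕ, DirichletCharacter ℂ r) → ℝ, eb = fun p =>
    I p + q + (if p = ⟨r, ψ⟩ then q' else 0) := ⟨_, rfl⟩
  have heb0 : ∀ p, 0 ≤ eb p := by
    intro p
    rw [heb]
    have := hI0 p
    simp only
    split_ifs <;> linarith
  have hIsum : ∑ p ∈ PC Q, I p ≤ e0 / 2 * x := by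
    rw [ph_split (PC Q) p0 (p0_mem hQ1) (fun p => p ≠ p0) (fun _ => Iff.rfl),
      ph_split ((PC Q).filter (fun p => p ≠ p0)) ⟨r, ψ⟩ (mem_filter.2 ⟨hmemψ, hneψ⟩)
        (fun p => p ≠ ⟨r, ψ⟩) (fun _ => Iff.rfl)]
    have hfilt : ((PC Q).filter (fun p => p ≠ p0)).filter (fun p => p ≠ ⟨r, ψ⟩) =
        (PC Q).filter (fun p => p ≠ p0 ∧ p ≠ ⟨r, ψ⟩) := by
      ext p
      simp only [mem_filter]
      tauto
    rw [hfilt]
    have e1 : I p0 = ∫ t in (-(Q : ℝ) ^ 7)..((Q : ℝ) ^ 7), ‖FL X p0 t - F0 X t‖ := by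
      rw [hI]
      beta_reduce
      rw [if_pos rfl]
    have e2 : I ⟨r, ψ⟩ = ∫ t in (-(Q : ℝ) ^ 7)..((Q : ℝ) ^ 7), ‖FL X ⟨r, ψ⟩ t + Fb X β t‖ := by
      rw [hI]
      beta_reduce
      rw [if_neg hneψ, if_pos rfl]
    have e3 : ∑ p ∈ (PC Q).filter (fun p => p ≠ p0 ∧ p ≠ ⟨r, ψ⟩), I p =
        ∑ p ∈ (PC Q).filter (fun p => p ≠ p0 ∧ p ≠ ⟨r, ψ⟩),
          ∫ t in (-(Q : ℝ) ^ 7)..((Q : ℝ) ^ 7), ‖FL X p t‖ := by
      refine Finset.sum_congr rfl fun p hp => ?_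
      rw [hI]
      simp only
      rw [if_neg (mem_filter.1 hp).2.1, if_neg (mem_filter.1 hp).2.2]
    rw [e1, e2, e3]
    linarith
  have hsum : ∑ p ∈ PC Q, eb p ≤ e0 * x := by
    have h1 : ∑ p ∈ PC Q, eb p = ∑ p ∈ PC Q, I p + (PC Q).card * q + q' := by
      rw [heb, Finset.sum_add_distrib, Finset.sum_add_distrib, Finset.sum_const, nsmul_eq_mul,
        Finset.sum_ite_eq' (PC Q) _ (fun _ => q'), if_pos hmemψ]
    have h3 : ((PC Q).card : ℝ) * q ≤ 1 / Real.sqrt Q := by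
      rw [← (cl1_Qpow hQ1).1, ← hq]
      apply mul_le_mul_of_nonneg_right _ hq0
      exact_mod_cast card_PC_le Q
    have h4 : q' ≤ 1 / Real.sqrt Q := by rw [hq']; exact (cl1_Qpow hQ1).2
    have h5 : 2 / Real.sqrt Q ≤ e0 / 2 * x := by
      have hr1 : (1 : ℝ) ≤ r := by exact_mod_cast hr0
      have h6 := hel r ψ hψ1 hψ2 β hβ hLβ
      have h7 : ce / (r : ℝ) ^ 2 ≤ x := by
        rw [hxd]
        have h8 : 0 ≤ ce / (r : ℝ) ^ 2 := by positivity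
        calc ce / (r : ℝ) ^ 2 = ce / (r : ℝ) ^ 2 * 1 := (mul_one _).symm
          _ ≤ (1 - β) * Real.log Q := mul_le_mul h6 (by linarith) zero_le_one hη.le
      refine le_trans ?_ (mul_le_mul_of_nonneg_left h7 (by positivity))
      have hs0 : 0 < Real.sqrt Q := Real.sqrt_pos.2 (by linarith)
      have h9 : 4 / (e0 * ce) * (r : ℝ) ^ 2 ≤ Real.sqrt Q := by
        apply Real.le_sqrt_of_sq_le
        have h10 : (r : ℝ) ^ 8 ≤ Q := by
          have : r ^ 8 ≤ Q := (Nat.pow_le_pow_right hr0 (by norm_num)).trans hr100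
          exact_mod_cast this
        have h11 : ((4 / (e0 * ce)) ^ 2 * (r : ℝ) ^ 4) ^ 2 ≤ (Q : ℝ) ^ 2 := by
          calc ((4 / (e0 * ce)) ^ 2 * (r : ℝ) ^ 4) ^ 2 = (4 / (e0 * ce)) ^ 4 * (r : ℝ) ^ 8 := by ring
            _ ≤ (Q : ℝ) * (Q : ℝ) := mul_le_mul (k8.trans hQK) h10 (by positivity) (by positivity)
            _ = _ := by ring
        have h12 := abs_le_of_sq_le_sq' h11 (by positivity)
        calc (4 / (e0 * ce) * (r : ℝ) ^ 2) ^ 2 = (4 / (e0 * ce)) ^ 2 * (r : ℝ) ^ 4 := by ring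
          _ ≤ (Q : ℝ) := h12.2
      have h13 : e0 / 2 * (ce / (r : ℝ) ^ 2) = 2 / (4 / (e0 * ce) * (r : ℝ) ^ 2) := by
        field_simp
        ring
      rw [h13]
      exact div_le_div_of_nonneg_left (by norm_num) (by positivity) h9
    have h6 : 2 / Real.sqrt Q = 1 / Real.sqrt Q + 1 / Real.sqrt Q := by ring
    rw [h1]
    linarith
  obtain ⟨μ, hμ⟩ : ∃ μ : ℤ → (Σ r : ℕ, DirichletCharacter ℂ r) → ℂ, μ = fun (m : ℤ) p =>
    if p = p0 then 1 else if p = ⟨r, ψ⟩ then -(((m : ℝ) ^ (β - 1) : ℝ) : ℂ) else 0 := ⟨_, rfl⟩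
  have hμ0 : ∀ m, μ m p0 = 1 := fun m => by rw [hμ]; beta_reduce; rw [if_pos rfl]
  have hμ1 : ∀ m, μ m ⟨r, ψ⟩ = -(((m : ℝ) ^ (β - 1) : ℝ) : ℂ) := fun m => by
    rw [hμ]; beta_reduce; rw [if_neg hneψ, if_pos rfl]
  have hμ2 : ∀ m p, p ≠ p0 → p ≠ ⟨r, ψ⟩ → μ m p = 0 := fun m p h h' => by
    rw [hμ]; beta_reduce; rw [if_neg h, if_neg h']
  refine ⟨μ, fun m p => Bc Q X p m - μ m p,
    fun p => if p = p0 then 1 else if p = ⟨r, ψ⟩ then 1 else 0, eb, ?_, ?_, hsum, ?_⟩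
  · intro p hp
    beta_reduce
    refine ⟨?_, ?_, heb0 p, ?_⟩
    · split_ifs <;> norm_num
    · split_ifs <;> norm_num
    · have h1 := Finset.single_le_sum (f := eb) (fun p _ => heb0 p) hp
      have h2 : e0 * x ≤ 1 * 1 := mul_le_mul he1 (by linarith) hx0.le zero_le_one
      linarith
  · rw [ph_split (PC Q) p0 (p0_mem hQ1) (fun p => p ≠ p0) (fun _ => Iff.rfl),
      ph_split ((PC Q).filter (fun p => p ≠ p0)) ⟨r, ψ⟩ (mem_filter.2 ⟨hmemψ, hneψ⟩)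
        (fun p => p ≠ ⟨r, ψ⟩) (fun _ => Iff.rfl), if_pos rfl, if_neg hneψ, if_pos rfl,
      Finset.sum_eq_zero]
    · norm_num
    · intro p hp
      rw [mem_filter, mem_filter] at hp
      rw [if_neg hp.1.2, if_neg hp.2]
  · intro m hm hm4
    have hm1 : (1 : ℝ) ≤ (m : ℝ) := by
      have : (1 : ℤ) ≤ m := by omega
      exact_mod_cast this
    have hmX : (X : ℝ) ≤ (m : ℝ) := by exact_mod_cast hm
    have hrp := cl1_rpow hm1 (by linarith : 0 ≤ β) hβ.le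
    have hreal := XDA_real ψ hψ2 (m : ZMod r)
    have hre : ((ψ (m : ZMod r)).re : ℂ) = ψ (m : ZMod r) := Complex.conj_eq_iff_re.1 hreal
    have hG : ((Mod Q r (ψ (m : ZMod r)).re β m : ℝ) : ℂ) = SG Q (μ m) m := by
      have hsplit : SG Q (μ m) m = (Gam Q p0.1 m : ℂ) * (starRingEnd ℂ) (p0.2 (m : ZMod p0.1)) * μ m p0 +
          (Gam Q r m : ℂ) * (starRingEnd ℂ) (ψ (m : ZMod r)) * μ m ⟨r, ψ⟩ := by
        unfold SG
        rw [← Finset.sum_subset (s₁ := {p0, ⟨r, ψ⟩})]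
        · rw [Finset.sum_pair (fun h => hneψ h.symm)]
        · intro p hp
          rw [Finset.mem_insert, Finset.mem_singleton] at hp
          rcases hp with hp | hp
          · rw [hp]; exact p0_mem hQ1
          · rw [hp]; exact hmemψ
        · intro p _ hp
          rw [Finset.mem_insert, Finset.mem_singleton, not_or] at hp
          rw [hμ2 m p hp.1 hp.2, mul_zero]
      rw [hsplit, hμ0, hμ1, cl1_p0_one, hreal, mul_one, mul_one]
      have : Gam Q p0.1 m = Gam Q 1 m := rfl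
      rw [this, Gam_one]
      unfold Pool.Agent.Lib.H68T.Mod
      push_cast
      rw [hre]
      ring
    refine ⟨hG, ?_, ?_⟩
    · rw [Complex.ofReal_sub, hLk Q X (hreg.mono hK0 k3) m hm hm4, hG]
      exact (cl1_SG_sub Q _ _ m).symm
    · intro p hp
      have hpos : 0 ≤ (Q : ℝ) ^ 3 / X := by positivity
      have hQ3 : (2 : ℝ) ≤ (Q : ℝ) ^ 3 := by
        have h1 : (3 : ℝ) ^ 3 ≤ (Q : ℝ) ^ 3 := pow_le_pow_left₀ (by norm_num) (by linarith) 3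
        linarith
      have hdμ : ‖μ (m + 1) p - μ m p‖ ≤ 1 / X := by
        by_cases h : p = p0
        · rw [h, hμ0, hμ0, sub_self, norm_zero]
          positivity
        · by_cases h' : p = ⟨r, ψ⟩
          · rw [h', hμ1, hμ1]
            have e1 : -((((m + 1 : ℤ) : ℝ) ^ (β - 1) : ℝ) : ℂ) - -(((m : ℝ) ^ (β - 1) : ℝ) : ℂ) =
                -((((m : ℝ) + 1) ^ (β - 1) - (m : ℝ) ^ (β - 1) : ℝ) : ℂ) := by
              push_cast
              ring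
            rw [e1, norm_neg, Complex.norm_real, Real.norm_eq_abs]
            exact hrp.1.trans (one_div_le_one_div_of_le hX0 hmX)
          · rw [hμ2 _ p h h', hμ2 _ p h h', sub_self, norm_zero]
            positivity
      beta_reduce
      refine ⟨?_, ?_, ?_, ?_⟩
      · by_cases h : p = p0
        · rw [h, hμ0, if_pos rfl, norm_one]
        · by_cases h' : p = ⟨r, ψ⟩
          · rw [h', hμ1, if_neg hneψ, if_pos rfl, norm_neg, Complex.norm_real, Real.norm_eq_abs,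
              abs_of_nonneg hrp.2.2]
            exact hrp.2.1
          · rw [hμ2 _ p h h', if_neg h, if_neg h', norm_zero]
      · rw [heb, hI]
        simp only
        by_cases h : p = p0
        · have h'' : p0 ≠ (⟨r, ψ⟩ : Σ r : ℕ, DirichletCharacter ℂ r) := fun h3 => hneψ h3.symm
          rw [h, hμ0, if_pos rfl, if_neg h'', add_zero, hq]
          exact hB0 Q X (hreg.mono hK0 k4) m hm hm4
        · by_cases h' : p = ⟨r, ψ⟩
          · rw [h', hμ1, if_neg hneψ, if_pos rfl, if_pos rfl, sub_neg_eq_add]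
            have h1 := hB1 Q X (hreg.mono hK0 k6) ⟨r, ψ⟩ hr0 β hβ12 hβ.le m hm hm4
            rw [← hq'] at h1
            refine le_trans h1 ?_
            linarith
          · rw [hμ2 _ p h h', if_neg h, if_neg h', if_neg h', sub_zero, add_zero, hq]
            exact hB Q X (hreg.mono hK0 k5) p (mem_PC.1 hp).1 m hm hm4
      · refine hdμ.trans ?_
        apply div_le_div_of_nonneg_right _ hX0.le
        linarith
      · have h1 := hLip Q X (hreg.mono hK0 k2) p m hm hm4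
        have h2 : (Bc Q X p (m + 1) - μ (m + 1) p) - (Bc Q X p m - μ m p) =
            (Bc Q X p (m + 1) - Bc Q X p m) - (μ (m + 1) p - μ m p) := by ring
        rw [h2]
        refine (norm_sub_le _ _).trans ((add_le_add h1 hdμ).trans ?_)
        have h3 : (Q : ℝ) ^ 3 / (2 * X) + 1 / X = ((Q : ℝ) ^ 3 / 2 + 1) / X := by
          field_simp
        rw [h3]
        apply div_le_div_of_nonneg_right _ hX0.le
        linarith

end Pool.Agent.Lib.H18Q
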