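import Mathlib

/-!
# Project H18Q, chunk T2: the polynomial of the power sum method
-/

open Finset

namespace Pool.Agent.Lib.H18Q

open Polynomial in
theorem T2_D {ι : Type*} [DecidableEq ι] (z : ι → ℂ) (S : Finset ι) (hz : ∀ i ∈ S, ‖z i‖ ≤ 1) :
    ∀ a, ‖(∏ j ∈ S, (1 - C (z j) * X) : ℂ[X]).coeff a‖ ≤ (S.card.choose a : ℝ) := by
  induction S using Finset.induction_on with
  | empty =>
    intro a
    rw [prod_empty, card_empty, coeff_one]
    rcases Nat.eq_zero_or_pos a with rfl | ha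
    · simp
    · rw [if_neg ha.ne', norm_zero]
      positivity
  | insert i S hi ih =>
    intro a
    have ih' := ih fun j hj => hz j (mem_insert_of_mem hj)
    have e : (∏ j ∈ insert i S, (1 - C (z j) * X) : ℂ[X]) =
        (∏ j ∈ S, (1 - C (z j) * X)) - C (z i) * ((∏ j ∈ S, (1 - C (z j) * X)) * X) := by
      rw [prod_insert hi]
      ring
    rw [e, coeff_sub, coeff_C_mul, card_insert_of_notMem hi]
    rcases a with _ | a
    · rw [coeff_mul_X_zero, mul_zero, sub_zero]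
      have := ih' 0
      simpa using this
    · rw [coeff_mul_X, Nat.choose_succ_succ]
      have h1 := ih' a
      have h2 := ih' (a + 1)
      have h3 : ‖z i * (∏ j ∈ S, (1 - C (z j) * X) : ℂ[X]).coeff a‖ ≤ (S.card.choose a : ℝ) := by
        rw [norm_mul]
        calc ‖z i‖ * ‖(∏ j ∈ S, (1 - C (z j) * X) : ℂ[X]).coeff a‖
            ≤ 1 * ‖(∏ j ∈ S, (1 - C (z j) * X) : ℂ[X]).coeff a‖ :=
              mul_le_mul_of_nonneg_right (hz i (mem_insert_self _ _)) (norm_nonneg _)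
          _ ≤ _ := by rw [one_mul]; exact h1
      push_cast
      calc _ ≤ ‖(∏ j ∈ S, (1 - C (z j) * X) : ℂ[X]).coeff (a + 1)‖ +
            ‖z i * (∏ j ∈ S, (1 - C (z j) * X) : ℂ[X]).coeff a‖ := norm_sub_le _ _
        _ ≤ _ := by linarith

open Polynomial in
theorem T2_coeff {D P : ℂ[X]} {z : ℂ} (h : P * (1 - C z * X) = D) (l : ℕ) :
    P.coeff l = ∑ a ∈ range (l + 1), D.coeff a * z ^ (l - a) := by
  have e : D = P - C z * (P * X) := by
    rw [← h]
    ring
  induction l with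
  | zero =>
    rw [sum_range_one, e, coeff_sub, coeff_C_mul, coeff_mul_X_zero]
    simp
  | succ l ih =>
    rw [sum_range_succ]
    have h1 : ∑ a ∈ range (l + 1), D.coeff a * z ^ (l + 1 - a) = z * P.coeff l := by
      rw [ih, mul_sum]
      refine sum_congr rfl fun a ha => ?_
      have h2 : l + 1 - a = (l - a) + 1 := by
        have := mem_range.1 ha
        omega
      rw [h2, pow_succ]
      ring
    rw [h1, Nat.sub_self, pow_zero, mul_one]
    have h3 : D.coeff (l + 1) = P.coeff (l + 1) - z * P.coeff l := by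
      conv_lhs => rw [e]
      rw [coeff_sub, coeff_C_mul, coeff_mul_X]
    rw [h3]
    ring

/-- Let `p_k = ∑_i m_i z_i^k`, `|z_i| ≤ 1`, `n = #S`, and `|p_k| ≤ M` for `K ≤ k < K + n`. Then
`P(w) = ∑_i m_i z_i^K ∏_{j ≠ i} (1 - z_j w)` has `|P(w)| ≤ 8^n M` for `|w| ≤ 4`.

Proof. Put `D = ∏_{j ∈ S} (1 - C (z_j) X) = ∑_a D_a X^a` (polynomials); `|D_a| ≤ binom n a` by
induction on `S` (`D_a` of `S ∪ {j}` is `D_a - z_j D_{a-1}`). For `i ∈ S` put
`P_i = ∏_{j ∈ S.erase i} (1 - C (z_j) X)`, of degree `≤ n - 1`, `P_i (1 - C (z_i) X) = D`, so the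
coefficients satisfy `(P_i)_l = D_l + z_i (P_i)_(l-1)`, by induction `(P_i)_l = ∑_{a ≤ l} D_a
z_i^(l-a)`. So the coefficient of `X^l` in `P = ∑_i m_i z_i^K P_i`, `l ≤ n - 1`, is
`∑_{a ≤ l} D_a p_(K+l-a)`, of absolute value at most `2^n M` (`K ≤ K + l - a < K + n`,
`∑_a binom n a ≤ 2^n`), and `|P(w)| ≤ 2^n M ∑_{l < n} 4^l ≤ 2^n M 4^n`. (`M ≥ 0` follows from the
hypothesis if `n ≥ 1`; for `n = 0` the left side is `0` and `hM0` is used.) -/
theorem T2_poly {ι : Type*} [DecidableEq ι] (S : Finset ι) (m : ι → ℕ) (z : ι → ℂ)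
    (hz : ∀ i ∈ S, ‖z i‖ ≤ 1) (K : ℕ) (M : ℝ) (hM0 : 0 ≤ M)
    (hM : ∀ k, K ≤ k → k < K + S.card → ‖∑ i ∈ S, (m i : ℂ) * z i ^ k‖ ≤ M) (w : ℂ)
    (hw : ‖w‖ ≤ 4) :
    ‖∑ i ∈ S, (m i : ℂ) * z i ^ K * ∏ j ∈ S.erase i, (1 - z j * w)‖ ≤ 8 ^ S.card * M := by
  open Polynomial in
  rcases S.eq_empty_or_nonempty with rfl | hne
  · simp [hM0]
  have hn : 1 ≤ S.card := hne.card_pos
  let Pi : ι → Polynomial ℂ := fun i => ∏ j ∈ S.erase i, (1 - Polynomial.C (z j) * Polynomial.X)
  obtain ⟨P, hP⟩ : ∃ P : Polynomial ℂ, P = ∑ i ∈ S, Polynomial.C ((m i : ℂ) * z i ^ K) * Pi i := ⟨_, rfl⟩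
  obtain ⟨D, hD⟩ : ∃ D : Polynomial ℂ, D = ∏ j ∈ S, (1 - Polynomial.C (z j) * Polynomial.X) := ⟨_, rfl⟩
  have hPD : ∀ i ∈ S, Pi i * (1 - Polynomial.C (z i) * Polynomial.X) = D := by
    intro i hi
    rw [hD, ← mul_prod_erase S _ hi, mul_comm]
  have hev : P.eval w = ∑ i ∈ S, (m i : ℂ) * z i ^ K * ∏ j ∈ S.erase i, (1 - z j * w) := by
    rw [hP, Polynomial.eval_finsetSum]
    refine sum_congr rfl fun i _ => ?_
    rw [Polynomial.eval_mul, Polynomial.eval_C, Polynomial.eval_prod]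
    congr 1
    refine prod_congr rfl fun j _ => ?_
    simp
  have hdeg : P.natDegree < S.card := by
    have h1 : P.natDegree ≤ S.card - 1 := by
      rw [hP]
      refine Polynomial.natDegree_sum_le_of_forall_le _ _ fun i hi => ?_
      refine (Polynomial.natDegree_C_mul_le _ _).trans ?_
      refine (Polynomial.natDegree_prod_le _ _).trans ?_
      refine (sum_le_card_nsmul _ _ 1 fun j _ => ?_).trans ?_
      · compute_degree
      · rw [card_erase_of_mem hi, smul_eq_mul, mul_one]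
    omega
  have hco : ∀ l, P.coeff l = ∑ a ∈ range (l + 1), D.coeff a * ∑ i ∈ S, (m i : ℂ) * z i ^ (K + l - a) := by
    intro l
    rw [hP, Polynomial.finsetSum_coeff]
    have h1 : ∀ i ∈ S, (Polynomial.C ((m i : ℂ) * z i ^ K) * Pi i).coeff l =
        ∑ a ∈ range (l + 1), D.coeff a * ((m i : ℂ) * z i ^ (K + l - a)) := by
      intro i hi
      rw [Polynomial.coeff_C_mul, T2_coeff (hPD i hi) l, mul_sum]
      refine sum_congr rfl fun a ha => ?_
      have h2 : K + l - a = K + (l - a) := by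
        have := mem_range.1 ha
        omega
      rw [h2, pow_add]
      ring
    rw [sum_congr rfl h1, sum_comm]
    refine sum_congr rfl fun a _ => ?_
    rw [mul_sum]
  have hbd : ∀ l, l < S.card → ‖P.coeff l‖ ≤ 2 ^ S.card * M := by
    intro l hl
    rw [hco l]
    calc ‖∑ a ∈ range (l + 1), D.coeff a * ∑ i ∈ S, (m i : ℂ) * z i ^ (K + l - a)‖
        ≤ ∑ a ∈ range (l + 1), ‖D.coeff a * ∑ i ∈ S, (m i : ℂ) * z i ^ (K + l - a)‖ := norm_sum_le _ _
      _ ≤ ∑ a ∈ range (l + 1), (S.card.choose a : ℝ) * M := by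
          refine sum_le_sum fun a ha => ?_
          have h1 := mem_range.1 ha
          rw [norm_mul]
          refine mul_le_mul ?_ (hM _ (by omega) (by omega)) (norm_nonneg _) (by positivity)
          rw [hD]
          exact T2_D z S hz a
      _ ≤ ∑ a ∈ range (S.card + 1), (S.card.choose a : ℝ) * M := by
          refine sum_le_sum_of_subset_of_nonneg (range_subset_range.2 (by omega)) fun a _ _ => by positivity
      _ = 2 ^ S.card * M := by
          rw [← sum_mul]
          congr 1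
          have := Nat.sum_range_choose S.card
          exact_mod_cast this
  rw [← hev, Polynomial.eval_eq_sum_range' hdeg]
  calc ‖∑ l ∈ range S.card, P.coeff l * w ^ l‖ ≤ ∑ l ∈ range S.card, ‖P.coeff l * w ^ l‖ := norm_sum_le _ _
    _ ≤ ∑ l ∈ range S.card, 2 ^ S.card * M * 4 ^ l := by
        refine sum_le_sum fun l hl => ?_
        rw [norm_mul, norm_pow]
        exact mul_le_mul (hbd l (mem_range.1 hl)) (pow_le_pow_left₀ (norm_nonneg _) hw l) (by positivity) (by positivity)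
    _ = 2 ^ S.card * M * ∑ l ∈ range S.card, (4 : ℝ) ^ l := by rw [mul_sum]
    _ ≤ 2 ^ S.card * M * 4 ^ S.card := by
        refine mul_le_mul_of_nonneg_left ?_ (by positivity)
        rw [geom_sum_eq (by norm_num)]
        have h4 : (1 : ℝ) ≤ 4 ^ S.card := one_le_pow₀ (by norm_num)
        rw [div_le_iff₀ (by norm_num)]
        linarith
    _ = 8 ^ S.card * M := by
        have h5 : (8 : ℝ) = 2 * 4 := by norm_num
        rw [h5, mul_pow]
        ring

end Pool.Agent.Lib.H18Q
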