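import Pool.Agent.Lib.H18Q.T1
import Pool.Agent.Lib.H18Q.T2

/-!
# Project H18Q, chunk T3: power sums (weak form of Turán's theorem)
-/

open Finset

namespace Pool.Agent.Lib.H18Q

/-- One term of the contour integral: a point inside the circle. -/
theorem t3_inside {w0 : ℂ} {t : ℝ} {u : ℂ} (n : ℕ) (hu : ‖u - w0‖ < t) :
    (∮ w in C(w0, t), (w - u)⁻¹ • w ^ n) = (2 * Real.pi * Complex.I : ℂ) • u ^ n := by
  have hd : DifferentiableOn ℂ (fun w : ℂ => w ^ n) (Metric.closedBall w0 t) :=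
    (differentiable_pow n).differentiableOn
  exact hd.circleIntegral_sub_inv_smul (by
    rw [Metric.mem_ball, dist_eq_norm]; exact hu)

/-- One term of the contour integral: a point outside the circle. -/
theorem t3_outside {w0 : ℂ} {t : ℝ} (ht : 0 ≤ t) {u : ℂ} (n : ℕ) (hu : t < ‖u - w0‖) :
    (∮ w in C(w0, t), (w - u)⁻¹ • w ^ n) = 0 := by
  have hd : DifferentiableOn ℂ (fun w : ℂ => (w - u)⁻¹ • w ^ n) (Metric.closedBall w0 t) := by
    intro w hw
    have hne : w - u ≠ 0 := by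
      intro h
      rw [sub_eq_zero] at h
      rw [Metric.mem_closedBall, dist_eq_norm, h] at hw
      linarith
    have h1 : DifferentiableAt ℂ (fun w : ℂ => (w - u)⁻¹ • w ^ n) w := by
      exact DifferentiableAt.fun_smul ((differentiableAt_id.sub_const u).inv hne)
        (differentiableAt_pow n)
    exact h1.differentiableWithinAt
  exact (hd.mono Metric.closure_ball_subset_closedBall).diffContOnCl.circleIntegral_eq_zero ht

/-- The lower bound for the product on the circle. -/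
theorem t3_prod {ι : Type*} [DecidableEq ι] (S : Finset ι) (z : ι → ℂ)
    (w0 : ℂ) (hw0 : ‖w0‖ ≤ 3) (t : ℝ) (ht1 : t ≤ 1)
    (hp : (1 / 16 : ℝ) ^ (S.filter (fun j => (1 / 8 : ℝ) < ‖z j‖)).card ≤
      ∏ j ∈ S.filter (fun j => (1 / 8 : ℝ) < ‖z j‖), |t - ‖(z j)⁻¹ - w0‖|)
    (w : ℂ) (hw : ‖w - w0‖ = t) :
    (1 / 128 : ℝ) ^ S.card ≤ ‖∏ j ∈ S, (1 - z j * w)‖ := by
  have hw4 : ‖w‖ ≤ 4 := by
    calc ‖w‖ = ‖(w - w0) + w0‖ := by ring_nf
      _ ≤ ‖w - w0‖ + ‖w0‖ := norm_add_le _ _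
      _ ≤ 4 := by rw [hw]; linarith
  have h2 : ∀ j ∈ S.filter (fun j => (1 / 8 : ℝ) < ‖z j‖),
      (1 / 8) * |t - ‖(z j)⁻¹ - w0‖| ≤ ‖1 - z j * w‖ := by
    intro j hj
    rw [mem_filter] at hj
    have hz0 : z j ≠ 0 := by
      intro h; rw [h, norm_zero] at hj; linarith [hj.2]
    have e1 : 1 - z j * w = z j * ((z j)⁻¹ - w) := by field_simp
    rw [e1, norm_mul]
    have h3 : |t - ‖(z j)⁻¹ - w0‖| ≤ ‖(z j)⁻¹ - w‖ := by
      have := abs_norm_sub_norm_le (w - w0) ((z j)⁻¹ - w0)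
      rw [hw] at this
      refine this.trans (le_of_eq ?_)
      rw [← norm_neg]
      congr 1
      ring
    exact mul_le_mul hj.2.le h3 (abs_nonneg _) (norm_nonneg _)
  have h3 : ∀ j ∈ S.filter (fun j => ¬ (1 / 8 : ℝ) < ‖z j‖), (1 / 128 : ℝ) ≤ ‖1 - z j * w‖ := by
    intro j hj
    rw [mem_filter, not_lt] at hj
    have h4 : ‖z j * w‖ ≤ 1 / 2 := by
      rw [norm_mul]
      calc ‖z j‖ * ‖w‖ ≤ (1 / 8) * 4 :=
            mul_le_mul hj.2 hw4 (norm_nonneg _) (by norm_num)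
        _ = 1 / 2 := by norm_num
    have h5 : (1 : ℝ) - ‖z j * w‖ ≤ ‖1 - z j * w‖ := by
      have := norm_sub_norm_le (1 : ℂ) (z j * w)
      rwa [norm_one] at this
    linarith
  rw [norm_prod, ← Finset.prod_filter_mul_prod_filter_not S (fun j => (1 / 8 : ℝ) < ‖z j‖),
    ← Finset.card_filter_add_card_filter_not (s := S) (fun j => (1 / 8 : ℝ) < ‖z j‖), pow_add]
  apply mul_le_mul
  · calc (1 / 128 : ℝ) ^ (S.filter (fun j => (1 / 8 : ℝ) < ‖z j‖)).card
        = (1 / 8) ^ (S.filter (fun j => (1 / 8 : ℝ) < ‖z j‖)).card *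
          (1 / 16) ^ (S.filter (fun j => (1 / 8 : ℝ) < ‖z j‖)).card := by
          rw [← mul_pow]; norm_num
      _ ≤ (1 / 8) ^ (S.filter (fun j => (1 / 8 : ℝ) < ‖z j‖)).card *
          ∏ j ∈ S.filter (fun j => (1 / 8 : ℝ) < ‖z j‖), |t - ‖(z j)⁻¹ - w0‖| :=
          mul_le_mul_of_nonneg_left hp (by positivity)
      _ = ∏ j ∈ S.filter (fun j => (1 / 8 : ℝ) < ‖z j‖),
            ((1 / 8) * |t - ‖(z j)⁻¹ - w0‖|) := by
          rw [Finset.prod_mul_distrib, Finset.prod_const]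
      _ ≤ _ := Finset.prod_le_prod (fun j _ => by positivity) h2
  · calc (1 / 128 : ℝ) ^ (S.filter (fun j => ¬ (1 / 8 : ℝ) < ‖z j‖)).card
        = ∏ _j ∈ S.filter (fun j => ¬ (1 / 8 : ℝ) < ‖z j‖), (1 / 128 : ℝ) := by
          rw [Finset.prod_const]
      _ ≤ _ := Finset.prod_le_prod (fun j _ => by norm_num) h3
  · positivity
  · exact Finset.prod_nonneg fun j _ => norm_nonneg _

/-- Let `|z_i| ≤ 1`, `m_i` natural numbers, `i ∈ S`, `#S ≤ K`, and `|z_{i0}| ≥ 1/3`,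
`m_{i0} ≥ 1` for one `i0 ∈ S`. Then some power sum `p_k = ∑ m_i z_i^k`, `K ≤ k < 2 K`, has
`|p_k| ≥ 4096^(-K)`.

Proof. Suppose not; put `M = 4096^(-K)`, `n = #S`. Let `w0 = 1/z_{i0}`, `1 ≤ |w0| ≤ 3`. Let
`S2 = {j ∈ S : |z_j| > 1/8}`, `d_j = |w0 - 1/z_j|` for `j ∈ S2`; take `t ∈ [1/2, 1]` from
`T1_far S2 d`. On the circle `|w - w0| = t` we have `|w| ≤ 4` and
`|1 - z_j w| ≥ 1 - 4/8 = 1/2` for `j ∉ S2`, `|1 - z_j w| = |z_j| |w - 1/z_j| ≥ (1/8) |t - d_j|` for
`j ∈ S2` (`|w - 1/z_j| ≥ | |w - w0| - |w0 - 1/z_j| |`). So `|∏_{j ∈ S} (1 - z_j w)| ≥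
8^(-n) 16^(-#S2) ≥ 128^(-n) > 0`; in particular no `1/z_j` is on the circle. Put
`H(w) = ∑_i m_i z_i^K / (1 - z_i w) = P(w) / ∏ (1 - z_j w)`, with `P` of `T2_poly`
(`K ≤ k < K + n ≤ 2 K`): on the circle `|H(w)| ≤ 8^n M 128^n = 1024^n M ≤ 1024^K M`, and
`|w^(K-1)| ≤ 4^(K-1)`. By Cauchy's formula, for each `i` the circle integral
`(1/2πi) ∮ m_i z_i^K w^(K-1) / (1 - z_i w) dw` is `0` if `z_i = 0` (`K ≥ 1`), and for `z_i ≠ 0`,
since `1/(1 - z_i w) = -(1/z_i) / (w - 1/z_i)`, it is `-m_i z_i^(K-1) (1/z_i)^(K-1) = -m_i` if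
`|1/z_i - w0| < t`, and `0` if `|1/z_i - w0| > t` (`Complex.circleIntegral_sub_inv_smul_of_...`,
`circleIntegral_eq_zero_of_differentiable_on_off_countable` or
`DiffContOnCl.circleIntegral_eq_zero`). The index `i0` has `1/z_{i0} = w0` inside. So the total is
`-∑_{inside} m_i`, of absolute value `≥ m_{i0} ≥ 1`. But it is at most
`t · 1024^K M · 4^(K-1) ≤ 4096^K M / 4 < 1`. Contradiction. -/
theorem turan {ι : Type*} (S : Finset ι) (m : ι → ℕ) (z : ι → ℂ) (K : ℕ) (hK : 1 ≤ K)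
    (hc : S.card ≤ K) (hz : ∀ i ∈ S, ‖z i‖ ≤ 1) (i0 : ι) (hi0 : i0 ∈ S) (hm : 1 ≤ m i0)
    (hz0 : 1 / 3 ≤ ‖z i0‖) :
    ∃ k, K ≤ k ∧ k < 2 * K ∧ (1 / 4096 : ℝ) ^ K ≤ ‖∑ i ∈ S, (m i : ℂ) * z i ^ k‖ := by
  classical
  by_contra hcon
  push Not at hcon
  set M : ℝ := (1 / 4096 : ℝ) ^ K with hMdef
  have hM0 : 0 < M := by positivity
  have hzi0 : z i0 ≠ 0 := by
    intro h; rw [h, norm_zero] at hz0; linarith
  set w0 : ℂ := (z i0)⁻¹ with hw0def
  have hw03 : ‖w0‖ ≤ 3 := by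
    rw [hw0def, norm_inv]
    have := inv_anti₀ (by norm_num : (0 : ℝ) < 1 / 3) hz0
    norm_num at this
    exact this
  obtain ⟨t, ⟨ht0, ht1⟩, hprod⟩ := T1_far (S.filter (fun j => (1 / 8 : ℝ) < ‖z j‖))
    (fun j => ‖(z j)⁻¹ - w0‖)
  have htpos : 0 < t := by linarith
  have hlow : ∀ w : ℂ, ‖w - w0‖ = t → (1 / 128 : ℝ) ^ S.card ≤ ‖∏ j ∈ S, (1 - z j * w)‖ :=
    fun w hw => t3_prod S z w0 hw03 t ht1 hprod w hw
  have hlowpos : ∀ w : ℂ, ‖w - w0‖ = t → ∀ j ∈ S, 1 - z j * w ≠ 0 := by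
    intro w hw j hj h0
    have h1 := hlow w hw
    rw [Finset.prod_eq_zero hj h0, norm_zero] at h1
    have : (0 : ℝ) < (1 / 128 : ℝ) ^ S.card := by positivity
    linarith
  have hne : ∀ i ∈ S, z i ≠ 0 → ‖(z i)⁻¹ - w0‖ ≠ t := by
    intro i hi hzi h
    apply hlowpos _ h i hi
    rw [mul_inv_cancel₀ hzi, sub_self]
  -- the terms
  set F : ι → ℂ → ℂ := fun i w => (m i : ℂ) * z i ^ K * w ^ (K - 1) / (1 - z i * w) with hF
  have hFcont : ∀ i ∈ S, ContinuousOn (F i) (Metric.sphere w0 t) := by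
    intro i hi
    apply ContinuousOn.div
    · fun_prop
    · fun_prop
    · intro w hw
      rw [mem_sphere_iff_norm] at hw
      exact hlowpos w hw i hi
  have hint : ∀ i ∈ S, CircleIntegrable (F i) w0 t := fun i hi =>
    (hFcont i hi).circleIntegrable htpos.le
  set c : ι → ℝ := fun i => if z i ≠ 0 ∧ ‖(z i)⁻¹ - w0‖ < t then (m i : ℝ) else 0 with hc'
  have hterm : ∀ i ∈ S, (∮ w in C(w0, t), F i w) = -(2 * Real.pi * Complex.I) * (c i : ℂ) := by
    intro i hi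
    by_cases hzi : z i = 0
    · have h1 : F i = fun _ => 0 := by
        funext w
        simp only [hF, hzi]
        rw [zero_pow (by omega)]
        ring
      have h2 : c i = 0 := by
        simp only [hc', hzi]
        simp
      rw [h1, h2]
      simp [circleIntegral]
    · have h1 : (∮ w in C(w0, t), F i w) =
          -((m i : ℂ) * z i ^ (K - 1)) * ∮ w in C(w0, t), (w - (z i)⁻¹)⁻¹ • w ^ (K - 1) := by
        rw [← circleIntegral.integral_const_mul]
        apply circleIntegral.integral_congr htpos.le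
        intro w hw
        rw [mem_sphere_iff_norm] at hw
        have h3 : 1 - z i * w ≠ 0 := hlowpos w hw i hi
        have h4 : w - (z i)⁻¹ ≠ 0 := by
          intro h
          apply h3
          rw [sub_eq_zero] at h
          rw [h, mul_inv_cancel₀ hzi, sub_self]
        have h5 : 1 - z i * w = -(z i * (w - (z i)⁻¹)) := by
          rw [mul_sub, mul_inv_cancel₀ hzi]; ring
        simp only [hF, smul_eq_mul]
        rw [h5]
        have h6 : z i ^ K = z i * z i ^ (K - 1) := by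
          rw [← pow_succ']; congr 1; omega
        rw [h6]
        field_simp
      rcases lt_or_gt_of_ne (hne i hi hzi) with hlt | hgt
      · rw [h1, t3_inside _ hlt]
        have h2 : c i = m i := by
          simp only [hc']
          rw [if_pos ⟨hzi, hlt⟩]
        rw [h2]
        have h7 : z i ^ (K - 1) * (z i)⁻¹ ^ (K - 1) = 1 := by
          rw [← mul_pow, mul_inv_cancel₀ hzi, one_pow]
        simp only [smul_eq_mul]
        push_cast
        linear_combination (-(m i : ℂ) * (2 * Real.pi * Complex.I)) * h7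
      · rw [h1, t3_outside htpos.le _ hgt]
        have h2 : c i = 0 := by
          simp only [hc']
          rw [if_neg]
          intro h
          linarith [h.2]
        rw [h2]
        simp
  have htotal : (∮ w in C(w0, t), ∑ i ∈ S, F i w) =
      -(2 * Real.pi * Complex.I) * ((∑ i ∈ S, c i : ℝ) : ℂ) := by
    rw [circleIntegral.integral_fun_sum hint, Finset.sum_congr rfl hterm, ← Finset.mul_sum]
    push_cast
    rfl
  have hcsum : (1 : ℝ) ≤ ∑ i ∈ S, c i := by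
    have h1 : ∀ i ∈ S, 0 ≤ c i := by
      intro i _
      simp only [hc']
      split_ifs <;> positivity
    have h2 : c i0 = m i0 := by
      simp only [hc']
      rw [if_pos]
      refine ⟨hzi0, ?_⟩
      rw [← hw0def, sub_self, norm_zero]
      exact htpos
    have h3 : (1 : ℝ) ≤ c i0 := by
      rw [h2]; exact_mod_cast hm
    exact h3.trans (Finset.single_le_sum h1 hi0)
  have hup : ‖∮ w in C(w0, t), ∑ i ∈ S, F i w‖ ≤
      2 * Real.pi * t * (4 ^ (K - 1) * (8 ^ S.card * M) * 128 ^ S.card) := by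
    apply circleIntegral.norm_integral_le_of_norm_le_const htpos.le
    intro w hw
    rw [mem_sphere_iff_norm] at hw
    have hw4 : ‖w‖ ≤ 4 := by
      calc ‖w‖ = ‖(w - w0) + w0‖ := by ring_nf
        _ ≤ ‖w - w0‖ + ‖w0‖ := norm_add_le _ _
        _ ≤ 4 := by rw [hw]; linarith
    have hP := T2_poly S m z hz K M hM0.le (fun k hk1 hk2 => (hcon k hk1 (by omega)).le) w hw4
    have hQ := hlow w hw
    have hQ0 : ∏ j ∈ S, (1 - z j * w) ≠ 0 := Finset.prod_ne_zero_iff.mpr (hlowpos w hw)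
    have e1 : ∑ i ∈ S, F i w = w ^ (K - 1) *
        (∑ i ∈ S, (m i : ℂ) * z i ^ K * ∏ j ∈ S.erase i, (1 - z j * w)) /
        ∏ j ∈ S, (1 - z j * w) := by
      rw [Finset.mul_sum, Finset.sum_div]
      apply Finset.sum_congr rfl
      intro i hi
      simp only [hF]
      rw [div_eq_div_iff (hlowpos w hw i hi) hQ0, ← Finset.mul_prod_erase S _ hi]
      ring
    rw [e1, norm_div, norm_mul, norm_pow, div_le_iff₀ (norm_pos_iff.mpr hQ0)]
    have h128 : (1 : ℝ) ≤ 128 ^ S.card * ‖∏ j ∈ S, (1 - z j * w)‖ := by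
      calc (1 : ℝ) = 128 ^ S.card * (1 / 128) ^ S.card := by
            rw [← mul_pow]; norm_num
        _ ≤ _ := mul_le_mul_of_nonneg_left hQ (by positivity)
    calc ‖w‖ ^ (K - 1) * ‖∑ i ∈ S, (m i : ℂ) * z i ^ K * ∏ j ∈ S.erase i, (1 - z j * w)‖
        ≤ 4 ^ (K - 1) * (8 ^ S.card * M) := by
          apply mul_le_mul _ hP (norm_nonneg _) (by positivity)
          exact pow_le_pow_left₀ (norm_nonneg _) hw4 _
      _ = 4 ^ (K - 1) * (8 ^ S.card * M) * 1 := by ring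
      _ ≤ 4 ^ (K - 1) * (8 ^ S.card * M) * (128 ^ S.card * ‖∏ j ∈ S, (1 - z j * w)‖) :=
          mul_le_mul_of_nonneg_left h128 (by positivity)
      _ = _ := by ring
  rw [htotal, norm_mul, norm_neg] at hup
  have hn1 : ‖(2 * Real.pi * Complex.I : ℂ)‖ = 2 * Real.pi := by
    simp [abs_of_pos Real.pi_pos]
  rw [hn1, Complex.norm_real, Real.norm_eq_abs, abs_of_nonneg (by linarith)] at hup
  have hpi := Real.pi_pos
  have hbound : t * (4 ^ (K - 1) * (8 ^ S.card * M) * 128 ^ S.card) ≤ 1 / 4 := by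
    have h1 : (8 : ℝ) ^ S.card * 128 ^ S.card ≤ 1024 ^ K := by
      rw [← mul_pow]
      norm_num
      exact pow_le_pow_right₀ (by norm_num) hc
    have h2 : (4 : ℝ) ^ (K - 1) * 4 = 4 ^ K := by
      rw [← pow_succ]; congr 1; omega
    have h3 : (4 : ℝ) ^ K * 1024 ^ K * M = 1 := by
      rw [hMdef, ← mul_pow, ← mul_pow]; norm_num
    calc t * (4 ^ (K - 1) * (8 ^ S.card * M) * 128 ^ S.card)
        = t * (4 ^ (K - 1) * M * (8 ^ S.card * 128 ^ S.card)) := by ring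
      _ ≤ 1 * (4 ^ (K - 1) * M * 1024 ^ K) := by
          apply mul_le_mul ht1 _ (by positivity) (by norm_num)
          exact mul_le_mul_of_nonneg_left h1 (by positivity)
      _ = (4 ^ (K - 1) * 4) * 1024 ^ K * M / 4 := by ring
      _ = 1 / 4 := by rw [h2, h3]
  have : 2 * Real.pi * 1 ≤ 2 * Real.pi * (1 / 4) := by
    calc 2 * Real.pi * 1 ≤ 2 * Real.pi * ∑ i ∈ S, c i :=
          mul_le_mul_of_nonneg_left hcsum (by positivity)
      _ ≤ _ := hup
      _ = 2 * Real.pi * (t * (4 ^ (K - 1) * (8 ^ S.card * M) * 128 ^ S.card)) := by ring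
      _ ≤ _ := mul_le_mul_of_nonneg_left hbound (by positivity)
  nlinarith

end Pool.Agent.Lib.H18Q
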