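import Pool.Agent.Lib.H18Q.Z2
import Pool.Agent.Lib.H18Q.T3

/-!
# Project H18Q, chunk Z4: a zero makes a high derivative of the logarithmic derivative large
-/

open Finset

namespace Pool.Agent.Lib.H18Q

/-- Numerical facts for `detect`: with `D = exp 10`, for all `K1 ≥ C3 κ`, `κ ≥ 1`,
`K1 ≤ e < 2 K1` (only `e ≥ K1` is used), `C3` large in terms of `B`:
`B κ D^2 D^(-e) ≤ (1/4) 4096^(-K1)` and `B κ (1/D)^(e-1) ≤ (1/4) 4096^(-K1)`.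
(`log 4096 < 8.4`; `exp (1.6 K1) ≥ 4 B κ exp 30` for `K1 ≥ C3 κ`.) -/
theorem detect_num (B : ℝ) (hB : 1 ≤ B) : ∃ C3 : ℝ, 1 ≤ C3 ∧ ∀ (κ : ℝ) (K1 e : ℕ), 1 ≤ κ →
    C3 * κ ≤ K1 → K1 ≤ e →
    B * κ * (Real.exp 10) ^ 2 * (1 / Real.exp 10) ^ e ≤ 1 / 4 * (1 / 4096) ^ K1 ∧
    B * κ * (1 / Real.exp 10) ^ (e - 1) ≤ 1 / 4 * (1 / 4096) ^ K1 := by
  have hD0 : 0 < Real.exp 10 := Real.exp_pos _
  have hD1 : 1 ≤ Real.exp 10 := Real.one_le_exp (by norm_num)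
  refine ⟨4 * B * (Real.exp 10) ^ 2, by nlinarith [one_le_pow₀ hD1 (n := 2)], ?_⟩
  intro κ K1 e hκ hK1 he
  have hK1' : 1 ≤ K1 := by
    by_contra h
    have h1 : K1 = 0 := by omega
    rw [h1, Nat.cast_zero] at hK1
    have : 0 < 4 * B * (Real.exp 10) ^ 2 * κ := by positivity
    linarith
  have h9 : (4096 : ℝ) ≤ Real.exp 9 := by
    have h1 : (2.7 : ℝ) ≤ Real.exp 1 := by
      have := Real.exp_one_gt_d9
      linarith
    have h2 : Real.exp 9 = Real.exp 1 ^ 9 := by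
      rw [← Real.exp_nat_mul]
      norm_num
    rw [h2]
    calc (4096 : ℝ) ≤ 2.7 ^ 9 := by norm_num
      _ ≤ Real.exp 1 ^ 9 := pow_le_pow_left₀ (by norm_num) h1 9
  have h10 : (4096 : ℝ) * Real.exp 1 ≤ Real.exp 10 := by
    have h1 : Real.exp 10 = Real.exp 9 * Real.exp 1 := by
      rw [← Real.exp_add]
      norm_num
    rw [h1]
    exact mul_le_mul_of_nonneg_right h9 (Real.exp_pos _).le
  have hkey : B * κ * (Real.exp 10) ^ 2 * (1 / Real.exp 10) ^ K1 ≤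
      1 / 4 * (1 / 4096) ^ K1 := by
    have h1 : (4096 * Real.exp 1) ^ K1 ≤ (Real.exp 10) ^ K1 :=
      pow_le_pow_left₀ (by positivity) h10 K1
    have h2 : (K1 : ℝ) ≤ Real.exp 1 ^ K1 := by
      rw [← Real.exp_nat_mul, mul_one]
      have := Real.add_one_le_exp (K1 : ℝ)
      linarith
    have h3 : 4 * (B * κ * (Real.exp 10) ^ 2) ≤ Real.exp 1 ^ K1 := by
      refine le_trans ?_ (hK1.trans h2)
      have : 4 * (B * κ * (Real.exp 10) ^ 2) = 4 * B * (Real.exp 10) ^ 2 * κ := by ring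
      rw [this]
    have h4 : (4096 : ℝ) ^ K1 * (4 * (B * κ * (Real.exp 10) ^ 2)) ≤ (Real.exp 10) ^ K1 := by
      rw [mul_pow] at h1
      exact (mul_le_mul_of_nonneg_left h3 (by positivity)).trans h1
    rw [one_div_pow, one_div_pow, mul_one_div, div_le_iff₀ (by positivity), mul_one_div,
      div_mul_eq_mul_div, le_div_iff₀ (by positivity)]
    nlinarith
  have h1 : (1 / Real.exp 10) ^ e ≤ (1 / Real.exp 10) ^ K1 := by
    apply pow_le_pow_of_le_one (by positivity) _ he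
    rw [div_le_one hD0]
    exact hD1
  have hfirst : B * κ * (Real.exp 10) ^ 2 * (1 / Real.exp 10) ^ e ≤
      1 / 4 * (1 / 4096) ^ K1 :=
    (mul_le_mul_of_nonneg_left h1 (by positivity)).trans hkey
  refine ⟨hfirst, ?_⟩
  refine le_trans ?_ hfirst
  obtain ⟨e', rfl⟩ : ∃ e', e = e' + 1 := ⟨e - 1, by omega⟩
  rw [Nat.add_sub_cancel, mul_assoc (B * κ)]
  apply mul_le_mul_of_nonneg_left _ (by positivity)
  have h5 : (Real.exp 10) ^ 2 * (1 / Real.exp 10) ^ (e' + 1) =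
      Real.exp 10 * (1 / Real.exp 10) ^ e' := by
    rw [pow_succ (1 / Real.exp 10)]
    field_simp
  rw [h5]
  have h6 : 0 ≤ (1 / Real.exp 10) ^ e' := by positivity
  nlinarith

/-- Detection of zeros. Let `f` have growth data, `lam = κ/ℓ`, `1 ≤ κ ≤ th0 ℓ`, `s₀ = 1 + lam + i v`,
and let `f` have a zero `ρ₀` with `Re ρ₀ ≥ 1 - lam`, `|Im ρ₀ - v| ≤ lam`. Then for `K1 ≥ C3 κ` there
is `K1 ≤ e < 2 K1` with `|lam^e (f'/f)^(e-1)(s₀)/(e-1)!| ≥ (1/2) 4096^(-K1)`.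

Proof. `D = exp 10`; `D lam ≤ 1/4` and `8 lam ≤ 1/D` (`th0 = 10^(-9)`, `exp 10 < 22027`), `lam ≤ 1/8`,
`1/ℓ ≤ lam`, `ℓ ≥ 1/th0 ≥ 8`. Let `S = ZD f s₀ (D lam)`, `z_ρ = lam/(s₀ - ρ)`, `m_ρ = od f ρ`
(`≥ 1`, `od_pos`). `Re (s₀ - ρ) > lam` for zeros `ρ` (`zre`), so `|z_ρ| ≤ 1`. By `ldat_near`
`#S ≤ ∑_S m_ρ ≤ C1 D² κ ≤ K1` if `C3 ≥ C1 D²`. `ρ₀ ∈ S`: `lam < Re (s₀ - ρ₀) ≤ 2 lam`,
`|Im| ≤ lam`, so `|s₀ - ρ₀| ≤ 3 lam`, `|z_{ρ₀}| ≥ 1/3`. `turan` gives `K1 ≤ e < 2 K1` with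
`|∑_S m_ρ z_ρ^e| ≥ 4096^(-K1)`. The other zeros in `ZD f s₀ (1/4)`: `|z_ρ| < 1/D`, so
`|z_ρ|^e ≤ (1/D)^(e-2) |z_ρ|²` (`e ≥ 2`), total `≤ D² D^(-e) C1 κ` (`ldat_sum`). `landau_k` with
`R = 1/2`, `M = C0 ℓ`, `k = e - 1`, times `lam^e`: error `≤ 2 A (C0 ℓ + 1) 8^(e-1) lam^e ≤
2 A (C0 + 1) κ (8 lam)^(e-1)`. Both errors are `≤ (1/4) 4096^(-K1)` by `detect_num` with
`B = max 1 (C1) (2 A (C0+1))`. -/
theorem detect (C0 : ℝ) (h0 : 1 ≤ C0) : ∃ C3 : ℝ, 1 ≤ C3 ∧ ∀ (ℓ T : ℝ) (f : ℂ → ℂ),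
    LDat C0 ℓ T f → ∀ κ v : ℝ, 1 ≤ κ → κ ≤ th0 * ℓ → |v| ≤ T → ∀ K1 : ℕ, C3 * κ ≤ K1 →
    (∃ ρ : ℂ, f ρ = 0 ∧ 1 - κ / ℓ ≤ ρ.re ∧ |ρ.im - v| ≤ κ / ℓ) →
    ∃ e : ℕ, K1 ≤ e ∧ e < 2 * K1 ∧ 1 / 2 * (1 / 4096 : ℝ) ^ K1 ≤
      ‖((κ / ℓ : ℝ) : ℂ) ^ e * (iteratedDeriv (e - 1) (logDeriv f)
        (1 + (κ / ℓ : ℝ) + v * Complex.I) / ((e - 1).factorial : ℂ))‖ := by
  obtain ⟨A, hA, HL⟩ := landau_k
  obtain ⟨C1, hC1, Hsum⟩ := ldat_sum C0 h0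
  obtain ⟨C2, hC2, Hnear⟩ := ldat_near C0 h0
  obtain ⟨C3, hC3, Hnum⟩ := detect_num (C1 + 2 * A * (C0 + 1)) (by nlinarith)
  have hD0 : 0 < Real.exp 10 := Real.exp_pos _
  have hD1 : 1 ≤ Real.exp 10 := Real.one_le_exp (by norm_num)
  have hD3 : 3 ≤ Real.exp 10 := by
    have := Real.add_one_le_exp (10 : ℝ)
    linarith
  have hD5 : Real.exp 10 < 22027 := by
    have h1 : Real.exp 10 = Real.exp 1 ^ 10 := by
      rw [← Real.exp_nat_mul]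
      norm_num
    rw [h1]
    calc Real.exp 1 ^ 10 ≤ 2.7182818286 ^ 10 :=
        pow_le_pow_left₀ (Real.exp_pos _).le Real.exp_one_lt_d9.le 10
      _ < 22027 := by norm_num
  refine ⟨C3 + C2 * (Real.exp 10) ^ 2, by nlinarith [sq_nonneg (Real.exp 10)], ?_⟩
  intro ℓ T f hf κ v hκ1 hκ2 hv K1 hK1 hρ
  obtain ⟨ρ₀, hρ0, hρ1, hρ2⟩ := hρ
  have hℓ : 10 ^ 9 ≤ ℓ := by
    unfold th0 at hκ2
    rw [div_mul_eq_mul_div, one_mul, le_div_iff₀ (by norm_num)] at hκ2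
    nlinarith
  have hℓ0 : 0 < ℓ := by linarith
  have hℓ8 : 8 ≤ ℓ := by linarith
  have hlamle : κ / ℓ ≤ 1 / 10 ^ 9 := by
    rw [div_le_iff₀ hℓ0]
    exact hκ2
  have hlam1 : 1 / ℓ ≤ κ / ℓ := div_le_div_of_nonneg_right hκ1 hℓ0.le
  have hlamℓ : κ / ℓ * ℓ = κ := div_mul_cancel₀ _ hℓ0.ne'
  generalize κ / ℓ = lam at *
  have hlam0 : 0 < lam := lt_of_lt_of_le (by positivity) hlam1
  have hlam8 : lam ≤ 1 / 8 := hlamle.trans (by norm_num)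
  have hs0 : f (1 + lam + v * Complex.I) ≠ 0 := z2_ne hf hlam0.le
  have hDlam : Real.exp 10 * lam ≤ 1 / 4 := by
    have h1 : Real.exp 10 * lam ≤ 22027 * (1 / 10 ^ 9) :=
      mul_le_mul hD5.le hlamle hlam0.le (by norm_num)
    exact h1.trans (by norm_num)
  have h8lam : 8 * lam ≤ 1 / Real.exp 10 := by
    rw [le_div_iff₀ hD0]
    have h1 : Real.exp 10 * lam ≤ 22027 * (1 / 10 ^ 9) :=
      mul_le_mul hD5.le hlamle hlam0.le (by norm_num)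
    have h2 : 8 * lam * Real.exp 10 = 8 * (Real.exp 10 * lam) := by ring
    rw [h2]
    linarith
  have hnear := Hnear ℓ T f hℓ8 hf lam v (Real.exp 10) hlam1 hlam8 hv hD1 hDlam
  have hsum := Hsum ℓ T f hℓ8 hf lam v hlam1 hlam8 hv
  rw [hlamℓ] at hnear hsum
  have hgr := hf.growth lam v hlam1 hlam8 hv
  have hrep := z2_re lam v
  have himp := z2_im lam v
  generalize (1 + lam + v * Complex.I : ℂ) = s₀ at *
  have hne : ∃ c, f c ≠ 0 := ⟨s₀, hs0⟩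
  have hmem : ∀ (R : ℝ) (ρ : ℂ), ρ ∈ ZD f s₀ R ↔ f ρ = 0 ∧ ‖ρ - s₀‖ ≤ R :=
    fun R ρ => mem_ZD hf.diff hne
  -- the distance from the zeros
  have hdist : ∀ ρ : ℂ, f ρ = 0 → lam < ‖s₀ - ρ‖ := by
    intro ρ h1
    have h2 := hf.zre ρ h1
    have h3 := Complex.re_le_norm (s₀ - ρ)
    rw [Complex.sub_re, hrep] at h3
    linarith
  let z : ℂ → ℂ := fun ρ => (lam : ℂ) / (s₀ - ρ)
  have hznorm : ∀ ρ, ‖z ρ‖ = lam / ‖s₀ - ρ‖ := by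
    intro ρ
    simp only [z]
    rw [norm_div, Complex.norm_real, Real.norm_of_nonneg hlam0.le]
  have hz1 : ∀ ρ, f ρ = 0 → ‖z ρ‖ ≤ 1 := by
    intro ρ h1
    rw [hznorm, div_le_one (hlam0.trans (hdist ρ h1))]
    exact (hdist ρ h1).le
  have hK1C : C3 * κ ≤ K1 ∧ C2 * (Real.exp 10) ^ 2 * κ ≤ K1 := by
    have h1 : (C3 + C2 * (Real.exp 10) ^ 2) * κ = C3 * κ + C2 * (Real.exp 10) ^ 2 * κ := by ring
    have h2 : 0 ≤ C3 * κ := by positivity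
    have h3 : 0 ≤ C2 * (Real.exp 10) ^ 2 * κ := by positivity
    constructor <;> linarith
  have hK12 : 2 ≤ K1 := by
    have h1 : (2 : ℝ) ≤ K1 := by
      refine le_trans ?_ hK1C.2
      have h2 : (9 : ℝ) ≤ (Real.exp 10) ^ 2 := by nlinarith
      have h3 : (9 : ℝ) ≤ C2 * (Real.exp 10) ^ 2 := by nlinarith
      nlinarith
    exact_mod_cast h1
  have hcard : (ZD f s₀ (Real.exp 10 * lam)).card ≤ K1 := by
    have h1 : ((ZD f s₀ (Real.exp 10 * lam)).card : ℝ) ≤ K1 := by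
      refine le_trans ?_ (hnear.trans hK1C.2)
      rw [card_eq_sum_ones, Nat.cast_sum]
      refine sum_le_sum fun ρ hρ => ?_
      rw [hmem] at hρ
      exact_mod_cast od_pos hf.diff hne hρ.1
    exact_mod_cast h1
  have hρ₀d : ‖s₀ - ρ₀‖ ≤ 3 * lam := by
    have h5 := hf.zre ρ₀ hρ0
    have h6 := Complex.norm_le_abs_re_add_abs_im (s₀ - ρ₀)
    rw [Complex.sub_re, Complex.sub_im, hrep, himp] at h6
    have h7 : |1 + lam - ρ₀.re| ≤ 2 * lam := by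
      rw [abs_le]
      constructor <;> linarith
    have h8 : |v - ρ₀.im| ≤ lam := by
      rw [abs_sub_comm]
      exact hρ2
    linarith
  have hρ₀S : ρ₀ ∈ ZD f s₀ (Real.exp 10 * lam) := by
    rw [hmem]
    refine ⟨hρ0, ?_⟩
    rw [norm_sub_rev]
    exact hρ₀d.trans (mul_le_mul_of_nonneg_right hD3 hlam0.le)
  have hρ₀z : 1 / 3 ≤ ‖z ρ₀‖ := by
    rw [hznorm, le_div_iff₀ (hlam0.trans (hdist ρ₀ hρ0))]
    linarith
  obtain ⟨e, he1, he2, hT⟩ := turan (ZD f s₀ (Real.exp 10 * lam)) (od f) z K1 (by omega) hcard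
    (fun ρ hρ => hz1 ρ ((hmem _ _).1 hρ).1) ρ₀ hρ₀S (od_pos hf.diff hne hρ0) hρ₀z
  refine ⟨e, he1, he2, ?_⟩
  obtain ⟨hn1, hn2⟩ := Hnum κ K1 e hκ1 hK1C.1 he1
  have hsub : ZD f s₀ (Real.exp 10 * lam) ⊆ ZD f s₀ (1 / 4) := by
    intro ρ hρ
    rw [hmem] at hρ ⊢
    exact ⟨hρ.1, hρ.2.trans hDlam⟩
  -- the far zeros
  have hfar : ‖∑ ρ ∈ ZD f s₀ (1 / 4) \ ZD f s₀ (Real.exp 10 * lam), (od f ρ : ℂ) * z ρ ^ e‖ ≤
      C1 * κ * (Real.exp 10) ^ 2 * (1 / Real.exp 10) ^ e := by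
    have h1 : ∀ ρ ∈ ZD f s₀ (1 / 4) \ ZD f s₀ (Real.exp 10 * lam),
        ‖(od f ρ : ℂ) * z ρ ^ e‖ ≤ ((Real.exp 10) ^ 2 * (1 / Real.exp 10) ^ e) *
          ((od f ρ : ℝ) * (lam / ‖s₀ - ρ‖) ^ 2) := by
      intro ρ hρ
      rw [mem_sdiff, hmem, hmem] at hρ
      have h2 : Real.exp 10 * lam < ‖s₀ - ρ‖ := by
        rw [norm_sub_rev]
        by_contra h
        exact hρ.2 ⟨hρ.1.1, not_lt.1 h⟩
      have h3 : ‖z ρ‖ ≤ 1 / Real.exp 10 := by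
        rw [hznorm, div_le_div_iff₀ (hlam0.trans (hdist ρ hρ.1.1)) hD0]
        linarith
      have h4 : ‖z ρ‖ ^ e ≤ (1 / Real.exp 10) ^ (e - 2) * ‖z ρ‖ ^ 2 := by
        have h5 : ‖z ρ‖ ^ e = ‖z ρ‖ ^ (e - 2) * ‖z ρ‖ ^ 2 := by
          rw [← pow_add]
          congr 1
          omega
        rw [h5]
        exact mul_le_mul_of_nonneg_right (pow_le_pow_left₀ (norm_nonneg _) h3 _) (by positivity)
      have h6 : (1 / Real.exp 10) ^ (e - 2) = (Real.exp 10) ^ 2 * (1 / Real.exp 10) ^ e := by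
        obtain ⟨e', rfl⟩ : ∃ e', e = e' + 2 := ⟨e - 2, by omega⟩
        rw [Nat.add_sub_cancel, pow_add]
        field_simp
      rw [norm_mul, norm_pow, Complex.norm_natCast]
      rw [h6, hznorm] at h4
      rw [hznorm]
      calc (od f ρ : ℝ) * (lam / ‖s₀ - ρ‖) ^ e ≤ (od f ρ : ℝ) *
          ((Real.exp 10) ^ 2 * (1 / Real.exp 10) ^ e * (lam / ‖s₀ - ρ‖) ^ 2) :=
            mul_le_mul_of_nonneg_left h4 (Nat.cast_nonneg _)
        _ = _ := by ring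
    refine (norm_sum_le_of_le _ h1).trans ?_
    rw [← mul_sum]
    have h2 : ∑ ρ ∈ ZD f s₀ (1 / 4) \ ZD f s₀ (Real.exp 10 * lam),
        (od f ρ : ℝ) * (lam / ‖s₀ - ρ‖) ^ 2 ≤ C1 * κ :=
      (sum_le_sum_of_subset_of_nonneg sdiff_subset fun ρ _ _ => by positivity).trans hsum
    calc _ ≤ (Real.exp 10) ^ 2 * (1 / Real.exp 10) ^ e * (C1 * κ) :=
          mul_le_mul_of_nonneg_left h2 (by positivity)
      _ = _ := by ring
  have hall : (1 / 4096 : ℝ) ^ K1 - C1 * κ * (Real.exp 10) ^ 2 * (1 / Real.exp 10) ^ e ≤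
      ‖∑ ρ ∈ ZD f s₀ (1 / 4), (od f ρ : ℂ) * z ρ ^ e‖ := by
    rw [← sum_sdiff hsub]
    have h1 := norm_sub_norm_le (∑ ρ ∈ ZD f s₀ (Real.exp 10 * lam), (od f ρ : ℂ) * z ρ ^ e)
      (-∑ ρ ∈ ZD f s₀ (1 / 4) \ ZD f s₀ (Real.exp 10 * lam), (od f ρ : ℂ) * z ρ ^ e)
    rw [norm_neg, sub_neg_eq_add] at h1
    rw [add_comm]
    linarith
  -- the approximation of the logarithmic derivative
  have hLk := HL f s₀ (1 / 2) (C0 * ℓ) (by norm_num) (by positivity) hf.diff hs0 hgr (e - 1)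
  have h4 : (1 / 2 / 2 : ℝ) = 1 / 4 := by norm_num
  have h8 : (4 / (1 / 2) : ℝ) = 8 := by norm_num
  have hee : e - 1 + 1 = e := by omega
  rw [h4, h8, hee] at hLk
  have hmul : ‖(lam : ℂ) ^ e * (iteratedDeriv (e - 1) (logDeriv f) s₀ / ((e - 1).factorial : ℂ)) -
      (-1) ^ (e - 1) * ∑ ρ ∈ ZD f s₀ (1 / 4), (od f ρ : ℂ) * z ρ ^ e‖ ≤
      lam ^ e * (A * (C0 * ℓ + 1) / (1 / 2) * 8 ^ (e - 1)) := by
    have h1 : (lam : ℂ) ^ e * (iteratedDeriv (e - 1) (logDeriv f) s₀ / ((e - 1).factorial : ℂ)) -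
      (-1) ^ (e - 1) * ∑ ρ ∈ ZD f s₀ (1 / 4), (od f ρ : ℂ) * z ρ ^ e =
      (lam : ℂ) ^ e * (iteratedDeriv (e - 1) (logDeriv f) s₀ / ((e - 1).factorial : ℂ) -
      (-1) ^ (e - 1) * ∑ ρ ∈ ZD f s₀ (1 / 4), (od f ρ : ℂ) * (1 / (s₀ - ρ)) ^ e) := by
      rw [mul_sub, mul_left_comm ((lam : ℂ) ^ e) ((-1) ^ (e - 1))]
      congr 2
      rw [mul_sum]
      refine sum_congr rfl fun ρ _ => ?_
      simp only [z]
      rw [div_eq_mul_one_div, mul_pow]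
      ring
    rw [h1, norm_mul, norm_pow, Complex.norm_real, Real.norm_of_nonneg hlam0.le]
    exact mul_le_mul_of_nonneg_left hLk (by positivity)
  have herr : lam ^ e * (A * (C0 * ℓ + 1) / (1 / 2) * 8 ^ (e - 1)) ≤
      2 * A * (C0 + 1) * κ * (1 / Real.exp 10) ^ (e - 1) := by
    obtain ⟨e', rfl⟩ : ∃ e', e = e' + 1 := ⟨e - 1, by omega⟩
    rw [Nat.add_sub_cancel]
    have h1 : lam ^ (e' + 1) * (A * (C0 * ℓ + 1) / (1 / 2) * 8 ^ e') =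
        2 * A * (C0 * (lam * ℓ) + lam) * (8 * lam) ^ e' := by
      rw [mul_pow, pow_succ]
      ring
    rw [h1, hlamℓ]
    have h2 : (8 * lam) ^ e' ≤ (1 / Real.exp 10) ^ e' :=
      pow_le_pow_left₀ (by positivity) h8lam e'
    have h3 : C0 * κ + lam ≤ (C0 + 1) * κ := by
      rw [add_mul, one_mul]
      exact add_le_add_right (hlam8.trans (le_trans (by norm_num) hκ1)) _
    have h5 : 2 * A * (C0 * κ + lam) ≤ 2 * A * (C0 + 1) * κ := by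
      have : 2 * A * (C0 + 1) * κ = 2 * A * ((C0 + 1) * κ) := by ring
      rw [this]
      exact mul_le_mul_of_nonneg_left h3 (by positivity)
    exact mul_le_mul h5 h2 (by positivity) (by positivity)
  have hsplit1 : C1 * κ * (Real.exp 10) ^ 2 * (1 / Real.exp 10) ^ e ≤
      1 / 4 * (1 / 4096) ^ K1 := by
    refine le_trans ?_ hn1
    have h1 : C1 * κ ≤ (C1 + 2 * A * (C0 + 1)) * κ :=
      mul_le_mul_of_nonneg_right (le_add_of_nonneg_right (by positivity))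
        (zero_le_one.trans hκ1)
    exact mul_le_mul_of_nonneg_right (mul_le_mul_of_nonneg_right h1 (by positivity))
      (by positivity)
  have hsplit2 : 2 * A * (C0 + 1) * κ * (1 / Real.exp 10) ^ (e - 1) ≤
      1 / 4 * (1 / 4096) ^ K1 := by
    refine le_trans ?_ hn2
    have h1 : 2 * A * (C0 + 1) * κ ≤ (C1 + 2 * A * (C0 + 1)) * κ :=
      mul_le_mul_of_nonneg_right (le_add_of_nonneg_left (zero_le_one.trans hC1))
        (zero_le_one.trans hκ1)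
    exact mul_le_mul_of_nonneg_right h1 (by positivity)
  have hfin := norm_sub_norm_le
    ((-1) ^ (e - 1) * ∑ ρ ∈ ZD f s₀ (1 / 4), (od f ρ : ℂ) * z ρ ^ e)
    ((-1) ^ (e - 1) * ∑ ρ ∈ ZD f s₀ (1 / 4), (od f ρ : ℂ) * z ρ ^ e -
      (lam : ℂ) ^ e * (iteratedDeriv (e - 1) (logDeriv f) s₀ / ((e - 1).factorial : ℂ)))
  rw [sub_sub_cancel, norm_sub_rev, norm_mul, norm_pow, norm_neg, norm_one, one_pow, one_mul]
    at hfin
  linarith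

end Pool.Agent.Lib.H18Q
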