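import Pool.Agent.Lib.H18Q.QDefs
import Pool.Agent.Lib.H68T.LAB2
import Pool.Agent.Lib.H68T.LAB3

/-!
# Project H18Q, chunk Z5A: growth data of the primitive L-functions
-/

open Finset

namespace Pool.Agent.Lib.H18Q

open Pool.Agent.Lib.H68T

/-- Products. Proof: `f s₀ ≠ 0`, `g s₀ ≠ 0` at `s₀ = 1 + lam + i v` (`zre`), `logDeriv_mul`, the
rest is multiplication and the triangle inequality. -/
theorem LDat.mul {C0 C0' ℓ T : ℝ} {f g : ℂ → ℂ} (hf : LDat C0 ℓ T f) (hg : LDat C0' ℓ T g) :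
    LDat (C0 + C0') ℓ T (fun s => f s * g s) := by
  refine ⟨hf.diff.mul hg.diff, ?_, ?_, ?_⟩
  · intro ρ h
    rcases mul_eq_zero.1 h with h | h
    · exact hf.zre ρ h
    · exact hg.zre ρ h
  · intro lam v h1 h2 h3 s hs
    have h4 := hf.growth lam v h1 h2 h3 s hs
    have h5 := hg.growth lam v h1 h2 h3 s hs
    simp only [norm_mul]
    rw [add_mul, Real.exp_add]
    calc ‖f s‖ * ‖g s‖ ≤ (Real.exp (C0 * ℓ) * ‖f (1 + lam + v * Complex.I)‖) *
          (Real.exp (C0' * ℓ) * ‖g (1 + lam + v * Complex.I)‖) :=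
          mul_le_mul h4 h5 (norm_nonneg _) (by positivity)
      _ = _ := by ring
  · intro lam v h1 h2 h3
    have h4 := hf.ld lam v h1 h2 h3
    have h5 := hg.ld lam v h1 h2 h3
    set s₀ : ℂ := 1 + lam + v * Complex.I with hs₀
    by_cases h0 : f s₀ * g s₀ = 0
    · rw [logDeriv_apply, h0, div_zero, norm_zero, add_div]
      have := norm_nonneg (logDeriv f s₀)
      have := norm_nonneg (logDeriv g s₀)
      linarith
    · replace h0 := mul_ne_zero_iff.1 h0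
      rw [logDeriv_mul s₀ h0.1 h0.2 hf.diff.differentiableAt hg.diff.differentiableAt, add_div]
      exact (norm_add_le _ _).trans (add_le_add h4 h5)

theorem LDat.mono {C0 C0' ℓ T T' : ℝ} {f : ℂ → ℂ} (h : LDat C0 ℓ T f) (hC : C0 ≤ C0')
    (hT : T' ≤ T) (hℓ : 0 ≤ ℓ) : LDat C0' ℓ T' f := by
  refine ⟨h.diff, h.zre, ?_, ?_⟩
  · intro lam v h1 h2 h3 s hs
    refine (h.growth lam v h1 h2 (h3.trans hT) s hs).trans ?_
    apply mul_le_mul_of_nonneg_right _ (norm_nonneg _)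
    exact Real.exp_le_exp.2 (mul_le_mul_of_nonneg_right hC hℓ)
  · intro lam v h1 h2 h3
    refine (h.ld lam v h1 h2 (h3.trans hT)).trans ?_
    apply div_le_div_of_nonneg_right hC
    exact le_trans (by positivity) h1

/-- facts on `s₀` and on `s` in the disc -/
theorem z5a_pt {lam v η X : ℝ} (hl : 0 < lam) (hl8 : lam ≤ 1 / 8) (hv : |v| ≤ X) (hη : 0 ≤ η)
    (hη8 : η ≤ 1 / 8) {s : ℂ} (hs : s ∈ Metric.closedBall (1 + lam + v * Complex.I : ℂ) (1 / 2)) :
    1 / 2 ≤ (s + η).re ∧ (s + η).re ≤ 3 ∧ |(s + η).im| ≤ X + 1 ∧ ‖s + η‖ ≤ X + 3 := by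
  rw [Metric.mem_closedBall, Complex.dist_eq] at hs
  have h1 := (Complex.abs_re_le_norm _).trans hs
  have h2 := (Complex.abs_im_le_norm _).trans hs
  simp only [Complex.sub_re, Complex.sub_im, Complex.add_re, Complex.add_im, Complex.one_re,
    Complex.one_im, Complex.ofReal_re, Complex.ofReal_im, Complex.mul_re, Complex.mul_im,
    Complex.I_re, Complex.I_im, mul_zero, mul_one, sub_zero, zero_add, add_zero] at h1 h2
  rw [abs_le] at h1 h2 hv
  have e1 : (s + η).re = s.re + η := by simp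
  have e2 : (s + η).im = s.im := by simp
  rw [e1, e2]
  have h3 : |s.im| ≤ X + 1 := by
    rw [abs_le]
    constructor <;> linarith [h2.1, h2.2, hv.1, hv.2]
  have h5 : ‖s + η‖ ≤ X + 3 := by
    have h6 := Complex.norm_le_abs_re_add_abs_im (s + η)
    rw [e1, e2] at h6
    have h7 : |s.re + η| ≤ 2 := by
      rw [abs_le]
      constructor <;> linarith [h1.1, h1.2]
    linarith
  exact ⟨by linarith [h1.1], by linarith [h1.2], h3, h5⟩

theorem z5a_re (lam v η : ℝ) : ((1 + lam + v * Complex.I : ℂ) + η).re = 1 + lam + η := by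
  simp

theorem z5a_ld : ∃ C : ℝ, 0 < C ∧ ∀ (N : ℕ) [NeZero N] (χ : DirichletCharacter ℂ N) (lam v η : ℝ),
    0 < lam → lam ≤ 1 / 8 → 0 ≤ η → η ≤ 1 / 8 →
    ‖logDeriv χ.LFunction ((1 + lam + v * Complex.I : ℂ) + η)‖ ≤ 1 / lam + C := by
  obtain ⟨C, hC, h⟩ := vonMangoldt_le
  refine ⟨C, hC, fun N _ χ lam v η hl hl8 hη hη8 => ?_⟩
  have hre := z5a_re lam v η
  have h1 := lab1_char N χ ((1 + lam + v * Complex.I : ℂ) + η) (by rw [hre]; linarith)
  have h2 := norm_LSeries_vM_le N χ ((1 + lam + v * Complex.I : ℂ) + η) (by rw [hre]; linarith)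
  rw [h1, norm_neg, hre] at h2
  have h3 := h (1 + lam + η) (by linarith) (by linarith)
  refine h2.trans (h3.trans ?_)
  have h4 : 1 / (1 + lam + η - 1) ≤ 1 / lam :=
    one_div_le_one_div_of_le hl (by linarith)
  linarith

theorem z5a_low (N : ℕ) [NeZero N] (χ : DirichletCharacter ℂ N) (lam v η : ℝ)
    (hl : 0 < lam) (hl8 : lam ≤ 1 / 8) (hη : 0 ≤ η) :
    lam / 2 ≤ ‖χ.LFunction ((1 + lam + v * Complex.I : ℂ) + η)‖ := by
  have hre := z5a_re lam v η
  have h1 := lab2_lower N χ ((1 + lam + v * Complex.I : ℂ) + η) (by rw [hre]; linarith)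
  rw [DirichletCharacter.LFunction_eq_LSeries χ (by rw [hre]; linarith)]
  refine le_trans ?_ h1
  rw [hre, div_le_div_iff₀ (by norm_num) (by linarith)]
  nlinarith

theorem z5a_logQ {Q : ℕ} (hQ : (4 : ℝ) ≤ Q) : 0 < Real.log Q ∧ Real.log Q ≤ Q := by
  refine ⟨Real.log_pos (by linarith), ?_⟩
  have := Real.log_le_sub_one_of_pos (by linarith : (0 : ℝ) < Q)
  linarith

theorem z5a_exp {Q : ℕ} (hQ : (4 : ℝ) ≤ Q) (k : ℕ) (C : ℝ) (hC : k ≤ C) :
    (Q : ℝ) ^ k ≤ Real.exp (C * Real.log Q) := by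
  have h1 : (Q : ℝ) ^ k = Real.exp (k * Real.log Q) := by
    rw [mul_comm, Real.exp_mul, Real.exp_log (by linarith), Real.rpow_natCast]
  rw [h1]
  exact Real.exp_le_exp.2 (mul_le_mul_of_nonneg_right hC (z5a_logQ hQ).1.le)

theorem z5a_logDeriv_shift (f : ℂ → ℂ) (η : ℝ) (s : ℂ) :
    logDeriv (fun s => f (s + η)) s = logDeriv f (s + η) := by
  rw [logDeriv_apply, logDeriv_apply, deriv_comp_add_const]

/-- Growth data of `L(s + η, χ)`, `χ ≠ 1` modulo `N ≤ Q²`, `0 ≤ η ≤ 1/8`.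

Proof. `ℓ = log Q`, `T = Q^10`, `s₀ = 1 + lam + i v`. Entire:
`DirichletCharacter.differentiable_LFunction`. `zre`: `LFunction (ρ + η) = 0` implies
`Re (ρ + η) < 1` (`DirichletCharacter.LFunction_ne_zero_of_one_le_re`, `χ ≠ 1`). Growth: `|s - s₀| ≤
1/2` gives `Re (s + η) ≥ 1/2`, so `LFunction_bound`: `|L(s + η)| ≤ 2 N |s + η| ≤ 2 Q² (Q^10 + 3)`,
and `|L(s₀ + η)| ≥ (lam + η)/(1 + lam + η) ≥ lam/2 ≥ 1/(2 log Q)` (`lab2_lower`, with
`DirichletCharacter.LFunction_eq_LSeries` for `Re > 1`; `x/(1+x)` is increasing). So the quotient is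
at most `4 Q² (Q^10 + 3) log Q ≤ exp (20 log Q)` for `Q ≥ 4`. Logarithmic derivative: `lab1_char`,
`norm_LSeries_vM_le`, `vonMangoldt_le`: `≤ 1/(lam + η) + C ≤ (1 + C)/lam`; use `logDeriv` of
the composition with the translation (`logDeriv_comp` or `deriv_comp_add_const`). -/
theorem LDat_shift : ∃ C0 K : ℝ, 1 ≤ C0 ∧ ∀ Q : ℕ, K ≤ Q → ∀ (N : ℕ) [NeZero N]
    (χ : DirichletCharacter ℂ N), N ≤ Q ^ 2 → χ ≠ 1 → ∀ η : ℝ, 0 ≤ η → η ≤ 1 / 8 →
    LDat C0 (Real.log Q) ((Q : ℝ) ^ 10) (fun s => χ.LFunction (s + η)) := by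
  obtain ⟨C, hC, hld⟩ := z5a_ld
  refine ⟨20 + C, 4, by linarith, fun Q hQ N _ χ hN hχ η hη hη8 => ?_⟩
  obtain ⟨hlog, hlogQ⟩ := z5a_logQ hQ
  refine ⟨?_, ?_, ?_, ?_⟩
  · exact (DirichletCharacter.differentiable_LFunction hχ).comp
      (differentiable_id.add (differentiable_const _))
  · intro ρ h
    by_contra hcon
    have h1 : 1 ≤ (ρ + η).re := by
      have : (ρ + η).re = ρ.re + η := by simp
      rw [this]
      linarith [not_lt.1 hcon]
    exact DirichletCharacter.LFunction_ne_zero_of_one_le_re χ (Or.inl hχ) h1 h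
  · intro lam v h1 h2 h3 s hs
    have hl : 0 < lam := lt_of_lt_of_le (by positivity) h1
    obtain ⟨p1, p2, p3, p4⟩ := z5a_pt hl h2 h3 hη hη8 hs
    have q1 := LFunction_bound N χ hχ (s + η) p1
    have q2 := z5a_low N χ lam v η hl h2 hη
    have hN' : (N : ℝ) ≤ (Q : ℝ) ^ 2 := by exact_mod_cast hN
    have q3 : ‖χ.LFunction (s + η)‖ ≤ (Q : ℝ) ^ 18 * (1 / (2 * Q)) := by
      refine q1.trans ?_
      have hQ0 : (0 : ℝ) < Q := by linarith
      have r1 : 2 * (N : ℝ) * ‖s + η‖ ≤ 2 * (Q : ℝ) ^ 2 * ((Q : ℝ) ^ 10 + 3) := by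
        apply mul_le_mul _ p4 (norm_nonneg _) (by positivity)
        linarith
      refine r1.trans ?_
      have r2 : (1 : ℝ) ≤ (Q : ℝ) ^ 10 := one_le_pow₀ (by linarith)
      have r3 : (4 : ℝ) ^ 2 ≤ (Q : ℝ) ^ 2 := pow_le_pow_left₀ (by norm_num) hQ 2
      have r4 : (1 : ℝ) ≤ (Q : ℝ) ^ 3 := one_le_pow₀ (by linarith)
      have r5 : (Q : ℝ) ^ 18 * (1 / (2 * Q)) = (Q : ℝ) ^ 2 * (Q : ℝ) ^ 10 * (Q : ℝ) ^ 2 * (Q : ℝ) ^ 3 / 2 := by
        field_simp
      rw [r5]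
      have r6 : 2 * (Q : ℝ) ^ 2 * ((Q : ℝ) ^ 10 + 3) ≤ (Q : ℝ) ^ 2 * (Q : ℝ) ^ 10 * 8 := by
        nlinarith [pow_pos hQ0 2]
      have r7 : (Q : ℝ) ^ 2 * (Q : ℝ) ^ 10 * 8 ≤ (Q : ℝ) ^ 2 * (Q : ℝ) ^ 10 * (Q : ℝ) ^ 2 * (Q : ℝ) ^ 3 / 2 := by
        have t1 : 0 < (Q : ℝ) ^ 2 * (Q : ℝ) ^ 10 := by positivity
        have t2 : (16 : ℝ) ≤ (Q : ℝ) ^ 2 * (Q : ℝ) ^ 3 := by nlinarith
        nlinarith [mul_le_mul_of_nonneg_left t2 t1.le]
      exact r6.trans r7
    have q4 : 1 / (2 * (Q : ℝ)) ≤ ‖χ.LFunction ((1 + lam + v * Complex.I : ℂ) + η)‖ := by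
      refine le_trans ?_ q2
      have r1 : 1 / (Q : ℝ) ≤ 1 / Real.log Q := one_div_le_one_div_of_le hlog hlogQ
      have r2 : 1 / (2 * (Q : ℝ)) = (1 / Q) / 2 := by field_simp
      rw [r2]
      linarith
    refine q3.trans ?_
    exact mul_le_mul (z5a_exp hQ 18 (20 + C) (by push_cast; linarith)) q4 (by positivity) (by positivity)
  · intro lam v h1 h2 h3
    have hl : 0 < lam := lt_of_lt_of_le (by positivity) h1
    rw [z5a_logDeriv_shift]
    refine (hld N χ lam v η hl h2 hη hη8).trans ?_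
    rw [le_div_iff₀ hl, add_mul, div_mul_cancel₀ _ hl.ne']
    nlinarith

/-- the trivial character -/
theorem z5a_triv_eq (N : ℕ) [NeZero N] (s : ℂ) : DirichletCharacter.LFunctionTrivChar₁ N s =
    gl2_Z s * ∏ p ∈ N.primeFactors, (1 - (p : ℂ) ^ (-s)) := by
  by_cases hs : s = 1
  · subst hs
    rw [gl2_Z_one, one_mul]
    unfold DirichletCharacter.LFunctionTrivChar₁
    rw [Function.update_self]
    refine Finset.prod_congr rfl fun p _ => ?_
    rw [Complex.cpow_neg_one]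
  · rw [gl2_Z_eq s hs, DirichletCharacter.LFunctionTrivChar₁, Function.update_of_ne hs,
      DirichletCharacter.LFunctionTrivChar_eq_mul_riemannZeta hs]
    ring

theorem z5a_prod (N : ℕ) [NeZero N] (s : ℂ) (hs : 0 ≤ s.re) :
    ‖∏ p ∈ N.primeFactors, (1 - (p : ℂ) ^ (-s))‖ ≤ N := by
  rw [norm_prod]
  have h1 : ∏ p ∈ N.primeFactors, ‖1 - (p : ℂ) ^ (-s)‖ ≤ ∏ p ∈ N.primeFactors, (p : ℝ) := by
    refine Finset.prod_le_prod (fun _ _ => norm_nonneg _) fun p hp => ?_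
    have hp2 : 2 ≤ p := (Nat.prime_of_mem_primeFactors hp).two_le
    have hp2' : (2 : ℝ) ≤ p := by exact_mod_cast hp2
    have h2 : ‖(p : ℂ) ^ (-s)‖ ≤ 1 := by
      rw [Complex.norm_natCast_cpow_of_pos (by omega), Complex.neg_re]
      exact Real.rpow_le_one_of_one_le_of_nonpos (by linarith) (by linarith)
    calc ‖1 - (p : ℂ) ^ (-s)‖ ≤ ‖(1 : ℂ)‖ + ‖(p : ℂ) ^ (-s)‖ := norm_sub_le _ _
      _ ≤ 2 := by rw [norm_one]; linarith
      _ ≤ p := hp2'
  refine h1.trans ?_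
  have h3 : ∏ p ∈ N.primeFactors, p ≤ N := Nat.le_of_dvd (Nat.pos_of_ne_zero (NeZero.ne N)) (Nat.prod_primeFactors_dvd N)
  have h4 : ((∏ p ∈ N.primeFactors, p : ℕ) : ℝ) ≤ (N : ℝ) := Nat.cast_le.2 h3
  rw [Nat.cast_prod] at h4
  exact h4

/-- Growth data of `(s + η - 1) L(s + η, 1_N)` for the trivial character modulo `N ≤ Q²`
(`DirichletCharacter.LFunctionTrivChar₁ N`, entire).

Proof. As `LDat_shift`. For `s ≠ 1`, `LFunctionTrivChar₁ N s = (s - 1) L(s, 1_N) =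
gl2_Z s ∏_{p ∣ N} (1 - p^(-s))` (`gl2_Z = LFunctionTrivChar₁ 1`;
`DirichletCharacter.LFunctionTrivChar_eq_mul_riemannZeta`), at `1` by continuity; the product has
absolute value at most `∏_{p ∣ N} 2 ≤ N` for `Re s ≥ 0`; `gl2_Z_bound` for `Re s ≤ 3`. Zeros: a zero
`ρ + η` of `LFunctionTrivChar₁` with `Re ≥ 1` is impossible (`riemannZeta_ne_zero_of_one_le_re`,
`gl2_Z_one`, `|p^(-s)| < 1`, `LFunctionTrivChar₁_apply_one_ne_zero`). Lower bound at `s₀ + η`:
`|s₀ + η - 1| ≥ lam + η`, `|L(s₀ + η, 1_N)| ≥ (lam + η)/(1 + lam + η)` (`lab2_lower`), product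
`≥ lam²/2`. Logarithmic derivative: `1/(s-1)` (at most `1/(lam+η)`) plus that of `L(s, 1_N)`
(`lab1_char`, `norm_LSeries_vM_le`, `vonMangoldt_le`). -/
theorem LDat_shift_triv : ∃ C0 K : ℝ, 1 ≤ C0 ∧ ∀ Q : ℕ, K ≤ Q → ∀ (N : ℕ) [NeZero N],
    N ≤ Q ^ 2 → ∀ η : ℝ, 0 ≤ η → η ≤ 1 / 8 →
    LDat C0 (Real.log Q) ((Q : ℝ) ^ 10)
      (fun s => DirichletCharacter.LFunctionTrivChar₁ N (s + η)) := by
  obtain ⟨C, hC, hld⟩ := z5a_ld
  refine ⟨30 + C, 4, by linarith, fun Q hQ N _ hN η hη hη8 => ?_⟩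
  obtain ⟨hlog, hlogQ⟩ := z5a_logQ hQ
  refine ⟨?_, ?_, ?_, ?_⟩
  · exact (DirichletCharacter.differentiable_LFunctionTrivChar₁ N).comp
      (differentiable_id.add (differentiable_const _))
  · intro ρ h
    by_contra hcon
    have h1 : 1 ≤ (ρ + η).re := by
      have : (ρ + η).re = ρ.re + η := by simp
      rw [this]
      linarith [not_lt.1 hcon]
    by_cases hs : ρ + (η : ℂ) = 1
    · simp only [hs] at h
      exact DirichletCharacter.LFunctionTrivChar₁_apply_one_ne_zero N h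
    · simp only [DirichletCharacter.LFunctionTrivChar₁, Function.update_of_ne hs] at h
      rcases mul_eq_zero.1 h with h2 | h2
      · exact sub_ne_zero.2 hs h2
      · exact DirichletCharacter.LFunction_ne_zero_of_one_le_re _ (Or.inr hs) h1 h2
  · intro lam v h1 h2 h3 s hs
    have hl : 0 < lam := lt_of_lt_of_le (by positivity) h1
    obtain ⟨p1, p2, p3, p4⟩ := z5a_pt hl h2 h3 hη hη8 hs
    have q1 := gl2_Z_bound (s + η) p1 p2
    have q1' := z5a_prod N (s + η) (by linarith)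
    have q2 := z5a_low N (1 : DirichletCharacter ℂ N) lam v η hl h2 hη
    have hN' : (N : ℝ) ≤ (Q : ℝ) ^ 2 := by exact_mod_cast hN
    have hQ0 : (0 : ℝ) < Q := by linarith
    have q3 : ‖DirichletCharacter.LFunctionTrivChar₁ N (s + η)‖ ≤ (Q : ℝ) ^ 30 * (1 / (2 * Q ^ 2)) := by
      rw [z5a_triv_eq, norm_mul]
      have r0 : 4 * (|(s + η).im| + 3) ^ 2 ≤ 4 * (5 * (Q : ℝ) ^ 10) ^ 2 := by
        have r2 : (1 : ℝ) ≤ (Q : ℝ) ^ 10 := one_le_pow₀ (by linarith)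
        have r3 : |(s + η).im| + 3 ≤ 5 * (Q : ℝ) ^ 10 := by linarith
        have r4 : (|(s + η).im| + 3) ^ 2 ≤ (5 * (Q : ℝ) ^ 10) ^ 2 := pow_le_pow_left₀ (by positivity) r3 2
        linarith
      have r1 := mul_le_mul (q1.trans r0) (q1'.trans hN') (norm_nonneg _) (by positivity)
      refine r1.trans ?_
      have r5 : (Q : ℝ) ^ 30 * (1 / (2 * Q ^ 2)) = (Q : ℝ) ^ 22 * (Q : ℝ) ^ 6 / 2 := by
        field_simp
      have r6 : 4 * (5 * (Q : ℝ) ^ 10) ^ 2 * (Q : ℝ) ^ 2 = 100 * (Q : ℝ) ^ 22 := by ring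
      rw [r5, r6]
      have r7 : (4 : ℝ) ^ 6 ≤ (Q : ℝ) ^ 6 := pow_le_pow_left₀ (by norm_num) hQ 6
      have r8 : (0 : ℝ) < (Q : ℝ) ^ 22 := by positivity
      nlinarith [mul_le_mul_of_nonneg_left r7 r8.le]
    have q4 : 1 / (2 * (Q : ℝ) ^ 2) ≤
        ‖DirichletCharacter.LFunctionTrivChar₁ N ((1 + lam + v * Complex.I : ℂ) + η)‖ := by
      have hne : (1 + lam + v * Complex.I : ℂ) + η ≠ 1 := by
        intro h
        have := congrArg Complex.re h
        rw [z5a_re, Complex.one_re] at this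
        linarith
      rw [DirichletCharacter.LFunctionTrivChar₁, Function.update_of_ne hne, norm_mul]
      have t1 : lam ≤ ‖(1 + lam + v * Complex.I : ℂ) + η - 1‖ := by
        refine le_trans ?_ (Complex.re_le_norm _)
        rw [Complex.sub_re, z5a_re, Complex.one_re]
        linarith
      have t2 : 1 / (Q : ℝ) ≤ lam := (one_div_le_one_div_of_le hlog hlogQ).trans h1
      have t3 : lam * (lam / 2) ≤ ‖(1 + lam + v * Complex.I : ℂ) + η - 1‖ *
          ‖(1 : DirichletCharacter ℂ N).LFunction ((1 + lam + v * Complex.I : ℂ) + η)‖ :=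
        mul_le_mul t1 q2 (by positivity) (norm_nonneg _)
      refine le_trans ?_ t3
      have t4 : 1 / (2 * (Q : ℝ) ^ 2) = (1 / Q) * (1 / Q) / 2 := by field_simp
      have t5 : (1 / (Q : ℝ)) * (1 / Q) ≤ lam * lam := mul_le_mul t2 t2 (by positivity) hl.le
      rw [t4]
      linarith
    refine q3.trans ?_
    exact mul_le_mul (z5a_exp hQ 30 (30 + C) (by push_cast; linarith)) q4 (by positivity) (by positivity)
  · intro lam v h1 h2 h3
    have hl : 0 < lam := lt_of_lt_of_le (by positivity) h1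
    have hne : (1 + lam + v * Complex.I : ℂ) + η ≠ 1 := by
      intro h
      have := congrArg Complex.re h
      rw [z5a_re, Complex.one_re] at this
      linarith
    rw [z5a_logDeriv_shift]
    have hL := z5a_low N (1 : DirichletCharacter ℂ N) lam v η hl h2 hη
    have hLne : (1 : DirichletCharacter ℂ N).LFunction ((1 + lam + v * Complex.I : ℂ) + η) ≠ 0 := by
      intro h
      rw [h, norm_zero] at hL
      linarith
    have hs1 : (1 + lam + v * Complex.I : ℂ) + η - 1 ≠ 0 := sub_ne_zero.2 hne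
    have hsplit : logDeriv (DirichletCharacter.LFunctionTrivChar₁ N) ((1 + lam + v * Complex.I : ℂ) + η) =
        logDeriv (1 : DirichletCharacter ℂ N).LFunction ((1 + lam + v * Complex.I : ℂ) + η) +
          1 / ((1 + lam + v * Complex.I : ℂ) + η - 1) := by
      rw [logDeriv_apply, logDeriv_apply,
        DirichletCharacter.deriv_LFunctionTrivChar₁_apply_of_ne_one N hne,
        DirichletCharacter.LFunctionTrivChar₁, Function.update_of_ne hne]
      simp only [DirichletCharacter.LFunctionTrivChar]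
      field_simp
    rw [hsplit]
    have t1 : lam ≤ ‖(1 + lam + v * Complex.I : ℂ) + η - 1‖ := by
      refine le_trans ?_ (Complex.re_le_norm _)
      rw [Complex.sub_re, z5a_re, Complex.one_re]
      linarith
    have t2 : ‖1 / ((1 + lam + v * Complex.I : ℂ) + η - 1)‖ ≤ 1 / lam := by
      rw [norm_div, norm_one]
      exact one_div_le_one_div_of_le hl t1
    refine (norm_add_le _ _).trans ?_
    have t3 := hld N (1 : DirichletCharacter ℂ N) lam v η hl h2 hη hη8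
    refine (add_le_add t3 t2).trans ?_
    rw [le_div_iff₀ hl, add_mul, add_mul, div_mul_cancel₀ _ hl.ne']
    nlinarith

/-- Growth data of `Lp p`: `LDat_shift` with `η = 0` for `p ≠ p0` (`Lp_mem`, `ne_one_of_ne_p0`),
`LDat_shift_triv` with `N = 1`, `η = 0` for `p = p0` (`Lp_p0`, `gl2_Z` is by definition
`LFunctionTrivChar₁ 1`). -/
theorem LDat_Lp : ∃ C0 K : ℝ, 1 ≤ C0 ∧ ∀ Q : ℕ, K ≤ Q → ∀ p ∈ PC Q,
    LDat C0 (Real.log Q) ((Q : ℝ) ^ 10) (Lp p) := by
  obtain ⟨C1, K1, hC1, h1⟩ := LDat_shift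
  obtain ⟨C2, K2, hC2, h2⟩ := LDat_shift_triv
  refine ⟨max C1 C2, max 4 (max K1 K2), hC1.trans (le_max_left _ _), fun Q hQ p hp => ?_⟩
  have hQ4 : (4 : ℝ) ≤ Q := (le_max_left _ _).trans hQ
  have hQ1 : K1 ≤ (Q : ℝ) := ((le_max_left _ _).trans (le_max_right _ _)).trans hQ
  have hQ2 : K2 ≤ (Q : ℝ) := ((le_max_right _ _).trans (le_max_right _ _)).trans hQ
  have hQ4' : 4 ≤ Q := by exact_mod_cast hQ4
  have hlog := (z5a_logQ hQ4).1
  by_cases h : p = p0
  · have h3 := h2 Q hQ2 1 (by nlinarith) 0 le_rfl (by norm_num)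
    rw [h, Lp_p0]
    have h4 : (fun s : ℂ => DirichletCharacter.LFunctionTrivChar₁ 1 (s + ((0 : ℝ) : ℂ))) = gl2_Z := by
      funext s
      rw [Complex.ofReal_zero, add_zero]
      rfl
    rw [h4] at h3
    exact h3.mono (le_max_right _ _) le_rfl hlog.le
  · obtain ⟨hne, hLp⟩ := Lp_mem hp h
    have hmem := mem_PC.mp hp
    have h3 := h1 Q hQ1 p.1 p.2 (by nlinarith [hmem.2.1]) (ne_one_of_ne_p0 hp h) 0 le_rfl (by norm_num)
    have h4 : (fun s : ℂ => p.2.LFunction (s + ((0 : ℝ) : ℂ))) = p.2.LFunction := by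
      funext s
      rw [Complex.ofReal_zero, add_zero]
    rw [h4] at h3
    rw [hLp]
    exact h3.mono (le_max_left _ _) le_rfl hlog.le

end Pool.Agent.Lib.H18Q
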