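import Pool.Agent.Lib.H18Q.D0
import Pool.Agent.Lib.H18Q.Z4
import Pool.Agent.Lib.H18Q.Z5A

/-!
# Project H18Q, chunk D1: a zero of a primitive L-function makes a sum over primes large
-/

open Finset

namespace Pool.Agent.Lib.H18Q

open ArithmeticFunction Pool.Agent.Lib.H68T

/-! ### Auxiliary facts -/

theorem D1_analytic (s₀ : ℂ) (h : 1 < s₀.re) :
    AnalyticAt ℂ (LSeries (fun n => (Λ n : ℂ))) s₀ := by
  apply LSeries_analyticOnNhd (fun n => (Λ n : ℂ)) s₀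
  have h1 : LSeries.abscissaOfAbsConv (fun n => (Λ n : ℂ)) ≤ (1 : ℝ) := by
    apply LSeries.abscissaOfAbsConv_le_of_forall_lt_LSeriesSummable
    intro y hy
    apply ArithmeticFunction.LSeriesSummable_vonMangoldt
    simpa using hy
  have h2 : ((1 : ℝ) : EReal) < (s₀.re : EReal) := by exact_mod_cast h
  exact lt_of_le_of_lt h1 h2

theorem D1_inv (k : ℕ) (s₀ : ℂ) :
    iteratedDeriv k (fun s : ℂ => 1 / (s - 1)) s₀ =
      (-1) ^ k * (k.factorial : ℂ) * (1 / (s₀ - 1) ^ (k + 1)) := by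
  have h1 : (fun s : ℂ => 1 / (s - 1)) = (fun s : ℂ => (1 * s - 1)⁻¹) := by
    funext s
    rw [one_mul, one_div]
  rw [h1, iteratedDeriv_eq_iterate, iter_deriv_inv_linear_sub k 1 1]
  have h2 : (-1 - k : ℤ) = -((k + 1 : ℕ) : ℤ) := by push_cast; ring
  simp only [one_pow, mul_one, one_mul]
  rw [h2, zpow_neg, zpow_natCast, one_div]

theorem D1_near (s₀ : ℂ) (h : 1 < s₀.re) : ∀ᶠ s in nhds s₀, 1 < s.re :=
  (isOpen_lt continuous_const Complex.continuous_re).mem_nhds h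

theorem D1_re (lam v : ℝ) (hlam : 0 < lam) :
    1 < ((1 : ℂ) + (lam : ℂ) + (v : ℂ) * Complex.I).re := by
  simp [hlam]

/-- The logarithmic derivative of `Lp p` and the series of `Λ χ`, near `s₀ = 1 + lam + i v`: for
`p ≠ p0` it is `-LSeries (Λ χ)`; for `p = p0` it is `1/(s-1) - LSeries Λ`
(`lab1_char`, `lab1_Z`; on the open half plane `Re s > 1`, so the iterated derivatives agree:
`Filter.EventuallyEq.iteratedDeriv_eq`). With `D0_series` (`c n = p.2 n`, `‖c n‖ ≤ 1`) the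
quantity of `detect` is, up to sign, the series over `n`, plus for `p0` the term
`(-1)^k (lam/(lam + i v))^(k+1)` (`iteratedDeriv k (1/(s-1)) = (-1)^k k!/(s-1)^(k+1)`). -/
theorem D1_series (Q : ℕ) (p : Σ r : ℕ, DirichletCharacter ℂ r) (hp : p ∈ PC Q) (lam : ℝ)
    (hlam : 0 < lam) (k : ℕ) (v : ℝ) :
    ‖(lam : ℂ) ^ (k + 1) * (iteratedDeriv k (logDeriv (Lp p)) (1 + lam + v * Complex.I) /
      (k.factorial : ℂ))‖ ≤
    ‖∑' n : ℕ, ((Λ n * Jk lam k n : ℝ) : ℂ) * p.2 (n : ZMod p.1) *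
      (n : ℂ) ^ (-(v * Complex.I))‖ +
      (open Classical in if p = p0 then ‖(lam : ℂ) / (lam + v * Complex.I)‖ ^ (k + 1) else 0) := by
  classical
  have hre := D1_re lam v hlam
  have hc : ∀ n : ℕ, ‖p.2 (n : ZMod p.1)‖ ≤ 2 := fun n =>
    (DirichletCharacter.norm_le_one p.2 _).trans (by norm_num)
  have hser := D0_series (fun n => p.2 (n : ZMod p.1)) hc lam hlam k v
  have hnser : ‖(lam : ℂ) ^ (k + 1) * (iteratedDeriv k (LSeries (fun n => (Λ n : ℂ) *
      p.2 (n : ZMod p.1))) (1 + lam + v * Complex.I) / (k.factorial : ℂ))‖ =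
      ‖∑' n : ℕ, ((Λ n * Jk lam k n : ℝ) : ℂ) * p.2 (n : ZMod p.1) *
        (n : ℂ) ^ (-(v * Complex.I))‖ := by
    rw [hser, norm_mul, norm_pow, norm_neg, norm_one, one_pow, one_mul]
  by_cases hp0 : p = p0
  · subst hp0
    rw [if_pos rfl, Lp_p0]
    have hfun : (fun n : ℕ => (Λ n : ℂ) * (p0.2 (n : ZMod p0.1) : ℂ)) =
        fun n : ℕ => (Λ n : ℂ) := by
      funext n
      have h1 : (p0.2 : DirichletCharacter ℂ p0.1) (n : ZMod p0.1) = 1 := by
        have h2 : (n : ZMod p0.1) = 1 := by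
          have : Subsingleton (ZMod p0.1) := by
            change Subsingleton (ZMod 1)
            infer_instance
          exact Subsingleton.elim _ _
        rw [h2, map_one]
      rw [h1, mul_one]
    rw [hfun] at hnser
    have hev : logDeriv gl2_Z =ᶠ[nhds ((1 : ℂ) + lam + v * Complex.I)]
        fun s => 1 / (s - 1) - LSeries (fun n => (Λ n : ℂ)) s := by
      filter_upwards [D1_near _ hre] with s hs
      rw [lab1_Z s hs]
      ring
    have hd := (hev.iteratedDeriv k).eq_of_nhds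
    have hne : ((1 : ℂ) + lam + v * Complex.I) - 1 ≠ 0 := by
      intro h0
      have := congrArg Complex.re h0
      simp at this
      exact hlam.ne' this
    have hA1 : ContDiffAt ℂ k (fun s : ℂ => 1 / (s - 1)) ((1 : ℂ) + lam + v * Complex.I) := by
      apply ContDiffAt.div contDiffAt_const
      · exact contDiffAt_id.sub contDiffAt_const
      · exact hne
    have hA2 : ContDiffAt ℂ k (LSeries (fun n => (Λ n : ℂ)))
        ((1 : ℂ) + lam + v * Complex.I) := (D1_analytic _ hre).contDiffAt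
    rw [hd, iteratedDeriv_fun_sub hA1 hA2, D1_inv, sub_div, mul_sub]
    have hk : (k.factorial : ℂ) ≠ 0 := by exact_mod_cast k.factorial_ne_zero
    have h3 : (lam : ℂ) ^ (k + 1) * ((-1) ^ k * (k.factorial : ℂ) *
        (1 / ((1 : ℂ) + lam + v * Complex.I - 1) ^ (k + 1)) / (k.factorial : ℂ)) =
        (-1) ^ k * ((lam : ℂ) / (lam + v * Complex.I)) ^ (k + 1) := by
      have h4 : (1 : ℂ) + lam + v * Complex.I - 1 = lam + v * Complex.I := by ring
      rw [h4] at hne ⊢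
      rw [div_pow]
      field_simp
    rw [h3]
    refine (norm_sub_le _ _).trans ?_
    rw [hnser, norm_mul, norm_pow, norm_neg, norm_one, one_pow, one_mul, norm_pow]
    linarith
  · rw [if_neg hp0, add_zero]
    obtain ⟨hN, hL⟩ := Lp_mem hp hp0
    have hev : logDeriv (Lp p) =ᶠ[nhds ((1 : ℂ) + lam + v * Complex.I)]
        fun s => -LSeries (fun n => (Λ n : ℂ) * p.2 (n : ZMod p.1)) s := by
      filter_upwards [D1_near _ hre] with s hs
      rw [lab1_char p.1 p.2 s hs, hL]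
      ring
    have hd := (hev.iteratedDeriv k).eq_of_nhds
    rw [hd, iteratedDeriv_fun_neg, neg_div, mul_neg, norm_neg, hnser]

/-- Detection by primes. Proof: `LDat_Lp` and `detect` (`C3` of `detect` for the `C0` of
`LDat_Lp`, `ℓ = log Q`, `T = Q^10`), with `e = k + 1` (`e ≥ K1 ≥ 1`); `D1_series`, `D0_trunc`; for
`p = p0`, `|v| ≥ 1/2`: `‖lam/(lam + iv)‖^(k+1) ≤ (2 lam)^(K1) ≤ (2 th0)^K1 ≤ (1/8) 4096^(-K1)`.
`1/2 - 1/8 - 1/8 = 1/4`. -/
theorem detect_primes : ∃ C3 K : ℝ, 1 ≤ C3 ∧ ∀ Q : ℕ, K ≤ Q → ∀ p ∈ PC Q, ∀ κ v : ℝ, 1 ≤ κ →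
    κ ≤ th0 * Real.log Q → |v| ≤ (Q : ℝ) ^ 9 → (p = p0 → 1 / 2 ≤ |v|) → ∀ K1 : ℕ,
    C3 * κ ≤ K1 →
    (∃ ρ : ℂ, Lp p ρ = 0 ∧ 1 - κ / Real.log Q ≤ ρ.re ∧ |ρ.im - v| ≤ κ / Real.log Q) →
    ∃ k : ℕ, K1 ≤ k + 1 ∧ k + 1 < 2 * K1 ∧ 1 / 4 * (1 / 4096 : ℝ) ^ K1 ≤
      ‖PP (fun n => p.2 (n : ZMod p.1)) (κ / Real.log Q) k K1 v‖ := by
  classical
  obtain ⟨C0, K, hC0, hL⟩ := LDat_Lp
  obtain ⟨C3, hC3, hdet⟩ := detect C0 hC0
  obtain ⟨C3', hC3', htr⟩ := D0_trunc
  refine ⟨max C3 C3', K, hC3.trans (le_max_left _ _), ?_⟩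
  intro Q hQ p hp κ v hκ hκ2 hv hp0v K1 hK1 hρ
  have hth : (0 : ℝ) < th0 := by unfold th0; positivity
  have hlog : 0 < Real.log Q := by
    by_contra hcon
    push Not at hcon
    have : th0 * Real.log Q ≤ 0 := mul_nonpos_of_nonneg_of_nonpos hth.le hcon
    linarith
  have hQ1 : (1 : ℝ) ≤ Q := by
    by_contra hcon
    push Not at hcon
    have h0 : Real.log (Q : ℝ) ≤ 0 := Real.log_nonpos (Nat.cast_nonneg Q) hcon.le
    linarith
  have hlam : 0 < κ / Real.log Q := by positivity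
  have hlamth : κ / Real.log Q ≤ th0 := by
    rw [div_le_iff₀ hlog]
    exact hκ2
  have hv10 : |v| ≤ (Q : ℝ) ^ 10 :=
    hv.trans (pow_le_pow_right₀ hQ1 (by norm_num))
  have hκ0 : 0 < κ := by linarith
  have hK1a : C3 * κ ≤ K1 := (mul_le_mul_of_nonneg_right (le_max_left _ _) hκ0.le).trans hK1
  have hK1b : C3' * κ ≤ K1 := (mul_le_mul_of_nonneg_right (le_max_right _ _) hκ0.le).trans hK1
  have hK1c : C3' ≤ K1 := by
    refine le_trans ?_ hK1b
    nlinarith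
  have hK1d : 1 ≤ K1 := by
    have : (1 : ℝ) ≤ K1 := hC3'.trans hK1c
    exact_mod_cast this
  obtain ⟨e, he1, he2, he3⟩ := hdet (Real.log Q) ((Q : ℝ) ^ 10) (Lp p) (hL Q hQ p hp) κ v hκ hκ2
    hv10 K1 hK1a hρ
  obtain ⟨k, rfl⟩ : ∃ k, e = k + 1 := ⟨e - 1, by omega⟩
  refine ⟨k, he1, he2, ?_⟩
  rw [Nat.add_sub_cancel] at he3
  have hser := D1_series Q p hp (κ / Real.log Q) hlam k v
  have htr2 := htr (fun n => p.2 (n : ZMod p.1)) (fun n =>
    (DirichletCharacter.norm_le_one p.2 _).trans (by norm_num)) (κ / Real.log Q) v k K1 hlam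
    hlamth hK1c he1 he2
  have h4096 : (0 : ℝ) < (1 / 4096 : ℝ) ^ K1 := by positivity
  have hterm : (if p = p0 then ‖((κ / Real.log Q : ℝ) : ℂ) /
      (((κ / Real.log Q : ℝ) : ℂ) + v * Complex.I)‖ ^ (k + 1) else 0) ≤
      1 / 8 * (1 / 4096 : ℝ) ^ K1 := by
    split_ifs with hp0
    · have hv2 := hp0v hp0
      set lam := κ / Real.log Q with hlamdef
      have h1 : ‖(lam : ℂ) / ((lam : ℂ) + v * Complex.I)‖ ≤ 2 * th0 := by
        rw [norm_div, Complex.norm_real, Real.norm_of_nonneg hlam.le]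
        have h2 : |v| ≤ ‖(lam : ℂ) + v * Complex.I‖ := by
          have := Complex.abs_im_le_norm ((lam : ℂ) + v * Complex.I)
          simpa using this
        have h3 : 1 / 2 ≤ ‖(lam : ℂ) + v * Complex.I‖ := hv2.trans h2
        rw [div_le_iff₀ (by linarith)]
        nlinarith
      have h2 : ‖(lam : ℂ) / ((lam : ℂ) + v * Complex.I)‖ ^ (k + 1) ≤ (2 * th0) ^ (k + 1) :=
        pow_le_pow_left₀ (norm_nonneg _) h1 _
      have h3 : (2 * th0) ^ (k + 1) ≤ (2 * th0) ^ K1 :=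
        pow_le_pow_of_le_one (by positivity) (by unfold th0; norm_num) he1
      have h4 : (2 * th0) ^ K1 = (2 * th0 * 4096) ^ K1 * (1 / 4096) ^ K1 := by
        rw [← mul_pow]
        congr 1
        ring
      have h5 : (2 * th0 * 4096) ^ K1 ≤ (2 * th0 * 4096) ^ 1 :=
        pow_le_pow_of_le_one (by positivity) (by unfold th0; norm_num) hK1d
      have h6 : (2 * th0 * 4096) ^ 1 ≤ 1 / 8 := by
        unfold th0
        norm_num
      calc _ ≤ (2 * th0) ^ K1 := h2.trans h3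
        _ = (2 * th0 * 4096) ^ K1 * (1 / 4096) ^ K1 := h4
        _ ≤ _ := mul_le_mul_of_nonneg_right (h5.trans h6) h4096.le
    · positivity
  have hA : 1 / 2 * (1 / 4096 : ℝ) ^ K1 ≤
      ‖∑' n : ℕ, ((Λ n * Jk (κ / Real.log Q) k n : ℝ) : ℂ) * p.2 (n : ZMod p.1) *
        (n : ℂ) ^ (-(v * Complex.I))‖ + 1 / 8 * (1 / 4096 : ℝ) ^ K1 := by
    refine (he3.trans hser).trans ?_
    exact add_le_add le_rfl hterm
  have hB := norm_sub_norm_le (∑' n : ℕ, ((Λ n * Jk (κ / Real.log Q) k n : ℝ) : ℂ) *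
    p.2 (n : ZMod p.1) * (n : ℂ) ^ (-(v * Complex.I)))
    (PP (fun n => p.2 (n : ZMod p.1)) (κ / Real.log Q) k K1 v)
  have hC := hB.trans htr2
  linarith

end Pool.Agent.Lib.H18Q
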