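import Pool.Agent.Lib.H18Q.VA
import Pool.Agent.Lib.H18Q.CL1
import Pool.Agent.Lib.H18E.ML
import Pool.Agent.Lib.H18E.DG

/-!
# Project H18Q, chunk DG2: degrees at a good level
-/

open Finset

namespace Pool.Agent.Lib.H18Q

open Pool.Agent.Lib.H68T Pool.Agent.Lib.H18E Pool.Agent.Lib.H18P

/-- `Gp 1 (2x) ≤ 2 SE x`: `Gp 1 (2x) = ∏_{p ∣ 2x} p/(p-1) = 2 ∏_{p ∣ x, p > 2} p/(p-1)`, and
`p/(p-1) ≤ (p-1)/(p-2)`. -/
theorem Gp_le_SE (x : ℕ) (hx : 0 < x) : Gp 1 (2 * (x : ℤ)) ≤ 2 * SE x := by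
  have hab : (2 * (x : ℤ)).natAbs = 2 * x := by omega
  have h1 : (2 * x).primeFactors.filter (fun p => ¬ p ∣ 1) =
      insert 2 (x.primeFactors.filter (fun p => 2 < p)) := by
    ext p
    simp only [mem_filter, mem_insert, Nat.mem_primeFactors]
    constructor
    · rintro ⟨⟨hp, hd, _⟩, _⟩
      rcases eq_or_ne p 2 with h | h
      · exact Or.inl h
      · right
        refine ⟨⟨hp, ?_, hx.ne'⟩, lt_of_le_of_ne hp.two_le (Ne.symm h)⟩
        rcases (Nat.Prime.dvd_mul hp).1 hd with h2 | h2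
        · exact absurd ((Nat.prime_dvd_prime_iff_eq hp Nat.prime_two).1 h2) h
        · exact h2
    · rintro (rfl | ⟨⟨hp, hd, _⟩, h2⟩)
      · exact ⟨⟨Nat.prime_two, Dvd.intro x rfl, by omega⟩, by norm_num⟩
      · exact ⟨⟨hp, hd.mul_left 2, by omega⟩, by
          rw [Nat.dvd_one]
          omega⟩
  have h2 : (2 : ℕ) ∉ x.primeFactors.filter (fun p => 2 < p) := by
    simp
  unfold Gp SE
  rw [hab, h1, prod_insert h2]
  have h3 : (1 : ℝ) + 1 / (((2 : ℕ) : ℝ) - 1) = 2 := by norm_num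
  rw [h3]
  apply mul_le_mul_of_nonneg_left _ (by norm_num)
  apply prod_le_prod
  · intro p hp
    have h4 : (3 : ℝ) ≤ p := by
      have := (mem_filter.1 hp).2
      exact_mod_cast (by omega : 3 ≤ p)
    have : 0 ≤ 1 / ((p : ℝ) - 1) := by
      apply div_nonneg zero_le_one
      linarith
    linarith
  · intro p hp
    have h4 : (3 : ℝ) ≤ p := by
      have := (mem_filter.1 hp).2
      exact_mod_cast (by omega : 3 ≤ p)
    have h5 : (p : ℝ) - 1 ≠ 0 := by linarith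
    have h6 : (0 : ℝ) < p - 1 := by linarith
    have h7 : (0 : ℝ) < p - 2 := by linarith
    have h8 : 1 + 1 / ((p : ℝ) - 1) = p / (p - 1) := by
      field_simp
      ring
    rw [h8, div_le_div_iff₀ h6 h7]
    nlinarith

/-- `SE x ≤ 2 Gp 1 (2x)`: `(p-1)/(p-2) = (p/(p-1)) (1 - 1/(p-1)²)^(-1)`, and the product of
`1 - 1/(p-1)²` over odd primes is at least `1/2` (`CC_half` in `H18E/CC`); moreover
`Gp 1 (2x) ≥ 2 ∏_{p ∣ x, p > 2} p/(p-1)`. -/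
theorem SE_le_Gp (x : ℕ) (hx : 0 < x) : SE x ≤ 2 * Gp 1 (2 * (x : ℤ)) := by
  have hc1 : compat 1 x = {0} := by
    ext y
    simp only [compat, mem_filter, mem_range, mem_singleton, Nat.cast_one]
    constructor
    · intro h; omega
    · rintro rfl
      exact ⟨by norm_num, isCoprime_one_right, isCoprime_one_right⟩
  have hgp := compat_gp 1 x one_pos hx
  rw [hc1] at hgp
  simp only [card_singleton, Nat.cast_one, Nat.totient_one, one_pow, div_one, one_mul] at hgp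
  linarith

/-- The main term at a good level: `model_low` (`H18E/ML`) with `W = r = 1`, `ε = ε' = 0`, `β = 1`
(`MM Q 1 0 1 = G Q`), along `m_c` and `± m'_c` as in chunk `MC`. -/
theorem main_goodlev : ∃ C : ℝ, 1 ≤ C ∧ ∀ (n Q x : ℕ) (σ : Bool) (j : ℕ), 8 ≤ Q → Q ^ 2 ≤ n →
    x ∈ Icc 1 n → (σ = true ↔ 2 * x ≤ n) → j ∈ xcJ σ n 1 (n / 32) →
    (n / 32 : ℕ) * (1 / 2 * Gp 1 (2 * (x : ℤ)) - C * (Q : ℝ) ^ (-(1 / 4) : ℝ) * Rk (2 * (x : ℤ))) -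
      (Q : ℝ) ^ 9 ≤
    ∑ c ∈ range (n / 32), G Q ((xcs 1 0 x j + c : ℕ) : ℤ) *
      G Q ((ix (n / 32) σ (xct σ (n / 32) 1 0 x j) c : ℕ) : ℤ) := by
  obtain ⟨C, hC, hml⟩ := model_low
  refine ⟨C, hC, ?_⟩
  intro n Q x σ j hQ hn hx hσ hj
  rw [mem_Icc] at hx
  have hn64 : 64 ≤ n := le_trans (by nlinarith) hn
  obtain ⟨H, hH⟩ : ∃ H, H = n / 32 := ⟨_, rfl⟩
  have hH1 : 1 ≤ H := by omega
  rw [← hH] at hj ⊢
  have hG : ∀ m : ℤ, G Q (-m) = G Q m := fun m => by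
    have h1 := cp_MM_neg Q 1 0 1 m
    unfold MM at h1
    simpa using h1
  have hMM : ∀ m : ℤ, MM Q 1 0 1 m = G Q m := fun m => by
    unfold MM
    simp
  have hcase : (1 ≤ (j : ℤ) - x ∨ (j : ℤ) - x + ((1 : ℕ) : ℤ) * H ≤ 0) ∧ ∀ c < H,
      G Q ((ix H σ (xct σ H 1 0 x j) c : ℕ) : ℤ) = G Q ((j : ℤ) - x + c) := by
    cases σ with
    | true =>
      have h1 : 2 * x ≤ n := hσ.1 rfl
      simp only [xcJ, if_true, mem_Ico] at hj
      refine ⟨Or.inl (by omega), fun c _ => ?_⟩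
      congr 1
      simp only [ix, cond_true, xct, xcD, if_true, Nat.cast_zero, Nat.cast_one, Int.ediv_one]
      omega
    | false =>
      have h1 : ¬ 2 * x ≤ n := fun h => by simpa using hσ.2 h
      simp only [xcJ, Bool.false_eq_true, if_false, mem_Ico] at hj
      refine ⟨Or.inr (by push_cast; omega), fun c hc => ?_⟩
      rw [← hG]
      congr 1
      simp only [ix, cond_false, xct, xcD, Bool.false_eq_true, if_false, Nat.cast_zero,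
        Nat.cast_one, Int.ediv_one]
      omega
  have hm := hml Q H 1 1 ((x : ℤ) + j) ((j : ℤ) - x) 1 0 0 one_pos (by simpa using (by omega : 1 ≤ Q))
    hQ (dvd_refl 1) isCoprime_one_right isCoprime_one_right (by omega) hcase.1 (by omega)
    (Or.inr ⟨x, by ring⟩) (by norm_num) le_rfl (by norm_num) (by norm_num)
  have e1 : (x : ℤ) + j - ((j : ℤ) - x) = 2 * x := by ring
  rw [e1] at hm
  simp only [hMM, Nat.cast_one, Nat.totient_one, div_one, one_pow, one_mul, zero_mul, sub_zero,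
    mul_one, sum_const, card_range, nsmul_eq_mul] at hm
  refine le_trans (le_of_eq (by ring)) (hm.trans (le_of_eq ?_))
  refine sum_congr rfl fun c hc => ?_
  rw [hcase.2 c (mem_range.1 hc)]
  congr 2
  unfold xcs
  rw [Nat.div_one]
  push_cast
  ring

/-- **Degrees at a good level.** Proof. `vert_low` with `mo = G Q`, `E = e0 = 1/(8 C)` (`C` of
`vert_low`; `lev_good` at `X = 3n/8`, `regp_shift`); `main_goodlev`; `Rk ≤ Q^(1/8)`:
`ohdeg (log 2n)² ≥ H (1/2 Gp - 1/8 Gp - C Q^(-1/8) - C Q^(-1/20)) - Q^9 ≥ H Gp/4` (`Gp ≥ 1`, `K` large,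
`H ≥ n/64 ≥ Q^20`), and `Gp ≥ SE/2`, `(log 2n)² ≤ 4 (log n)²`. -/
theorem deg_goodlev (c : ℝ) (hc : 0 < c) : ∃ K c0 : ℝ, 1 ≤ K ∧ 0 < c0 ∧ ∀ n Q : ℕ, RegP K Q n →
    Good c Q → ∃ B : Finset ℕ, B ⊆ Icc 1 n ∧ (B.card : ℝ) ≤ n * (Q : ℝ) ^ (-(1 / 20) : ℝ) ∧
      ∀ x ∈ Icc 1 n, x ∉ B → c0 * SE x * n / (Real.log n) ^ 2 ≤ ohdeg n x := by
  obtain ⟨K1, C1, hK1, hC1, hvert⟩ := vert_low
  obtain ⟨C2, hC2, hmain⟩ := main_goodlev
  obtain ⟨e0, he0⟩ : ∃ e0 : ℝ, e0 = 1 / (8 * C1) := ⟨_, rfl⟩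
  have he0p : 0 < e0 := by rw [he0]; positivity
  have he01 : e0 ≤ 1 := by
    rw [he0, div_le_one (by linarith)]
    linarith
  obtain ⟨K3, hK3, hlev⟩ := lev_good c e0 hc he0p he01
  obtain ⟨K0, hK0, hsh⟩ := regp_shift
  refine ⟨K1 + 2 * K3 + K0 + 240 * (C1 + C2) + 100, 1 / 3072, by linarith, by norm_num, ?_⟩
  intro n Q hR hG
  have hKpos : (0 : ℝ) ≤ K1 + 2 * K3 + K0 + 240 * (C1 + C2) + 100 := by linarith
  have hR1 : RegP K1 Q n := hR.mono hKpos (by linarith)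
  have hR2 : RegP (2 * K3 + K0) Q n := hR.mono hKpos (by linarith)
  have hR100 : RegP 100 Q n := hR.mono hKpos (by linarith)
  have hn100 : (100 : ℝ) ≤ n := hR100.X_ge (by norm_num)
  have hn8 : 100 ≤ n := by exact_mod_cast hn100
  have hL100 : 100 ≤ Real.log n := by
    have h1 := hR100.logX_ge (by norm_num)
    have h2 := Real.add_one_le_exp (100 : ℝ)
    linarith
  have hQ100 : (100 : ℝ) ≤ Q := hR100.Q_ge (by norm_num)
  have hQ8 : 8 ≤ Q := by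
    have : (8 : ℝ) ≤ Q := by linarith
    exact_mod_cast this
  have hQ0 : (0 : ℝ) < Q := by linarith
  have hn0 : (0 : ℝ) < n := by linarith
  have hQn : (Q : ℝ) ^ 100 ≤ n := by
    have h1 := hR100.logQ_le (by norm_num)
    have h2 : Real.log ((Q : ℝ) ^ 100) ≤ Real.log n := by
      rw [Real.log_pow]
      exact_mod_cast h1
    exact (Real.log_le_log_iff (by positivity) hn0).1 h2
  have hQ2n : Q ^ 2 ≤ n := by
    have h1 : (Q : ℝ) ^ 2 ≤ (Q : ℝ) ^ 100 := pow_le_pow_right₀ (by linarith) (by norm_num)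
    have h2 : ((Q ^ 2 : ℕ) : ℝ) ≤ n := by
      push_cast
      linarith
    exact_mod_cast h2
  have hX := DG_X n 1 one_pos (by omega)
  have hX' : 3 * n / (8 * 1) * 1 = 3 * n / 8 := by omega
  rw [hX'] at hX
  have hR3 : RegP K3 Q (3 * n / 8) := hsh K3 (by linarith) Q n _ hR2 hX.1 hX.2
  have hLev := hlev Q _ hR3 hG
  obtain ⟨B, hB1, hB2, hB3⟩ := hvert n Q e0 (fun m => G Q m) hR1 he0p.le (by linarith) hLev
  have hlogQ : 240 * (C1 + C2) ≤ Real.log Q := by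
    have := hR.logQ_ge (by linarith)
    linarith
  obtain ⟨hq20, _⟩ := DG_Q C1 hC1 Q (by linarith)
  obtain ⟨_, hq8⟩ := DG_Q C2 hC2 Q (by linarith)
  refine ⟨B, hB1, hB2, ?_⟩
  intro x hx hxB
  obtain ⟨hRk, σ, j, hσ, hj, hlow⟩ := hB3 x hx hxB
  have hm := hmain n Q x σ j hQ8 hQ2n hx hσ hj
  have hx1 : 0 < x := (mem_Icc.1 hx).1
  have hSE := SE_le_Gp x hx1
  have hgp1 := one_le_Gp 1 (2 * (x : ℤ))
  obtain ⟨gp, hgp⟩ : ∃ gp, gp = Gp 1 (2 * (x : ℤ)) := ⟨_, rfl⟩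
  rw [← hgp] at hm hlow hSE hgp1
  obtain ⟨H, hH⟩ : ∃ H : ℝ, H = ((n / 32 : ℕ) : ℝ) := ⟨_, rfl⟩
  rw [← hH] at hm hlow
  have hH0 : (n : ℝ) / 64 ≤ H := by
    have h1 : n ≤ 64 * (n / 32) := by omega
    have h2 : (n : ℝ) ≤ 64 * ((n / 32 : ℕ) : ℝ) := by exact_mod_cast h1
    rw [hH]
    linarith
  have hHpos : 0 < H := by
    have : (0 : ℝ) < n / 64 := by positivity
    linarith
  have hQ9 : (Q : ℝ) ^ 9 ≤ H / 24 := by
    have h1 : (Q : ℝ) ^ 100 = (Q : ℝ) ^ 9 * (Q : ℝ) ^ 91 := by ring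
    have h2 : (Q : ℝ) ^ 2 ≤ (Q : ℝ) ^ 91 := pow_le_pow_right₀ (by linarith) (by norm_num)
    have h3 : (10000 : ℝ) ≤ (Q : ℝ) ^ 2 := by nlinarith
    have h4 : (Q : ℝ) ^ 9 * 10000 ≤ (Q : ℝ) ^ 9 * (Q : ℝ) ^ 91 :=
      mul_le_mul_of_nonneg_left (h3.trans h2) (by positivity)
    rw [← h1] at h4
    linarith
  have hc2 : C2 * (Q : ℝ) ^ (-(1 / 4) : ℝ) * Rk (2 * (x : ℤ)) ≤ 1 / 12 := by
    have h1 : (Q : ℝ) ^ (-(1 / 4) : ℝ) * (Q : ℝ) ^ (1 / 8 : ℝ) = (Q : ℝ) ^ (-(1 / 8) : ℝ) := by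
      rw [← Real.rpow_add hQ0]
      norm_num
    calc C2 * (Q : ℝ) ^ (-(1 / 4) : ℝ) * Rk (2 * (x : ℤ))
        ≤ C2 * (Q : ℝ) ^ (-(1 / 4) : ℝ) * (Q : ℝ) ^ (1 / 8 : ℝ) :=
          mul_le_mul_of_nonneg_left hRk (by positivity)
      _ = C2 * (Q : ℝ) ^ (-(1 / 8) : ℝ) := by rw [mul_assoc, h1]
      _ ≤ 1 / 12 := hq8
  have hc1 : C1 * (e0 * gp + (Q : ℝ) ^ (-(1 / 20) : ℝ)) ≤ gp / 8 + 1 / 12 := by
    have h1 : C1 * e0 = 1 / 8 := by
      rw [he0]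
      have : C1 ≠ 0 := by linarith
      field_simp
    calc C1 * (e0 * gp + (Q : ℝ) ^ (-(1 / 20) : ℝ))
        = C1 * e0 * gp + C1 * (Q : ℝ) ^ (-(1 / 20) : ℝ) := by ring
      _ ≤ 1 / 8 * gp + 1 / 12 := by
          rw [h1]
          linarith
      _ = gp / 8 + 1 / 12 := by ring
  have hA : H * (gp / 6) ≤ ohdeg n x * (Real.log (2 * n)) ^ 2 := by
    have h1 := mul_le_mul_of_nonneg_right hc1 hHpos.le
    have h2 := mul_le_mul_of_nonneg_left hc2 hHpos.le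
    have h3 : H * (1 / 2 * gp - C2 * (Q : ℝ) ^ (-(1 / 4) : ℝ) * Rk (2 * (x : ℤ))) =
      H * gp / 2 - H * (C2 * (Q : ℝ) ^ (-(1 / 4) : ℝ) * Rk (2 * (x : ℤ))) := by ring
    rw [h3] at hm
    have h4 : H * 1 ≤ H * gp := mul_le_mul_of_nonneg_left hgp1 hHpos.le
    linarith
  have hB : H * (gp / 6) ≥ n / 64 * (SE x / 12) := by
    have h1 : SE x / 12 ≤ gp / 6 := by linarith
    have h2 : 0 ≤ gp / 6 := by linarith
    calc (n : ℝ) / 64 * (SE x / 12) ≤ n / 64 * (gp / 6) :=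
          mul_le_mul_of_nonneg_left h1 (by positivity)
      _ ≤ H * (gp / 6) := mul_le_mul_of_nonneg_right hH0 h2
  obtain ⟨hl0, hl2⟩ := DG_log n (by omega)
  have hL0 : 0 < Real.log n := by linarith
  rw [div_le_iff₀ (by positivity)]
  have h5 : (ohdeg n x : ℝ) * (Real.log (2 * n)) ^ 2 ≤ ohdeg n x * (4 * (Real.log n) ^ 2) :=
    mul_le_mul_of_nonneg_left hl2 (Nat.cast_nonneg _)
  nlinarith

end Pool.Agent.Lib.H18Q
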