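import Pool.Agent.Lib.H18E.CM
import Pool.Agent.Lib.H18E.CO

/-!
# Project H18Q, chunk HM: half of the classes
-/

open Finset

namespace Pool.Agent.Lib.H18Q

open Pool.Agent.Lib.H68T Pool.Agent.Lib.H18E

open scoped Classical in
/-- If a prime `p` divides `r` and `x`, half of the compatible classes have `ψ(x + y) = -1`.

Proof. By `CM_ex` with `m = r/p` there is a unit `u` modulo `r`, `u ≡ 1` modulo `r/p`, `ψ(u) ≠ 1`, so
`ψ(u) = -1` (`CM_val`). `u x = x` in `ZMod r`: `u = 1 + (r/p) k`, `(r/p) k x = r k (x/p) = 0`. So `y ↦ u y`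
maps the compatible classes (`CM_compat`: units `x + y`, `x - y`) to themselves
(`x ± u y = u (x ± y)`), injectively, and `ψ(x + u y) = -ψ(x + y)`; hence the classes with
`ψ(x + y) = 1` and with `-1` are equally many, and these are all. -/
theorem half_minus (r : ℕ) [NeZero r] (ψ : DirichletCharacter ℂ r) (hψ : ψ.IsPrimitive)
    (h2 : ψ ^ 2 = 1) (p : ℕ) (hp : p.Prime) (hpr : p ∣ r) (x : ℕ) (hx : p ∣ x) :
    ((compat r x).card : ℝ) / 2 ≤
      (((compat r x).filter (fun y : ℕ => ψ ((x : ZMod r) + y) = -1)).card : ℝ) := by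
  classical
  obtain ⟨m, hm⟩ := hpr
  obtain ⟨x', hx'⟩ := hx
  have hr0 : 0 < r := NeZero.pos r
  have hm0 : 0 < m := by
    rcases Nat.eq_zero_or_pos m with h | h
    · rw [h] at hm
      omega
    · exact h
  have hmr : m ∣ r := ⟨p, by rw [hm]; ring⟩
  have hlt : m < r := by
    rw [hm]
    have := hp.two_le
    nlinarith
  obtain ⟨u, hu1, hu2⟩ := CM_ex r ψ hψ m hmr hlt
  have hψu : ψ (u : ZMod r) = -1 := (CM_val r ψ h2 _ u.isUnit).resolve_left hu2
  have hux : (u : ZMod r) * (x : ZMod r) = x := by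
    have h1 : ((u : ZMod r).cast : ZMod m) = 1 := by
      have := congrArg (fun z : (ZMod m)ˣ => (z : ZMod m)) hu1
      simpa [ZMod.unitsMap_def] using this
    rw [ZMod.cast_eq_val] at h1
    have h3 : (((u : ZMod r).val : ℤ) : ZMod m) = ((1 : ℤ) : ZMod m) := by
      push_cast
      exact h1
    rw [ZMod.intCast_eq_intCast_iff_dvd_sub] at h3
    obtain ⟨j, hj⟩ := h3
    have h4 : ((u : ZMod r).val : ℤ) = 1 + (-j) * m := by linarith
    have h5 : (((u : ZMod r).val : ℤ) : ZMod r) = ((1 + (-j) * m : ℤ) : ZMod r) := by rw [h4]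
    have h6 : (u : ZMod r) = ((1 + (-j) * m : ℤ) : ZMod r) := by
      rw [← h5]
      simp
    have hrz : ((p * m : ℕ) : ZMod r) = 0 := by
      rw [← hm]
      exact ZMod.natCast_self r
    push_cast at hrz
    rw [h6, hx']
    push_cast
    calc (1 + -(j : ZMod r) * (m : ZMod r)) * ((p : ZMod r) * (x' : ZMod r))
        = (p : ZMod r) * x' - j * x' * ((p : ZMod r) * (m : ZMod r)) := by ring
      _ = (p : ZMod r) * x' := by rw [hrz, mul_zero, sub_zero]
  have e1 := CM_compat r x (fun _ => True)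
  have e2 := CM_compat r x (fun y => ψ ((x : ZMod r) + y) = -1)
  have e3 := CM_compat r x (fun y => ψ ((x : ZMod r) + y) = 1)
  have e0 : (compat r x).filter (fun _ => True) = compat r x := by
    ext y
    simp
  have hsplit : (compat r x).card = ((compat r x).filter (fun y : ℕ =>
      ψ ((x : ZMod r) + (y : ZMod r)) = 1)).card + ((compat r x).filter (fun y : ℕ =>
      ψ ((x : ZMod r) + (y : ZMod r)) = -1)).card := by
    rw [← card_union_of_disjoint]
    · congr 1
      ext y
      rw [mem_union, mem_filter, mem_filter]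
      constructor
      · intro hy
        have hy' := hy
        rw [compat, mem_filter] at hy'
        have hun : IsUnit ((x : ZMod r) + (y : ZMod r)) := by
          have := ZMod.coe_int_isUnit_iff_isCoprime ((x : ℤ) + y) r
          push_cast at this
          rw [this]
          exact hy'.2.1.symm
        rcases CM_val r ψ h2 _ hun with h | h
        · exact Or.inl ⟨hy, h⟩
        · exact Or.inr ⟨hy, h⟩
      · rintro (h | h)
        · exact h.1
        · exact h.1
    · rw [Finset.disjoint_filter]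
      intro y _ h1 h2'
      rw [h1] at h2'
      norm_num at h2'
  have hle : ((compat r x).filter (fun y : ℕ => ψ ((x : ZMod r) + (y : ZMod r)) = 1)).card ≤
      ((compat r x).filter (fun y : ℕ => ψ ((x : ZMod r) + (y : ZMod r)) = -1)).card := by
    rw [e3, e2]
    refine card_le_card_of_injOn (fun y => (u : ZMod r) * y) ?_ ?_
    · intro y hy
      rw [mem_coe, mem_filter] at hy
      rw [mem_coe, mem_filter]
      obtain ⟨_, ⟨h3, h4⟩, h5⟩ := hy
      have f1 : (x : ZMod r) + (u : ZMod r) * y = u * ((x : ZMod r) + y) := by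
        rw [mul_add, hux]
      have f2 : (x : ZMod r) - (u : ZMod r) * y = u * ((x : ZMod r) - y) := by
        rw [mul_sub, hux]
      refine ⟨mem_univ _, ⟨?_, ?_⟩, ?_⟩
      · rw [f1]
        exact u.isUnit.mul h3
      · rw [f2]
        exact u.isUnit.mul h4
      · rw [f1, map_mul, hψu, h5, mul_one]
    · intro a _ b _ hab
      exact u.isUnit.mul_left_cancel hab
  have h7 : (compat r x).card ≤ 2 * ((compat r x).filter (fun y : ℕ =>
      ψ ((x : ZMod r) + (y : ZMod r)) = -1)).card := by omega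
  have h8 : ((compat r x).card : ℝ) ≤ 2 * (((compat r x).filter (fun y : ℕ =>
      ψ ((x : ZMod r) + (y : ZMod r)) = -1)).card : ℝ) := by exact_mod_cast h7
  linarith

/-- The product of the primes `≥ 7` dividing `r`. -/
noncomputable def rad7 (r : ℕ) : ℕ :=
  ∏ p ∈ r.primeFactors.filter (fun p => 7 ≤ p), p

theorem hm_rad7_pos (r : ℕ) : 0 < rad7 r := by
  unfold rad7
  refine prod_pos fun p hp => ?_
  rw [mem_filter] at hp
  exact (Nat.prime_of_mem_primeFactors hp.1).pos

theorem hm_dvd_rad7 {r p : ℕ} (hr : r ≠ 0) (hp : p.Prime) (h7 : 7 ≤ p) (hpr : p ∣ r) :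
    p ∣ rad7 r := by
  unfold rad7
  refine dvd_prod_of_mem (fun p => p) ?_
  rw [mem_filter]
  exact ⟨hp.mem_primeFactors hpr hr, h7⟩

/-- For a primitive real character modulo `r`: `r ≤ 120 rad7 r` (`sq_not_dvd`, `sixteen_not_dvd` in
`H18E/CO`: `r = 2^a 3^b 5^c rad7`, `a ≤ 3`, `b, c ≤ 1`). -/
theorem rad7_ge (r : ℕ) [NeZero r] (ψ : DirichletCharacter ℂ r) (hψ : ψ.IsPrimitive)
    (h2 : ψ ^ 2 = 1) : r ≤ 120 * rad7 r := by
  have hr0 : r ≠ 0 := NeZero.ne r
  refine Nat.le_of_dvd (Nat.mul_pos (by norm_num) (hm_rad7_pos r)) ?_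
  rw [Nat.dvd_iff_prime_pow_dvd_dvd]
  intro p k hp hk
  rcases Nat.eq_zero_or_pos k with rfl | hk0
  · simp
  have hpr : p ∣ r := (dvd_pow_self p hk0.ne').trans hk
  have hsq : p ≠ 2 → k = 1 := by
    intro hne
    by_contra hk1
    exact sq_not_dvd r ψ hψ h2 p hp hne ((pow_dvd_pow p (by omega)).trans hk)
  rcases Nat.lt_or_ge p 7 with hp7 | hp7
  · apply Dvd.dvd.mul_right
    have hp2 := hp.two_le
    interval_cases p
    · have hk3 : k ≤ 3 := by
        by_contra h
        have h16 : (16 : ℕ) ∣ 2 ^ k := by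
          have : (2 : ℕ) ^ 4 ∣ 2 ^ k := pow_dvd_pow 2 (by omega)
          simpa using this
        exact sixteen_not_dvd r ψ hψ h2 (h16.trans hk)
      exact (pow_dvd_pow 2 hk3).trans (by norm_num)
    · rw [hsq (by norm_num)]; norm_num
    · exact absurd hp (by norm_num)
    · rw [hsq (by norm_num)]; norm_num
    · exact absurd hp (by norm_num)
  · rw [hsq (by omega), pow_one]
    exact (hm_dvd_rad7 hr0 hp hp7 hpr).mul_left _

/-- `x` is a multiple of `rad7 r`, or some prime `p ≥ 7` divides `r` and not `x`. If `r > 120` then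
`rad7 r ≥ 7` (`cond_big`). -/
theorem rad7_dvd (r x : ℕ) : rad7 r ∣ x ∨ ∃ p : ℕ, p.Prime ∧ 7 ≤ p ∧ p ∣ r ∧ ¬ p ∣ x := by
  by_cases h : ∀ p ∈ r.primeFactors.filter (fun p => 7 ≤ p), p ∣ x
  · left
    unfold rad7
    refine Finset.prod_primes_dvd x (fun p hp => ?_) h
    rw [mem_filter] at hp
    exact (Nat.prime_of_mem_primeFactors hp.1).prime
  · right
    push Not at h
    obtain ⟨p, hp, hpx⟩ := h
    rw [mem_filter] at hp
    exact ⟨p, Nat.prime_of_mem_primeFactors hp.1, hp.2, Nat.dvd_of_mem_primeFactors hp.1, hpx⟩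

theorem rad7_seven (r : ℕ) [NeZero r] (ψ : DirichletCharacter ℂ r) (hψ : ψ.IsPrimitive)
    (h2 : ψ ^ 2 = 1) (hr : 120 < r) : 7 ≤ rad7 r := by
  obtain ⟨p, hp, h7, hpr⟩ := cond_big r ψ hψ h2 hr
  exact h7.trans (Nat.le_of_dvd (hm_rad7_pos r) (hm_dvd_rad7 (NeZero.ne r) hp h7 hpr))

end Pool.Agent.Lib.H18Q
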