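import Pool.Agent.Lib.H18Q.MB
import Pool.Agent.Lib.H18E.XC

/-!
# Project H18Q, chunk MC: the main term at an exceptional level
-/

open Finset

namespace Pool.Agent.Lib.H18Q

open Pool.Agent.Lib.H68T Pool.Agent.Lib.H18E


theorem mc_split (H r : ℕ) (hr : 0 < r) (F : ℕ → ℝ) :
    ∑ c ∈ range H, F c =
      ∑ c0 ∈ range r, ∑ c ∈ range ((H + r - 1 - c0) / r), F (c0 + r * c) := by
  rw [← Finset.sum_fiberwise_of_maps_to (s := range H) (t := range r) (g := fun c => c % r)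
    (fun c _ => mem_range.2 (Nat.mod_lt _ hr))]
  refine sum_congr rfl fun c0 hc0 => ?_
  have hc0' := mem_range.1 hc0
  refine Finset.sum_nbij' (fun c => c / r) (fun c => c0 + r * c) ?_ ?_ ?_ ?_ ?_
  · intro c hc
    rw [mem_filter, mem_range] at hc
    rw [mem_range]
    have h1 := Nat.mod_add_div c r
    have h2 : c / r + 1 ≤ (H + r - 1 - c0) / r := by
      rw [Nat.le_div_iff_mul_le hr]
      have h3 : (c / r + 1) * r = r * (c / r) + r := by ring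
      rw [h3]
      omega
    omega
  · intro c hc
    rw [mem_range] at hc
    rw [mem_filter, mem_range]
    have h2 : c + 1 ≤ (H + r - 1 - c0) / r := hc
    rw [Nat.le_div_iff_mul_le hr] at h2
    have h3 : (c + 1) * r = r * c + r := by ring
    rw [h3] at h2
    refine ⟨by omega, ?_⟩
    rw [Nat.add_mul_mod_self_left, Nat.mod_eq_of_lt hc0']
  · intro c hc
    rw [mem_filter, mem_range] at hc
    have h1 := Nat.mod_add_div c r
    omega
  · intro c _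
    rw [Nat.add_mul_div_left _ _ hr, Nat.div_eq_of_lt hc0', zero_add]
  · intro c hc
    rw [mem_filter, mem_range] at hc
    have h1 := Nat.mod_add_div c r
    congr 1
    omega

theorem mc_shift (r j : ℕ) (hr : 0 < r) (f : ℕ → ℝ) :
    ∑ c0 ∈ range r, f ((j + c0) % r) = ∑ y ∈ range r, f y := by
  have hinj : Set.InjOn (fun c0 => (j + c0) % r) (range r : Set ℕ) := by
    intro a ha b hb hab
    simp only [coe_range, Set.mem_Iio] at ha hb
    have h1 : (j + a) ≡ (j + b) [MOD r] := hab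
    have h2 : a ≡ b [MOD r] := Nat.ModEq.add_left_cancel' j h1
    exact Nat.ModEq.eq_of_lt_of_lt h2 ha hb
  have himg : (range r).image (fun c0 => (j + c0) % r) = range r := by
    apply Finset.eq_of_subset_of_card_le
    · intro y hy
      obtain ⟨a, _, rfl⟩ := mem_image.1 hy
      exact mem_range.2 (Nat.mod_lt _ hr)
    · rw [card_image_of_injOn hinj]
  conv_rhs => rw [← himg]
  rw [sum_image hinj]

theorem mc_geo {n x j c : ℕ} {σ : Bool} (hn : 64 ≤ n) (hx : x ∈ Icc 1 n)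
    (hσ : σ = true ↔ 2 * x ≤ n) (hj : j ∈ xcJ σ n 1 (n / 32)) (hc : c < n / 32) :
    n ≤ 4 * (x + (j + c)) ∧ x + (j + c) ≤ 2 * n ∧
    (σ = true → n + 4 * x ≤ 4 * (j + c)) ∧ (σ = false → n + 4 * (j + c) ≤ 4 * x) ∧
    j + c ≤ n := by
  rw [mem_Icc] at hx
  unfold xcJ at hj
  cases σ with
  | true =>
    have h2 : 2 * x ≤ n := hσ.mp rfl
    simp only [if_true, mem_Ico, mul_one] at hj
    refine ⟨?_, ?_, fun _ => ?_, fun h => by simp at h, ?_⟩ <;> omega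
  | false =>
    have h2 : ¬ 2 * x ≤ n := fun h => by simpa using hσ.mpr h
    simp only [Bool.false_eq_true, if_false, mem_Ico] at hj
    refine ⟨?_, ?_, fun h => by simp at h, fun _ => ?_, ?_⟩ <;> omega

/-- The summand in terms of `y = j + c`. -/
noncomputable def mc_F (n Q r : ℕ) (ψ : DirichletCharacter ℂ r) (β : ℝ) (x y : ℕ) : ℝ :=
  MM Q r (ψ ((x : ZMod r) + y)).re β ((x : ℤ) + y) *
    MM Q r (ψ (if 2 * x ≤ n then (y : ZMod r) - x else (x : ZMod r) - y)).re β ((y : ℤ) - x)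

theorem mc_term {n Q r : ℕ} (ψ : DirichletCharacter ℂ r) (β : ℝ) {x j c : ℕ} {σ : Bool}
    (hn : 64 ≤ n) (hx : x ∈ Icc 1 n)
    (hσ : σ = true ↔ 2 * x ≤ n) (hj : j ∈ xcJ σ n 1 (n / 32)) (hc : c < n / 32) :
    Mod Q r (ψ ((xcs 1 0 x j + c : ℕ) : ZMod r)).re β
        ((xcs 1 0 x j + c : ℕ) : ℤ) *
      Mod Q r (ψ ((ix (n / 32) σ (xct σ (n / 32) 1 0 x j) c : ℕ) : ZMod r)).re β
        ((ix (n / 32) σ (xct σ (n / 32) 1 0 x j) c : ℕ) : ℤ) = mc_F n Q r ψ β x (j + c) := by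
  obtain ⟨g1, g2, g3, g4, g5⟩ := mc_geo hn hx hσ hj hc
  have hs : xcs 1 0 x j + c = x + (j + c) := by
    unfold xcs
    simp
    ring
  have hpos : (0 : ℤ) < ((x + (j + c) : ℕ) : ℤ) := by
    have : 0 < x + (j + c) := by omega
    exact_mod_cast this
  rw [hs, ← cp_MM_pos Q r _ β _ hpos]
  unfold mc_F
  have e1 : (((x + (j + c) : ℕ) : ZMod r)) = (x : ZMod r) + ((j + c : ℕ) : ZMod r) := by
    push_cast; ring
  have e2 : (((x + (j + c) : ℕ) : ℤ)) = (x : ℤ) + ((j + c : ℕ) : ℤ) := by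
    push_cast; ring
  rw [e1, e2]
  congr 1
  unfold xcJ at hj
  rw [mem_Icc] at hx
  cases σ with
  | true =>
    have h2 : 2 * x ≤ n := hσ.mp rfl
    have g := g3 rfl
    simp only [if_true, mem_Ico, mul_one] at hj
    have ht : xct true (n / 32) 1 0 x j = j - x := by
      unfold xct xcD
      simp only [if_true, Nat.cast_zero, zero_sub, Nat.cast_one, Int.ediv_one]
      omega
    have hix : ix (n / 32) true (xct true (n / 32) 1 0 x j) c = j + c - x := by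
      rw [ht]
      simp only [ix, cond_true]
      omega
    have h3 : x ≤ j + c := by omega
    rw [hix, if_pos h2]
    have hpos2 : (0 : ℤ) < ((j + c - x : ℕ) : ℤ) := by
      have : 0 < j + c - x := by omega
      exact_mod_cast this
    rw [← cp_MM_pos Q r _ β _ hpos2, Nat.cast_sub h3, Nat.cast_sub h3]
  | false =>
    have h2 : ¬ 2 * x ≤ n := fun h => by simpa using hσ.mpr h
    have g := g4 rfl
    simp only [Bool.false_eq_true, if_false, mem_Ico] at hj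
    have ht : xct false (n / 32) 1 0 x j = x - j - (n / 32 - 1) := by
      unfold xct xcD
      simp only [Bool.false_eq_true, if_false, Nat.cast_zero, sub_zero, Nat.cast_one, Int.ediv_one]
      omega
    have hix : ix (n / 32) false (xct false (n / 32) 1 0 x j) c = x - (j + c) := by
      rw [ht]
      simp only [ix, cond_false]
      omega
    have h3 : j + c ≤ x := by omega
    rw [hix, if_neg h2]
    have hpos2 : (0 : ℤ) < ((x - (j + c) : ℕ) : ℤ) := by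
      have : 0 < x - (j + c) := by omega
      exact_mod_cast this
    rw [← cp_MM_pos Q r _ β _ hpos2, Nat.cast_sub h3, Nat.cast_sub h3,
      ← cp_MM_neg Q r _ β ((x : ℤ) - ((j + c : ℕ) : ℤ)), neg_sub]

theorem mc_re_le (r : ℕ) (ψ : DirichletCharacter ℂ r) (a : ZMod r) : |(ψ a).re| ≤ 1 :=
  (Complex.abs_re_le_norm _).trans (DirichletCharacter.norm_le_one ψ a)

theorem mc_re_zero (r : ℕ) (ψ : DirichletCharacter ℂ r) (z : ℤ) (h : ¬ IsCoprime z (r : ℤ)) :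
    (ψ (z : ZMod r)).re = 0 := by
  have h1 : ¬ IsUnit (z : ZMod r) := by
    rw [ZMod.coe_int_isUnit_iff_isCoprime]
    exact fun h' => h h'.symm
  rw [ψ.map_nonunit h1, Complex.zero_re]

/-- One class. -/
theorem mc_class {C1 C2 : ℝ} (hC1 : 1 ≤ C1) (hC2 : 1 ≤ C2)
    (hlow : ∀ (Q H W r : ℕ) (x y : ℤ) (β ε ε' : ℝ), 0 < W →
    W ^ 100 ≤ Q → 8 ≤ Q → r ∣ W → IsCoprime x (W : ℤ) → IsCoprime y (W : ℤ) → 1 ≤ x →
    (1 ≤ y ∨ y + W * H ≤ 0) → x ≠ y → (2 ∣ W ∨ (2 : ℤ) ∣ x - y) → 1 / 2 ≤ β → β ≤ 1 →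
    |ε| ≤ 1 → |ε'| ≤ 1 →
    ((W : ℝ) / Nat.totient W) ^ 2 *
        ((∑ c ∈ range H, (1 - ε * |((x + W * (c : ℕ) : ℤ) : ℝ)| ^ (β - 1)) *
            (1 - ε' * |((y + W * (c : ℕ) : ℤ) : ℝ)| ^ (β - 1))) * (1 / 2 * Gp W (x - y)) -
          C1 * H * (Q : ℝ) ^ (-(1 / 4) : ℝ) * Rk (x - y)) - (Q : ℝ) ^ 9 ≤
      ∑ c ∈ range H, MM Q r ε β (x + W * (c : ℕ)) * MM Q r ε' β (y + W * (c : ℕ)))
    (hnon : ∀ (Q N r : ℕ) (x y : ℤ) (β ε ε' : ℝ), 0 < r →
    r ^ 100 ≤ Q → 8 ≤ Q → ¬ (IsCoprime x (r : ℤ) ∧ IsCoprime y (r : ℤ)) →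
    (¬ IsCoprime x (r : ℤ) → ε = 0) → (¬ IsCoprime y (r : ℤ) → ε' = 0) →
    (1 ≤ x ∨ x + r * N ≤ 0) → (1 ≤ y ∨ y + r * N ≤ 0) → x ≠ y → 1 / 2 ≤ β → β ≤ 1 →
    |ε| ≤ 1 → |ε'| ≤ 1 →
    |∑ c ∈ range N, MM Q r ε β (x + r * (c : ℕ)) * MM Q r ε' β (y + r * (c : ℕ))| ≤
      C2 * (r : ℝ) ^ 3 * N * (Q : ℝ) ^ (-(1 / 4) : ℝ) * Rk (x - y) + (Q : ℝ) ^ 9)
    {n Q r : ℕ} (ψ : DirichletCharacter ℂ r) {β : ℝ} {x : ℕ} {σ : Bool} {j : ℕ} {κ : ℕ → ℝ}
    (hr : 0 < r) (hrQ : r ^ 100 ≤ Q) (hQ : 8 ≤ Q) (hn : 64 ≤ n) (hrn : r ≤ n / 32)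
    (hβ : 1 / 2 ≤ β) (hβ1 : β ≤ 1) (hx : x ∈ Icc 1 n) (hσ : σ = true ↔ 2 * x ≤ n)
    (hj : j ∈ xcJ σ n 1 (n / 32)) (hκ : ∀ y0, 0 ≤ κ y0)
    (hκ1 : ∀ y0 ∈ compat r x, ∀ m m' : ℝ, n / 4 ≤ m → n / 4 ≤ m' → m ≤ 2 * n → m' ≤ 2 * n →
      κ y0 ≤ (1 - (ψ ((x : ZMod r) + y0)).re * m ^ (β - 1)) *
        (1 - (ψ (if 2 * x ≤ n then (y0 : ZMod r) - x else (x : ZMod r) - y0)).re *
          m' ^ (β - 1)))
    {c0 : ℕ} (hc0 : c0 < r) :
    (if (j + c0) % r ∈ compat r x then (n / 32 : ℕ) / (4 * r) * ((r : ℝ) / Nat.totient r) ^ 2 *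
        Gp r (2 * (x : ℤ)) * κ ((j + c0) % r) else 0) -
      (C1 + C2) * (r : ℝ) ^ 3 * (n / 32 : ℕ) * (Q : ℝ) ^ (-(1 / 4) : ℝ) * Rk (2 * (x : ℤ)) -
      (Q : ℝ) ^ 9 ≤
    ∑ c ∈ range ((n / 32 + r - 1 - c0) / r), mc_F n Q r ψ β x (j + (c0 + r * c)) := by
  set H := n / 32 with hH
  set N := (H + r - 1 - c0) / r with hN
  set y0 := (j + c0) % r with hy0
  have hy0r : y0 < r := Nat.mod_lt _ hr
  set X0 : ℤ := (x : ℤ) + (j + c0 : ℕ) with hX0
  set Y0 : ℤ := ((j + c0 : ℕ) : ℤ) - x with hY0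
  set ε : ℝ := (ψ ((x : ZMod r) + y0)).re with hε
  set ε' : ℝ := (ψ (if 2 * x ≤ n then (y0 : ZMod r) - x else (x : ZMod r) - y0)).re with hε'
  set q4 := (Q : ℝ) ^ (-(1 / 4) : ℝ) with hq4
  have hx' := mem_Icc.1 hx
  have hr1 : (1 : ℝ) ≤ r := by exact_mod_cast hr
  have hcast : ∀ c : ℕ, (((j + (c0 + r * c) : ℕ)) : ZMod r) = (y0 : ZMod r) := by
    intro c
    have h1 : j + (c0 + r * c) ≡ y0 [MOD r] := by
      rw [hy0]
      have h2 : j + (c0 + r * c) = (j + c0) + r * c := by ring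
      rw [h2]
      unfold Nat.ModEq
      rw [Nat.add_mul_mod_self_left, Nat.mod_mod]
    exact (ZMod.natCast_eq_natCast_iff _ _ _).2 h1
  -- terms
  have hF : ∀ c : ℕ, mc_F n Q r ψ β x (j + (c0 + r * c)) =
      MM Q r ε β (X0 + r * (c : ℕ)) * MM Q r ε' β (Y0 + r * (c : ℕ)) := by
    intro c
    unfold mc_F
    rw [hcast c, ← hε, ← hε']
    have e1 : (x : ℤ) + ((j + (c0 + r * c) : ℕ) : ℤ) = X0 + r * (c : ℕ) := by
      rw [hX0]; push_cast; ring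
    have e2 : ((j + (c0 + r * c) : ℕ) : ℤ) - x = Y0 + r * (c : ℕ) := by
      rw [hY0]; push_cast; ring
    rw [e1, e2]
  rw [sum_congr rfl fun c _ => hF c]
  -- the number of terms
  have hNlt : ∀ c, c < N → c0 + r * c < H := by
    intro c hc
    have h2 : c + 1 ≤ (H + r - 1 - c0) / r := hc
    rw [Nat.le_div_iff_mul_le hr] at h2
    have h3 : (c + 1) * r = r * c + r := by ring
    rw [h3] at h2
    omega
  have hNH : N ≤ H := by
    rw [hN]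
    calc (H + r - 1 - c0) / r ≤ (r * H) / r := by
          apply Nat.div_le_div_right
          have : H + r ≤ r * H + 1 := by nlinarith
          omega
      _ = H := Nat.mul_div_cancel_left _ hr
  have hNr : r * N ≤ H + r - 1 - c0 := Nat.mul_div_le _ _
  have hN1 : H < r * N + r := by
    have h1 : H + r - 1 - c0 < r * N + r := by
      have := Nat.lt_mul_div_succ (H + r - 1 - c0) hr
      rw [← hN] at this
      rw [mul_add, mul_one] at this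
      exact this
    have h2 : H / r ≤ N := by
      rw [hN]
      apply Nat.div_le_div_right
      omega
    have h3 := Nat.lt_mul_div_succ H hr
    rw [mul_add, mul_one] at h3
    have h4 : r * (H / r) ≤ r * N := Nat.mul_le_mul_left _ h2
    omega
  have hN0 : 1 ≤ N := by
    rw [hN, Nat.le_div_iff_mul_le hr]
    omega
  have hHN : (H : ℝ) ≤ 2 * r * N := by
    have h1 : H ≤ 2 * r * N := by
      have : r ≤ r * N := Nat.le_mul_of_pos_right _ hN0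
      nlinarith
    exact_mod_cast h1
  -- geometry
  have hH0 : 0 < H := by omega
  have geo : ∀ c, c < N → n ≤ 4 * (x + (j + (c0 + r * c))) ∧ x + (j + (c0 + r * c)) ≤ 2 * n ∧
      (σ = true → n + 4 * x ≤ 4 * (j + (c0 + r * c))) ∧
      (σ = false → n + 4 * (j + (c0 + r * c)) ≤ 4 * x) ∧ j + (c0 + r * c) ≤ n := fun c hc =>
    mc_geo hn hx hσ hj (hNlt c hc)
  have geo0 := geo 0 (by omega)
  rw [mul_zero, add_zero] at geo0
  have hXY : X0 - Y0 = 2 * (x : ℤ) := by rw [hX0, hY0]; ring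
  have hXYne : X0 ≠ Y0 := by
    intro h
    rw [h] at hXY
    omega
  have hX1 : 1 ≤ X0 := by
    rw [hX0]
    have := geo0.1
    omega
  have hY1 : 1 ≤ Y0 ∨ Y0 + r * N ≤ 0 := by
    cases σ with
    | true =>
      left
      have := geo0.2.2.1 rfl
      rw [hY0]
      omega
    | false =>
      right
      have h2 : ¬ 2 * x ≤ n := fun h => by simpa using hσ.mpr h
      unfold xcJ at hj
      simp only [Bool.false_eq_true, if_false, mem_Ico] at hj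
      have h3 : j + c0 + r * N ≤ x := by omega
      rw [hY0]
      have h4 : ((j + c0 + r * N : ℕ) : ℤ) ≤ (x : ℤ) := by exact_mod_cast h3
      push_cast at h4 ⊢
      linarith
  have hdecomp : ((j + c0 : ℕ) : ℤ) = (y0 : ℤ) + r * (((j + c0) / r : ℕ) : ℤ) := by
    have := Nat.mod_add_div (j + c0) r
    rw [← hy0] at this
    exact_mod_cast this.symm
  have hXc : IsCoprime X0 (r : ℤ) ↔ IsCoprime ((x : ℤ) + y0) (r : ℤ) := by
    rw [hX0, hdecomp, ← add_assoc]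
    exact IsCoprime.add_mul_left_left_iff
  have hYc : IsCoprime Y0 (r : ℤ) ↔ IsCoprime ((x : ℤ) - y0) (r : ℤ) := by
    have h1 : Y0 = -((x : ℤ) - y0) + r * (((j + c0) / r : ℕ) : ℤ) := by
      rw [hY0, hdecomp]; ring
    rw [h1, IsCoprime.add_mul_left_left_iff, IsCoprime.neg_left_iff]
  have hεle : |ε| ≤ 1 := mc_re_le r ψ _
  have hεle' : |ε'| ≤ 1 := mc_re_le r ψ _
  have hε0 : ¬ IsCoprime X0 (r : ℤ) → ε = 0 := by
    intro h
    rw [hXc] at h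
    have h1 := mc_re_zero r ψ ((x : ℤ) + y0) h
    rw [hε, ← h1]
    push_cast
    rfl
  have hε0' : ¬ IsCoprime Y0 (r : ℤ) → ε' = 0 := by
    intro h
    rw [hYc] at h
    rw [hε']
    split_ifs with h2
    · have h3 : ¬ IsCoprime ((y0 : ℤ) - x) (r : ℤ) := by
        rw [← neg_sub (x : ℤ) (y0 : ℤ), IsCoprime.neg_left_iff]
        exact h
      have h1 := mc_re_zero r ψ ((y0 : ℤ) - x) h3
      rw [← h1]
      push_cast
      rfl
    · have h1 := mc_re_zero r ψ ((x : ℤ) - y0) h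
      rw [← h1]
      push_cast
      rfl
  have hRk : 1 ≤ Rk (2 * (x : ℤ)) := one_le_Rk _
  have hGp : 1 ≤ Gp r (2 * (x : ℤ)) := one_le_Gp _ _
  have hq40 : 0 ≤ q4 := by positivity
  have hNHR : (N : ℝ) ≤ H := by exact_mod_cast hNH
  have hφ : (1 : ℝ) ≤ Nat.totient r := by exact_mod_cast Nat.totient_pos.mpr hr
  set D : ℝ := (r : ℝ) / Nat.totient r with hD
  have hD0 : 0 ≤ D := by positivity
  have hDr : D ≤ r := div_le_self (by linarith) hφ
  by_cases hcomp : IsCoprime X0 (r : ℤ) ∧ IsCoprime Y0 (r : ℤ)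
  · have hmem : y0 ∈ compat r x := by
      unfold compat
      rw [mem_filter, mem_range]
      exact ⟨hy0r, hXc.1 hcomp.1, hYc.1 hcomp.2⟩
    rw [if_pos hmem]
    have h1 := hlow Q N r r X0 Y0 β ε ε' hr hrQ hQ dvd_rfl hcomp.1 hcomp.2 hX1 hY1 hXYne
      (Or.inr (by rw [hXY]; exact Dvd.intro _ rfl)) hβ hβ1 hεle hεle'
    rw [hXY, ← hq4, ← hD] at h1
    set Sg : ℝ := ∑ c ∈ range N, (1 - ε * |((X0 + r * (c : ℕ) : ℤ) : ℝ)| ^ (β - 1)) *
      (1 - ε' * |((Y0 + r * (c : ℕ) : ℤ) : ℝ)| ^ (β - 1)) with hSg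
    have hSgκ : N * κ y0 ≤ Sg := by
      have h2 : (N : ℝ) * κ y0 = ∑ _c ∈ range N, κ y0 := by
        rw [sum_const, card_range, nsmul_eq_mul]
      rw [h2, hSg]
      apply sum_le_sum
      intro c hc
      have g := geo c (mem_range.1 hc)
      have e1 : X0 + r * (c : ℕ) = ((x + (j + (c0 + r * c)) : ℕ) : ℤ) := by
        rw [hX0]; push_cast; ring
      have e2 : Y0 + r * (c : ℕ) = ((j + (c0 + r * c) : ℕ) : ℤ) - x := by
        rw [hY0]; push_cast; ring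
      have g1 : (n : ℝ) ≤ 4 * ((x + (j + (c0 + r * c)) : ℕ) : ℝ) := by exact_mod_cast g.1
      have g2 : ((x + (j + (c0 + r * c)) : ℕ) : ℝ) ≤ 2 * n := by exact_mod_cast g.2.1
      have hxn : (x : ℝ) ≤ n := by exact_mod_cast hx'.2
      have hx0 : (0 : ℝ) ≤ x := Nat.cast_nonneg _
      have hj0 : (0 : ℝ) ≤ ((j + (c0 + r * c) : ℕ) : ℝ) := Nat.cast_nonneg _
      have g5 : ((j + (c0 + r * c) : ℕ) : ℝ) ≤ n := by exact_mod_cast g.2.2.2.2
      have habs : (n : ℝ) / 4 ≤ |((((j + (c0 + r * c) : ℕ) : ℤ) - x : ℤ) : ℝ)| := by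
        have h5 : ((((j + (c0 + r * c) : ℕ) : ℤ) - x : ℤ) : ℝ) =
          ((j + (c0 + r * c) : ℕ) : ℝ) - x := by push_cast; ring
        rw [h5]
        cases σ with
        | true =>
          have h6 : (n : ℝ) + 4 * x ≤ 4 * ((j + (c0 + r * c) : ℕ) : ℝ) := by
            exact_mod_cast g.2.2.1 rfl
          exact le_trans (by linarith) (le_abs_self _)
        | false =>
          have h6 : (n : ℝ) + 4 * ((j + (c0 + r * c) : ℕ) : ℝ) ≤ 4 * x := by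
            exact_mod_cast g.2.2.2.1 rfl
          exact le_trans (by linarith) (neg_le_abs _)
      have habs2 : |((((j + (c0 + r * c) : ℕ) : ℤ) - x : ℤ) : ℝ)| ≤ 2 * n := by
        have h5 : ((((j + (c0 + r * c) : ℕ) : ℤ) - x : ℤ) : ℝ) =
          ((j + (c0 + r * c) : ℕ) : ℝ) - x := by push_cast; ring
        rw [h5, abs_le]
        constructor <;> linarith
      have h3 := hκ1 y0 hmem |((X0 + r * (c : ℕ) : ℤ) : ℝ)| |((Y0 + r * (c : ℕ) : ℤ) : ℝ)|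
        (by rw [e1, Int.cast_natCast, abs_of_nonneg (Nat.cast_nonneg _)]; linarith)
        (by rw [e2]; exact habs)
        (by rw [e1, Int.cast_natCast, abs_of_nonneg (Nat.cast_nonneg _)]; exact g2)
        (by rw [e2]; exact habs2)
      exact h3
    have hκ0 := hκ y0
    have hmain : (H : ℝ) / (4 * r) * D ^ 2 * Gp r (2 * (x : ℤ)) * κ y0 ≤
        D ^ 2 * (Sg * (1 / 2 * Gp r (2 * (x : ℤ)))) := by
      have h4 : (H : ℝ) / (4 * r) ≤ N / 2 := by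
        rw [div_le_div_iff₀ (by positivity) (by norm_num)]
        linarith
      calc (H : ℝ) / (4 * r) * D ^ 2 * Gp r (2 * (x : ℤ)) * κ y0
          ≤ N / 2 * D ^ 2 * Gp r (2 * (x : ℤ)) * κ y0 := by gcongr
        _ = D ^ 2 * ((N * κ y0) * (1 / 2 * Gp r (2 * (x : ℤ)))) := by ring
        _ ≤ _ := by gcongr
    have herr : D ^ 2 * (C1 * N * q4 * Rk (2 * (x : ℤ))) ≤
        (C1 + C2) * (r : ℝ) ^ 3 * H * q4 * Rk (2 * (x : ℤ)) := by
      have h5 : D ^ 2 ≤ (r : ℝ) ^ 3 :=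
        (pow_le_pow_left₀ hD0 hDr 2).trans (pow_le_pow_right₀ hr1 (by norm_num))
      calc D ^ 2 * (C1 * N * q4 * Rk (2 * (x : ℤ)))
          ≤ (r : ℝ) ^ 3 * ((C1 + C2) * H * q4 * Rk (2 * (x : ℤ))) := by
            gcongr
            linarith
        _ = _ := by ring
    have h6 : D ^ 2 * (Sg * (1 / 2 * Gp r (2 * (x : ℤ))) - C1 * N * q4 * Rk (2 * (x : ℤ))) =
      D ^ 2 * (Sg * (1 / 2 * Gp r (2 * (x : ℤ)))) -
        D ^ 2 * (C1 * N * q4 * Rk (2 * (x : ℤ))) := by ring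
    rw [h6] at h1
    linarith
  · have hmem : y0 ∉ compat r x := by
      intro h
      unfold compat at h
      rw [mem_filter] at h
      exact hcomp ⟨hXc.2 h.2.1, hYc.2 h.2.2⟩
    rw [if_neg hmem]
    have h1 := hnon Q N r X0 Y0 β ε ε' hr hrQ hQ hcomp hε0 hε0' (Or.inl hX1) hY1 hXYne hβ hβ1
      hεle hεle'
    rw [hXY, ← hq4] at h1
    have h2 := (abs_le.mp h1).1
    have h3 : C2 * (r : ℝ) ^ 3 * N * q4 * Rk (2 * (x : ℤ)) ≤
        (C1 + C2) * (r : ℝ) ^ 3 * H * q4 * Rk (2 * (x : ℤ)) := by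
      gcongr
      linarith
    linarith

/-- **Main term at an exceptional level.** `x ∈ [1, n]`, `σ`, `j` as in chunk VA, `H = n/32`,
`s = xcs 1 0 x j = x + j`, `t = xct σ H 1 0 x j`; the numbers are `m_c = s + c = x + (j + c)` and
`m'_c = ix H σ t c = |x - (j + c)|`.

Proof. Let `χ(m) = (ψ m).re`. Both factors are `MM Q r (χ m) β m` (`cp_MM_pos`; `m_c, m'_c > 0`), and
`MM` is even in its last argument (`cp_MM_neg`): `m'_c = ± (j + c - x)` (`xc_geom`, `xc_diff` with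
`r = 1`, `y0 = 0`), so the sum is `∑_c MM Q r ε β (x + j + c) MM Q r ε' β (j + c - x)` with
`ε = χ(x + j + c)`, `ε' = χ(m'_c)`. Split by the class `y0 ∈ range r` of `j + c` modulo `r`: `c = c0 + r c'`,
`c0 < r`, `c' < N`, where `H/r - 1 ≤ N ≤ H/r + 1`; `ε = χ(x + y0)`, `ε' = χ(y0 - x)` or `χ(x - y0)`
(`2 x ≤ n` or not) are constant, and the arguments are `X0 + r c'`, `Y0 + r c'` with `X0 = x + j + c0 ≥ 1`,
`Y0 = j + c0 - x`, `Y0 ≥ 1` if `σ = true`; if `σ = false` then `Y0 + r c' ≤ -M` for `c' < N`, so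
`Y0 + r N ≤ -M + r ≤ 0` (`M = 3n/8 ≥ r`); `X0 - Y0 = 2 x`. If `y0 ∈ compat r x`: `X0, Y0` are coprime
to `r`, and `model_low` (`H18E/ML`, `W = r`) gives at least `(r/φ(r))² (κ(y0) N (1/2 Gp r (2x)) -
C N Q^(-1/4) Rk (2x)) - Q^9`. Else `noncompat` (`χ = 0` at non-units). Sum over `y0`: with `N ≥ H/(2r)`
(`H ≥ 4 r`) and `r` classes, `(r/φ(r))² ≤ r²`. -/
theorem main_exc : ∃ C : ℝ, 1 ≤ C ∧ ∀ (n Q r : ℕ) [NeZero r] (ψ : DirichletCharacter ℂ r)
    (β : ℝ) (x : ℕ) (σ : Bool) (j : ℕ) (κ : ℕ → ℝ), r ^ 100 ≤ Q → 8 ≤ Q → Q ^ 2 ≤ n →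
    1 / 2 ≤ β → β ≤ 1 → x ∈ Icc 1 n → (σ = true ↔ 2 * x ≤ n) → j ∈ xcJ σ n 1 (n / 32) →
    (∀ y0, 0 ≤ κ y0) →
    (∀ y0 ∈ compat r x, ∀ m m' : ℝ, n / 4 ≤ m → n / 4 ≤ m' → m ≤ 2 * n → m' ≤ 2 * n →
      κ y0 ≤ (1 - (ψ ((x : ZMod r) + y0)).re * m ^ (β - 1)) *
        (1 - (ψ (if 2 * x ≤ n then (y0 : ZMod r) - x else (x : ZMod r) - y0)).re *
          m' ^ (β - 1))) →
    (n / 32 : ℕ) / (4 * r) * ((r : ℝ) / Nat.totient r) ^ 2 * Gp r (2 * (x : ℤ)) *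
        (∑ y0 ∈ compat r x, κ y0) -
      C * (r : ℝ) ^ 4 * n * (Q : ℝ) ^ (-(1 / 4) : ℝ) * Rk (2 * (x : ℤ)) - (Q : ℝ) ^ 10 ≤
    ∑ c ∈ range (n / 32), Mod Q r (ψ ((xcs 1 0 x j + c : ℕ) : ZMod r)).re β
        ((xcs 1 0 x j + c : ℕ) : ℤ) *
      Mod Q r (ψ ((ix (n / 32) σ (xct σ (n / 32) 1 0 x j) c : ℕ) : ZMod r)).re β
        ((ix (n / 32) σ (xct σ (n / 32) 1 0 x j) c : ℕ) : ℤ) := by
  obtain ⟨C1, hC1, hlow⟩ := model_low
  obtain ⟨C2, hC2, hnon⟩ := noncompat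
  refine ⟨C1 + C2, by linarith, ?_⟩
  intro n Q r _ ψ β x σ j κ hrQ hQ hQn hβ hβ1 hx hσ hj hκ hκ1
  have hr : 0 < r := Nat.pos_of_ne_zero (NeZero.ne r)
  have hn : 64 ≤ n := by nlinarith
  have hrn : r ≤ n / 32 := by
    rw [Nat.le_div_iff_mul_le (by norm_num)]
    rcases Nat.lt_or_ge 1 r with h | h
    · have h1 : r ^ 6 ≤ r ^ 100 := Nat.pow_le_pow_right hr (by norm_num)
      have h2 : 2 ^ 5 ≤ r ^ 5 := Nat.pow_le_pow_left h 5
      have h3 : r * 32 ≤ r ^ 6 := by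
        calc r * 32 ≤ r * r ^ 5 := Nat.mul_le_mul_left _ (by simpa using h2)
          _ = r ^ 6 := by ring
      nlinarith
    · have : r = 1 := by omega
      rw [this]
      omega
  have hr1 : (1 : ℝ) ≤ r := by exact_mod_cast hr
  rw [sum_congr rfl fun c hc => mc_term (Q := Q) ψ β hn hx hσ hj (mem_range.1 hc),
    mc_split (n / 32) r hr (fun c => mc_F n Q r ψ β x (j + c))]
  set A : ℝ := (n / 32 : ℕ) / (4 * r) * ((r : ℝ) / Nat.totient r) ^ 2 * Gp r (2 * (x : ℤ)) with hA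
  set E : ℝ := (C1 + C2) * (r : ℝ) ^ 3 * (n / 32 : ℕ) * (Q : ℝ) ^ (-(1 / 4) : ℝ) *
    Rk (2 * (x : ℤ)) with hE
  have hsum : ∑ c0 ∈ range r, ((if (j + c0) % r ∈ compat r x then A * κ ((j + c0) % r) else 0) -
      E - (Q : ℝ) ^ 9) ≤ ∑ c0 ∈ range r, ∑ c ∈ range ((n / 32 + r - 1 - c0) / r),
        mc_F n Q r ψ β x (j + (c0 + r * c)) :=
    sum_le_sum fun c0 hc0 => mc_class hC1 hC2 hlow hnon ψ hr hrQ hQ hn hrn hβ hβ1 hx hσ hj hκ hκ1
      (mem_range.1 hc0)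
  refine le_trans ?_ hsum
  rw [sum_sub_distrib, sum_sub_distrib,
    mc_shift r j hr (fun y => if y ∈ compat r x then A * κ y else 0), sum_const, sum_const,
    card_range, nsmul_eq_mul, nsmul_eq_mul]
  have hsub : compat r x ⊆ range r := by
    unfold compat
    exact filter_subset _ _
  have h1 : ∑ y ∈ range r, (if y ∈ compat r x then A * κ y else 0) =
      A * ∑ y0 ∈ compat r x, κ y0 := by
    rw [mul_sum, ← sum_subset hsub (f := fun y => if y ∈ compat r x then A * κ y else 0)]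
    · exact sum_congr rfl fun y hy => if_pos hy
    · intro y _ hy
      exact if_neg hy
  rw [h1]
  have hRk : 1 ≤ Rk (2 * (x : ℤ)) := one_le_Rk _
  have hq40 : 0 ≤ (Q : ℝ) ^ (-(1 / 4) : ℝ) := by positivity
  have hHn : ((n / 32 : ℕ) : ℝ) ≤ n := by exact_mod_cast Nat.div_le_self _ _
  have h2 : r * E ≤ (C1 + C2) * (r : ℝ) ^ 4 * n * (Q : ℝ) ^ (-(1 / 4) : ℝ) *
      Rk (2 * (x : ℤ)) := by
    rw [hE]
    calc (r : ℝ) * ((C1 + C2) * (r : ℝ) ^ 3 * (n / 32 : ℕ) * (Q : ℝ) ^ (-(1 / 4) : ℝ) *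
        Rk (2 * (x : ℤ))) = (C1 + C2) * (r : ℝ) ^ 4 * (n / 32 : ℕ) * (Q : ℝ) ^ (-(1 / 4) : ℝ) *
        Rk (2 * (x : ℤ)) := by ring
      _ ≤ _ := by gcongr
  have h3 : (r : ℝ) * (Q : ℝ) ^ 9 ≤ (Q : ℝ) ^ 10 := by
    have h4 : (r : ℝ) ≤ Q := by
      have : r ≤ Q := (Nat.le_self_pow (by norm_num) r).trans hrQ
      exact_mod_cast this
    calc (r : ℝ) * (Q : ℝ) ^ 9 ≤ Q * (Q : ℝ) ^ 9 := by gcongr
      _ = (Q : ℝ) ^ 10 := by ring
  linarith

end Pool.Agent.Lib.H18Q
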