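import Pool.Agent.Lib.H18Q.DG2
import Pool.Agent.Lib.H18Q.MC
import Pool.Agent.Lib.H18Q.HM
import Pool.Agent.Lib.H18E.CC
import Pool.Agent.Lib.H18E.DE

/-!
# Project H18Q, chunk DX: degrees at an exceptional level
-/

open Finset

namespace Pool.Agent.Lib.H18Q

open Pool.Agent.Lib.H68T Pool.Agent.Lib.H18E Pool.Agent.Lib.H18P

/-- The factor of a class: with `η = 1 - β`, `η log Q ≤ 1`, `Q ≤ n`, `n` large, `n/4 ≤ m' ≤ 2n`:
`(1/4) η log Q ≤ 1 - m'^(-η) ≤ 1`, and `|a m^(-η)| ≤ 1`.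

Proof. `m'^(-η) ≤ (n/4)^(-η) = exp (-η log (n/4))`, `log (n/4) ≥ (log n)/2 ≥ (log Q)/2`,
`t = η (log Q)/2 ≤ 1/2`, `1 - e^(-t) ≥ t/2`. -/
theorem DX_factor (Q n : ℕ) (η m' : ℝ) (hQ : 2 ≤ Q) (hQn : Q ≤ n) (hn : 16 ≤ n) (hη : 0 ≤ η)
    (h : η * Real.log Q ≤ 1) (hm : (n : ℝ) / 4 ≤ m') :
    1 / 4 * (η * Real.log Q) ≤ 1 - m' ^ (-η) ∧ 1 - m' ^ (-η) ≤ 1 := by
  have hn' : (16 : ℝ) ≤ n := by exact_mod_cast hn
  have hQ' : (2 : ℝ) ≤ Q := by exact_mod_cast hQ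
  have hQn' : (Q : ℝ) ≤ n := by exact_mod_cast hQn
  have hm0 : 0 < m' := by linarith
  have hlogQ : 0 ≤ Real.log Q := Real.log_nonneg (by linarith)
  have hlog : Real.log Q / 2 ≤ Real.log m' := by
    have h1 : Real.log Q ≤ Real.log (m' ^ 2) := by
      apply Real.log_le_log (by linarith)
      nlinarith
    rw [Real.log_pow] at h1
    push_cast at h1
    linarith
  have h1 : m' ^ (-η) ≤ Real.exp (-(η * Real.log Q / 2)) := by
    rw [Real.rpow_def_of_pos hm0]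
    apply Real.exp_le_exp.2
    nlinarith [mul_le_mul_of_nonneg_left hlog hη]
  have h2 := DE_exp (η * Real.log Q / 2) (by positivity) (by linarith)
  refine ⟨by linarith, ?_⟩
  have : 0 ≤ m' ^ (-η) := Real.rpow_nonneg hm0.le _
  linarith

theorem dx_unit (r x y : ℕ) [NeZero r] (hy : y ∈ compat r x) :
    IsUnit ((x : ZMod r) + y) ∧ IsUnit ((x : ZMod r) - y) := by
  classical
  unfold compat at hy
  rw [mem_filter] at hy
  obtain ⟨_, h1, h2⟩ := hy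
  have h3 := (ZMod.coe_int_isUnit_iff_isCoprime ((x : ℤ) + y) r).2 h1.symm
  have h4 := (ZMod.coe_int_isUnit_iff_isCoprime ((x : ℤ) - y) r).2 h2.symm
  push_cast at h3 h4
  exact ⟨h3, h4⟩

open scoped Classical in
noncomputable def dx_k (n r x : ℕ) (ψ : DirichletCharacter ℂ r) (L : ℝ) (y0 : ℕ) : ℝ :=
  if ψ ((x : ZMod r) + y0) = -1 then
    (if ψ (if 2 * x ≤ n then (y0 : ZMod r) - x else (x : ZMod r) - y0) = -1 then 1 else L)
  else
    (if ψ (if 2 * x ≤ n then (y0 : ZMod r) - x else (x : ZMod r) - y0) = -1 then L else 0)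

/-- The sum of the class factors. Let `κ y0` be `1` if both values of `ψ` are `-1`,
`(1/4) η log Q` if exactly one is `-1`... , `0` if none. (i) If a prime `p ≥ 7` divides `r` and not `x`:
`∑ κ ≥ #compat/10` (`cm_class`, with `s = -1` or `1` for the sign of the second argument). (ii) If a
prime `p` divides `r` and `x`: `∑ κ ≥ (1/8) η log Q #compat` (`half_minus`). The `κ` satisfies the
hypothesis of `main_exc`: with `a = ψ(x + y0) = ±1`, `b = ±1`: `(1 - a m^(-η)) (1 - b m'^(-η))` is at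
least `1` if `a = b = -1`, at least `1 - m^(-η)` or `1 - m'^(-η)` if exactly one is `-1`, and `≥ 0`
always (`DX_factor`). -/
theorem DX_classes (n Q r x : ℕ) [NeZero r] (ψ : DirichletCharacter ℂ r) (hψ : ψ.IsPrimitive)
    (h2 : ψ ^ 2 = 1) (β : ℝ) (hQ : 2 ≤ Q) (hQn : Q ≤ n) (hn : 16 ≤ n) (hβ : β < 1)
    (h : (1 - β) * Real.log Q ≤ 1) :
    ∃ κ : ℕ → ℝ, (∀ y0, 0 ≤ κ y0) ∧
      (∀ y0 ∈ compat r x, ∀ m m' : ℝ, n / 4 ≤ m → n / 4 ≤ m' → m ≤ 2 * n → m' ≤ 2 * n →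
        κ y0 ≤ (1 - (ψ ((x : ZMod r) + y0)).re * m ^ (β - 1)) *
          (1 - (ψ (if 2 * x ≤ n then (y0 : ZMod r) - x else (x : ZMod r) - y0)).re *
            m' ^ (β - 1))) ∧
      ((∃ p : ℕ, p.Prime ∧ 7 ≤ p ∧ p ∣ r ∧ ¬ p ∣ x) →
        ((compat r x).card : ℝ) / 10 ≤ ∑ y0 ∈ compat r x, κ y0) ∧
      ((∃ p : ℕ, p.Prime ∧ p ∣ r ∧ p ∣ x) →
        (1 - β) * Real.log Q / 8 * (compat r x).card ≤ ∑ y0 ∈ compat r x, κ y0) := by
  classical
  have hQ' : (2 : ℝ) ≤ Q := by exact_mod_cast hQ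
  have hlogQ : 0 ≤ Real.log Q := Real.log_nonneg (by linarith)
  set L : ℝ := 1 / 4 * ((1 - β) * Real.log Q) with hL
  have hL0 : 0 ≤ L := by
    have : 0 ≤ 1 - β := by linarith
    positivity
  have hL1 : L ≤ 1 := by rw [hL]; linarith
  have hk0 : ∀ y0, 0 ≤ dx_k n r x ψ L y0 := by
    intro y0
    unfold dx_k
    split_ifs <;> linarith
  refine ⟨dx_k n r x ψ L, hk0, ?_, ?_, ?_⟩
  · intro y0 hy0 m m' hm hm' _ _
    obtain ⟨u1, u2⟩ := dx_unit r x y0 hy0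
    have u3 : IsUnit (if 2 * x ≤ n then (y0 : ZMod r) - x else (x : ZMod r) - y0) := by
      split_ifs
      · rw [← neg_sub]
        exact u2.neg
      · exact u2
    have hn' : (16 : ℝ) ≤ n := by exact_mod_cast hn
    obtain ⟨f1, f2⟩ := DX_factor Q n (1 - β) m hQ hQn hn (by linarith) h hm
    obtain ⟨f3, f4⟩ := DX_factor Q n (1 - β) m' hQ hQn hn (by linarith) h hm'
    rw [show -(1 - β) = β - 1 by ring] at f1 f2 f3 f4
    rw [← hL] at f1 f3
    have g1 : 0 ≤ m ^ (β - 1) := by linarith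
    have g2 : 0 ≤ m' ^ (β - 1) := by linarith
    unfold dx_k
    rcases CM_val r ψ h2 _ u1 with e1 | e1 <;> rcases CM_val r ψ h2 _ u3 with e2 | e2
    · have n1 : ψ ((x : ZMod r) + y0) ≠ -1 := by rw [e1]; norm_num
      have n2 : ψ (if 2 * x ≤ n then (y0 : ZMod r) - x else (x : ZMod r) - y0) ≠ -1 := by
        rw [e2]; norm_num
      rw [if_neg n1, if_neg n2, e1, e2, Complex.one_re]
      apply mul_nonneg <;> linarith
    · have n1 : ψ ((x : ZMod r) + y0) ≠ -1 := by rw [e1]; norm_num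
      rw [if_neg n1, if_pos e2, e1, e2, Complex.one_re, Complex.neg_re, Complex.one_re]
      nlinarith
    · have n2 : ψ (if 2 * x ≤ n then (y0 : ZMod r) - x else (x : ZMod r) - y0) ≠ -1 := by
        rw [e2]; norm_num
      rw [if_pos e1, if_neg n2, e1, e2, Complex.one_re, Complex.neg_re, Complex.one_re]
      nlinarith
    · rw [if_pos e1, if_pos e2, e1, e2, Complex.neg_re, Complex.one_re]
      nlinarith [mul_nonneg g1 g2]
  · rintro ⟨p, hp, h7, hpr, hpx⟩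
    set s : ℤ := if 2 * x ≤ n then -1 else 1 with hs
    have hs1 : s = 1 ∨ s = -1 := by
      rw [hs]; split_ifs
      · right; rfl
      · left; rfl
    have hcm := cm_class r ψ hψ h2 p hp h7 hpr x hpx s hs1
    set S := (compat r x).filter (fun y : ℕ => ψ ((x : ZMod r) + y) = -1 ∧
        ψ ((s : ZMod r) * ((x : ZMod r) - y)) = -1) with hSdef
    have hk1 : ∀ y0 ∈ S, dx_k n r x ψ L y0 = 1 := by
      intro y0 hy0
      rw [hSdef, mem_filter] at hy0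
      obtain ⟨hy1, hy2, hy3⟩ := hy0
      have hv2 : ψ (if 2 * x ≤ n then (y0 : ZMod r) - x else (x : ZMod r) - y0) = -1 := by
        by_cases h2x : 2 * x ≤ n
        · rw [if_pos h2x]
          rw [hs, if_pos h2x] at hy3
          push_cast at hy3
          have : (y0 : ZMod r) - x = -1 * ((x : ZMod r) - y0) := by ring
          rw [this, hy3]
        · rw [if_neg h2x]
          rw [hs, if_neg h2x] at hy3
          push_cast at hy3
          rw [one_mul] at hy3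
          exact hy3
      unfold dx_k
      rw [if_pos hy2, if_pos hv2]
    calc ((compat r x).card : ℝ) / 10 ≤ (S.card : ℝ) := hcm
      _ = ∑ y0 ∈ S, dx_k n r x ψ L y0 := by
          rw [Finset.sum_congr rfl hk1, Finset.sum_const, nsmul_eq_mul, mul_one]
      _ ≤ ∑ y0 ∈ compat r x, dx_k n r x ψ L y0 :=
          Finset.sum_le_sum_of_subset_of_nonneg (filter_subset _ _) (fun y _ _ => hk0 y)
  · rintro ⟨p, hp, hpr, hpx⟩
    have hhm := half_minus r ψ hψ h2 p hp hpr x hpx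
    set S := (compat r x).filter (fun y : ℕ => ψ ((x : ZMod r) + y) = -1) with hSdef
    have hk1 : ∀ y0 ∈ S, L ≤ dx_k n r x ψ L y0 := by
      intro y0 hy0
      rw [hSdef, mem_filter] at hy0
      unfold dx_k
      rw [if_pos hy0.2]
      split_ifs <;> linarith
    calc (1 - β) * Real.log Q / 8 * (compat r x).card
        = ((compat r x).card : ℝ) / 2 * L := by rw [hL]; ring
      _ ≤ (S.card : ℝ) * L := mul_le_mul_of_nonneg_right hhm hL0
      _ = ∑ _y0 ∈ S, L := by rw [Finset.sum_const, nsmul_eq_mul]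
      _ ≤ ∑ y0 ∈ S, dx_k n r x ψ L y0 := Finset.sum_le_sum hk1
      _ ≤ ∑ y0 ∈ compat r x, dx_k n r x ψ L y0 :=
          Finset.sum_le_sum_of_subset_of_nonneg (filter_subset _ _) (fun y _ _ => hk0 y)

theorem dx_main (H r φ g cd w Sk SEx : ℝ) (hr : 0 < r) (hφ : 0 < φ) (hg : 0 ≤ g) (hH : 0 ≤ H)
    (hw : 0 ≤ w) (hgp : 1 / 2 * SEx ≤ cd * (r / φ ^ 2) * g) (hS : cd * w ≤ Sk) :
    H * w * SEx / 8 ≤ H / (4 * r) * (r / φ) ^ 2 * g * Sk := by
  have h1 : H / (4 * r) * (r / φ) ^ 2 * g * (cd * w) ≤ H / (4 * r) * (r / φ) ^ 2 * g * Sk :=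
    mul_le_mul_of_nonneg_left hS (by positivity)
  have h2 : H / (4 * r) * (r / φ) ^ 2 * g * (cd * w) = H * w / 4 * (cd * (r / φ ^ 2) * g) := by
    field_simp
  have h3 : H * w / 4 * (1 / 2 * SEx) ≤ H * w / 4 * (cd * (r / φ ^ 2) * g) :=
    mul_le_mul_of_nonneg_left hgp (by positivity)
  calc H * w * SEx / 8 = H * w / 4 * (1 / 2 * SEx) := by ring
    _ ≤ _ := h3
    _ = _ := h2.symm
    _ ≤ _ := h1

theorem dx_small (c C Cm : ℝ) (hc : 0 < c) (hC : 1 ≤ C) (hCm : 1 ≤ Cm) : ∃ K : ℝ, 20 ≤ K ∧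
    ∀ (n Q r : ℕ) (η R H : ℝ), RegP K Q n → 1 ≤ r → r ^ 100 ≤ Q → c / (r : ℝ) ^ 2 ≤ η →
    0 ≤ R → R ≤ (Q : ℝ) ^ (1 / 8 : ℝ) → H ≤ n →
    Cm * (r : ℝ) ^ 4 * n * (Q : ℝ) ^ (-(1 / 4) : ℝ) * R + (Q : ℝ) ^ 10 +
      C * (Q : ℝ) ^ (-(1 / 20) : ℝ) * H ≤ n / 64 * (η * Real.log Q) / 512 := by
  set A : ℝ := (Cm + 1 + C) * 32768 / c with hA
  have hA0 : 0 < A := by positivity
  refine ⟨34 * A + 20, by linarith, ?_⟩
  intro n Q r η R H hR hr1 hrQ hη hR0 hR1 hH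
  have hK1 : (1 : ℝ) ≤ 34 * A + 20 := by linarith
  have hlogQ := hR.logQ_ge hK1
  have hQK := hR.Q_ge hK1
  have hQ0 : (0 : ℝ) < Q := by linarith
  have hQ1 : (1 : ℝ) ≤ Q := by linarith
  have hn0 : (0 : ℝ) < n := by exact_mod_cast hR.X_pos (by linarith)
  have hr0 : (1 : ℝ) ≤ r := by exact_mod_cast hr1
  -- powers of `r`
  have hrq : (r : ℝ) ≤ (Q : ℝ) ^ (1 / 100 : ℝ) := by
    have h1 : ((r : ℝ) ^ (100 : ℕ)) ≤ Q := by exact_mod_cast hrQ
    have h2 := Real.rpow_le_rpow (by positivity) h1 (by norm_num : (0 : ℝ) ≤ 1 / 100)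
    rw [← Real.rpow_natCast, ← Real.rpow_mul (by linarith)] at h2
    norm_num at h2
    norm_num
    exact h2
  have hr4 : (r : ℝ) ^ 4 ≤ (Q : ℝ) ^ (1 / 25 : ℝ) := by
    calc (r : ℝ) ^ 4 ≤ ((Q : ℝ) ^ (1 / 100 : ℝ)) ^ 4 := pow_le_pow_left₀ (by linarith) hrq 4
      _ = (Q : ℝ) ^ (1 / 25 : ℝ) := by
          rw [← Real.rpow_natCast, ← Real.rpow_mul hQ0.le]
          norm_num
  have hr2 : (r : ℝ) ^ 2 ≤ (Q : ℝ) ^ (1 / 50 : ℝ) := by
    calc (r : ℝ) ^ 2 ≤ ((Q : ℝ) ^ (1 / 100 : ℝ)) ^ 2 := pow_le_pow_left₀ (by linarith) hrq 2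
      _ = (Q : ℝ) ^ (1 / 50 : ℝ) := by
          rw [← Real.rpow_natCast, ← Real.rpow_mul hQ0.le]
          norm_num
  have hη2 : c * (Q : ℝ) ^ (-(1 / 50) : ℝ) ≤ η * Real.log Q := by
    have h1 : c * (Q : ℝ) ^ (-(1 / 50) : ℝ) ≤ c / (r : ℝ) ^ 2 := by
      rw [div_eq_mul_inv, Real.rpow_neg hQ0.le]
      apply mul_le_mul_of_nonneg_left _ hc.le
      exact inv_anti₀ (by positivity) hr2
    have h2 : 0 < η := lt_of_lt_of_le (by positivity) hη
    have h3 : η * 1 ≤ η * Real.log Q := mul_le_mul_of_nonneg_left (by linarith) h2.le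
    linarith
  -- the three errors
  have e1 : Cm * (r : ℝ) ^ 4 * n * (Q : ℝ) ^ (-(1 / 4) : ℝ) * R ≤
      Cm * (n * (Q : ℝ) ^ (-(1 / 20) : ℝ)) := by
    have h1 : (r : ℝ) ^ 4 * ((Q : ℝ) ^ (-(1 / 4) : ℝ) * R) ≤ (Q : ℝ) ^ (-(1 / 20) : ℝ) := by
      calc (r : ℝ) ^ 4 * ((Q : ℝ) ^ (-(1 / 4) : ℝ) * R)
          ≤ (Q : ℝ) ^ (1 / 25 : ℝ) * ((Q : ℝ) ^ (-(1 / 4) : ℝ) * (Q : ℝ) ^ (1 / 8 : ℝ)) := by
            apply mul_le_mul hr4 _ (by positivity) (by positivity)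
            exact mul_le_mul_of_nonneg_left hR1 (by positivity)
        _ = (Q : ℝ) ^ (-(17 / 200) : ℝ) := by
            rw [← Real.rpow_add hQ0, ← Real.rpow_add hQ0]
            norm_num
        _ ≤ (Q : ℝ) ^ (-(1 / 20) : ℝ) :=
            Real.rpow_le_rpow_of_exponent_le hQ1 (by norm_num)
    calc Cm * (r : ℝ) ^ 4 * n * (Q : ℝ) ^ (-(1 / 4) : ℝ) * R
        = Cm * n * ((r : ℝ) ^ 4 * ((Q : ℝ) ^ (-(1 / 4) : ℝ) * R)) := by ring
      _ ≤ Cm * n * (Q : ℝ) ^ (-(1 / 20) : ℝ) := mul_le_mul_of_nonneg_left h1 (by positivity)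
      _ = _ := by ring
  have e2 : (Q : ℝ) ^ 10 ≤ n * (Q : ℝ) ^ (-(1 / 20) : ℝ) := by
    have h1 : (Q : ℝ) ^ (10 + 1 / 20 : ℝ) ≤ n := by
      rw [Real.rpow_def_of_pos hQ0, ← Real.le_log_iff_exp_le hn0]
      have h2 := hR.logQ_le hK1
      nlinarith
    have h2 : (Q : ℝ) ^ 10 = (Q : ℝ) ^ (10 + 1 / 20 : ℝ) * (Q : ℝ) ^ (-(1 / 20) : ℝ) := by
      rw [← Real.rpow_add hQ0, ← Real.rpow_natCast]
      norm_num
    rw [h2]
    exact mul_le_mul_of_nonneg_right h1 (by positivity)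
  have e3 : C * (Q : ℝ) ^ (-(1 / 20) : ℝ) * H ≤ C * (n * (Q : ℝ) ^ (-(1 / 20) : ℝ)) := by
    calc C * (Q : ℝ) ^ (-(1 / 20) : ℝ) * H ≤ C * (Q : ℝ) ^ (-(1 / 20) : ℝ) * n :=
          mul_le_mul_of_nonneg_left hH (by positivity)
      _ = _ := by ring
  have e4 : (Cm + 1 + C) * (Q : ℝ) ^ (-(1 / 20) : ℝ) ≤ c * (Q : ℝ) ^ (-(1 / 50) : ℝ) / 32768 := by
    have h1 : A ≤ (Q : ℝ) ^ (3 / 100 : ℝ) := by
      rw [Real.rpow_def_of_pos hQ0]
      have h2 := Real.add_one_le_exp (Real.log Q * (3 / 100))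
      linarith
    have h2 : (Q : ℝ) ^ (-(1 / 50) : ℝ) = (Q : ℝ) ^ (3 / 100 : ℝ) * (Q : ℝ) ^ (-(1 / 20) : ℝ) := by
      rw [← Real.rpow_add hQ0]
      norm_num
    have h3 : Cm + 1 + C = A * c / 32768 := by
      rw [hA]
      field_simp
    rw [h2, h3]
    have h4 : A * (c * (Q : ℝ) ^ (-(1 / 20) : ℝ) / 32768) ≤
        (Q : ℝ) ^ (3 / 100 : ℝ) * (c * (Q : ℝ) ^ (-(1 / 20) : ℝ) / 32768) :=
      mul_le_mul_of_nonneg_right h1 (by positivity)
    calc A * c / 32768 * (Q : ℝ) ^ (-(1 / 20) : ℝ)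
        = A * (c * (Q : ℝ) ^ (-(1 / 20) : ℝ) / 32768) := by ring
      _ ≤ _ := h4
      _ = _ := by ring
  calc _ ≤ Cm * (n * (Q : ℝ) ^ (-(1 / 20) : ℝ)) + n * (Q : ℝ) ^ (-(1 / 20) : ℝ) +
        C * (n * (Q : ℝ) ^ (-(1 / 20) : ℝ)) := by linarith
    _ = n * ((Cm + 1 + C) * (Q : ℝ) ^ (-(1 / 20) : ℝ)) := by ring
    _ ≤ n * (c * (Q : ℝ) ^ (-(1 / 50) : ℝ) / 32768) := mul_le_mul_of_nonneg_left e4 hn0.le
    _ ≤ n * (η * Real.log Q / 32768) := by
        apply mul_le_mul_of_nonneg_left _ hn0.le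
        linarith
    _ = _ := by ring

/-- **Degrees at an exceptional level.** Proof. `c1` of `lev_exc`. `vert_low` with
`mo m = Mod Q r (ψ m).re β m`, `E = e0 (1-β) log Q` (`lev_exc` at `X = 3n/8`, `regp_shift`;
`e0 = 1/(2^10 C)` small); `DX_classes`, `main_exc`; `compat_gp` (`H18E/CC`):
`#compat (r/φ(r)²) Gp r (2x) ≥ SE x/2`, so `(H/(4r)) (r/φ)² Gp r ∑κ ≥ (H/8) SE x · (∑κ/#compat)`. The
errors: `C r^4 n Q^(-1/4) Q^(1/8) ≤ n Q^(-1/16)`, `Q^10`, `C (E Gp 1 (2x) + Q^(-1/20)) H` with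
`Gp 1 (2x) ≤ 2 SE x`; `Q^(-1/20) ≤ (e0) (1-β)/...`: `1 - β ≥ c/r² ≥ c Q^(-1/50)` (`zero_elementary`), so all
errors together are at most `(1/2) (H/64) SE x min(1/10, (1-β) log Q/8)`-size for `K` large. `r > 120`:
otherwise `(1-β) log Q ≥ c log Q/14400 > c1` for `Q` large. Case (i) of `DX_classes`: `ohdeg ≥ c0 SE x n/
(log n)²`. In general, by `rad7_dvd` and `cond_big` (`H18E/CO`: some prime `p ≥ 7` divides `r`), either
(i) or (ii) holds, and `min (1/10) ((1-β) log Q/8) ≥ c (1 - β)`. -/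
theorem deg_exclev : ∃ c1 K c0 : ℝ, 0 < c1 ∧ c1 < 1 ∧ 1 ≤ K ∧ 0 < c0 ∧ ∀ n Q : ℕ, RegP K Q n →
    ∀ (r : ℕ) [NeZero r] (ψ : DirichletCharacter ℂ r), r ^ 100 ≤ Q → ψ.IsPrimitive → ψ ≠ 1 →
    ψ ^ 2 = 1 → ∀ β : ℝ, β < 1 → ψ.LFunction (β : ℂ) = 0 → (1 - β) * Real.log Q ≤ c1 →
    120 < r ∧ ∃ B : Finset ℕ, B ⊆ Icc 1 n ∧ (B.card : ℝ) ≤ n * (Q : ℝ) ^ (-(1 / 20) : ℝ) ∧
      ∀ x ∈ Icc 1 n, x ∉ B → c0 * (1 - β) * n / (Real.log n) ^ 2 ≤ ohdeg n x ∧
        ((∃ p : ℕ, p.Prime ∧ 7 ≤ p ∧ p ∣ r ∧ ¬ p ∣ x) →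
          c0 * SE x * n / (Real.log n) ^ 2 ≤ ohdeg n x) := by
  classical
  obtain ⟨c1, hc1, hc11, hlev⟩ := lev_exc
  obtain ⟨K1, C, hK1, hC, hvl⟩ := vert_low
  obtain ⟨Cm, hCm, hme⟩ := main_exc
  obtain ⟨c, hc, hze⟩ := zero_elementary
  obtain ⟨K2, hK2, hl2⟩ := hlev (1 / (2 ^ 10 * C)) (by positivity) (by
    rw [div_le_one (by positivity)]
    nlinarith)
  obtain ⟨K0, hK0, hsh⟩ := regp_shift
  obtain ⟨K3, hK3, hsm⟩ := dx_small c C Cm hc hC hCm
  have hcc : 0 < 14400 / c := by positivity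
  set K : ℝ := K1 + (2 * K2 + K0) + K3 + 14400 / c + 100 with hK
  refine ⟨c1, K, 1 / 2 ^ 16, hc1, hc11, by linarith, by positivity, ?_⟩
  intro n Q hR r _ ψ hrQ hψ hψ1 hψ2 β hβ hL0 hβc
  have hK0' : 0 ≤ K := by linarith
  have hR1 : RegP K1 Q n := hR.mono hK0' (by linarith)
  have hR2 : RegP (2 * K2 + K0) Q n := hR.mono hK0' (by linarith)
  have hR3 : RegP K3 Q n := hR.mono hK0' (by linarith)
  have hr1 : 1 ≤ r := NeZero.one_le
  have hr0 : (0 : ℝ) < r := by exact_mod_cast hr1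
  have hn100 : (100 : ℝ) ≤ n := by
    have := hR.X_ge (by linarith)
    linarith
  have hn100' : 100 ≤ n := by exact_mod_cast hn100
  have hlogQ := hR.logQ_ge (by linarith)
  have hlogQ100 : 100 ≤ Real.log Q := by linarith
  have hQK := hR.Q_ge (by linarith)
  have hQ100 : (100 : ℝ) ≤ Q := by linarith
  have hQ100' : 100 ≤ Q := by exact_mod_cast hQ100
  have hze1 := hze r ψ hψ1 hψ2 β hβ hL0
  have hη0 : 0 < 1 - β := by linarith
  have hβ2 : 1 / 2 ≤ β := by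
    nlinarith
  have h120 : 120 < r := by
    by_contra hle
    have h1 : (r : ℝ) ≤ 120 := by exact_mod_cast not_lt.1 hle
    have h2 : c / 14400 ≤ c / (r : ℝ) ^ 2 := by
      apply div_le_div_of_nonneg_left hc.le (by positivity)
      nlinarith
    have h3 : c / 14400 * Real.log Q ≤ (1 - β) * Real.log Q :=
      mul_le_mul_of_nonneg_right (h2.trans hze1) (by linarith)
    have h4 : 14400 / c ≤ Real.log Q := by linarith
    rw [div_le_iff₀ hc] at h4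
    have h5 : c / 14400 * Real.log Q = Real.log Q * c / 14400 := by ring
    rw [h5] at h3
    have h6 : 1 ≤ Real.log Q * c / 14400 := by
      rw [le_div_iff₀ (by norm_num)]
      linarith
    linarith
  refine ⟨h120, ?_⟩
  have hX4 : n ≤ 4 * (3 * n / 8) := by omega
  have hXn : 3 * n / 8 ≤ n := by omega
  have hRX : RegP K2 Q (3 * n / 8) := hsh K2 (by linarith) Q n _ hR2 hX4 hXn
  have hLev := hl2 Q _ hRX r ψ hrQ hψ hψ1 hψ2 β hβ hL0 hβc
  set l : ℝ := (1 - β) * Real.log Q with hl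
  have hl0 : 0 < l := by positivity
  have hl1 : l ≤ 1 := by linarith
  obtain ⟨B, hBs, hBc, hBx⟩ := hvl n Q _ _ hR1 (by positivity) (by
    have h1 : 1 / (2 ^ 10 * C) * l ≤ 1 * 1 := by
      apply mul_le_mul _ hl1 hl0.le (by norm_num)
      rw [div_le_one (by positivity)]
      nlinarith
    linarith) hLev
  refine ⟨B, hBs, hBc, ?_⟩
  intro x hx hxB
  obtain ⟨hRk, σ, j, hσ, hj, hv⟩ := hBx x hx hxB
  have hx1 : 1 ≤ x := (mem_Icc.1 hx).1
  have hQn : Q ≤ n := by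
    have h1 : Real.log Q ≤ Real.log n := by
      have := hR.logQ_le (by linarith)
      nlinarith
    have h2 := (Real.log_le_log_iff (by linarith) (by linarith)).1 h1
    exact_mod_cast h2
  have hQ2n : Q ^ 2 ≤ n := by
    have h1 : Real.log ((Q : ℝ) ^ 2) ≤ Real.log n := by
      rw [Real.log_pow]
      have := hR.logQ_le (by linarith)
      push_cast
      nlinarith
    have h2 := (Real.log_le_log_iff (by positivity) (by linarith)).1 h1
    exact_mod_cast h2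
  obtain ⟨κ, hκ0, hκ1, hκ2, hκ3⟩ := DX_classes n Q r x ψ hψ hψ2 β (by omega) hQn (by omega) hβ hl1
  have hmain := hme n Q r ψ β x σ j κ hrQ (by omega) hQ2n hβ2 hβ.le hx hσ hj hκ0 hκ1
  have hphi0 : (0 : ℝ) < Nat.totient r := by exact_mod_cast Nat.totient_pos.2 hr1
  have hgp := compat_gp r x hr1 hx1
  have hgp1 := one_le_Gp r (2 * (x : ℤ))
  have hSE := DG_SE x
  have hGS := Gp_le_SE x hx1
  set H : ℝ := ((n / 32 : ℕ) : ℝ) with hH
  have hH64 : (n : ℝ) / 64 ≤ H := by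
    have h1 : n ≤ 64 * (n / 32) := by omega
    have h2 : (n : ℝ) ≤ 64 * ((n / 32 : ℕ) : ℝ) := by exact_mod_cast h1
    rw [hH]
    linarith
  have hHn : H ≤ n := by
    rw [hH]
    exact_mod_cast Nat.div_le_self n 32
  have hH0 : 0 ≤ H := by rw [hH]; positivity
  have hRk0 : 0 ≤ Rk (2 * (x : ℤ)) := by
    unfold Rk
    apply Finset.prod_nonneg
    intro p hp
    have h2 := (Nat.prime_of_mem_primeFactors hp).two_le
    have h3 : (2 : ℝ) ≤ p := by exact_mod_cast h2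
    have h4 : 0 ≤ Real.sqrt p / ((p : ℝ) - 1) := div_nonneg (Real.sqrt_nonneg _) (by linarith)
    linarith
  have hsmall := hsm n Q r (1 - β) _ H hR3 hr1 hrQ hze1 hRk0 hRk hHn
  rw [← hl] at hsmall
  -- the two sums are the same
  have hsum : ∑ c ∈ range (n / 32), Mod Q r (ψ ((((xcs 1 0 x j + c : ℕ) : ℤ)) : ZMod r)).re β
        ((xcs 1 0 x j + c : ℕ) : ℤ) *
      Mod Q r (ψ ((((ix (n / 32) σ (xct σ (n / 32) 1 0 x j) c : ℕ) : ℤ)) : ZMod r)).re β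
        ((ix (n / 32) σ (xct σ (n / 32) 1 0 x j) c : ℕ) : ℤ) =
      ∑ c ∈ range (n / 32), Mod Q r (ψ ((xcs 1 0 x j + c : ℕ) : ZMod r)).re β
        ((xcs 1 0 x j + c : ℕ) : ℤ) *
      Mod Q r (ψ ((ix (n / 32) σ (xct σ (n / 32) 1 0 x j) c : ℕ) : ZMod r)).re β
        ((ix (n / 32) σ (xct σ (n / 32) 1 0 x j) c : ℕ) : ℤ) := by
    apply Finset.sum_congr rfl
    intro c _
    rw [Int.cast_natCast, Int.cast_natCast]
  rw [hsum] at hv
  obtain ⟨hlg0, hlg⟩ := DG_log n (by omega)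
  have hL0' : 0 < Real.log n := Real.log_pos (by linarith)
  -- the key inequality
  have key : ∀ w : ℝ, l / 16 ≤ w → ((compat r x).card : ℝ) * w ≤ ∑ y0 ∈ compat r x, κ y0 →
      n * w * SE x / 4096 / (Real.log n) ^ 2 ≤ ohdeg n x := by
    intro w hw hS
    have hw0 : 0 ≤ w := le_trans (by positivity) hw
    have m1 := dx_main H r (Nat.totient r) (Gp r (2 * (x : ℤ))) (compat r x).card w
      (∑ y0 ∈ compat r x, κ y0) (SE x) hr0 hphi0 (by linarith) hH0 hw0 hgp hS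
    have m2 : C * (1 / (2 ^ 10 * C) * l * Gp 1 (2 * (x : ℤ))) * H ≤ H * w * SE x / 32 := by
      have h1 : C * (1 / (2 ^ 10 * C) * l * Gp 1 (2 * (x : ℤ))) * H =
          H * l * Gp 1 (2 * (x : ℤ)) / 1024 := by
        field_simp
        ring
      rw [h1]
      have h2 : H * l * Gp 1 (2 * (x : ℤ)) ≤ H * l * (2 * SE x) :=
        mul_le_mul_of_nonneg_left hGS (by positivity)
      have h3 : H * SE x * (l / 16) ≤ H * SE x * w :=
        mul_le_mul_of_nonneg_left hw (by positivity)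
      nlinarith
    have m3 : n / 64 * l / 512 ≤ H * w * SE x / 32 := by
      have h1 : n / 64 * l ≤ H * l := mul_le_mul_of_nonneg_right hH64 hl0.le
      have h2 : H * (l / 16) ≤ H * w := mul_le_mul_of_nonneg_left hw hH0
      have h3 : H * w * 1 ≤ H * w * SE x := mul_le_mul_of_nonneg_left hSE (by positivity)
      linarith
    have m4 : H * w * SE x / 16 ≤ ohdeg n x * (Real.log (2 * n)) ^ 2 := by
      have h1 : C * (1 / (2 ^ 10 * C) * l * Gp 1 (2 * (x : ℤ)) + (Q : ℝ) ^ (-(1 / 20) : ℝ)) * H =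
          C * (1 / (2 ^ 10 * C) * l * Gp 1 (2 * (x : ℤ))) * H +
            C * (Q : ℝ) ^ (-(1 / 20) : ℝ) * H := by ring
      rw [h1] at hv
      linarith
    have m5 : H * w * SE x / 16 ≤ ohdeg n x * (4 * (Real.log n) ^ 2) :=
      m4.trans (mul_le_mul_of_nonneg_left hlg (by positivity))
    have m6 : n * w * SE x / 4096 ≤ ohdeg n x * (Real.log n) ^ 2 := by
      have h1 : n / 64 * (w * SE x) ≤ H * (w * SE x) :=
        mul_le_mul_of_nonneg_right hH64 (by positivity)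
      linarith
    rw [div_le_iff₀ (by positivity)]
    exact m6
  have hstrong : (∃ p : ℕ, p.Prime ∧ 7 ≤ p ∧ p ∣ r ∧ ¬ p ∣ x) →
      1 / 2 ^ 16 * SE x * n / (Real.log n) ^ 2 ≤ ohdeg n x := by
    intro hp
    have h1 := key (1 / 10) (by linarith) (by
      have := hκ2 hp
      linarith)
    refine le_trans ?_ h1
    apply div_le_div_of_nonneg_right _ (by positivity)
    have h2 : 0 ≤ SE x * n := by positivity
    nlinarith
  refine ⟨?_, hstrong⟩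
  rcases rad7_dvd r x with hd | hp
  · have h7 := rad7_seven r ψ hψ hψ2 h120
    obtain ⟨p, hp, hpd⟩ := Nat.exists_prime_and_dvd (show rad7 r ≠ 1 by omega)
    have hpr : p ∣ r := by
      have h1 := hpd
      unfold rad7 at h1
      rw [Prime.dvd_finsetProd_iff hp.prime] at h1
      obtain ⟨q, hq, hpq⟩ := h1
      exact hpq.trans (Nat.dvd_of_mem_primeFactors (mem_filter.1 hq).1)
    have h1 := key (l / 8) (by linarith) (by
      have := hκ3 ⟨p, hp, hpr, hpd.trans hd⟩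
      rw [← hl] at this
      linarith)
    refine le_trans ?_ h1
    apply div_le_div_of_nonneg_right _ (by positivity)
    have h2 : 1 - β ≤ l := by
      rw [hl]
      nlinarith
    have h3 : (1 - β) * n ≤ l * n := mul_le_mul_of_nonneg_right h2 (by linarith)
    have h4 : l * n * 1 ≤ l * n * SE x := mul_le_mul_of_nonneg_left hSE (by positivity)
    nlinarith
  · refine le_trans ?_ (hstrong hp)
    apply div_le_div_of_nonneg_right _ (by positivity)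
    have h1 : 1 - β ≤ SE x := by linarith
    have h2 : (1 - β) * n ≤ SE x * n := mul_le_mul_of_nonneg_right h1 (by linarith)
    nlinarith

end Pool.Agent.Lib.H18Q
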