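import Pool.Agent.Lib.H68X.XDefs
import Pool.Agent.Lib.H68T.GL2
import Pool.Agent.Lib.H68T.GL1

/-!
# Project H18Q: definitions for the zeros of L-functions

`od f ρ` order of vanishing, `ZD f c R` zeros in a closed disc, `ZR f σ T` zeros in a rectangle,
`Lp p` the entire function attached to a primitive character (`(s-1)ζ(s)` for the trivial one),
`Lx r ψ β p` the same with the zero `β` of `L(s, ψ)` removed, `Jk lam k n` the weights of the
power sum method, `LDat C0 ℓ T f` growth data.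
-/

open Finset

namespace Pool.Agent.Lib.H18Q

open Pool.Agent.Lib.H68T

noncomputable section

/-- Order of vanishing of `f` at `ρ`. -/
def od (f : ℂ → ℂ) (ρ : ℂ) : ℕ := analyticOrderNatAt f ρ

open Classical in
/-- The zeros of `f` in a set, if there are finitely many of them. -/
def ZS (f : ℂ → ℂ) (S : Set ℂ) : Finset ℂ :=
  if h : ({ρ : ℂ | f ρ = 0 ∧ ρ ∈ S}).Finite then h.toFinset else ∅

/-- The zeros of `f` in the closed disc with centre `c` and radius `R`. -/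
def ZD (f : ℂ → ℂ) (c : ℂ) (R : ℝ) : Finset ℂ := ZS f (Metric.closedBall c R)

/-- The zeros of `f` with `σ ≤ Re ρ ≤ 1` and `|Im ρ| ≤ T`. -/
def ZR (f : ℂ → ℂ) (σ T : ℝ) : Finset ℂ := ZS f {ρ | σ ≤ ρ.re ∧ ρ.re ≤ 1 ∧ |ρ.im| ≤ T}

/-- The entire function attached to a character: `(s-1) ζ(s)` for the trivial character modulo
`1`, else `L(s, χ)`. -/
def Lp (p : Σ r : ℕ, DirichletCharacter ℂ r) : ℂ → ℂ :=
  open Classical in
  if p = p0 then gl2_Z else
    if h : p.1 = 0 then fun _ => 1 else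
      haveI : NeZero p.1 := ⟨h⟩
      p.2.LFunction

/-- `Lp p` with the zero `β` of `L(s, ψ)` removed for `p = (r, ψ)`. -/
def Lx (r : ℕ) (ψ : DirichletCharacter ℂ r) (β : ℝ) (p : Σ r : ℕ, DirichletCharacter ℂ r) :
    ℂ → ℂ :=
  open Classical in
  if p = ⟨r, ψ⟩ then dslope (Lp ⟨r, ψ⟩) (β : ℂ) else Lp p

/-- The weights of the power sum method: `lam^(k+1) (log n)^k / k! n^(-1-lam)`. -/
def Jk (lam : ℝ) (k n : ℕ) : ℝ :=
  lam ^ (k + 1) * Real.log n ^ k / (k.factorial : ℝ) * (n : ℝ) ^ (-1 - lam)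

/-- Growth data of an entire function near the line `Re s = 1`: zeros only in `Re s < 1`, growth
`exp (C0 ℓ)` in discs of radius `1/2` about the points `1 + lam + i v`, `1/ℓ ≤ lam ≤ 1/8`,
`|v| ≤ T`, and logarithmic derivative at these points at most `C0 / lam`. -/
structure LDat (C0 ℓ T : ℝ) (f : ℂ → ℂ) : Prop where
  diff : Differentiable ℂ f
  zre : ∀ ρ : ℂ, f ρ = 0 → ρ.re < 1
  growth : ∀ lam v : ℝ, 1 / ℓ ≤ lam → lam ≤ 1 / 8 → |v| ≤ T →
    ∀ s ∈ Metric.closedBall (1 + lam + v * Complex.I : ℂ) (1 / 2),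
      ‖f s‖ ≤ Real.exp (C0 * ℓ) * ‖f (1 + lam + v * Complex.I)‖
  ld : ∀ lam v : ℝ, 1 / ℓ ≤ lam → lam ≤ 1 / 8 → |v| ≤ T →
    ‖logDeriv f (1 + lam + v * Complex.I)‖ ≤ C0 / lam

/-- The threshold for the width of the region in which zeros are detected. -/
def th0 : ℝ := 1 / 10 ^ 9

end

theorem Lp_p0 : Lp p0 = gl2_Z := by
  unfold Lp
  rw [if_pos rfl]

theorem Lp_mk (r : ℕ) [NeZero r] (ψ : DirichletCharacter ℂ r)
    (h : (⟨r, ψ⟩ : Σ r : ℕ, DirichletCharacter ℂ r) ≠ p0) : Lp ⟨r, ψ⟩ = ψ.LFunction := by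
  unfold Lp
  rw [if_neg h, dif_neg (NeZero.ne r)]

theorem Lx_mk (r : ℕ) (ψ : DirichletCharacter ℂ r) (β : ℝ) :
    Lx r ψ β ⟨r, ψ⟩ = dslope (Lp ⟨r, ψ⟩) (β : ℂ) := by
  unfold Lx
  rw [if_pos rfl]

theorem Lx_of_ne (r : ℕ) (ψ : DirichletCharacter ℂ r) (β : ℝ)
    (p : Σ r : ℕ, DirichletCharacter ℂ r) (h : p ≠ ⟨r, ψ⟩) : Lx r ψ β p = Lp p := by
  unfold Lx
  rw [if_neg h]

/-- A member of `PC Q` different from `p0` is a character different from `1`. -/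
theorem ne_one_of_ne_p0 {Q : ℕ} {p : Σ r : ℕ, DirichletCharacter ℂ r} (hp : p ∈ PC Q)
    (h : p ≠ p0) : p.2 ≠ 1 := by
  intro h1
  apply h
  obtain ⟨r, ψ⟩ := p
  have hp' := (mem_PC.mp hp).2.2
  have hr := (mem_PC.mp hp).1
  simp only at h1 hp' hr
  have hne : NeZero r := ⟨by omega⟩
  have h2 : r = 1 := by
    have h3 := hp'
    unfold DirichletCharacter.IsPrimitive at h3
    rw [h1, DirichletCharacter.conductor_one] at h3
    exact h3.symm
  subst h2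
  rw [h1]
  rfl

theorem Lp_mem {Q : ℕ} {p : Σ r : ℕ, DirichletCharacter ℂ r} (hp : p ∈ PC Q) (h : p ≠ p0) :
    ∃ _h : NeZero p.1, Lp p = p.2.LFunction := by
  have h1 := (mem_PC.mp hp).1
  have hne : NeZero p.1 := ⟨by omega⟩
  refine ⟨hne, ?_⟩
  obtain ⟨r, ψ⟩ := p
  exact Lp_mk r ψ h

end Pool.Agent.Lib.H18Q
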