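import Pool.Agent.Lib.H51D.DHE
import Pool.Agent.Lib.H51D.DHF
import Pool.Agent.Lib.H51D.DHDefs
import Pool.Agent.Lib.H68X.XRH
import Pool.Agent.Lib.H18Q.QDefs

/-!
# Project H18Q, chunk E1: the partial sums of `λ(m) m^(-β)` at a zero `β`
-/

open Finset

namespace Pool.Agent.Lib.H18Q

open Pool.Agent.Lib.H68T

/-- Difference of two powers, without a sign of the exponent. -/
theorem e1_diff (s : ℂ) {a b : ℝ} (hs : -1 ≤ s.re) (ha : 0 < a) (hab : a ≤ b) :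
    ‖(b : ℂ) ^ (-s) - (a : ℂ) ^ (-s)‖ ≤ ‖s‖ * a ^ (-s.re - 1) * (b - a) := by
  have hpos : ∀ x ∈ Set.Icc a b, 0 < x := fun x hx => lt_of_lt_of_le ha hx.1
  refine norm_image_sub_le_of_norm_deriv_le_segment' (f := fun x : ℝ => (x : ℂ) ^ (-s))
    (a := a) (b := b) (f' := fun x => -s * (x : ℂ) ^ (-s - 1))
    (fun x hx => (gl1_hasDerivAt s (hpos x hx)).hasDerivWithinAt) (fun x hx => ?_) b ⟨hab, le_rfl⟩
  have hx' := hpos x ⟨hx.1, hx.2.le⟩
  rw [gl1_norm_deriv s hx']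
  refine mul_le_mul_of_nonneg_left ?_ (norm_nonneg _)
  exact Real.rpow_le_rpow_of_nonpos ha hx.1 (by linarith)

/-- Let `f : ℕ → ℂ` have `|∑_{n ≤ u} f n - κ u| ≤ D √u`, and let `F` be analytic in `Re s > 1/2` with
`F s = (s-1) ∑ f n n^(-s)` for `Re s > 1`, `F s = 0`, `3/4 ≤ Re s ≤ 1`, `s ≠ 1`. Then
`∑_{n ≤ u} f n n^(-s) = κ u^(1-s)/(1-s) + O((D + |κ|)(1 + |s|) u^(1/2 - Re s))`.

Proof. Exactly the proof of `dh_analytic` (file `H51D/DHE`), which states the upper bound that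
follows from this formula: before the last triangle inequality its proof has the formula (the main
term there is `κ (ζ-part) = κ u^(1-s)/(1-s)`, with a constant `2` lost in
`∑_{n ≤ u} n^(-s) = u^(1-s)/(1-s) + ζ(s) + O(...)`). Copy that proof and keep the main term. -/
theorem E1_formula (f : ℕ → ℂ) (κ : ℂ) (D : ℝ) (hD : 0 ≤ D)
    (hM : ∀ u : ℕ, ‖(∑ n ∈ Icc 1 u, f n) - κ * u‖ ≤ D * Real.sqrt u)
    (hsum : ∀ s : ℂ, 1 < s.re → LSeriesSummable f s)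
    (F : ℂ → ℂ) (hF : AnalyticOnNhd ℂ F {s | 1 / 2 < s.re})
    (hFs : ∀ s : ℂ, 1 < s.re → F s = (s - 1) * LSeries f s)
    (s : ℂ) (h1 : 3 / 4 ≤ s.re) (h2 : s.re ≤ 1) (hs1 : s ≠ 1) (h0 : F s = 0) (u : ℕ)
    (hu : 1 ≤ u) :
    ‖(∑ n ∈ Icc 1 u, f n * (n : ℂ) ^ (-s)) - κ * (u : ℂ) ^ (1 - s) / (1 - s)‖ ≤
      100 * (D + ‖κ‖) * (1 + ‖s‖) * (u : ℝ) ^ (1 / 2 - s.re) := by
  have hs0 : 0 < s.re := by linarith
  have hs12 : 1 / 2 < s.re := by linarith
  have hG := DHE_analytic f κ D hD hM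
  -- the identity
  have hid : F s = κ * gl2_Z s + (s - 1) * ∑' n, DHE_A f κ n s := by
    have ha : AnalyticOnNhd ℂ (fun s => κ * gl2_Z s + (s - 1) * ∑' n, DHE_A f κ n s)
        {s | 1 / 2 < s.re} := by
      intro z hz
      exact (analyticAt_const.mul (gl2_Z_differentiable.analyticAt z)).add
        ((analyticAt_id.sub analyticAt_const).mul (hG z hz))
    have hp : IsPreconnected {s : ℂ | 1 / 2 < s.re} :=
      (convex_halfSpace_re_gt (1 / 2)).isPreconnected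
    have h4 := hF.eqOn_of_preconnected_of_eventuallyEq ha hp (z₀ := 2) (by simp; norm_num) ?_
    · exact h4 hs12
    · have h5 : {s : ℂ | 1 < s.re} ∈ nhds (2 : ℂ) :=
        (isOpen_lt continuous_const Complex.continuous_re).mem_nhds (by simp)
      filter_upwards [h5] with z hz
      have hz' : 1 < z.re := hz
      rw [hFs z hz', DHE_series f κ D hM hsum z hz', gl2_Z_eq z (by rintro rfl; simp at hz')]
      ring
  rw [h0] at hid
  -- the finite sum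
  have e1 : ∑ n ∈ Icc 1 u, f n * (n : ℂ) ^ (-s) = ∑ n ∈ range u, f (n + 1) * DHE_p n s := by
    rw [← Finset.Ico_succ_right_eq_Icc, Finset.sum_Ico_eq_sum_range]
    simp only [Order.succ_eq_add_one, Nat.add_sub_cancel]
    refine sum_congr rfl fun n _ => ?_
    rw [add_comm 1 n, DHE_p]
    push_cast
    rfl
  have e2 := DHE_abel f κ s u
  -- sums of `gl2_B`
  have hsumB := (gl1_tele s.re hs0 (‖s - 1‖ * ‖s‖ / s.re) (by positivity) (fun n => gl2_B n s)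
    (fun n => gl2_B_norm n s hs0)).1
  have e3 : ∀ K : ℕ, ∑ n ∈ range K, gl2_B n s = (s - 1) * ∑ n ∈ range K, DHE_p n s +
      ((((K : ℝ) + 1 : ℝ) : ℂ) ^ (-(s - 1)) - 1) := by
    intro K
    induction K with
    | zero => simp
    | succ K ih =>
      rw [sum_range_succ, sum_range_succ, ih, gl2_B, DHE_p]
      have e2 : (((K + 1 : ℕ) : ℝ) + 1 : ℝ) = (K : ℝ) + 2 := by
        push_cast
        ring
      rw [e2]
      ring
  have e4 : gl2_Z s = 1 + ∑ n ∈ range u, gl2_B n s + ∑' n, gl2_B (n + u) s := by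
    rw [gl2_eqOn s hs0, ← hsumB.sum_add_tsum_nat_add u]
    ring
  have hsumA := DHE_summable f κ D hM s hs12
  have e5 : ∑' n, DHE_A f κ n s = ∑ n ∈ range u, DHE_A f κ n s + ∑' n, DHE_A f κ (n + u) s :=
    (hsumA.sum_add_tsum_nat_add u).symm
  have hs1' : s - 1 ≠ 0 := sub_ne_zero.2 hs1
  have hu0 : (0 : ℝ) < u := by exact_mod_cast hu
  have hu1 : (1 : ℝ) ≤ u := by exact_mod_cast hu
  -- the tails
  have hB : ‖∑' n, gl2_B (n + u) s‖ ≤ ‖s - 1‖ * ‖s‖ / s.re * ((u : ℝ) + 1) ^ (-s.re) :=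
    XRL_tele s.re _ (by positivity) u _ (fun n => gl2_B_norm (n + u) s hs0)
  have hA : ‖∑' n, DHE_A f κ (n + u) s‖ ≤
      D * ‖s‖ / (s.re - 1 / 2) * (u : ℝ) ^ (-(s.re - 1 / 2)) := by
    have hh := XRL_tele (s.re - 1 / 2) (D * ‖s‖ / (s.re - 1 / 2))
      (div_nonneg (by positivity) (by linarith)) (u - 1) (fun n => DHE_A f κ (n + u) s) ?_
    · have e6 : (((u - 1 : ℕ) : ℝ) + 1) = u := by
        rw [Nat.cast_sub hu]
        simp
      rwa [e6] at hh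
    · intro n
      refine (DHE_A_norm f κ D hM (n + u) s hs0).trans ?_
      have e7 : ((n + (u - 1) : ℕ) : ℝ) + 1 = ((n + u : ℕ) : ℝ) := by
        have : n + (u - 1) + 1 = n + u := by omega
        exact_mod_cast this
      have e8 : ((n + (u - 1) : ℕ) : ℝ) + 2 = ((n + u : ℕ) : ℝ) + 1 := by
        linarith
      rw [e7, e8]
      have hx : (0 : ℝ) < ((n + u : ℕ) : ℝ) := by
        have : 0 < n + u := by omega
        exact_mod_cast this
      have h9 := DHE_mvt (s.re - 1 / 2) ((n + u : ℕ) : ℝ) (by linarith) hx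
      have e9 : -(s.re - 1 / 2) - 1 = -s.re - 1 / 2 := by ring
      rw [e9] at h9
      have hp : 0 < s.re - 1 / 2 := by linarith
      calc D * ‖s‖ * (((n + u : ℕ) : ℝ) + 1) ^ (-s.re - 1 / 2)
          = D * ‖s‖ / (s.re - 1 / 2) *
            ((s.re - 1 / 2) * (((n + u : ℕ) : ℝ) + 1) ^ (-s.re - 1 / 2)) := by
            rw [← mul_assoc, div_mul_cancel₀ _ hp.ne']
        _ ≤ _ := mul_le_mul_of_nonneg_left h9 (div_nonneg (by positivity) hp.le)
  -- the formula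
  have key : ∑ n ∈ Icc 1 u, f n * (n : ℂ) ^ (-s) =
      DHE_E f κ u * DHE_p u s - κ * (∑' n, gl2_B (n + u) s) / (s - 1) -
        κ * (((u : ℝ) + 1 : ℝ) : ℂ) ^ (-(s - 1)) / (s - 1) - ∑' n, DHE_A f κ (n + u) s := by
    rw [e1, e2]
    have e10 : ∑ n ∈ range u, DHE_p n s = (gl2_Z s - ∑' n, gl2_B (n + u) s -
        (((u : ℝ) + 1 : ℝ) : ℂ) ^ (-(s - 1))) / (s - 1) := by
      rw [eq_div_iff hs1', e4, e3 u]
      ring
    have e11 : ∑ n ∈ range u, DHE_A f κ n s =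
        -(κ * gl2_Z s / (s - 1)) - ∑' n, DHE_A f κ (n + u) s := by
      have e12 : ∑' n, DHE_A f κ n s = -(κ * gl2_Z s / (s - 1)) := by
        field_simp
        linear_combination -hid
      rw [← e12, e5]
      ring
    rw [e10, e11]
    ring
  have hn1 : 0 < ‖1 - s‖ := by
    rw [norm_pos_iff]
    exact sub_ne_zero.2 hs1.symm
  have hs1'' : 1 - s ≠ 0 := sub_ne_zero.2 hs1.symm
  have key2 : (∑ n ∈ Icc 1 u, f n * (n : ℂ) ^ (-s)) - κ * (u : ℂ) ^ (1 - s) / (1 - s) =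
      DHE_E f κ u * DHE_p u s - κ * (∑' n, gl2_B (n + u) s) / (s - 1) -
        κ * ((u : ℂ) ^ (1 - s) - (((u : ℝ) + 1 : ℝ) : ℂ) ^ (1 - s)) / (1 - s) -
        ∑' n, DHE_A f κ (n + u) s := by
    rw [key]
    have e20 : -(s - 1) = 1 - s := by ring
    rw [e20]
    have e21 : s - 1 = -(1 - s) := by ring
    rw [e21]
    field_simp
    ring
  rw [key2]
  have hκ := norm_nonneg κ
  have hns := norm_nonneg s
  have hsw : ‖s - 1‖ = ‖1 - s‖ := norm_sub_rev _ _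
  -- bounds
  have b1 : ‖DHE_E f κ u * DHE_p u s‖ ≤ D * (u : ℝ) ^ (1 / 2 - s.re) := by
    rw [norm_mul, DHE_p, Complex.norm_cpow_eq_rpow_re_of_pos (by positivity)]
    have h3 : ‖DHE_E f κ u‖ ≤ D * (u : ℝ) ^ (1 / 2 : ℝ) := by
      rw [← Real.sqrt_eq_rpow]
      exact hM u
    have h4 : ((u : ℝ) + 1) ^ (-s).re ≤ (u : ℝ) ^ (-s.re) := by
      rw [Complex.neg_re]
      exact Real.rpow_le_rpow_of_nonpos hu0 (by linarith) (by linarith)
    calc ‖DHE_E f κ u‖ * ((u : ℝ) + 1) ^ (-s).re ≤ (D * (u : ℝ) ^ (1 / 2 : ℝ)) * (u : ℝ) ^ (-s.re) :=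
          mul_le_mul h3 h4 (Real.rpow_nonneg (by positivity) _) ((norm_nonneg _).trans h3)
      _ = D * ((u : ℝ) ^ (1 / 2 : ℝ) * (u : ℝ) ^ (-s.re)) := by ring
      _ = _ := by
        rw [← Real.rpow_add hu0]
        ring_nf
  have hpow : ((u : ℝ) + 1) ^ (-s.re) ≤ (u : ℝ) ^ (1 / 2 - s.re) := by
    calc ((u : ℝ) + 1) ^ (-s.re) ≤ (u : ℝ) ^ (-s.re) :=
          Real.rpow_le_rpow_of_nonpos hu0 (by linarith) (by linarith)
      _ ≤ _ := Real.rpow_le_rpow_of_exponent_le hu1 (by linarith)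
  have hpos : 0 ≤ (u : ℝ) ^ (1 / 2 - s.re) := Real.rpow_nonneg hu0.le _
  have b2 : ‖κ * (∑' n, gl2_B (n + u) s) / (s - 1)‖ ≤ 2 * ‖κ‖ * ‖s‖ * (u : ℝ) ^ (1 / 2 - s.re) := by
    rw [norm_div, norm_mul, div_le_iff₀ (by rw [hsw]; exact hn1)]
    have h3 : ‖s - 1‖ * ‖s‖ / s.re ≤ 2 * (‖s - 1‖ * ‖s‖) := by
      rw [div_le_iff₀ hs0]
      have : 0 ≤ ‖s - 1‖ * ‖s‖ := by positivity
      nlinarith
    calc ‖κ‖ * ‖∑' n, gl2_B (n + u) s‖
        ≤ ‖κ‖ * (2 * (‖s - 1‖ * ‖s‖) * (u : ℝ) ^ (1 / 2 - s.re)) := by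
          apply mul_le_mul_of_nonneg_left _ hκ
          refine hB.trans ?_
          exact mul_le_mul h3 hpow (Real.rpow_nonneg (by positivity) _) (by positivity)
      _ = _ := by ring
  have b3 : ‖κ * ((u : ℂ) ^ (1 - s) - (((u : ℝ) + 1 : ℝ) : ℂ) ^ (1 - s)) / (1 - s)‖ ≤
      ‖κ‖ * (u : ℝ) ^ (1 / 2 - s.re) := by
    rw [norm_div, norm_mul, div_le_iff₀ hn1]
    have h3 := e1_diff (s - 1) (a := (u : ℝ)) (b := (u : ℝ) + 1) (by simp; linarith) hu0
      (by linarith)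
    have e30 : -(s - 1) = 1 - s := by ring
    have e31 : -(s - 1).re - 1 = -s.re := by simp
    have e32 : (u : ℝ) + 1 - (u : ℝ) = 1 := by ring
    rw [e30, e31, e32, mul_one, hsw, norm_sub_rev] at h3
    have h4 : (u : ℝ) ^ (-s.re) ≤ (u : ℝ) ^ (1 / 2 - s.re) :=
      Real.rpow_le_rpow_of_exponent_le hu1 (by linarith)
    calc ‖κ‖ * ‖(u : ℂ) ^ (1 - s) - (((u : ℝ) + 1 : ℝ) : ℂ) ^ (1 - s)‖
        ≤ ‖κ‖ * (‖1 - s‖ * (u : ℝ) ^ (1 / 2 - s.re)) := by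
          apply mul_le_mul_of_nonneg_left _ hκ
          have h5 : ‖(u : ℂ) ^ (1 - s) - (((u : ℝ) + 1 : ℝ) : ℂ) ^ (1 - s)‖ ≤
              ‖1 - s‖ * (u : ℝ) ^ (-s.re) := by
            simpa using h3
          exact h5.trans (mul_le_mul_of_nonneg_left h4 hn1.le)
      _ = _ := by ring
  have b4 : ‖∑' n, DHE_A f κ (n + u) s‖ ≤ 4 * D * ‖s‖ * (u : ℝ) ^ (1 / 2 - s.re) := by
    refine hA.trans ?_
    have e14 : -(s.re - 1 / 2) = 1 / 2 - s.re := by ring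
    rw [e14]
    apply mul_le_mul_of_nonneg_right _ hpos
    rw [div_le_iff₀ (by linarith)]
    have : 0 ≤ D * ‖s‖ := by positivity
    nlinarith
  have t1 := norm_sub_le (DHE_E f κ u * DHE_p u s - κ * (∑' n, gl2_B (n + u) s) / (s - 1) -
        κ * ((u : ℂ) ^ (1 - s) - (((u : ℝ) + 1 : ℝ) : ℂ) ^ (1 - s)) / (1 - s))
        (∑' n, DHE_A f κ (n + u) s)
  have t2 := norm_sub_le (DHE_E f κ u * DHE_p u s - κ * (∑' n, gl2_B (n + u) s) / (s - 1))
        (κ * ((u : ℂ) ^ (1 - s) - (((u : ℝ) + 1 : ℝ) : ℂ) ^ (1 - s)) / (1 - s))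
  have t3 := norm_sub_le (DHE_E f κ u * DHE_p u s) (κ * (∑' n, gl2_B (n + u) s) / (s - 1))
  have t4 : D * (u : ℝ) ^ (1 / 2 - s.re) + 2 * ‖κ‖ * ‖s‖ * (u : ℝ) ^ (1 / 2 - s.re) +
      ‖κ‖ * (u : ℝ) ^ (1 / 2 - s.re) + 4 * D * ‖s‖ * (u : ℝ) ^ (1 / 2 - s.re) ≤
      100 * (D + ‖κ‖) * (1 + ‖s‖) * (u : ℝ) ^ (1 / 2 - s.re) := by
    have : D + 2 * ‖κ‖ * ‖s‖ + ‖κ‖ + 4 * D * ‖s‖ ≤ 100 * (D + ‖κ‖) * (1 + ‖s‖) := by
      have h5 : 0 ≤ D * ‖s‖ := by positivity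
      have h6 : 0 ≤ ‖κ‖ * ‖s‖ := by positivity
      nlinarith
    have h7 := mul_le_mul_of_nonneg_right this hpos
    linarith
  linarith

/-- Lower bound for the partial sums of `λ = 1 * ψ` at a real zero `β` of `L(s, ψ)`.

Proof. `E1_formula` with `f = λ` (as complex numbers), `κ = L(1, ψ)`, `D = 4 r`
(`hyperbola` in `H68X/XRH`), `F s = gl2_Z s * ψ.LFunction s` (`gl2_Z s = (s-1) ζ(s)`,
`LSeries λ = ζ L` by `LSeries_convolution'`/`zetaMul`-lemmas as in `H51D` file `DHF` or `DHG`),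
`s = β`. `L(1, ψ)` is real and positive (its norm is its value: real since `ψ` is real,
`ZF2_conj`; positivity is not needed if one takes the real part and uses
`(L(1)).re = ‖L(1)‖`, which follows from the formula itself or from
`DirichletCharacter.LFunction` positivity for real characters: `0 ≤ ∑_{m ≤ u} λ(m)/u → L(1)`).
`‖κ‖ ≤ 2 r` (`LFunction_bound`), `1 + β ≤ 2`: the error is at most `100 · 6 r · 2 ≤ 2000 r`. -/
theorem E1_lower (r : ℕ) [NeZero r] (ψ : DirichletCharacter ℂ r) (hψ : ψ ≠ 1) (h2 : ψ ^ 2 = 1)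
    (β : ℝ) (hβ : 3 / 4 ≤ β) (hβ1 : β < 1) (h0 : ψ.LFunction (β : ℂ) = 0) (x : ℕ) (hx : 1 ≤ x) :
    ‖ψ.LFunction 1‖ * (x : ℝ) ^ (1 - β) / (1 - β) - 2000 * r * (x : ℝ) ^ (1 / 2 - β) ≤
      ∑ m ∈ Icc 1 x, lam ψ m * (m : ℝ) ^ (-β) := by
  have hr1 : (1 : ℝ) ≤ r := by exact_mod_cast Nat.one_le_iff_ne_zero.2 (NeZero.ne r)
  set κ : ℂ := ψ.LFunction 1 with hκdef
  set f : ℕ → ℂ := fun n => ∑ d ∈ n.divisors, ψ (d : ZMod r) with hf
  have hflam : ∀ n, f n = ((lam ψ n : ℝ) : ℂ) := fun n => (lam_cast r ψ h2 n).symm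
  have hfD : f = DHF_f ψ (1 : DirichletCharacter ℂ 1) := by
    funext n
    rw [hf]
    unfold DHF_f
    apply Finset.sum_congr rfl
    intro d _
    have : (1 : DirichletCharacter ℂ 1) ((n / d : ℕ) : ZMod 1) = 1 := by
      rw [Subsingleton.elim ((n / d : ℕ) : ZMod 1) 1, map_one]
    rw [this, mul_one]
  have hMf : ∀ u : ℕ, ‖(∑ n ∈ Icc 1 u, f n) - κ * u‖ ≤ (4 * r) * Real.sqrt u := by
    intro u
    have := hyperbola r ψ hψ u
    rw [mul_comm κ]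
    exact this
  -- positivity of `L(1)`
  have hκpos : κ = ((‖κ‖ : ℝ) : ℂ) := by
    have hcl : IsClosed {z : ℂ | z.im = 0 ∧ 0 ≤ z.re} :=
      (isClosed_eq Complex.continuous_im continuous_const).inter
        (isClosed_le continuous_const Complex.continuous_re)
    have hlim : Filter.Tendsto (fun y : ℕ => (∑ n ∈ Icc 1 (y + 1), f n) / ((y + 1 : ℕ) : ℂ))
        Filter.atTop (nhds κ) := by
      rw [tendsto_iff_norm_sub_tendsto_zero]
      have h3 : Filter.Tendsto (fun y : ℕ => (4 * (r : ℝ)) / Real.sqrt ((y + 1 : ℕ) : ℝ))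
          Filter.atTop (nhds 0) := by
        apply Filter.Tendsto.div_atTop tendsto_const_nhds
        apply Real.tendsto_sqrt_atTop.comp
        exact tendsto_natCast_atTop_atTop.comp (Filter.tendsto_add_atTop_nat 1)
      refine squeeze_zero (fun _ => norm_nonneg _) (fun y => ?_) h3
      have hy : (0 : ℝ) < ((y + 1 : ℕ) : ℝ) := by positivity
      have hyc : (((y + 1 : ℕ) : ℂ)) ≠ 0 := by exact_mod_cast hy.ne'
      have e1 : (∑ n ∈ Icc 1 (y + 1), f n) / ((y + 1 : ℕ) : ℂ) - κ =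
          ((∑ n ∈ Icc 1 (y + 1), f n) - κ * ((y + 1 : ℕ) : ℂ)) / ((y + 1 : ℕ) : ℂ) := by
        rw [sub_div, mul_div_assoc, div_self hyc, mul_one]
      rw [e1, norm_div, Complex.norm_natCast, div_le_iff₀ hy]
      refine (hMf (y + 1)).trans (le_of_eq ?_)
      have hsq : Real.sqrt ((y + 1 : ℕ) : ℝ) * Real.sqrt ((y + 1 : ℕ) : ℝ) = ((y + 1 : ℕ) : ℝ) :=
        Real.mul_self_sqrt hy.le
      have hsp : 0 < Real.sqrt ((y + 1 : ℕ) : ℝ) := Real.sqrt_pos.mpr hy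
      rw [div_mul_eq_mul_div, eq_div_iff hsp.ne', mul_assoc, hsq]
    have hmem : κ ∈ {z : ℂ | z.im = 0 ∧ 0 ≤ z.re} := by
      refine hcl.mem_of_tendsto hlim (Filter.Eventually.of_forall fun y => ?_)
      have e2 : (∑ n ∈ Icc 1 (y + 1), f n) / ((y + 1 : ℕ) : ℂ) =
          (((∑ n ∈ Icc 1 (y + 1), lam ψ n) / ((y + 1 : ℕ) : ℝ) : ℝ) : ℂ) := by
        rw [Finset.sum_congr rfl (fun n _ => hflam n)]
        push_cast
        rfl
      rw [e2]
      refine ⟨Complex.ofReal_im _, ?_⟩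
      rw [Complex.ofReal_re]
      exact div_nonneg (Finset.sum_nonneg fun n _ => lam_nonneg r ψ h2 n) (Nat.cast_nonneg _)
    have h4 : κ = ((κ.re : ℝ) : ℂ) := by
      apply Complex.ext
      · simp
      · simp [hmem.1]
    have h5 : ‖κ‖ = κ.re := by
      rw [h4, Complex.norm_real, Complex.ofReal_re, Real.norm_of_nonneg hmem.2]
    rw [h5]
    exact h4
  have hκ2 : ‖κ‖ ≤ 2 * r := by
    have := LFunction_bound r ψ hψ 1 (by norm_num)
    simpa using this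
  have hβ0 : (β : ℂ) ≠ 1 := by
    intro h
    have : β = 1 := by exact_mod_cast h
    linarith
  have hmain := E1_formula f κ (4 * r) (by positivity) hMf
    (fun s hs => by rw [hfD]; exact DHF_summable ψ _ s hs)
    (fun z => ψ.LFunction z * gl2_Z z)
    (fun z _ => ((DirichletCharacter.differentiable_LFunction hψ).mul
      gl2_Z_differentiable).analyticAt z)
    (fun z hz => by
      have hz1 : z ≠ 1 := by
        rintro rfl
        simp at hz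
      change ψ.LFunction z * gl2_Z z = _
      rw [hfD, DHF_LSeries ψ _ z hz, gl2_Z_eq z hz1, DirichletCharacter.LFunction_modOne_eq]
      ring)
    (β : ℂ) (by rw [Complex.ofReal_re]; exact hβ) (by rw [Complex.ofReal_re]; exact hβ1.le) hβ0
    (by rw [h0, zero_mul]) x hx
  have e3 : ∑ n ∈ Icc 1 x, f n * (n : ℂ) ^ (-(β : ℂ)) =
      ((∑ m ∈ Icc 1 x, lam ψ m * (m : ℝ) ^ (-β) : ℝ) : ℂ) := by
    rw [Complex.ofReal_sum]
    apply Finset.sum_congr rfl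
    intro n _
    rw [hflam, Complex.ofReal_mul, Complex.ofReal_cpow (Nat.cast_nonneg _)]
    push_cast
    rfl
  have e4 : κ * (x : ℂ) ^ (1 - (β : ℂ)) / (1 - (β : ℂ)) =
      ((‖κ‖ * (x : ℝ) ^ (1 - β) / (1 - β) : ℝ) : ℂ) := by
    rw [Complex.ofReal_div, Complex.ofReal_mul, Complex.ofReal_cpow (Nat.cast_nonneg _), ← hκpos]
    push_cast
    rfl
  rw [e3, e4, ← Complex.ofReal_sub, Complex.norm_real, Complex.norm_real, Complex.ofReal_re,
    Real.norm_eq_abs, Real.norm_of_nonneg (by linarith : (0 : ℝ) ≤ β)] at hmain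
  have hpx : 0 ≤ (x : ℝ) ^ (1 / 2 - β) := Real.rpow_nonneg (Nat.cast_nonneg _) _
  have h6 : 100 * (4 * (r : ℝ) + ‖κ‖) * (1 + β) ≤ 2000 * r := by
    have := norm_nonneg κ
    nlinarith
  have h7 := mul_le_mul_of_nonneg_right h6 hpx
  have h8 := (abs_le.mp hmain).1
  linarith

end Pool.Agent.Lib.H18Q
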