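import Pool.Agent.Lib.H18Q.QDefs
import Pool.Agent.Lib.H68T.LAN

/-!
# Project H18Q, chunk Z0: zeros of entire functions
-/

open Finset

namespace Pool.Agent.Lib.H18Q

/-- An entire function, not identically zero, has finitely many zeros in a bounded set.
Proof: `AnalyticOnNhd.eqOn_zero_or_eventually_ne_zero_of_preconnected` on `Set.univ`, the zero set
is closed and discrete, its intersection with the (compact) closure of the bounded set is finite. -/
theorem zeros_finite {f : ℂ → ℂ} (hf : Differentiable ℂ f) (hne : ∃ c, f c ≠ 0) {S : Set ℂ}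
    (hS : Bornology.IsBounded S) : ({ρ : ℂ | f ρ = 0 ∧ ρ ∈ S}).Finite := by
  by_contra hinf
  have hinf' : ({ρ : ℂ | f ρ = 0 ∧ ρ ∈ S}).Infinite := hinf
  obtain ⟨x, -, hx⟩ := hinf'.exists_accPt_of_subset_isCompact hS.isCompact_closure
    (fun z hz => subset_closure hz.2)
  have hfa : AnalyticOnNhd ℂ f Set.univ := fun z _ => hf.analyticAt z
  have hfr : ∃ᶠ z in nhdsWithin x {x}ᶜ, f z = 0 :=
    (accPt_iff_frequently_nhdsNE.1 hx).mono (fun z hz => hz.1)
  obtain ⟨c, hc⟩ := hne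
  exact hc (hfa.eqOn_zero_of_preconnected_of_frequently_eq_zero isPreconnected_univ
    (Set.mem_univ x) hfr (Set.mem_univ c))

theorem mem_ZS {f : ℂ → ℂ} (hf : Differentiable ℂ f) (hne : ∃ c, f c ≠ 0) {S : Set ℂ}
    (hS : Bornology.IsBounded S) {ρ : ℂ} : ρ ∈ ZS f S ↔ f ρ = 0 ∧ ρ ∈ S := by
  unfold ZS
  rw [dif_pos (zeros_finite hf hne hS), Set.Finite.mem_toFinset]
  rfl

theorem mem_ZD {f : ℂ → ℂ} (hf : Differentiable ℂ f) (hne : ∃ c, f c ≠ 0) {c : ℂ} {R : ℝ}
    {ρ : ℂ} : ρ ∈ ZD f c R ↔ f ρ = 0 ∧ ‖ρ - c‖ ≤ R := by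
  unfold ZD
  rw [mem_ZS hf hne Metric.isBounded_closedBall, mem_closedBall_iff_norm]

theorem mem_ZR {f : ℂ → ℂ} (hf : Differentiable ℂ f) (hne : ∃ c, f c ≠ 0) {σ T : ℝ}
    {ρ : ℂ} : ρ ∈ ZR f σ T ↔ f ρ = 0 ∧ σ ≤ ρ.re ∧ ρ.re ≤ 1 ∧ |ρ.im| ≤ T := by
  unfold ZR
  rw [mem_ZS hf hne]
  · rfl
  · refine (Metric.isBounded_closedBall (x := (0 : ℂ)) (r := |σ| + 1 + |T|)).subset ?_
    intro z hz
    obtain ⟨h1, h2, h3⟩ := hz
    rw [mem_closedBall_zero_iff]
    refine (Complex.norm_le_abs_re_add_abs_im z).trans ?_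
    have h4 : |z.re| ≤ |σ| + 1 := by
      rw [abs_le]
      constructor
      · have := neg_abs_le σ
        linarith
      · have := abs_nonneg σ
        linarith
    have h5 : T ≤ |T| := le_abs_self T
    linarith

/-- The order at a point is finite, and positive at a zero
(`AnalyticAt.analyticOrderAt_ne_zero`, `analyticOrderAt_ne_top` from the identity theorem). -/
theorem order_ne_top {f : ℂ → ℂ} (hf : Differentiable ℂ f) (hne : ∃ c, f c ≠ 0) (ρ : ℂ) :
    analyticOrderAt f ρ ≠ ⊤ := by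
  intro h
  rw [analyticOrderAt_eq_top] at h
  have hfa : AnalyticOnNhd ℂ f Set.univ := fun z _ => hf.analyticAt z
  obtain ⟨c, hc⟩ := hne
  exact hc (hfa.eqOn_zero_of_preconnected_of_eventuallyEq_zero isPreconnected_univ
    (Set.mem_univ ρ) h (Set.mem_univ c))

theorem od_pos {f : ℂ → ℂ} (hf : Differentiable ℂ f) (hne : ∃ c, f c ≠ 0) {ρ : ℂ}
    (h : f ρ = 0) : 1 ≤ od f ρ := by
  have h1 : analyticOrderAt f ρ ≠ 0 := (hf.analyticAt ρ).analyticOrderAt_ne_zero.2 h
  have h2 : analyticOrderAt f ρ ≠ ⊤ := order_ne_top hf hne ρ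
  have h3 : ((od f ρ : ℕ) : ℕ∞) = analyticOrderAt f ρ := Nat.cast_analyticOrderNatAt h2
  rw [Nat.one_le_iff_ne_zero]
  intro h4
  rw [← h3, h4] at h1
  exact h1 rfl

theorem od_zero {f : ℂ → ℂ} (hf : Differentiable ℂ f) {ρ : ℂ}
    (h : f ρ ≠ 0) : od f ρ = 0 := by
  have h1 : analyticOrderAt f ρ = 0 := (hf.analyticAt ρ).analyticOrderAt_eq_zero.2 h
  unfold od analyticOrderNatAt
  rw [h1]
  rfl

theorem od_mul {f g : ℂ → ℂ} (hf : Differentiable ℂ f) (hg : Differentiable ℂ g)
    (hfn : ∃ c, f c ≠ 0) (hgn : ∃ c, g c ≠ 0) (ρ : ℂ) :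
    od (fun s => f s * g s) ρ = od f ρ + od g ρ := by
  exact analyticOrderNatAt_mul (hf.analyticAt ρ) (hg.analyticAt ρ) (order_ne_top hf hfn ρ)
    (order_ne_top hg hgn ρ)

/-- Zeros in a finite set can be divided out (with `od` as exponents); the quotient does not
vanish at the points of the set. Proof: induction on `S`; for one point
`AnalyticAt.analyticOrderNatAt_eq_iff` gives `f = (z - ρ)^(od f ρ) g` near `ρ`; the function equal
to `g` near `ρ` and to `f(z)/(z-ρ)^(od f ρ)` away from `ρ` is entire, its zeros and orders away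
from `ρ` are those of `f` (`od_mul`, `od_zero`). `LAN_remove` of `H68T/LAN` (import it if you like)
is the one-point statement. -/
theorem od_factor {f : ℂ → ℂ} (hf : Differentiable ℂ f) (hne : ∃ c, f c ≠ 0) (S : Finset ℂ) :
    ∃ h : ℂ → ℂ, Differentiable ℂ h ∧ (∀ ρ ∈ S, h ρ ≠ 0) ∧
      ∀ s, f s = (∏ ρ ∈ S, (s - ρ) ^ od f ρ) * h s := by
  classical
  induction S using Finset.induction_on with
  | empty => exact ⟨f, hf, by simp, by simp⟩
  | insert a S ha ih =>
    obtain ⟨h, hd, h0, hfac⟩ := ih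
    have hhne : ∃ c, h c ≠ 0 := by
      obtain ⟨c, hc⟩ := hne
      refine ⟨c, fun h1 => hc ?_⟩
      rw [hfac, h1, mul_zero]
    have hPd : Differentiable ℂ (fun s => ∏ ρ ∈ S, (s - ρ) ^ od f ρ) := by
      fun_prop
    have hPa : (∏ ρ ∈ S, (a - ρ) ^ od f ρ) ≠ 0 := by
      rw [Finset.prod_ne_zero_iff]
      intro ρ hρ
      refine pow_ne_zero _ (sub_ne_zero.2 ?_)
      rintro rfl
      exact ha hρ
    have hod : od h a = od f a := by
      have h1 := od_mul hPd hd ⟨a, hPa⟩ hhne a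
      have h2 : (fun s => (∏ ρ ∈ S, (s - ρ) ^ od f ρ) * h s) = f := by
        funext s
        exact (hfac s).symm
      rw [h2, od_zero hPd hPa, zero_add] at h1
      exact h1.symm
    have hane : ¬ ∀ᶠ z in nhds a, h z = 0 := by
      rw [← analyticOrderAt_eq_top]
      exact order_ne_top hd hhne a
    obtain ⟨n, g, hg, hga, hhg⟩ := Pool.Agent.Lib.H68T.LAN_remove (U := Set.univ)
      (fun z _ => hd.analyticAt z) (Set.mem_univ a) hane
    have hgd : Differentiable ℂ g := fun z => (hg z (Set.mem_univ z)).differentiableAt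
    have hn : n = od f a := by
      rw [← hod]
      have h1 : analyticOrderAt h a = n := by
        rw [(hd.analyticAt a).analyticOrderAt_eq_natCast]
        exact ⟨g, hg a (Set.mem_univ a), hga, Filter.Eventually.of_forall fun z => by
          rw [smul_eq_mul]; exact hhg z⟩
      unfold od analyticOrderNatAt
      rw [h1]
      rfl
    refine ⟨g, hgd, ?_, ?_⟩
    · intro ρ hρ
      rcases Finset.mem_insert.1 hρ with rfl | hρ
      · exact hga
      · intro h1
        apply h0 ρ hρ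
        rw [hhg, h1, mul_zero]
    · intro s
      rw [Finset.prod_insert ha, hfac s, hhg s, hn]
      ring

/-- Removing a zero: `f s = (s - a) (dslope f a s)`, so the orders of `dslope f a` are at most
those of `f`, and its zeros are zeros of `f`. -/
theorem od_dslope_le {f : ℂ → ℂ} (hf : Differentiable ℂ f) (hne : ∃ c, f c ≠ 0) {a : ℂ}
    (ha : f a = 0) (ρ : ℂ) : od (dslope f a) ρ ≤ od f ρ := by
  have hd : Differentiable ℂ (dslope f a) := by
    rw [← differentiableOn_univ]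
    exact (Complex.differentiableOn_dslope Filter.univ_mem).2 hf.differentiableOn
  have hfs : (fun s => (s - a) * dslope f a s) = f := by
    funext s
    have h1 := sub_smul_dslope f a s
    rw [smul_eq_mul, ha, sub_zero] at h1
    exact h1
  have hdn : ∃ c, dslope f a c ≠ 0 := by
    obtain ⟨c, hc⟩ := hne
    refine ⟨c, fun h1 => hc ?_⟩
    rw [← hfs]
    simp only [h1, mul_zero]
  have h1 := od_mul (f := fun s => s - a) (by fun_prop) hd ⟨a + 1, by simp⟩ hdn ρ
  rw [hfs] at h1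
  omega

theorem dslope_zero {f : ℂ → ℂ} {a : ℂ} (ha : f a = 0) {ρ : ℂ}
    (h : dslope f a ρ = 0) : f ρ = 0 := by
  have h1 := sub_smul_dslope f a ρ
  rw [h, smul_zero, ha, sub_zero] at h1
  exact h1.symm

end Pool.Agent.Lib.H18Q
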