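import Pool.Agent.Lib.H18Q.Z5B
import Pool.Agent.Lib.H18Q.Z0

/-!
# Project H18Q, chunk E4: the product used for the repulsion
-/

open Finset

namespace Pool.Agent.Lib.H18Q

open ArithmeticFunction Pool.Agent.Lib.H68T

theorem e4_sigma_eq {d r r' : ℕ} [NeZero d] (hr : r ∣ d) (hr' : r' ∣ d)
    (ψ : DirichletCharacter ℂ r) (ψ' : DirichletCharacter ℂ r') (h : r = r')
    (he : DirichletCharacter.changeLevel hr ψ = DirichletCharacter.changeLevel hr' ψ') :
    (⟨r, ψ⟩ : Σ r : ℕ, DirichletCharacter ℂ r) = ⟨r', ψ'⟩ := by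
  subst h
  rw [DirichletCharacter.changeLevel_injective hr he]

theorem e4_shift_diff {f : ℂ → ℂ} (hf : Differentiable ℂ f) (a s : ℂ) :
    DifferentiableAt ℂ (fun z => f (z + a)) s :=
  (hf _).comp s (differentiableAt_id.add_const _)

theorem e4_logDeriv_shift (f : ℂ → ℂ) (a s : ℂ) :
    logDeriv (fun z => f (z + a)) s = logDeriv f (s + a) := by
  rw [logDeriv_apply, logDeriv_apply, deriv_comp_add_const]

theorem e4_term (f : ℕ → ℂ) (η : ℝ) (s : ℂ) (n : ℕ) :
    LSeries.term f (s + η) n =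
      LSeries.term (fun n => f n * ((((n : ℝ) ^ (-η) : ℝ)) : ℂ)) s n := by
  rcases Nat.eq_zero_or_pos n with rfl | hn
  · simp [LSeries.term_zero]
  · have hn0 : n ≠ 0 := hn.ne'
    have hnc : (n : ℂ) ≠ 0 := by exact_mod_cast hn0
    rw [LSeries.term_of_ne_zero hn0, LSeries.term_of_ne_zero hn0, Complex.cpow_add _ _ hnc,
      Complex.ofReal_cpow (Nat.cast_nonneg n)]
    push_cast
    rw [Complex.cpow_neg]
    have h1 : (n : ℂ) ^ s ≠ 0 := by simp [Complex.cpow_eq_zero_iff, hnc]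
    have h2 : (n : ℂ) ^ (η : ℂ) ≠ 0 := by simp [Complex.cpow_eq_zero_iff, hnc]
    field_simp

theorem e4_LS (f : ℕ → ℂ) (η : ℝ) (s : ℂ) :
    LSeries f (s + η) = LSeries (fun n => f n * ((((n : ℝ) ^ (-η) : ℝ)) : ℂ)) s :=
  tsum_congr (e4_term f η s)

theorem e4_sum {f : ℕ → ℂ} {η : ℝ} {s : ℂ} (h : LSeriesSummable f (s + η)) :
    LSeriesSummable (fun n => f n * ((((n : ℝ) ^ (-η) : ℝ)) : ℂ)) s :=
  Summable.congr h (fun n => e4_term f η s n)

theorem e4_sumΛ {N : ℕ} (χ : DirichletCharacter ℂ N) {s : ℂ} (hs : 1 < s.re) :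
    LSeriesSummable (fun n => (Λ n : ℂ) * χ (n : ZMod N)) s := by
  have h := DirichletCharacter.LSeriesSummable_twist_vonMangoldt χ hs
  refine (LSeriesSummable_congr s ?_).1 h
  intro n _
  simp [mul_comm]

/-- The product of the lifts of two characters. -/
theorem e4_lift {q r : ℕ} [NeZero q] [NeZero r] (χ : DirichletCharacter ℂ q)
    (ψ : DirichletCharacter ℂ r) (n : ℕ) :
    (DirichletCharacter.changeLevel (Dvd.intro _ rfl : q ∣ q * r) χ *
      DirichletCharacter.changeLevel (Dvd.intro_left _ rfl : r ∣ q * r) ψ)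
        (n : ZMod (q * r)) = χ (n : ZMod q) * ψ (n : ZMod r) := by
  by_cases h : IsCoprime (n : ℤ) ((q * r : ℕ) : ℤ)
  · have h1 := DirichletCharacter.changeLevel_eq_cast_of_dvd' χ (Dvd.intro _ rfl : q ∣ q * r) h
    have h2 := DirichletCharacter.changeLevel_eq_cast_of_dvd' ψ
      (Dvd.intro_left _ rfl : r ∣ q * r) h
    rw [MulChar.mul_apply]
    push_cast at h1 h2 ⊢
    rw [h1, h2]
  · have h3 : ¬ n.Coprime (q * r) := by
      intro h4
      exact h (Nat.isCoprime_iff_coprime.2 h4)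
    have h5 : (DirichletCharacter.changeLevel (Dvd.intro _ rfl : q ∣ q * r) χ *
      DirichletCharacter.changeLevel (Dvd.intro_left _ rfl : r ∣ q * r) ψ)
        (n : ZMod (q * r)) = 0 := by
      apply MulChar.map_nonunit
      rw [ZMod.isUnit_iff_coprime]
      exact h3
    rw [h5]
    by_cases h6 : n.Coprime q
    · have h7 : ¬ n.Coprime r := fun h8 => h3 (Nat.Coprime.mul_right h6 h8)
      rw [MulChar.map_nonunit ψ (by rw [ZMod.isUnit_iff_coprime]; exact h7), mul_zero]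
    · rw [MulChar.map_nonunit χ (by rw [ZMod.isUnit_iff_coprime]; exact h6), zero_mul]

theorem e4_lift_ne {q r : ℕ} [NeZero q] [NeZero r] (χ : DirichletCharacter ℂ q)
    (ψ : DirichletCharacter ℂ r) (hχ : χ.IsPrimitive) (hψ : ψ.IsPrimitive) (h2 : ψ ^ 2 = 1)
    (hne : (⟨q, χ⟩ : Σ r : ℕ, DirichletCharacter ℂ r) ≠ ⟨r, ψ⟩) :
    DirichletCharacter.changeLevel (Dvd.intro _ rfl : q ∣ q * r) χ *
      DirichletCharacter.changeLevel (Dvd.intro_left _ rfl : r ∣ q * r) ψ ≠ 1 := by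
  intro h
  apply hne
  have h3 : DirichletCharacter.changeLevel (Dvd.intro_left _ rfl : r ∣ q * r) ψ *
      DirichletCharacter.changeLevel (Dvd.intro_left _ rfl : r ∣ q * r) ψ = 1 := by
    rw [← map_mul, ← pow_two, h2, map_one]
  have h4 : DirichletCharacter.changeLevel (Dvd.intro _ rfl : q ∣ q * r) χ =
      DirichletCharacter.changeLevel (Dvd.intro_left _ rfl : r ∣ q * r) ψ := by
    calc DirichletCharacter.changeLevel (Dvd.intro _ rfl : q ∣ q * r) χ
        = DirichletCharacter.changeLevel (Dvd.intro _ rfl : q ∣ q * r) χ *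
          (DirichletCharacter.changeLevel (Dvd.intro_left _ rfl : r ∣ q * r) ψ *
          DirichletCharacter.changeLevel (Dvd.intro_left _ rfl : r ∣ q * r) ψ) := by
          rw [h3, mul_one]
      _ = (DirichletCharacter.changeLevel (Dvd.intro _ rfl : q ∣ q * r) χ *
          DirichletCharacter.changeLevel (Dvd.intro_left _ rfl : r ∣ q * r) ψ) *
          DirichletCharacter.changeLevel (Dvd.intro_left _ rfl : r ∣ q * r) ψ := by
          rw [mul_assoc]
      _ = _ := by rw [h, one_mul]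
  have : NeZero (q * r) := ⟨Nat.mul_ne_zero (NeZero.ne q) (NeZero.ne r)⟩
  have h5 : q = r := by
    have h6 := DirichletCharacter.conductor_changeLevel χ (Dvd.intro _ rfl : q ∣ q * r)
    have h7 := DirichletCharacter.conductor_changeLevel ψ (Dvd.intro_left _ rfl : r ∣ q * r)
    have h8 : χ.conductor = q := hχ
    have h9 : ψ.conductor = r := hψ
    rw [← h8, ← h6, h4, h7, h9]
  exact e4_sigma_eq _ _ χ ψ h5 h4

theorem e4_ld_char {N : ℕ} [NeZero N] (χ : DirichletCharacter ℂ N) (η : ℝ) (hη : 0 ≤ η) (s : ℂ)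
    (hs : 1 < s.re) : logDeriv (fun z => χ.LFunction (z + (η : ℂ))) s =
      -LSeries (fun n => (Λ n : ℂ) * χ (n : ZMod N) * ((((n : ℝ) ^ (-η) : ℝ)) : ℂ)) s := by
  have h1 : 1 < (s + (η : ℂ)).re := by
    rw [Complex.add_re, Complex.ofReal_re]
    linarith
  rw [e4_logDeriv_shift, ← e4_LS (fun n => (Λ n : ℂ) * χ (n : ZMod N)) η s, lab1_char N χ _ h1,
    neg_neg]

theorem e4_sum_char {N : ℕ} (χ : DirichletCharacter ℂ N) (η : ℝ) (hη : 0 ≤ η) (s : ℂ)
    (hs : 1 < s.re) : LSeriesSummable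
      (fun n => (Λ n : ℂ) * χ (n : ZMod N) * ((((n : ℝ) ^ (-η) : ℝ)) : ℂ)) s := by
  have h1 : 1 < (s + (η : ℂ)).re := by
    rw [Complex.add_re, Complex.ofReal_re]
    linarith
  exact e4_sum (e4_sumΛ χ h1)

theorem e4_ld_triv {N : ℕ} [NeZero N] (s : ℂ) (hs : 1 < s.re) :
    logDeriv (DirichletCharacter.LFunctionTrivChar₁ N) s = 1 / (s - 1) -
      LSeries (fun n => (Λ n : ℂ) * (1 : DirichletCharacter ℂ N) (n : ZMod N)) s := by
  have hs1 : s ≠ 1 := by
    rintro rfl
    simp at hs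
  have hs2 : s - 1 ≠ 0 := sub_ne_zero.2 hs1
  have hL : DirichletCharacter.LFunctionTrivChar N s ≠ 0 :=
    DirichletCharacter.LFunction_ne_zero_of_one_le_re (1 : DirichletCharacter ℂ N) (Or.inr hs1)
      hs.le
  rw [logDeriv_apply, DirichletCharacter.deriv_LFunctionTrivChar₁_apply_of_ne_one N hs1,
    lab1_char N 1 s hs, logDeriv_apply]
  have h3 : DirichletCharacter.LFunctionTrivChar₁ N s =
      (s - 1) * DirichletCharacter.LFunctionTrivChar N s := by
    rw [DirichletCharacter.LFunctionTrivChar₁, Function.update_of_ne hs1]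
  rw [h3, sub_neg_eq_add]
  change ((s - 1) * deriv (DirichletCharacter.LFunctionTrivChar N) s +
    DirichletCharacter.LFunctionTrivChar N s) /
    ((s - 1) * DirichletCharacter.LFunctionTrivChar N s) = 1 / (s - 1) +
    deriv (DirichletCharacter.LFunctionTrivChar N) s / DirichletCharacter.LFunctionTrivChar N s
  field_simp
  ring

/-- The coefficients `χ(n) (1 + ψ(n) n^(β-1))`. -/
noncomputable def cE (r : ℕ) (ψ : DirichletCharacter ℂ r) (β : ℝ)
    (p : Σ r : ℕ, DirichletCharacter ℂ r) (n : ℕ) : ℂ :=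
  p.2 (n : ZMod p.1) * (1 + ψ (n : ZMod r) * (((n : ℝ) ^ (β - 1) : ℝ) : ℂ))

theorem cE_norm (r : ℕ) (ψ : DirichletCharacter ℂ r) (β : ℝ) (hβ : β < 1)
    (p : Σ r : ℕ, DirichletCharacter ℂ r) (n : ℕ) : ‖cE r ψ β p n‖ ≤ 2 := by
  unfold cE
  rw [norm_mul]
  have h1 : ‖p.2 (n : ZMod p.1)‖ ≤ 1 := DirichletCharacter.norm_le_one p.2 _
  have h2 : ‖(1 : ℂ) + ψ (n : ZMod r) * (((n : ℝ) ^ (β - 1) : ℝ) : ℂ)‖ ≤ 2 := by
    refine (norm_add_le _ _).trans ?_
    rw [norm_one, norm_mul]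
    have h3 : ‖ψ (n : ZMod r)‖ ≤ 1 := DirichletCharacter.norm_le_one ψ _
    have h4 : ‖(((n : ℝ) ^ (β - 1) : ℝ) : ℂ)‖ ≤ 1 := by
      rw [Complex.norm_real, Real.norm_of_nonneg (Real.rpow_nonneg (Nat.cast_nonneg n) _)]
      rcases Nat.eq_zero_or_pos n with rfl | hn
      · rw [Nat.cast_zero, Real.zero_rpow (by linarith)]
        norm_num
      · exact Real.rpow_le_one_of_one_le_of_nonpos (by exact_mod_cast hn) (by linarith)
    have h5 : ‖ψ (n : ZMod r)‖ * ‖(((n : ℝ) ^ (β - 1) : ℝ) : ℂ)‖ ≤ 1 * 1 :=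
      mul_le_mul h3 h4 (norm_nonneg _) (by norm_num)
    linarith
  calc ‖p.2 (n : ZMod p.1)‖ * ‖(1 : ℂ) + ψ (n : ZMod r) * (((n : ℝ) ^ (β - 1) : ℝ) : ℂ)‖
      ≤ 1 * 2 := mul_le_mul h1 h2 (norm_nonneg _) (by norm_num)
    _ = 2 := by norm_num

/-- For every `p ∈ PC Q` there is an entire function `F` with growth data, vanishing at the zeros
of `Lx r ψ β p`, and with `F'/F = - ∑ Λ(n) χ(n) (1 + ψ(n) n^(-η)) n^(-s)` (`+ 1/(s-1)` for `p0`),
`η = 1 - β`, for `Re s > 1`.

Proof. (1) `p = (q, χ) ≠ p0, (r, ψ)`: `F s = L(s, χ) L(s + η, χψ)`, `χψ` the product of the lifts to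
level `q r ≤ Q²`; it is not `1`: otherwise the lift of `χ` is the inverse of the lift of `ψ`, which
is the lift of `ψ` (`ψ² = 1`), and then `(q, χ) = (r, ψ)` (primitive characters; compare
`KER_sigma_eq` in `H68T/KER`). `LDat_shift` twice (`η = 0` and `η`; `χ ≠ 1` by `ne_one_of_ne_p0`),
`LDat.mul`; `lab1_char` for both factors; `Λ(n) (χψ)(n) n^(-(s+η)) = Λ(n) χ(n) ψ(n) n^(-η) n^(-s)`
(`changeLevel` values at `n` coprime to `q r`, both sides `0` otherwise; `LSeries_add`).
(2) `p = (r, ψ)`: `F s = dslope L(ψ) β (s) · LFunctionTrivChar₁ r (s + η)`: `LDat_dslope`,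
`LDat_shift_triv`. For `Re s > 1`, `logDeriv (dslope L β) = L'/L - 1/(s - β)`
(`XZ4_dslope_logderiv`), and `LFunctionTrivChar₁ r (s+η) = (s + η - 1) L(s + η, 1_r)`, whose
logarithmic derivative is `1/(s + η - 1) + L'/L(s + η, 1_r)`, and `s + η - 1 = s - β`: the two
fractions cancel. `ψ(n) · ψ(n) = 1_r(n)`. (3) `p = p0`: `F s = gl2_Z s · L(s + η, ψ)`
(`LDat_shift_triv` with `N = 1`, `η = 0`, and `LDat_shift`); `lab1_Z` gives `gl2_Z'/gl2_Z =
1/(s-1) - LSeries Λ`. `C0` is the sum of the two constants. `β ≥ 7/8` gives `η ≤ 1/8`. -/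
theorem E4_data : ∃ C0 K : ℝ, 1 ≤ C0 ∧ ∀ Q : ℕ, K ≤ Q → ∀ (r : ℕ) [NeZero r]
    (ψ : DirichletCharacter ℂ r), r ≤ Q → ψ.IsPrimitive → ψ ≠ 1 → ψ ^ 2 = 1 → ∀ β : ℝ,
    7 / 8 ≤ β → β < 1 → ψ.LFunction (β : ℂ) = 0 → ∀ p ∈ PC Q,
    ∃ F : ℂ → ℂ, LDat C0 (Real.log Q) ((Q : ℝ) ^ 10) F ∧ (∀ ρ, Lx r ψ β p ρ = 0 → F ρ = 0) ∧
      ∀ s : ℂ, 1 < s.re → logDeriv F s = -LSeries (fun n => (Λ n : ℂ) * cE r ψ β p n) s +
        (open Classical in if p = p0 then 1 / (s - 1) else 0) := by
  obtain ⟨C1, K1, hC1, h1⟩ := LDat_shift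
  obtain ⟨C2, K2, hC2, h2⟩ := LDat_shift_triv
  obtain ⟨C3, K3, hC3, h3⟩ := LDat_dslope
  refine ⟨C1 + C1 + C2 + C3, max (max K1 K2) (max K3 1), by linarith, ?_⟩
  intro Q hQ r _ ψ hrQ hprim hψ1 hψ2 β hβ hβ1 hzero p hp
  have hK1 : K1 ≤ (Q : ℝ) := le_trans (le_trans (le_max_left _ _) (le_max_left _ _)) hQ
  have hK2 : K2 ≤ (Q : ℝ) := le_trans (le_trans (le_max_right _ _) (le_max_left _ _)) hQ
  have hK3 : K3 ≤ (Q : ℝ) := le_trans (le_trans (le_max_left _ _) (le_max_right _ _)) hQ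
  have hQ1 : (1 : ℝ) ≤ (Q : ℝ) := le_trans (le_trans (le_max_right _ _) (le_max_right _ _)) hQ
  have hQ1' : 1 ≤ Q := by exact_mod_cast hQ1
  have hlog : 0 ≤ Real.log Q := Real.log_nonneg hQ1
  have hη : 0 ≤ 1 - β := by linarith
  have hη8 : 1 - β ≤ 1 / 8 := by linarith
  have hβη : β - 1 = -(1 - β) := by ring
  have hrQ2 : r ≤ Q ^ 2 := hrQ.trans (Nat.le_self_pow (by norm_num) Q)
  have hψp0 : (⟨r, ψ⟩ : Σ r : ℕ, DirichletCharacter ℂ r) ≠ p0 := by
    intro h
    have hr1 : r = 1 := congrArg Sigma.fst h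
    subst hr1
    apply hψ1
    have h' : (⟨1, ψ⟩ : Σ r : ℕ, DirichletCharacter ℂ r) = ⟨1, 1⟩ := h
    exact eq_of_heq (Sigma.mk.inj h').2
  by_cases hpψ : p = ⟨r, ψ⟩
  · -- the exceptional character
    subst hpψ
    refine ⟨fun s => dslope ψ.LFunction (β : ℂ) s *
      DirichletCharacter.LFunctionTrivChar₁ r (s + ((1 - β : ℝ) : ℂ)), ?_, ?_, ?_⟩
    · have hA := h3 Q hK3 r ψ hrQ hψ1 β (by linarith) hβ1 hzero
      have hB := h2 Q hK2 r hrQ2 (1 - β) hη hη8
      exact (hA.mul hB).mono (by linarith) le_rfl hlog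
    · intro ρ hρ
      rw [Lx_mk, Lp_mk r ψ hψp0] at hρ
      simp only [hρ, zero_mul]
    · intro s hs
      rw [if_neg hψp0, add_zero]
      have hsβ : s ≠ (β : ℂ) := by
        rintro rfl
        rw [Complex.ofReal_re] at hs
        linarith
      have hLs : ψ.LFunction s ≠ 0 :=
        DirichletCharacter.LFunction_ne_zero_of_one_le_re ψ (Or.inl hψ1) hs.le
      have hd := DirichletCharacter.differentiable_LFunction hψ1
      have hs' : 1 < (s + ((1 - β : ℝ) : ℂ)).re := by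
        rw [Complex.add_re, Complex.ofReal_re]
        linarith
      have hs'1 : s + ((1 - β : ℝ) : ℂ) ≠ 1 := by
        intro h
        rw [h] at hs'
        simp at hs'
      have hT : DirichletCharacter.LFunctionTrivChar₁ r (s + ((1 - β : ℝ) : ℂ)) ≠ 0 := by
        rw [DirichletCharacter.LFunctionTrivChar₁, Function.update_of_ne hs'1]
        exact mul_ne_zero (sub_ne_zero.2 hs'1)
          (DirichletCharacter.LFunction_ne_zero_of_one_le_re (1 : DirichletCharacter ℂ r)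
            (Or.inr hs'1) hs'.le)
      have hdne : dslope ψ.LFunction (β : ℂ) s ≠ 0 := fun h => hLs (dslope_zero hzero h)
      rw [logDeriv_mul s hdne hT (Pool.Agent.Lib.H68T.XZ4_dslope_diff hd _ s)
        (e4_shift_diff (DirichletCharacter.differentiable_LFunctionTrivChar₁ r) _ s)]
      rw [e4_logDeriv_shift, e4_ld_triv _ hs', logDeriv_apply,
        Pool.Agent.Lib.H68T.XZ4_dslope_logderiv hd _ s hzero hsβ hLs]
      have h10 := lab1_char r ψ s hs
      rw [logDeriv_apply] at h10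
      have h11 : deriv ψ.LFunction s / ψ.LFunction s =
          -LSeries (fun n => (Λ n : ℂ) * ψ (n : ZMod r)) s := by
        rw [h10, neg_neg]
      rw [h11, e4_LS]
      have h12 : s + ((1 - β : ℝ) : ℂ) - 1 = s - (β : ℂ) := by
        push_cast
        ring
      rw [h12]
      have h13 : (fun n => (Λ n : ℂ) * cE r ψ β ⟨r, ψ⟩ n) =
          (fun n => (Λ n : ℂ) * ψ (n : ZMod r)) + (fun n => (Λ n : ℂ) *
            (1 : DirichletCharacter ℂ r) (n : ZMod r) *
              ((((n : ℝ) ^ (-(1 - β)) : ℝ)) : ℂ)) := by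
        funext n
        have h14 : ψ (n : ZMod r) * ψ (n : ZMod r) =
            (1 : DirichletCharacter ℂ r) (n : ZMod r) := by
          rw [← MulChar.mul_apply, ← pow_two, hψ2]
        simp only [cE, Pi.add_apply, hβη]
        rw [← h14]
        ring
      rw [h13, LSeries_add (e4_sumΛ ψ hs) (e4_sum_char 1 (1 - β) hη s hs)]
      ring
  · by_cases hpp : p = p0
    · -- the trivial character
      subst hpp
      refine ⟨fun s => DirichletCharacter.LFunctionTrivChar₁ 1 (s + ((0 : ℝ) : ℂ)) *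
        ψ.LFunction (s + ((1 - β : ℝ) : ℂ)), ?_, ?_, ?_⟩
      · have hA := h2 Q hK2 1 (Nat.one_le_pow _ _ hQ1') 0 le_rfl (by norm_num)
        have hB := h1 Q hK1 r ψ hrQ2 hψ1 (1 - β) hη hη8
        exact (hA.mul hB).mono (by linarith) le_rfl hlog
      · intro ρ hρ
        rw [Lx_of_ne r ψ β p0 hpψ, Lp_p0] at hρ
        have h4 : DirichletCharacter.LFunctionTrivChar₁ 1 (ρ + ((0 : ℝ) : ℂ)) = 0 := by
          rw [Complex.ofReal_zero, add_zero]
          exact hρ
        simp only [h4, zero_mul]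
      · intro s hs
        rw [if_pos rfl]
        have hs' : 1 < (s + ((1 - β : ℝ) : ℂ)).re := by
          rw [Complex.add_re, Complex.ofReal_re]
          linarith
        have hs1 : s ≠ 1 := by
          rintro rfl
          simp at hs
        have hLs : ψ.LFunction (s + ((1 - β : ℝ) : ℂ)) ≠ 0 :=
          DirichletCharacter.LFunction_ne_zero_of_one_le_re ψ (Or.inl hψ1) hs'.le
        have hd := DirichletCharacter.differentiable_LFunction hψ1
        have hT : DirichletCharacter.LFunctionTrivChar₁ 1 (s + ((0 : ℝ) : ℂ)) ≠ 0 := by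
          rw [Complex.ofReal_zero, add_zero, DirichletCharacter.LFunctionTrivChar₁,
            Function.update_of_ne hs1]
          exact mul_ne_zero (sub_ne_zero.2 hs1)
            (DirichletCharacter.LFunction_ne_zero_of_one_le_re (1 : DirichletCharacter ℂ 1)
              (Or.inr hs1) hs.le)
        rw [logDeriv_mul s hT hLs
          (e4_shift_diff (DirichletCharacter.differentiable_LFunctionTrivChar₁ 1) _ s)
          (e4_shift_diff hd _ s)]
        rw [e4_logDeriv_shift, Complex.ofReal_zero, add_zero, e4_ld_triv s hs,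
          e4_ld_char ψ (1 - β) hη s hs]
        have h13 : (fun n => (Λ n : ℂ) * cE r ψ β p0 n) =
            (fun n => (Λ n : ℂ) * (1 : DirichletCharacter ℂ 1) (n : ZMod 1)) +
            (fun n => (Λ n : ℂ) * ψ (n : ZMod r) *
              ((((n : ℝ) ^ (-(1 - β)) : ℝ)) : ℂ)) := by
          funext n
          have h15 : (1 : DirichletCharacter ℂ 1) (n : ZMod 1) = 1 := by
            rw [MulChar.one_apply]
            exact isUnit_of_subsingleton _
          have h16 : p0.2 (n : ZMod p0.1) = 1 := h15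
          simp only [cE, Pi.add_apply, hβη, h16]
          rw [h15]
          ring
        rw [h13, LSeries_add (e4_sumΛ 1 hs) (e4_sum_char ψ (1 - β) hη s hs)]
        ring
    · -- the general case
      obtain ⟨q, χ⟩ := p
      have hq := (mem_PC.mp hp).1
      have hqQ := (mem_PC.mp hp).2.1
      have hχprim := (mem_PC.mp hp).2.2
      have hχ1 : χ ≠ 1 := ne_one_of_ne_p0 hp hpp
      simp only at hq hqQ hχprim
      have hNq : NeZero q := ⟨by omega⟩
      have hNqr : NeZero (q * r) := ⟨Nat.mul_ne_zero (NeZero.ne q) (NeZero.ne r)⟩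
      have hθ := e4_lift_ne χ ψ hχprim hprim hψ2 hpψ
      have hθv := e4_lift χ ψ
      set θ : DirichletCharacter ℂ (q * r) :=
        DirichletCharacter.changeLevel (Dvd.intro _ rfl : q ∣ q * r) χ *
        DirichletCharacter.changeLevel (Dvd.intro_left _ rfl : r ∣ q * r) ψ with hθdef
      have hqr : q * r ≤ Q ^ 2 := by
        rw [pow_two]
        exact Nat.mul_le_mul hqQ hrQ
      have hqQ2 : q ≤ Q ^ 2 := hqQ.trans (Nat.le_self_pow (by norm_num) Q)
      refine ⟨fun s => χ.LFunction (s + ((0 : ℝ) : ℂ)) *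
        θ.LFunction (s + ((1 - β : ℝ) : ℂ)), ?_, ?_, ?_⟩
      · have hA := h1 Q hK1 q χ hqQ2 hχ1 0 le_rfl (by norm_num)
        have hB := h1 Q hK1 (q * r) θ hqr hθ (1 - β) hη hη8
        exact (hA.mul hB).mono (by linarith) le_rfl hlog
      · intro ρ hρ
        rw [Lx_of_ne r ψ β _ hpψ, Lp_mk q χ hpp] at hρ
        have h4 : χ.LFunction (ρ + ((0 : ℝ) : ℂ)) = 0 := by
          rw [Complex.ofReal_zero, add_zero]
          exact hρ
        simp only [h4, zero_mul]
      · intro s hs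
        rw [if_neg hpp, add_zero]
        have hs' : 1 < (s + ((1 - β : ℝ) : ℂ)).re := by
          rw [Complex.add_re, Complex.ofReal_re]
          linarith
        have hLs : θ.LFunction (s + ((1 - β : ℝ) : ℂ)) ≠ 0 :=
          DirichletCharacter.LFunction_ne_zero_of_one_le_re θ (Or.inl hθ) hs'.le
        have hd := DirichletCharacter.differentiable_LFunction hθ
        have hdχ := DirichletCharacter.differentiable_LFunction hχ1
        have hT : χ.LFunction (s + ((0 : ℝ) : ℂ)) ≠ 0 := by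
          rw [Complex.ofReal_zero, add_zero]
          exact DirichletCharacter.LFunction_ne_zero_of_one_le_re χ (Or.inl hχ1) hs.le
        rw [logDeriv_mul s hT hLs (e4_shift_diff hdχ _ s) (e4_shift_diff hd _ s)]
        rw [e4_logDeriv_shift, Complex.ofReal_zero, add_zero, e4_ld_char θ (1 - β) hη s hs]
        have h10 : logDeriv χ.LFunction s =
            -LSeries (fun n => (Λ n : ℂ) * χ (n : ZMod q)) s := by
          rw [lab1_char q χ s hs, neg_neg]
        rw [h10]
        have h13 : (fun n => (Λ n : ℂ) * cE r ψ β ⟨q, χ⟩ n) =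
            (fun n => (Λ n : ℂ) * χ (n : ZMod q)) +
            (fun n => (Λ n : ℂ) * θ (n : ZMod (q * r)) *
              ((((n : ℝ) ^ (-(1 - β)) : ℝ)) : ℂ)) := by
          funext n
          simp only [cE, Pi.add_apply, hβη, hθv]
          ring
        rw [h13, LSeries_add (e4_sumΛ χ hs) (e4_sum_char θ (1 - β) hη s hs)]
        ring

end Pool.Agent.Lib.H18Q
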