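import Pool.Agent.Lib.H18Q.E4
import Pool.Agent.Lib.H18Q.D1

/-!
# Project H18Q, chunk E5: detection of zeros by `χ(n) (1 + ψ(n) n^(-η))`
-/

open Finset

namespace Pool.Agent.Lib.H18Q

open ArithmeticFunction Pool.Agent.Lib.H68T

theorem E5_analytic (c : ℕ → ℂ) (hc : ∀ n, ‖c n‖ ≤ 2) (s₀ : ℂ) (h : 1 < s₀.re) :
    AnalyticAt ℂ (LSeries (fun n => (Λ n : ℂ) * c n)) s₀ := by
  apply LSeries_analyticOnNhd (fun n => (Λ n : ℂ) * c n) s₀
  have h2 : ((1 : ℝ) : EReal) < (s₀.re : EReal) := by exact_mod_cast h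
  exact lt_of_le_of_lt (d0_abs c hc) h2

theorem E5_series (c : ℕ → ℂ) (hc : ∀ n, ‖c n‖ ≤ 2) (F : ℂ → ℂ) (b : Prop) [Decidable b]
    (hF : ∀ s : ℂ, 1 < s.re → logDeriv F s = -LSeries (fun n => (Λ n : ℂ) * c n) s +
        (if b then 1 / (s - 1) else 0)) (lam : ℝ)
    (hlam : 0 < lam) (k : ℕ) (v : ℝ) :
    ‖(lam : ℂ) ^ (k + 1) * (iteratedDeriv k (logDeriv F) (1 + lam + v * Complex.I) /
      (k.factorial : ℂ))‖ ≤
    ‖∑' n : ℕ, ((Λ n * Jk lam k n : ℝ) : ℂ) * c n *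
      (n : ℂ) ^ (-(v * Complex.I))‖ +
      (if b then ‖(lam : ℂ) / (lam + v * Complex.I)‖ ^ (k + 1) else 0) := by
  have hre := D1_re lam v hlam
  have hser := D0_series c hc lam hlam k v
  have hnser : ‖(lam : ℂ) ^ (k + 1) * (iteratedDeriv k (LSeries (fun n => (Λ n : ℂ) * c n))
      (1 + lam + v * Complex.I) / (k.factorial : ℂ))‖ =
      ‖∑' n : ℕ, ((Λ n * Jk lam k n : ℝ) : ℂ) * c n *
        (n : ℂ) ^ (-(v * Complex.I))‖ := by
    rw [hser, norm_mul, norm_pow, norm_neg, norm_one, one_pow, one_mul]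
  by_cases hb : b
  · rw [if_pos hb]
    have hev : logDeriv F =ᶠ[nhds ((1 : ℂ) + lam + v * Complex.I)]
        fun s => 1 / (s - 1) - LSeries (fun n => (Λ n : ℂ) * c n) s := by
      filter_upwards [D1_near _ hre] with s hs
      rw [hF s hs, if_pos hb]
      ring
    have hd := (hev.iteratedDeriv k).eq_of_nhds
    have hne : ((1 : ℂ) + lam + v * Complex.I) - 1 ≠ 0 := by
      intro h0
      have := congrArg Complex.re h0
      simp at this
      exact hlam.ne' this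
    have hA1 : ContDiffAt ℂ k (fun s : ℂ => 1 / (s - 1)) ((1 : ℂ) + lam + v * Complex.I) := by
      apply ContDiffAt.div contDiffAt_const
      · exact contDiffAt_id.sub contDiffAt_const
      · exact hne
    have hA2 : ContDiffAt ℂ k (LSeries (fun n => (Λ n : ℂ) * c n))
        ((1 : ℂ) + lam + v * Complex.I) := (E5_analytic c hc _ hre).contDiffAt
    rw [hd, iteratedDeriv_fun_sub hA1 hA2, D1_inv, sub_div, mul_sub]
    have hk : (k.factorial : ℂ) ≠ 0 := by exact_mod_cast k.factorial_ne_zero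
    have h3 : (lam : ℂ) ^ (k + 1) * ((-1) ^ k * (k.factorial : ℂ) *
        (1 / ((1 : ℂ) + lam + v * Complex.I - 1) ^ (k + 1)) / (k.factorial : ℂ)) =
        (-1) ^ k * ((lam : ℂ) / (lam + v * Complex.I)) ^ (k + 1) := by
      have h4 : (1 : ℂ) + lam + v * Complex.I - 1 = lam + v * Complex.I := by ring
      rw [h4] at hne ⊢
      rw [div_pow]
      field_simp
    rw [h3]
    refine (norm_sub_le _ _).trans ?_
    rw [hnser, norm_mul, norm_pow, norm_neg, norm_one, one_pow, one_mul, norm_pow]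
    linarith
  · rw [if_neg hb, add_zero]
    have hev : logDeriv F =ᶠ[nhds ((1 : ℂ) + lam + v * Complex.I)]
        fun s => -LSeries (fun n => (Λ n : ℂ) * c n) s := by
      filter_upwards [D1_near _ hre] with s hs
      rw [hF s hs, if_neg hb, add_zero]
    have hd := (hev.iteratedDeriv k).eq_of_nhds
    rw [hd, iteratedDeriv_fun_neg, neg_div, mul_neg, norm_neg, hnser]

/-- Detection. Proof: as `detect_primes` in chunk `D1`, with `F` of `E4_data` and `c = cE r ψ β p`: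
`detect` for `F` (`T = Q^10`, `|v| ≤ Q^9`), `logDeriv F` near `s₀` from `E4_data` (open set
`Re s > 1`), `D0_series`, `D0_trunc`; the pole of `p0` contributes at most `(2 lam)^K1` as
`|v| ≥ 1/2`. -/
theorem E5_detect : ∃ C3 K : ℝ, 1 ≤ C3 ∧ ∀ Q : ℕ, K ≤ Q → ∀ (r : ℕ) [NeZero r]
    (ψ : DirichletCharacter ℂ r), r ≤ Q → ψ.IsPrimitive → ψ ≠ 1 → ψ ^ 2 = 1 → ∀ β : ℝ,
    7 / 8 ≤ β → β < 1 → ψ.LFunction (β : ℂ) = 0 → ∀ p ∈ PC Q, ∀ κ v : ℝ, 1 ≤ κ →
    κ ≤ th0 * Real.log Q → |v| ≤ (Q : ℝ) ^ 9 → (p = p0 → 1 / 2 ≤ |v|) → ∀ K1 : ℕ,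
    C3 * κ ≤ K1 →
    (∃ ρ : ℂ, Lx r ψ β p ρ = 0 ∧ 1 - κ / Real.log Q ≤ ρ.re ∧ |ρ.im - v| ≤ κ / Real.log Q) →
    ∃ k : ℕ, K1 ≤ k + 1 ∧ k + 1 < 2 * K1 ∧ 1 / 4 * (1 / 4096 : ℝ) ^ K1 ≤
      ‖PP (cE r ψ β p) (κ / Real.log Q) k K1 v‖ := by
  classical
  obtain ⟨C0, K, hC0, hL⟩ := E4_data
  obtain ⟨C3, hC3, hdet⟩ := detect C0 hC0
  obtain ⟨C3', hC3', htr⟩ := D0_trunc
  refine ⟨max C3 C3', K, hC3.trans (le_max_left _ _), ?_⟩
  intro Q hQ r hr0 ψ hrQ hψp hψ1 hψ2 β hβ hβ1 hβ0 p hp κ v hκ hκ2 hv hp0v K1 hK1 hρ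
  obtain ⟨F, hFL, hFz, hFs⟩ := hL Q hQ r ψ hrQ hψp hψ1 hψ2 β hβ hβ1 hβ0 p hp
  have hth : (0 : ℝ) < th0 := by unfold th0; positivity
  have hlog : 0 < Real.log Q := by
    by_contra hcon
    push Not at hcon
    have : th0 * Real.log Q ≤ 0 := mul_nonpos_of_nonneg_of_nonpos hth.le hcon
    linarith
  have hQ1 : (1 : ℝ) ≤ Q := by
    by_contra hcon
    push Not at hcon
    have h0 : Real.log (Q : ℝ) ≤ 0 := Real.log_nonpos (Nat.cast_nonneg Q) hcon.le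
    linarith
  have hlam : 0 < κ / Real.log Q := by positivity
  have hlamth : κ / Real.log Q ≤ th0 := by
    rw [div_le_iff₀ hlog]
    exact hκ2
  have hv10 : |v| ≤ (Q : ℝ) ^ 10 :=
    hv.trans (pow_le_pow_right₀ hQ1 (by norm_num))
  have hκ0 : 0 < κ := by linarith
  have hK1a : C3 * κ ≤ K1 := (mul_le_mul_of_nonneg_right (le_max_left _ _) hκ0.le).trans hK1
  have hK1b : C3' * κ ≤ K1 := (mul_le_mul_of_nonneg_right (le_max_right _ _) hκ0.le).trans hK1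
  have hK1c : C3' ≤ K1 := by
    refine le_trans ?_ hK1b
    nlinarith
  have hK1d : 1 ≤ K1 := by
    have : (1 : ℝ) ≤ K1 := hC3'.trans hK1c
    exact_mod_cast this
  have hρ' : ∃ ρ : ℂ, F ρ = 0 ∧ 1 - κ / Real.log Q ≤ ρ.re ∧ |ρ.im - v| ≤ κ / Real.log Q := by
    obtain ⟨ρ, h1, h2, h3⟩ := hρ
    exact ⟨ρ, hFz ρ h1, h2, h3⟩
  obtain ⟨e, he1, he2, he3⟩ := hdet (Real.log Q) ((Q : ℝ) ^ 10) F hFL κ v hκ hκ2
    hv10 K1 hK1a hρ'
  obtain ⟨k, rfl⟩ : ∃ k, e = k + 1 := ⟨e - 1, by omega⟩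
  refine ⟨k, he1, he2, ?_⟩
  rw [Nat.add_sub_cancel] at he3
  have hser := E5_series (cE r ψ β p) (cE_norm r ψ β hβ1 p) F (p = p0) (fun s hs => by
    rw [hFs s hs]) (κ / Real.log Q) hlam k v
  have htr2 := htr (cE r ψ β p) (cE_norm r ψ β hβ1 p) (κ / Real.log Q) v k K1 hlam
    hlamth hK1c he1 he2
  have h4096 : (0 : ℝ) < (1 / 4096 : ℝ) ^ K1 := by positivity
  have hterm : (if p = p0 then ‖((κ / Real.log Q : ℝ) : ℂ) /
      (((κ / Real.log Q : ℝ) : ℂ) + v * Complex.I)‖ ^ (k + 1) else 0) ≤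
      1 / 8 * (1 / 4096 : ℝ) ^ K1 := by
    split_ifs with hp0
    · have hv2 := hp0v hp0
      set lam := κ / Real.log Q with hlamdef
      have h1 : ‖(lam : ℂ) / ((lam : ℂ) + v * Complex.I)‖ ≤ 2 * th0 := by
        rw [norm_div, Complex.norm_real, Real.norm_of_nonneg hlam.le]
        have h2 : |v| ≤ ‖(lam : ℂ) + v * Complex.I‖ := by
          have := Complex.abs_im_le_norm ((lam : ℂ) + v * Complex.I)
          simpa using this
        have h3 : 1 / 2 ≤ ‖(lam : ℂ) + v * Complex.I‖ := hv2.trans h2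
        rw [div_le_iff₀ (by linarith)]
        nlinarith
      have h2 : ‖(lam : ℂ) / ((lam : ℂ) + v * Complex.I)‖ ^ (k + 1) ≤ (2 * th0) ^ (k + 1) :=
        pow_le_pow_left₀ (norm_nonneg _) h1 _
      have h3 : (2 * th0) ^ (k + 1) ≤ (2 * th0) ^ K1 :=
        pow_le_pow_of_le_one (by positivity) (by unfold th0; norm_num) he1
      have h4 : (2 * th0) ^ K1 = (2 * th0 * 4096) ^ K1 * (1 / 4096) ^ K1 := by
        rw [← mul_pow]
        congr 1
        ring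
      have h5 : (2 * th0 * 4096) ^ K1 ≤ (2 * th0 * 4096) ^ 1 :=
        pow_le_pow_of_le_one (by positivity) (by unfold th0; norm_num) hK1d
      have h6 : (2 * th0 * 4096) ^ 1 ≤ 1 / 8 := by
        unfold th0
        norm_num
      calc _ ≤ (2 * th0) ^ K1 := h2.trans h3
        _ = (2 * th0 * 4096) ^ K1 * (1 / 4096) ^ K1 := h4
        _ ≤ _ := mul_le_mul_of_nonneg_right (h5.trans h6) h4096.le
    · positivity
  have hA : 1 / 2 * (1 / 4096 : ℝ) ^ K1 ≤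
      ‖∑' n : ℕ, ((Λ n * Jk (κ / Real.log Q) k n : ℝ) : ℂ) * cE r ψ β p n *
        (n : ℂ) ^ (-(v * Complex.I))‖ + 1 / 8 * (1 / 4096 : ℝ) ^ K1 := by
    refine (he3.trans hser).trans ?_
    exact add_le_add le_rfl hterm
  have hB := norm_sub_norm_le (∑' n : ℕ, ((Λ n * Jk (κ / Real.log Q) k n : ℝ) : ℂ) *
    cE r ψ β p n * (n : ℂ) ^ (-(v * Complex.I)))
    (PP (cE r ψ β p) (κ / Real.log Q) k K1 v)
  have hC := hB.trans htr2
  linarith

end Pool.Agent.Lib.H18Q
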