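import Pool.Agent.Lib.H18Q.GDefs

/-!
# Project H18Q, chunk GA1: good vertices, power savings

Ports of `H18E/TG.lean` (`tg_main`) and `H18E/FN.lean` (`fn_prime`).
-/

open Finset Pool.Agent.Lib.H68T Pool.Agent.Lib.H18GB Pool.Agent.Lib.GoldbachGraph Pool.Agent.Lib.H18E
  Pool.Agent.Lib.H18P

namespace Pool.Agent.Lib.H18Q

theorem ga1_le (n x : ℕ) : ohdeg n x ≤ hdeg n x := by
  classical
  unfold ohdeg hdeg
  apply card_le_card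
  intro Y hY
  rw [mem_filter] at hY ⊢
  exact ⟨hY.1, hY.2.1⟩

/-- **The core.** PORT of `H18E.tg_main` (`H18E/TG.lean`), with `MainPow δ0 c0`
(for `a` and `(a + δ0)/2`) instead of `main_deg`; `ohdeg n x ≤ hdeg n x` is `card_le_card` (`ohdeg` is defined
in `H18P/OD.lean`; the filter has one more condition). `tg_two`, `TG_step`, `gr6s` can be used as they are. -/
theorem tg_pow (δ0 c0 : ℝ) (hM : MainPow δ0 c0) (hc0 : 0 < c0) (a : ℝ) (ha : 0 < a) (ha2 : a < δ0) :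
    ∃ n0 : ℕ, ∀ n : ℕ, n0 ≤ n →
    ∃ B g : Finset ℕ, B ⊆ Icc 1 n ∧ (B.card : ℝ) ≤ (n : ℝ) ^ (1 - a) / 2 ∧
      g ⊆ Icc 1 n ∧ (∀ x ∈ g, ∀ y ∈ g, (HG n).edist x y ≤ 7) ∧
      (∀ x ∈ Icc 1 n, x ∉ B → B.card < hdeg n x) ∧
      (∀ x ∈ Icc 1 n, B.card < hdeg n x → ∃ z ∈ g, (HG n).edist x z ≤ 2) ∧
      ∃ r1 : ℕ, (r1 = 0 ∨ 7 ≤ r1) ∧ ∀ x ∈ Icc 1 n, x ∉ B → ¬ r1 ∣ x → x ∈ g := by
  classical
  obtain ⟨n0, hn0⟩ := hM a ((a + δ0) / 2) ha (by linarith) (by linarith)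
  obtain ⟨n1, hn1⟩ := gr6s c0 hc0
  refine ⟨max n0 n1, fun n hn => ?_⟩
  obtain ⟨B, hB1, hB2, r1, hr1, hBo⟩ := hn0 n ((le_max_left _ _).trans hn)
  have hBx : ∀ x ∈ Icc 1 n, x ∉ B → B.card < hdeg n x ∧
      (¬ r1 ∣ x → c0 * SE x * n / (Real.log n) ^ 2 ≤ hdeg n x) := by
    intro x hx hxB
    obtain ⟨h1, -, h3⟩ := hBo x hx hxB
    have h4 := ga1_le n x
    have h5 : (ohdeg n x : ℝ) ≤ hdeg n x := by exact_mod_cast h4
    exact ⟨h1.trans_le h4, fun h => (h3 h).trans h5⟩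
  have hgr := hn1 n ((le_max_right _ _).trans hn)
  set g := (Icc 1 n).filter (fun x => c0 * SE x * n / (Real.log n) ^ 2 ≤ hdeg n x) with hg
  have hBg : ∀ x ∈ Icc 1 n, x ∉ B → ¬ r1 ∣ x → x ∈ g := by
    intro x hx hxB hrx
    rw [hg, mem_filter]
    exact ⟨hx, (hBx x hx hxB).2 hrx⟩
  refine ⟨B, g, hB1, hB2, filter_subset _ _, ?_, fun x hx hxB => (hBx x hx hxB).1, ?_, r1, hr1, hBg⟩
  · intro x hx y hy
    rw [hg, mem_filter] at hx hy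
    exact hgr x hx.1 y hy.1 hx.2 hy.2
  · intro x hx hd
    obtain ⟨Z, hZ, hZB, hrZ, he⟩ := tg_two n B r1 hr1 (fun x hx hxB => (hBx x hx hxB).1) x hx hd
    exact ⟨Z, hBg Z hZ hZB hrZ, he⟩

/-- For large `n`, for every set `B` of at most `n ^ (1 - a)` numbers and every
`r1 ≠ 1` there is an odd prime `q ≤ n`, `q ∉ B`, not divisible by `r1`. Follows from `H18E.fn_prime` with
the exponent `1/4` instead of `a`, since `n ^ (1 - a) ≤ n exp (-(log n)^(1/4))` for large `n`. -/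
theorem fn_prime_pow (a : ℝ) (ha : 0 < a) : ∃ n0 : ℕ, ∀ n : ℕ, n0 ≤ n → ∀ B : Finset ℕ,
    (B.card : ℝ) ≤ (n : ℝ) ^ (1 - a) → ∀ r1 : ℕ, r1 ≠ 1 →
    ∃ q ∈ Icc 1 n, q.Prime ∧ Odd q ∧ q ∉ B ∧ ¬ r1 ∣ q := by
  obtain ⟨n0, hn0⟩ := fn_prime (1 / 4) (by norm_num)
  have hev : ∀ᶠ y : ℝ in Filter.atTop, (1 / a) * y ^ (1 / 4 : ℝ) + 0 ≤ y ^ (1 : ℝ) :=
    PA_pow 1 (1 / 4) (1 / a) 0 (by norm_num) (by norm_num)
  obtain ⟨n1, hn1⟩ := Filter.eventually_atTop.1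
    ((Real.tendsto_log_atTop.comp tendsto_natCast_atTop_atTop).eventually hev)
  refine ⟨max (max n0 n1) 1, fun n hn B hB r1 hr1 => hn0 n (by omega) B (hB.trans ?_) r1 hr1⟩
  have h1 := hn1 n (by omega)
  simp only [Function.comp, add_zero, Real.rpow_one] at h1
  have hn : (0 : ℝ) < n := by exact_mod_cast (by omega : 0 < n)
  have h2 : (Real.log n) ^ (1 / 4 : ℝ) ≤ a * Real.log n := by
    rw [one_div, inv_mul_eq_div, div_le_iff₀ ha] at h1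
    linarith
  have h3 : (n : ℝ) ^ (1 - a) = n * Real.exp (-(a * Real.log n)) := by
    rw [Real.rpow_sub hn, Real.rpow_one, Real.rpow_def_of_pos hn, Real.exp_neg, div_eq_mul_inv,
      mul_comm (Real.log n) a]
  rw [h3]
  exact mul_le_mul_of_nonneg_left (Real.exp_le_exp.2 (by linarith)) hn.le

end Pool.Agent.Lib.H18Q
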