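import Pool.Agent.Lib.H18Q.GA1

/-!
# Project H18Q, chunk GA2: good vertices of all scales, power savings

Port of `H18P/P2.lean` (`levels`).
-/

open Finset Pool.Agent.Lib.H68T Pool.Agent.Lib.H18GB Pool.Agent.Lib.GoldbachGraph Pool.Agent.Lib.H18E
  Pool.Agent.Lib.H18P

namespace Pool.Agent.Lib.H18Q

theorem ga2_split (n : ℕ) (hn : (0 : ℝ) < n) (a : ℝ) : (n : ℝ) ^ (1 - a) = n * (n : ℝ) ^ (-a) := by
  rw [sub_eq_add_neg, Real.rpow_add hn, Real.rpow_one]

theorem ga2_thr (a c : ℝ) (ha : 0 < a) (hc : 0 < c) (B0 : ℕ) : ∃ n0 : ℕ, ∀ n : ℕ, n0 ≤ n →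
    (n : ℝ) ^ (-a) < c ∧ (Real.log n) ^ B0 * (n : ℝ) ^ (-a) < 1 ∧ 1 ≤ Real.log n := by
  have h1 : ∀ᶠ y : ℝ in Filter.atTop, y ^ (-a) < c :=
    (tendsto_rpow_neg_atTop ha).eventually (gt_mem_nhds hc)
  have h2 : ∀ᶠ y : ℝ in Filter.atTop, (Real.log y) ^ B0 * y ^ (-a) < 1 := by
    have h3 := (isLittleO_log_rpow_rpow_atTop (B0 : ℝ) ha).def (show (0 : ℝ) < 1 / 2 by norm_num)
    filter_upwards [h3, Filter.eventually_ge_atTop (Real.exp 1)] with y h3 h4
    have hy0 : 0 < y := (Real.exp_pos 1).trans_le h4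
    have hL : 1 ≤ Real.log y := by
      rw [Real.le_log_iff_exp_le hy0]
      exact h4
    rw [Real.rpow_natCast, Real.norm_of_nonneg (by positivity), Real.norm_of_nonneg (by positivity)] at h3
    rw [Real.rpow_neg hy0.le, ← div_eq_mul_inv, div_lt_one (by positivity)]
    have : 0 < y ^ a := by positivity
    linarith
  have h3 : ∀ᶠ y : ℝ in Filter.atTop, 1 ≤ Real.log y :=
    Real.tendsto_log_atTop.eventually_ge_atTop 1
  obtain ⟨n0, hn0⟩ := Filter.eventually_atTop.1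
    (tendsto_natCast_atTop_atTop.eventually (h1.and (h2.and h3)))
  exact ⟨n0, fun n hn => hn0 n hn⟩

/-- **Good vertices of all scales.** PORT of `H18P.levels` (`H18P/P2.lean`): `tg_pow`, `fn_prime_pow`
instead of `tg_main`, `fn_prime`; the facts which are needed about the threshold are `n ^ (1 - a) < c n`,
`n ^ (1 - a) < n / 2000` and `n ^ (1 - a) < n / (log n) ^ B0` for large `n`
(`isLittleO_log_rpow_atTop` or `H18E.PA_log`). `jump` is in `H18P/P1.lean`, `fn_one` in `H18E/FN2.lean`. -/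
theorem levels_pow (δ0 c0 : ℝ) (hM : MainPow δ0 c0) (hc0 : 0 < c0) (hδ : δ0 < 1 / 2) (a : ℝ) (ha : 0 < a)
    (ha2 : a < δ0) : ∃ n0 : ℕ, ∃ g : ℕ → Finset ℕ,
    (∀ n, n0 ≤ n → g n ⊆ Icc 1 n ∧ (∀ x ∈ g n, ∀ y ∈ g n, (HG n).edist x y ≤ 7) ∧
      (∃ q ∈ g n, q.Prime ∧ Odd q) ∧
      (∃ B : Finset ℕ, (B.card : ℝ) ≤ (n : ℝ) ^ (1 - a) / 2 ∧
        ∀ x ∈ Icc 1 n, x ∉ B → ∃ z ∈ g n, (HG n).edist x z ≤ 1) ∧
      ∀ x ∈ Icc 1 n, (n : ℝ) ^ (1 - a) / 2 < hdeg n x → ∃ z ∈ g n, (HG n).edist x z ≤ 2) ∧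
    ∀ n m, n0 ≤ m → m ≤ n → ∀ x ∈ g m, ∃ z ∈ g n, (HG n).edist x z ≤ 10 := by
  classical
  obtain ⟨n1, hn1⟩ := tg_pow δ0 c0 hM hc0 a ha ha2
  obtain ⟨n2, hn2⟩ := fn_prime_pow a ha
  obtain ⟨c, hc, B0, m0, n3, hjump⟩ := jump
  obtain ⟨n4, hn4⟩ := ga2_thr a (min c (1 / 2000)) ha (lt_min hc (by norm_num)) B0
  choose! B g hB1 hB2 hg1 hg7 hBx hg2 r1 hr1 hBg using hn1
  refine ⟨max (max n1 n2) (max (max n3 n4) (max m0 1)), g, fun n hn => ?_, fun n m hm hmn x hx => ?_⟩
  · have h1 : n1 ≤ n := by omega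
    have h2 : n2 ≤ n := by omega
    have hnn : (0 : ℝ) ≤ (n : ℝ) ^ (1 - a) := by positivity
    refine ⟨hg1 n h1, hg7 n h1, ?_, ⟨B n, hB2 n h1, fun x hx hxB =>
      fn_one n (B n) (g n) (r1 n) (hr1 n h1) (hBx n h1) (hBg n h1) x hx hxB⟩, fun x hx hd => ?_⟩
    · obtain ⟨q, hq1, hq2, hq3, hq4, hq5⟩ := hn2 n h2 (B n) (by linarith [hB2 n h1]) (r1 n)
        (by rcases hr1 n h1 with h | h <;> omega)
      exact ⟨q, hBg n h1 q hq1 hq4 hq5, hq2, hq3⟩
    · have h3 : ((B n).card : ℝ) < hdeg n x := lt_of_le_of_lt (hB2 n h1) hd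
      exact hg2 n h1 x hx (by exact_mod_cast h3)
  · have h1 : n1 ≤ m := by omega
    have h1' : n1 ≤ n := by omega
    have hm1 : 1 ≤ m := by omega
    have hmR : (0 : ℝ) < m := by exact_mod_cast hm1
    have hnR : (0 : ℝ) < n := by exact_mod_cast (by omega : 0 < n)
    obtain ⟨e1, e2, e3⟩ := hn4 m (by omega)
    obtain ⟨f1, f2, f3⟩ := hn4 n (by omega)
    -- a common vertex
    obtain ⟨X, hXm, hXB, w, hw, hwe⟩ : ∃ X ∈ Icc 1 m, X ∉ B m ∧ ∃ w ∈ g n, (HG n).edist X w ≤ 2 := by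
      by_cases h1000 : 1000 * m ≤ n
      · have hj := hjump n (by omega) m (by omega) h1000
        have h2 : ((B m).card : ℝ) < c * m := by
          have h3 := hB2 m h1
          rw [ga2_split m hmR a] at h3
          have h4 : (m : ℝ) ^ (-a) < c := e1.trans_le (min_le_left _ _)
          have h5 : (m : ℝ) * (m : ℝ) ^ (-a) ≤ m * c := mul_le_mul_of_nonneg_left h4.le hmR.le
          have h6 : 0 < (m : ℝ) * c := by positivity
          linarith
        have h3 : (B m).card < ((Icc 1 m).filter (fun X => (n : ℝ) / (Real.log n) ^ B0 ≤ hdeg n X)).card := by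
          exact_mod_cast h2.trans_le hj
        obtain ⟨X, hX1, hX2⟩ := exists_mem_notMem_of_card_lt_card h3
        rw [mem_filter] at hX1
        refine ⟨X, hX1.1, hX2, hg2 n h1' X ?_ ?_⟩
        · rw [mem_Icc] at hX1 ⊢
          exact ⟨hX1.1.1, hX1.1.2.trans hmn⟩
        · have h4 : ((B n).card : ℝ) < hdeg n X := by
            refine lt_of_lt_of_le ?_ hX1.2
            have h5 := hB2 n h1'
            rw [ga2_split n hnR a] at h5
            have h6 : (n : ℝ) * (n : ℝ) ^ (-a) < n / (Real.log n) ^ B0 := by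
              rw [lt_div_iff₀ (by positivity)]
              have := mul_lt_mul_of_pos_left f2 hnR
              linarith
            have h7 : 0 < (n : ℝ) * (n : ℝ) ^ (-a) := by positivity
            linarith
          exact_mod_cast h4
      · push Not at h1000
        have h2 : ((B m).card : ℝ) + (B n).card < m := by
          have h3 := hB2 m h1
          rw [ga2_split m hmR a] at h3
          have h4 := hB2 n h1'
          rw [ga2_split n hnR a] at h4
          have h5 : (m : ℝ) * (m : ℝ) ^ (-a) ≤ m * (1 / 2000) :=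
            mul_le_mul_of_nonneg_left (e1.le.trans (min_le_right _ _)) hmR.le
          have h6 : (n : ℝ) * (n : ℝ) ^ (-a) ≤ n * (1 / 2000) :=
            mul_le_mul_of_nonneg_left (f1.le.trans (min_le_right _ _)) hnR.le
          have h7 : (n : ℝ) < 1000 * m := by exact_mod_cast h1000
          linarith
        have h3 : (B m ∪ B n).card < (Icc 1 m).card := by
          have h4 : (B m).card + (B n).card < m := by exact_mod_cast h2
          rw [Nat.card_Icc]
          have := card_union_le (B m) (B n)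
          omega
        obtain ⟨X, hX1, hX2⟩ := exists_mem_notMem_of_card_lt_card h3
        rw [mem_union, not_or] at hX2
        have hXn : X ∈ Icc 1 n := by
          rw [mem_Icc] at hX1 ⊢
          exact ⟨hX1.1, hX1.2.trans hmn⟩
        obtain ⟨w, hw, hwe⟩ := fn_one n (B n) (g n) (r1 n) (hr1 n h1') (hBx n h1') (hBg n h1') X hXn hX2.2
        exact ⟨X, hX1, hX2.1, w, hw, hwe.trans (by norm_num)⟩
    obtain ⟨z, hz, hze⟩ := fn_one m (B m) (g m) (r1 m) (hr1 m h1) (hBx m h1) (hBg m h1) X hXm hXB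
    refine ⟨w, hw, ?_⟩
    have k1 : (HG n).edist x z ≤ 7 := (edist_mono hmn x z).trans (hg7 m h1 x hx z hz)
    have k2 : (HG n).edist z X ≤ 1 := by
      rw [SimpleGraph.edist_comm]
      exact (edist_mono hmn X z).trans hze
    calc (HG n).edist x w ≤ (HG n).edist x X + (HG n).edist X w := SimpleGraph.edist_triangle
      _ ≤ ((HG n).edist x z + (HG n).edist z X) + (HG n).edist X w :=
          add_le_add_left SimpleGraph.edist_triangle _
      _ ≤ (7 + 1) + 2 := add_le_add (add_le_add k1 k2) hwe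
      _ = 10 := by norm_num

end Pool.Agent.Lib.H18Q
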