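import Pool.Agent.Lib.H18Q.GDefs

/-!
# Project H18Q, chunk GB: a fixed thin set, power savings

Port of `H18P/OM.lean` (`fixed`).
-/

open Finset Pool.Agent.Lib.H68T Pool.Agent.Lib.H18E Pool.Agent.Lib.GoldbachGraph Pool.Agent.Lib.H18P

namespace Pool.Agent.Lib.H18Q

/-- **A fixed thin set of halved vertices**, outside of which the degrees at the own scale are large.
PORT of `H18P.fixed` (end of `H18P/OM.lean`), with `MainPow δ0 c0` (for `a' = a + (b - a)/3` and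
`b' = a + 2 (b - a)/3`) instead of `main_own`; `clog_bounds` can be used as it is.
`F = {x | x < N1 ∨ x ∈ B (2 ^ clog x)}`. Counting, for `N1 ≤ x`, `J = clog x`, `2 ^ J < 2 x`:
`ncard ≤ N1 + ∑_{j ≤ J} (2 ^ j) ^ (1 - a')/2 ≤ N1 + (J + 1) (2 x) ^ (1 - a') ≤ N1 + 8 log x · x ^ (1 - a')
≤ x ^ (1 - a)` for large `x` (`J + 1 ≤ 4 log x`). Degrees: for `n = 2 ^ clog x`, `x ≤ n`:
`x ^ (1 - b) ≤ n ^ (1 - b') ≤ ohdeg n x ≤ #{Y ≤ x - 1 : hadj x Y}` (as `n < 2 x`, see the definition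
of `ohdeg` in `H18P/OD.lean`). -/
theorem fixed_pow (δ0 c0 : ℝ) (hM : MainPow δ0 c0) (hδ : δ0 < 1 / 2) (a b : ℝ) (ha : 0 < a) (hab : a < b)
    (hb : b < δ0) (N : ℕ) : ∃ (F : Set ℕ) (n0 : ℕ),
    (∀ x : ℕ, n0 ≤ x → ((F ∩ Set.Icc 0 x).ncard : ℝ) ≤ (x : ℝ) ^ (1 - a)) ∧
    ∀ x : ℕ, x ∉ F → N ≤ x ∧ (x : ℝ) ^ (1 - b) ≤
      (((Icc 1 (x - 1)).filter (fun Y => hadj x Y)).card : ℝ) := by
  classical
  set a' := a + (b - a) / 3 with ha'
  set b' := a + 2 * (b - a) / 3 with hb'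
  have h1 : a < a' := by rw [ha']; linarith
  have h2 : a' < b' := by rw [ha', hb']; linarith
  have h3 : b' < b := by rw [hb']; linarith
  obtain ⟨n1, hn1⟩ := hM a' b' (by linarith) h2 (by linarith)
  choose! B hB1 hB2 r1 hr1 hB3 using hn1
  have hev : ∀ᶠ y : ℝ in Filter.atTop, 8 * Real.log y ≤ y ^ (a' - a) / 2 ∧ 3 ≤ y := by
    have k1 := (isLittleO_log_rpow_atTop (show 0 < a' - a by linarith)).def
      (show (0 : ℝ) < 1 / 16 by norm_num)
    filter_upwards [k1, Filter.eventually_ge_atTop (3 : ℝ)] with y k1 k2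
    have hL : 0 ≤ Real.log y := Real.log_nonneg (by linarith)
    rw [Real.norm_of_nonneg hL, Real.norm_of_nonneg (by positivity)] at k1
    exact ⟨by linarith, k2⟩
  obtain ⟨n2, hn2⟩ := Filter.eventually_atTop.1 (tendsto_natCast_atTop_atTop.eventually hev)
  set N1 := max (max n1 n2) (max N 3) with hN1
  -- the second threshold
  have hev2 : ∀ᶠ y : ℝ in Filter.atTop, (2 * N1 : ℝ) ≤ y ^ (1 - a) :=
    (tendsto_rpow_atTop (show 0 < 1 - a by linarith)).eventually_ge_atTop _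
  obtain ⟨n3, hn3⟩ := Filter.eventually_atTop.1 (tendsto_natCast_atTop_atTop.eventually hev2)
  refine ⟨{x | x < N1 ∨ x ∈ B (2 ^ Nat.clog 2 x)}, max N1 n3, fun x hx => ?_, fun x hx => ?_⟩
  · -- counting
    have hxN : N1 ≤ x := by omega
    have hx3 : 3 ≤ x := by omega
    obtain ⟨k1, k2, k3⟩ := clog_bounds x hx3
    obtain ⟨e1, e2⟩ := hn2 x (by omega)
    have e5 := hn3 x (by omega)
    have hxR : (0 : ℝ) < x := by exact_mod_cast (by omega : 0 < x)
    set L := Real.log x with hL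
    set J := Nat.clog 2 x with hJ
    set I := (range (J + 1)).filter (fun j => N1 ≤ 2 ^ j) with hI
    have hsub : {x | x < N1 ∨ x ∈ B (2 ^ Nat.clog 2 x)} ∩ Set.Icc 0 x ⊆
        ((range N1 ∪ I.biUnion (fun j => B (2 ^ j)) : Finset ℕ) : Set ℕ) := by
      rintro y ⟨hy, hyx⟩
      rw [mem_coe, mem_union, mem_range, mem_biUnion]
      by_cases hyN : y < N1
      · exact Or.inl hyN
      · right
        have hy2 : y ∈ B (2 ^ Nat.clog 2 y) := hy.resolve_left hyN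
        refine ⟨Nat.clog 2 y, ?_, hy2⟩
        rw [hI, mem_filter, mem_range]
        refine ⟨Nat.lt_succ_of_le (Nat.clog_mono_right 2 hyx.2), ?_⟩
        exact (not_lt.1 hyN).trans (Nat.le_pow_clog (by norm_num) y)
    have hc1 : ({x | x < N1 ∨ x ∈ B (2 ^ Nat.clog 2 x)} ∩ Set.Icc 0 x).ncard ≤
        N1 + ∑ j ∈ I, (B (2 ^ j)).card := by
      refine (Set.ncard_le_ncard hsub (finite_toSet _)).trans ?_
      rw [Set.ncard_coe_finset]
      refine (card_union_le _ _).trans ?_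
      rw [card_range]
      exact Nat.add_le_add_left card_biUnion_le _
    have hBj : ∀ j ∈ I, ((B (2 ^ j)).card : ℝ) ≤ (x : ℝ) ^ (1 - a') := by
      intro j hj
      rw [hI, mem_filter, mem_range] at hj
      have hj1 : n1 ≤ 2 ^ j := by omega
      have hjJ : 2 ^ j ≤ 2 ^ J := Nat.pow_le_pow_right (by norm_num) (by omega)
      have h4 := hB2 (2 ^ j) hj1
      have h6 : ((2 ^ j : ℕ) : ℝ) ≤ 2 * x := by
        have : 2 ^ j ≤ 2 * x := hjJ.trans k2.le
        exact_mod_cast this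
      have h7 : ((2 ^ j : ℕ) : ℝ) ^ (1 - a') ≤ (2 * x) ^ (1 - a') :=
        Real.rpow_le_rpow (Nat.cast_nonneg _) h6 (by linarith)
      have h8 : (2 * (x : ℝ)) ^ (1 - a') ≤ 2 * (x : ℝ) ^ (1 - a') := by
        rw [Real.mul_rpow (by norm_num) hxR.le]
        apply mul_le_mul_of_nonneg_right _ (Real.rpow_nonneg hxR.le _)
        calc (2 : ℝ) ^ (1 - a') ≤ 2 ^ (1 : ℝ) :=
              Real.rpow_le_rpow_of_exponent_le (by norm_num) (by linarith)
          _ = 2 := Real.rpow_one _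
      linarith
    have hIc : (I.card : ℝ) ≤ 4 * L := by
      refine le_trans ?_ k3
      have : I.card ≤ J + 1 := (card_filter_le _ _).trans (by rw [card_range])
      exact_mod_cast this
    have hsum : (∑ j ∈ I, ((B (2 ^ j)).card : ℝ)) ≤ 4 * L * (x : ℝ) ^ (1 - a') := by
      refine (sum_le_sum hBj).trans ?_
      rw [sum_const, nsmul_eq_mul]
      exact mul_le_mul_of_nonneg_right hIc (by positivity)
    have hc2 : (({x | x < N1 ∨ x ∈ B (2 ^ Nat.clog 2 x)} ∩ Set.Icc 0 x).ncard : ℝ) ≤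
        N1 + ∑ j ∈ I, ((B (2 ^ j)).card : ℝ) := by exact_mod_cast hc1
    -- the second part
    have hp2 : 4 * L * (x : ℝ) ^ (1 - a') ≤ (x : ℝ) ^ (1 - a) / 2 := by
      have h4 : (x : ℝ) ^ (1 - a) = (x : ℝ) ^ (1 - a') * (x : ℝ) ^ (a' - a) := by
        rw [← Real.rpow_add hxR]
        congr 1
        ring
      have h5 : 0 ≤ (x : ℝ) ^ (1 - a') := Real.rpow_nonneg hxR.le _
      have h6 : (0 : ℝ) ≤ (x : ℝ) ^ (a' - a) := Real.rpow_nonneg hxR.le _
      rw [h4]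
      have h7 : 4 * L ≤ (x : ℝ) ^ (a' - a) / 2 := by linarith
      calc 4 * L * (x : ℝ) ^ (1 - a') ≤ ((x : ℝ) ^ (a' - a) / 2) * (x : ℝ) ^ (1 - a') :=
            mul_le_mul_of_nonneg_right h7 h5
        _ = (x : ℝ) ^ (1 - a') * (x : ℝ) ^ (a' - a) / 2 := by ring
    linarith
  · -- degrees
    simp only [Set.mem_ofPred_eq, not_or, not_lt] at hx
    obtain ⟨hxN, hxB⟩ := hx
    have hx3 : 3 ≤ x := by omega
    obtain ⟨k1, k2, k3⟩ := clog_bounds x hx3
    have hxR : (0 : ℝ) < x := by exact_mod_cast (by omega : 0 < x)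
    set n := 2 ^ Nat.clog 2 x with hn
    refine ⟨by omega, ?_⟩
    have h4 := (hB3 n (by omega) x (mem_Icc.2 ⟨by omega, k1⟩) hxB).2.1
    have h5 : ohdeg n x ≤ ((Icc 1 (x - 1)).filter (fun Y => hadj x Y)).card := by
      unfold ohdeg
      apply card_le_card
      intro Y hY
      rw [mem_filter, mem_Icc] at hY ⊢
      have := hY.2.2 k2
      exact ⟨⟨hY.1.1, by omega⟩, hY.2.1⟩
    have h6 : (ohdeg n x : ℝ) ≤ (((Icc 1 (x - 1)).filter (fun Y => hadj x Y)).card : ℝ) := by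
      exact_mod_cast h5
    refine le_trans ?_ (h4.trans h6)
    have h7 : (x : ℝ) ≤ n := by exact_mod_cast k1
    have h8 : (1 : ℝ) ≤ x := by
      have : 1 ≤ x := by omega
      exact_mod_cast this
    calc (x : ℝ) ^ (1 - b) ≤ (x : ℝ) ^ (1 - b') := Real.rpow_le_rpow_of_exponent_le h8 (by linarith)
      _ ≤ (n : ℝ) ^ (1 - b') := Real.rpow_le_rpow hxR.le h7 (by linarith)

end Pool.Agent.Lib.H18Q
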