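import Pool.Agent.Lib.H18Q.GDefs

/-!
# Project H18Q, chunk GC1: thresholds

Port of `H18P/P3.lean` (`thr_facts`).
-/

open Finset Pool.Agent.Lib.H18GB Pool.Agent.Lib.GoldbachGraph Pool.Agent.Lib.H18E Pool.Agent.Goldbach
  Pool.Agent.Lib.H18P

namespace Pool.Agent.Lib.H18Q

/-- Thresholds. `m ^ (1 - b) = m ^ (1 - c) · m ^ (c - b)`, and `m ^ (c - b) ≥ 8`,
`m ^ (1 - c) ≥ 8` for large `m`. -/
theorem thr_pow (b c : ℝ) (hb0 : 0 < b) (hbc : b < c) (hc : c < 1) : ∃ n0 : ℕ, 1 ≤ n0 ∧ ∀ m : ℕ, n0 ≤ m →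
    4 + (m : ℝ) ^ (1 - c) / 2 < (m : ℝ) ^ (1 - b) ∧
    3 + (m : ℝ) ^ (1 - c) < ((2 * m : ℕ) : ℝ) ^ (1 - b) ∧
    ((2 * m : ℕ) : ℝ) ^ (1 - c) ≤ (m : ℝ) ^ (1 - b) := by
  have h1 := (tendsto_rpow_atTop (show 0 < c - b by linarith)).eventually_ge_atTop 8
  have h2 := (tendsto_rpow_atTop (show 0 < 1 - c by linarith)).eventually_ge_atTop 8
  obtain ⟨n0, hn0⟩ := Filter.eventually_atTop.1
    (tendsto_natCast_atTop_atTop.eventually (h1.and h2))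
  refine ⟨max n0 1, le_max_right _ _, fun m hm => ?_⟩
  obtain ⟨e1, e2⟩ := hn0 m (by omega)
  have hm1 : (1 : ℝ) ≤ m := by exact_mod_cast (by omega : 1 ≤ m)
  have hm0 : (0 : ℝ) < m := by linarith
  have k1 : (m : ℝ) ^ (1 - b) = (m : ℝ) ^ (1 - c) * (m : ℝ) ^ (c - b) := by
    rw [← Real.rpow_add hm0]
    congr 1
    ring
  have k2 : 8 * (m : ℝ) ^ (1 - c) ≤ (m : ℝ) ^ (1 - b) := by
    rw [k1]
    nlinarith
  have h2m : ((2 * m : ℕ) : ℝ) = 2 * m := by push_cast; ring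
  rw [h2m]
  have k3 : (m : ℝ) ^ (1 - b) ≤ (2 * m) ^ (1 - b) :=
    Real.rpow_le_rpow hm0.le (by linarith) (by linarith)
  refine ⟨by linarith, by linarith, ?_⟩
  rw [Real.mul_rpow (by norm_num) hm0.le]
  have k4 : (2 : ℝ) ^ (1 - c) ≤ 2 := by
    calc (2 : ℝ) ^ (1 - c) ≤ 2 ^ (1 : ℝ) :=
          Real.rpow_le_rpow_of_exponent_le (by norm_num) (by linarith)
      _ = 2 := Real.rpow_one _
  have k5 : (2 : ℝ) ^ (1 - c) * (m : ℝ) ^ (1 - c) ≤ 2 * (m : ℝ) ^ (1 - c) :=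
    mul_le_mul_of_nonneg_right k4 (by linarith)
  linarith

end Pool.Agent.Lib.H18Q
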