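import Pool.Agent.Lib.H18Q.GA2
import Pool.Agent.Lib.H18Q.GC1

/-!
# Project H18Q, chunk GC2: the core for both families of graphs, power savings

Port of `H18P/P3.lean` (`core_main`).
-/

open Finset Pool.Agent.Lib.H18GB Pool.Agent.Lib.GoldbachGraph Pool.Agent.Lib.H18E Pool.Agent.Goldbach
  Pool.Agent.Lib.H18P

namespace Pool.Agent.Lib.H18Q

/-- **The core**, for both families of graphs. PORT of `H18P.core_main` (`H18P/P3.lean`): `levels_pow`,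
`thr_pow` instead of `levels`, `thr_facts`; otherwise word for word. -/
theorem core_main_pow (δ0 c0 : ℝ) (hM : MainPow δ0 c0) (hc0 : 0 < c0) (hδ : δ0 < 1 / 2) (b c : ℝ)
    (hb0 : 0 < b) (hbc : b < c) (hc : c < δ0) : ∃ n0 : ℕ, ∀ n : ℕ, n0 ≤ n →
    ∀ V S : Set ℕ, (∀ a ∈ V, Even a ∧ a ≤ 2 * n) → (∀ x ∈ Finset.Icc 1 n, 2 * x ∈ V) →
    (∀ m, m.Prime → Odd m → m < 2 * n → m ∈ S) → (∀ m ∈ S, m = 1 ∨ (m.Prime ∧ Odd m)) →
    ∃ K : Set V, (∀ u ∈ K, ∀ v ∈ K, (halfGraph V S).edist u v ≤ 7) ∧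
      ({u : V | ¬ ∃ z ∈ K, (halfGraph V S).edist u z ≤ 1}.ncard : ℝ) ≤ (n : ℝ) ^ (1 - b) ∧
      (∀ u : V, (n : ℝ) ^ (1 - b) ≤ ((halfGraph V S).neighborSet u).ncard →
        ∃ z ∈ K, (halfGraph V S).edist u z ≤ 2) ∧
      ((0 : ℕ) ∈ V → ∀ u : V, (u : ℕ) = 0 ∨ (∃ p : ℕ, p.Prime ∧ Odd p ∧ (u : ℕ) = 2 * p) →
        ∃ z ∈ K, (halfGraph V S).edist u z ≤ 2) ∧
      ∀ u : V, (∃ x m : ℕ, (u : ℕ) = 2 * x ∧ 1 ≤ x ∧ x ≤ m ∧ n0 ≤ m ∧ m ≤ n ∧
        (m : ℝ) ^ (1 - c) / 2 < hdeg m x) → ∃ z ∈ K, (halfGraph V S).edist u z ≤ 12 := by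
  classical
  obtain ⟨n0, g, hg, hjmp⟩ := levels_pow δ0 c0 hM hc0 hδ c (hb0.trans hbc) hc
  obtain ⟨n1, hn11, hn1⟩ := thr_pow b c hb0 hbc (by linarith)
  refine ⟨max n0 n1, fun n hn V S hV hV2 hS hS' => ?_⟩
  have hfin : Finite V := finite_of_le hV
  obtain ⟨hg1, hg7, ⟨q, hqg, hq2, hq3⟩, ⟨B, hB, hB1⟩, hgd⟩ := hg n (by omega)
  obtain ⟨t1, t2, t3⟩ := hn1 n (by omega)
  have hq1 : q ∈ Icc 1 n := hg1 hqg
  have hqS : q ∈ S := hS q hq2 hq3 (by rw [mem_Icc] at hq1; omega)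
  have h0q : ∀ h0 : (0 : ℕ) ∈ V, (halfGraph V S).Adj ⟨0, h0⟩ ⟨2 * q, hV2 q hq1⟩ := by
    intro h0
    rw [halfGraph_adj_iff (x := 0) (y := q) rfl rfl]
    refine ⟨hq2.ne_zero.symm, by simpa using hqS, by simpa using hqS⟩
  set K : Set V := {u : V | ∃ z ∈ g n, (u : ℕ) = 2 * z} with hK
  have hmemK : ∀ z (hz : z ∈ g n), (⟨2 * z, hV2 z (hg1 hz)⟩ : V) ∈ K := fun z hz => ⟨z, hz, rfl⟩
  have hzero1 : ∀ u : V, (u : ℕ) = 0 → ∃ z ∈ K, (halfGraph V S).edist u z ≤ 1 := by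
    rintro ⟨u, hu⟩ hu0
    simp only at hu0
    subst hu0
    refine ⟨_, hmemK q hqg, ?_⟩
    refine (SimpleGraph.edist_le (.cons (h0q hu) .nil)).trans ?_
    norm_num
  refine ⟨K, ?_, ?_, ?_, ?_, ?_⟩
  · rintro ⟨u, hu⟩ ⟨x, hx, hux⟩ ⟨v, hv⟩ ⟨y, hy, hvy⟩
    simp only at hux hvy
    subst hux
    subst hvy
    exact edist_transfer hV2 hS (hg1 hx) (hg1 hy) (k := 7) (hg7 x hx y hy)
  · have h1 : ({u : V | ¬ ∃ z ∈ K, (halfGraph V S).edist u z ≤ 1}).ncard ≤ B.card := by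
      rw [← Set.ncard_coe_finset]
      apply Set.ncard_le_ncard_of_injOn (fun b : V => (b : ℕ) / 2)
      · rintro ⟨b, hb⟩ hbK
        obtain ⟨⟨x, hx'⟩, hbn⟩ := hV b hb
        have hbx : b = 2 * x := by omega
        subst hbx
        simp only [Nat.mul_div_cancel_left _ (by norm_num : 0 < 2), Finset.mem_coe]
        by_contra hxB
        apply hbK
        by_cases hx0 : x = 0
        · exact hzero1 _ (by simp [hx0])
        · have hx1 : x ∈ Icc 1 n := mem_Icc.2 ⟨by omega, by omega⟩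
          obtain ⟨z, hz, hze⟩ := hB1 x hx1 hxB
          exact ⟨_, hmemK z hz, edist_transfer hV2 hS hx1 (hg1 hz) (k := 1) hze⟩
      · rintro ⟨b, hb⟩ - ⟨b', hb'⟩ - hbb
        have h1 := (hV b hb).1
        have h2 := (hV b' hb').1
        simp only at hbb
        ext
        simp only
        obtain ⟨k, hk⟩ := h1
        obtain ⟨l, hl⟩ := h2
        omega
    have h2 : (({u : V | ¬ ∃ z ∈ K, (halfGraph V S).edist u z ≤ 1}).ncard : ℝ) ≤ B.card := by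
      exact_mod_cast h1
    linarith
  · rintro ⟨u, hu⟩ hdeg1
    obtain ⟨⟨x, hx'⟩, hbn⟩ := hV u hu
    have hbx : u = 2 * x := by omega
    subst hbx
    by_cases hx0 : x = 0
    · obtain ⟨z, hz, hze⟩ := hzero1 ⟨2 * x, hu⟩ (by simp [hx0])
      exact ⟨z, hz, hze.trans (by norm_num)⟩
    · have hx2 : x ∈ Icc 1 n := mem_Icc.2 ⟨by omega, by omega⟩
      have h1 : (((halfGraph V S).neighborSet ⟨2 * x, hu⟩).ncard : ℝ) ≤ hdeg n x + 4 := by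
        exact_mod_cast deg_le hV hS' x hu
      obtain ⟨z, hz, hze⟩ := hgd x hx2 (by linarith)
      exact ⟨_, hmemK z hz, edist_transfer hV2 hS hx2 (hg1 hz) (k := 2) hze⟩
  · rintro h0 ⟨u, hu⟩ (h | ⟨p, hp, hodd, hup⟩)
    · obtain ⟨z, hz, hze⟩ := hzero1 ⟨u, hu⟩ h
      exact ⟨z, hz, hze.trans (by norm_num)⟩
    · simp only at hup
      subst hup
      have hpn : p < 2 * n := by
        have := (hV _ hu).2
        have := hp.pos
        omega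
      have hpS : p ∈ S := hS p hp hodd hpn
      have hadj1 : (halfGraph V S).Adj ⟨2 * p, hu⟩ ⟨0, h0⟩ := by
        rw [halfGraph_adj_iff (x := p) (y := 0) rfl rfl]
        refine ⟨hp.ne_zero, by simpa using hpS, by simpa using hpS⟩
      refine ⟨_, hmemK q hqg, ?_⟩
      refine (SimpleGraph.edist_le (.cons hadj1 (.cons (h0q h0) .nil))).trans ?_
      norm_num
  · rintro ⟨u, hu⟩ ⟨x, m, hux, hx1, hxm, hm0, hmn, hd⟩
    simp only at hux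
    subst hux
    obtain ⟨-, -, -, -, hgm⟩ := hg m (by omega)
    obtain ⟨z, hz, hze⟩ := hgm x (mem_Icc.2 ⟨hx1, hxm⟩) hd
    obtain ⟨w, hw, hwe⟩ := hjmp n m (by omega) hmn z hz
    have h1 : (HG n).edist x w ≤ 12 := by
      calc (HG n).edist x w ≤ (HG n).edist x z + (HG n).edist z w := SimpleGraph.edist_triangle
        _ ≤ 2 + 10 := add_le_add ((edist_mono hmn x z).trans hze) hwe
        _ = 12 := by norm_num
    exact ⟨_, hmemK w hw, edist_transfer hV2 hS (mem_Icc.2 ⟨hx1, hxm.trans hmn⟩) (hg1 hw) (k := 12) h1⟩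

end Pool.Agent.Lib.H18Q
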