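import Pool.Agent.Lib.H18Q.GB
import Pool.Agent.Lib.H18Q.GC2

/-!
# Project H18Q, chunk GD: the core for a family of graphs and the fixed exceptional set

Ports of `H18P/P4.lean`.
-/

open Finset Pool.Agent.Lib.H18GB Pool.Agent.Lib.GoldbachGraph Pool.Agent.Lib.H18E Pool.Agent.Goldbach
  Pool.Agent.Lib.H18P

namespace Pool.Agent.Lib.H18Q

/-- The core for a family of graphs. PORT of `H18P.core_family` (`H18P/P4.lean`). -/
theorem core_family_pow (δ0 c0 : ℝ) (hM : MainPow δ0 c0) (hc0 : 0 < c0) (hδ : δ0 < 1 / 2) (b c : ℝ)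
    (hb0 : 0 < b) (hbc : b < c) (hc : c < δ0) : ∃ n0 : ℕ, 1 ≤ n0 ∧
    ∀ V S : ℕ → Set ℕ, (∀ n, ∀ a ∈ V n, Even a ∧ a ≤ 2 * n) → (∀ n, ∀ x ∈ Finset.Icc 1 n, 2 * x ∈ V n) →
    (∀ n m, m.Prime → Odd m → m < 2 * n → m ∈ S n) → (∀ n, ∀ m ∈ S n, m = 1 ∨ (m.Prime ∧ Odd m)) →
    (∀ n, (0 : ℕ) ∈ V n → ∀ m, n ≤ m → (0 : ℕ) ∈ V m) →
    ∀ N : ℕ, n0 ≤ N → ∀ n : ℕ, N ≤ n →
    ∃ K : Set (V n), CorePow V (fun n => halfGraph (V n) (S n)) b N n K ∧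
      ((0 : ℕ) ∈ V n → ∀ u : V n, (u : ℕ) = 0 ∨ (∃ p : ℕ, p.Prime ∧ Odd p ∧ (u : ℕ) = 2 * p) →
        ∃ z ∈ K, (halfGraph (V n) (S n)).edist u z ≤ 2) := by
  classical
  obtain ⟨n0, h0⟩ := core_main_pow δ0 c0 hM hc0 hδ b c hb0 hbc hc
  obtain ⟨n1, hn11, hn1⟩ := thr_pow b c hb0 hbc (by linarith)
  refine ⟨2 * max n0 n1, by omega, fun V S hV hV2 hS hS' hV0 N hN n hn => ?_⟩
  obtain ⟨K, k1, k2, k3, k4, k5⟩ := h0 n (by omega) (V n) (S n) (hV n) (hV2 n) (hS n) (hS' n)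
  refine ⟨K, ⟨k1, k2, k3, ?_⟩, k4⟩
  rintro ⟨u, hu⟩ hrich
  obtain ⟨⟨x, hx'⟩, hbn⟩ := hV n u hu
  have hux : u = 2 * x := by omega
  subst hux
  rcases hrich with ⟨m, hm0, hmn, hm, hd⟩ | ⟨hu0, hr⟩
  · have hbm : 2 * x ≤ 2 * m := (hV m _ hm).2
    by_cases hx0 : x = 0
    · subst hx0
      obtain ⟨z, hz, hze⟩ := k4 hu ⟨_, hu⟩ (Or.inl rfl)
      exact ⟨z, hz, hze.trans (by norm_num)⟩
    · have h1 : (((halfGraph (V m) (S m)).neighborSet ⟨2 * x, hm⟩).ncard : ℝ) ≤ hdeg m x + 4 := by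
        exact_mod_cast deg_le (hV m) (hS' m) x hm
      obtain ⟨t1, -, -⟩ := hn1 m (by omega)
      exact k5 _ ⟨x, m, rfl, by omega, by omega, by omega, hmn, by linarith⟩
  · have hu0' : N ≤ 2 * x := hu0
    obtain ⟨-, t2, -⟩ := hn1 x (by omega)
    replace hr : ((2 * x : ℕ) : ℝ) ^ (1 - b) ≤ reps (2 * x) := hr
    have h1 : (reps (2 * x) : ℝ) ≤ 2 * (((Icc 1 (x - 1)).filter (fun Y => hadj x Y)).card : ℝ) + 3 := by
      exact_mod_cast reps_le x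
    have h2 : (((Icc 1 (x - 1)).filter (fun Y => hadj x Y)).card : ℝ) ≤ hdeg x x := by
      have : ((Icc 1 (x - 1)).filter (fun Y => hadj x Y)).card ≤ hdeg x x := by
        unfold hdeg
        apply card_le_card
        apply filter_subset_filter
        exact Icc_subset_Icc_right (Nat.sub_le _ _)
      exact_mod_cast this
    exact k5 _ ⟨x, x, rfl, by omega, le_rfl, by omega, by omega, by linarith⟩

/-- The fixed exceptional set. PORT of `H18P.fixed_set` (`H18P/P4.lean`). -/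
theorem fixed_set_pow (δ0 c0 : ℝ) (hM : MainPow δ0 c0) (hδ : δ0 < 1 / 2) (a b : ℝ) (ha : 0 < a)
    (hab : a < b) (hb : b < δ0) (N : ℕ) :
    ∃ (E : Set ℕ) (x0 : ℕ),
      (∀ x : ℕ, x0 ≤ x → ((E ∩ Set.Icc 0 x).ncard : ℝ) ≤ (x : ℝ) ^ (1 - a)) ∧
      ∀ u : ℕ, Even u → u ∉ E → N ≤ u ∧ (u : ℝ) ^ (1 - b) ≤ reps u := by
  classical
  obtain ⟨n1, hn11, hn1⟩ := thr_pow ((a + b) / 2) b (by linarith) (by linarith) (by linarith)
  obtain ⟨F, x0, hF1, hF2⟩ := fixed_pow δ0 c0 hM hδ a ((a + b) / 2) ha (by linarith) (by linarith) (max N n1)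
  refine ⟨{u | Even u ∧ u / 2 ∈ F}, x0, fun x hx => ?_, fun u hu huE => ?_⟩
  · refine le_trans ?_ (hF1 x hx)
    have : ({u | Even u ∧ u / 2 ∈ F} ∩ Set.Icc 0 x).ncard ≤ (F ∩ Set.Icc 0 x).ncard := by
      apply Set.ncard_le_ncard_of_injOn (fun u => u / 2)
      · rintro u ⟨⟨-, h2⟩, h3, h4⟩
        exact ⟨h2, Nat.zero_le _, (Nat.div_le_self _ _).trans h4⟩
      · rintro u ⟨⟨⟨k, hk⟩, -⟩, -⟩ v ⟨⟨⟨l, hl⟩, -⟩, -⟩ huv
        simp only at huv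
        omega
    exact_mod_cast this
  · obtain ⟨k, hk⟩ := hu
    have hux : u = 2 * k := by omega
    subst hux
    have hkF : k ∉ F := fun h => huE ⟨even_two_mul k, by rwa [Nat.mul_div_cancel_left _ two_pos]⟩
    obtain ⟨h1, h2⟩ := hF2 k hkF
    obtain ⟨-, -, t3⟩ := hn1 k (by omega)
    refine ⟨by omega, ?_⟩
    have h3 : (((Icc 1 (k - 1)).filter (fun Y => hadj k Y)).card : ℝ) ≤ reps (2 * k) := by
      exact_mod_cast le_reps k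
    linarith

end Pool.Agent.Lib.H18Q
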