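import Pool.Agent.Lib.H18Q.CDefs
import Pool.Agent.Lib.H18E.ML
import Pool.Agent.Lib.H18E.SS1
import Pool.Agent.Lib.H18E.SS3
import Pool.Agent.Lib.H68T.GAM2

/-!
# Project H18Q, chunk MB: the model along incompatible classes
-/

open Finset

namespace Pool.Agent.Lib.H18Q

open Pool.Agent.Lib.H68T Pool.Agent.Lib.H18E


theorem mb_sum_zero (W : ℕ) (x : ℤ) (hW : 0 < W) (hx : ¬ IsCoprime x (W : ℤ)) :
    ∑ w ∈ W.divisors, GAM_F 1 x w = 0 := by
  have h1 : (ArithmeticFunction.zeta : ArithmeticFunction ℝ) * GAM_F 1 x = GAM_g 1 x := by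
    unfold GAM_F
    rw [← mul_assoc, ArithmeticFunction.coe_zeta_mul_coe_moebius, one_mul]
  have h2 : ((ArithmeticFunction.zeta : ArithmeticFunction ℝ) * GAM_F 1 x) W = GAM_g 1 x W := by
    rw [h1]
  rw [ArithmeticFunction.coe_zeta_mul_apply, GAM_g_apply _ _ _ hW.ne',
    if_neg (fun h => hx h.symm)] at h2
  exact h2

theorem mb_abs (x : ℤ) {w : ℕ} (hw : w ≠ 0) : |GAM_F 1 x w| ≤ 1 := by
  refine (GAM_F_abs 1 x w hw).trans ?_
  split_ifs with h
  · have h1 : 0 < w / Nat.gcd w x.natAbs :=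
      Nat.div_pos (Nat.gcd_le_left _ (by omega)) (Nat.gcd_pos_of_pos_left _ (by omega))
    have h2 : (1 : ℝ) ≤ (Nat.totient (w / Nat.gcd w x.natAbs) : ℝ) := by
      exact_mod_cast Nat.totient_pos.mpr h1
    rw [div_le_one (by linarith)]
    exact h2
  · norm_num

theorem mb_per (x : ℤ) {w W : ℕ} (hw : w ≠ 0) (hwW : w ∣ W) (c : ℕ) :
    GAM_F 1 (x + W * (c : ℕ)) w = GAM_F 1 x w := by
  refine XG1_eq _ _ (GAM_F_mult 1 _) (GAM_F_mult 1 x) hw fun p hp k hk => ?_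
  have hpp := Nat.prime_of_mem_primeFactors hp
  have hpW : (p : ℤ) ∣ (W : ℤ) * (c : ℕ) :=
    Dvd.dvd.mul_right (Int.natCast_dvd_natCast.2 ((Nat.dvd_of_mem_primeFactors hp).trans hwW)) _
  rcases Nat.lt_or_ge 1 k with hk1 | hk1
  · obtain ⟨j, hj⟩ := Nat.exists_eq_add_of_le (show 2 ≤ k by omega)
    rw [hj, add_comm 2 j, GAM_F_prime_pow _ _ _ _ hpp, GAM_F_prime_pow _ _ _ _ hpp]
  · have hk' : k = 1 := by omega
    rw [hk', pow_one, GAM_F_prime _ _ _ hpp, GAM_F_prime _ _ _ hpp]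
    have h3 : (p : ℤ) ∣ x + W * (c : ℕ) ↔ (p : ℤ) ∣ x := (dvd_add_left hpW)
    simp only [h3]

/-- In a class modulo `W` not coprime to `W` the model `G` has only moduli `q > Q/W`:
`G Q (x + W c) = ∑_{q ≤ Q, (q,W) = 1} μ(q)/φ(q) c_q(x + W c) S(q)`, `S(q) = ∑_{w ∣ W, w q ≤ Q} μ(w)/φ(w)
c_w(x)` (`w` squarefree; for squarefree `q0 ≤ Q` write `q0 = w q` with `w = gcd(q0, W)`... the part of
`q0` composed of primes of `W`; `c_w(x + Wc) = c_w(x)`); the full sum over squarefree `w ∣ W` is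
`∏_{l ∣ W} (1 - c_l(x)/(l-1)) = 0` if some prime `l ∣ W` divides `x` (`c_l(x) = l - 1`), so `S(q) = 0` for
`q W ≤ Q`; and `|S(q)| ≤ ∑_{w ∣ W} 1 ≤ W` (`|c_w(x)| ≤ φ(w)`). Compare `ml_MM_eq` in `H18E/ML` (the coprime
case). -/
theorem MB_expand (Q W : ℕ) (x : ℤ) (hW : 0 < W) (hx : ¬ IsCoprime x (W : ℤ)) :
    ∃ S : ℕ → ℝ, (∀ q, |S q| ≤ W) ∧ (∀ q, q * W ≤ Q → S q = 0) ∧ ∀ c : ℕ,
      G Q (x + W * (c : ℕ)) = ∑ q ∈ QW Q W, (ArithmeticFunction.moebius q : ℝ) /
        (Nat.totient q : ℝ) * cq q (x + W * (c : ℕ)) * S q := by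
  refine ⟨fun q => ∑ w ∈ W.divisors.filter (fun w => w * q ≤ Q), GAM_F 1 x w, ?_, ?_, ?_⟩
  · intro q
    refine (abs_sum_le_sum_abs _ _).trans ?_
    calc ∑ w ∈ W.divisors.filter (fun w => w * q ≤ Q), |GAM_F 1 x w|
        ≤ ∑ _w ∈ W.divisors.filter (fun w => w * q ≤ Q), (1 : ℝ) :=
          sum_le_sum fun w hw => mb_abs x (Nat.pos_of_mem_divisors (mem_filter.1 hw).1).ne'
      _ = ((W.divisors.filter (fun w => w * q ≤ Q)).card : ℝ) := by simp
      _ ≤ (W : ℝ) := by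
          exact_mod_cast (card_filter_le _ _).trans (Nat.card_divisors_le_self W)
  · intro q hq
    simp only
    rw [filter_true_of_mem, mb_sum_zero W x hW hx]
    intro w hw
    have h1 : w ≤ W := Nat.divisor_le hw
    calc w * q ≤ W * q := Nat.mul_le_mul_right _ h1
      _ = q * W := mul_comm _ _
      _ ≤ Q := hq
  · intro c
    have h1 : G Q (x + W * (c : ℕ)) = ∑ q ∈ Icc 1 Q, GAM_F 1 (x + W * (c : ℕ)) q := by
      unfold G
      exact Finset.sum_congr rfl fun q _ => (XG1_F1 _ q).symm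
    rw [h1, XG1_split _ (GAM_F_mult 1 _) (fun n hn => XG1_F_nsq 1 _ hn) Q W hW]
    refine Finset.sum_congr rfl fun q _ => ?_
    rw [XG1_F1]
    congr 1
    refine Finset.sum_congr rfl fun w hw => ?_
    rw [mem_filter] at hw
    exact mb_per x (Nat.pos_of_mem_divisors hw.1).ne' (Nat.mem_divisors.1 hw.1).1 c


theorem mb_rep (Q N r : ℕ) (z : ℤ) (β ε : ℝ) (hr : 0 < r) (hN : 1 ≤ N)
    (hz : 1 ≤ z ∨ z + r * N ≤ 0) (hβ1 : β ≤ 1) (hε : |ε| ≤ 1)
    (hε0 : ¬ IsCoprime z (r : ℤ) → ε = 0) :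
    ∃ (U V : ℕ → ℕ → ℝ) (η : ℝ), |η| ≤ 1 ∧ (∀ q c, 0 ≤ U q c) ∧ (∀ q c, U q c ≤ r) ∧
      (∀ q c, 0 ≤ V q c) ∧ (∀ q c, V q c ≤ r) ∧
      (∀ q, Antitone (U q) ∨ Monotone (U q)) ∧ (∀ q, Antitone (V q) ∨ Monotone (V q)) ∧
      (∀ c < N, MM Q r ε β (z + r * (c : ℕ)) = ml_S Q r z U c - η * ml_S Q r z V c) ∧
      (¬ IsCoprime z (r : ℤ) → ∀ q c, q * r ≤ Q → U q c - η * V q c = 0) := by
  have hr1 : (1 : ℝ) ≤ r := by exact_mod_cast hr
  have hφ : (1 : ℝ) ≤ Nat.totient r := by exact_mod_cast Nat.totient_pos.mpr hr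
  have hD : (r : ℝ) / Nat.totient r ≤ r := div_le_self (by linarith) hφ
  by_cases hzc : IsCoprime z (r : ℤ)
  · refine ⟨fun q _ => TW Q r q, fun q c => ml_w N r z β c * TWr Q r r q, ε, hε,
      fun q _ => TW_nonneg Q r q, fun q _ => (TW_le Q r q hr).trans hD,
      fun q c => mul_nonneg (ml_w_nonneg N r z β c) (TWr_nonneg Q r r q), ?_,
      fun q => Or.inl (fun _ _ _ => le_refl _), ?_, ?_, fun h => absurd hzc h⟩
    · intro q c
      have h1 := ml_w_le hN hr hz hβ1 c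
      have h3 := TWr_nonneg Q r r q
      have h4 := TWr_le Q r r q hr dvd_rfl
      calc ml_w N r z β c * TWr Q r r q ≤ 1 * TWr Q r r q := mul_le_mul_of_nonneg_right h1 h3
        _ ≤ r := by rw [one_mul]; exact h4.trans hD
    · intro q
      rcases ml_w_mono hN hr hz hβ1 with h | h
      · exact Or.inl (fun c c' hc => mul_le_mul_of_nonneg_right (h hc) (TWr_nonneg Q r r q))
      · exact Or.inr (fun c c' hc => mul_le_mul_of_nonneg_right (h hc) (TWr_nonneg Q r r q))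
    · intro c hc
      exact ml_MM_eq Q N r r z c β ε hr dvd_rfl hzc hc
  · obtain ⟨S, hS1, hS2, hS3⟩ := MB_expand Q r z hr hzc
    refine ⟨fun q _ => max (S q) 0, fun q _ => max (-S q) 0, 1, by norm_num,
      fun q _ => le_max_right _ _, ?_, fun q _ => le_max_right _ _, ?_,
      fun q => Or.inl (fun _ _ _ => le_refl _), fun q => Or.inl (fun _ _ _ => le_refl _), ?_, ?_⟩
    · intro q _
      exact max_le ((le_abs_self _).trans (hS1 q)) (by linarith)
    · intro q _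
      exact max_le ((neg_le_abs _).trans (hS1 q)) (by linarith)
    · intro c _
      unfold MM ml_S
      rw [hε0 hzc, zero_mul, zero_mul, sub_zero, hS3 c, one_mul, ← sum_sub_distrib]
      refine sum_congr rfl fun q _ => ?_
      have h1 : max (S q) 0 - max (-S q) 0 = S q := by
        rcases le_total 0 (S q) with h | h
        · rw [max_eq_left h, max_eq_right (by linarith)]; ring
        · rw [max_eq_right h, max_eq_left (by linarith)]; ring
      rw [← mul_sub, h1]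
    · intro _ q _ hq
      simp only [hS2 q hq]
      simp

/-- **Incompatible classes.** If `x` or `y` is not coprime to `r` (and the corresponding sign is `0`),
the correlation of the models along `x + r c`, `y + r c` is small.

Proof. By symmetry let `x` be not coprime to `r`, `ε = 0`, so `MM Q r 0 β = G Q`. `MB_expand` for `x`
with `W = r`. The other factor: if `y` is coprime to `r`, `ml_MM_eq` writes it as a sum over
`q ∈ QW Q r` with coefficients `A'(q, c) = TW Q r q - ε' w_c TWr Q r r q`, `0 ≤ w_c ≤ 1` monotone in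
`c`; the two parts separately have the form required by `pair_gen` (`H18E/PG2`), with bound
`D = 2 r` (`0 ≤ TW, TWr ≤ (r/φ(r)) ∑_{w ∣ r} 1 ≤ r²`: take `D = r²`). If `y` is not coprime to `r`
(`ε' = 0`): `MB_expand` again. Split `S = S⁺ - S⁻` (nonnegative, constant in `c`, so monotone).
`pair_gen` gives for each of the at most `4 · 2` products: main term `∑_q (μ/φ)² c_q(x-y) ∑_c A A'`,
supported on `q > Q/r ≥ √Q` (one factor is `S`), at most `N r · r² ∑_{q > Q/r, sqfree, (q,r)=1}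
φ((q, x-y))/φ(q)² ≤ N r^3 C Q^(-1/4) Rk (x-y)` (`ss_tail` in `H18E/SS1`: `Q < q²`; `|c_q(D)| ≤
φ(q) φ(gcd)/φ(q)...`: for squarefree `q`, `|c_q(D)| = φ(gcd(q, D))`), error `2 r^4 Q^6`. -/
theorem noncompat : ∃ C : ℝ, 1 ≤ C ∧ ∀ (Q N r : ℕ) (x y : ℤ) (β ε ε' : ℝ), 0 < r →
    r ^ 100 ≤ Q → 8 ≤ Q → ¬ (IsCoprime x (r : ℤ) ∧ IsCoprime y (r : ℤ)) →
    (¬ IsCoprime x (r : ℤ) → ε = 0) → (¬ IsCoprime y (r : ℤ) → ε' = 0) →
    (1 ≤ x ∨ x + r * N ≤ 0) → (1 ≤ y ∨ y + r * N ≤ 0) → x ≠ y → 1 / 2 ≤ β → β ≤ 1 →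
    |ε| ≤ 1 → |ε'| ≤ 1 →
    |∑ c ∈ range N, MM Q r ε β (x + r * (c : ℕ)) * MM Q r ε' β (y + r * (c : ℕ))| ≤
      C * (r : ℝ) ^ 3 * N * (Q : ℝ) ^ (-(1 / 4) : ℝ) * Rk (x - y) + (Q : ℝ) ^ 9 := by
  obtain ⟨C2, hC2, htail⟩ := ss_tail
  refine ⟨4 * C2, by linarith, ?_⟩
  intro Q N r x y β ε ε' hr hrQ hQ hnc hεx hεy hx hy hxy hβ hβ1 hε hε'
  have hQr : (8 : ℝ) ≤ Q := by exact_mod_cast hQ
  have hr1 : (1 : ℝ) ≤ r := by exact_mod_cast hr
  by_cases hN0 : N = 0
  · subst hN0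
    simp only [range_zero, sum_empty, Nat.cast_zero, zero_mul, mul_zero, abs_zero, zero_add]
    positivity
  have hN : 1 ≤ N := by omega
  obtain ⟨U, V, η, hη, hU0, hUD, hV0, hVD, hUm, hVm, hMx, hZx⟩ :=
    mb_rep Q N r x β ε hr hN hx hβ1 hε hεx
  obtain ⟨U', V', η', hη', hU0', hUD', hV0', hVD', hUm', hVm', hMy, hZy⟩ :=
    mb_rep Q N r y β ε' hr hN hy hβ1 hε' hεy
  set D : ℝ := (r : ℝ) with hD
  have hD0 : 0 ≤ D := by positivity
  set d : ℤ := x - y with hd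
  have hd0 : d ≠ 0 := sub_ne_zero.mpr hxy
  set T : (ℕ → ℕ → ℝ) → (ℕ → ℕ → ℝ) → ℝ := fun A B => ∑ c ∈ range N,
    ml_S Q r x A c * ml_S Q r y B c with hT
  set Z : (ℕ → ℕ → ℝ) → (ℕ → ℕ → ℝ) → ℝ := fun A B =>
    ∑ q ∈ QW Q r, ((ArithmeticFunction.moebius q : ℝ) / (Nat.totient q : ℝ)) ^ 2 *
        cq q d * ∑ c ∈ range N, A q c * B q c with hZ
  have h11 : |T U U' - Z U U'| ≤ 2 * D ^ 2 * (Q : ℝ) ^ 6 :=
    pair_gen Q N r hr x y U U' D hD0 hU0 hUD hU0' hUD' hUm hUm'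
  have h12 : |T U V' - Z U V'| ≤ 2 * D ^ 2 * (Q : ℝ) ^ 6 :=
    pair_gen Q N r hr x y U V' D hD0 hU0 hUD hV0' hVD' hUm hVm'
  have h21 : |T V U' - Z V U'| ≤ 2 * D ^ 2 * (Q : ℝ) ^ 6 :=
    pair_gen Q N r hr x y V U' D hD0 hV0 hVD hU0' hUD' hVm hUm'
  have h22 : |T V V' - Z V V'| ≤ 2 * D ^ 2 * (Q : ℝ) ^ 6 :=
    pair_gen Q N r hr x y V V' D hD0 hV0 hVD hV0' hVD' hVm hVm'
  have hexp : ∑ c ∈ range N, MM Q r ε β (x + r * (c : ℕ)) * MM Q r ε' β (y + r * (c : ℕ)) =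
      T U U' - η' * T U V' - η * T V U' + η * η' * T V V' := by
    simp only [hT]
    rw [mul_sum, mul_sum, mul_sum, ← sum_sub_distrib, ← sum_sub_distrib, ← sum_add_distrib]
    apply sum_congr rfl
    intro c hc
    rw [hMx c (mem_range.mp hc), hMy c (mem_range.mp hc)]
    ring
  have herr : |(T U U' - η' * T U V' - η * T V U' + η * η' * T V V') -
      (Z U U' - η' * Z U V' - η * Z V U' + η * η' * Z V V')| ≤ 8 * D ^ 2 * (Q : ℝ) ^ 6 := by
    have gen : ∀ (κ u v : ℝ), |κ| ≤ 1 → |u - v| ≤ 2 * D ^ 2 * (Q : ℝ) ^ 6 →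
        |κ * (u - v)| ≤ 2 * D ^ 2 * (Q : ℝ) ^ 6 := by
      intro κ u v h1 h2
      rw [abs_mul]
      calc |κ| * |u - v| ≤ 1 * (2 * D ^ 2 * (Q : ℝ) ^ 6) :=
            mul_le_mul h1 h2 (abs_nonneg _) (by norm_num)
        _ = _ := one_mul _
    have e1 := gen 1 _ _ (by norm_num) h11
    have e2 := gen η' _ _ hη' h12
    have e3 := gen η _ _ hη h21
    have e4 := gen (η * η') _ _ (by
      rw [abs_mul]
      exact mul_le_one₀ hη (abs_nonneg _) hη') h22
    have e5 : (T U U' - η' * T U V' - η * T V U' + η * η' * T V V') -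
      (Z U U' - η' * Z U V' - η * Z V U' + η * η' * Z V V') =
      1 * (T U U' - Z U U') - η' * (T U V' - Z U V') - η * (T V U' - Z V U') +
        η * η' * (T V V' - Z V V') := by ring
    rw [e5]
    rw [abs_le] at e1 e2 e3 e4 ⊢
    constructor <;> linarith [e1.1, e1.2, e2.1, e2.2, e3.1, e3.2, e4.1, e4.2]
  have herr2 : 8 * D ^ 2 * (Q : ℝ) ^ 6 ≤ (Q : ℝ) ^ 9 := by
    have h1 : D ^ 2 ≤ Q := by
      have := XCG_W_sq Q r hr hrQ
      rw [hD]
      exact_mod_cast this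
    calc 8 * D ^ 2 * (Q : ℝ) ^ 6 ≤ Q * Q * (Q : ℝ) ^ 6 := by gcongr
      _ = (Q : ℝ) ^ 8 := by ring
      _ ≤ (Q : ℝ) ^ 9 := pow_le_pow_right₀ (by linarith) (by norm_num)
  set I : ℕ → ℝ := fun q => ∑ c ∈ range N, (U q c - η * V q c) * (U' q c - η' * V' q c) with hI
  have hmain : Z U U' - η' * Z U V' - η * Z V U' + η * η' * Z V V' =
      ∑ q ∈ QW Q r, ((ArithmeticFunction.moebius q : ℝ) / (Nat.totient q : ℝ)) ^ 2 *
        cq q d * I q := by
    simp only [hZ, hI]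
    rw [mul_sum, mul_sum, mul_sum, ← sum_sub_distrib, ← sum_sub_distrib, ← sum_add_distrib]
    apply sum_congr rfl
    intro q _
    have h1 : ∑ c ∈ range N, (U q c - η * V q c) * (U' q c - η' * V' q c) =
        ∑ c ∈ range N, U q c * U' q c - η' * ∑ c ∈ range N, U q c * V' q c -
          η * ∑ c ∈ range N, V q c * U' q c + η * η' * ∑ c ∈ range N, V q c * V' q c := by
      rw [mul_sum, mul_sum, mul_sum, ← sum_sub_distrib, ← sum_sub_distrib, ← sum_add_distrib]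
      apply sum_congr rfl
      intro c _
      ring
    rw [h1]
    ring
  have hIsmall : ∀ q : ℕ, q ^ 2 ≤ Q → I q = 0 := by
    intro q hq
    have hWq : q * r ≤ Q := by
      have h1 := XCG_W_sq Q r hr hrQ
      have h2 : (q * r) ^ 2 ≤ Q ^ 2 := by
        calc (q * r) ^ 2 = r ^ 2 * q ^ 2 := by ring
          _ ≤ Q * Q := Nat.mul_le_mul h1 hq
          _ = Q ^ 2 := by ring
      exact (Nat.pow_le_pow_iff_left (by norm_num)).mp h2
    simp only [hI]
    apply sum_eq_zero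
    intro c _
    by_cases hxc : IsCoprime x (r : ℤ)
    · rw [hZy (fun h => hnc ⟨hxc, h⟩) q c hWq, mul_zero]
    · rw [hZx hxc q c hWq, zero_mul]
  have hIbig : ∀ q : ℕ, |I q| ≤ N * (4 * D ^ 2) := by
    intro q
    simp only [hI]
    refine (abs_sum_le_sum_abs _ _).trans ?_
    calc ∑ c ∈ range N, |(U q c - η * V q c) * (U' q c - η' * V' q c)|
        ≤ ∑ _c ∈ range N, 4 * D ^ 2 := by
          apply sum_le_sum
          intro c _
          rw [abs_mul]
          have key : ∀ η u v : ℝ, |η| ≤ 1 → 0 ≤ u → u ≤ D → 0 ≤ v → v ≤ D →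
              |u - η * v| ≤ 2 * D := by
            intro η u v hη hu hu' hv hv'
            have h1 : |η * v| ≤ D := by
              rw [abs_mul, abs_of_nonneg hv]
              calc |η| * v ≤ 1 * D := mul_le_mul hη hv' hv (by norm_num)
                _ = D := one_mul _
            have h2 := abs_le.mp h1
            rw [abs_le]
            constructor <;> linarith
          have h1 := key _ _ _ hη (hU0 q c) (hUD q c) (hV0 q c) (hVD q c)
          have h2 := key _ _ _ hη' (hU0' q c) (hUD' q c) (hV0' q c) (hVD' q c)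
          calc |U q c - η * V q c| * |U' q c - η' * V' q c| ≤ (2 * D) * (2 * D) :=
                mul_le_mul h1 h2 (abs_nonneg _) (by positivity)
            _ = 4 * D ^ 2 := by ring
      _ = N * (4 * D ^ 2) := by rw [sum_const, card_range, nsmul_eq_mul]
  set q4 := (Q : ℝ) ^ (-(1 / 4) : ℝ) with hq4
  have hq40 : 0 ≤ q4 := by positivity
  have hRk : 1 ≤ Rk d := one_le_Rk d
  have hbound : |∑ q ∈ QW Q r, ((ArithmeticFunction.moebius q : ℝ) / (Nat.totient q : ℝ)) ^ 2 *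
        cq q d * I q| ≤ 4 * C2 * D ^ 3 * N * q4 * Rk d := by
    rw [← sum_filter_add_sum_filter_not (QW Q r) (fun q => q ^ 2 ≤ Q)]
    have p1 : ∑ q ∈ (QW Q r).filter (fun q => q ^ 2 ≤ Q),
        ((ArithmeticFunction.moebius q : ℝ) / (Nat.totient q : ℝ)) ^ 2 * cq q d * I q = 0 := by
      apply sum_eq_zero
      intro q hq
      rw [hIsmall q (mem_filter.mp hq).2, mul_zero]
    rw [p1, zero_add]
    refine (abs_sum_le_sum_abs _ _).trans ?_
    calc ∑ q ∈ (QW Q r).filter (fun q => ¬ q ^ 2 ≤ Q),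
          |((ArithmeticFunction.moebius q : ℝ) / (Nat.totient q : ℝ)) ^ 2 * cq q d * I q|
        ≤ ∑ q ∈ (QW Q r).filter (fun q => ¬ q ^ 2 ≤ Q),
          (if Squarefree q then (Nat.totient (Nat.gcd q d.natAbs) : ℝ) /
            (Nat.totient q : ℝ) ^ 2 else 0) * (N * (4 * D ^ 2)) := by
          apply sum_le_sum
          intro q _
          rw [abs_mul, abs_mul]
          have h2 : |((ArithmeticFunction.moebius q : ℝ) / (Nat.totient q : ℝ)) ^ 2| =
              ((ArithmeticFunction.moebius q : ℝ) / (Nat.totient q : ℝ)) ^ 2 :=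
            abs_of_nonneg (by positivity)
          rw [h2]
          exact mul_le_mul (XCG_cq_le q d) (hIbig q) (abs_nonneg _) (by
            split_ifs <;> positivity)
      _ = (∑ q ∈ ((QW Q r).filter (fun q => ¬ q ^ 2 ≤ Q)).filter Squarefree,
            (Nat.totient (Nat.gcd q d.natAbs) : ℝ) / (Nat.totient q : ℝ) ^ 2) *
              (N * (4 * D ^ 2)) := by
          rw [← sum_mul, sum_filter (s := (QW Q r).filter (fun q => ¬ q ^ 2 ≤ Q))]
      _ ≤ (C2 * q4 * Rk d) * (N * (4 * D ^ 2)) := by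
          apply mul_le_mul_of_nonneg_right _ (by positivity)
          apply htail Q d hd0 (by omega)
          intro q hq
          rw [mem_filter, mem_filter] at hq
          exact ⟨hq.2, not_le.mp hq.1.2⟩
      _ = 4 * C2 * D ^ 2 * N * q4 * Rk d := by ring
      _ ≤ 4 * C2 * D ^ 3 * N * q4 * Rk d := by
          have h7 : D ^ 2 ≤ D ^ 3 := pow_le_pow_right₀ hr1 (by norm_num)
          gcongr
  rw [hexp]
  rw [← hmain] at hbound
  have h8 := abs_le.mp herr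
  have h9 := abs_le.mp hbound
  rw [abs_le]
  constructor <;> linarith [h8.1, h8.2, h9.1, h9.2]

end Pool.Agent.Lib.H18Q
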