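import Pool.Agent.Lib.H18Q.MPA
import Pool.Agent.Lib.H68X.XL1
import Pool.Agent.Lib.H68X.XRL
import Pool.Agent.Lib.H68X.XEX

/-!
# Project H18Q, chunk MP: the degrees of all vertices outside a set with power savings
-/

open Finset

namespace Pool.Agent.Lib.H18Q

open Pool.Agent.Lib.H68T Pool.Agent.Lib.H18E Pool.Agent.Lib.H18P Pool.Agent.Lib.GoldbachGraph

theorem mp_ev (C u v : ℝ) (h : u < v) : ∃ n0 : ℕ, ∀ n : ℕ, n0 ≤ n →
    C * (1 + Real.log n) ^ 4 * (n : ℝ) ^ u ≤ (n : ℝ) ^ v := by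
  set ε := (v - u) / 8 with hε
  have hε0 : 0 < ε := by rw [hε]; linarith
  have ht : Filter.Tendsto (fun n : ℕ => (n : ℝ) ^ (4 * ε)) Filter.atTop Filter.atTop :=
    (tendsto_rpow_atTop (by positivity)).comp tendsto_natCast_atTop_atTop
  have h1 := (ht.eventually_ge_atTop (|C| * (1 + 1 / ε) ^ 4)).and
    (Filter.eventually_ge_atTop 1)
  obtain ⟨n0, hn0⟩ := Filter.eventually_atTop.1 h1
  refine ⟨n0, fun n hn => ?_⟩
  obtain ⟨h2, h3⟩ := hn0 n hn
  have hn1 : (1 : ℝ) ≤ n := by exact_mod_cast h3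
  have hn0' : (0 : ℝ) < n := by linarith
  have hlog := Real.log_le_rpow_div hn0'.le hε0
  have h4 : (1 : ℝ) ≤ (n : ℝ) ^ ε := Real.one_le_rpow hn1 hε0.le
  have h5 : 1 + Real.log n ≤ (1 + 1 / ε) * (n : ℝ) ^ ε := by
    rw [add_mul, one_mul, one_div, inv_mul_eq_div]
    linarith
  have h6 : 0 ≤ 1 + Real.log n := by
    have := Real.log_nonneg hn1
    linarith
  have h7 : (1 + Real.log n) ^ 4 ≤ (1 + 1 / ε) ^ 4 * (n : ℝ) ^ (4 * ε) := by
    calc (1 + Real.log n) ^ 4 ≤ ((1 + 1 / ε) * (n : ℝ) ^ ε) ^ 4 := pow_le_pow_left₀ h6 h5 4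
      _ = (1 + 1 / ε) ^ 4 * (n : ℝ) ^ (4 * ε) := by
          rw [mul_pow, ← Real.rpow_natCast ((n : ℝ) ^ ε), ← Real.rpow_mul hn0'.le]
          congr 2
          push_cast
          ring
  have h8 : 0 ≤ (n : ℝ) ^ (4 * ε) := by positivity
  calc C * (1 + Real.log n) ^ 4 * (n : ℝ) ^ u
      ≤ |C| * ((1 + 1 / ε) ^ 4 * (n : ℝ) ^ (4 * ε)) * (n : ℝ) ^ u := by
        apply mul_le_mul_of_nonneg_right _ (by positivity)
        exact mul_le_mul (le_abs_self C) h7 (by positivity) (abs_nonneg C)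
    _ = (|C| * (1 + 1 / ε) ^ 4) * (n : ℝ) ^ (4 * ε) * (n : ℝ) ^ u := by ring
    _ ≤ (n : ℝ) ^ (4 * ε) * (n : ℝ) ^ (4 * ε) * (n : ℝ) ^ u := by
        apply mul_le_mul_of_nonneg_right _ (by positivity)
        exact mul_le_mul_of_nonneg_right h2 h8
    _ = (n : ℝ) ^ v := by
        rw [← Real.rpow_add hn0', ← Real.rpow_add hn0']
        congr 1
        rw [hε]
        ring

theorem mp_size (K : ℝ) (hK : 1 ≤ K) (n : ℕ) (q : ℝ) (hn : 1 ≤ n)
    (h : (n : ℝ) ^ (1 / (500 * K)) ≤ q) :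
    (n : ℝ) * q ^ (-(1 / 20) : ℝ) ≤ (n : ℝ) ^ (1 - 1 / (10000 * K)) := by
  have hn1 : (1 : ℝ) ≤ n := by exact_mod_cast hn
  have hn0 : (0 : ℝ) < n := by linarith
  have h1 : q ^ (-(1 / 20) : ℝ) ≤ ((n : ℝ) ^ (1 / (500 * K))) ^ (-(1 / 20) : ℝ) :=
    Real.rpow_le_rpow_of_nonpos (by positivity) h (by norm_num)
  rw [← Real.rpow_mul hn0.le] at h1
  have h2 : (n : ℝ) ^ (1 - 1 / (10000 * K)) = n * (n : ℝ) ^ (1 / (500 * K) * (-(1 / 20))) := by
    rw [Real.rpow_sub hn0, Real.rpow_one, div_eq_mul_inv, ← Real.rpow_neg hn0.le]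
    congr 2
    have : K ≠ 0 := by linarith
    field_simp
    norm_num
  rw [h2]
  exact mul_le_mul_of_nonneg_left h1 hn0.le

theorem mp_mult (n r : ℕ) (ρ : ℝ) (R : ℕ) (hn : 1 ≤ n) (hR : r ≤ 120 * R)
    (hr : (n : ℝ) ^ ρ < r) :
    (((Icc 1 n).filter (fun x => R ∣ x)).card : ℝ) ≤ 120 * (n : ℝ) ^ (1 - ρ) := by
  have hn1 : (1 : ℝ) ≤ n := by exact_mod_cast hn
  have hn0 : (0 : ℝ) < n := by linarith
  have h1 : Icc 1 n = Ioc 0 n := by
    ext x
    simp only [mem_Icc, mem_Ioc]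
    omega
  have hpow : 0 < (n : ℝ) ^ ρ := by positivity
  have hr0 : (0 : ℝ) < r := hpow.trans hr
  have hRr : (r : ℝ) ≤ 120 * R := by exact_mod_cast hR
  have hR0 : (0 : ℝ) < R := by linarith
  rw [h1, Nat.Ioc_filter_dvd_card_eq_div]
  calc ((n / R : ℕ) : ℝ) ≤ (n : ℝ) / R := Nat.cast_div_le
    _ ≤ 120 * (n : ℝ) ^ (1 - ρ) := by
        rw [div_le_iff₀ hR0, Real.rpow_sub hn0, Real.rpow_one]
        have h2 : (n : ℝ) / (n : ℝ) ^ ρ * (n : ℝ) ^ ρ = n := div_mul_cancel₀ _ hpow.ne'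
        have h3 : 0 < (n : ℝ) / (n : ℝ) ^ ρ := by positivity
        calc (n : ℝ) = (n : ℝ) / (n : ℝ) ^ ρ * (n : ℝ) ^ ρ := h2.symm
          _ ≤ (n : ℝ) / (n : ℝ) ^ ρ * (120 * R) :=
              mul_le_mul_of_nonneg_left (hr.le.trans hRr) h3.le
          _ = _ := by ring

/-- **Degrees with power savings.**

Proof. Let `c1, K1, c01` be the constants of `deg_exclev`, `c2, K2` those of `good_below`
(`H68X/XEX`), `c = min c1 c2`, and `K3, c03` (`K4, c04`) those of `deg_goodlev` for `c` (for `c2`);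
`K` the maximum of `K1, …, K4, 1`, `c0 = min(c01, c03, c04)`, `δ0 = 1/(20000 K)`. Given `0 < a < b < δ0`
let `ρ = (a + b)/2`, `Q = ⌊n^(1/(2K))⌋` (`MP_par`). `SE x ≥ 1` (`DG_SE`).
(1) `Good c Q`: `deg_goodlev`; `|B| ≤ n Q^(-1/20) ≤ n^(1 - 1/(80 K))` `≤ n^(1-a)/2` and `< c0 n/(log n)² ≤
ohdeg`; `r1 = 0` (`¬ 0 ∣ x` for `x ≥ 1`).
(2) Otherwise there are `r ≤ Q`, `ψ` primitive, real, `≠ 1`, and a real zero `β ∈ [1 - c/log Q, 1]`,
`β < 1` (`LFunction_ne_zero_of_one_le_re`), i.e. `Exc c Q r ψ β`.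
(2a) `r^100 > Q`: `Good c2 (r - 1)` by `good_below` (`Exc.mono`), `RegP K (r-1) n`: as in (1) with
`|B| ≤ n (r-1)^(-1/20) ≤ n^(1 - 1/(10^4 K))`.
(2b) `r^100 ≤ Q`: `deg_exclev` (`(1-β) log Q ≤ c ≤ c1`), set `B0`, `|B0| ≤ n^(1 - 1/(80 K))`.
If `r > n^ρ`: `B = B0 ∪ {multiples of rad7 r in [1, n]}`, `|B| ≤ |B0| + n/rad7 r ≤ |B0| + 120 n^(1-ρ) ≤
n^(1-a)/2` (`rad7_ge`); for `x ∉ B`, `rad7_dvd` gives a prime `p ≥ 7`, `p ∣ r`, `p ∤ x`, so
`ohdeg ≥ c0 SE x n/(log n)² > |B|`, `r1 = 0`.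
If `r ≤ n^ρ`: `B = B0`, `r1 = rad7 r ≥ 7` (`rad7_seven`); `ohdeg ≥ c0 (1-β) n/(log n)² ≥ c n^(1-ρ)/
(log n)^5 ≥ n^(1-b)` (`zero_lower`), and `> |B0|` since `ρ < 1/(80 K)`; if `r1 ∤ x`, `rad7_dvd`.
In cases (1), (2a), and (2b) with `r > n^ρ`: `c0 n/(log n)² ≥ n^(1-b)`. -/
theorem main_pow : ∃ δ0 c0 : ℝ, 0 < δ0 ∧ δ0 < 1 / 2 ∧ 0 < c0 ∧ ∀ a b : ℝ, 0 < a → a < b →
    b < δ0 → ∃ n0 : ℕ, ∀ n : ℕ, n0 ≤ n → ∃ B : Finset ℕ, B ⊆ Icc 1 n ∧
      (B.card : ℝ) ≤ (n : ℝ) ^ (1 - a) / 2 ∧ ∃ r1 : ℕ, (r1 = 0 ∨ 7 ≤ r1) ∧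
      ∀ x ∈ Icc 1 n, x ∉ B → B.card < ohdeg n x ∧ (n : ℝ) ^ (1 - b) ≤ ohdeg n x ∧
        (¬ r1 ∣ x → c0 * SE x * n / (Real.log n) ^ 2 ≤ ohdeg n x) := by
  classical
  obtain ⟨c1, K1, c01, hc1, hc11, hK1, hc01, hexc⟩ := deg_exclev
  obtain ⟨c2, K2, hc2, hgb⟩ := good_below
  obtain ⟨cz, hcz, hzl⟩ := zero_lower
  set c := min c1 c2 with hc
  have hc0 : 0 < c := lt_min hc1 hc2
  obtain ⟨K3, c03, hK3, hc03, hg3⟩ := deg_goodlev c hc0
  obtain ⟨K4, c04, hK4, hc04, hg4⟩ := deg_goodlev c2 hc2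
  set K := max (max (max K1 K2) (max K3 K4)) 1 with hKd
  have hK : 1 ≤ K := le_max_right _ _
  have k1 : K1 ≤ K := ((le_max_left _ _).trans (le_max_left _ _)).trans (le_max_left _ _)
  have k2 : K2 ≤ K := ((le_max_right _ _).trans (le_max_left _ _)).trans (le_max_left _ _)
  have k3 : K3 ≤ K := ((le_max_left _ _).trans (le_max_right _ _)).trans (le_max_left _ _)
  have k4 : K4 ≤ K := ((le_max_right _ _).trans (le_max_right _ _)).trans (le_max_left _ _)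
  set c0 := min c01 (min c03 c04) with hc0d
  have hc0' : 0 < c0 := lt_min hc01 (lt_min hc03 hc04)
  have w1 : c0 ≤ c01 := min_le_left _ _
  have w3 : c0 ≤ c03 := (min_le_right _ _).trans (min_le_left _ _)
  have w4 : c0 ≤ c04 := (min_le_right _ _).trans (min_le_right _ _)
  have hK0 : 0 < K := by linarith
  refine ⟨1 / (20000 * K), c0, by positivity, ?_, hc0', ?_⟩
  · rw [div_lt_div_iff₀ (by positivity) (by norm_num)]
    linarith
  intro a b ha hab hb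
  obtain ⟨n1, hn1⟩ := MP_par K hK
  set ρ := (a + b) / 2 with hρ
  have hδ : 1 / (20000 * K) < 1 / (10000 * K) := by
    rw [div_lt_div_iff₀ (by positivity) (by positivity)]
    linarith
  have hδ2 : 1 / (20000 * K) ≤ 1 / 20000 := by
    rw [div_le_div_iff₀ (by positivity) (by positivity)]
    linarith
  obtain ⟨m1, hm1⟩ := mp_ev 4 (1 - 1 / (10000 * K)) (1 - a) (by linarith)
  obtain ⟨m2, hm2⟩ := mp_ev 480 (1 - ρ) (1 - a) (by linarith)
  obtain ⟨m3, hm3⟩ := mp_ev (1 / c0) (1 - a) 1 (by linarith)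
  obtain ⟨m4, hm4⟩ := mp_ev (1 / c0) (1 - b) 1 (by linarith)
  obtain ⟨m5, hm5⟩ := mp_ev (1 / (c0 * cz)) (1 - b) (1 - ρ) (by linarith)
  obtain ⟨m6, hm6⟩ := mp_ev 2 (1 - 1 / (10000 * K)) (1 - b) (by linarith)
  refine ⟨n1 + m1 + m2 + m3 + m4 + m5 + m6 + 16, fun n hn => ?_⟩
  obtain ⟨p1, p2, p3, p4⟩ := hn1 n (by omega)
  replace hm1 := hm1 n (by omega)
  replace hm2 := hm2 n (by omega)
  replace hm3 := hm3 n (by omega)
  replace hm4 := hm4 n (by omega)
  replace hm5 := hm5 n (by omega)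
  replace hm6 := hm6 n (by omega)
  set Q := ⌊(n : ℝ) ^ (1 / (2 * K))⌋₊ with hQ
  have hn16 : (16 : ℝ) ≤ n := by exact_mod_cast (by omega : 16 ≤ n)
  have hnpos : (0 : ℝ) < n := by linarith
  have hL1 : 1 ≤ Real.log n := by
    rw [Real.le_log_iff_exp_le hnpos]
    have := Real.exp_one_lt_d9
    linarith
  set L := Real.log n with hL
  have hL4 : (1 : ℝ) ≤ (1 + L) ^ 4 := one_le_pow₀ (by linarith)
  have hL24 : L ^ 2 ≤ (1 + L) ^ 4 := by
    have h1 : L ^ 2 ≤ (1 + L) ^ 2 := pow_le_pow_left₀ (by linarith) (by linarith) 2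
    have h2 : (1 + L) ^ 2 ≤ (1 + L) ^ 4 := pow_le_pow_right₀ (by linarith) (by norm_num)
    linarith
  have hL2p : 0 < L ^ 2 := by positivity
  -- the six asymptotic facts
  have hpA : 0 < (n : ℝ) ^ (1 - a) := by positivity
  have hpB : 0 < (n : ℝ) ^ (1 - b) := by positivity
  have hpC : 0 < (n : ℝ) ^ (1 - 1 / (10000 * K)) := by positivity
  have hpR : 0 < (n : ℝ) ^ (1 - ρ) := by positivity
  have F1 : (n : ℝ) ^ (1 - 1 / (10000 * K)) ≤ (n : ℝ) ^ (1 - a) / 4 := by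
    have h1 := mul_le_mul_of_nonneg_right hL4 hpC.le
    linarith
  have F2 : 120 * (n : ℝ) ^ (1 - ρ) ≤ (n : ℝ) ^ (1 - a) / 4 := by
    have h1 := mul_le_mul_of_nonneg_right hL4 hpR.le
    linarith
  have F3 : (n : ℝ) ^ (1 - a) / 2 < c0 * n / L ^ 2 := by
    rw [lt_div_iff₀ hL2p]
    rw [Real.rpow_one] at hm3
    have h1 : (1 + L) ^ 4 * (n : ℝ) ^ (1 - a) ≤ c0 * n := by
      have h2 := mul_le_mul_of_nonneg_left hm3 hc0'.le
      have h3 : c0 * (1 / c0 * (1 + L) ^ 4 * (n : ℝ) ^ (1 - a)) =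
          (1 + L) ^ 4 * (n : ℝ) ^ (1 - a) := by field_simp
      rwa [h3] at h2
    have h2 := mul_le_mul_of_nonneg_right hL24 hpA.le
    have h3 : 0 < (n : ℝ) ^ (1 - a) * L ^ 2 := by positivity
    linarith
  have F4 : (n : ℝ) ^ (1 - b) ≤ c0 * n / L ^ 2 := by
    rw [le_div_iff₀ hL2p]
    rw [Real.rpow_one] at hm4
    have h1 : (1 + L) ^ 4 * (n : ℝ) ^ (1 - b) ≤ c0 * n := by
      have h2 := mul_le_mul_of_nonneg_left hm4 hc0'.le
      have h3 : c0 * (1 / c0 * (1 + L) ^ 4 * (n : ℝ) ^ (1 - b)) =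
          (1 + L) ^ 4 * (n : ℝ) ^ (1 - b) := by field_simp
      rwa [h3] at h2
    have h2 := mul_le_mul_of_nonneg_right hL24 hpB.le
    linarith
  have F5 : (1 + L) ^ 4 * (n : ℝ) ^ (1 - b) ≤ c0 * cz * (n : ℝ) ^ (1 - ρ) := by
    have h2 := mul_le_mul_of_nonneg_left hm5 (by positivity : 0 ≤ c0 * cz)
    have h3 : c0 * cz * (1 / (c0 * cz) * (1 + L) ^ 4 * (n : ℝ) ^ (1 - b)) =
        (1 + L) ^ 4 * (n : ℝ) ^ (1 - b) := by field_simp
    rwa [h3] at h2
  have F6 : (n : ℝ) ^ (1 - 1 / (10000 * K)) < (n : ℝ) ^ (1 - b) := by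
    have h1 := mul_le_mul_of_nonneg_right hL4 hpC.le
    linarith
  -- large degrees
  have hbig : ∀ c' : ℝ, c0 ≤ c' → ∀ x : ℕ, c' * SE x * n / L ^ 2 ≤ ohdeg n x →
      (n : ℝ) ^ (1 - a) / 2 < ohdeg n x ∧ (n : ℝ) ^ (1 - b) ≤ ohdeg n x ∧
        c0 * SE x * n / L ^ 2 ≤ ohdeg n x := by
    intro c' hc' x hx
    have hS := DG_SE x
    have h1 : c0 * SE x * n / L ^ 2 ≤ c' * SE x * n / L ^ 2 := by
      apply div_le_div_of_nonneg_right _ hL2p.le
      apply mul_le_mul_of_nonneg_right _ hnpos.le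
      exact mul_le_mul_of_nonneg_right hc' (by linarith)
    have h2 : c0 * n / L ^ 2 ≤ c0 * SE x * n / L ^ 2 := by
      apply div_le_div_of_nonneg_right _ hL2p.le
      apply mul_le_mul_of_nonneg_right _ hnpos.le
      nlinarith
    exact ⟨by linarith, by linarith, by linarith⟩
  have hQ500 : (n : ℝ) ^ (1 / (500 * K)) ≤ (Q : ℝ) := by
    refine le_trans ?_ p3
    apply Real.rpow_le_rpow_of_exponent_le (by linarith)
    rw [div_le_div_iff₀ (by positivity) (by positivity)]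
    linarith
  have hlogQ : 0 < Real.log Q := by
    have h1 := p1.logQ_ge hK
    linarith
  by_cases hG : Good c Q
  · -- (1)
    obtain ⟨B, hBs, hBc, hBx⟩ := hg3 n Q (p1.mono hK0.le k3) hG
    have hB1 : (B.card : ℝ) ≤ (n : ℝ) ^ (1 - a) / 2 := by
      have := mp_size K hK n Q (by omega) hQ500
      linarith
    refine ⟨B, hBs, hB1, 0, Or.inl rfl, fun x hx hxB => ?_⟩
    obtain ⟨q1, q2, q3⟩ := hbig c03 w3 x (hBx x hx hxB)
    refine ⟨?_, q2, fun _ => q3⟩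
    have : (B.card : ℝ) < ohdeg n x := by linarith
    exact_mod_cast this
  · -- (2)
    unfold Good at hG
    push Not at hG
    obtain ⟨r, hr, ψ, hrQ, hprim, hne, hsq, β, hβ1, hβ2, hz⟩ := hG
    have hβ : β < 1 := by
      rcases lt_or_eq_of_le hβ2 with h | h
      · exact h
      · exfalso
        rw [h] at hz
        refine DirichletCharacter.LFunction_ne_zero_of_one_le_re ψ (Or.inl hne) ?_ hz
        simp
    by_cases hr100 : r ^ 100 ≤ Q
    · -- (2b)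
      have hL' : (1 - β) * Real.log Q ≤ c1 := by
        have h1 : 1 - β ≤ c / Real.log Q := by linarith
        rw [le_div_iff₀ hlogQ] at h1
        exact h1.trans (min_le_left _ _)
      obtain ⟨h120, B0, hBs, hBc, hBx⟩ := hexc n Q (p1.mono hK0.le k1) r ψ hr100 hprim hne hsq β
        hβ hz hL'
      have hB0 : (B0.card : ℝ) ≤ (n : ℝ) ^ (1 - 1 / (10000 * K)) := by
        have := mp_size K hK n Q (by omega) hQ500
        linarith
      by_cases hrn : (n : ℝ) ^ ρ < r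
      · -- large conductor
        have hM := mp_mult n r ρ (rad7 r) (by omega) (rad7_ge r ψ hprim hsq) hrn
        set M := (Icc 1 n).filter (fun x => rad7 r ∣ x) with hMd
        have hcard : ((B0 ∪ M).card : ℝ) ≤ (n : ℝ) ^ (1 - a) / 2 := by
          have h1 : ((B0 ∪ M).card : ℝ) ≤ B0.card + M.card := by
            exact_mod_cast card_union_le B0 M
          linarith
        refine ⟨B0 ∪ M, union_subset hBs (filter_subset _ _), hcard, 0, Or.inl rfl,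
          fun x hx hxB => ?_⟩
        rw [mem_union, not_or] at hxB
        have hxM : ¬ rad7 r ∣ x := fun h => hxB.2 (mem_filter.2 ⟨hx, h⟩)
        have hp := (rad7_dvd r x).resolve_left hxM
        obtain ⟨q1, q2, q3⟩ := hbig c01 w1 x ((hBx x hx hxB.1).2 hp)
        refine ⟨?_, q2, fun _ => q3⟩
        have : ((B0 ∪ M).card : ℝ) < ohdeg n x := by linarith
        exact_mod_cast this
      · -- small conductor
        rw [not_lt] at hrn
        have hr0 : (0 : ℝ) < r := by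
          have : 0 < r := by omega
          exact_mod_cast this
        have hρ1 : ρ < 1 := by linarith
        have hlr : Real.log r ≤ L := by
          have h1 := Real.log_le_log hr0 hrn
          rw [Real.log_rpow hnpos] at h1
          nlinarith
        have hlr0 : 0 ≤ Real.log r := Real.log_nonneg (by
          have : 1 ≤ r := by omega
          exact_mod_cast this)
        have hzr := hzl r ψ hne hsq β hβ hz
        have hnρ : 0 < (n : ℝ) ^ ρ := by positivity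
        have h1 : cz / ((n : ℝ) ^ ρ * (1 + L) ^ 2) ≤ 1 - β := by
          refine le_trans ?_ hzr
          apply div_le_div_of_nonneg_left hcz.le (by positivity)
          apply mul_le_mul hrn _ (by positivity) hnρ.le
          exact pow_le_pow_left₀ (by linarith) (by linarith) 2
        have h2 : (n : ℝ) ^ (1 - b) ≤ c01 * (1 - β) * n / L ^ 2 := by
          have h3 : c0 * (cz / ((n : ℝ) ^ ρ * (1 + L) ^ 2)) * n / L ^ 2 ≤
              c01 * (1 - β) * n / L ^ 2 := by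
            apply div_le_div_of_nonneg_right _ hL2p.le
            apply mul_le_mul_of_nonneg_right _ hnpos.le
            exact mul_le_mul w1 h1 (by positivity) hc01.le
          refine le_trans ?_ h3
          rw [le_div_iff₀ hL2p]
          have h4 : c0 * (cz / ((n : ℝ) ^ ρ * (1 + L) ^ 2)) * n =
              c0 * cz * (n : ℝ) ^ (1 - ρ) / (1 + L) ^ 2 := by
            rw [Real.rpow_sub hnpos, Real.rpow_one]
            field_simp
          rw [h4, le_div_iff₀ (by positivity)]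
          refine le_trans ?_ F5
          have h5 : L ^ 2 * (1 + L) ^ 2 ≤ (1 + L) ^ 4 := by
            have h6 : L ^ 2 ≤ (1 + L) ^ 2 := pow_le_pow_left₀ (by linarith) (by linarith) 2
            calc L ^ 2 * (1 + L) ^ 2 ≤ (1 + L) ^ 2 * (1 + L) ^ 2 :=
                  mul_le_mul_of_nonneg_right h6 (by positivity)
              _ = _ := by ring
          calc (n : ℝ) ^ (1 - b) * L ^ 2 * (1 + L) ^ 2 = (L ^ 2 * (1 + L) ^ 2) *
                (n : ℝ) ^ (1 - b) := by ring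
            _ ≤ (1 + L) ^ 4 * (n : ℝ) ^ (1 - b) := mul_le_mul_of_nonneg_right h5 hpB.le
        refine ⟨B0, hBs, by linarith, rad7 r, Or.inr (rad7_seven r ψ hprim hsq h120),
          fun x hx hxB => ?_⟩
        obtain ⟨g1, g2⟩ := hBx x hx hxB
        have g3 : (n : ℝ) ^ (1 - b) ≤ ohdeg n x := h2.trans g1
        refine ⟨?_, g3, fun hd => ?_⟩
        · have : (B0.card : ℝ) < ohdeg n x := by linarith
          exact_mod_cast this
        · exact (hbig c01 w1 x (g2 ((rad7_dvd r x).resolve_left hd))).2.2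
    · -- (2a)
      rw [not_le] at hr100
      obtain ⟨r1, r2, r3⟩ := p4 r hr100 hrQ
      have hE : Exc c2 Q r ψ β := by
        refine ⟨hrQ, hprim, hne, hsq, ?_, hβ, hz⟩
        have h1 : c / Real.log Q ≤ c2 / Real.log Q :=
          div_le_div_of_nonneg_right (min_le_right _ _) hlogQ.le
        linarith
      have hG2 := hgb Q r ψ β (k2.trans r2) hE
      obtain ⟨B, hBs, hBc, hBx⟩ := hg4 n (r - 1) (r1.mono hK0.le k4) hG2
      have hB1 : (B.card : ℝ) ≤ (n : ℝ) ^ (1 - a) / 2 := by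
        have := mp_size K hK n ((r - 1 : ℕ) : ℝ) (by omega) r3
        linarith
      refine ⟨B, hBs, hB1, 0, Or.inl rfl, fun x hx hxB => ?_⟩
      obtain ⟨q1, q2, q3⟩ := hbig c04 w4 x (hBx x hx hxB)
      refine ⟨?_, q2, fun _ => q3⟩
      have : (B.card : ℝ) < ohdeg n x := by linarith
      exact_mod_cast this

end Pool.Agent.Lib.H18Q
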