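import Pool.Agent.Lib.H18Q.DX
import Pool.Agent.Lib.H68X.XL1
import Pool.Agent.Lib.H68X.XRL
import Pool.Agent.Lib.H68X.XEX

/-!
# Project H18Q, chunk MPA: parameters, and the distance of a real zero from 1
-/

open Finset

namespace Pool.Agent.Lib.H18Q

open Pool.Agent.Lib.H68T Pool.Agent.Lib.H18E Pool.Agent.Lib.H18P Pool.Agent.Lib.GoldbachGraph

/-- A real zero is not too close to `1`: `1 - β ≥ c/(r (1 + log r)²)`.

Proof. `r ≤ 100`: `zero_elementary` (`H68X/XSIE`). `r ≥ 100`: if `β < 1 - 1/log r` clear; else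
`1/(100 r) ≤ ‖L(1, ψ)‖` (`L1_lower`, `H68X/XL1`) `≤ C (1 - β) (log r)²` (`L1_upper`, `H68X/XRL`). -/
theorem zero_lower : ∃ c : ℝ, 0 < c ∧ ∀ (r : ℕ) [NeZero r] (ψ : DirichletCharacter ℂ r), ψ ≠ 1 →
    ψ ^ 2 = 1 → ∀ β : ℝ, β < 1 → ψ.LFunction (β : ℂ) = 0 →
    c / (r * (1 + Real.log r) ^ 2) ≤ 1 - β := by
  obtain ⟨c1, hc1, H1⟩ := Pool.Agent.Lib.H68T.zero_elementary
  obtain ⟨C, hC, H2⟩ := Pool.Agent.Lib.H68T.L1_upper
  refine ⟨min (c1 / 100) (min 1 (1 / (100 * C))), by positivity, ?_⟩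
  intro r _ ψ hψ hψ2 β hβ h0
  set c := min (c1 / 100) (min 1 (1 / (100 * C))) with hc
  have hcc1 : c ≤ c1 / 100 := min_le_left _ _
  have hcc2 : c ≤ 1 := (min_le_right _ _).trans (min_le_left _ _)
  have hcc3 : c ≤ 1 / (100 * C) := (min_le_right _ _).trans (min_le_right _ _)
  have hc0 : 0 < c := by positivity
  have hr1 : (1 : ℝ) ≤ r := by
    have : 0 < r := Nat.pos_of_ne_zero (NeZero.ne r)
    exact_mod_cast this
  have hlog : 0 ≤ Real.log r := Real.log_nonneg hr1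
  have hsq : 1 ≤ (1 + Real.log r) ^ 2 := by nlinarith
  by_cases hr : r < 100
  · refine le_trans ?_ (H1 r ψ hψ hψ2 β hβ h0)
    have hr' : (r : ℝ) ≤ 100 := by exact_mod_cast hr.le
    rw [div_le_div_iff₀ (by positivity) (by positivity)]
    have h1 : c * (r : ℝ) ≤ c1 := by
      have : c * (r : ℝ) ≤ c1 / 100 * 100 := mul_le_mul hcc1 hr' (by positivity) (by positivity)
      linarith
    calc c * (r : ℝ) ^ 2 = (c * r) * r := by ring
      _ ≤ c1 * r := mul_le_mul_of_nonneg_right h1 (by positivity)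
      _ = c1 * (r * 1) := by ring
      _ ≤ c1 * (r * (1 + Real.log r) ^ 2) := by
        apply mul_le_mul_of_nonneg_left _ hc1.le
        exact mul_le_mul_of_nonneg_left hsq (by positivity)
  · have hr100 : 100 ≤ r := not_lt.mp hr
    have hrR : (100 : ℝ) ≤ r := by exact_mod_cast hr100
    have hlogp : 0 < Real.log r := Real.log_pos (by linarith)
    by_cases hb : β < 1 - 1 / Real.log r
    · refine le_trans ?_ (show 1 / Real.log r ≤ 1 - β by linarith)
      rw [div_le_div_iff₀ (by positivity) hlogp]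
      have h1 : Real.log r ≤ (1 + Real.log r) ^ 2 := by nlinarith
      have h2 : (1 + Real.log r) ^ 2 ≤ r * (1 + Real.log r) ^ 2 := by nlinarith
      nlinarith
    · have h1 := H2 r ψ hr100 hψ β (not_lt.mp hb) hβ.le h0
      have h2 := Pool.Agent.Lib.H68T.L1_lower r ψ hψ hψ2
      have h3 : 1 / (100 * (r : ℝ)) ≤ C * (1 - β) * (Real.log r) ^ 2 := h2.trans h1
      have hb1 : 0 < 1 - β := by linarith
      rw [div_le_iff₀ (by positivity)] at h3
      rw [div_le_iff₀ (by positivity)]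
      have h4 : C * (1 - β) * (Real.log r) ^ 2 * (100 * r) ≤
          (100 * C) * ((1 - β) * (r * (1 + Real.log r) ^ 2)) := by
        have h5 : (Real.log r) ^ 2 ≤ (1 + Real.log r) ^ 2 := by nlinarith
        calc C * (1 - β) * (Real.log r) ^ 2 * (100 * r) = (100 * C) * ((1 - β) * (r * (Real.log r) ^ 2)) := by ring
          _ ≤ (100 * C) * ((1 - β) * (r * (1 + Real.log r) ^ 2)) := by
            apply mul_le_mul_of_nonneg_left _ (by positivity)
            apply mul_le_mul_of_nonneg_left _ hb1.le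
            exact mul_le_mul_of_nonneg_left h5 (by positivity)
      refine hcc3.trans ?_
      rw [div_le_iff₀ (by positivity)]
      linarith

/-- Parameters. For `K ≥ 1`, `δ = 1/(2 K)`, `Q = ⌊n^δ⌋` and `n` large: the regime `RegP K Q n`, also
for the level `r - 1` if `r^100 > Q`, `r ≤ Q`; and the powers of `Q` and `n`. -/
theorem MP_par (K : ℝ) (hK : 1 ≤ K) : ∃ n0 : ℕ, ∀ n : ℕ, n0 ≤ n →
    RegP K ⌊(n : ℝ) ^ (1 / (2 * K))⌋₊ n ∧ K ≤ ⌊(n : ℝ) ^ (1 / (2 * K))⌋₊ ∧
    (n : ℝ) ^ (1 / (4 * K)) ≤ ⌊(n : ℝ) ^ (1 / (2 * K))⌋₊ ∧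
    ∀ r : ℕ, ⌊(n : ℝ) ^ (1 / (2 * K))⌋₊ < r ^ 100 → r ≤ ⌊(n : ℝ) ^ (1 / (2 * K))⌋₊ →
      RegP K (r - 1) n ∧ K ≤ r ∧ (n : ℝ) ^ (1 / (500 * K)) ≤ ((r - 1 : ℕ) : ℝ) := by
  have hK0 : 0 < K := by linarith
  -- eventual facts
  have e1 : ∀ᶠ n : ℕ in Filter.atTop, max 2 K ≤ (n : ℝ) ^ (1 / (2000 * K)) :=
    (((tendsto_rpow_atTop (show 0 < 1 / (2000 * K) by positivity)).comp
      tendsto_natCast_atTop_atTop)).eventually_ge_atTop _
  have e2 : ∀ᶠ n : ℕ in Filter.atTop, K ≤ Real.log (Real.log n) :=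
    ((Real.tendsto_log_atTop.comp Real.tendsto_log_atTop).comp
      tendsto_natCast_atTop_atTop).eventually_ge_atTop _
  have e3 : ∀ᶠ n : ℕ in Filter.atTop, ‖Real.log (Real.log n)‖ ≤ 1 / (500 * K ^ 2) * ‖Real.log n‖ := by
    have h1 := (Real.isLittleO_log_id_atTop.comp_tendsto Real.tendsto_log_atTop).comp_tendsto
      (tendsto_natCast_atTop_atTop (R := ℝ))
    exact h1.bound (show 0 < 1 / (500 * K ^ 2) by positivity)
  have e4 : ∀ᶠ n : ℕ in Filter.atTop, 3 ≤ n := Filter.eventually_ge_atTop 3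
  obtain ⟨n0, hn0⟩ := Filter.eventually_atTop.mp (e1.and (e2.and (e3.and e4)))
  refine ⟨n0, fun n hn => ?_⟩
  obtain ⟨h1, h2, h3, h4⟩ := hn0 n hn
  have hnR : (3 : ℝ) ≤ n := by exact_mod_cast h4
  have hn0' : (0 : ℝ) ≤ n := by linarith
  have hnp : (0 : ℝ) < n := by linarith
  have hlogn : 0 < Real.log n := Real.log_pos (by linarith)
  set z : ℝ := (n : ℝ) ^ (1 / (2000 * K)) with hz
  have hz2 : 2 ≤ z := (le_max_left _ _).trans h1
  have hzK : K ≤ z := (le_max_right _ _).trans h1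
  have hz0 : 0 ≤ z := by linarith
  have hpw : ∀ m : ℕ, z ^ m = (n : ℝ) ^ ((m : ℝ) / (2000 * K)) := by
    intro m
    rw [hz, ← Real.rpow_natCast, ← Real.rpow_mul hn0']
    congr 1
    ring
  have hll0 : 0 ≤ Real.log (Real.log n) := by linarith
  have h3' : K * Real.log (Real.log n) ≤ Real.log n / (500 * K) := by
    rw [Real.norm_of_nonneg hll0, Real.norm_of_nonneg hlogn.le] at h3
    calc K * Real.log (Real.log n) ≤ K * (1 / (500 * K ^ 2) * Real.log n) :=
          mul_le_mul_of_nonneg_left h3 hK0.le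
      _ = Real.log n / (500 * K) := by
        field_simp
  set Q : ℕ := ⌊(n : ℝ) ^ (1 / (2 * K))⌋₊ with hQ
  have hz1000 : (n : ℝ) ^ (1 / (2 * K)) = z ^ 1000 := by
    rw [hpw]
    congr 1
    field_simp
    norm_num
  have hz500 : (n : ℝ) ^ (1 / (4 * K)) = z ^ 500 := by
    rw [hpw]
    congr 1
    field_simp
    norm_num
  have hz4 : (n : ℝ) ^ (1 / (500 * K)) = z ^ 4 := by
    rw [hpw]
    congr 1
    field_simp
    norm_num
  have hQle : (Q : ℝ) ≤ (n : ℝ) ^ (1 / (2 * K)) := Nat.floor_le (by positivity)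
  have hQge : z ^ 500 ≤ Q := by
    have h5 : (n : ℝ) ^ (1 / (2 * K)) < Q + 1 := Nat.lt_floor_add_one _
    have h6 : 2 ≤ z ^ 500 := hz2.trans (le_self_pow₀ (by linarith) (by norm_num))
    have h7 : z ^ 1000 = z ^ 500 * z ^ 500 := by rw [← pow_add]
    rw [hz1000, h7] at h5
    nlinarith
  have hz500K : z ≤ z ^ 500 := le_self_pow₀ (by linarith) (by norm_num)
  have hQp : (0 : ℝ) < Q := by linarith
  have hlogz : 500 * K * (4 * Real.log z) = Real.log n := by
    have h5 : 4 * Real.log z = Real.log n / (500 * K) := by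
      rw [← Real.log_rpow (by linarith), show (4 : ℝ) = ((4 : ℕ) : ℝ) by norm_num, Real.rpow_natCast, ← hz4,
        Real.log_rpow hnp]
      ring
    rw [h5]
    field_simp
  have hlz : Real.log n / (500 * K) = 4 * Real.log z := by
    rw [← hlogz]
    field_simp
  have hlz4 : 4 * Real.log z = Real.log (z ^ 4) := by
    rw [Real.log_pow]
    norm_num
  have hKQ : K * Real.log Q ≤ Real.log n := by
    have h5 : Real.log Q ≤ Real.log ((n : ℝ) ^ (1 / (2 * K))) := Real.log_le_log hQp hQle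
    rw [Real.log_rpow hnp] at h5
    calc K * Real.log Q ≤ K * (1 / (2 * K) * Real.log n) := mul_le_mul_of_nonneg_left h5 hK0.le
      _ = Real.log n / 2 := by field_simp
      _ ≤ Real.log n := by linarith
  have hmain : ∀ m : ℕ, z ^ 4 ≤ m → (m : ℝ) ≤ Q → RegP K m n := by
    intro m hm1 hm2
    have hz4p : 0 < z ^ 4 := by positivity
    refine ⟨h2, ?_, ?_⟩
    · refine h3'.trans ?_
      rw [hlz, hlz4]
      exact Real.log_le_log hz4p hm1
    · refine le_trans ?_ hKQ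
      exact mul_le_mul_of_nonneg_left (Real.log_le_log (lt_of_lt_of_le hz4p hm1) hm2) hK0.le
  have hz45 : z ^ 4 ≤ z ^ 500 := pow_le_pow_right₀ (by linarith) (by norm_num)
  refine ⟨hmain Q (hz45.trans hQge) le_rfl, hzK.trans (hz500K.trans hQge), ?_, ?_⟩
  · rw [hz500]
    exact hQge
  · intro r hr1 hr2
    have h5 : z ^ 500 < (r : ℝ) ^ 100 := by
      refine lt_of_le_of_lt hQge ?_
      exact_mod_cast hr1
    have h6 : z ^ 5 < r := by
      rw [show (500 : ℕ) = 5 * 100 by norm_num, pow_mul] at h5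
      exact lt_of_pow_lt_pow_left₀ 100 (by positivity) h5
    have h7 : 1 ≤ z ^ 5 := one_le_pow₀ (by linarith)
    have hr0 : 1 ≤ r := by
      have : (1 : ℝ) < r := by linarith
      have := Nat.one_lt_cast.mp this
      omega
    have h8 : z ^ 4 ≤ ((r - 1 : ℕ) : ℝ) := by
      rw [Nat.cast_sub hr0, Nat.cast_one]
      have h9 : 1 ≤ z ^ 4 := one_le_pow₀ (by linarith)
      have h10 : z ^ 5 = z ^ 4 * z := by ring
      nlinarith
    have h11 : ((r - 1 : ℕ) : ℝ) ≤ Q := by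
      have : r - 1 ≤ Q := by omega
      exact_mod_cast this
    refine ⟨hmain (r - 1) h8 h11, ?_, ?_⟩
    · have h12 : z ≤ z ^ 5 := le_self_pow₀ (by linarith) (by norm_num)
      linarith
    · rw [hz4]
      exact h8

/-- `ohdeg ≤ hdeg` -/
theorem ohdeg_le (n x : ℕ) : ohdeg n x ≤ hdeg n x := by
  classical
  unfold ohdeg hdeg
  apply Finset.card_le_card
  intro Y hY
  rw [Finset.mem_filter] at hY ⊢
  exact ⟨hY.1, hY.2.1⟩

end Pool.Agent.Lib.H18Q
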