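import Pool.Agent.Lib.H18Q.Z1

/-!
# Project H18Q, chunk Z2: sums over the zeros near a point
-/

open Finset

namespace Pool.Agent.Lib.H18Q

/-- If all zeros `ρ` of `f` in the disc of radius `R/2` about `s₀` have `Re ρ ≤ Re s₀ - lam`, then
`∑ od(ρ) lam / |s₀ - ρ|² ≤ |f'/f (s₀)| + A (M+1)/R`.

Proof: `landau_k` with `k = 0` and the real part: `Re (1/(s₀ - ρ)) = Re (s₀ - ρ)/|s₀ - ρ|² ≥
lam/|s₀ - ρ|²`. -/
theorem zero_sum_sq : ∃ A : ℝ, 0 < A ∧ ∀ (f : ℂ → ℂ) (s₀ : ℂ) (R M lam : ℝ), 0 < R → 0 ≤ M →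
    Differentiable ℂ f → f s₀ ≠ 0 →
    (∀ s ∈ Metric.closedBall s₀ R, ‖f s‖ ≤ Real.exp M * ‖f s₀‖) →
    (∀ ρ, f ρ = 0 → ‖ρ - s₀‖ ≤ R / 2 → ρ.re ≤ s₀.re - lam) →
    ∑ ρ ∈ ZD f s₀ (R / 2), (od f ρ : ℝ) * (lam / ‖s₀ - ρ‖ ^ 2) ≤
      ‖logDeriv f s₀‖ + A * (M + 1) / R := by
  obtain ⟨A, hA, H⟩ := landau_k
  refine ⟨A, hA, ?_⟩
  intro f s₀ R M lam hR hM hf hs0 hgr hz
  have h1 := H f s₀ R M hR hM hf hs0 hgr 0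
  simp only [iteratedDeriv_zero, Nat.factorial_zero, Nat.cast_one, div_one, pow_zero, one_mul,
    zero_add, pow_one, mul_one] at h1
  have h2 : (∑ ρ ∈ ZD f s₀ (R / 2), (od f ρ : ℂ) * (1 / (s₀ - ρ))).re ≤
      ‖logDeriv f s₀‖ + A * (M + 1) / R := by
    have h3 : ‖∑ ρ ∈ ZD f s₀ (R / 2), (od f ρ : ℂ) * (1 / (s₀ - ρ))‖ ≤
        ‖logDeriv f s₀‖ + A * (M + 1) / R := by
      have h4 : ∑ ρ ∈ ZD f s₀ (R / 2), (od f ρ : ℂ) * (1 / (s₀ - ρ)) = logDeriv f s₀ -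
          (logDeriv f s₀ - ∑ ρ ∈ ZD f s₀ (R / 2), (od f ρ : ℂ) * (1 / (s₀ - ρ))) := by ring
      rw [h4]
      exact (norm_sub_le _ _).trans (add_le_add_right h1 _)
    exact (Complex.re_le_norm _).trans h3
  refine le_trans ?_ h2
  rw [Complex.re_sum]
  refine sum_le_sum fun ρ hρ => ?_
  rw [mem_ZD hf ⟨s₀, hs0⟩] at hρ
  have h5 := hz ρ hρ.1 hρ.2
  have h6 : ((od f ρ : ℂ) * (1 / (s₀ - ρ))).re = (od f ρ : ℝ) * ((s₀ - ρ).re / ‖s₀ - ρ‖ ^ 2) := by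
    rw [one_div, ← Complex.ofReal_natCast, Complex.re_ofReal_mul, Complex.inv_re,
      Complex.normSq_eq_norm_sq]
  rw [h6]
  apply mul_le_mul_of_nonneg_left _ (Nat.cast_nonneg _)
  apply div_le_div_of_nonneg_right _ (sq_nonneg _)
  rw [Complex.sub_re]
  linarith

theorem z2_re (lam v : ℝ) : (1 + lam + v * Complex.I : ℂ).re = 1 + lam := by
  simp

theorem z2_im (lam v : ℝ) : (1 + lam + v * Complex.I : ℂ).im = v := by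
  simp

theorem z2_ne {C0 ℓ T : ℝ} {f : ℂ → ℂ} (h : LDat C0 ℓ T f) {lam v : ℝ} (hl : 0 ≤ lam) :
    f (1 + lam + v * Complex.I) ≠ 0 := by
  intro h0
  have h1 := h.zre _ h0
  rw [z2_re] at h1
  linarith

/-- The sum for a function with growth data: at `s₀ = 1 + lam + i v`,
`∑_{|ρ - s₀| ≤ 1/4} od(ρ) (lam/|s₀ - ρ|)² ≤ C1 lam ℓ`.

Proof: `zero_sum_sq` with `R = 1/2`, `M = C0 ℓ` (`f s₀ ≠ 0` and `Re ρ ≤ 1 = Re s₀ - lam` by `zre`),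
times `lam`: at most `lam (C0/lam + 2 A (C0 ℓ + 1)) ≤ (C0 + 2 A (C0 + 1)) lam ℓ`, as
`lam ℓ ≥ 1`, `ℓ ≥ 8`. (`f s₀ ≠ 0` gives `hne` for `mem_ZD`.) -/
theorem ldat_sum (C0 : ℝ) (h0 : 1 ≤ C0) : ∃ C1 : ℝ, 1 ≤ C1 ∧ ∀ (ℓ T : ℝ) (f : ℂ → ℂ), 8 ≤ ℓ →
    LDat C0 ℓ T f → ∀ lam v : ℝ, 1 / ℓ ≤ lam → lam ≤ 1 / 8 → |v| ≤ T →
    ∑ ρ ∈ ZD f (1 + lam + v * Complex.I) (1 / 4),
      (od f ρ : ℝ) * (lam / ‖1 + lam + v * Complex.I - ρ‖) ^ 2 ≤ C1 * (lam * ℓ) := by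
  obtain ⟨A, hA, H⟩ := zero_sum_sq
  refine ⟨C0 + 2 * A * (C0 + 1), by nlinarith, ?_⟩
  intro ℓ T f hℓ hf lam v hl1 hl2 hv
  have hℓ0 : 0 < ℓ := by linarith
  have hlam : 0 < lam := lt_of_lt_of_le (by positivity) hl1
  have hlamℓ : 1 ≤ lam * ℓ := by
    rw [div_le_iff₀ hℓ0] at hl1
    exact hl1
  have hs0 : f (1 + lam + v * Complex.I) ≠ 0 := z2_ne hf hlam.le
  have h1 := H f (1 + lam + v * Complex.I) (1 / 2) (C0 * ℓ) lam (by norm_num)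
    (by positivity) hf.diff hs0 (hf.growth lam v hl1 hl2 hv) (by
      intro ρ hρ _
      have h2 := hf.zre ρ hρ
      rw [z2_re]
      linarith)
  have h3 := hf.ld lam v hl1 hl2 hv
  have h4 : (1 / 2 / 2 : ℝ) = 1 / 4 := by norm_num
  rw [h4] at h1
  have h5 : ∑ ρ ∈ ZD f (1 + lam + v * Complex.I) (1 / 4),
      (od f ρ : ℝ) * (lam / ‖1 + lam + v * Complex.I - ρ‖) ^ 2 =
      lam * ∑ ρ ∈ ZD f (1 + lam + v * Complex.I) (1 / 4),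
      (od f ρ : ℝ) * (lam / ‖1 + lam + v * Complex.I - ρ‖ ^ 2) := by
    rw [mul_sum]
    refine sum_congr rfl fun ρ _ => ?_
    rw [div_pow]
    ring
  rw [h5]
  have h6 : lam * ∑ ρ ∈ ZD f (1 + lam + v * Complex.I) (1 / 4),
      (od f ρ : ℝ) * (lam / ‖1 + lam + v * Complex.I - ρ‖ ^ 2) ≤
      lam * (C0 / lam + A * (C0 * ℓ + 1) / (1 / 2)) :=
    mul_le_mul_of_nonneg_left (h1.trans (add_le_add_left h3 _)) hlam.le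
  refine h6.trans ?_
  have h7 : lam * (C0 / lam + A * (C0 * ℓ + 1) / (1 / 2)) =
      C0 + 2 * A * (C0 * (lam * ℓ) + lam) := by
    field_simp
  rw [h7]
  have h8 : lam ≤ lam * ℓ := by nlinarith
  have h9 : C0 ≤ C0 * (lam * ℓ) := by nlinarith
  have h10 : 2 * A * (C0 * (lam * ℓ) + lam) ≤ 2 * A * (C0 * (lam * ℓ) + lam * ℓ) := by
    apply mul_le_mul_of_nonneg_left _ (by positivity)
    linarith
  nlinarith

/-- Few zeros near a point. Proof: in `ldat_sum` the zeros with `|s₀ - ρ| ≤ D lam ≤ 1/4` have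
`(lam/|s₀ - ρ|)² ≥ 1/D²` (`|s₀ - ρ| > 0`). -/
theorem ldat_near (C0 : ℝ) (h0 : 1 ≤ C0) : ∃ C1 : ℝ, 1 ≤ C1 ∧ ∀ (ℓ T : ℝ) (f : ℂ → ℂ), 8 ≤ ℓ →
    LDat C0 ℓ T f → ∀ lam v D : ℝ, 1 / ℓ ≤ lam → lam ≤ 1 / 8 → |v| ≤ T → 1 ≤ D →
    D * lam ≤ 1 / 4 →
    ∑ ρ ∈ ZD f (1 + lam + v * Complex.I) (D * lam), (od f ρ : ℝ) ≤ C1 * D ^ 2 * (lam * ℓ) := by
  obtain ⟨C1, hC1, H⟩ := ldat_sum C0 h0
  refine ⟨C1, hC1, ?_⟩
  intro ℓ T f hℓ hf lam v D hl1 hl2 hv hD hDl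
  have hℓ0 : 0 < ℓ := by linarith
  have hlam : 0 < lam := lt_of_lt_of_le (by positivity) hl1
  have hs0 : f (1 + lam + v * Complex.I) ≠ 0 := z2_ne hf hlam.le
  have h1 := H ℓ T f hℓ hf lam v hl1 hl2 hv
  have hsub : ZD f (1 + lam + v * Complex.I) (D * lam) ⊆
      ZD f (1 + lam + v * Complex.I) (1 / 4) := by
    intro ρ hρ
    rw [mem_ZD hf.diff ⟨_, hs0⟩] at hρ ⊢
    exact ⟨hρ.1, hρ.2.trans hDl⟩
  have h2 : ∑ ρ ∈ ZD f (1 + lam + v * Complex.I) (D * lam), (od f ρ : ℝ) ≤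
      ∑ ρ ∈ ZD f (1 + lam + v * Complex.I) (D * lam),
        D ^ 2 * ((od f ρ : ℝ) * (lam / ‖1 + lam + v * Complex.I - ρ‖) ^ 2) := by
    refine sum_le_sum fun ρ hρ => ?_
    rw [mem_ZD hf.diff ⟨_, hs0⟩] at hρ
    have h3 : ‖(1 + lam + v * Complex.I : ℂ) - ρ‖ ≤ D * lam := by
      rw [norm_sub_rev]
      exact hρ.2
    have h4 : 0 < ‖(1 + lam + v * Complex.I : ℂ) - ρ‖ := by
      rw [norm_pos_iff, sub_ne_zero]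
      intro h5
      rw [h5] at hs0
      exact hs0 hρ.1
    have h5 : 1 ≤ D * (lam / ‖(1 + lam + v * Complex.I : ℂ) - ρ‖) := by
      rw [← mul_div_assoc, le_div_iff₀ h4, one_mul]
      exact h3
    have h6 : 1 ≤ (D * (lam / ‖(1 + lam + v * Complex.I : ℂ) - ρ‖)) ^ 2 := one_le_pow₀ h5
    have h7 : (0 : ℝ) ≤ od f ρ := Nat.cast_nonneg _
    calc (od f ρ : ℝ) = (od f ρ : ℝ) * 1 := (mul_one _).symm
      _ ≤ (od f ρ : ℝ) * (D * (lam / ‖(1 + lam + v * Complex.I : ℂ) - ρ‖)) ^ 2 :=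
        mul_le_mul_of_nonneg_left h6 h7
      _ = D ^ 2 * ((od f ρ : ℝ) * (lam / ‖(1 + lam + v * Complex.I : ℂ) - ρ‖) ^ 2) := by ring
  refine h2.trans ?_
  rw [← mul_sum]
  have h3 : ∑ ρ ∈ ZD f (1 + lam + v * Complex.I) (D * lam),
      (od f ρ : ℝ) * (lam / ‖1 + lam + v * Complex.I - ρ‖) ^ 2 ≤ C1 * (lam * ℓ) :=
    (sum_le_sum_of_subset_of_nonneg hsub fun ρ _ _ => by positivity).trans h1
  calc D ^ 2 * ∑ ρ ∈ ZD f (1 + lam + v * Complex.I) (D * lam),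
      (od f ρ : ℝ) * (lam / ‖1 + lam + v * Complex.I - ρ‖) ^ 2
      ≤ D ^ 2 * (C1 * (lam * ℓ)) := mul_le_mul_of_nonneg_left h3 (by positivity)
    _ = C1 * D ^ 2 * (lam * ℓ) := by ring

/-- Few zeros in a box: the zeros `ρ` in a finite set `S` with `Re ρ ≥ 1 - lam` and
`|Im ρ - v| ≤ lam` have `|s₀ - ρ| ≤ 3 lam ≤ 1/4` for `lam ≤ 1/12` (`ldat_near` with `D = 3`). -/
theorem ldat_box (C0 : ℝ) (h0 : 1 ≤ C0) : ∃ C1 : ℝ, 1 ≤ C1 ∧ ∀ (ℓ T : ℝ) (f : ℂ → ℂ), 8 ≤ ℓ →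
    LDat C0 ℓ T f → ∀ lam v : ℝ, 1 / ℓ ≤ lam → lam ≤ 1 / 12 → |v| ≤ T →
    ∀ S : Finset ℂ, (∀ ρ ∈ S, f ρ = 0 ∧ 1 - lam ≤ ρ.re ∧ |ρ.im - v| ≤ lam) →
    ∑ ρ ∈ S, (od f ρ : ℝ) ≤ C1 * (lam * ℓ) := by
  obtain ⟨C1, hC1, H⟩ := ldat_near C0 h0
  refine ⟨C1 * 9, by linarith, ?_⟩
  intro ℓ T f hℓ hf lam v hl1 hl2 hv S hS
  have hℓ0 : 0 < ℓ := by linarith
  have hlam : 0 < lam := lt_of_lt_of_le (by positivity) hl1
  have hs0 : f (1 + lam + v * Complex.I) ≠ 0 := z2_ne hf hlam.le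
  have h1 := H ℓ T f hℓ hf lam v 3 hl1 (by linarith) hv (by norm_num) (by linarith)
  have hsub : S ⊆ ZD f (1 + lam + v * Complex.I) (3 * lam) := by
    intro ρ hρ
    obtain ⟨h2, h3, h4⟩ := hS ρ hρ
    have h5 := hf.zre ρ h2
    rw [mem_ZD hf.diff ⟨_, hs0⟩]
    refine ⟨h2, ?_⟩
    have h6 := Complex.norm_le_abs_re_add_abs_im (ρ - (1 + lam + v * Complex.I))
    rw [Complex.sub_re, Complex.sub_im, z2_re, z2_im] at h6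
    have h7 : |ρ.re - (1 + lam)| ≤ 2 * lam := by
      rw [abs_le]
      constructor <;> linarith
    linarith
  refine (sum_le_sum_of_subset_of_nonneg hsub fun ρ _ _ => Nat.cast_nonneg _).trans ?_
  refine h1.trans ?_
  have h8 : C1 * 3 ^ 2 * (lam * ℓ) = C1 * 9 * (lam * ℓ) := by norm_num
  rw [h8]

end Pool.Agent.Lib.H18Q
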