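import Pool.Agent.Lib.H18Q.PDefs
import Pool.Agent.Lib.H18Q.Z2
import Pool.Agent.Lib.H18Q.D0

/-!
# Project H18Q, chunk PA: the weighted series and the zeros
-/

open Finset

namespace Pool.Agent.Lib.H18Q

open ArithmeticFunction Pool.Agent.Lib.H68T

theorem pa_summable (c : ℕ → ℂ) (hc : ∀ n, ‖c n‖ ≤ 1) {s : ℂ} (hs : 1 < s.re) :
    LSeriesSummable (fun n => (Λ n : ℂ) * c n) s := by
  have h1 : LSeriesSummable (fun n => (Λ n : ℂ)) s :=
    ArithmeticFunction.LSeriesSummable_vonMangoldt hs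
  refine Summable.of_norm_bounded (g := fun n => ‖LSeries.term (fun n => (Λ n : ℂ)) s n‖) h1.norm ?_
  intro n
  rcases eq_or_ne n 0 with rfl | hn
  · simp [LSeries.term_zero]
  · rw [LSeries.term_of_ne_zero hn, LSeries.term_of_ne_zero hn, norm_div, norm_div, norm_mul]
    apply div_le_div_of_nonneg_right _ (norm_nonneg _)
    exact mul_le_of_le_one_right (norm_nonneg _) (hc n)

theorem pa_analytic (c : ℕ → ℂ) (hc : ∀ n, ‖c n‖ ≤ 1) {s : ℂ} (hs : 1 < s.re) :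
    AnalyticAt ℂ (LSeries (fun n => (Λ n : ℂ) * c n)) s := by
  apply LSeries_analyticOnNhd
  have h1 : LSeries.abscissaOfAbsConv (fun n => (Λ n : ℂ) * c n) ≤ (1 : ℝ) := by
    apply LSeries.abscissaOfAbsConv_le_of_forall_lt_LSeriesSummable
    intro y hy
    apply pa_summable c hc
    simpa using hy
  exact lt_of_le_of_lt h1 (EReal.coe_lt_coe_iff.mpr hs)

theorem pa_iter (ε b s₀ : ℂ) (k : ℕ) :
    iteratedDeriv k (fun s : ℂ => ε / (s - b)) s₀ =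
      ε * ((-1) ^ k * (k.factorial : ℂ) * (1 / (s₀ - b)) ^ (k + 1)) := by
  have h1 : (fun s : ℂ => ε / (s - b)) = fun s : ℂ => ε * (1 * s - b)⁻¹ := by
    funext s
    rw [one_mul, div_eq_mul_inv]
  rw [h1, iteratedDeriv_const_mul_field, iteratedDeriv_eq_iterate, iter_deriv_inv_linear_sub]
  simp only [one_pow, mul_one, one_mul]
  have h2 : (-1 - (k : ℤ)) = -((k + 1 : ℕ) : ℤ) := by
    push_cast
    ring
  rw [h2, zpow_neg, zpow_natCast, one_div, inv_pow]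

theorem pa_div (a w : ℂ) (k : ℕ) : (a / w) ^ k = a ^ k * (1 / w) ^ k := by
  rw [← mul_pow, mul_one_div]

/-- Proof: `landau_k` at `s₀ = 1 + 1/64 + iv`, `R = 1/2`, `M = C0 ℓ` (`LDat.growth` with
`lam = 1/64 ≥ 1/ℓ`), times `(1/64)^(k+1)`: error `2 A (C0 ℓ + 1) 8^k 64^(-k-1) ≤ C ℓ 8^(-k)`. Near
`s₀`, `logDeriv f = -LSeries (Λ c) + ε/(s - b)`, whose `k`-th derivative at `s₀` times
`(1/64)^(k+1)/k!` is `-(-1)^k Pk c k v + (-1)^k ε Mk b k v` (`D0_series` with `lam = 1/64`;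
`s₀ - b = 1/64 + 1 - b + iv`). Multiply by `(-1)^(k+1)`. -/
theorem PA_formula (C0 : ℝ) (h0 : 1 ≤ C0) : ∃ C : ℝ, 0 < C ∧ ∀ (ℓ T : ℝ) (f : ℂ → ℂ)
    (c : ℕ → ℂ) (ε b : ℝ), 64 ≤ ℓ → LDat C0 ℓ T f → (∀ n, ‖c n‖ ≤ 1) → b ≤ 1 →
    (∀ s : ℂ, 1 < s.re → logDeriv f s = -LSeries (fun n => (Λ n : ℂ) * c n) s + ε / (s - b)) →
    ∀ v : ℝ, |v| ≤ T → ∀ k : ℕ,
    ‖Pk c k v - ε * Mk b k v + ∑ ρ ∈ ZD f (1 + (1 / 64 : ℝ) + v * Complex.I) (1 / 4),
      (od f ρ : ℂ) * (((1 / 64 : ℝ) : ℂ) / (1 + (1 / 64 : ℝ) + v * Complex.I - ρ)) ^ (k + 1)‖ ≤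
      C * ℓ * (1 / 8) ^ k := by
  obtain ⟨A, hA, H⟩ := landau_k
  refine ⟨A * (C0 + 1), by positivity, ?_⟩
  intro ℓ T f c ε b hℓ hf hc hb hld v hv k
  have hℓ0 : 0 < ℓ := by linarith
  set a : ℂ := ((1 / 64 : ℝ) : ℂ) with ha
  have hanorm : ‖a‖ = 1 / 64 := by
    rw [ha, Complex.norm_real, Real.norm_eq_abs, abs_of_pos (by norm_num)]
  set s₀ : ℂ := 1 + a + v * Complex.I with hs₀
  have hre : s₀.re = 1 + 1 / 64 := by
    rw [hs₀, ha]
    simp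
  have hs₀1 : 1 < s₀.re := by rw [hre]; norm_num
  have hlam : 1 / ℓ ≤ (1 / 64 : ℝ) := one_div_le_one_div_of_le (by norm_num) hℓ
  have hf0 : f s₀ ≠ 0 := by
    intro h
    have := hf.zre _ h
    linarith
  have hgr := hf.growth (1 / 64) v hlam (by norm_num) hv
  have h1 := H f s₀ (1 / 2) (C0 * ℓ) (by norm_num) (by positivity) hf.diff hf0 hgr k
  have hR : (1 / 2 : ℝ) / 2 = 1 / 4 := by norm_num
  rw [hR] at h1
  -- the derivatives
  have h2 : iteratedDeriv k (logDeriv f) s₀ =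
      -iteratedDeriv k (LSeries (fun n => (Λ n : ℂ) * c n)) s₀ +
        ε * ((-1) ^ k * (k.factorial : ℂ) * (1 / (s₀ - b)) ^ (k + 1)) := by
    have hopen : IsOpen {s : ℂ | 1 < s.re} := isOpen_lt continuous_const Complex.continuous_re
    have hev : logDeriv f =ᶠ[nhds s₀]
        (fun s => -LSeries (fun n => (Λ n : ℂ) * c n) s + ε / (s - b)) := by
      filter_upwards [hopen.mem_nhds hs₀1] with s hs
      exact hld s hs
    rw [(hev.iteratedDeriv k).eq_of_nhds]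
    have hc1 : ContDiffAt ℂ k (fun s => -LSeries (fun n => (Λ n : ℂ) * c n) s) s₀ :=
      ((pa_analytic c hc hs₀1).neg).contDiffAt
    have hsb : s₀ - b ≠ 0 := by
      intro h
      have h3 := congrArg Complex.re h
      rw [Complex.sub_re, Complex.ofReal_re, hre, Complex.zero_re] at h3
      linarith
    have hc2 : ContDiffAt ℂ k (fun s : ℂ => (ε : ℂ) / (s - b)) s₀ := by
      apply AnalyticAt.contDiffAt
      exact analyticAt_const.div (analyticAt_id.sub analyticAt_const) hsb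
    rw [iteratedDeriv_fun_add hc1 hc2, iteratedDeriv_fun_neg, pa_iter]
  have h3 := D0_series c (fun n => (hc n).trans (by norm_num)) (1 / 64) (by norm_num) k v
  rw [← ha, ← hs₀] at h3
  have hk : (k.factorial : ℂ) ≠ 0 := Nat.cast_ne_zero.mpr (Nat.factorial_ne_zero k)
  have hM : Mk b k v = (a / (s₀ - b)) ^ (k + 1) := by
    unfold Mk
    rw [← ha]
    have : ((1 / 64 + 1 - b : ℝ) : ℂ) + v * Complex.I = s₀ - b := by
      rw [hs₀, ha]
      push_cast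
      ring
    rw [this]
  have hP : a ^ (k + 1) * (iteratedDeriv k (LSeries (fun n => (Λ n : ℂ) * c n)) s₀ /
      (k.factorial : ℂ)) = (-1) ^ k * Pk c k v := h3
  have h4 : a ^ (k + 1) * (iteratedDeriv k (logDeriv f) s₀ / (k.factorial : ℂ)) =
      -((-1) ^ k * Pk c k v) + (-1) ^ k * (ε * Mk b k v) := by
    rw [h2, hM, ← hP, pa_div a (s₀ - b)]
    generalize (1 / (s₀ - (b : ℂ))) ^ (k + 1) = X
    field_simp
  have hsq : ((-1 : ℂ) ^ k) * (-1) ^ k = 1 := by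
    rw [← mul_pow]
    norm_num
  have h5 : Pk c k v - ε * Mk b k v + ∑ ρ ∈ ZD f s₀ (1 / 4),
      (od f ρ : ℂ) * (a / (s₀ - ρ)) ^ (k + 1) =
      -((-1) ^ k * (a ^ (k + 1) * (iteratedDeriv k (logDeriv f) s₀ / (k.factorial : ℂ) -
        (-1) ^ k * ∑ ρ ∈ ZD f s₀ (1 / 4), (od f ρ : ℂ) * (1 / (s₀ - ρ)) ^ (k + 1)))) := by
    rw [mul_sub, h4]
    have h6 : a ^ (k + 1) * ((-1) ^ k * ∑ ρ ∈ ZD f s₀ (1 / 4),
        (od f ρ : ℂ) * (1 / (s₀ - ρ)) ^ (k + 1)) =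
        (-1) ^ k * ∑ ρ ∈ ZD f s₀ (1 / 4), (od f ρ : ℂ) * (a / (s₀ - ρ)) ^ (k + 1) := by
      rw [mul_left_comm, mul_sum]
      congr 1
      apply sum_congr rfl
      intro ρ _
      rw [pa_div a (s₀ - ρ)]
      ring
    rw [h6]
    linear_combination (-(Pk c k v) + ε * Mk b k v - ∑ ρ ∈ ZD f s₀ (1 / 4),
      (od f ρ : ℂ) * (a / (s₀ - ρ)) ^ (k + 1)) * hsq
  rw [h5, norm_neg, norm_mul, norm_pow, norm_neg, norm_one, one_pow, one_mul, norm_mul, norm_pow,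
    hanorm]
  have h7 : (1 / 64 : ℝ) ^ (k + 1) * (A * (C0 * ℓ + 1) / (1 / 2) * (4 / (1 / 2)) ^ k) =
      A * (C0 * ℓ + 1) / 32 * (1 / 8) ^ k := by
    rw [pow_succ]
    have : (1 / 64 : ℝ) ^ k * (4 / (1 / 2)) ^ k = (1 / 8) ^ k := by
      rw [← mul_pow]
      norm_num
    linear_combination (A * (C0 * ℓ + 1) / (1 / 2) / 64) * this
  calc (1 / 64 : ℝ) ^ (k + 1) * _ ≤
        (1 / 64 : ℝ) ^ (k + 1) * (A * (C0 * ℓ + 1) / (1 / 2) * (4 / (1 / 2)) ^ k) :=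
        mul_le_mul_of_nonneg_left h1 (by positivity)
    _ = A * (C0 * ℓ + 1) / 32 * (1 / 8) ^ k := h7
    _ ≤ A * (C0 + 1) * ℓ * (1 / 8) ^ k := by
        apply mul_le_mul_of_nonneg_right _ (by positivity)
        rw [div_le_iff₀ (by norm_num)]
        nlinarith [mul_pos hA hℓ0, mul_nonneg hA.le (by linarith : (0 : ℝ) ≤ ℓ - 1),
          mul_pos (mul_pos hA hℓ0) (by linarith : (0 : ℝ) < C0)]

theorem pa_term_le (c : ℕ → ℂ) (hc : ∀ n, ‖c n‖ ≤ 1) (k : ℕ) (v : ℝ) (n : ℕ) :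
    ‖((Λ n * Jk (1 / 64) k n : ℝ) : ℂ) * c n * (n : ℂ) ^ (-(v * Complex.I))‖ ≤
      Λ n * Jk (1 / 64) k n := by
  have h0 : 0 ≤ Λ n * Jk (1 / 64) k n :=
    mul_nonneg ArithmeticFunction.vonMangoldt_nonneg (Jk_nonneg _ k n (by norm_num))
  rcases eq_or_ne n 0 with rfl | hn
  · simp
  · have h1 : ‖(n : ℂ) ^ (-(v * Complex.I))‖ = 1 := by
      rw [Complex.norm_natCast_cpow_of_pos (Nat.pos_of_ne_zero hn)]
      simp
    rw [norm_mul, norm_mul, h1, mul_one, Complex.norm_real, Real.norm_eq_abs, abs_of_nonneg h0]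
    exact mul_le_of_le_one_right h0 (hc n)

/-- Bounds and continuity: `|Pk| ≤ C` (`Jk_sum`, `Jk_summable`), `|Mk| ≤ 1` for `b ≤ 1`, both
continuous in `v`. -/
theorem PA_bounds : ∃ C : ℝ, 1 ≤ C ∧ ∀ (c : ℕ → ℂ), (∀ n, ‖c n‖ ≤ 1) → ∀ (k : ℕ) (v : ℝ),
    ‖Pk c k v‖ ≤ C := by
  obtain ⟨C, hC, h⟩ := Jk_sum
  refine ⟨max C 1, le_max_right _ _, ?_⟩
  intro c hc k v
  have hs := Jk_summable (1 / 64) k (by norm_num) (by norm_num)
  unfold Pk
  refine (tsum_of_norm_bounded hs.hasSum (pa_term_le c hc k v)).trans ?_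
  refine le_trans ?_ (le_max_left _ _)
  exact hs.tsum_le_of_sum_le fun s => h (1 / 64) k s (by norm_num) (by norm_num)

theorem Pk_continuous (c : ℕ → ℂ) (hc : ∀ n, ‖c n‖ ≤ 1) (k : ℕ) : Continuous (Pk c k) := by
  have hs := Jk_summable (1 / 64) k (by norm_num) (by norm_num)
  unfold Pk
  refine continuous_tsum ?_ hs fun n v => pa_term_le c hc k v n
  intro n
  rcases eq_or_ne n 0 with rfl | hn
  · have : (fun v : ℝ => ((Λ 0 * Jk (1 / 64) k 0 : ℝ) : ℂ) * c 0 *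
        ((0 : ℕ) : ℂ) ^ (-(v * Complex.I))) = fun _ => 0 := by
      funext v
      simp
    rw [this]
    exact continuous_const
  · apply continuous_const.mul
    have hn0 : (n : ℂ) ≠ 0 := Nat.cast_ne_zero.mpr hn
    exact Continuous.const_cpow (by fun_prop) (Or.inl hn0)

theorem pa_re (b v : ℝ) : (((1 / 64 + 1 - b : ℝ) : ℂ) + v * Complex.I).re = 1 / 64 + 1 - b := by
  simp

theorem Mk_norm (b : ℝ) (hb : b ≤ 1) (k : ℕ) (v : ℝ) : ‖Mk b k v‖ ≤ 1 := by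
  unfold Mk
  rw [norm_pow]
  apply pow_le_one₀ (norm_nonneg _)
  rw [norm_div]
  have h1 : ‖((1 / 64 : ℝ) : ℂ)‖ = 1 / 64 := by
    rw [Complex.norm_real, Real.norm_eq_abs, abs_of_pos (by norm_num)]
  have h2 : (1 / 64 : ℝ) ≤ ‖((1 / 64 + 1 - b : ℝ) : ℂ) + v * Complex.I‖ := by
    have h3 := Complex.re_le_norm (((1 / 64 + 1 - b : ℝ) : ℂ) + v * Complex.I)
    rw [pa_re] at h3
    linarith
  rw [h1]
  exact div_le_one_of_le₀ h2 (norm_nonneg _)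

theorem Mk_continuous (b : ℝ) (hb : b ≤ 1) (k : ℕ) : Continuous (Mk b k) := by
  unfold Mk
  apply Continuous.pow
  apply Continuous.div continuous_const (by fun_prop)
  intro v h
  have h1 := congrArg Complex.re h
  rw [pa_re, Complex.zero_re] at h1
  linarith

end Pool.Agent.Lib.H18Q
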