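import Mathlib

/-!
# Project H18Q, chunk PB1: decay of a Fourier transform, three derivatives
-/

open Finset MeasureTheory

namespace Pool.Agent.Lib.H18Q

theorem PB1_int (h : ℝ → ℝ) (a b : ℝ) (hc : Continuous h) (z : ∀ y, y ∉ Set.Icc a b → h y = 0) (ξ : ℝ) :
    Integrable (fun y : ℝ => (h y : ℂ) * Complex.exp (-(ξ * y * Complex.I))) := by
  have hcont : Continuous (fun y : ℝ => (h y : ℂ) * Complex.exp (-(ξ * y * Complex.I))) := by
    fun_prop
  refine hcont.integrable_of_hasCompactSupport ?_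
  refine HasCompactSupport.intro (K := Set.Icc a b) isCompact_Icc ?_
  intro y hy
  simp only [z y hy, Complex.ofReal_zero, zero_mul]

theorem PB1_norm (ξ y : ℝ) : ‖Complex.exp (-(ξ * y * Complex.I))‖ = 1 := by
  have e : -((ξ : ℂ) * y * Complex.I) = ((-(ξ * y) : ℝ) : ℂ) * Complex.I := by
    push_cast
    ring
  rw [e, Complex.norm_exp_ofReal_mul_I]

theorem PB1_bd (h : ℝ → ℝ) (a b M : ℝ) (hab : a ≤ b) (z : ∀ y, y ∉ Set.Icc a b → h y = 0)
    (hb : ∀ y, |h y| ≤ M) (ξ : ℝ) :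
    ‖∫ y : ℝ, (h y : ℂ) * Complex.exp (-(ξ * y * Complex.I))‖ ≤ (b - a) * M := by
  rw [← setIntegral_eq_integral_of_forall_compl_eq_zero (s := Set.Icc a b) (fun y hy => by
    simp only [z y hy, Complex.ofReal_zero, zero_mul])]
  have h1 := norm_setIntegral_le_of_norm_le_const (μ := volume) (s := Set.Icc a b) (C := M)
    (f := fun y : ℝ => (h y : ℂ) * Complex.exp (-(ξ * y * Complex.I)))
    (by rw [Real.volume_Icc]; exact ENNReal.ofReal_lt_top)
    (fun y _ => by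
      rw [norm_mul, PB1_norm, mul_one, Complex.norm_real, Real.norm_eq_abs]
      exact hb y)
  refine h1.trans (le_of_eq ?_)
  rw [Real.volume_real_Icc_of_le hab, mul_comm]

theorem PB1_step (h h' : ℝ → ℝ) (a b : ℝ) (hd : ∀ y, HasDerivAt h (h' y) y) (hc : Continuous h')
    (z : ∀ y, y ∉ Set.Icc a b → h y = 0) (z' : ∀ y, y ∉ Set.Icc a b → h' y = 0) (ξ : ℝ) :
    ((ξ : ℂ) * Complex.I) * ∫ y : ℝ, (h y : ℂ) * Complex.exp (-(ξ * y * Complex.I)) =
      ∫ y : ℝ, (h' y : ℂ) * Complex.exp (-(ξ * y * Complex.I)) := by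
  have hcont : Continuous h := continuous_iff_continuousAt.2 fun y => (hd y).continuousAt
  have i1 := PB1_int h a b hcont z ξ
  have i2 := PB1_int h' a b hc z' ξ
  have hv : ∀ y : ℝ, HasDerivAt (fun y : ℝ => Complex.exp (-(ξ * y * Complex.I)))
      (-((ξ : ℂ) * Complex.I) * Complex.exp (-(ξ * y * Complex.I))) y := by
    intro y
    have e1 : HasDerivAt (fun y : ℝ => -((ξ : ℂ) * y * Complex.I)) (-((ξ : ℂ) * 1 * Complex.I)) y := by
      exact (((Complex.ofRealCLM.hasDerivAt (x := y)).const_mul (ξ : ℂ)).mul_const Complex.I).neg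
    have e2 := e1.cexp
    refine e2.congr_deriv ?_
    ring
  have key := integral_mul_deriv_eq_deriv_mul_of_integrable (A := ℂ)
    (u := fun y : ℝ => (h y : ℂ)) (u' := fun y : ℝ => (h' y : ℂ))
    (v := fun y : ℝ => Complex.exp (-(ξ * y * Complex.I)))
    (v' := fun y : ℝ => -((ξ : ℂ) * Complex.I) * Complex.exp (-(ξ * y * Complex.I)))
    (fun y _ => (hd y).ofReal_comp) (fun y _ => hv y)
    (by
      refine (i1.const_mul (-((ξ : ℂ) * Complex.I))).congr (Filter.Eventually.of_forall fun y => ?_)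
      simp only [Pi.mul_apply]
      ring) i2 i1
  have e3 : (∫ y : ℝ, (h y : ℂ) * (-((ξ : ℂ) * Complex.I) * Complex.exp (-(ξ * y * Complex.I)))) =
      -((ξ : ℂ) * Complex.I) * ∫ y : ℝ, (h y : ℂ) * Complex.exp (-(ξ * y * Complex.I)) := by
    rw [← integral_const_mul]
    refine integral_congr_ae (Filter.Eventually.of_forall fun y => ?_)
    simp only
    ring
  rw [e3] at key
  linear_combination -key

theorem PB1_real {X t B : ℝ} (hX : 0 ≤ X) (ht : 0 ≤ t) (h1 : X ≤ B) (h2 : t ^ 3 * X ≤ B) :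
    X * (1 + t) ^ 3 ≤ 8 * B := by
  have h3 : (1 + t) ^ 3 ≤ 4 * (1 + t ^ 3) := by
    nlinarith [mul_nonneg (sq_nonneg (1 - t)) (by linarith : (0 : ℝ) ≤ 1 + t)]
  have h4 : X * (1 + t) ^ 3 ≤ X * (4 * (1 + t ^ 3)) := mul_le_mul_of_nonneg_left h3 hX
  nlinarith

/-- Decay of order three. Proof: `|∫| ≤ (b-a) M` trivially, and integrating by parts three times
(compact support) `|ξ|³ |∫ f e^(-iξy)| = |∫ f3 e^(-iξy)| ≤ (b - a) M`; so the integral is at most
`(b-a) M min(1, |ξ|^(-3)) ≤ 8 (b-a) M/(1+|ξ|)³`. -/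
theorem fourier_decay3 (f f1 f2 f3 : ℝ → ℝ) (a b M : ℝ) (hab : a ≤ b) (hM : 0 ≤ M)
    (h0 : ∀ y, HasDerivAt f (f1 y) y) (h1 : ∀ y, HasDerivAt f1 (f2 y) y)
    (h2 : ∀ y, HasDerivAt f2 (f3 y) y) (hc : Continuous f3)
    (z0 : ∀ y, y ∉ Set.Icc a b → f y = 0) (z1 : ∀ y, y ∉ Set.Icc a b → f1 y = 0)
    (z2 : ∀ y, y ∉ Set.Icc a b → f2 y = 0) (z3 : ∀ y, y ∉ Set.Icc a b → f3 y = 0)
    (b0 : ∀ y, |f y| ≤ M) (b3 : ∀ y, |f3 y| ≤ M) (ξ : ℝ) :
    ‖∫ y : ℝ, (f y : ℂ) * Complex.exp (-(ξ * y * Complex.I))‖ ≤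
      8 * (b - a) * M / (1 + |ξ|) ^ 3 := by
  have c2 : Continuous f2 := continuous_iff_continuousAt.2 fun y => (h2 y).continuousAt
  have c1 : Continuous f1 := continuous_iff_continuousAt.2 fun y => (h1 y).continuousAt
  have s0 := PB1_step f f1 a b h0 c1 z0 z1 ξ
  have s1 := PB1_step f1 f2 a b h1 c2 z1 z2 ξ
  have s2 := PB1_step f2 f3 a b h2 hc z2 z3 ξ
  have B0 := PB1_bd f a b M hab z0 b0 ξ
  have B3 := PB1_bd f3 a b M hab z3 b3 ξ
  have e : ‖(ξ : ℂ)‖ = |ξ| := by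
    rw [Complex.norm_real, Real.norm_eq_abs]
  rw [← s2, ← s1, ← s0] at B3
  simp only [norm_mul, Complex.norm_I, mul_one, e] at B3
  have hpos : 0 < (1 + |ξ|) ^ 3 := by positivity
  rw [le_div_iff₀ hpos]
  have := PB1_real (norm_nonneg _) (abs_nonneg ξ) B0 (by
    calc _ = _ := ?_
      _ ≤ _ := B3
    ring)
  linarith

/-- Fourier inversion in the form used. Proof: the integral of `PB1` is Mathlib's Fourier transform
at `ξ/(2π)`; it is integrable by `fourier_decay3` (continuity of the Fourier transform of an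
integrable function), so `MeasureTheory`'s inversion theorem
(`Continuous.fourierInv_fourier_eq` or its present name) applies; substitute `ξ = 2π x`. -/
theorem fourier_inv3 (f f1 f2 f3 : ℝ → ℝ) (a b M : ℝ) (hab : a ≤ b) (hM : 0 ≤ M)
    (h0 : ∀ y, HasDerivAt f (f1 y) y) (h1 : ∀ y, HasDerivAt f1 (f2 y) y)
    (h2 : ∀ y, HasDerivAt f2 (f3 y) y) (hc : Continuous f3)
    (z0 : ∀ y, y ∉ Set.Icc a b → f y = 0) (z1 : ∀ y, y ∉ Set.Icc a b → f1 y = 0)
    (z2 : ∀ y, y ∉ Set.Icc a b → f2 y = 0) (z3 : ∀ y, y ∉ Set.Icc a b → f3 y = 0)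
    (b0 : ∀ y, |f y| ≤ M) (b3 : ∀ y, |f3 y| ≤ M) :
    ∃ g : ℝ → ℂ, Continuous g ∧ (∀ ξ, ‖g ξ‖ ≤ 2 * (b - a) * M / (1 + |ξ|) ^ 3) ∧
      ∀ u : ℝ, (f u : ℂ) = ∫ ξ : ℝ, g ξ * Complex.exp (u * ξ * Complex.I) := by
  have hcont : Continuous f := continuous_iff_continuousAt.2 fun y => (h0 y).continuousAt
  have hdec := fourier_decay3 f f1 f2 f3 a b M hab hM h0 h1 h2 hc z0 z1 z2 z3 b0 b3
  obtain ⟨G, hG⟩ : ∃ G : ℝ → ℂ, ∀ ξ, G ξ = ∫ y : ℝ, (f y : ℂ) * Complex.exp (-(ξ * y * Complex.I)) :=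
    ⟨_, fun _ => rfl⟩
  have hGc : Continuous G := by
    have e : G = fun ξ : ℝ => ∫ y : ℝ, (f y : ℂ) * Complex.exp (-(ξ * y * Complex.I)) := funext hG
    rw [e]
    refine continuous_of_dominated (bound := fun y => ‖(f y : ℂ)‖) ?_ ?_ ?_ ?_
    · intro ξ
      exact (PB1_int f a b hcont z0 ξ).aestronglyMeasurable
    · intro ξ
      refine Filter.Eventually.of_forall fun y => ?_
      rw [norm_mul, PB1_norm, mul_one]
    · have := (PB1_int f a b hcont z0 0).norm
      refine this.congr (Filter.Eventually.of_forall fun y => ?_)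
      simp only [norm_mul, PB1_norm, mul_one]
    · refine Filter.Eventually.of_forall fun y => ?_
      fun_prop
  have hGb : ∀ ξ, ‖G ξ‖ ≤ 8 * (b - a) * M / (1 + |ξ|) ^ 3 := fun ξ => by
    rw [hG]
    exact hdec ξ
  have hba : 0 ≤ (b - a) * M := mul_nonneg (by linarith) hM
  obtain ⟨fc, hfc⟩ : ∃ fc : ℝ → ℂ, ∀ y, fc y = (f y : ℂ) := ⟨_, fun _ => rfl⟩
  have hfc' : fc = fun y => (f y : ℂ) := funext hfc
  have hF : ∀ x : ℝ, FourierTransform.fourier fc x = G (2 * Real.pi * x) := by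
    intro x
    rw [Real.fourier_real_eq_integral_exp_smul, hG]
    refine integral_congr_ae (Filter.Eventually.of_forall fun y => ?_)
    simp only [hfc, smul_eq_mul]
    rw [mul_comm]
    congr 2
    push_cast
    ring
  have hfint : Integrable fc := by
    have := PB1_int f a b hcont z0 0
    refine this.congr (Filter.Eventually.of_forall fun y => ?_)
    simp only [hfc, Complex.ofReal_zero, zero_mul, neg_zero, Complex.exp_zero, mul_one]
  have hFfun : FourierTransform.fourier fc = fun x : ℝ => G (2 * Real.pi * x) := funext hF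
  have hFint : Integrable (FourierTransform.fourier fc) := by
    rw [hFfun]
    have h3 := (integrable_inv_one_add_sq).const_mul (8 * (b - a) * M)
    refine h3.mono' (hGc.comp (continuous_const.mul continuous_id)).aestronglyMeasurable ?_
    refine Filter.Eventually.of_forall fun x => ?_
    refine (hGb _).trans ?_
    rw [div_eq_mul_inv]
    refine mul_le_mul_of_nonneg_left ?_ (by nlinarith)
    refine inv_anti₀ (by positivity) ?_
    have hpi : 1 ≤ 2 * Real.pi := by nlinarith [Real.pi_gt_three]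
    have h4 : |x| ≤ |2 * Real.pi * x| := by
      rw [abs_mul, abs_of_nonneg (by linarith : (0 : ℝ) ≤ 2 * Real.pi)]
      nlinarith [abs_nonneg x]
    have h5 : (1 + |x|) ^ 3 ≤ (1 + |2 * Real.pi * x|) ^ 3 := by
      gcongr
    have h6 : 1 + x ^ 2 ≤ (1 + |x|) ^ 3 := by
      have h7 := abs_nonneg x
      have h8 : x ^ 2 = |x| ^ 2 := (sq_abs x).symm
      rw [h8]
      nlinarith [mul_nonneg h7 h7, mul_nonneg h7 (mul_nonneg h7 h7)]
    exact h6.trans h5
  have hinv := Continuous.fourierInv_fourier_eq (f := fc) (by rw [hfc']; fun_prop) hfint hFint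
  refine ⟨fun ξ => ((1 / (2 * Real.pi) : ℝ) : ℂ) * G ξ, by fun_prop, ?_, ?_⟩
  · intro ξ
    rw [norm_mul, Complex.norm_real, Real.norm_eq_abs, abs_of_nonneg (by positivity)]
    have h3 := hGb ξ
    have hpos : 0 < (1 + |ξ|) ^ 3 := by positivity
    have h4 : 1 / (2 * Real.pi) ≤ 1 / 4 := by
      apply one_div_le_one_div_of_le (by norm_num)
      nlinarith [Real.pi_gt_three]
    calc 1 / (2 * Real.pi) * ‖G ξ‖ ≤ 1 / 4 * (8 * (b - a) * M / (1 + |ξ|) ^ 3) :=
          mul_le_mul h4 h3 (norm_nonneg _) (by norm_num)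
      _ = 2 * (b - a) * M / (1 + |ξ|) ^ 3 := by ring
  · intro u
    have h3 := congrFun hinv u
    rw [Real.fourierInv_eq', hfc] at h3
    rw [← h3]
    obtain ⟨Q, hQ⟩ : ∃ Q : ℝ → ℂ, ∀ x, Q x = G x * Complex.exp (u * x * Complex.I) := ⟨_, fun _ => rfl⟩
    have e1 : (∫ ξ : ℝ, ((1 / (2 * Real.pi) : ℝ) : ℂ) * G ξ * Complex.exp (u * ξ * Complex.I)) =
        ((1 / (2 * Real.pi) : ℝ) : ℂ) * ∫ ξ : ℝ, Q ξ := by
      rw [← integral_const_mul]
      refine integral_congr_ae (Filter.Eventually.of_forall fun y => ?_)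
      simp only [hQ]
      ring
    have e2 := Measure.integral_comp_mul_left Q (2 * Real.pi)
    rw [e1]
    have e3 : (∫ x : ℝ, Q (2 * Real.pi * x)) = ∫ v : ℝ, Complex.exp (↑(2 * Real.pi * inner ℝ v u) * Complex.I) •
        FourierTransform.fourier fc v := by
      refine integral_congr_ae (Filter.Eventually.of_forall fun x => ?_)
      simp only [hQ, hF, smul_eq_mul]
      rw [mul_comm]
      congr 2
      simp only [RCLike.inner_apply, conj_trivial]
      push_cast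
      ring
    rw [← e3, e2, abs_of_pos (by positivity), Complex.real_smul]
    simp only [one_div]

end Pool.Agent.Lib.H18Q
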