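import Pool.Agent.Lib.H18Q.PDefs
import Pool.Agent.Lib.H68X.XFB

/-!
# Project H18Q, chunk PB2: the quotient of the bump by the Gamma density
-/

open Finset

namespace Pool.Agent.Lib.H18Q

open Pool.Agent.Lib.H68T

/-- One step: a smooth function vanishing outside `[a, b]`. -/
theorem pb2_step (g : ℝ → ℝ) (a b : ℝ) (hg : ContDiff ℝ (⊤ : ℕ∞) g)
    (hz : ∀ y, y ∉ Set.Icc a b → g y = 0) :
    (∀ y, HasDerivAt g (deriv g y) y) ∧ ContDiff ℝ (⊤ : ℕ∞) (deriv g) ∧
    (∀ y, y ∉ Set.Icc a b → deriv g y = 0) ∧ ∃ M : ℝ, ∀ y, |g y| ≤ M := by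
  obtain ⟨h1, h2⟩ := contDiff_infty_iff_deriv.mp hg
  have hsup : Function.support g ⊆ Set.Icc a b := by
    intro y hy
    by_contra h
    exact hy (hz y h)
  have hts : tsupport g ⊆ Set.Icc a b := closure_minimal hsup isClosed_Icc
  refine ⟨fun y => (h1 y).hasDerivAt, h2, ?_, ?_⟩
  · intro y hy
    by_contra h
    exact hy (hts (support_deriv_subset h))
  · have hc : HasCompactSupport g := isCompact_Icc.of_isClosed_subset (isClosed_tsupport _) hts
    obtain ⟨C, hC⟩ := hc.exists_bound_of_continuous hg.continuous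
    exact ⟨C, hC⟩

/-- Three derivatives of `w`: explicit functions, continuous, bounded, zero outside `[-2, 4]`
(`w` is smooth: `Real.smoothTransition.contDiff`; it vanishes outside `[-2, 4]`, so its derivatives
do; take `iteratedDeriv j w`; see `XFB_amp` in `H68X/XFB` for two derivatives). -/
theorem PB2_w : ∃ (w1 w2 w3 : ℝ → ℝ) (M : ℝ), 1 ≤ M ∧ (∀ y, HasDerivAt w (w1 y) y) ∧
    (∀ y, HasDerivAt w1 (w2 y) y) ∧ (∀ y, HasDerivAt w2 (w3 y) y) ∧ Continuous w3 ∧
    (∀ y, y ∉ Set.Icc (-2 : ℝ) 4 → w y = 0 ∧ w1 y = 0 ∧ w2 y = 0 ∧ w3 y = 0) ∧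
    ∀ y, |w y| ≤ M ∧ |w1 y| ≤ M ∧ |w2 y| ≤ M ∧ |w3 y| ≤ M := by
  have hw : ContDiff ℝ (⊤ : ℕ∞) w := by
    unfold w
    have h1 : ContDiff ℝ (⊤ : ℕ∞) (fun y : ℝ => Real.smoothTransition (y + 2)) :=
      Real.smoothTransition.contDiff.comp (contDiff_id.add contDiff_const)
    have h2 : ContDiff ℝ (⊤ : ℕ∞) (fun y : ℝ => Real.smoothTransition (4 - y)) :=
      Real.smoothTransition.contDiff.comp (contDiff_const.sub contDiff_id)
    exact h1.mul h2
  have hz : ∀ y, y ∉ Set.Icc (-2 : ℝ) 4 → w y = 0 := by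
    intro y hy
    rw [Set.mem_Icc, not_and_or, not_le, not_le] at hy
    unfold w
    rcases hy with hy | hy
    · rw [Real.smoothTransition.zero_of_nonpos (by linarith), zero_mul]
    · rw [Real.smoothTransition.zero_of_nonpos (x := 4 - y) (by linarith), mul_zero]
  obtain ⟨a1, a2, a3, M0, hM0⟩ := pb2_step w (-2) 4 hw hz
  obtain ⟨b1, b2, b3, M1, hM1⟩ := pb2_step (deriv w) (-2) 4 a2 a3
  obtain ⟨c1, c2, c3, M2, hM2⟩ := pb2_step (deriv (deriv w)) (-2) 4 b2 b3
  obtain ⟨d1, d2, d3, M3, hM3⟩ := pb2_step (deriv (deriv (deriv w))) (-2) 4 c2 c3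
  refine ⟨deriv w, deriv (deriv w), deriv (deriv (deriv w)), 1 + |M0| + |M1| + |M2| + |M3|, ?_,
    a1, b1, c1, c2.continuous, fun y hy => ⟨hz y hy, a3 y hy, b3 y hy, c3 y hy⟩, fun y => ?_⟩
  · have := abs_nonneg M0
    have := abs_nonneg M1
    have := abs_nonneg M2
    have := abs_nonneg M3
    linarith
  · have h0 := (hM0 y).trans (le_abs_self M0)
    have h1 := (hM1 y).trans (le_abs_self M1)
    have h2 := (hM2 y).trans (le_abs_self M2)
    have h3 := (hM3 y).trans (le_abs_self M3)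
    have := abs_nonneg M0
    have := abs_nonneg M1
    have := abs_nonneg M2
    have := abs_nonneg M3
    refine ⟨?_, ?_, ?_, ?_⟩ <;> linarith

/-- `k! ≤ e √k (k/e)^k`. -/
theorem pb2_fact (k : ℕ) (hk : 1 ≤ k) :
    (k.factorial : ℝ) ≤ Real.exp 1 * Real.sqrt k * ((k : ℝ) / Real.exp 1) ^ k := by
  obtain ⟨m, rfl⟩ : ∃ m, k = m + 1 := ⟨k - 1, by omega⟩
  have h := Stirling.stirlingSeq'_antitone (Nat.zero_le m)
  simp only [Function.comp, Nat.succ_eq_add_one, zero_add] at h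
  rw [Stirling.stirlingSeq_one] at h
  unfold Stirling.stirlingSeq at h
  have hp : (0 : ℝ) < ((m + 1 : ℕ) : ℝ) := by positivity
  have hs : 0 < Real.sqrt (2 * ((m + 1 : ℕ) : ℝ)) * (((m + 1 : ℕ) : ℝ) / Real.exp 1) ^ (m + 1) := by
    positivity
  rw [div_le_iff₀ hs] at h
  refine h.trans (le_of_eq ?_)
  rw [Real.sqrt_mul (by norm_num)]
  have h2 : Real.sqrt 2 ≠ 0 := by positivity
  field_simp

/-- `1/Wd k U ≤ C √U` for `k = ⌊U/64⌋ ≥ 1`.

Proof. `Wd k U = (1/64) y^k e^(-y)/k!` with `y = U/64 ∈ [k, k+1)`. `y^k e^(-y)` is decreasing for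
`y ≥ k`, so it is `≥ (k+1)^k e^(-k-1) ≥ 2 k^k e^(-k)/e` (`(1 + 1/k)^k ≥ 2`), and
`k! ≤ e √k (k/e)^k` (`Stirling.stirlingSeq` is antitone for `n ≥ 1`, value `e/√2` at `1`; or by
induction). So `1/Wd ≤ 64 (e/2) e √k ≤ 300 √k`. -/
theorem PB2_W (X : ℕ) (hk : 1 ≤ kX X) : 0 < Wd (kX X) (Real.log X) ∧
    1 / Wd (kX X) (Real.log X) ≤ 300 * Real.sqrt (Real.log X) := by
  set k := kX X with hkd
  set U := Real.log X with hU
  have hk1 : (1 : ℝ) ≤ k := by exact_mod_cast hk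
  have hU0 : 0 ≤ U := Real.log_natCast_nonneg X
  have hkle : (k : ℝ) ≤ U / 64 := by
    rw [hkd]
    unfold kX
    exact Nat.floor_le (by positivity)
  have hklt : U / 64 < k + 1 := by
    rw [hkd]
    unfold kX
    exact Nat.lt_floor_add_one _
  have hUp : 0 < U := by linarith
  have hW : 0 < Wd k U := by
    unfold Wd
    positivity
  refine ⟨hW, ?_⟩
  rw [div_le_iff₀ hW]
  -- `1 ≤ 300 √U Wd`
  have hf := pb2_fact k hk
  have hfp : (0 : ℝ) < (k.factorial : ℝ) := by exact_mod_cast k.factorial_pos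
  have h1 : (k : ℝ) ^ k ≤ (U / 64) ^ k := pow_le_pow_left₀ (by positivity) hkle k
  have h2 : Real.exp (-((k : ℝ) + 1)) ≤ Real.exp (-(U / 64)) := Real.exp_le_exp.mpr (by linarith)
  have h3 : Real.sqrt k ≤ Real.sqrt U / 8 := by
    have e : Real.sqrt (U / 64) = Real.sqrt U / 8 := by
      rw [Real.sqrt_div hU0]
      congr 1
      rw [show (64 : ℝ) = 8 ^ 2 by norm_num]
      exact Real.sqrt_sq (by norm_num)
    rw [← e]
    exact Real.sqrt_le_sqrt hkle
  have hWe : Wd k U = (1 / 64) * ((U / 64) ^ k * Real.exp (-(U / 64))) / (k.factorial : ℝ) := by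
    unfold Wd
    rw [div_pow, pow_succ, div_pow, one_pow]
    ring
  rw [hWe, mul_div_assoc', le_div_iff₀ hfp, one_mul]
  have he : Real.exp 1 * Real.exp 1 ≤ 8 := by
    have := Real.exp_one_lt_d9
    have := Real.exp_pos 1
    nlinarith
  have h4 : ((k : ℝ) / Real.exp 1) ^ k = (k : ℝ) ^ k * (Real.exp 1 * Real.exp (-((k : ℝ) + 1))) := by
    rw [div_pow, div_eq_mul_inv]
    congr 1
    rw [← Real.exp_nat_mul, mul_one, ← Real.exp_neg, ← Real.exp_add]
    congr 1
    ring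
  calc (k.factorial : ℝ) ≤ Real.exp 1 * Real.sqrt k * ((k : ℝ) / Real.exp 1) ^ k := hf
    _ = (Real.exp 1 * Real.exp 1) * Real.sqrt k * ((k : ℝ) ^ k * Real.exp (-((k : ℝ) + 1))) := by
        rw [h4]; ring
    _ ≤ 8 * (Real.sqrt U / 8) * ((U / 64) ^ k * Real.exp (-(U / 64))) := by
        gcongr
    _ = 64 * Real.sqrt U * (1 / 64 * ((U / 64) ^ k * Real.exp (-(U / 64)))) := by ring
    _ ≤ _ := by
        gcongr
        norm_num

/-- The exponent `h(u) = (u - U)/64 - k (log u - log U)`. -/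
noncomputable def pb2_h (k : ℕ) (U u : ℝ) : ℝ := (u - U) / 64 - k * (Real.log u - Real.log U)

/-- `h'`. -/
noncomputable def pb2_h1 (k : ℕ) (u : ℝ) : ℝ := 1 / 64 - k * u⁻¹

/-- `h''`. -/
noncomputable def pb2_h2 (k : ℕ) (u : ℝ) : ℝ := k * (u⁻¹) ^ 2

/-- `h'''`. -/
noncomputable def pb2_h3 (k : ℕ) (u : ℝ) : ℝ := -(2 * k * (u⁻¹) ^ 3)

theorem pb2_dh (k : ℕ) (U u : ℝ) (hu : 0 < u) : HasDerivAt (pb2_h k U) (pb2_h1 k u) u := by
  unfold pb2_h pb2_h1
  have h1 : HasDerivAt (fun u : ℝ => (u - U) / 64) (1 / 64) u :=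
    ((hasDerivAt_id u).sub_const U).div_const 64
  have h2 : HasDerivAt (fun u : ℝ => (k : ℝ) * (Real.log u - Real.log U)) (k * u⁻¹) u :=
    ((Real.hasDerivAt_log hu.ne').sub_const _).const_mul _
  exact h1.sub h2

theorem pb2_dh1 (k : ℕ) (u : ℝ) (hu : 0 < u) : HasDerivAt (pb2_h1 k) (pb2_h2 k u) u := by
  unfold pb2_h1 pb2_h2
  have h2 := ((hasDerivAt_inv hu.ne').const_mul (k : ℝ)).const_sub (1 / 64 : ℝ)
  refine h2.congr_deriv ?_
  rw [inv_pow]
  ring

theorem pb2_dh2 (k : ℕ) (u : ℝ) (hu : 0 < u) : HasDerivAt (pb2_h2 k) (pb2_h3 k u) u := by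
  unfold pb2_h2 pb2_h3
  have h2 := ((hasDerivAt_inv hu.ne').pow 2).const_mul (k : ℝ)
  refine h2.congr_deriv ?_
  rw [← inv_pow]
  push_cast
  ring

theorem pb2_dG (k : ℕ) (U u : ℝ) (hu : 0 < u) :
    HasDerivAt (fun u => Real.exp (pb2_h k U u)) (pb2_h1 k u * Real.exp (pb2_h k U u)) u := by
  have := (pb2_dh k U u hu).exp
  rwa [mul_comm] at this

theorem pb2_dG1 (k : ℕ) (U u : ℝ) (hu : 0 < u) :
    HasDerivAt (fun u => pb2_h1 k u * Real.exp (pb2_h k U u))
      ((pb2_h2 k u + pb2_h1 k u ^ 2) * Real.exp (pb2_h k U u)) u := by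
  refine ((pb2_dh1 k u hu).mul (pb2_dG k U u hu)).congr_deriv ?_
  ring

theorem pb2_dG2 (k : ℕ) (U u : ℝ) (hu : 0 < u) :
    HasDerivAt (fun u => (pb2_h2 k u + pb2_h1 k u ^ 2) * Real.exp (pb2_h k U u))
      ((pb2_h3 k u + 3 * pb2_h1 k u * pb2_h2 k u + pb2_h1 k u ^ 3) * Real.exp (pb2_h k U u)) u := by
  refine (((pb2_dh2 k u hu).add ((pb2_dh1 k u hu).pow 2)).mul (pb2_dG k U u hu)).congr_deriv ?_
  simp only [Pi.add_apply, Pi.pow_apply]
  push_cast
  ring

theorem pb2_cG3 (k : ℕ) (U u : ℝ) (hu : 0 < u) :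
    ContinuousAt (fun u => (pb2_h3 k u + 3 * pb2_h1 k u * pb2_h2 k u + pb2_h1 k u ^ 3) *
      Real.exp (pb2_h k U u)) u := by
  have c0 := (pb2_dG k U u hu).continuousAt
  have c1 := (pb2_dh1 k u hu).continuousAt
  have c2 := (pb2_dh2 k u hu).continuousAt
  have c3 : ContinuousAt (pb2_h3 k) u := by
    unfold pb2_h3
    have := continuousAt_inv₀ hu.ne'
    fun_prop (disch := exact hu.ne')
  exact ((c3.add ((continuousAt_const.mul c1).mul c2)).add (c1.pow 3)).mul c0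

/-- Bounds for the exponent on `[U - 2, U + 4]`. -/
theorem pb2_hb (k : ℕ) (U : ℝ) (hU : 100 ≤ U) (h1 : (k : ℝ) ≤ U / 64)
    (u : ℝ) (hu : u ∈ Set.Icc (U - 2) (U + 4)) :
    |pb2_h1 k u| ≤ 1 ∧ |pb2_h2 k u| ≤ 1 ∧ |pb2_h3 k u| ≤ 1 := by
  obtain ⟨hu1, hu2⟩ := Set.mem_Icc.mp hu
  have hu0 : 0 < u := by linarith
  have hi : 0 < u⁻¹ := inv_pos.mpr hu0
  have hk : (0 : ℝ) ≤ k := Nat.cast_nonneg k
  have hki : k * u⁻¹ ≤ 1 := by
    rw [← div_eq_mul_inv, div_le_one hu0]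
    linarith
  have hki0 : 0 ≤ k * u⁻¹ := by positivity
  have hi1 : u⁻¹ ≤ 1 / 2 := by
    rw [inv_eq_one_div]
    exact one_div_le_one_div_of_le (by norm_num) (by linarith)
  refine ⟨?_, ?_, ?_⟩
  · unfold pb2_h1
    rw [abs_le]
    constructor <;> linarith
  · unfold pb2_h2
    rw [abs_of_nonneg (by positivity)]
    calc (k : ℝ) * u⁻¹ ^ 2 = (k * u⁻¹) * u⁻¹ := by ring
      _ ≤ 1 * (1 / 2) := mul_le_mul hki hi1 hi.le (by norm_num)
      _ ≤ 1 := by norm_num
  · unfold pb2_h3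
    rw [abs_neg, abs_of_nonneg (by positivity)]
    calc 2 * (k : ℝ) * u⁻¹ ^ 3 = 2 * ((k * u⁻¹) * (u⁻¹ * u⁻¹)) := by ring
      _ ≤ 2 * (1 * ((1 / 2) * (1 / 2))) := by
          gcongr
      _ ≤ 1 := by norm_num

theorem pb2_hh (k : ℕ) (U : ℝ) (hU : 100 ≤ U) (h1 : (k : ℝ) ≤ U / 64)
    (u : ℝ) (hu : u ∈ Set.Icc (U - 2) (U + 4)) : pb2_h k U u ≤ 4 := by
  have h := Convex.norm_image_sub_le_of_norm_hasDerivWithin_le (f := pb2_h k U)
    (f' := pb2_h1 k) (s := Set.Icc (U - 2) (U + 4)) (C := 1) (x := U) (y := u)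
    (fun z hz => (pb2_dh k U z (by linarith [(Set.mem_Icc.mp hz).1])).hasDerivWithinAt)
    (fun z hz => (pb2_hb k U hU h1 z hz).1) (convex_Icc _ _)
    (Set.mem_Icc.mpr ⟨by linarith, by linarith⟩) hu
  have h0 : pb2_h k U U = 0 := by
    unfold pb2_h
    ring
  rw [h0, sub_zero, one_mul, Real.norm_eq_abs, Real.norm_eq_abs] at h
  obtain ⟨hu1, hu2⟩ := Set.mem_Icc.mp hu
  refine (le_abs_self _).trans (h.trans ?_)
  rw [abs_le]
  constructor <;> linarith

/-- A function vanishing below `a > 0` with a derivative on `(0, ∞)` has a derivative. -/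
theorem pb2_glue (a : ℝ) (ha : 0 < a) (f f1 : ℝ → ℝ) (hz : ∀ y, y < a → f y = 0)
    (hz1 : ∀ y, y < a → f1 y = 0) (hd : ∀ y, 0 < y → HasDerivAt f (f1 y) y) (y : ℝ) :
    HasDerivAt f (f1 y) y := by
  by_cases h : 0 < y
  · exact hd y h
  · have hy : y < a := by linarith [not_lt.mp h]
    rw [hz1 y hy]
    have he : f =ᶠ[nhds y] fun _ => 0 := by
      filter_upwards [Iio_mem_nhds hy] with z hz'
      exact hz z hz'
    exact (hasDerivAt_const y (0 : ℝ)).congr_of_eventuallyEq he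

/-- The quotient `κ(u) = w(u - U)/Wd(k, u)` (`0` for `u ∉ [U-2, U+4]`), `U = log X`, `k = kX X`, has
three derivatives bounded by `C √U`.

Proof. For `u > 0`, `1/Wd k u = (1/Wd k U) e^(h(u))`, `h(u) = (u - U)/64 - k log (u/U)`. On
`[U-2, U+4]` (`U` large, `|k - U/64| ≤ 1`): `|h'(u)| = |1/64 - k/u| = |u/64 - k|/u ≤ 2/u ≤ 1`,
`|h''| = k/u² ≤ 1`, `|h'''| = 2 k/u³ ≤ 1`, and `h(U) = 0`, so `|h| ≤ 4` there. So `G = e^h` has
`G' = h' G`, `G'' = (h'' + h'²) G`, `G''' = (h''' + 3 h' h'' + h'³) G`, all at most `5 e^4` in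
absolute value. `κ = (1/Wd k U) w(u - U) G(u)`: Leibniz with `PB2_w`; outside `[U - 2, U + 4]`
everything is `0` (the functions `κ_j(u)` are defined as the Leibniz expressions for `u > 0` and `0`
for `u ≤ 0`, and `HasDerivAt` at `u ≤ 0` holds since `κ_j = 0` on `(-∞, U-2)`). `PB2_W` for the
factor `1/Wd k U`. -/
theorem PB2_quot : ∃ C K : ℝ, 0 < C ∧ ∀ X : ℕ, K ≤ X → ∃ f f1 f2 f3 : ℝ → ℝ,
    (∀ y, HasDerivAt f (f1 y) y) ∧ (∀ y, HasDerivAt f1 (f2 y) y) ∧
    (∀ y, HasDerivAt f2 (f3 y) y) ∧ Continuous f3 ∧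
    (∀ y, y ∉ Set.Icc (Real.log X - 2) (Real.log X + 4) → f y = 0 ∧ f1 y = 0 ∧ f2 y = 0 ∧
      f3 y = 0) ∧
    (∀ y, |f y| ≤ C * Real.sqrt (Real.log X) ∧ |f3 y| ≤ C * Real.sqrt (Real.log X)) ∧
    ∀ u : ℝ, 0 < u → w (u - Real.log X) = Wd (kX X) u * f u := by
  obtain ⟨w1, w2, w3, M, hM, d0, d1, d2, c3, hout, hb⟩ := PB2_w
  have hE4 : 1 ≤ Real.exp 4 := Real.one_le_exp (by norm_num)
  refine ⟨300 * (15 * M * Real.exp 4), Real.exp 100, by positivity, fun X hX => ?_⟩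
  have hX0 : (0 : ℝ) < X := lt_of_lt_of_le (Real.exp_pos _) hX
  set U := Real.log X with hUd
  have hU : 100 ≤ U := (Real.le_log_iff_exp_le hX0).mpr hX
  set k := kX X with hkd
  have hkle : (k : ℝ) ≤ U / 64 := by
    rw [hkd]
    unfold kX
    exact Nat.floor_le (by positivity)
  have hklt : U / 64 < k + 1 := by
    rw [hkd]
    unfold kX
    exact Nat.lt_floor_add_one _
  have hk1 : 1 ≤ k := by
    by_contra h
    have : k = 0 := by omega
    rw [this] at hklt
    norm_num at hklt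
    linarith
  obtain ⟨hWp, hWb⟩ := PB2_W X hk1
  rw [← hkd, ← hUd] at hWp hWb
  set c := 1 / Wd k U with hc
  have hc0 : 0 < c := by rw [hc]; positivity
  set G : ℝ → ℝ := fun u => Real.exp (pb2_h k U u) with hG
  set G1 : ℝ → ℝ := fun u => pb2_h1 k u * Real.exp (pb2_h k U u) with hG1
  set G2 : ℝ → ℝ := fun u => (pb2_h2 k u + pb2_h1 k u ^ 2) * Real.exp (pb2_h k U u) with hG2
  set G3 : ℝ → ℝ := fun u => (pb2_h3 k u + 3 * pb2_h1 k u * pb2_h2 k u + pb2_h1 k u ^ 3) *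
      Real.exp (pb2_h k U u) with hG3
  have dG : ∀ u, 0 < u → HasDerivAt G (G1 u) u := pb2_dG k U
  have dG1 : ∀ u, 0 < u → HasDerivAt G1 (G2 u) u := pb2_dG1 k U
  have dG2 : ∀ u, 0 < u → HasDerivAt G2 (G3 u) u := pb2_dG2 k U
  have cG3 : ∀ u, 0 < u → ContinuousAt G3 u := pb2_cG3 k U
  -- the shifted bump
  have e0 : ∀ u, HasDerivAt (fun u => w (u - U)) (w1 (u - U)) u := fun u => by
    simpa using (d0 (u - U)).comp_sub_const u U
  have e1 : ∀ u, HasDerivAt (fun u => w1 (u - U)) (w2 (u - U)) u := fun u => by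
    simpa using (d1 (u - U)).comp_sub_const u U
  have e2 : ∀ u, HasDerivAt (fun u => w2 (u - U)) (w3 (u - U)) u := fun u => by
    simpa using (d2 (u - U)).comp_sub_const u U
  have e3 : ∀ u, ContinuousAt (fun u => w3 (u - U)) u := fun u =>
    (c3.comp (continuous_id.sub continuous_const)).continuousAt
  have hz : ∀ u, u ∉ Set.Icc (U - 2) (U + 4) → w (u - U) = 0 ∧ w1 (u - U) = 0 ∧
      w2 (u - U) = 0 ∧ w3 (u - U) = 0 := by
    intro u hu
    apply hout
    intro h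
    apply hu
    rw [Set.mem_Icc] at h ⊢
    constructor <;> linarith [h.1, h.2]
  -- the functions
  set f : ℝ → ℝ := fun u => c * (w (u - U) * G u) with hf
  set f1 : ℝ → ℝ := fun u => c * (w1 (u - U) * G u + w (u - U) * G1 u) with hf1
  set f2 : ℝ → ℝ := fun u => c * (w2 (u - U) * G u + 2 * (w1 (u - U) * G1 u) +
    w (u - U) * G2 u) with hf2
  set f3 : ℝ → ℝ := fun u => c * (w3 (u - U) * G u + 3 * (w2 (u - U) * G1 u) +
    3 * (w1 (u - U) * G2 u) + w (u - U) * G3 u) with hf3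
  have hfz : ∀ y, y ∉ Set.Icc (U - 2) (U + 4) → f y = 0 ∧ f1 y = 0 ∧ f2 y = 0 ∧ f3 y = 0 := by
    intro y hy
    obtain ⟨h0, h1, h2, h3⟩ := hz y hy
    simp only [hf, hf1, hf2, hf3, h0, h1, h2, h3]
    simp
  have hlow : ∀ y, y < U - 2 → y ∉ Set.Icc (U - 2) (U + 4) := by
    intro y hy h
    linarith [(Set.mem_Icc.mp h).1]
  have ha : 0 < U - 2 := by linarith
  refine ⟨f, f1, f2, f3, ?_, ?_, ?_, ?_, hfz, ?_, ?_⟩
  · refine pb2_glue (U - 2) ha f f1 (fun y hy => (hfz y (hlow y hy)).1)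
      (fun y hy => (hfz y (hlow y hy)).2.1) (fun y hy => ?_)
    exact ((e0 y).mul (dG y hy)).const_mul c
  · refine pb2_glue (U - 2) ha f1 f2 (fun y hy => (hfz y (hlow y hy)).2.1)
      (fun y hy => (hfz y (hlow y hy)).2.2.1) (fun y hy => ?_)
    refine ((((e1 y).mul (dG y hy)).add ((e0 y).mul (dG1 y hy))).const_mul c).congr_deriv ?_
    simp only [hf2]
    ring
  · refine pb2_glue (U - 2) ha f2 f3 (fun y hy => (hfz y (hlow y hy)).2.2.1)
      (fun y hy => (hfz y (hlow y hy)).2.2.2) (fun y hy => ?_)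
    refine (((((e2 y).mul (dG y hy)).add (((e1 y).mul (dG1 y hy)).const_mul 2)).add
      ((e0 y).mul (dG2 y hy))).const_mul c).congr_deriv ?_
    simp only [hf3]
    ring
  · rw [continuous_iff_continuousAt]
    intro y
    by_cases h : 0 < y
    · have g0 := (dG y h).continuousAt
      have g1 := (dG1 y h).continuousAt
      have g2 := (dG2 y h).continuousAt
      have g3 := cG3 y h
      exact continuousAt_const.mul (((((e3 y).mul g0).add
        (continuousAt_const.mul ((e2 y).continuousAt.mul g1))).add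
        (continuousAt_const.mul ((e1 y).continuousAt.mul g2))).add ((e0 y).continuousAt.mul g3))
    · have hy : y < U - 2 := by linarith [not_lt.mp h]
      have he : f3 =ᶠ[nhds y] fun _ => 0 := by
        filter_upwards [Iio_mem_nhds hy] with z hz'
        exact (hfz z (hlow z hz')).2.2.2
      exact (continuousAt_const (y := (0 : ℝ))).congr he.symm
  · intro y
    have hM0 : 0 ≤ M := by linarith
    have hs : 0 ≤ Real.sqrt U := Real.sqrt_nonneg U
    by_cases hy : y ∈ Set.Icc (U - 2) (U + 4)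
    · obtain ⟨b0, b1, b2, b3⟩ := hb (y - U)
      obtain ⟨p1, p2, p3⟩ := pb2_hb k U hU hkle y hy
      have p0 := pb2_hh k U hU hkle y hy
      have q0 : |G y| ≤ Real.exp 4 := by
        simp only [hG]
        rw [abs_of_pos (Real.exp_pos _)]
        exact Real.exp_le_exp.mpr p0
      have q1 : |G1 y| ≤ Real.exp 4 := by
        simp only [hG1]
        rw [abs_mul]
        calc _ ≤ 1 * Real.exp 4 := mul_le_mul p1 q0 (abs_nonneg _) (by norm_num)
          _ = _ := one_mul _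
      have q2 : |G2 y| ≤ 2 * Real.exp 4 := by
        simp only [hG2]
        rw [abs_mul]
        refine mul_le_mul ?_ q0 (abs_nonneg _) (by norm_num)
        refine (abs_add_le _ _).trans ?_
        rw [abs_pow]
        have := pow_le_one₀ (n := 2) (abs_nonneg _) p1
        linarith
      have q3 : |G3 y| ≤ 5 * Real.exp 4 := by
        simp only [hG3]
        rw [abs_mul]
        refine mul_le_mul ?_ q0 (abs_nonneg _) (by norm_num)
        refine (abs_add_three _ _ _).trans ?_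
        rw [abs_pow, abs_mul, abs_mul]
        have h1 := pow_le_one₀ (n := 3) (abs_nonneg _) p1
        have h2 : |(3 : ℝ)| * |pb2_h1 k y| * |pb2_h2 k y| ≤ 3 * 1 * 1 := by
          rw [abs_of_pos (by norm_num : (0 : ℝ) < 3)]
          gcongr
        linarith
      have r : ∀ a b A B : ℝ, |a| ≤ A → |b| ≤ B → |a * b| ≤ A * B := by
        intro a b A B hA hB
        rw [abs_mul]
        exact mul_le_mul hA hB (abs_nonneg _) ((abs_nonneg _).trans hA)
      constructor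
      · simp only [hf]
        rw [abs_mul, abs_of_pos hc0]
        calc c * |w (y - U) * G y| ≤ (300 * Real.sqrt U) * (M * Real.exp 4) :=
              mul_le_mul hWb (r _ _ _ _ b0 q0) (abs_nonneg _) (by positivity)
          _ ≤ (300 * Real.sqrt U) * (15 * (M * Real.exp 4)) := by
              apply mul_le_mul_of_nonneg_left _ (by positivity)
              have : 0 ≤ M * Real.exp 4 := by positivity
              linarith
          _ = _ := by ring
      · simp only [hf3]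
        rw [abs_mul, abs_of_pos hc0]
        have t0 := r _ _ _ _ b3 q0
        have t1 := r _ _ _ _ b2 q1
        have t2 := r _ _ _ _ b1 q2
        have t3 := r _ _ _ _ b0 q3
        have key : |w3 (y - U) * G y + 3 * (w2 (y - U) * G1 y) + 3 * (w1 (y - U) * G2 y) +
            w (y - U) * G3 y| ≤ 15 * (M * Real.exp 4) := by
          refine (abs_add_le _ _).trans ?_
          have s1 := abs_add_three (w3 (y - U) * G y) (3 * (w2 (y - U) * G1 y))
            (3 * (w1 (y - U) * G2 y))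
          rw [abs_mul 3, abs_mul 3, abs_of_pos (by norm_num : (0 : ℝ) < 3)] at s1
          linarith
        calc _ ≤ (300 * Real.sqrt U) * (15 * (M * Real.exp 4)) :=
              mul_le_mul hWb key (abs_nonneg _) (by positivity)
          _ = _ := by ring
    · obtain ⟨h0, -, -, h3⟩ := hfz y hy
      rw [h0, h3, abs_zero]
      constructor <;> positivity
  · intro u hu
    simp only [hf, hG, hc]
    have hW' : Wd k u * Real.exp (pb2_h k U u) = Wd k U := by
      unfold Wd pb2_h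
      have hUp : 0 < U := by linarith
      have h1 : Real.exp ((u - U) / 64 - k * (Real.log u - Real.log U)) =
          Real.exp (u / 64) * Real.exp (-(U / 64)) * (U ^ k / u ^ k) := by
        rw [show (u - U) / 64 - k * (Real.log u - Real.log U) =
          u / 64 + -(U / 64) + (k * Real.log U - k * Real.log u) by ring, Real.exp_add,
          Real.exp_add, Real.exp_sub, Real.exp_nat_mul, Real.exp_nat_mul, Real.exp_log hu,
          Real.exp_log hUp]
      rw [h1, Real.exp_neg (u / 64)]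
      have h2 : Real.exp (u / 64) ≠ 0 := (Real.exp_pos _).ne'
      have h3 : u ^ k ≠ 0 := (pow_pos hu k).ne'
      have h4 : (k.factorial : ℝ) ≠ 0 := by exact_mod_cast k.factorial_ne_zero
      field_simp
    calc w (u - U) = (Wd k U) * (1 / Wd k U * w (u - U)) := by
          field_simp
      _ = _ := by rw [← hW']; ring

end Pool.Agent.Lib.H18Q
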