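import Pool.Agent.Lib.H18Q.QDefs

/-!
# Project H18Q, chunk W1: the weights `Jk`

`Jk lam k n = n^(-1) lam h_k(lam log n)`, `h_k(y) = y^k e^(-y) / k!`, for `n ≥ 1`.
-/

open Finset

namespace Pool.Agent.Lib.H18Q

open ArithmeticFunction

/-- `y^k e^(-y) / k!`. -/
noncomputable def w1_h (k : ℕ) (y : ℝ) : ℝ := y ^ k / (k.factorial : ℝ) * Real.exp (-y)

/-- The tail `e^(-y) ∑_{i ≤ k} y^i / i!` of the Gamma integral. -/
noncomputable def w1_P : ℕ → ℝ → ℝ
  | 0 => fun y => Real.exp (-y)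
  | (k + 1) => fun y => w1_P k y + y ^ (k + 1) / ((k + 1).factorial : ℝ) * Real.exp (-y)

theorem w1_exp_der (y : ℝ) : HasDerivAt (fun y : ℝ => Real.exp (-y)) (-Real.exp (-y)) y := by
  have h := (Real.hasDerivAt_exp (-y)).comp y (hasDerivAt_neg y)
  rw [mul_neg, mul_one] at h
  exact h

theorem w1_P_der (k : ℕ) (y : ℝ) : HasDerivAt (w1_P k) (-w1_h k y) y := by
  induction k with
  | zero =>
    have h : w1_h 0 y = Real.exp (-y) := by
      unfold w1_h
      rw [pow_zero, Nat.factorial_zero, Nat.cast_one, div_one, one_mul]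
    rw [h]
    exact w1_exp_der y
  | succ k ih =>
    have h1 : HasDerivAt (fun y : ℝ => y ^ (k + 1) / ((k + 1).factorial : ℝ))
        (y ^ k / (k.factorial : ℝ)) y := by
      have h2 := (hasDerivAt_pow (k + 1) y).div_const ((k + 1).factorial : ℝ)
      have h3 : ((k + 1 : ℕ) : ℝ) * y ^ (k + 1 - 1) / ((k + 1).factorial : ℝ) =
          y ^ k / (k.factorial : ℝ) := by
        rw [Nat.add_sub_cancel, Nat.factorial_succ, Nat.cast_mul]
        exact mul_div_mul_left _ _ (by positivity)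
      rw [h3] at h2
      exact h2
    have h4 := ih.add (h1.mul (w1_exp_der y))
    have h5 : -w1_h k y + (y ^ k / (k.factorial : ℝ) * Real.exp (-y) +
        y ^ (k + 1) / ((k + 1).factorial : ℝ) * -Real.exp (-y)) = -w1_h (k + 1) y := by
      unfold w1_h
      ring
    rw [h5] at h4
    exact h4

theorem w1_h_nonneg (k : ℕ) {y : ℝ} (hy : 0 ≤ y) : 0 ≤ w1_h k y := by
  unfold w1_h
  positivity

theorem w1_h_le (k : ℕ) {y : ℝ} (hy : 0 ≤ y) : w1_h k y ≤ 1 := by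
  unfold w1_h
  have h1 := Real.pow_div_factorial_le_exp y hy k
  calc y ^ k / (k.factorial : ℝ) * Real.exp (-y) ≤ Real.exp y * Real.exp (-y) :=
        mul_le_mul_of_nonneg_right h1 (Real.exp_pos _).le
    _ = 1 := by rw [← Real.exp_add, add_neg_cancel, Real.exp_zero]

theorem w1_P_nonneg (k : ℕ) {y : ℝ} (hy : 0 ≤ y) : 0 ≤ w1_P k y := by
  induction k with
  | zero => exact (Real.exp_pos _).le
  | succ k ih =>
    have h : 0 ≤ w1_h (k + 1) y := w1_h_nonneg (k + 1) hy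
    exact add_nonneg ih h

theorem w1_P_zero (k : ℕ) : w1_P k 0 = 1 := by
  induction k with
  | zero =>
    show Real.exp (-0) = 1
    rw [neg_zero, Real.exp_zero]
  | succ k ih =>
    show w1_P k 0 + (0 : ℝ) ^ (k + 1) / ((k + 1).factorial : ℝ) * Real.exp (-0) = 1
    rw [ih, zero_pow (Nat.succ_ne_zero k), zero_div, zero_mul, add_zero]

theorem w1_mvt (k : ℕ) {a b : ℝ} (hab : a < b) :
    ∃ ξ, a < ξ ∧ ξ < b ∧ w1_P k a - w1_P k b = w1_h k ξ * (b - a) := by
  obtain ⟨ξ, hξ, h⟩ := exists_hasDerivAt_eq_slope (w1_P k) (fun y => -w1_h k y) hab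
    (fun y _ => (w1_P_der k y).continuousAt.continuousWithinAt) (fun y _ => w1_P_der k y)
  refine ⟨ξ, hξ.1, hξ.2, ?_⟩
  have h0 : b - a ≠ 0 := (sub_pos.2 hab).ne'
  rw [eq_div_iff h0] at h
  linarith

theorem w1_P_anti (k : ℕ) {a b : ℝ} (ha : 0 ≤ a) (hab : a ≤ b) : w1_P k b ≤ w1_P k a := by
  rcases hab.lt_or_eq with h | h
  · obtain ⟨ξ, h1, h2, h3⟩ := w1_mvt k h
    have h4 : 0 ≤ w1_h k ξ * (b - a) :=
      mul_nonneg (w1_h_nonneg k (by linarith)) (by linarith)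
    linarith
  · rw [h]

theorem w1_h_mono (k : ℕ) {y ξ : ℝ} (hy : 0 ≤ y) (h1 : y ≤ ξ) (h2 : ξ ≤ k) :
    w1_h k y ≤ w1_h k ξ := by
  rcases hy.lt_or_eq with hy | hy
  · have hξ : 0 < ξ := by linarith
    have hk : (0 : ℝ) < k := by linarith
    have hk0 : k ≠ 0 := fun e => by
      rw [e, Nat.cast_zero] at hk
      exact lt_irrefl _ hk
    have h3 : (ξ - y) / k ≤ Real.log (ξ / y) := by
      have h4 := Real.one_sub_inv_le_log_of_pos (div_pos hξ hy)
      have h5 : (ξ - y) / k ≤ 1 - (ξ / y)⁻¹ := by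
        rw [inv_div]
        have h6 : 1 - y / ξ = (ξ - y) / ξ := by field_simp
        rw [h6]
        exact div_le_div_of_nonneg_left (by linarith) hξ h2
      exact h5.trans h4
    have h4 : Real.exp (ξ - y) ≤ (ξ / y) ^ k := by
      have h5 : Real.exp ((ξ - y) / k) ≤ ξ / y := by
        rw [← Real.exp_log (div_pos hξ hy)]
        exact Real.exp_le_exp.2 h3
      have h6 : Real.exp (ξ - y) = Real.exp ((ξ - y) / k) ^ k := by
        rw [← Real.exp_nat_mul]
        congr 1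
        field_simp
      rw [h6]
      exact pow_le_pow_left₀ (Real.exp_pos _).le h5 k
    unfold w1_h
    have h5 : Real.exp (-y) = Real.exp (ξ - y) * Real.exp (-ξ) := by
      rw [← Real.exp_add]
      congr 1
      ring
    rw [h5, div_mul_eq_mul_div, div_mul_eq_mul_div]
    apply div_le_div_of_nonneg_right _ (by positivity)
    rw [← mul_assoc]
    apply mul_le_mul_of_nonneg_right _ (Real.exp_pos _).le
    rw [div_pow, le_div_iff₀ (pow_pos hy k)] at h4
    linarith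
  · rcases Nat.eq_zero_or_pos k with hk | hk
    · subst hk
      rw [Nat.cast_zero] at h2
      have h3 : ξ = y := by linarith
      rw [h3]
    · unfold w1_h
      rw [← hy, zero_pow hk.ne', zero_div, zero_mul]
      have : 0 ≤ ξ := by linarith
      positivity

theorem w1_h_anti (k : ℕ) {y ξ : ℝ} (hy : 0 ≤ y) (h1 : y ≤ ξ) (h2 : (k : ℝ) ≤ y) :
    w1_h k ξ ≤ w1_h k y := by
  rcases hy.lt_or_eq with hy | hy
  · have hξ : 0 < ξ := by linarith
    have h4 : (ξ / y) ^ k ≤ Real.exp (ξ - y) := by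
      have h5 : ξ / y ≤ Real.exp (ξ / y - 1) := by
        have := Real.add_one_le_exp (ξ / y - 1)
        linarith
      have h6 : (ξ / y) ^ k ≤ Real.exp (ξ / y - 1) ^ k :=
        pow_le_pow_left₀ (div_pos hξ hy).le h5 k
      refine h6.trans ?_
      rw [← Real.exp_nat_mul]
      apply Real.exp_le_exp.2
      have h7 : ξ / y - 1 = (ξ - y) / y := by field_simp
      rw [h7, mul_div_assoc', div_le_iff₀ hy, mul_comm]
      exact mul_le_mul_of_nonneg_left h2 (by linarith)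
    unfold w1_h
    have h5 : Real.exp (-y) = Real.exp (ξ - y) * Real.exp (-ξ) := by
      rw [← Real.exp_add]
      congr 1
      ring
    rw [h5, div_mul_eq_mul_div, div_mul_eq_mul_div]
    apply div_le_div_of_nonneg_right _ (by positivity)
    rw [← mul_assoc]
    apply mul_le_mul_of_nonneg_right _ (Real.exp_pos _).le
    rw [div_pow, div_le_iff₀ (pow_pos hy k)] at h4
    linarith
  · have hk : k = 0 := by
      have : (k : ℝ) ≤ 0 := by linarith
      exact_mod_cast le_antisymm this (Nat.cast_nonneg k)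
    subst hk
    unfold w1_h
    rw [pow_zero, pow_zero]
    apply mul_le_mul_of_nonneg_left _ (by positivity)
    apply Real.exp_le_exp.2
    linarith

/-- The differences of `w1_P` at the points `lam j`, `lam (j + 2)`. -/
noncomputable def w1_D (lam : ℝ) (k j : ℕ) : ℝ := w1_P k (lam * j) - w1_P k (lam * (j + 2))

/-- The blocks about the maximum. -/
noncomputable def w1_F (lam : ℝ) (k j : ℕ) : ℝ :=
  open Classical in
  if (k : ℝ) / lam - 2 ≤ j ∧ (j : ℝ) ≤ k / lam + 1 then lam else 0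

theorem w1_D_nonneg {lam : ℝ} (hlam : 0 < lam) (k j : ℕ) : 0 ≤ w1_D lam k j := by
  unfold w1_D
  have h1 : 0 ≤ lam * (j : ℝ) := by positivity
  have h2 := w1_P_anti k h1 (mul_le_mul_of_nonneg_left (by linarith : (j : ℝ) ≤ j + 2) hlam.le)
  linarith

theorem w1_main {lam : ℝ} (hlam : 0 < lam) (k j : ℕ) {t : ℝ} (h1 : (j : ℝ) ≤ t)
    (h2 : t < j + 1) : lam * w1_h k (lam * t) ≤ w1_D lam k j + w1_D lam k (j - 1) + w1_F lam k j := by
  have ht : 0 ≤ t := (Nat.cast_nonneg j).trans h1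
  have hy : 0 ≤ lam * t := mul_nonneg hlam.le ht
  have hF : 0 ≤ w1_F lam k j := by
    unfold w1_F
    split_ifs
    · exact hlam.le
    · exact le_rfl
  have hD1 := w1_D_nonneg hlam k j
  have hD2 := w1_D_nonneg hlam k (j - 1)
  by_cases hA : lam * t + lam ≤ k
  · obtain ⟨ξ, hξ1, hξ2, hξ⟩ := w1_mvt k (show lam * t < lam * t + lam by linarith)
    have h3 : w1_h k (lam * t) ≤ w1_h k ξ := w1_h_mono k hy hξ1.le (by linarith)
    have h4 : lam * w1_h k (lam * t) ≤ w1_P k (lam * t) - w1_P k (lam * t + lam) := by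
      rw [hξ]
      nlinarith
    have h5 : w1_P k (lam * t) ≤ w1_P k (lam * j) :=
      w1_P_anti k (by positivity) (mul_le_mul_of_nonneg_left h1 hlam.le)
    have h6 : w1_P k (lam * (j + 2)) ≤ w1_P k (lam * t + lam) :=
      w1_P_anti k (by linarith) (by nlinarith)
    have h7 : w1_D lam k j = w1_P k (lam * j) - w1_P k (lam * (j + 2)) := rfl
    linarith
  · by_cases hB : (k : ℝ) ≤ lam * t - lam
    · have ht1 : 0 ≤ lam * t - lam := (Nat.cast_nonneg k).trans hB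
      have ht2 : 1 ≤ t := by
        by_contra hc
        push Not at hc
        nlinarith
      have hj : 1 ≤ j := by
        by_contra hc
        have : j = 0 := by omega
        rw [this, Nat.cast_zero] at h2
        linarith
      obtain ⟨i, rfl⟩ : ∃ i, j = i + 1 := ⟨j - 1, by omega⟩
      rw [Nat.add_sub_cancel] at hD2 ⊢
      push_cast at h1 h2
      obtain ⟨ξ, hξ1, hξ2, hξ⟩ := w1_mvt k (show lam * t - lam < lam * t by linarith)
      have h3 : w1_h k (lam * t) ≤ w1_h k ξ := w1_h_anti k (by linarith) hξ2.le (by linarith)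
      have h4 : lam * w1_h k (lam * t) ≤ w1_P k (lam * t - lam) - w1_P k (lam * t) := by
        rw [hξ]
        nlinarith
      have h5 : w1_P k (lam * t - lam) ≤ w1_P k (lam * i) :=
        w1_P_anti k (by positivity) (by nlinarith)
      have h6 : w1_P k (lam * (i + 2)) ≤ w1_P k (lam * t) :=
        w1_P_anti k hy (by nlinarith)
      have h7 : w1_D lam k i = w1_P k (lam * i) - w1_P k (lam * (i + 2)) := rfl
      linarith
    · push Not at hA hB
      have h3 : w1_F lam k j = lam := by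
        unfold w1_F
        rw [if_pos]
        constructor
        · rw [sub_le_iff_le_add, div_le_iff₀ hlam]
          nlinarith
        · have h4 : (j : ℝ) - 1 ≤ k / lam := by
            rw [le_div_iff₀ hlam]
            nlinarith
          linarith
      have h4 := w1_h_le k hy
      rw [h3]
      nlinarith

theorem w1_D_sum {lam : ℝ} (hlam : 0 < lam) (k J : ℕ) : ∑ j ∈ range J, w1_D lam k j ≤ 2 := by
  have h1 : ∀ j : ℕ, w1_D lam k j = (w1_P k (lam * (j : ℝ)) - w1_P k (lam * ((j + 1 : ℕ) : ℝ))) +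
      (w1_P k (lam * ((j + 1 : ℕ) : ℝ)) - w1_P k (lam * ((j + 1 + 1 : ℕ) : ℝ))) := by
    intro j
    unfold w1_D
    push_cast
    rw [show (j : ℝ) + 1 + 1 = j + 2 by ring]
    ring
  have h2 : ∑ j ∈ range J, (w1_P k (lam * (j : ℝ)) - w1_P k (lam * ((j + 1 : ℕ) : ℝ))) =
      w1_P k (lam * ((0 : ℕ) : ℝ)) - w1_P k (lam * (J : ℝ)) :=
    Finset.sum_range_sub' (fun j : ℕ => w1_P k (lam * (j : ℝ))) J
  have h3 : ∑ j ∈ range J, (w1_P k (lam * ((j + 1 : ℕ) : ℝ)) -
      w1_P k (lam * ((j + 1 + 1 : ℕ) : ℝ))) =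
      w1_P k (lam * ((0 + 1 : ℕ) : ℝ)) - w1_P k (lam * ((J + 1 : ℕ) : ℝ)) :=
    Finset.sum_range_sub' (fun j : ℕ => w1_P k (lam * ((j + 1 : ℕ) : ℝ))) J
  rw [Finset.sum_congr rfl fun j _ => h1 j, Finset.sum_add_distrib, h2, h3]
  have h4 : w1_P k (lam * ((0 : ℕ) : ℝ)) = 1 := by
    rw [Nat.cast_zero, mul_zero, w1_P_zero]
  have h5 : w1_P k (lam * ((0 + 1 : ℕ) : ℝ)) ≤ 1 := by
    rw [← w1_P_zero k]
    exact w1_P_anti k le_rfl (by positivity)
  have h6 : 0 ≤ w1_P k (lam * (J : ℝ)) := w1_P_nonneg k (by positivity)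
  have h7 : 0 ≤ w1_P k (lam * ((J + 1 : ℕ) : ℝ)) := w1_P_nonneg k (by positivity)
  linarith

theorem w1_D_sum' {lam : ℝ} (hlam : 0 < lam) (k J : ℕ) :
    ∑ j ∈ range J, w1_D lam k (j - 1) ≤ 4 := by
  have h0 : w1_D lam k 0 ≤ 2 := by
    have := w1_D_sum hlam k 1
    rw [Finset.sum_range_one] at this
    exact this
  rcases J with _ | J
  · rw [Finset.sum_range_zero]
    norm_num
  · rw [Finset.sum_range_succ']
    have h1 : ∑ j ∈ range J, w1_D lam k (j + 1 - 1) = ∑ j ∈ range J, w1_D lam k j :=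
      Finset.sum_congr rfl fun j _ => by rw [Nat.add_sub_cancel]
    rw [h1]
    have := w1_D_sum hlam k J
    have h2 : w1_D lam k (0 - 1) = w1_D lam k 0 := rfl
    rw [h2]
    linarith

theorem w1_F_sum {lam : ℝ} (hlam : 0 < lam) (hlam1 : lam ≤ 1) (k J : ℕ) :
    ∑ j ∈ range J, w1_F lam k j ≤ 5 := by
  classical
  have h1 : ∑ j ∈ range J, w1_F lam k j ≤
      ∑ j ∈ Finset.Icc ⌈(k : ℝ) / lam - 2⌉₊ ⌊(k : ℝ) / lam + 1⌋₊, lam := by
    rw [← Finset.sum_filter_add_sum_filter_not (range J)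
      (fun j : ℕ => (k : ℝ) / lam - 2 ≤ j ∧ (j : ℝ) ≤ k / lam + 1)]
    have h2 : ∑ j ∈ (range J).filter
        (fun j : ℕ => ¬ ((k : ℝ) / lam - 2 ≤ j ∧ (j : ℝ) ≤ k / lam + 1)), w1_F lam k j = 0 := by
      apply Finset.sum_eq_zero
      intro j hj
      unfold w1_F
      rw [if_neg (Finset.mem_filter.1 hj).2]
    rw [h2, add_zero]
    have h3 : ∑ j ∈ (range J).filter
        (fun j : ℕ => ((k : ℝ) / lam - 2 ≤ j ∧ (j : ℝ) ≤ k / lam + 1)), w1_F lam k j =
        ∑ j ∈ (range J).filter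
        (fun j : ℕ => ((k : ℝ) / lam - 2 ≤ j ∧ (j : ℝ) ≤ k / lam + 1)), lam := by
      apply Finset.sum_congr rfl
      intro j hj
      unfold w1_F
      rw [if_pos (Finset.mem_filter.1 hj).2]
    rw [h3]
    apply Finset.sum_le_sum_of_subset_of_nonneg
    · intro j hj
      obtain ⟨-, h4, h5⟩ := Finset.mem_filter.1 hj
      rw [Finset.mem_Icc]
      exact ⟨Nat.ceil_le.2 h4, Nat.le_floor h5⟩
    · intro j _ _
      exact hlam.le
  refine h1.trans ?_
  rw [Finset.sum_const, Nat.card_Icc, nsmul_eq_mul]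
  have h2 : ((⌊(k : ℝ) / lam + 1⌋₊ + 1 - ⌈(k : ℝ) / lam - 2⌉₊ : ℕ) : ℝ) ≤ 5 := by
    have h3 : (⌊(k : ℝ) / lam + 1⌋₊ : ℝ) ≤ k / lam + 1 := Nat.floor_le (by positivity)
    have h4 : (k : ℝ) / lam - 2 ≤ ⌈(k : ℝ) / lam - 2⌉₊ := Nat.le_ceil _
    have h5 : (⌊(k : ℝ) / lam + 1⌋₊ : ℝ) ≤ ⌈(k : ℝ) / lam - 2⌉₊ + 3 := by linarith
    have h6 : ⌊(k : ℝ) / lam + 1⌋₊ ≤ ⌈(k : ℝ) / lam - 2⌉₊ + 3 := by exact_mod_cast h5
    have h7 : ⌊(k : ℝ) / lam + 1⌋₊ + 1 - ⌈(k : ℝ) / lam - 2⌉₊ ≤ 5 := by omega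
    exact_mod_cast h7
  nlinarith [Nat.cast_nonneg (α := ℝ) (⌊(k : ℝ) / lam + 1⌋₊ + 1 - ⌈(k : ℝ) / lam - 2⌉₊)]

theorem w1_Jk (lam : ℝ) (k n : ℕ) (hn : 1 ≤ n) :
    (n : ℝ) * Jk lam k n = lam * w1_h k (lam * Real.log n) := by
  have hn0 : (0 : ℝ) < n := by exact_mod_cast hn
  unfold Jk w1_h
  have h1 : (n : ℝ) ^ (-1 - lam) = (n : ℝ)⁻¹ * Real.exp (-(lam * Real.log n)) := by
    rw [Real.rpow_def_of_pos hn0, ← Real.exp_log (inv_pos.2 hn0), Real.log_inv, ← Real.exp_add]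
    congr 1
    ring
  rw [h1, mul_pow]
  field_simp
  ring

theorem Jk_nonneg (lam : ℝ) (k n : ℕ) (hlam : 0 ≤ lam) : 0 ≤ Jk lam k n := by
  unfold Jk
  have h1 : 0 ≤ Real.log (n : ℝ) := Real.log_natCast_nonneg n
  positivity

/-- `n Jk(n) ≤ lam`: `y^k e^(-y) ≤ k!` for `y ≥ 0` (`Real.pow_div_factorial_le_exp`). Also true
for `n = 0` (`(0:ℝ)^(-1-lam) = 0`). -/
theorem Jk_le (lam : ℝ) (k n : ℕ) (hlam : 0 < lam) : (n : ℝ) * Jk lam k n ≤ lam := by
  rcases Nat.eq_zero_or_pos n with hn | hn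
  · rw [hn, Nat.cast_zero, zero_mul]
    exact hlam.le
  · rw [w1_Jk lam k n hn]
    have h1 := w1_h_le k (mul_nonneg hlam.le (Real.log_natCast_nonneg n))
    nlinarith

/-- Blocks: `∑_{e^j ≤ n < e^(j+1)} Λ(n)/n ≤ C`, from `∑_{n ≤ x} Λ(n) ≤ C x` (Chebyshev, e.g.
`Chebyshev.psi_le_const_mul_self` of Mathlib; see also `BPS_sum_vM` in `H68T/BPS`). Stated for
finite sets. -/
theorem W1_block : ∃ C : ℝ, 0 < C ∧ ∀ (j : ℕ) (s : Finset ℕ),
    (∀ n ∈ s, 1 ≤ n ∧ (j : ℝ) ≤ Real.log n ∧ Real.log n ≤ j + 1) →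
    ∑ n ∈ s, Λ n / n ≤ C := by
  refine ⟨(Real.log 4 + 4) * Real.exp 1, by positivity, ?_⟩
  intro j s hs
  have h1 : ∀ n ∈ s, Λ n / n ≤ Real.exp (-(j : ℝ)) * Λ n := by
    intro n hn
    obtain ⟨h2, h3, h4⟩ := hs n hn
    have hn0 : (0 : ℝ) < n := by exact_mod_cast h2
    have h5 : Real.exp (j : ℝ) ≤ n := by
      rw [← Real.exp_log hn0]
      exact Real.exp_le_exp.2 h3
    rw [Real.exp_neg, div_eq_inv_mul]
    exact mul_le_mul_of_nonneg_right (inv_anti₀ (Real.exp_pos _) h5)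
      ArithmeticFunction.vonMangoldt_nonneg
  have h2 : ∑ n ∈ s, Λ n ≤ Chebyshev.psi (Real.exp ((j : ℝ) + 1)) := by
    unfold Chebyshev.psi
    apply Finset.sum_le_sum_of_subset_of_nonneg
    · intro n hn
      obtain ⟨h2, h3, h4⟩ := hs n hn
      have hn0 : (0 : ℝ) < n := by exact_mod_cast h2
      rw [Finset.mem_Ioc]
      refine ⟨h2, Nat.le_floor ?_⟩
      rw [← Real.exp_log hn0]
      exact Real.exp_le_exp.2 h4
    · intro n _ _
      exact ArithmeticFunction.vonMangoldt_nonneg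
  have h3 := Chebyshev.psi_le_const_mul_self (Real.exp_pos ((j : ℝ) + 1)).le
  calc ∑ n ∈ s, Λ n / n ≤ ∑ n ∈ s, Real.exp (-(j : ℝ)) * Λ n := Finset.sum_le_sum h1
    _ = Real.exp (-(j : ℝ)) * ∑ n ∈ s, Λ n := by rw [Finset.mul_sum]
    _ ≤ Real.exp (-(j : ℝ)) * ((Real.log 4 + 4) * Real.exp ((j : ℝ) + 1)) :=
        mul_le_mul_of_nonneg_left (h2.trans h3) (Real.exp_pos _).le
    _ = (Real.log 4 + 4) * Real.exp 1 := by
        rw [Real.exp_add, Real.exp_neg]
        field_simp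

/-- Total mass: `∑_{n ∈ s} Λ(n) Jk(n) ≤ C` for every finite set `s`.

Proof. Split by `j = ⌊log n⌋` (`n ≥ 1`; the term `n = 0` is `0` since `Λ 0 = 0`): a block contributes
at most `C lam max_{[lam j, lam (j+1)]} h_k`. `h_k` is unimodal with maximum at `y = k` and
`h_k ≤ 1`, `∫_0^∞ h_k = 1`. So for the blocks with `lam (j+1) ≤ k` (increasing) the maximum is
`h_k(lam (j+1)) ≤ (1/lam) ∫_{lam (j+1)}^{lam (j+2)} h_k` if `lam (j+2) ≤ k`, similarly for the
decreasing part; at most `4` blocks remain, each contributing `≤ C lam`. Total `≤ C (1 + 1 + 4 lam)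
≤ 6 C`. Alternative avoiding unimodality: for `lam ≤ 1`, on a block `h_k(lam u) ≤ e (lam (j+1))^k
e^(-lam (j+1))/k!`, and `∑_j lam (lam (j+1))^k e^(-lam (j+1))/k! ≤ C` can be proved from
`x^k = x (x-lam)...` or from the negative binomial series: `(j+1)^k ≤ k! binom (j+k) k` with
`j + 1 ≤ ...` (then `∑_j binom(j+k) k e^(-lam (j+1)) = e^(-lam) (1 - e^(-lam))^(-k-1)` and
`lam^(k+1) (1-e^(-lam))^(-k-1)` is NOT bounded: do not use this), so prefer the comparison with the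
integral. -/
theorem Jk_sum : ∃ C : ℝ, 0 < C ∧ ∀ (lam : ℝ) (k : ℕ) (s : Finset ℕ), 0 < lam → lam ≤ 1 →
    ∑ n ∈ s, Λ n * Jk lam k n ≤ C := by
  classical
  obtain ⟨C, hC, hb⟩ := W1_block
  refine ⟨C * 11, by positivity, ?_⟩
  intro lam k s hlam hlam1
  have h1 : ∑ n ∈ s, Λ n * Jk lam k n = ∑ n ∈ s.filter (fun n => 1 ≤ n), Λ n * Jk lam k n := by
    rw [← Finset.sum_filter_add_sum_filter_not s (fun n => 1 ≤ n)]
    have h2 : ∑ n ∈ s.filter (fun n => ¬ 1 ≤ n), Λ n * Jk lam k n = 0 := by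
      apply Finset.sum_eq_zero
      intro n hn
      have h3 : n = 0 := by
        have := (Finset.mem_filter.1 hn).2
        omega
      rw [h3, ArithmeticFunction.map_zero, zero_mul]
    rw [h2, add_zero]
  rw [h1]
  obtain ⟨J, hJ⟩ : ∃ J : ℕ, ∀ n ∈ s.filter (fun n => 1 ≤ n), ⌊Real.log (n : ℝ)⌋₊ ∈ range J := by
    refine ⟨(s.filter (fun n => 1 ≤ n)).sup (fun n : ℕ => ⌊Real.log (n : ℝ)⌋₊) + 1, fun n hn => ?_⟩
    rw [Finset.mem_range, Nat.lt_succ_iff]
    exact Finset.le_sup (f := fun n : ℕ => ⌊Real.log (n : ℝ)⌋₊) hn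
  rw [← Finset.sum_fiberwise_of_maps_to hJ]
  have h2 : ∀ j ∈ range J, ∑ n ∈ (s.filter (fun n => 1 ≤ n)).filter
      (fun n : ℕ => ⌊Real.log (n : ℝ)⌋₊ = j), Λ n * Jk lam k n ≤
      C * (w1_D lam k j + w1_D lam k (j - 1) + w1_F lam k j) := by
    intro j _
    have h3 : ∀ n ∈ (s.filter (fun n => 1 ≤ n)).filter (fun n : ℕ => ⌊Real.log (n : ℝ)⌋₊ = j),
        1 ≤ n ∧ (j : ℝ) ≤ Real.log n ∧ Real.log n < j + 1 := by
      intro n hn
      obtain ⟨h4, h5⟩ := Finset.mem_filter.1 hn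
      have h6 := (Finset.mem_filter.1 h4).2
      have h7 : 0 ≤ Real.log (n : ℝ) := Real.log_natCast_nonneg n
      refine ⟨h6, ?_, ?_⟩
      · rw [← h5]
        exact Nat.floor_le h7
      · rw [← h5]
        exact Nat.lt_floor_add_one _
    have h4 : ∀ n ∈ (s.filter (fun n => 1 ≤ n)).filter (fun n : ℕ => ⌊Real.log (n : ℝ)⌋₊ = j),
        Λ n * Jk lam k n ≤ Λ n / n * (w1_D lam k j + w1_D lam k (j - 1) + w1_F lam k j) := by
      intro n hn
      obtain ⟨h5, h6, h7⟩ := h3 n hn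
      have hn0 : (0 : ℝ) < n := by exact_mod_cast h5
      have h8 : Λ n * Jk lam k n = Λ n / n * (n * Jk lam k n) := by field_simp
      rw [h8, w1_Jk lam k n h5]
      apply mul_le_mul_of_nonneg_left (w1_main hlam k j h6 h7)
      exact div_nonneg ArithmeticFunction.vonMangoldt_nonneg hn0.le
    refine (Finset.sum_le_sum h4).trans ?_
    rw [← Finset.sum_mul]
    apply mul_le_mul_of_nonneg_right
    · exact hb j _ fun n hn => ⟨(h3 n hn).1, (h3 n hn).2.1, (h3 n hn).2.2.le⟩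
    · have hD1 := w1_D_nonneg hlam k j
      have hD2 := w1_D_nonneg hlam k (j - 1)
      have hF : 0 ≤ w1_F lam k j := by
        unfold w1_F
        split_ifs
        · exact hlam.le
        · exact le_rfl
      linarith
  refine (Finset.sum_le_sum h2).trans ?_
  rw [← Finset.mul_sum, Finset.sum_add_distrib, Finset.sum_add_distrib]
  have h3 := w1_D_sum hlam k J
  have h4 := w1_D_sum' hlam k J
  have h5 := w1_F_sum hlam hlam1 k J
  exact mul_le_mul_of_nonneg_left (by linarith) hC.le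

theorem Jk_summable (lam : ℝ) (k : ℕ) (hlam : 0 < lam) (hlam1 : lam ≤ 1) :
    Summable fun n : ℕ => Λ n * Jk lam k n := by
  obtain ⟨C, hC, h⟩ := Jk_sum
  refine summable_of_sum_le (c := C) ?_ (fun u => h lam k u hlam hlam1)
  intro n
  exact mul_nonneg ArithmeticFunction.vonMangoldt_nonneg (Jk_nonneg lam k n hlam.le)

end Pool.Agent.Lib.H18Q
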