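import Pool.Agent.Lib.H18Q.PB1
import Pool.Agent.Lib.H18Q.PB2
import Pool.Agent.Lib.H18Q.W1

/-!
# Project H18Q, chunk PB3: the bump as a superposition of Gamma densities
-/

open Finset MeasureTheory

namespace Pool.Agent.Lib.H18Q

open ArithmeticFunction Pool.Agent.Lib.H68T

/-- Proof: `fourier_inv3` for the functions of `PB2_quot` (`b - a = 6`). -/
theorem PB3_repr : ∃ C K : ℝ, 1 ≤ C ∧ ∀ X : ℕ, K ≤ X → ∃ kh : ℝ → ℂ, Continuous kh ∧
    (∀ ξ, ‖kh ξ‖ ≤ C * Real.sqrt (Real.log X) / (1 + |ξ|) ^ 3) ∧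
    ∀ u : ℝ, 0 < u → (w (u - Real.log X) : ℂ) =
      (Wd (kX X) u : ℂ) * ∫ ξ : ℝ, kh ξ * Complex.exp (u * ξ * Complex.I) := by
  obtain ⟨C, K, hC, h⟩ := PB2_quot
  refine ⟨max 1 (12 * C), K, le_max_left _ _, ?_⟩
  intro X hX
  obtain ⟨f, f1, f2, f3, h0, h1, h2, hc, hz, hb, hw⟩ := h X hX
  obtain ⟨g, hgc, hgb, hgf⟩ := fourier_inv3 f f1 f2 f3 (Real.log X - 2) (Real.log X + 4)
    (C * Real.sqrt (Real.log X)) (by linarith) (by positivity) h0 h1 h2 hc
    (fun y hy => (hz y hy).1) (fun y hy => (hz y hy).2.1) (fun y hy => (hz y hy).2.2.1)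
    (fun y hy => (hz y hy).2.2.2) (fun y => (hb y).1) (fun y => (hb y).2)
  refine ⟨g, hgc, ?_, ?_⟩
  · intro ξ
    refine (hgb ξ).trans ?_
    apply div_le_div_of_nonneg_right _ (by positivity)
    have h3 : 12 * C ≤ max 1 (12 * C) := le_max_right _ _
    have h4 := mul_le_mul_of_nonneg_right h3 (Real.sqrt_nonneg (Real.log X))
    linarith
  · intro u hu
    rw [← hgf u, hw u hu]
    push_cast
    ring

/-- Integrability of the Gamma densities. -/
theorem pb3_intOn (k : ℕ) (b : ℝ) (hb : 0 < b) :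
    IntegrableOn (fun u : ℝ => u ^ k * Real.exp (-(b * u))) (Set.Ioi 0) := by
  have h := integrableOn_rpow_mul_exp_neg_mul_rpow (p := 1) (s := (k : ℝ)) (b := b)
    (by have : (0 : ℝ) ≤ k := Nat.cast_nonneg k
        linarith) one_pos hb
  refine h.congr_fun ?_ measurableSet_Ioi
  intro x _
  simp only [Real.rpow_natCast, Real.rpow_one, neg_mul]

theorem pb3_norm (k : ℕ) (z : ℂ) (u : ℝ) (hu : 0 ≤ u) :
    ‖(u : ℂ) ^ k * Complex.exp (-(z * u))‖ = u ^ k * Real.exp (-(z.re * u)) := by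
  rw [norm_mul, norm_pow, Complex.norm_real, Real.norm_of_nonneg hu, Complex.norm_exp]
  congr 2
  simp

theorem pb3_intOnC (k : ℕ) (z : ℂ) (hz : 0 < z.re) :
    IntegrableOn (fun u : ℝ => (u : ℂ) ^ k * Complex.exp (-(z * u))) (Set.Ioi 0) := by
  refine Integrable.mono' (pb3_intOn k z.re hz) ?_ ?_
  · apply Continuous.aestronglyMeasurable
    fun_prop
  · refine (ae_restrict_iff' measurableSet_Ioi).mpr (Filter.Eventually.of_forall ?_)
    intro u hu
    rw [pb3_norm k z u (le_of_lt hu)]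

/-- The Gamma integral with complex parameter. -/
theorem pb3_gamma (k : ℕ) (z : ℂ) (hz : 0 < z.re) :
    ∫ u in Set.Ioi (0 : ℝ), (u : ℂ) ^ k * Complex.exp (-(z * u)) =
      (k.factorial : ℂ) / z ^ (k + 1) := by
  have hz0 : z ≠ 0 := by
    intro h
    rw [h] at hz
    simp at hz
  have htend : ∀ k : ℕ, Filter.Tendsto (fun u : ℝ => (u : ℂ) ^ k * Complex.exp (-(z * u)))
      Filter.atTop (nhds 0) := by
    intro k
    rw [tendsto_zero_iff_norm_tendsto_zero]
    have h1 : Filter.Tendsto (fun u : ℝ => u ^ k * Real.exp (-(z.re * u)))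
        Filter.atTop (nhds 0) := by
      have := tendsto_rpow_mul_exp_neg_mul_atTop_nhds_zero (k : ℝ) z.re hz
      simpa [Real.rpow_natCast, neg_mul] using this
    refine h1.congr' ?_
    filter_upwards [Filter.eventually_ge_atTop 0] with u hu
    rw [pb3_norm k z u hu]
  induction k with
  | zero =>
    have h1 := integral_Ioi_of_hasDerivAt_of_tendsto' (a := (0 : ℝ))
      (f := fun u : ℝ => -(Complex.exp (-(z * u)) / z))
      (f' := fun u : ℝ => (u : ℂ) ^ 0 * Complex.exp (-(z * u))) (m := 0)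
      (fun u _ => by
        have h2 : HasDerivAt (fun u : ℝ => -(z * (u : ℂ))) (-(z * 1)) u :=
          ((Complex.ofRealCLM.hasDerivAt (x := u)).const_mul z).neg
        have h3 := ((h2.cexp).div_const z).neg
        convert! h3 using 1
        field_simp) (pb3_intOnC 0 z hz) (by
        have := ((htend 0).div_const z).neg
        simpa using this)
    rw [h1]
    simp
  | succ k ih =>
    have h1 := integral_Ioi_of_hasDerivAt_of_tendsto' (a := (0 : ℝ))
      (f := fun u : ℝ => -((u : ℂ) ^ (k + 1) * Complex.exp (-(z * u)) / z))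
      (f' := fun u : ℝ => (u : ℂ) ^ (k + 1) * Complex.exp (-(z * u)) -
        ((k : ℂ) + 1) / z * ((u : ℂ) ^ k * Complex.exp (-(z * u)))) (m := 0)
      (fun u _ => by
        have h0 : HasDerivAt (fun u : ℝ => (u : ℂ)) 1 u := Complex.ofRealCLM.hasDerivAt (x := u)
        have h2 : HasDerivAt (fun u : ℝ => -(z * (u : ℂ))) (-(z * 1)) u :=
          (h0.const_mul z).neg
        have h4 := h0.pow (k + 1)
        have h3 := ((h4.mul h2.cexp).div_const z).neg
        convert! h3 using 1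
        field_simp
        push_cast
        simp
        ring) ((pb3_intOnC (k + 1) z hz).sub ((pb3_intOnC k z hz).const_mul _)) (by
        have := ((htend (k + 1)).div_const z).neg
        simpa using this)
    rw [integral_sub (pb3_intOnC (k + 1) z hz) ((pb3_intOnC k z hz).const_mul _),
      integral_const_mul, ih] at h1
    have h5 : ∫ u in Set.Ioi (0 : ℝ), (u : ℂ) ^ (k + 1) * Complex.exp (-(z * u)) =
        ((k : ℂ) + 1) / z * ((k.factorial : ℂ) / z ^ (k + 1)) := by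
      have h6 : (0 : ℂ) - -(((0 : ℝ) : ℂ) ^ (k + 1) * Complex.exp (-(z * ((0 : ℝ) : ℂ))) / z) = 0 := by
        simp
      rw [h6] at h1
      linear_combination h1
    rw [h5, Nat.factorial_succ]
    push_cast
    field_simp
    ring

/-- Integrability of `kh`. -/
theorem pb3_kh_int (kh : ℝ → ℂ) (B : ℝ) (hkc : Continuous kh)
    (hkb : ∀ ξ, ‖kh ξ‖ ≤ B / (1 + |ξ|) ^ 3) : Integrable kh := by
  have hB : 0 ≤ B := by
    have := (norm_nonneg _).trans (hkb 0)
    simpa using this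
  have h1 : Integrable (fun ξ : ℝ => B * (1 + ξ ^ 2)⁻¹) := integrable_inv_one_add_sq.const_mul B
  refine Integrable.mono' h1 hkc.aestronglyMeasurable ?_
  refine Filter.Eventually.of_forall ?_
  intro ξ
  refine (hkb ξ).trans ?_
  rw [div_eq_mul_inv]
  apply mul_le_mul_of_nonneg_left _ hB
  apply inv_anti₀ (by positivity)
  have h2 : 0 ≤ |ξ| := abs_nonneg ξ
  have h3 : ξ ^ 2 = |ξ| ^ 2 := (sq_abs ξ).symm
  rw [h3]
  nlinarith [pow_nonneg h2 3, pow_nonneg h2 2]

theorem pb3_Jk_eq (k n : ℕ) (hn : 1 ≤ n) : Jk (1 / 64) k n = Wd k (Real.log n) / n := by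
  have hn0 : (0 : ℝ) < n := by exact_mod_cast hn
  unfold Jk Wd
  have h1 : (n : ℝ) ^ (-1 - 1 / 64 : ℝ) = Real.exp (-(Real.log n / 64)) / n := by
    rw [Real.rpow_sub hn0, Real.rpow_neg_one, Real.rpow_def_of_pos hn0, Real.exp_neg]
    rw [show Real.log n * (1 / 64) = Real.log n / 64 by ring]
    field_simp
  rw [h1]
  ring

theorem pb3_Wd_nonneg (k : ℕ) (u : ℝ) (hu : 0 ≤ u) : 0 ≤ Wd k u := by
  unfold Wd
  positivity

theorem pb3_v_zero (X m : ℕ) (hX : 1 ≤ X) (hm : 60 * X < m) : v X m = 0 := by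
  unfold v w
  have hX0 : (0 : ℝ) < X := by exact_mod_cast hX
  have h60 : (60 : ℝ) ≤ (m : ℝ) / X := by
    rw [le_div_iff₀ hX0]
    exact_mod_cast hm.le
  have h4 : (4 : ℝ) ≤ Real.log ((m : ℝ) / X) := by
    rw [Real.le_log_iff_exp_le (by linarith)]
    refine le_trans ?_ h60
    have h1 : Real.exp 4 = Real.exp 1 ^ 4 := by
      rw [← Real.exp_nat_mul]
      norm_num
    rw [h1]
    have h2 := Real.exp_one_lt_d9
    have h3 := Real.exp_pos 1
    calc Real.exp 1 ^ 4 ≤ 2.7182818286 ^ 4 := by gcongr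
      _ ≤ 60 := by norm_num
  have h5 : Real.smoothTransition (4 - Real.log ((m : ℝ) / X)) = 0 :=
    Real.smoothTransition.zero_of_nonpos (by linarith)
  rw [h5, mul_zero]

/-- `FL(t) = ∫ kh(ξ) Pk(t - ξ) dξ`.

Proof. `Jk (1/64) k n = Wd k (log n)/n` for `n ≥ 1`. Interchange sum and integral (`∑ Λ Jk < ∞`,
`kh` integrable by the bound): for `n ≥ 2` (`Λ 0 = Λ 1 = 0`),
`∫ kh(ξ) n^(-i(t-ξ)) dξ = n^(-it) ∫ kh(ξ) e^(i ξ log n) dξ`, and times `Wd k (log n)` this is
`n^(-it) w(log n - log X)`. `FL` has the terms `1 ≤ m ≤ 60 X`, `v X m = w(log (m/X))`, and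
`w = 0` for `m > 60 X` (`log 60 > 4`). -/
theorem PB3_FL (X : ℕ) (hX : 1 ≤ X) (kh : ℝ → ℂ) (B : ℝ) (hkc : Continuous kh)
    (hkb : ∀ ξ, ‖kh ξ‖ ≤ B / (1 + |ξ|) ^ 3)
    (hk : ∀ u : ℝ, 0 < u → (w (u - Real.log X) : ℂ) =
      (Wd (kX X) u : ℂ) * ∫ ξ : ℝ, kh ξ * Complex.exp (u * ξ * Complex.I))
    (p : Σ r : ℕ, DirichletCharacter ℂ r) (t : ℝ) :
    FL X p t = ∫ ξ : ℝ, kh ξ * Pk (fun n => p.2 (n : ZMod p.1)) (kX X) (t - ξ) := by
  have hint := pb3_kh_int kh B hkc hkb
  have hX0 : (0 : ℝ) < X := by exact_mod_cast hX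
  set k := kX X with hkdef
  set F : ℕ → ℝ → ℂ := fun n ξ => kh ξ *
    (((ArithmeticFunction.vonMangoldt n * Jk (1 / 64) k n : ℝ) : ℂ) * p.2 (n : ZMod p.1) *
      (n : ℂ) ^ (-(((t - ξ : ℝ) : ℂ) * Complex.I))) with hF
  -- the exponential form
  have hexp : ∀ n : ℕ, 1 ≤ n → ∀ ξ : ℝ, (n : ℂ) ^ (-(((t - ξ : ℝ) : ℂ) * Complex.I)) =
      (n : ℂ) ^ (-((t : ℂ) * Complex.I)) *
        Complex.exp ((Real.log n : ℝ) * ξ * Complex.I) := by
    intro n hn ξ
    have hn0 : (n : ℂ) ≠ 0 := by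
      have : n ≠ 0 := by omega
      exact_mod_cast this
    rw [show (-(((t - ξ : ℝ) : ℂ) * Complex.I)) = -((t : ℂ) * Complex.I) + (ξ : ℂ) * Complex.I by
      push_cast; ring, Complex.cpow_add _ _ hn0]
    congr 1
    rw [Complex.cpow_def_of_ne_zero hn0, Complex.natCast_log]
    congr 1
    ring
  have hnF : ∀ n : ℕ, ∀ ξ : ℝ, ‖F n ξ‖ ≤ (ArithmeticFunction.vonMangoldt n * Jk (1 / 64) k n) *
      ‖kh ξ‖ := by
    intro n ξ
    have hJ : 0 ≤ ArithmeticFunction.vonMangoldt n * Jk (1 / 64) k n :=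
      mul_nonneg ArithmeticFunction.vonMangoldt_nonneg (Jk_nonneg _ _ _ (by norm_num))
    rw [hF]
    simp only [norm_mul]
    rw [Complex.norm_real, Real.norm_of_nonneg hJ, mul_comm (‖kh ξ‖)]
    apply mul_le_mul_of_nonneg_right _ (norm_nonneg _)
    rcases Nat.eq_zero_or_pos n with h0 | hn
    · subst h0
      simp
    · have h1 : ‖(n : ℂ) ^ (-(((t - ξ : ℝ) : ℂ) * Complex.I))‖ = 1 := by
        rw [Complex.norm_natCast_cpow_of_pos hn]
        simp
      rw [h1, mul_one]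
      calc _ ≤ (ArithmeticFunction.vonMangoldt n * Jk (1 / 64) k n) * 1 :=
            mul_le_mul_of_nonneg_left (p.2.norm_le_one _) hJ
        _ = _ := mul_one _
  have hcF : ∀ n : ℕ, Continuous (F n) := by
    intro n
    rcases Nat.eq_zero_or_pos n with h0 | hn
    · subst h0
      have : F 0 = fun _ => 0 := by
        funext ξ
        rw [hF]
        simp
      rw [this]
      exact continuous_const
    · have : F n = fun ξ => kh ξ *
        (((ArithmeticFunction.vonMangoldt n * Jk (1 / 64) k n : ℝ) : ℂ) * p.2 (n : ZMod p.1) *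
        ((n : ℂ) ^ (-((t : ℂ) * Complex.I)) *
        Complex.exp ((Real.log n : ℝ) * ξ * Complex.I))) := by
        funext ξ
        rw [hF]
        simp only
        rw [hexp n hn ξ]
      rw [this]
      fun_prop
  have hiF : ∀ n : ℕ, Integrable (F n) := by
    intro n
    refine Integrable.mono' (hint.norm.const_mul
      (ArithmeticFunction.vonMangoldt n * Jk (1 / 64) k n)) (hcF n).aestronglyMeasurable ?_
    exact Filter.Eventually.of_forall fun ξ => hnF n ξ
  have hsF : Summable fun n : ℕ => ∫ ξ, ‖F n ξ‖ := by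
    have hs := (Jk_summable (1 / 64) k (by norm_num) (by norm_num)).mul_right (∫ ξ, ‖kh ξ‖)
    refine Summable.of_nonneg_of_le (fun n => integral_nonneg fun ξ => norm_nonneg _) ?_ hs
    intro n
    rw [← integral_const_mul]
    exact integral_mono (hiF n).norm (hint.norm.const_mul _) (fun ξ => hnF n ξ)
  have hsw := integral_tsum_of_summable_integral_norm hiF hsF
  have hrhs : (∫ ξ : ℝ, kh ξ * Pk (fun n => p.2 (n : ZMod p.1)) k (t - ξ)) =
      ∫ ξ : ℝ, ∑' n : ℕ, F n ξ := by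
    apply integral_congr_ae
    refine Filter.Eventually.of_forall ?_
    intro ξ
    simp only [hF, Pk]
    rw [tsum_mul_left]
  rw [hrhs, ← hsw]
  have hterm : ∀ n : ℕ, 1 ≤ n → ∫ ξ, F n ξ =
      ((ArithmeticFunction.vonMangoldt n : ℂ) * p.2 (n : ZMod p.1)) * (v X n : ℂ) *
        (n : ℂ) ^ (-(1 + t * Complex.I)) := by
    intro n hn
    have hn0 : (n : ℂ) ≠ 0 := by
      have : n ≠ 0 := by omega
      exact_mod_cast this
    have hnr : (0 : ℝ) < n := by exact_mod_cast hn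
    rcases Nat.lt_or_ge 1 n with h2 | h2
    · have hlog : 0 < Real.log n := Real.log_pos (by exact_mod_cast h2)
      have h3 : ∫ ξ, F n ξ = (((ArithmeticFunction.vonMangoldt n * Jk (1 / 64) k n : ℝ) : ℂ) *
          p.2 (n : ZMod p.1) * (n : ℂ) ^ (-((t : ℂ) * Complex.I))) *
          ∫ ξ : ℝ, kh ξ * Complex.exp ((Real.log n : ℝ) * ξ * Complex.I) := by
        rw [← integral_const_mul]
        apply integral_congr_ae
        refine Filter.Eventually.of_forall ?_
        intro ξ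
        simp only [hF]
        rw [hexp n hn ξ]
        ring
      have h4 := hk (Real.log n) hlog
      have h5 : (v X n : ℂ) = (w (Real.log n - Real.log X) : ℂ) := by
        unfold v
        rw [Real.log_div hnr.ne' hX0.ne']
      rw [h3, h5, h4, pb3_Jk_eq k n hn]
      have h6 : (n : ℂ) ^ (-(1 + (t : ℂ) * Complex.I)) =
          (n : ℂ)⁻¹ * (n : ℂ) ^ (-((t : ℂ) * Complex.I)) := by
        rw [show (-(1 + (t : ℂ) * Complex.I)) = -1 + -((t : ℂ) * Complex.I) by ring,
          Complex.cpow_add _ _ hn0, Complex.cpow_neg_one]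
      rw [h6]
      push_cast
      ring
    · have h1 : n = 1 := by omega
      subst h1
      have : ∀ ξ, F 1 ξ = 0 := by
        intro ξ
        simp [hF]
      simp [this]
  have hterm0 : ∫ ξ, F 0 ξ = 0 := by
    have : ∀ ξ, F 0 ξ = 0 := by
      intro ξ
      simp [hF]
    simp [this]
  rw [tsum_eq_sum (s := Icc 1 (60 * X))]
  · unfold FL FF
    apply Finset.sum_congr rfl
    intro n hn
    rw [hterm n (Finset.mem_Icc.mp hn).1]
  · intro n hn
    rcases Nat.eq_zero_or_pos n with h0 | hn1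
    · subst h0
      exact hterm0
    · have h2 : 60 * X < n := by
        by_contra h
        exact hn (Finset.mem_Icc.mpr ⟨hn1, by omega⟩)
      rw [hterm n hn1, pb3_v_zero X n hX h2]
      simp

/-- The Gamma integral for `Mk`. -/
theorem pb3_Mk (b : ℝ) (hb : b ≤ 1) (k : ℕ) (v : ℝ) :
    Mk b k v = ∫ u in Set.Ioi (0 : ℝ), (Wd k u : ℂ) *
      Complex.exp (-(((1 - b : ℝ) + v * Complex.I) * u)) := by
  have hz : 0 < ((1 / 64 + 1 - b : ℝ) + v * Complex.I : ℂ).re := by
    simp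
    linarith
  have h1 := pb3_gamma k _ hz
  have h2 : (∫ u in Set.Ioi (0 : ℝ), (Wd k u : ℂ) *
      Complex.exp (-(((1 - b : ℝ) + v * Complex.I) * u))) =
      ((1 / 64 : ℂ) ^ (k + 1) / (k.factorial : ℂ)) * ∫ u in Set.Ioi (0 : ℝ), (u : ℂ) ^ k *
        Complex.exp (-(((1 / 64 + 1 - b : ℝ) + v * Complex.I : ℂ) * u)) := by
    rw [← integral_const_mul]
    apply integral_congr_ae
    refine Filter.Eventually.of_forall ?_
    intro u
    simp only [Wd]
    push_cast
    rw [show (-((1 / 64 + 1 - (b : ℂ) + v * Complex.I) * u)) =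
      -((u : ℂ) / 64) + -((1 - (b : ℂ) + v * Complex.I) * u) by ring, Complex.exp_add]
    ring
  rw [h2, h1]
  unfold Mk
  have hk : (k.factorial : ℂ) ≠ 0 := by exact_mod_cast k.factorial_ne_zero
  have hz0 : ((1 / 64 + 1 - b : ℝ) + v * Complex.I : ℂ) ≠ 0 := by
    intro h
    rw [h] at hz
    simp at hz
  rw [div_pow]
  push_cast
  push_cast at hz0
  field_simp

/-- `Mb(t) = ∫ kh(ξ) Mk(t - ξ) dξ` for `b ≤ 1`.

Proof. `Mk b k v = ∫_0^∞ Wd k u e^(-(1-b+iv) u) du` (Gamma integral,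
`Complex.integral_cpow_mul_exp_neg_mul_Ioi` with exponent `k + 1`, `Γ(k+1) = k!`). Fubini
(`|Wd k u e^(..)| ≤ Wd k u`, `∫ Wd = 1`, `kh` integrable), and
`Wd k u ∫ kh(ξ) e^(iξu) dξ = w(u - log X)` for `u > 0`; for `u ≤ 0` the integrand of `Mb` vanishes
(`log X ≥ 2`: `hX`). -/
theorem PB3_Mb (X : ℕ) (hX : 8 ≤ X) (kh : ℝ → ℂ) (B : ℝ) (hkc : Continuous kh)
    (hkb : ∀ ξ, ‖kh ξ‖ ≤ B / (1 + |ξ|) ^ 3)
    (hk : ∀ u : ℝ, 0 < u → (w (u - Real.log X) : ℂ) =
      (Wd (kX X) u : ℂ) * ∫ ξ : ℝ, kh ξ * Complex.exp (u * ξ * Complex.I))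
    (b : ℝ) (hb : b ≤ 1) (t : ℝ) :
    Mb X b t = ∫ ξ : ℝ, kh ξ * Mk b (kX X) (t - ξ) := by
  have hint := pb3_kh_int kh B hkc hkb
  set k := kX X with hkdef
  have hlogX : 2 < Real.log X := by
    rw [Real.lt_log_iff_exp_lt (by positivity)]
    have h1 : Real.exp 2 = Real.exp 1 ^ 2 := by
      rw [← Real.exp_nat_mul]
      norm_num
    rw [h1]
    have h2 := Real.exp_one_lt_d9
    have h3 := Real.exp_pos 1
    have h4 : (8 : ℝ) ≤ X := by exact_mod_cast hX
    calc Real.exp 1 ^ 2 ≤ 2.7182818286 ^ 2 := by gcongr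
      _ < 8 := by norm_num
      _ ≤ X := h4
  -- the left side is an integral over the positive half line
  have hL : Mb X b t = ∫ u in Set.Ioi (0 : ℝ), (w (u - Real.log X) : ℂ) *
      Complex.exp (-((1 - b : ℝ) + t * Complex.I) * u) := by
    unfold Mb
    symm
    apply setIntegral_eq_integral_of_forall_compl_eq_zero
    intro u hu
    have hu' : u ≤ 0 := by simpa using hu
    have h0 : w (u - Real.log X) = 0 := by
      unfold w
      rw [Real.smoothTransition.zero_of_nonpos (by linarith : u - Real.log X + 2 ≤ 0), zero_mul]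
    rw [h0]
    simp
  rw [hL]
  set G : ℝ → ℝ → ℂ := fun u ξ => ((Wd k u : ℂ) *
      Complex.exp (-(((1 - b : ℝ) + t * Complex.I) * u))) * kh ξ *
      Complex.exp (u * ξ * Complex.I) with hG
  have h1 : (∫ u in Set.Ioi (0 : ℝ), (w (u - Real.log X) : ℂ) *
      Complex.exp (-((1 - b : ℝ) + t * Complex.I) * u)) =
      ∫ u in Set.Ioi (0 : ℝ), ∫ ξ : ℝ, G u ξ := by
    apply setIntegral_congr_fun measurableSet_Ioi
    intro u hu
    simp only [hG]
    rw [hk u hu]
    have : (fun ξ : ℝ => ((Wd k u : ℂ) *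
      Complex.exp (-(((1 - b : ℝ) + t * Complex.I) * u))) * kh ξ *
      Complex.exp (u * ξ * Complex.I)) = fun ξ : ℝ => ((Wd k u : ℂ) *
      Complex.exp (-(((1 - b : ℝ) + t * Complex.I) * u))) * (kh ξ *
      Complex.exp (u * ξ * Complex.I)) := by
      funext ξ
      ring
    rw [this, integral_const_mul, neg_mul]
    ring
  rw [h1]
  have hWint : Integrable (fun u : ℝ => (Wd k u : ℂ) *
      Complex.exp (-(((1 - b : ℝ) + t * Complex.I) * u))) (volume.restrict (Set.Ioi 0)) := by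
    have hz : 0 < ((1 / 64 + 1 - b : ℝ) + t * Complex.I : ℂ).re := by
      simp
      linarith
    have h2 := (pb3_intOnC k _ hz).const_mul ((1 / 64 : ℂ) ^ (k + 1) / (k.factorial : ℂ))
    refine h2.congr (Filter.Eventually.of_forall ?_)
    intro u
    simp only [Wd]
    push_cast
    rw [show (-((1 / 64 + 1 - (b : ℂ) + t * Complex.I) * u)) =
      -((u : ℂ) / 64) + -((1 - (b : ℂ) + t * Complex.I) * u) by ring, Complex.exp_add]
    ring
  have hGint : Integrable (Function.uncurry G) ((volume.restrict (Set.Ioi 0)).prod volume) := by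
    have h3 := hWint.mul_prod hint
    refine Integrable.mono h3 ?_ ?_
    · have h4 : AEStronglyMeasurable (fun z : ℝ × ℝ => Complex.exp (z.1 * z.2 * Complex.I))
          ((volume.restrict (Set.Ioi 0)).prod volume) := by
        apply Continuous.aestronglyMeasurable
        fun_prop
      exact h3.1.mul h4
    · refine Filter.Eventually.of_forall ?_
      intro z
      simp only [hG, Function.uncurry]
      rw [norm_mul _ (Complex.exp (z.1 * z.2 * Complex.I))]
      have h5 : ‖Complex.exp ((z.1 : ℂ) * z.2 * Complex.I)‖ = 1 := by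
        rw [← Complex.ofReal_mul]
        exact Complex.norm_exp_ofReal_mul_I _
      rw [h5, mul_one]
  rw [integral_integral_swap hGint]
  apply integral_congr_ae
  refine Filter.Eventually.of_forall ?_
  intro ξ
  simp only
  rw [pb3_Mk b hb, ← integral_const_mul]
  apply setIntegral_congr_fun measurableSet_Ioi
  intro u _
  simp only [hG]
  rw [show (-(((1 - b : ℝ) + ((t - ξ : ℝ) : ℂ) * Complex.I) * (u : ℂ))) =
    -(((1 - b : ℝ) + (t : ℂ) * Complex.I) * u) + (u * ξ * Complex.I) by push_cast; ring,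
    Complex.exp_add]
  ring

end Pool.Agent.Lib.H18Q
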