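import Pool.Agent.Lib.H18Q.PDefs
import Pool.Agent.Lib.H18Q.Z2

/-!
# Project H18Q, chunk PC1: the mean of the contribution of the zeros
-/

open Finset

namespace Pool.Agent.Lib.H18Q

open Pool.Agent.Lib.H68T

theorem pc1_bern {k : ℕ} (hk : 1 ≤ k) (y : ℝ) :
    (1 / Real.sqrt (1 + y ^ 2)) ^ (k + 1) ≤ (1 + (k + 1) / 2 * y ^ 2)⁻¹ := by
  have h0 : (0 : ℝ) < 1 + y ^ 2 := by positivity
  have hk' : (1 : ℝ) ≤ k := by exact_mod_cast hk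
  have h1 : 1 + (((k : ℝ) + 1) / 2) * y ^ 2 ≤ (1 + y ^ 2) ^ (((k : ℝ) + 1) / 2) :=
    one_add_mul_self_le_rpow_one_add (by nlinarith [sq_nonneg y]) (by linarith)
  have h2 : Real.sqrt (1 + y ^ 2) ^ (k + 1) = (1 + y ^ 2) ^ (((k : ℝ) + 1) / 2) := by
    rw [Real.sqrt_eq_rpow, ← Real.rpow_natCast, ← Real.rpow_mul h0.le]
    congr 1
    push_cast
    ring
  rw [one_div, inv_pow, h2]
  exact inv_anti₀ (by positivity) h1

theorem pc1_cauchy {c : ℝ} (hc : 0 < c) :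
    MeasureTheory.Integrable (fun y : ℝ => (1 + c * y ^ 2)⁻¹) ∧
    ∫ y : ℝ, (1 + c * y ^ 2)⁻¹ = Real.pi / Real.sqrt c := by
  have hs : 0 < Real.sqrt c := Real.sqrt_pos.2 hc
  have h1 : (fun y : ℝ => (1 + c * y ^ 2)⁻¹) = fun y : ℝ =>
      (fun x : ℝ => (1 + x ^ 2)⁻¹) (Real.sqrt c * y) := by
    funext y
    simp only [mul_pow, Real.sq_sqrt hc.le]
  constructor
  · rw [h1]
    exact integrable_inv_one_add_sq.comp_mul_left' hs.ne'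
  · have h2 := MeasureTheory.Measure.integral_comp_mul_left (fun x : ℝ => (1 + x ^ 2)⁻¹) (Real.sqrt c)
    rw [h1, h2, integral_univ_inv_one_add_sq, abs_of_pos (inv_pos.2 hs), smul_eq_mul]
    ring

/-- `∫ (1+y²)^(-(k+1)/2) dy ≤ C/√(k+1)` for `k ≥ 1`.

Proof. For `|y| ≤ 1`, `log (1+y²) ≥ y²/2`, so the integrand is `≤ e^(-(k+1) y²/4)`, with integral
`√(4π/(k+1))`. For `|y| > 1` it is at most `2^(-(k-1)/2) (1+y²)^(-1)`, integral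
`≤ π 2^(-(k-1)/2) ≤ C/√(k+1)`. -/
theorem PC1_beta : ∃ C : ℝ, 0 < C ∧ ∀ k : ℕ, 1 ≤ k →
    MeasureTheory.Integrable (fun y : ℝ => (1 / Real.sqrt (1 + y ^ 2)) ^ (k + 1)) ∧
    ∫ y : ℝ, (1 / Real.sqrt (1 + y ^ 2)) ^ (k + 1) ≤ C / Real.sqrt (k + 1) := by
  refine ⟨Real.pi * Real.sqrt 2, by positivity, ?_⟩
  intro k hk
  have hc : (0 : ℝ) < (k + 1) / 2 := by positivity
  obtain ⟨h1, h2⟩ := pc1_cauchy hc
  have h3 : MeasureTheory.Integrable (fun y : ℝ => (1 / Real.sqrt (1 + y ^ 2)) ^ (k + 1)) := by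
    refine h1.mono' ?_ ?_
    · apply Continuous.aestronglyMeasurable
      refine Continuous.pow (Continuous.div continuous_const ?_ ?_) _
      · exact Real.continuous_sqrt.comp (by fun_prop)
      · intro y
        have : 0 < Real.sqrt (1 + y ^ 2) := Real.sqrt_pos.2 (by positivity)
        exact this.ne'
    · refine Filter.Eventually.of_forall fun y => ?_
      rw [Real.norm_of_nonneg (by positivity)]
      exact pc1_bern hk y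
  refine ⟨h3, ?_⟩
  refine (MeasureTheory.integral_mono h3 h1 fun y => pc1_bern hk y).trans ?_
  rw [h2]
  have h4 : Real.sqrt ((k + 1) / 2) = Real.sqrt (k + 1) / Real.sqrt 2 :=
    Real.sqrt_div (by positivity) 2
  rw [h4, div_div_eq_mul_div]

/-- One zero: for `Re ρ ≤ 1`,
`∫_a^b |(1/64)/(1 + 1/64 + iv - ρ)|^(k+1) dv ≤ C/√(k+1) (1/(1 + 64 (1 - Re ρ)))^k`.

Proof. With `A = 1/64 + 1 - Re ρ ≥ 1/64`, `|1 + 1/64 + iv - ρ| = √(A² + (v - Im ρ)²)`; substitute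
`v = Im ρ + A y`: `(1/64)^(k+1) A^(-k) ∫ (1+y²)^(-(k+1)/2) dy`, and `(1/64)/A = 1/(1 + 64(1 - Re ρ))`. -/
theorem PC1_one : ∃ C : ℝ, 0 < C ∧ ∀ (k : ℕ) (ρ : ℂ) (a b : ℝ), 1 ≤ k → ρ.re ≤ 1 → a ≤ b →
    ∫ v in a..b, ‖((1 / 64 : ℝ) : ℂ) / (1 + (1 / 64 : ℝ) + v * Complex.I - ρ)‖ ^ (k + 1) ≤
      C / Real.sqrt (k + 1) * (1 / (1 + 64 * (1 - ρ.re))) ^ k := by
  obtain ⟨C, hC, H⟩ := PC1_beta
  refine ⟨C, hC, ?_⟩
  intro k ρ a b hk hρ hab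
  obtain ⟨h1, h2⟩ := H k hk
  set A : ℝ := 1 / 64 + 1 - ρ.re with hA
  have hA0 : 1 / 64 ≤ A := by rw [hA]; linarith
  have hAp : 0 < A := by linarith
  have hform : ∀ v : ℝ, ‖((1 / 64 : ℝ) : ℂ) / (1 + (1 / 64 : ℝ) + v * Complex.I - ρ)‖ ^ (k + 1) =
      ((1 / 64) / A) ^ (k + 1) *
        (fun y : ℝ => (1 / Real.sqrt (1 + y ^ 2)) ^ (k + 1)) (A⁻¹ * (v - ρ.im)) := by
    intro v
    have h3 : ‖(1 + (1 / 64 : ℝ) + v * Complex.I - ρ : ℂ)‖ =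
        A * Real.sqrt (1 + (A⁻¹ * (v - ρ.im)) ^ 2) := by
      rw [Complex.norm_eq_sqrt_sq_add_sq, Complex.sub_re, Complex.sub_im, z2_re, z2_im]
      have h4 : (1 + 1 / 64 - ρ.re) ^ 2 + (v - ρ.im) ^ 2 =
          A ^ 2 * (1 + (A⁻¹ * (v - ρ.im)) ^ 2) := by
        have h5 : (1 + 1 / 64 - ρ.re) = A := by rw [hA]; ring
        rw [h5]
        field_simp
      rw [h4, Real.sqrt_mul (sq_nonneg A), Real.sqrt_sq hAp.le]
    rw [norm_div, h3, Complex.norm_real, Real.norm_of_nonneg (by norm_num : (0 : ℝ) ≤ 1 / 64)]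
    show _ = (1 / 64 / A) ^ (k + 1) * (1 / Real.sqrt (1 + (A⁻¹ * (v - ρ.im)) ^ 2)) ^ (k + 1)
    rw [← mul_pow]
    congr 1
    rw [div_mul_div_comm, mul_one]
  have hint : MeasureTheory.Integrable (fun v : ℝ =>
      (fun y : ℝ => (1 / Real.sqrt (1 + y ^ 2)) ^ (k + 1)) (A⁻¹ * (v - ρ.im))) := by
    have h3 := (h1.comp_mul_left' (inv_ne_zero hAp.ne')).comp_sub_right ρ.im
    exact h3
  have hval : ∫ v : ℝ, (fun y : ℝ => (1 / Real.sqrt (1 + y ^ 2)) ^ (k + 1)) (A⁻¹ * (v - ρ.im)) =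
      A * ∫ y : ℝ, (1 / Real.sqrt (1 + y ^ 2)) ^ (k + 1) := by
    have h3 := MeasureTheory.integral_sub_right_eq_self (μ := MeasureTheory.volume)
      (fun v : ℝ => (fun y : ℝ => (1 / Real.sqrt (1 + y ^ 2)) ^ (k + 1)) (A⁻¹ * v)) ρ.im
    have h4 := MeasureTheory.Measure.integral_comp_mul_left
      (fun y : ℝ => (1 / Real.sqrt (1 + y ^ 2)) ^ (k + 1)) A⁻¹
    rw [h3, h4, inv_inv, abs_of_pos hAp, smul_eq_mul]
  have hle : ∫ v in a..b, ‖((1 / 64 : ℝ) : ℂ) / (1 + (1 / 64 : ℝ) + v * Complex.I - ρ)‖ ^ (k + 1) ≤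
      ((1 / 64) / A) ^ (k + 1) * (A * ∫ y : ℝ, (1 / Real.sqrt (1 + y ^ 2)) ^ (k + 1)) := by
    simp_rw [hform]
    rw [intervalIntegral.integral_const_mul, ← hval, intervalIntegral.integral_of_le hab]
    apply mul_le_mul_of_nonneg_left _ (by positivity)
    apply MeasureTheory.setIntegral_le_integral hint
    exact Filter.Eventually.of_forall fun v => by
      show (0 : ℝ) ≤ (1 / Real.sqrt (1 + (A⁻¹ * (v - ρ.im)) ^ 2)) ^ (k + 1)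
      positivity
  refine hle.trans ?_
  have hq : 1 / (1 + 64 * (1 - ρ.re)) = (1 / 64) / A := by
    rw [div_div]
    congr 1
    rw [hA]
    ring
  rw [hq]
  have hI : 0 ≤ ∫ y : ℝ, (1 / Real.sqrt (1 + y ^ 2)) ^ (k + 1) :=
    MeasureTheory.integral_nonneg fun y => by positivity
  have h5 : ((1 / 64) / A) ^ (k + 1) * (A * ∫ y : ℝ, (1 / Real.sqrt (1 + y ^ 2)) ^ (k + 1)) =
      (1 / 64) * ((∫ y : ℝ, (1 / Real.sqrt (1 + y ^ 2)) ^ (k + 1)) * ((1 / 64) / A) ^ k) := by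
    rw [pow_succ]
    have h6 : (1 / 64) / A * A = 1 / 64 := div_mul_cancel₀ _ hAp.ne'
    calc _ = ((1 / 64) / A * A) * ((∫ y : ℝ, (1 / Real.sqrt (1 + y ^ 2)) ^ (k + 1)) *
        ((1 / 64) / A) ^ k) := by ring
      _ = _ := by rw [h6]
  rw [h5]
  have h7 : 0 ≤ (∫ y : ℝ, (1 / Real.sqrt (1 + y ^ 2)) ^ (k + 1)) * ((1 / 64) / A) ^ k := by
    positivity
  have h8 : (∫ y : ℝ, (1 / Real.sqrt (1 + y ^ 2)) ^ (k + 1)) * ((1 / 64) / A) ^ k ≤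
      C / Real.sqrt (k + 1) * ((1 / 64) / A) ^ k :=
    mul_le_mul_of_nonneg_right h2 (by positivity)
  linarith

/-- The sum over the zeros near `s₀ = 1 + 1/64 + iv`, pointwise, `|v| ≤ Q^8 - 1`: it is at most the
sum over all zeros in `ZR f (7/8) (Q^8)` plus `C log Q (1/9)^k`.

Proof. A zero in `ZD f s₀ (1/4)` has `|Im ρ - v| ≤ 1/4`, so `|Im ρ| ≤ Q^8`. If `Re ρ ≥ 7/8` it is in
`ZR f (1 - 1/8) (Q^8)`. Otherwise `|s₀ - ρ| ≥ 1/64 + 1/8`, the ratio is `≤ 1/9`, and the number of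
zeros in `ZD f s₀ (1/4)` is at most `C log Q` (`ldat_sum` with `lam = 1/64`:
`(lam/|s₀ - ρ|)² ≥ 1/256`). -/
theorem PC1_point (C0 : ℝ) (h0 : 1 ≤ C0) : ∃ C : ℝ, 0 < C ∧ ∀ (Q : ℕ) (f : ℂ → ℂ),
    64 ≤ Real.log Q → LDat C0 (Real.log Q) ((Q : ℝ) ^ 10) f → ∀ (v : ℝ) (k : ℕ),
    |v| ≤ (Q : ℝ) ^ 8 - 1 →
    ‖∑ ρ ∈ ZD f (1 + (1 / 64 : ℝ) + v * Complex.I) (1 / 4),
      (od f ρ : ℂ) * (((1 / 64 : ℝ) : ℂ) / (1 + (1 / 64 : ℝ) + v * Complex.I - ρ)) ^ (k + 1)‖ ≤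
    (∑ ρ ∈ ZR f (1 - 1 / 8) ((Q : ℝ) ^ 8), (od f ρ : ℝ) *
      ‖((1 / 64 : ℝ) : ℂ) / (1 + (1 / 64 : ℝ) + v * Complex.I - ρ)‖ ^ (k + 1)) +
      C * Real.log Q * (1 / 9) ^ k := by
  obtain ⟨C1, hC1, H⟩ := ldat_sum C0 h0
  refine ⟨4 * C1, by positivity, ?_⟩
  intro Q f hQ hf v k hv
  have hQ1 : (1 : ℝ) ≤ Q := by
    rcases Nat.eq_zero_or_pos Q with h | h
    · rw [h] at hQ
      norm_num at hQ
    · exact_mod_cast h
  have hl1 : 1 / Real.log Q ≤ 1 / 64 := one_div_le_one_div_of_le (by norm_num) hQ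
  have hv' : |v| ≤ (Q : ℝ) ^ 10 := by
    have : (Q : ℝ) ^ 8 ≤ (Q : ℝ) ^ 10 := pow_le_pow_right₀ hQ1 (by norm_num)
    linarith
  have h1 := H (Real.log Q) ((Q : ℝ) ^ 10) f (by linarith) hf (1 / 64) v hl1 (by norm_num) hv'
  have hs0 : f (1 + (1 / 64 : ℝ) + v * Complex.I) ≠ 0 := z2_ne hf (by norm_num)
  set s₀ : ℂ := 1 + (1 / 64 : ℝ) + v * Complex.I with hs
  have hre : s₀.re = 1 + 1 / 64 := z2_re (1 / 64) v
  have him : s₀.im = v := z2_im (1 / 64) v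
  have hmem : ∀ ρ ∈ ZD f s₀ (1 / 4), f ρ = 0 ∧ ‖ρ - s₀‖ ≤ 1 / 4 := fun ρ hρ =>
    (mem_ZD hf.diff ⟨_, hs0⟩).1 hρ
  have hpos : ∀ ρ ∈ ZD f s₀ (1 / 4), 0 < ‖s₀ - ρ‖ := by
    intro ρ hρ
    rw [norm_pos_iff, sub_ne_zero]
    intro h5
    rw [h5] at hs0
    exact hs0 (hmem ρ hρ).1
  have hcount : ∑ ρ ∈ ZD f s₀ (1 / 4), (od f ρ : ℝ) ≤ 4 * C1 * Real.log Q := by
    have h2 : ∑ ρ ∈ ZD f s₀ (1 / 4), (od f ρ : ℝ) ≤
        ∑ ρ ∈ ZD f s₀ (1 / 4), 256 * ((od f ρ : ℝ) * ((1 / 64) / ‖s₀ - ρ‖) ^ 2) := by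
      refine sum_le_sum fun ρ hρ => ?_
      have h3 : ‖s₀ - ρ‖ ≤ 1 / 4 := by
        rw [norm_sub_rev]
        exact (hmem ρ hρ).2
      have h4 := hpos ρ hρ
      have h5 : 1 / 16 ≤ (1 / 64) / ‖s₀ - ρ‖ := by
        rw [le_div_iff₀ h4]
        linarith
      have h6 : (1 / 16 : ℝ) ^ 2 ≤ ((1 / 64) / ‖s₀ - ρ‖) ^ 2 := by gcongr
      have h7 : (0 : ℝ) ≤ od f ρ := Nat.cast_nonneg _
      nlinarith
    refine h2.trans ?_
    rw [← mul_sum]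
    linarith
  have hsplit : ‖∑ ρ ∈ ZD f s₀ (1 / 4),
      (od f ρ : ℂ) * (((1 / 64 : ℝ) : ℂ) / (s₀ - ρ)) ^ (k + 1)‖ ≤
      ∑ ρ ∈ ZD f s₀ (1 / 4), (od f ρ : ℝ) * ‖((1 / 64 : ℝ) : ℂ) / (s₀ - ρ)‖ ^ (k + 1) := by
    refine (norm_sum_le _ _).trans (le_of_eq (sum_congr rfl fun ρ _ => ?_))
    rw [norm_mul, norm_pow, Complex.norm_natCast]
  refine hsplit.trans ?_
  rw [← sum_filter_add_sum_filter_not (ZD f s₀ (1 / 4)) (fun ρ => 7 / 8 ≤ ρ.re)]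
  apply add_le_add
  · apply sum_le_sum_of_subset_of_nonneg
    · intro ρ hρ
      rw [mem_filter] at hρ
      obtain ⟨hρ1, hρ2⟩ := hρ
      obtain ⟨h3, h4⟩ := hmem ρ hρ1
      rw [mem_ZR hf.diff ⟨_, hs0⟩]
      refine ⟨h3, by linarith, (hf.zre ρ h3).le, ?_⟩
      have h5 : |ρ.im - v| ≤ 1 / 4 := by
        have h6 := Complex.abs_im_le_norm (ρ - s₀)
        rw [Complex.sub_im, him] at h6
        exact h6.trans h4
      have h7 : |ρ.im| ≤ |ρ.im - v| + |v| := by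
        have := abs_add_le (ρ.im - v) v
        rwa [sub_add_cancel] at this
      linarith
    · intro ρ _ _
      positivity
  · have h3 : ∑ ρ ∈ (ZD f s₀ (1 / 4)).filter (fun ρ => ¬ 7 / 8 ≤ ρ.re),
        (od f ρ : ℝ) * ‖((1 / 64 : ℝ) : ℂ) / (s₀ - ρ)‖ ^ (k + 1) ≤
        ∑ ρ ∈ (ZD f s₀ (1 / 4)).filter (fun ρ => ¬ 7 / 8 ≤ ρ.re), (od f ρ : ℝ) * (1 / 9) ^ k := by
      refine sum_le_sum fun ρ hρ => ?_
      rw [mem_filter] at hρ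
      obtain ⟨hρ1, hρ2⟩ := hρ
      push Not at hρ2
      apply mul_le_mul_of_nonneg_left _ (Nat.cast_nonneg _)
      have h4 : 9 / 64 ≤ ‖s₀ - ρ‖ := by
        have h5 := Complex.re_le_norm (s₀ - ρ)
        rw [Complex.sub_re, hre] at h5
        linarith
      have h6 : ‖((1 / 64 : ℝ) : ℂ) / (s₀ - ρ)‖ ≤ 1 / 9 := by
        rw [norm_div, Complex.norm_real, Real.norm_of_nonneg (by norm_num : (0 : ℝ) ≤ 1 / 64),
          div_le_iff₀ (by linarith)]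
        linarith
      calc ‖((1 / 64 : ℝ) : ℂ) / (s₀ - ρ)‖ ^ (k + 1) ≤ (1 / 9) ^ (k + 1) := by gcongr
        _ ≤ (1 / 9) ^ k := pow_le_pow_of_le_one (by norm_num) (by norm_num) (Nat.le_succ k)
    refine h3.trans ?_
    rw [← sum_mul]
    apply mul_le_mul_of_nonneg_right _ (by positivity)
    exact (sum_le_sum_of_subset_of_nonneg (filter_subset _ _) fun ρ _ _ => Nat.cast_nonneg _).trans
      hcount

end Pool.Agent.Lib.H18Q
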