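import Pool.Agent.Lib.H18Q.QDefs
import Pool.Agent.Lib.H18Q.R0

/-!
# Project H18Q: definitions for module P
-/

open Finset

namespace Pool.Agent.Lib.H18Q

open Pool.Agent.Lib.H68T

noncomputable section

/-- The order of the derivative: `⌊log X / 64⌋`. -/
def kX (X : ℕ) : ℕ := ⌊Real.log X / 64⌋₊

/-- The Gamma density `(1/64)^(k+1) u^k e^(-u/64)/k!`. -/
def Wd (k : ℕ) (u : ℝ) : ℝ :=
  (1 / 64 : ℝ) ^ (k + 1) * u ^ k / (k.factorial : ℝ) * Real.exp (-(u / 64))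

/-- The weighted series `∑ Λ(n) c(n) n^(-iv) Jk(1/64, k, n)`. -/
def Pk (c : ℕ → ℂ) (k : ℕ) (v : ℝ) : ℂ :=
  ∑' n : ℕ, ((ArithmeticFunction.vonMangoldt n * Jk (1 / 64) k n : ℝ) : ℂ) * c n *
    (n : ℂ) ^ (-(v * Complex.I))

/-- The main term `((1/64)/(1/64 + 1 - b + iv))^(k+1)`. -/
def Mk (b : ℝ) (k : ℕ) (v : ℝ) : ℂ :=
  ((1 / 64 : ℝ) / ((1 / 64 + 1 - b : ℝ) + v * Complex.I) : ℂ) ^ (k + 1)

/-- The smooth main term `∫ w(u - log X) e^(-(1 - b + it) u) du`. -/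
def Mb (X : ℕ) (b t : ℝ) : ℂ :=
  ∫ u : ℝ, (w (u - Real.log X) : ℂ) * Complex.exp (-((1 - b : ℝ) + t * Complex.I) * u)

/-- A family of entire functions attached to the primitive characters of conductor at most `Q`,
with growth data, whose zeros are among those of the L-functions. -/
structure Fam (C0 : ℝ) (Q : ℕ) (g : (Σ r : ℕ, DirichletCharacter ℂ r) → ℂ → ℂ) : Prop where
  dat : ∀ p ∈ PC Q, LDat C0 (Real.log Q) ((Q : ℝ) ^ 10) (g p)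
  zer : ∀ p ∈ PC Q, ∀ ρ, g p ρ = 0 → Lp p ρ = 0
  ord : ∀ p ∈ PC Q, ∀ ρ, od (g p) ρ ≤ od (Lp p) ρ

end

end Pool.Agent.Lib.H18Q
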