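import Mathlib

/-!
# Project H18Q, chunk PG1: the convolution estimate
-/

open Finset MeasureTheory

namespace Pool.Agent.Lib.H18Q

theorem pg1_int : Integrable (fun ξ : ℝ => 1 / (1 + |ξ|) ^ 3) := by
  have h := integrable_one_add_norm (E := ℝ) (μ := volume) (r := 3) (by simp)
  refine h.congr (Filter.Eventually.of_forall fun x => ?_)
  have h1 : (0:ℝ) < 1 + |x| := by positivity
  have : (1 + ‖x‖) ^ (-(3:ℝ)) = 1 / (1 + |x|) ^ 3 := by
    rw [Real.norm_eq_abs, Real.rpow_neg h1.le]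
    rw [show (3:ℝ) = ((3:ℕ):ℝ) by norm_num, Real.rpow_natCast]
    rw [one_div]
  exact this

theorem pg1_Ioi (c : ℝ) (hc : 0 ≤ c) :
    ∫ x in Set.Ioi c, 1 / (1 + x) ^ 3 = 1 / (2 * (1 + c) ^ 2) := by
  have hd : ∀ x ∈ Set.Ici c, HasDerivAt (fun y : ℝ => -(1 / (2 * (1 + y) ^ 2)))
      (1 / (1 + x) ^ 3) x := by
    intro x hx
    have hx0 : 0 < 1 + x := by
      have : c ≤ x := hx
      linarith
    have h1 : HasDerivAt (fun y : ℝ => 2 * (1 + y) ^ 2) (2 * (2 * (1 + x))) x := by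
      have h2 := ((hasDerivAt_id x).const_add (1:ℝ)).pow 2
      have h3 := h2.const_mul (2:ℝ)
      refine h3.congr_deriv ?_
      simp
    have h4 := (h1.inv (by positivity)).neg
    have h5 : (fun y : ℝ => -(1 / (2 * (1 + y) ^ 2))) = fun y => -(2 * (1 + y) ^ 2)⁻¹ := by
      funext y
      rw [one_div]
    rw [h5]
    refine h4.congr_deriv ?_
    field_simp
  have hint : IntegrableOn (fun x : ℝ => 1 / (1 + x) ^ 3) (Set.Ioi c) := by
    refine (pg1_int.integrableOn (s := Set.Ioi c)).congr_fun ?_ measurableSet_Ioi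
    intro x hx
    have : c < x := hx
    have h0 : |x| = x := abs_of_pos (by linarith)
    simp only [h0]
  have hlim : Filter.Tendsto (fun y : ℝ => -(1 / (2 * (1 + y) ^ 2))) Filter.atTop (nhds 0) := by
    rw [← neg_zero]
    refine Filter.Tendsto.neg ?_
    have h1 : Filter.Tendsto (fun y : ℝ => 2 * (1 + y) ^ 2) Filter.atTop Filter.atTop := by
      have h2 : Filter.Tendsto (fun y : ℝ => 1 + y) Filter.atTop Filter.atTop :=
        Filter.tendsto_atTop_add_const_left _ _ Filter.tendsto_id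
      have h3 := (Filter.tendsto_pow_atTop (n := 2) (by norm_num)).comp h2
      exact Filter.Tendsto.const_mul_atTop (by norm_num) h3
    have h4 := h1.inv_tendsto_atTop
    refine h4.congr fun y => ?_
    simp
  rw [integral_Ioi_of_hasDerivAt_of_tendsto' hd hint hlim]
  ring

/-- `∫ (1 + |ξ|)^(-3) dξ = 1`, and the tail `|ξ| > R` is at most `1/R²`. -/
theorem PG1_kernel : Integrable (fun ξ : ℝ => 1 / (1 + |ξ|) ^ 3) ∧
    ∫ ξ : ℝ, 1 / (1 + |ξ|) ^ 3 = 1 ∧
    ∀ R : ℝ, 0 < R → ∫ ξ in {ξ : ℝ | R < |ξ|}, 1 / (1 + |ξ|) ^ 3 ≤ 1 / R ^ 2 := by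
  refine ⟨pg1_int, ?_, ?_⟩
  · have h := integral_comp_abs (f := fun x : ℝ => 1 / (1 + x) ^ 3)
    rw [h, pg1_Ioi 0 le_rfl]
    norm_num
  · intro R hR
    have hm : MeasurableSet {ξ : ℝ | R < |ξ|} := measurableSet_lt measurable_const (by fun_prop)
    rw [← integral_indicator hm]
    have h := integral_comp_abs (f := fun x : ℝ => (Set.Ioi R).indicator (fun y => 1 / (1 + y) ^ 3) x)
    have h2 : (fun x : ℝ => ({ξ : ℝ | R < |ξ|}).indicator (fun y : ℝ => 1 / (1 + |y|) ^ 3) x)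
        = fun x : ℝ => (Set.Ioi R).indicator (fun y => 1 / (1 + y) ^ 3) |x| := by
      funext x
      by_cases hx : R < |x|
      · rw [Set.indicator_of_mem (by exact hx), Set.indicator_of_mem (by exact hx)]
      · rw [Set.indicator_of_notMem (by exact hx), Set.indicator_of_notMem (by exact hx)]
    rw [h2, h]
    have h3 : ∫ x in Set.Ioi (0:ℝ), (Set.Ioi R).indicator (fun y : ℝ => 1 / (1 + y) ^ 3) x
        = ∫ x in Set.Ioi R, 1 / (1 + x) ^ 3 := by
      rw [setIntegral_indicator measurableSet_Ioi]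
      congr 1
      have : Set.Ioi (0:ℝ) ∩ Set.Ioi R = Set.Ioi R := by
        rw [Set.Ioi_inter_Ioi, max_eq_right hR.le]
      rw [this]
    rw [h3, pg1_Ioi R hR.le]
    have e : 2 * (1 / (2 * (1 + R) ^ 2)) = 1 / (1 + R) ^ 2 := by
      field_simp
    rw [e]
    apply one_div_le_one_div_of_le (by positivity)
    gcongr
    linarith

/-- Proof. `‖∫ kh(ξ) D(t-ξ) dξ‖ ≤ ∫_{|t-ξ| ≤ R} ‖kh(ξ)‖ ‖D(t-ξ)‖ + M ∫_{|t-ξ| > R} ‖kh(ξ)‖`; for
`|t| ≤ S` the second part is at most `M B/(R-S)²` (`|ξ| > R - S`); the first integrated over `t`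
(Fubini) is at most `∫ ‖kh‖ ∫_{|v| ≤ R} ‖D(v)‖ dv ≤ B ∫_{-R}^R ‖D‖`. -/
theorem PG1_conv (kh D : ℝ → ℂ) (B M S R : ℝ) (hB : 0 ≤ B) (hM : 0 ≤ M) (hS : 0 < S)
    (hSR : S < R) (hkc : Continuous kh) (hkb : ∀ ξ, ‖kh ξ‖ ≤ B / (1 + |ξ|) ^ 3)
    (hDc : Continuous D) (hDb : ∀ v, ‖D v‖ ≤ M) :
    ∫ t in (-S)..S, ‖∫ ξ : ℝ, kh ξ * D (t - ξ)‖ ≤
      B * (∫ v in (-R)..R, ‖D v‖) + 2 * S * B * M / (R - S) ^ 2 := by
  obtain ⟨hKi, hK1, hKt⟩ := PG1_kernel
  have hkbi : Integrable (fun ξ : ℝ => B / (1 + |ξ|) ^ 3) := by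
    refine (hKi.const_mul B).congr (Filter.Eventually.of_forall fun x => ?_)
    simp only
    rw [mul_one_div]
  have hki : Integrable (fun ξ => ‖kh ξ‖) := by
    refine hkbi.mono' hkc.norm.aestronglyMeasurable (Filter.Eventually.of_forall fun x => ?_)
    rw [norm_norm]
    exact hkb x
  set I : ℝ := ∫ v in (-R)..R, ‖D v‖ with hI
  have hI0 : 0 ≤ I := by
    rw [hI]
    exact intervalIntegral.integral_nonneg (by linarith) (fun _ _ => norm_nonneg _)
  -- the function of two variables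
  set F : ℝ → ℝ → ℝ := fun t ξ => ‖kh ξ‖ * ‖D (t - ξ)‖ with hF
  have hFc : Continuous (Function.uncurry F) := by
    have : Function.uncurry F = fun p : ℝ × ℝ => ‖kh p.2‖ * ‖D (p.1 - p.2)‖ := by
      funext p
      rfl
    rw [this]
    fun_prop
  have hFi : Integrable (Function.uncurry F)
      ((volume.restrict (Set.Ioc (-S) S)).prod volume) := by
    have h1 : Integrable (fun p : ℝ × ℝ => (fun _ : ℝ => M) p.1 * (fun ξ => ‖kh ξ‖) p.2)
        ((volume.restrict (Set.Ioc (-S) S)).prod volume) :=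
      Integrable.mul_prod (f := fun _ : ℝ => M) (g := fun ξ => ‖kh ξ‖) (integrable_const M) hki
    refine h1.mono' hFc.aestronglyMeasurable (Filter.Eventually.of_forall fun p => ?_)
    have hp : Function.uncurry F p = ‖kh p.2‖ * ‖D (p.1 - p.2)‖ := rfl
    rw [hp, norm_mul, norm_norm, norm_norm, mul_comm]
    exact mul_le_mul_of_nonneg_right (hDb _) (norm_nonneg _)
  -- step 1
  have step1 : ∫ t in (-S)..S, ‖∫ ξ : ℝ, kh ξ * D (t - ξ)‖ ≤
      ∫ t in Set.Ioc (-S) S, ∫ ξ : ℝ, F t ξ := by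
    rw [intervalIntegral.integral_of_le (by linarith)]
    refine integral_mono_of_nonneg (Filter.Eventually.of_forall fun t => norm_nonneg _) ?_ ?_
    · exact hFi.integral_prod_left
    · refine Filter.Eventually.of_forall fun t => ?_
      refine (norm_integral_le_integral_norm _).trans (le_of_eq ?_)
      refine integral_congr_ae (Filter.Eventually.of_forall fun ξ => ?_)
      simp only [hF, norm_mul]
  have step2 : ∫ t in Set.Ioc (-S) S, ∫ ξ : ℝ, F t ξ =
      ∫ ξ : ℝ, ∫ t in Set.Ioc (-S) S, F t ξ := integral_integral_swap hFi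
  have hm : MeasurableSet {ξ : ℝ | R - S < |ξ|} := measurableSet_lt measurable_const (by fun_prop)
  have inner : ∀ ξ : ℝ, ∫ t in Set.Ioc (-S) S, F t ξ ≤
      I * (B / (1 + |ξ|) ^ 3) + 2 * S * M * B * ({ξ : ℝ | R - S < |ξ|}).indicator (fun y : ℝ => 1 / (1 + |y|) ^ 3) ξ := by
    intro ξ
    have e1 : ∫ t in Set.Ioc (-S) S, F t ξ = ‖kh ξ‖ * ∫ t in (-S)..S, ‖D (t - ξ)‖ := by
      rw [intervalIntegral.integral_of_le (by linarith)]
      simp only [hF]
      rw [integral_const_mul]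
    rw [e1]
    have hJ0 : 0 ≤ ∫ t in (-S)..S, ‖D (t - ξ)‖ :=
      intervalIntegral.integral_nonneg (by linarith) (fun _ _ => norm_nonneg _)
    have hkξ := hkb ξ
    have hk0 : 0 ≤ B / (1 + |ξ|) ^ 3 := by positivity
    by_cases hξ : R - S < |ξ|
    · rw [Set.indicator_of_mem (by exact hξ)]
      have hJ : ∫ t in (-S)..S, ‖D (t - ξ)‖ ≤ 2 * S * M := by
        have h1 : ∫ t in (-S)..S, ‖D (t - ξ)‖ ≤ ∫ t in (-S)..S, M := by
          refine intervalIntegral.integral_mono_on (by linarith) ?_ ?_ (fun t _ => hDb _)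
          · exact Continuous.intervalIntegrable (by fun_prop) _ _
          · exact intervalIntegrable_const
        refine h1.trans (le_of_eq ?_)
        rw [intervalIntegral.integral_const, smul_eq_mul]
        ring
      have h2 : ‖kh ξ‖ * ∫ t in (-S)..S, ‖D (t - ξ)‖ ≤ B / (1 + |ξ|) ^ 3 * (2 * S * M) := by
        refine mul_le_mul hkξ hJ hJ0 hk0
      have h3 : 0 ≤ I * (B / (1 + |ξ|) ^ 3) := mul_nonneg hI0 hk0
      have h4 : B / (1 + |ξ|) ^ 3 * (2 * S * M) = 2 * S * M * B * (1 / (1 + |ξ|) ^ 3) := by ring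
      linarith
    · rw [Set.indicator_of_notMem (by exact hξ)]
      have hJ : ∫ t in (-S)..S, ‖D (t - ξ)‖ ≤ I := by
        rw [intervalIntegral.integral_comp_sub_right (fun t => ‖D t‖) ξ, hI]
        have hb := abs_le.mp (not_lt.mp hξ)
        refine intervalIntegral.integral_mono_interval (by linarith [hb.1, hb.2]) (by linarith)
          (by linarith [hb.1, hb.2]) (Filter.Eventually.of_forall fun _ => norm_nonneg _) ?_
        exact Continuous.intervalIntegrable (by fun_prop) _ _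
      have h2 : ‖kh ξ‖ * ∫ t in (-S)..S, ‖D (t - ξ)‖ ≤ B / (1 + |ξ|) ^ 3 * I :=
        mul_le_mul hkξ hJ hJ0 hk0
      have h3 : B / (1 + |ξ|) ^ 3 * I = I * (B / (1 + |ξ|) ^ 3) := by ring
      linarith
  have hind : Integrable (({ξ : ℝ | R - S < |ξ|}).indicator (fun y : ℝ => 1 / (1 + |y|) ^ 3)) :=
    hKi.indicator hm
  have step3 : ∫ ξ : ℝ, ∫ t in Set.Ioc (-S) S, F t ξ ≤
      ∫ ξ : ℝ, (I * (B / (1 + |ξ|) ^ 3) + 2 * S * M * B * ({ξ : ℝ | R - S < |ξ|}).indicator (fun y : ℝ => 1 / (1 + |y|) ^ 3) ξ) := by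
    refine integral_mono_of_nonneg (Filter.Eventually.of_forall fun ξ => ?_) ?_
      (Filter.Eventually.of_forall inner)
    · refine integral_nonneg fun t => ?_
      exact mul_nonneg (norm_nonneg _) (norm_nonneg _)
    · exact (hkbi.const_mul I).add (hind.const_mul _)
  have step4 : ∫ ξ : ℝ, (I * (B / (1 + |ξ|) ^ 3) + 2 * S * M * B * ({ξ : ℝ | R - S < |ξ|}).indicator (fun y : ℝ => 1 / (1 + |y|) ^ 3) ξ)
      ≤ B * I + 2 * S * B * M / (R - S) ^ 2 := by
    rw [integral_add (hkbi.const_mul I) (hind.const_mul _), integral_const_mul, integral_const_mul,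
      integral_indicator hm]
    have e1 : ∫ ξ : ℝ, B / (1 + |ξ|) ^ 3 = B := by
      have : (fun ξ : ℝ => B / (1 + |ξ|) ^ 3) = fun ξ => B * (1 / (1 + |ξ|) ^ 3) := by
        funext ξ
        rw [mul_one_div]
      rw [this, integral_const_mul, hK1, mul_one]
    rw [e1]
    have h2 := hKt (R - S) (by linarith)
    have h3 : 0 ≤ 2 * S * M * B := by positivity
    have h4 := mul_le_mul_of_nonneg_left h2 h3
    have h5 : 2 * S * M * B * (1 / (R - S) ^ 2) = 2 * S * B * M / (R - S) ^ 2 := by ring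
    linarith [h4, h5, mul_comm I B]
  calc _ ≤ _ := step1
    _ = _ := step2
    _ ≤ _ := step3
    _ ≤ _ := step4

end Pool.Agent.Lib.H18Q
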