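import Pool.Agent.Lib.H18Q.PG1
import Pool.Agent.Lib.H18Q.PA
import Pool.Agent.Lib.H18Q.PB3
import Pool.Agent.Lib.H18Q.PC1

/-!
# Project H18Q, chunk PG2: L1 norms for a family
-/

open Finset

namespace Pool.Agent.Lib.H18Q

open ArithmeticFunction Pool.Agent.Lib.H68T

theorem pg2_ratio_cont (ρ : ℂ) (hρ : ρ.re ≤ 1) (k : ℕ) : Continuous fun v : ℝ =>
    ‖((1 / 64 : ℝ) : ℂ) / (1 + (1 / 64 : ℝ) + v * Complex.I - ρ)‖ ^ (k + 1) := by
  refine Continuous.pow (Continuous.norm ?_) _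
  refine Continuous.div continuous_const (by fun_prop) fun v h => ?_
  have := congrArg Complex.re h
  simp at this
  linarith

/-- The mean of `Pk - ε Mk` over `|v| ≤ Q^8 - 1` for one member of the family.

Proof: `PA_formula` (`ℓ = log Q`, `T = Q^10`), `PC1_point`, and `PC1_one` for each zero of
`ZR f (7/8) (Q^8)` (`Re ρ ≤ 1`, `mem_ZR`); the errors `C log Q (1/8)^k`, `C log Q (1/9)^k` over a
range of length `≤ 2 Q^8`. -/
theorem PG2_one (C0 : ℝ) (h0 : 1 ≤ C0) : ∃ C : ℝ, 1 ≤ C ∧ ∀ (Q : ℕ) (f : ℂ → ℂ)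
    (c : ℕ → ℂ) (ε b : ℝ), 64 ≤ Real.log Q → LDat C0 (Real.log Q) ((Q : ℝ) ^ 10) f →
    (∀ n, ‖c n‖ ≤ 1) → b ≤ 1 →
    (∀ s : ℂ, 1 < s.re → logDeriv f s = -LSeries (fun n => (Λ n : ℂ) * c n) s + ε / (s - b)) →
    ∀ k : ℕ, 1 ≤ k →
    ∫ v in (-((Q : ℝ) ^ 8 - 1))..((Q : ℝ) ^ 8 - 1), ‖Pk c k v - ε * Mk b k v‖ ≤
      C / Real.sqrt (k + 1) * (∑ ρ ∈ ZR f (1 - 1 / 8) ((Q : ℝ) ^ 8), (od f ρ : ℝ) *
        (1 / (1 + 64 * (1 - ρ.re))) ^ k) + C * (Q : ℝ) ^ 8 * Real.log Q * (1 / 8) ^ k := by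
  obtain ⟨C1, hC1, hA⟩ := PA_formula C0 h0
  obtain ⟨C2, hC2, hP⟩ := PC1_point C0 h0
  obtain ⟨C3, hC3, hO⟩ := PC1_one
  refine ⟨1 + C3 + 2 * (C1 + C2), by linarith, ?_⟩
  intro Q f c ε b hQ hf hc hb hld k hk
  have hQ0 : (0 : ℝ) < Q := by
    rcases Nat.eq_zero_or_pos Q with h | h
    · rw [h] at hQ
      norm_num at hQ
    · exact_mod_cast h
  have hQ1 : (1 : ℝ) ≤ Q := by
    by_contra hcon
    have := Real.log_nonpos hQ0.le (not_le.1 hcon).le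
    linarith
  have hQ8 : (1 : ℝ) ≤ (Q : ℝ) ^ 8 := one_le_pow₀ hQ1
  set R : ℝ := (Q : ℝ) ^ 8 - 1 with hR
  have hR0 : 0 ≤ R := by linarith
  have hne : ∃ c, f c ≠ 0 := ⟨2, fun h => by
    have := hf.zre 2 h
    norm_num at this⟩
  set Z := ZR f (1 - 1 / 8) ((Q : ℝ) ^ 8) with hZ
  have hZ1 : ∀ ρ ∈ Z, ρ.re ≤ 1 := fun ρ hρ => ((mem_ZR hf.diff hne).1 hρ).2.2.1
  set L := Real.log Q with hL
  have hQ10 : R ≤ (Q : ℝ) ^ 10 := by
    have : (Q : ℝ) ^ 8 ≤ (Q : ℝ) ^ 10 := pow_le_pow_right₀ hQ1 (by norm_num)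
    linarith
  have hpt : ∀ v ∈ Set.Icc (-R) R, ‖Pk c k v - ε * Mk b k v‖ ≤
      (∑ ρ ∈ Z, (od f ρ : ℝ) *
        ‖((1 / 64 : ℝ) : ℂ) / (1 + (1 / 64 : ℝ) + v * Complex.I - ρ)‖ ^ (k + 1)) +
      (C1 + C2) * L * (1 / 8) ^ k := by
    intro v hv
    have hv' : |v| ≤ R := abs_le.2 ⟨hv.1, hv.2⟩
    have h1 := hA L ((Q : ℝ) ^ 10) f c ε b hQ hf hc hb hld v (hv'.trans hQ10) k
    have h2 := hP Q f hQ hf v k hv'
    rw [← hZ, ← hL] at h2
    have h3 : (1 / 9 : ℝ) ^ k ≤ (1 / 8) ^ k := pow_le_pow_left₀ (by norm_num) (by norm_num) k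
    have h4 : C2 * L * (1 / 9) ^ k ≤ C2 * L * (1 / 8) ^ k :=
      mul_le_mul_of_nonneg_left h3 (mul_nonneg hC2.le (by linarith))
    have h5 : ‖Pk c k v - ε * Mk b k v‖ ≤
        ‖Pk c k v - ε * Mk b k v + ∑ ρ ∈ ZD f (1 + (1 / 64 : ℝ) + v * Complex.I) (1 / 4),
          (od f ρ : ℂ) * (((1 / 64 : ℝ) : ℂ) / (1 + (1 / 64 : ℝ) + v * Complex.I - ρ)) ^ (k + 1)‖ +
        ‖∑ ρ ∈ ZD f (1 + (1 / 64 : ℝ) + v * Complex.I) (1 / 4),
          (od f ρ : ℂ) * (((1 / 64 : ℝ) : ℂ) / (1 + (1 / 64 : ℝ) + v * Complex.I - ρ)) ^ (k + 1)‖ := by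
      set A := Pk c k v - ε * Mk b k v
      set B := ∑ ρ ∈ ZD f (1 + (1 / 64 : ℝ) + v * Complex.I) (1 / 4),
          (od f ρ : ℂ) * (((1 / 64 : ℝ) : ℂ) / (1 + (1 / 64 : ℝ) + v * Complex.I - ρ)) ^ (k + 1)
      calc ‖A‖ = ‖(A + B) - B‖ := by rw [add_sub_cancel_right]
        _ ≤ ‖A + B‖ + ‖B‖ := norm_sub_le _ _
    have h6 : (C1 + C2) * L * (1 / 8) ^ k = C1 * L * (1 / 8) ^ k + C2 * L * (1 / 8) ^ k := by ring
    rw [h6]
    linarith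
  have hc1 : Continuous fun v : ℝ => ‖Pk c k v - ε * Mk b k v‖ :=
    ((Pk_continuous c hc k).sub (continuous_const.mul (Mk_continuous b hb k))).norm
  have hc2 : ∀ ρ ∈ Z, Continuous fun v : ℝ => (od f ρ : ℝ) *
      ‖((1 / 64 : ℝ) : ℂ) / (1 + (1 / 64 : ℝ) + v * Complex.I - ρ)‖ ^ (k + 1) :=
    fun ρ hρ => continuous_const.mul (pg2_ratio_cont ρ (hZ1 ρ hρ) k)
  have hc3 : Continuous fun v : ℝ => ∑ ρ ∈ Z, (od f ρ : ℝ) *
      ‖((1 / 64 : ℝ) : ℂ) / (1 + (1 / 64 : ℝ) + v * Complex.I - ρ)‖ ^ (k + 1) :=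
    continuous_finsetSum _ hc2
  have hc4 : Continuous fun v : ℝ => (∑ ρ ∈ Z, (od f ρ : ℝ) *
      ‖((1 / 64 : ℝ) : ℂ) / (1 + (1 / 64 : ℝ) + v * Complex.I - ρ)‖ ^ (k + 1)) +
        (C1 + C2) * L * (1 / 8) ^ k := hc3.add continuous_const
  have hint := intervalIntegral.integral_mono_on (μ := MeasureTheory.volume) (by linarith : -R ≤ R)
    (hc1.intervalIntegrable _ _) (hc4.intervalIntegrable _ _) hpt
  refine hint.trans ?_
  rw [intervalIntegral.integral_add (hc3.intervalIntegrable _ _) (continuous_const.intervalIntegrable _ _),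
    intervalIntegral.integral_finsetSum fun ρ hρ => (hc2 ρ hρ).intervalIntegrable _ _,
    intervalIntegral.integral_const]
  have hsq : 0 < Real.sqrt (k + 1) := Real.sqrt_pos.2 (by positivity)
  have h1 : ∑ ρ ∈ Z, ∫ v in (-R)..R, (od f ρ : ℝ) *
      ‖((1 / 64 : ℝ) : ℂ) / (1 + (1 / 64 : ℝ) + v * Complex.I - ρ)‖ ^ (k + 1) ≤
      C3 / Real.sqrt (k + 1) * ∑ ρ ∈ Z, (od f ρ : ℝ) * (1 / (1 + 64 * (1 - ρ.re))) ^ k := by
    rw [Finset.mul_sum]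
    refine Finset.sum_le_sum fun ρ hρ => ?_
    rw [intervalIntegral.integral_const_mul]
    calc (od f ρ : ℝ) * ∫ v in (-R)..R,
          ‖((1 / 64 : ℝ) : ℂ) / (1 + (1 / 64 : ℝ) + v * Complex.I - ρ)‖ ^ (k + 1)
        ≤ (od f ρ : ℝ) * (C3 / Real.sqrt (k + 1) * (1 / (1 + 64 * (1 - ρ.re))) ^ k) :=
          mul_le_mul_of_nonneg_left (hO k ρ (-R) R hk (hZ1 ρ hρ) (by linarith)) (Nat.cast_nonneg _)
      _ = _ := by ring
  have hsum0 : 0 ≤ ∑ ρ ∈ Z, (od f ρ : ℝ) * (1 / (1 + 64 * (1 - ρ.re))) ^ k := by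
    refine Finset.sum_nonneg fun ρ hρ => mul_nonneg (Nat.cast_nonneg _) (pow_nonneg ?_ _)
    have := hZ1 ρ hρ
    apply div_nonneg zero_le_one
    linarith
  have h2 : C3 / Real.sqrt (k + 1) * ∑ ρ ∈ Z, (od f ρ : ℝ) * (1 / (1 + 64 * (1 - ρ.re))) ^ k ≤
      (1 + C3 + 2 * (C1 + C2)) / Real.sqrt (k + 1) *
        ∑ ρ ∈ Z, (od f ρ : ℝ) * (1 / (1 + 64 * (1 - ρ.re))) ^ k := by
    apply mul_le_mul_of_nonneg_right _ hsum0
    apply div_le_div_of_nonneg_right _ hsq.le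
    linarith
  have h3 : (R - -R) • ((C1 + C2) * L * (1 / 8) ^ k) ≤
      (1 + C3 + 2 * (C1 + C2)) * (Q : ℝ) ^ 8 * L * (1 / 8) ^ k := by
    rw [smul_eq_mul]
    have e1 : (R - -R) * ((C1 + C2) * L * (1 / 8) ^ k) = (2 * (C1 + C2)) * R * (L * (1 / 8) ^ k) := by
      ring
    have e2 : (1 + C3 + 2 * (C1 + C2)) * (Q : ℝ) ^ 8 * L * (1 / 8) ^ k =
        (1 + C3 + 2 * (C1 + C2)) * (Q : ℝ) ^ 8 * (L * (1 / 8) ^ k) := by ring
    rw [e1, e2]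
    apply mul_le_mul_of_nonneg_right _ (mul_nonneg (by linarith) (by positivity))
    apply mul_le_mul (by linarith) (by linarith) hR0 (by positivity)
  linarith

theorem pg2_kX {K : ℝ} {Q X : ℕ} (hK : 128 ≤ K) (h : RegP K Q X) :
    1 ≤ kX X ∧ Real.log X / 64 - 1 ≤ kX X ∧ Real.log X / 64 ≤ (kX X : ℝ) + 1 := by
  have h1 := h.logX_ge (by linarith)
  have h2 := Real.add_one_le_exp K
  have h3 : (1 : ℝ) ≤ Real.log X / 64 := by linarith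
  unfold kX
  have h4 := Nat.lt_floor_add_one (Real.log X / 64)
  refine ⟨Nat.le_floor (by exact_mod_cast h3), by linarith, h4.le⟩

/-- the first error -/
theorem pg2_err1 {K : ℝ} {Q X : ℕ} (hK : 1280 ≤ K) (h : RegP K Q X) :
    (Q : ℝ) ^ 2 * (Real.sqrt (Real.log X) * ((Q : ℝ) ^ 8 * Real.log Q * (1 / 8) ^ kX X)) ≤
      640 * (Q : ℝ) ^ (-7 : ℝ) * (1 / Q) := by
  have hK1 : 1 ≤ K := by linarith
  obtain ⟨hk1, hk2, hk3⟩ := pg2_kX (by linarith) h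
  have hX1 := h.logX_ge_one (by linarith)
  have hQ : (0 : ℝ) < Q := by exact_mod_cast h.Q_pos hK1
  have hlQ : 0 < Real.log Q := by linarith [h.logQ_ge hK1]
  have hlQ2 : Real.log Q ≤ Q := by
    have := Real.log_le_sub_one_of_pos hQ
    linarith
  have hlog8 : (2 : ℝ) ≤ Real.log 8 := by
    rw [show (8 : ℝ) = 2 ^ 3 by norm_num, Real.log_pow]
    have := Real.log_two_gt_d9
    push_cast
    linarith
  have h8 : (1 / 8 : ℝ) ^ kX X ≤ Real.exp (2 - Real.log X / 32) := by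
    have e1 : (1 / 8 : ℝ) ^ kX X = Real.exp (-(kX X * Real.log 8)) := by
      rw [Real.exp_neg, mul_comm, Real.exp_mul, Real.exp_log (by norm_num), Real.rpow_natCast,
        one_div, inv_pow]
    rw [e1]
    apply Real.exp_le_exp.2
    have : (kX X : ℝ) * 2 ≤ kX X * Real.log 8 := mul_le_mul_of_nonneg_left hlog8 (Nat.cast_nonneg _)
    linarith
  have he2 : Real.exp 2 ≤ 10 := by
    have : Real.exp 2 = Real.exp 1 * Real.exp 1 := by rw [← Real.exp_add]; norm_num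
    rw [this]
    have h1 := Real.exp_one_lt_d9
    have h2 := Real.exp_pos 1
    nlinarith
  have hsqrt : Real.sqrt (Real.log X) ≤ 64 * Real.exp (Real.log X / 64) := by
    have h1 : Real.sqrt (Real.log X) ≤ Real.log X := by
      rw [Real.sqrt_le_left (by linarith)]
      nlinarith
    have h2 := Real.add_one_le_exp (Real.log X / 64)
    linarith
  have hX2 : Real.exp (-(Real.log X / 64)) ≤ (Q : ℝ) ^ (-20 : ℝ) := by
    rw [Real.rpow_def_of_pos hQ]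
    apply Real.exp_le_exp.2
    have h1 := h.logQ_le hK1
    have h2 : 1280 * Real.log Q ≤ K * Real.log Q := mul_le_mul_of_nonneg_right hK hlQ.le
    linarith
  have hprod : Real.sqrt (Real.log X) * (1 / 8) ^ kX X ≤ 640 * (Q : ℝ) ^ (-20 : ℝ) := by
    calc Real.sqrt (Real.log X) * (1 / 8) ^ kX X ≤
        (64 * Real.exp (Real.log X / 64)) * Real.exp (2 - Real.log X / 32) :=
          mul_le_mul hsqrt h8 (by positivity) (by positivity)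
      _ = 64 * Real.exp 2 * Real.exp (-(Real.log X / 64)) := by
          rw [mul_assoc, mul_assoc, ← Real.exp_add, ← Real.exp_add]
          congr 2
          ring
      _ ≤ 64 * 10 * (Q : ℝ) ^ (-20 : ℝ) := by
          apply mul_le_mul _ hX2 (by positivity) (by norm_num)
          linarith
      _ = _ := by ring
  have hQpow : (Q : ℝ) ^ (-20 : ℝ) = (Q : ℝ) ^ (-7 : ℝ) * (1 / Q) * (1 / Q ^ 12) := by
    rw [Real.rpow_neg hQ.le, Real.rpow_neg hQ.le]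
    have e1 : (Q : ℝ) ^ (20 : ℝ) = (Q : ℝ) ^ 20 := by exact_mod_cast Real.rpow_natCast (Q : ℝ) 20
    have e2 : (Q : ℝ) ^ (7 : ℝ) = (Q : ℝ) ^ 7 := by exact_mod_cast Real.rpow_natCast (Q : ℝ) 7
    rw [e1, e2]
    field_simp
  calc (Q : ℝ) ^ 2 * (Real.sqrt (Real.log X) * ((Q : ℝ) ^ 8 * Real.log Q * (1 / 8) ^ kX X))
      = ((Q : ℝ) ^ 10 * Real.log Q) * (Real.sqrt (Real.log X) * (1 / 8) ^ kX X) := by ring
    _ ≤ ((Q : ℝ) ^ 10 * Q) * (640 * (Q : ℝ) ^ (-20 : ℝ)) := by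
        apply mul_le_mul _ hprod (by positivity) (by positivity)
        exact mul_le_mul_of_nonneg_left hlQ2 (by positivity)
    _ = 640 * (Q : ℝ) ^ (-7 : ℝ) * (1 / Q) * (Q ^ 11 / Q ^ 12) := by
        rw [hQpow]
        ring
    _ ≤ 640 * (Q : ℝ) ^ (-7 : ℝ) * (1 / Q) * 1 := by
        apply mul_le_mul_of_nonneg_left _ (by positivity)
        rw [div_le_one (by positivity)]
        have hQ1 : (1 : ℝ) ≤ Q := by linarith [h.Q_ge hK1]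
        exact pow_le_pow_right₀ hQ1 (by norm_num)
    _ = _ := by ring

/-- the second error -/
theorem pg2_err2 {Q : ℕ} (hQ : (4 : ℝ) ≤ Q) {B M : ℝ} (hB : 0 ≤ B) (hM : 0 ≤ M) :
    (Q : ℝ) ^ 2 * (2 * (Q : ℝ) ^ 7 * B * M / ((Q : ℝ) ^ 8 - 1 - (Q : ℝ) ^ 7) ^ 2) ≤
      8 * (B * M) * (Q : ℝ) ^ (-7 : ℝ) := by
  have hQ0 : (0 : ℝ) < Q := by linarith
  have h7 : (4 : ℝ) ^ 7 ≤ (Q : ℝ) ^ 7 := pow_le_pow_left₀ (by norm_num) hQ 7
  have h1 : (Q : ℝ) ^ 8 / 2 ≤ (Q : ℝ) ^ 8 - 1 - (Q : ℝ) ^ 7 := by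
    have : (Q : ℝ) ^ 8 = (Q : ℝ) ^ 7 * Q := by ring
    rw [this]
    nlinarith
  have h2 : ((Q : ℝ) ^ 8 / 2) ^ 2 ≤ ((Q : ℝ) ^ 8 - 1 - (Q : ℝ) ^ 7) ^ 2 :=
    pow_le_pow_left₀ (by positivity) h1 2
  have h3 : 2 * (Q : ℝ) ^ 7 * B * M / ((Q : ℝ) ^ 8 - 1 - (Q : ℝ) ^ 7) ^ 2 ≤
      2 * (Q : ℝ) ^ 7 * B * M / ((Q : ℝ) ^ 8 / 2) ^ 2 :=
    div_le_div_of_nonneg_left (by positivity) (by positivity) h2
  refine (mul_le_mul_of_nonneg_left h3 (by positivity)).trans (le_of_eq ?_)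
  have e2 : (Q : ℝ) ^ (7 : ℝ) = (Q : ℝ) ^ 7 := by exact_mod_cast Real.rpow_natCast (Q : ℝ) 7
  rw [Real.rpow_neg hQ0.le, e2]
  field_simp
  ring

/-- **L1 norms for a family.** Proof. For each `p`: `FL - ε Mb = ∫ kh(ξ) (Pk - ε Mk)(t - ξ) dξ`
(`PB3_repr`, `PB3_FL`, `PB3_Mb`; linearity, both integrable); `PG1_conv` with `S = Q^7`,
`R = Q^8 - 1`, `B = C √(log X)`, `M = C + 1` (`PA_bounds`, `Mk_norm`, `|ε| ≤ 1`; `Pk_continuous`,
`Mk_continuous`); `PG2_one` with `k = kX X`. `√(log X)/√(k+1) ≤ 8` (`k + 1 ≥ log X/64`). Sum over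
`p ∈ PC Q` (`card_PC_le`: at most `Q²`). The remaining errors are, for `K` large,
`Q² · C √(log X) · Q^8 log Q (1/8)^k` with `k ≥ (K/100) log Q`, `(1/8)^k ≤ Q^(-K/50)`, and
`Q² · 2 Q^7 C √(log X) M/(Q^8/2)² ≤ C' √(log X) Q^(-7)`, `log X ≤ Q^(1/K)` (`regp_log_le` in `R0`);
together `≤ Q^(-6)`. -/
theorem L1_family (C0 : ℝ) (h0 : 1 ≤ C0) : ∃ C K : ℝ, 1 ≤ C ∧ 1 ≤ K ∧ ∀ Q X : ℕ, RegP K Q X →
    ∀ (g : (Σ r : ℕ, DirichletCharacter ℂ r) → ℂ → ℂ)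
      (ε b : (Σ r : ℕ, DirichletCharacter ℂ r) → ℝ), Fam C0 Q g →
    (∀ p ∈ PC Q, |ε p| ≤ 1 ∧ b p ≤ 1 ∧ ∀ s : ℂ, 1 < s.re → logDeriv (g p) s =
      -LSeries (fun n => (Λ n : ℂ) * p.2 (n : ZMod p.1)) s + ε p / (s - b p)) →
    ∑ p ∈ PC Q, ∫ t in (-(Q : ℝ) ^ 7)..((Q : ℝ) ^ 7), ‖FL X p t - ε p * Mb X (b p) t‖ ≤
      C * (∑ p ∈ PC Q, ∑ ρ ∈ ZR (g p) (1 - 1 / 8) ((Q : ℝ) ^ 8), (od (g p) ρ : ℝ) *
        (1 / (1 + 64 * (1 - ρ.re))) ^ kX X) + (Q : ℝ) ^ (-6 : ℝ) := by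
  obtain ⟨CA, hCA, hPA⟩ := PA_bounds
  obtain ⟨CB, KB, hCB, hPB⟩ := PB3_repr
  obtain ⟨CG, hCG, hPG⟩ := PG2_one C0 h0
  obtain ⟨K1, hK1, hlog⟩ := regp_log_le (16 * (CB * (CA + 1))) (1 / 2) 1 one_pos
  refine ⟨8 * CB * CG, max (max KB K1) (max 1280 (1280 * (CB * CG))), by nlinarith,
    le_trans (by norm_num) ((le_max_left _ _).trans (le_max_right _ _)), ?_⟩
  intro Q X hreg g ε b hfam hmain
  set K := max (max KB K1) (max 1280 (1280 * (CB * CG))) with hKdef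
  have hKB : KB ≤ K := (le_max_left _ _).trans (le_max_left _ _)
  have hKK1 : K1 ≤ K := (le_max_right _ _).trans (le_max_left _ _)
  have hK1280 : 1280 ≤ K := (le_max_left _ _).trans (le_max_right _ _)
  have hKC : 1280 * (CB * CG) ≤ K := (le_max_right _ _).trans (le_max_right _ _)
  have hK0 : 0 ≤ K := by linarith
  obtain ⟨hk1, hk2, hk3⟩ := pg2_kX (by linarith) hreg
  have hQK := hreg.Q_ge (by linarith)
  have hQ4 : (4 : ℝ) ≤ Q := by linarith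
  have hQ0 : (0 : ℝ) < Q := by linarith
  have hlogQ := hreg.logQ_ge (by linarith)
  have hXK := hreg.X_ge (by linarith)
  have hX8 : 8 ≤ X := by
    have : (8 : ℝ) ≤ X := by linarith
    exact_mod_cast this
  have hlX := hreg.logX_ge_one (by linarith)
  obtain ⟨kh, hkc, hkb, hkr⟩ := hPB X (hKB.trans hXK)
  set B := CB * Real.sqrt (Real.log X) with hBdef
  have hB0 : 0 ≤ B := by positivity
  have hkint : MeasureTheory.Integrable fun ξ : ℝ => 1 / (1 + |ξ|) ^ 3 := PG1_kernel.1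
  have hintD : ∀ D : ℝ → ℂ, Continuous D → ∀ M : ℝ, (∀ v, ‖D v‖ ≤ M) → ∀ t : ℝ,
      MeasureTheory.Integrable fun ξ : ℝ => kh ξ * D (t - ξ) := by
    intro D hD M hM t
    refine MeasureTheory.Integrable.mono' (hkint.const_mul (B * M))
      (hkc.mul (hD.comp (continuous_const.sub continuous_id))).aestronglyMeasurable ?_
    refine Filter.Eventually.of_forall fun ξ => ?_
    rw [norm_mul]
    calc ‖kh ξ‖ * ‖D (t - ξ)‖ ≤ (B / (1 + |ξ|) ^ 3) * M :=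
          mul_le_mul (hkb ξ) (hM _) (norm_nonneg _) (by positivity)
      _ = B * M * (1 / (1 + |ξ|) ^ 3) := by ring
  have hone : ∀ p ∈ PC Q, ∫ t in (-(Q : ℝ) ^ 7)..((Q : ℝ) ^ 7), ‖FL X p t - ε p * Mb X (b p) t‖ ≤
      8 * CB * CG * (∑ ρ ∈ ZR (g p) (1 - 1 / 8) ((Q : ℝ) ^ 8), (od (g p) ρ : ℝ) *
        (1 / (1 + 64 * (1 - ρ.re))) ^ kX X) +
      (CB * CG * (Real.sqrt (Real.log X) * ((Q : ℝ) ^ 8 * Real.log Q * (1 / 8) ^ kX X)) +
        2 * (Q : ℝ) ^ 7 * B * (CA + 1) / ((Q : ℝ) ^ 8 - 1 - (Q : ℝ) ^ 7) ^ 2) := by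
    intro p hp
    obtain ⟨hε, hb, hld⟩ := hmain p hp
    have hc : ∀ n : ℕ, ‖p.2 (n : ZMod p.1)‖ ≤ 1 := fun n => DirichletCharacter.norm_le_one p.2 _
    have hPc := Pk_continuous (fun n => p.2 (n : ZMod p.1)) hc (kX X)
    have hMc := Mk_continuous (b p) hb (kX X)
    have hPb := hPA (fun n => p.2 (n : ZMod p.1)) hc (kX X)
    have hMb := Mk_norm (b p) hb (kX X)
    set D : ℝ → ℂ := fun v => Pk (fun n => p.2 (n : ZMod p.1)) (kX X) v - ε p * Mk (b p) (kX X) v with hD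
    have hDc : Continuous D := hPc.sub (continuous_const.mul hMc)
    have hDb : ∀ v, ‖D v‖ ≤ CA + 1 := by
      intro v
      refine (norm_sub_le _ _).trans (add_le_add (hPb v) ?_)
      rw [norm_mul, Complex.norm_real, Real.norm_eq_abs]
      calc |ε p| * ‖Mk (b p) (kX X) v‖ ≤ 1 * 1 := mul_le_mul hε (hMb v) (norm_nonneg _) zero_le_one
        _ = 1 := one_mul 1
    have hrep : ∀ t : ℝ, FL X p t - ε p * Mb X (b p) t = ∫ ξ : ℝ, kh ξ * D (t - ξ) := by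
      intro t
      rw [PB3_FL X (by omega) kh B hkc hkb hkr p t, PB3_Mb X hX8 kh B hkc hkb hkr (b p) hb t,
        ← MeasureTheory.integral_const_mul, ← MeasureTheory.integral_sub]
      · refine MeasureTheory.integral_congr_ae (Filter.Eventually.of_forall fun ξ => ?_)
        simp only [hD]
        ring
      · exact hintD _ hPc CA hPb t
      · exact (hintD _ hMc 1 hMb t).const_mul _
    have h1 := PG1_conv kh D B (CA + 1) ((Q : ℝ) ^ 7) ((Q : ℝ) ^ 8 - 1) hB0 (by linarith) (by positivity)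
      (by
        have h7 : (4 : ℝ) ^ 7 ≤ (Q : ℝ) ^ 7 := pow_le_pow_left₀ (by norm_num) hQ4 7
        have : (Q : ℝ) ^ 8 = (Q : ℝ) ^ 7 * Q := by ring
        rw [this]
        nlinarith) hkc hkb hDc hDb
    simp only [← hrep] at h1
    have h2 := hPG Q (g p) (fun n => p.2 (n : ZMod p.1)) (ε p) (b p) (by linarith) (hfam.dat p hp)
      hc hb hld (kX X) hk1
    refine h1.trans ?_
    have hsq : 0 < Real.sqrt (kX X + 1) := Real.sqrt_pos.2 (by positivity)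
    have h3 : Real.sqrt (Real.log X) ≤ 8 * Real.sqrt (kX X + 1) := by
      rw [Real.sqrt_le_left (by positivity), mul_pow, Real.sq_sqrt (by positivity)]
      linarith
    set Sg := ∑ ρ ∈ ZR (g p) (1 - 1 / 8) ((Q : ℝ) ^ 8), (od (g p) ρ : ℝ) *
        (1 / (1 + 64 * (1 - ρ.re))) ^ kX X with hSg
    have hSg0 : 0 ≤ Sg := by
      have hne : ∃ c, g p c ≠ 0 := ⟨2, fun h => by
        have := (hfam.dat p hp).zre 2 h
        norm_num at this⟩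
      refine Finset.sum_nonneg fun ρ hρ => mul_nonneg (Nat.cast_nonneg _) (pow_nonneg ?_ _)
      have := ((mem_ZR (hfam.dat p hp).diff hne).1 hρ).2.2.1
      apply div_nonneg zero_le_one
      linarith
    have h4 : B * (CG / Real.sqrt (kX X + 1) * Sg) ≤ 8 * CB * CG * Sg := by
      have e1 : B * (CG / Real.sqrt (kX X + 1) * Sg) =
          (CB * CG) * (Real.sqrt (Real.log X) / Real.sqrt (kX X + 1)) * Sg := by
        rw [hBdef]
        ring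
      rw [e1]
      have h5 : Real.sqrt (Real.log X) / Real.sqrt (kX X + 1) ≤ 8 := by
        rw [div_le_iff₀ hsq]
        exact h3
      have h6 : (CB * CG) * (Real.sqrt (Real.log X) / Real.sqrt (kX X + 1)) ≤ (CB * CG) * 8 :=
        mul_le_mul_of_nonneg_left h5 (by positivity)
      have h7 := mul_le_mul_of_nonneg_right h6 hSg0
      linarith
    have h5 := mul_le_mul_of_nonneg_left h2 hB0
    have e2 : B * (CG / Real.sqrt (kX X + 1) * Sg + CG * (Q : ℝ) ^ 8 * Real.log Q * (1 / 8) ^ kX X) =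
        B * (CG / Real.sqrt (kX X + 1) * Sg) +
          CB * CG * (Real.sqrt (Real.log X) * ((Q : ℝ) ^ 8 * Real.log Q * (1 / 8) ^ kX X)) := by
      rw [hBdef]
      ring
    rw [e2] at h5
    linarith
  refine (Finset.sum_le_sum hone).trans ?_
  rw [Finset.sum_add_distrib, ← Finset.mul_sum, Finset.sum_const, nsmul_eq_mul]
  have hcard : ((PC Q).card : ℝ) ≤ (Q : ℝ) ^ 2 := by exact_mod_cast card_PC_le Q
  set E1 := Real.sqrt (Real.log X) * ((Q : ℝ) ^ 8 * Real.log Q * (1 / 8) ^ kX X) with hE1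
  set E2 := 2 * (Q : ℝ) ^ 7 * B * (CA + 1) / ((Q : ℝ) ^ 8 - 1 - (Q : ℝ) ^ 7) ^ 2 with hE2
  have hE10 : 0 ≤ E1 := by
    have : 0 ≤ Real.log Q := by linarith
    positivity
  have hE20 : 0 ≤ E2 := by positivity
  have he1 : (Q : ℝ) ^ 2 * E1 ≤ 640 * (Q : ℝ) ^ (-7 : ℝ) * (1 / Q) := pg2_err1 hK1280 hreg
  have he2 : (Q : ℝ) ^ 2 * E2 ≤ 8 * (B * (CA + 1)) * (Q : ℝ) ^ (-7 : ℝ) :=
    pg2_err2 hQ4 hB0 (by linarith)
  have hQ76 : (Q : ℝ) ^ (-7 : ℝ) * Q = (Q : ℝ) ^ (-6 : ℝ) := by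
    rw [← Real.rpow_add_one hQ0.ne']
    norm_num
  have hp7 : 0 < (Q : ℝ) ^ (-7 : ℝ) := by positivity
  have hf1 : (Q : ℝ) ^ 2 * (CB * CG * E1) ≤ (Q : ℝ) ^ (-6 : ℝ) / 2 := by
    have hCC : 0 ≤ CB * CG := by positivity
    calc (Q : ℝ) ^ 2 * (CB * CG * E1) = (CB * CG) * ((Q : ℝ) ^ 2 * E1) := by ring
      _ ≤ (CB * CG) * (640 * (Q : ℝ) ^ (-7 : ℝ) * (1 / Q)) := mul_le_mul_of_nonneg_left he1 hCC
      _ = (640 * (CB * CG) * (1 / Q)) * (Q : ℝ) ^ (-7 : ℝ) := by ring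
      _ ≤ (Q / 2) * (Q : ℝ) ^ (-7 : ℝ) := by
          apply mul_le_mul_of_nonneg_right _ hp7.le
          have h1 : 1 / (Q : ℝ) ≤ 1 := by
            rw [div_le_one hQ0]
            linarith
          have h2 : 640 * (CB * CG) * (1 / Q) ≤ 640 * (CB * CG) * 1 :=
            mul_le_mul_of_nonneg_left h1 (by positivity)
          linarith
      _ = (Q : ℝ) ^ (-6 : ℝ) / 2 := by
          rw [← hQ76]
          ring
  have hf2 : (Q : ℝ) ^ 2 * E2 ≤ (Q : ℝ) ^ (-6 : ℝ) / 2 := by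
    refine he2.trans ?_
    have h1 := hlog Q X (hreg.mono hK0 hKK1)
    rw [Real.rpow_one, ← Real.sqrt_eq_rpow] at h1
    have h2 : 8 * (B * (CA + 1)) ≤ Q / 2 := by
      rw [hBdef]
      linarith
    calc 8 * (B * (CA + 1)) * (Q : ℝ) ^ (-7 : ℝ) ≤ (Q / 2) * (Q : ℝ) ^ (-7 : ℝ) :=
          mul_le_mul_of_nonneg_right h2 hp7.le
      _ = (Q : ℝ) ^ (-6 : ℝ) / 2 := by
          rw [← hQ76]
          ring
  have hf3 : ((PC Q).card : ℝ) * (CB * CG * E1 + E2) ≤ (Q : ℝ) ^ 2 * (CB * CG * E1 + E2) :=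
    mul_le_mul_of_nonneg_right hcard (by positivity)
  have e3 : (Q : ℝ) ^ 2 * (CB * CG * E1 + E2) = (Q : ℝ) ^ 2 * (CB * CG * E1) + (Q : ℝ) ^ 2 * E2 := by
    ring
  linarith

end Pool.Agent.Lib.H18Q
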