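import Pool.Agent.Lib.H18Q.R0
import Pool.Agent.Lib.H68T.BPS

/-!
# Project H18Q, chunk R2A: ports of `B_le`, `B0_le` to the regime `RegP`
-/

open Finset

namespace Pool.Agent.Lib.H18Q

open Pool.Agent.Lib.H68T

/-- PORT of `BPS_regime` (end of `H68T/BPS.lean`) to `RegP K Q X : K ≤ log log X ∧ K log log X ≤
log Q ∧ K log Q ≤ log X` (lemmas in `R0.lean`: the same names as in `RegL.lean`). With `K ≥ 100`:
`X ≥ Q^100`, `log (60 X) ≤ Q`. -/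
theorem BPS_regimeP : ∃ K : ℝ, 1 ≤ K ∧ ∀ Q X : ℕ, RegP K Q X →
    1 ≤ Q ∧ 1 ≤ X ∧ 1 ≤ X / Q ^ 2 ∧ 2 * (X / Q ^ 2) ≤ X ∧
    (X : ℝ) ≤ 2 * Q ^ 2 * ((X / Q ^ 2 : ℕ) : ℝ) ∧
    11520 * 700 / (Q : ℝ) ^ 3 + (1 / ((X / Q ^ 2 : ℕ) : ℝ)) *
      (2 * √((60 * X : ℕ) : ℝ) * Real.log ((60 * X : ℕ) : ℝ)) ≤ (Q : ℝ) ^ (-(5 / 2) : ℝ) := by
  obtain ⟨K1, hK1, h1⟩ := regp_log_le 1 1 1 one_pos
  obtain ⟨K2, hK2, h2⟩ := regp_pow_le 128 (11 / 2) (1 / 2) (by norm_num)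
  obtain ⟨K3, hK3, h3⟩ := regp_log_le (2 * (11520 * 700)) 0 (1 / 2) (by norm_num)
  obtain ⟨K4, hK4, h4⟩ := regp_pow_le 2 2 1 one_pos
  refine ⟨60 + K1 + K2 + K3 + K4, by linarith, fun Q X h => ?_⟩
  set K := 60 + K1 + K2 + K3 + K4 with hKdef
  have hK : 1 ≤ K := by linarith
  have hK0 : 0 < K := by linarith
  have e1 := h1 Q X (h.mono hK0.le (by linarith))
  have e2 := h2 Q X (h.mono hK0.le (by linarith))
  have e3 := h3 Q X (h.mono hK0.le (by linarith))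
  have e4 := h4 Q X (h.mono hK0.le (by linarith))
  have hQ0 := h.Q_pos hK
  have hX0 := h.X_pos hK0
  have hXK := h.X_ge hK0
  have hQK := h.Q_ge hK
  have hQ' : (0:ℝ) < Q := by exact_mod_cast hQ0
  have hX' : (0:ℝ) < X := by exact_mod_cast hX0
  have hlX := h.logX_ge_one hK0
  rw [Real.rpow_one, Real.rpow_one, one_mul] at e1
  rw [Real.rpow_one] at e4
  have e4' : 2 * (Q:ℝ) ^ 2 ≤ X := by
    have : ((Q:ℝ) ^ (2:ℝ)) = (Q:ℝ) ^ 2 := by rw [← Real.rpow_natCast]; norm_num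
    rw [this] at e4; exact e4
  have e4n : 2 * Q ^ 2 ≤ X := by exact_mod_cast e4'
  have hQ2 : 2 ≤ Q := by
    have : (2:ℝ) ≤ Q := by linarith
    exact_mod_cast this
  have hQsq : 0 < Q ^ 2 := by positivity
  have hY1 : 1 ≤ X / Q ^ 2 := by
    rw [Nat.one_le_div_iff hQsq]; linarith
  have hYX : 2 * (X / Q ^ 2) ≤ X := by
    have h5 : X / Q ^ 2 ≤ X / 2 := Nat.div_le_div_left (by nlinarith) (by norm_num)
    omega
  have hXY : (X : ℝ) ≤ 2 * Q ^ 2 * ((X / Q ^ 2 : ℕ) : ℝ) := by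
    have h5 : X < Q ^ 2 * (X / Q ^ 2 + 1) := Nat.lt_mul_div_succ X hQsq
    have h6 : X ≤ 2 * Q ^ 2 * (X / Q ^ 2) := by nlinarith
    exact_mod_cast h6
  refine ⟨hQ0, hX0, hY1, hYX, hXY, ?_⟩
  have hY' : (0:ℝ) < ((X / Q ^ 2 : ℕ) : ℝ) := by exact_mod_cast hY1
  set Y : ℝ := ((X / Q ^ 2 : ℕ) : ℝ) with hYdef
  -- first term
  have t1 : 11520 * 700 / (Q : ℝ) ^ 3 ≤ (1 / 2) * (Q : ℝ) ^ (-(5 / 2) : ℝ) := by
    rw [Real.rpow_zero, mul_one] at e3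
    have h5 : (Q : ℝ) ^ (-(5 / 2) : ℝ) = (Q:ℝ) ^ (1 / 2 : ℝ) / (Q:ℝ) ^ 3 := by
      rw [eq_div_iff (by positivity), ← Real.rpow_natCast, ← Real.rpow_add hQ']
      norm_num
    rw [h5, ← mul_div_assoc]
    apply div_le_div_of_nonneg_right _ (by positivity)
    linarith
  have t2 : (1 / Y) * (2 * √((60 * X : ℕ) : ℝ) * Real.log ((60 * X : ℕ) : ℝ)) ≤
      (1 / 2) * (Q : ℝ) ^ (-(5 / 2) : ℝ) := by
    have h5 : 1 / Y ≤ 2 * Q ^ 2 / X := by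
      rw [div_le_div_iff₀ hY' hX']; linarith
    have h6 : √((60 * X : ℕ) : ℝ) ≤ 8 * √(X:ℝ) := by
      rw [Real.sqrt_le_left (by positivity), mul_pow, Real.sq_sqrt hX'.le]
      push_cast
      linarith
    have h7 : Real.log ((60 * X : ℕ) : ℝ) ≤ 2 * Real.log X := by
      push_cast
      rw [Real.log_mul (by norm_num) hX'.ne']
      have := Real.log_le_log (by norm_num : (0:ℝ) < 60) (by linarith : (60:ℝ) ≤ X)
      linarith
    have h8 : 0 ≤ Real.log ((60 * X : ℕ) : ℝ) := by positivity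
    have h9 : √(X:ℝ) = (X:ℝ) ^ (1 / 2 : ℝ) := Real.sqrt_eq_rpow _
    have h10 : (X:ℝ) = √(X:ℝ) * √(X:ℝ) := (Real.mul_self_sqrt hX'.le).symm
    have hs0 : 0 < √(X:ℝ) := Real.sqrt_pos.mpr hX'
    calc (1 / Y) * (2 * √((60 * X : ℕ) : ℝ) * Real.log ((60 * X : ℕ) : ℝ))
        ≤ (2 * Q ^ 2 / X) * (2 * (8 * √(X:ℝ)) * (2 * Q)) := by
          apply mul_le_mul h5 _ (by positivity) (by positivity)
          apply mul_le_mul _ _ h8 (by positivity)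
          · linarith
          · linarith
      _ = 64 * Q ^ 3 / √(X:ℝ) := by
          rw [div_mul_eq_mul_div, div_eq_div_iff hX'.ne' hs0.ne']
          calc 2 * (Q:ℝ) ^ 2 * (2 * (8 * √(X:ℝ)) * (2 * Q)) * √(X:ℝ)
              = 64 * (Q:ℝ) ^ 3 * (√(X:ℝ) * √(X:ℝ)) := by ring
            _ = 64 * (Q:ℝ) ^ 3 * (X:ℝ) := by rw [← h10]
      _ ≤ (1 / 2) * (Q : ℝ) ^ (-(5 / 2) : ℝ) := by
          rw [div_le_iff₀ hs0]
          rw [← h9] at e2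
          have h11 : (Q:ℝ) ^ (-(5 / 2) : ℝ) * (Q:ℝ) ^ (11 / 2 : ℝ) = (Q:ℝ) ^ 3 := by
            rw [← Real.rpow_add hQ', ← Real.rpow_natCast]
            norm_num
          have h12 : 0 < (Q:ℝ) ^ (-(5 / 2) : ℝ) := Real.rpow_pos_of_pos hQ' _
          have h13 := mul_le_mul_of_nonneg_left e2 h12.le
          nlinarith
  linarith

/-- PORT of `B_le` (the proof is the same with `BPS_regimeP`). -/
theorem B_leP : ∃ K : ℝ, 1 ≤ K ∧ ∀ Q X : ℕ, RegP K Q X → ∀ p : Σ r : ℕ, DirichletCharacter ℂ r,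
    1 ≤ p.1 → ∀ m : ℤ, (X : ℤ) ≤ m → m ≤ 4 * X →
    ‖∑ n ∈ Icc 1 (60 * X), ((lp n * tent (X / Q ^ 2) (m - n) : ℝ) : ℂ) * p.2 (n : ZMod p.1)‖ ≤
      (∫ t in (-(Q : ℝ) ^ 7)..((Q : ℝ) ^ 7), ‖FL X p t‖) + (Q : ℝ) ^ (-(5 / 2) : ℝ) := by
  obtain ⟨K, hK1, hK⟩ := BPS_regimeP
  refine ⟨K, hK1, fun Q X h p _ m hm1 hm2 => ?_⟩
  obtain ⟨hQ, hX, hY, hYX, hXY, hbd⟩ := hK Q X h
  have hQ' : (0:ℝ) < Q := by exact_mod_cast hQ
  have h1 := BPS_general hQ hX hY hYX hXY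
    (fun n => (ArithmeticFunction.vonMangoldt n : ℂ) * p.2 (n : ZMod p.1)) (D := 600)
    (by norm_num) (BPS_sum_norm p) m hm1 hm2
  have h2 := BPS_replace (Y := X / Q ^ 2) hX (fun n => p.2 (n : ZMod p.1))
    (fun n => DirichletCharacter.norm_le_one _ _) m
  have h3 := norm_le_norm_add_norm_sub' (∑ n ∈ Icc 1 (60 * X),
    ((lp n * tent (X / Q ^ 2) (m - n) : ℝ) : ℂ) * p.2 (n : ZMod p.1))
    (∑ n ∈ Icc 1 (60 * X), (ArithmeticFunction.vonMangoldt n : ℂ) * p.2 (n : ZMod p.1) *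
      (tent (X / Q ^ 2) (m - n) : ℂ))
  have h4 : 11520 * 600 / (Q:ℝ) ^ 3 ≤ 11520 * 700 / (Q:ℝ) ^ 3 := by
    apply div_le_div_of_nonneg_right _ (by positivity)
    norm_num
  have h5 : (∫ t in (-(Q : ℝ) ^ 7)..((Q : ℝ) ^ 7), ‖FL X p t‖) =
      ∫ t in (-(Q : ℝ) ^ 7)..((Q : ℝ) ^ 7),
        ‖FF X (fun n => (ArithmeticFunction.vonMangoldt n : ℂ) * p.2 (n : ZMod p.1)) t‖ := rfl
  rw [h5]
  linarith

/-- PORT of `B0_le`. -/
theorem B0_leP : ∃ K : ℝ, 1 ≤ K ∧ ∀ Q X : ℕ, RegP K Q X → ∀ m : ℤ, (X : ℤ) ≤ m → m ≤ 4 * X →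
    |∑ n ∈ Icc 1 (60 * X), lp n * tent (X / Q ^ 2) (m - n) - 1| ≤
      (∫ t in (-(Q : ℝ) ^ 7)..((Q : ℝ) ^ 7), ‖FL X p0 t - F0 X t‖) +
        (Q : ℝ) ^ (-(5 / 2) : ℝ) := by
  obtain ⟨K, hK1, hK⟩ := BPS_regimeP
  refine ⟨K, hK1, fun Q X h m hm1 hm2 => ?_⟩
  obtain ⟨hQ, hX, hY, hYX, hXY, hbd⟩ := hK Q X h
  have hQ' : (0:ℝ) < Q := by exact_mod_cast hQ
  have hone : ∀ n : ℕ, p0.2 (n : ZMod p0.1) = 1 := by
    intro n
    have : (n : ZMod 1) = 1 := Subsingleton.elim _ _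
    change (1 : DirichletCharacter ℂ 1) (n : ZMod 1) = 1
    rw [this, map_one]
  have hsum : ∑ n ∈ Icc 1 (60 * X), ‖(ArithmeticFunction.vonMangoldt n : ℂ) - 1‖ ≤ 700 * X := by
    calc ∑ n ∈ Icc 1 (60 * X), ‖(ArithmeticFunction.vonMangoldt n : ℂ) - 1‖
        ≤ ∑ n ∈ Icc 1 (60 * X), (ArithmeticFunction.vonMangoldt n + 1) := by
          apply Finset.sum_le_sum
          intro n _
          refine (norm_sub_le _ _).trans ?_
          rw [Complex.norm_real, Real.norm_of_nonneg ArithmeticFunction.vonMangoldt_nonneg,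
            norm_one]
      _ = ∑ n ∈ Icc 1 (60 * X), ArithmeticFunction.vonMangoldt n + 60 * X := by
          rw [Finset.sum_add_distrib, Finset.sum_const, Nat.card_Icc]
          simp
      _ ≤ 700 * X := by
          have := BPS_sum_vM (X := X)
          have : (0:ℝ) ≤ X := by positivity
          linarith
  have h1 := BPS_general hQ hX hY hYX hXY
    (fun n => (ArithmeticFunction.vonMangoldt n : ℂ) - 1) (D := 700)
    (by norm_num) hsum m hm1 hm2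
  have h2 := BPS_replace (Y := X / Q ^ 2) hX (fun _ => 1) (fun n => by simp) m
  have hmass := BPS_mass (Y := X / Q ^ 2) hY hYX hm1 hm2
  have h3 : ((∑ n ∈ Icc 1 (60 * X), lp n * tent (X / Q ^ 2) (m - n) - 1 : ℝ) : ℂ) =
      (∑ n ∈ Icc 1 (60 * X), ((lp n * tent (X / Q ^ 2) (m - n) : ℝ) : ℂ) * 1 -
        ∑ n ∈ Icc 1 (60 * X), (ArithmeticFunction.vonMangoldt n : ℂ) * 1 *
          (tent (X / Q ^ 2) (m - n) : ℂ)) +
      ∑ n ∈ Icc 1 (60 * X), ((ArithmeticFunction.vonMangoldt n : ℂ) - 1) *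
          (tent (X / Q ^ 2) (m - n) : ℂ) := by
    rw [← hmass]
    push_cast
    simp only [mul_one, sub_mul, one_mul, Finset.sum_sub_distrib]
    ring
  have h4 : |∑ n ∈ Icc 1 (60 * X), lp n * tent (X / Q ^ 2) (m - n) - 1| =
      ‖((∑ n ∈ Icc 1 (60 * X), lp n * tent (X / Q ^ 2) (m - n) - 1 : ℝ) : ℂ)‖ := by
    rw [Complex.norm_real, Real.norm_eq_abs]
  have h5 : (∫ t in (-(Q : ℝ) ^ 7)..((Q : ℝ) ^ 7), ‖FL X p0 t - F0 X t‖) =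
      ∫ t in (-(Q : ℝ) ^ 7)..((Q : ℝ) ^ 7),
        ‖FF X (fun n => (ArithmeticFunction.vonMangoldt n : ℂ) - 1) t‖ := by
    congr 1
    ext t
    congr 1
    unfold FL F0 FF
    rw [← Finset.sum_sub_distrib]
    apply Finset.sum_congr rfl
    intro n _
    simp only [hone]
    ring
  rw [h4, h5, h3]
  refine (norm_add_le _ _).trans ?_
  linarith

end Pool.Agent.Lib.H18Q
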