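import Pool.Agent.Lib.H18Q.QDefs
import Pool.Agent.Lib.H68X.XRH
import Pool.Agent.Lib.H51D.DHF

/-!
# Project H18Q, chunk S1: the sieve majorant twisted by a product of two primitive characters

`G z n = ∑_{q ≤ z} μ(q)/φ(q) c_q(n)` (defined in `H68T/Defs`).
-/

open Finset

namespace Pool.Agent.Lib.H18Q

open Pool.Agent.Lib.H68T

theorem s1_ne (r r' : ℕ) [NeZero r] [NeZero r'] (χ : DirichletCharacter ℂ r)
    (χ' : DirichletCharacter ℂ r') (hp : χ.IsPrimitive) (hp' : χ'.IsPrimitive)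
    (hne : (⟨r, χ⟩ : Σ r : ℕ, DirichletCharacter ℂ r) ≠ ⟨r', χ'⟩) :
    (DirichletCharacter.changeLevel (Dvd.intro r' rfl) χ *
      DirichletCharacter.changeLevel (Dvd.intro_left r rfl) χ'⁻¹ :
        DirichletCharacter ℂ (r * r')) ≠ 1 := by
  intro h
  have hN : NeZero (r * r') := inferInstance
  have heq : DirichletCharacter.changeLevel (Dvd.intro r' rfl) χ =
      DirichletCharacter.changeLevel (Dvd.intro_left r rfl) χ' := by
    rw [map_inv, mul_inv_eq_one] at h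
    exact h
  have hc₁ : (DirichletCharacter.changeLevel (Dvd.intro r' rfl : r ∣ r * r') χ).conductor = r := by
    rw [DirichletCharacter.conductor_changeLevel]
    exact hp
  have hc₂ : (DirichletCharacter.changeLevel (Dvd.intro_left r rfl : r' ∣ r * r') χ').conductor =
      r' := by
    rw [DirichletCharacter.conductor_changeLevel]
    exact hp'
  have hr : r = r' := by
    rw [← hc₁, heq, hc₂]
  subst hr
  apply hne
  have hinj := DirichletCharacter.changeLevel_injective (R := ℂ)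
    (Dvd.intro r rfl : r ∣ r * r)
  have : χ = χ' := hinj heq
  rw [this]

theorem s1_conj {r : ℕ} (χ : DirichletCharacter ℂ r) (a : ZMod r) :
    (starRingEnd ℂ) (χ a) = χ⁻¹ a := MulChar.star_apply' χ a

theorem s1_reindex (M N D : ℕ) (hD : 1 ≤ D) (f : ℕ → ℂ) :
    ∑ n ∈ (Ioc M (M + N)).filter (fun n => D ∣ n), f n =
      ∑ m ∈ Ioc (M / D) ((M + N) / D), f (D * m) := by
  symm
  apply Finset.sum_bij (fun m _ => D * m)
  · intro m hm
    rw [mem_Ioc, Nat.div_lt_iff_lt_mul (by omega), Nat.le_div_iff_mul_le (by omega)] at hm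
    rw [mem_filter, mem_Ioc, mul_comm D m]
    exact ⟨hm, Dvd.intro_left m rfl⟩
  · intro a _ b _ h
    exact Nat.eq_of_mul_eq_mul_left (by omega) h
  · intro n hn
    rw [mem_filter, mem_Ioc] at hn
    obtain ⟨hn1, m, rfl⟩ := hn
    refine ⟨m, ?_, rfl⟩
    rw [mem_Ioc, Nat.div_lt_iff_lt_mul (by omega), Nat.le_div_iff_mul_le (by omega), mul_comm m D]
    exact hn1
  · intro m _
    rfl

/-- `χ conj χ'` is a non-principal character modulo `r r'` for different primitive characters, so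
its sums over intervals, and over the multiples of `D` in an interval, are at most `r r' ≤ Q²`.

Proof. `changeLevel` of `χ` and of `χ'` to level `r r'` differ (`KER_sigma_eq` in `H68T/KER` shows
that equal lifts of primitive characters have, with equal conductors, equal pairs; the conductor of
a lift is the conductor, `DirichletCharacter.changeLevel...`/`conductor` lemmas used in
`H68T/KER`), so `χ χ'⁻¹` at level `r r'` is not `1` and its values are `χ(n) conj χ'(n)`. For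
`D ∣ n`, `n = D m`: the sum is `χ χ'^bar(D)` times a sum over consecutive `m`; the sum over `r r'`
consecutive `m` vanishes (`gl1_period`, or `XRH_Ioc` in `H68X/XRH`: `‖∑_{d ∈ Ioc a b} ψ d‖ ≤ r`
for `ψ ≠ 1` modulo `r`). The multiples of `D ≥ 1` in `(M, M+N]` are `D m`, `m ∈ Ioc (M/D)
((M+N)/D)`. -/
theorem S1_mult (Q : ℕ) (p p' : Σ r : ℕ, DirichletCharacter ℂ r) (hp : p ∈ PC Q)
    (hp' : p' ∈ PC Q) (hne : p ≠ p') (M N D : ℕ) (hD : 1 ≤ D) :
    ‖∑ n ∈ (Ioc M (M + N)).filter (fun n => D ∣ n), p.2 (n : ZMod p.1) *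
      (starRingEnd ℂ) (p'.2 (n : ZMod p'.1))‖ ≤ (Q : ℝ) ^ 2 := by
  obtain ⟨r, χ⟩ := p
  obtain ⟨r', χ'⟩ := p'
  have h1 := mem_PC.mp hp
  have h2 := mem_PC.mp hp'
  simp only at h1 h2
  have : NeZero r := ⟨by omega⟩
  have : NeZero r' := ⟨by omega⟩
  have hξ := s1_ne r r' χ χ' h1.2.2 h2.2.2 hne
  rw [s1_reindex M N D hD]
  have e1 : ∑ m ∈ Ioc (M / D) ((M + N) / D), χ ((D * m : ℕ) : ZMod r) *
      (starRingEnd ℂ) (χ' ((D * m : ℕ) : ZMod r')) =
      (χ (D : ZMod r) * (starRingEnd ℂ) (χ' (D : ZMod r'))) *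
      ∑ m ∈ Ioc (M / D) ((M + N) / D),
        (DirichletCharacter.changeLevel (Dvd.intro r' rfl) χ *
        DirichletCharacter.changeLevel (Dvd.intro_left r rfl) χ'⁻¹ :
        DirichletCharacter ℂ (r * r')) (m : ZMod (r * r')) := by
    rw [mul_sum]
    refine sum_congr rfl fun m _ => ?_
    rw [DHF_val r r' χ χ'⁻¹ m, ← s1_conj]
    push_cast
    rw [map_mul, map_mul, map_mul]
    ring
  simp only
  rw [e1, norm_mul, norm_mul, RCLike.norm_conj]
  have h3 := XRH_Ioc (r * r') _ hξ (M / D) ((M + N) / D)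
  have h4 : ‖χ (D : ZMod r)‖ * ‖χ' (D : ZMod r')‖ ≤ 1 :=
    mul_le_one₀ (DirichletCharacter.norm_le_one χ _) (norm_nonneg _)
      (DirichletCharacter.norm_le_one χ' _)
  have h5 : ((r * r' : ℕ) : ℝ) ≤ (Q : ℝ) ^ 2 := by
    have : r * r' ≤ Q ^ 2 := by
      rw [pow_two]
      exact Nat.mul_le_mul h1.2.1 h2.2.1
    exact_mod_cast this
  calc _ ≤ 1 * ((r * r' : ℕ) : ℝ) :=
        mul_le_mul h4 h3 (norm_nonneg _) zero_le_one
    _ ≤ _ := by rw [one_mul]; exact h5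

/-- `G z n = ∑_{d ≤ z, d ∣ n} g_d` with `|g_d| ≤ z²`: interchange the sums in the definitions of
`G` and `cq`, `g_d = d ∑_{q ≤ z, d ∣ q} μ(q) μ(q/d)/φ(q)`, `|g_d| ≤ d z ≤ z²`. -/
theorem S1_G (z : ℕ) : ∃ g : ℕ → ℝ, (∀ d, |g d| ≤ (z : ℝ) ^ 2) ∧
    ∀ n : ℕ, G z n = ∑ d ∈ (Icc 1 z).filter (fun d => d ∣ n), g d := by
  refine ⟨fun d => ∑ q ∈ (Icc 1 z).filter (fun q => d ∣ q),
    (ArithmeticFunction.moebius q : ℝ) / (Nat.totient q : ℝ) *
      ((d : ℝ) * (ArithmeticFunction.moebius (q / d) : ℝ)), fun d => ?_, fun n => ?_⟩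
  · refine (abs_sum_le_sum_abs _ _).trans ?_
    have h1 : ∀ q ∈ (Icc 1 z).filter (fun q => d ∣ q),
        |(ArithmeticFunction.moebius q : ℝ) / (Nat.totient q : ℝ) *
      ((d : ℝ) * (ArithmeticFunction.moebius (q / d) : ℝ))| ≤ z := by
      intro q hq
      rw [mem_filter, mem_Icc] at hq
      have hdz : (d : ℝ) ≤ z := by
        have := Nat.le_of_dvd (by omega) hq.2
        exact_mod_cast this.trans hq.1.2
      have hμ : ∀ k : ℕ, |(ArithmeticFunction.moebius k : ℝ)| ≤ 1 := by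
        intro k
        have := ArithmeticFunction.abs_moebius_le_one (n := k)
        exact_mod_cast this
      have hφ : (1 : ℝ) ≤ (Nat.totient q : ℝ) := by
        exact_mod_cast Nat.totient_pos.mpr (by omega)
      rw [abs_mul, abs_mul, abs_div, abs_of_pos (by linarith : (0 : ℝ) < (Nat.totient q : ℝ)),
        abs_of_nonneg (Nat.cast_nonneg d : (0 : ℝ) ≤ (d : ℝ))]
      have h2 : |(ArithmeticFunction.moebius q : ℝ)| / (Nat.totient q : ℝ) ≤ 1 := by
        rw [div_le_one (by linarith)]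
        exact (hμ q).trans hφ
      have h3 : (d : ℝ) * |(ArithmeticFunction.moebius (q / d) : ℝ)| ≤ z := by
        calc _ ≤ (z : ℝ) * 1 := mul_le_mul hdz (hμ _) (abs_nonneg _) (Nat.cast_nonneg _)
          _ = z := mul_one _
      calc _ ≤ 1 * (z : ℝ) := mul_le_mul h2 h3 (by positivity) zero_le_one
        _ = z := one_mul _
    refine (sum_le_sum h1).trans ?_
    rw [sum_const, nsmul_eq_mul, pow_two]
    apply mul_le_mul_of_nonneg_right _ (Nat.cast_nonneg _)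
    have := card_filter_le (Icc 1 z) (fun q => d ∣ q)
    rw [Nat.card_Icc, Nat.add_sub_cancel] at this
    exact_mod_cast this
  · unfold G cq
    simp only [mul_sum]
    apply sum_comm'
    intro q d
    simp only [mem_filter, mem_Icc, Nat.mem_divisors, Int.natCast_dvd_natCast]
    constructor
    · rintro ⟨⟨h1, h2⟩, ⟨h3, h4⟩, h5⟩
      have h6 := Nat.le_of_dvd (by omega) h3
      have h7 := Nat.pos_of_dvd_of_pos h3 (by omega)
      exact ⟨⟨⟨h1, h2⟩, h3⟩, ⟨by omega, by omega⟩, h5⟩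
    · rintro ⟨⟨⟨h1, h2⟩, h3⟩, ⟨_, _⟩, h5⟩
      exact ⟨⟨h1, h2⟩, ⟨h3, by omega⟩, h5⟩

/-- Off-diagonal bound. Proof: expand `(G z n)²` by `S1_G` as a sum over pairs `d, d' ≤ z` with
`lcm d d' ∣ n` (`z²` pairs, coefficients at most `z^4`), and use `S1_mult`. -/
theorem S1_off (Q : ℕ) (p p' : Σ r : ℕ, DirichletCharacter ℂ r) (hp : p ∈ PC Q)
    (hp' : p' ∈ PC Q) (hne : p ≠ p') (M N z : ℕ) :
    ‖∑ n ∈ Ioc M (M + N), ((G z n ^ 2 : ℝ) : ℂ) * (p.2 (n : ZMod p.1) *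
      (starRingEnd ℂ) (p'.2 (n : ZMod p'.1)))‖ ≤ (z : ℝ) ^ 6 * (Q : ℝ) ^ 2 := by
  obtain ⟨g, hg, hG⟩ := S1_G z
  have e1 : ∀ n : ℕ, ((G z n ^ 2 : ℝ) : ℂ) = ∑ d ∈ Icc 1 z, ∑ d' ∈ Icc 1 z,
      if Nat.lcm d d' ∣ n then ((g d * g d' : ℝ) : ℂ) else 0 := by
    intro n
    rw [hG, sum_filter, pow_two, sum_mul_sum]
    push_cast
    refine sum_congr rfl fun d _ => sum_congr rfl fun d' _ => ?_
    by_cases h1 : d ∣ n
    · by_cases h2 : d' ∣ n
      · rw [if_pos h1, if_pos h2, if_pos (Nat.lcm_dvd h1 h2)]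
      · rw [if_neg h2, if_neg (fun h => h2 ((Nat.dvd_lcm_right d d').trans h))]
        simp
    · rw [if_neg h1, if_neg (fun h => h1 ((Nat.dvd_lcm_left d d').trans h))]
      simp
  have e2 : ∑ n ∈ Ioc M (M + N), ((G z n ^ 2 : ℝ) : ℂ) * (p.2 (n : ZMod p.1) *
      (starRingEnd ℂ) (p'.2 (n : ZMod p'.1))) =
      ∑ d ∈ Icc 1 z, ∑ d' ∈ Icc 1 z, ((g d * g d' : ℝ) : ℂ) *
        ∑ n ∈ (Ioc M (M + N)).filter (fun n => Nat.lcm d d' ∣ n), p.2 (n : ZMod p.1) *
          (starRingEnd ℂ) (p'.2 (n : ZMod p'.1)) := by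
    simp only [e1, sum_mul, mul_sum, sum_filter]
    rw [sum_comm]
    refine sum_congr rfl fun d _ => ?_
    rw [sum_comm]
    refine sum_congr rfl fun d' _ => sum_congr rfl fun n _ => ?_
    split_ifs <;> simp
  rw [e2]
  have hterm : ∀ d ∈ Icc 1 z, ∀ d' ∈ Icc 1 z, ‖((g d * g d' : ℝ) : ℂ) *
        ∑ n ∈ (Ioc M (M + N)).filter (fun n => Nat.lcm d d' ∣ n), p.2 (n : ZMod p.1) *
          (starRingEnd ℂ) (p'.2 (n : ZMod p'.1))‖ ≤ (z : ℝ) ^ 4 * (Q : ℝ) ^ 2 := by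
    intro d hd d' hd'
    rw [mem_Icc] at hd hd'
    rw [norm_mul, Complex.norm_real, Real.norm_eq_abs, abs_mul]
    have h1 : |g d| * |g d'| ≤ (z : ℝ) ^ 4 := by
      calc _ ≤ (z : ℝ) ^ 2 * (z : ℝ) ^ 2 :=
            mul_le_mul (hg d) (hg d') (abs_nonneg _) (by positivity)
        _ = _ := by ring
    have hl : 1 ≤ Nat.lcm d d' := Nat.lcm_pos (by omega) (by omega)
    exact mul_le_mul h1 (S1_mult Q p p' hp hp' hne M N _ hl) (norm_nonneg _) (by positivity)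
  calc _ ≤ ∑ d ∈ Icc 1 z, ‖∑ d' ∈ Icc 1 z, ((g d * g d' : ℝ) : ℂ) *
        ∑ n ∈ (Ioc M (M + N)).filter (fun n => Nat.lcm d d' ∣ n), p.2 (n : ZMod p.1) *
          (starRingEnd ℂ) (p'.2 (n : ZMod p'.1))‖ := norm_sum_le _ _
    _ ≤ ∑ d ∈ Icc 1 z, ∑ d' ∈ Icc 1 z, ((z : ℝ) ^ 4 * (Q : ℝ) ^ 2) := by
        refine sum_le_sum fun d hd => (norm_sum_le _ _).trans (sum_le_sum fun d' hd' => ?_)
        exact hterm d hd d' hd'
    _ = _ := by
        simp only [sum_const, Nat.card_Icc, Nat.add_sub_cancel, nsmul_eq_mul]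
        ring

end Pool.Agent.Lib.H18Q
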