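import Pool.Agent.Lib.H18Q.QDefs
import Pool.Agent.Lib.H18E.PG

/-!
# Project H18Q, chunk S2: the mean value of the sieve majorant
-/

open Finset

namespace Pool.Agent.Lib.H18Q

open Pool.Agent.Lib.H68T

/-- `V z = ∑_{q ≤ z} μ²(q)/φ(q)`. -/
noncomputable def Vz (z : ℕ) : ℝ :=
  ∑ q ∈ Icc 1 z, (ArithmeticFunction.moebius q : ℝ) ^ 2 / (Nat.totient q : ℝ)

theorem s2_rad (n : ℕ) (hn : n ≠ 0) : Squarefree (∏ p ∈ n.primeFactors, p) ∧
    (∏ p ∈ n.primeFactors, p).primeFactors = n.primeFactors := by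
  refine ⟨?_, Nat.primeFactors_prod fun p hp => Nat.prime_of_mem_primeFactors hp⟩
  rw [← Nat.radical_eq_prod_primeFactors]
  exact UniqueFactorizationMonoid.squarefree_radical

/-- The sum of `1/n` over numbers with radical `q`. -/
theorem s2_fiber (q z : ℕ) (hq : Squarefree q) :
    ∑ n ∈ (Icc 1 z).filter (fun n => ∏ p ∈ n.primeFactors, p = q), (1 : ℝ) / n ≤
      1 / (Nat.totient q : ℝ) := by
  classical
  have hq0 : q ≠ 0 := hq.ne_zero
  have hqR : (0 : ℝ) < q := by exact_mod_cast Nat.pos_of_ne_zero hq0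
  let f : ℕ →* ℝ :=
    { toFun := fun n => (n : ℝ)⁻¹
      map_one' := by simp
      map_mul' := fun a b => by push_cast; rw [mul_inv] }
  have hf : ∀ {p : ℕ}, p.Prime → ‖f p‖ < 1 := by
    intro p hp
    have h2 : (1 : ℝ) < p := by exact_mod_cast hp.one_lt
    change ‖(p : ℝ)⁻¹‖ < 1
    rw [Real.norm_of_nonneg (by positivity)]
    exact inv_lt_one_of_one_lt₀ h2
  obtain ⟨hs, hS⟩ :=
    EulerProduct.summable_and_hasSum_factoredNumbers_prod_filter_prime_geometric hf q.primeFactors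
  have hprod : ∏ p ∈ q.primeFactors with p.Prime, (1 - f p)⁻¹ = (q : ℝ) / (Nat.totient q : ℝ) := by
    have h1 : q.primeFactors.filter (fun p => p.Prime) = q.primeFactors :=
      Finset.filter_true_of_mem fun p hp => Nat.prime_of_mem_primeFactors hp
    have h2 : (Nat.totient q : ℝ) = q * ∏ p ∈ q.primeFactors, (1 - (p : ℝ)⁻¹) := by
      have := Nat.totient_eq_mul_prod_factors q
      have h3 : ((Nat.totient q : ℚ) : ℝ) = ((q * ∏ p ∈ q.primeFactors, (1 - (p : ℚ)⁻¹) : ℚ) : ℝ) := by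
        rw [this]
      push_cast at h3
      exact h3
    rw [h1, h2, Finset.prod_inv_distrib]
    have h3 : ∏ p ∈ q.primeFactors, (1 - f p) = ∏ p ∈ q.primeFactors, (1 - (p : ℝ)⁻¹) := rfl
    rw [h3]
    have h4 : ∏ p ∈ q.primeFactors, (1 - (p : ℝ)⁻¹) ≠ 0 := by
      rw [Finset.prod_ne_zero_iff]
      intro p hp
      have hp' := Nat.prime_of_mem_primeFactors hp
      have h5 : (1 : ℝ) < p := by exact_mod_cast hp'.one_lt
      have h6 : (p : ℝ)⁻¹ < 1 := inv_lt_one_of_one_lt₀ h5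
      linarith
    field_simp
  rw [hprod] at hS
  set A := (Icc 1 z).filter (fun n => ∏ p ∈ n.primeFactors, p = q) with hA
  have hmem : ∀ n ∈ A, q ∣ n ∧ n ≠ 0 ∧ n / q ∈ Nat.factoredNumbers q.primeFactors := by
    intro n hn
    rw [hA, Finset.mem_filter, Finset.mem_Icc] at hn
    obtain ⟨⟨h1, -⟩, h2⟩ := hn
    have hn0 : n ≠ 0 := by omega
    have hd : q ∣ n := by
      rw [← h2]; exact Nat.prod_primeFactors_dvd n
    refine ⟨hd, hn0, ?_⟩
    rw [Nat.mem_factoredNumbers_iff_primeFactors_subset]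
    have h3 : n / q ≠ 0 := (Nat.div_pos (Nat.le_of_dvd (by omega) hd) (by omega)).ne'
    refine ⟨h3, ?_⟩
    have h4 : (n / q).primeFactors ⊆ n.primeFactors :=
      Nat.primeFactors_mono (Nat.div_dvd_of_dvd hd) hn0
    refine h4.trans ?_
    rw [← (s2_rad n hn0).2, h2]
  -- compare with the sum over the factored numbers
  have hle : ∑ n ∈ A, (1 : ℝ) / ((n / q : ℕ) : ℝ) ≤ (q : ℝ) / (Nat.totient q : ℝ) := by
    let g : A → Nat.factoredNumbers q.primeFactors := fun n => ⟨n.1 / q, (hmem n.1 n.2).2.2⟩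
    have hg : Function.Injective g := by
      intro a b hab
      have h1 : a.1 / q = b.1 / q := congrArg Subtype.val hab
      have h2 := Nat.div_mul_cancel (hmem a.1 a.2).1
      have h3 := Nat.div_mul_cancel (hmem b.1 b.2).1
      apply Subtype.ext
      rw [← h2, ← h3, h1]
    have h1 : ∑ n ∈ A, (1 : ℝ) / ((n / q : ℕ) : ℝ) = ∑ n : A, f (g n) := by
      rw [← Finset.sum_coe_sort A]
      refine Finset.sum_congr rfl fun n _ => ?_
      change (1 : ℝ) / ((n.1 / q : ℕ) : ℝ) = (((n.1 / q : ℕ)) : ℝ)⁻¹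
      rw [one_div]
    have h2 : ∑ n : A, f (g n) =
        ∑ m ∈ (Finset.univ : Finset A).map ⟨g, hg⟩, f m := by
      rw [Finset.sum_map]
      rfl
    rw [h1, h2]
    refine sum_le_hasSum _ (fun m _ => ?_) hS
    change (0 : ℝ) ≤ ((m : ℕ) : ℝ)⁻¹
    positivity
  have h1 : ∑ n ∈ A, (1 : ℝ) / n = (1 / q) * ∑ n ∈ A, (1 : ℝ) / ((n / q : ℕ) : ℝ) := by
    rw [Finset.mul_sum]
    refine Finset.sum_congr rfl fun n hn => ?_
    have h2 := Nat.div_mul_cancel (hmem n hn).1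
    have h3 : (n : ℝ) = ((n / q : ℕ) : ℝ) * q := by exact_mod_cast h2.symm
    rw [div_mul_div_comm, one_mul, mul_comm (q : ℝ), ← h3]
  rw [h1]
  calc (1 / (q : ℝ)) * ∑ n ∈ A, (1 : ℝ) / ((n / q : ℕ) : ℝ)
      ≤ (1 / (q : ℝ)) * ((q : ℝ) / (Nat.totient q : ℝ)) :=
        mul_le_mul_of_nonneg_left hle (by positivity)
    _ = 1 / (Nat.totient q : ℝ) := by field_simp

/-- `V z ≥ log z`: `∑_{q ≤ z} μ²(q)/φ(q) ≥ ∑_{n ≤ z} 1/n ≥ log z`
(`1/φ(q) = ∑_{n : rad n = q} 1/n` for squarefree `q`; `n ≤ z` has `rad n ≤ z`). See `ss_low` or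
`SS1_sum` in `Lib/H18E`, or Mathlib's Selberg sieve, if helpful. -/
theorem Vz_ge (z : ℕ) (hz : 1 ≤ z) : Real.log z ≤ Vz z := by
  classical
  have h1 : Real.log z ≤ ∑ n ∈ Icc 1 z, (1 : ℝ) / n := by
    have h2 := log_add_one_le_harmonic z
    have h3 : (harmonic z : ℝ) = ∑ n ∈ Icc 1 z, (1 : ℝ) / n := by
      rw [harmonic_eq_sum_Icc]
      push_cast
      exact Finset.sum_congr rfl fun n _ => by rw [one_div]
    rw [h3] at h2
    refine le_trans (Real.log_le_log (by exact_mod_cast hz) ?_) h2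
    push_cast
    linarith
  refine h1.trans ?_
  have hmaps : ∀ n ∈ Icc 1 z, (∏ p ∈ n.primeFactors, p) ∈ (Icc 1 z).filter Squarefree := by
    intro n hn
    rw [Finset.mem_Icc] at hn
    rw [Finset.mem_filter, Finset.mem_Icc]
    have hn0 : n ≠ 0 := by omega
    have h2 := (s2_rad n hn0).1
    refine ⟨⟨Nat.pos_of_ne_zero h2.ne_zero, ?_⟩, h2⟩
    exact (Nat.le_of_dvd (by omega) (Nat.prod_primeFactors_dvd n)).trans hn.2
  rw [← Finset.sum_fiberwise_of_maps_to hmaps]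
  have h2 : ∑ q ∈ (Icc 1 z).filter Squarefree, (1 : ℝ) / (Nat.totient q : ℝ) = Vz z := by
    unfold Vz
    rw [Finset.sum_filter]
    refine Finset.sum_congr rfl fun q _ => ?_
    by_cases hq : Squarefree q
    · rw [if_pos hq]
      have h3 : (ArithmeticFunction.moebius q : ℤ) ^ 2 = 1 := by
        rw [ArithmeticFunction.moebius_sq, if_pos hq]
      have h4 : (ArithmeticFunction.moebius q : ℝ) ^ 2 = 1 := by exact_mod_cast h3
      rw [h4]
    · rw [if_neg hq, ArithmeticFunction.moebius_eq_zero_of_not_squarefree hq]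
      simp
  rw [← h2]
  refine Finset.sum_le_sum fun q hq => ?_
  exact s2_fiber q z (Finset.mem_filter.1 hq).2

theorem Vz_ge_one (z : ℕ) (hz : 1 ≤ z) : 1 ≤ Vz z := by
  unfold Vz
  have h1 : (1 : ℝ) = ∑ q ∈ ({1} : Finset ℕ),
      (ArithmeticFunction.moebius q : ℝ) ^ 2 / (Nat.totient q : ℝ) := by simp
  rw [h1]
  refine Finset.sum_le_sum_of_subset_of_nonneg ?_ fun q _ _ => by positivity
  intro q hq
  rw [Finset.mem_singleton] at hq
  rw [hq, Finset.mem_Icc]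
  omega

/-- For a prime `n > z`: `c_q(n) = μ(q)` for `q ≤ z` (only `d = 1` divides both), so
`G z n = V z`. -/
theorem G_prime (z n : ℕ) (hn : n.Prime) (hzn : z < n) : G z n = Vz z := by
  unfold G Vz
  refine Finset.sum_congr rfl fun q hq => ?_
  rw [Finset.mem_Icc] at hq
  have h1 : cq q (n : ℤ) = (ArithmeticFunction.moebius q : ℝ) := by
    unfold cq
    have h2 : q.divisors.filter (fun d : ℕ => (d : ℤ) ∣ (n : ℤ)) = {1} := by
      ext d
      rw [Finset.mem_filter, Nat.mem_divisors, Finset.mem_singleton, Int.natCast_dvd_natCast]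
      constructor
      · rintro ⟨⟨h3, h4⟩, h5⟩
        rcases (Nat.dvd_prime hn).1 h5 with h6 | h6
        · exact h6
        · exfalso
          have := Nat.le_of_dvd (by omega) h3
          omega
      · rintro rfl
        exact ⟨⟨one_dvd _, by omega⟩, one_dvd _⟩
    rw [h2, Finset.sum_singleton]
    simp
  rw [h1]
  ring

/-- Mean square of `G z` over an interval: `∑_{n ∈ (M, M+N]} G(z,n)² ≤ N V + z^8`.

Proof. `c_q(n) = ∑_{a mod q, (a,q)=1} e(a n/q)`-free proof: `∑_{n ∈ (M, M+N]} c_q(n) c_q'(n) =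
∑_{d ∣ q, d' ∣ q'} d d' μ(q/d) μ(q'/d') #{n : lcm(d,d') ∣ n}`, and `# = N/lcm(d,d') + θ`,
`|θ| ≤ 1`. The main part is `N ∑_{d ∣ q} ∑_{d' ∣ q'} μ(q/d) μ(q'/d') gcd(d,d') = N φ(q) 1[q = q']`
(`gcd(d,d') = ∑_{e ∣ d, e ∣ d'} φ(e)` and Möbius inversion: `∑_{d ∣ q} μ(q/d) 1[e ∣ d] = 1[e = q]`);
the error is at most `(∑_{d ∣ q} d)(∑_{d' ∣ q'} d') ≤ (z²)(z²) = z^4`. Then
`∑ G² = ∑_{q,q'} μ(q) μ(q')/(φ(q) φ(q')) ∑_n c_q c_q' ≤ N ∑_q μ²(q)/φ(q) + z² z^4`. (The same
computation, for shifted arguments, is in `H68T` (search `corr`, file `CG1`) and `H18E`.) -/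
theorem G_sq_sum (z M N : ℕ) :
    ∑ n ∈ Ioc M (M + N), G z n ^ 2 ≤ N * Vz z + (z : ℝ) ^ 8 := by
  have hcast : ∀ k : ℕ, (ArithmeticFunction.moebius k : ℝ) ^ 2 ≤ 1 := by
    intro k
    have := cg1_abs_moebius_le k
    rw [sq_le_one_iff_abs_le_one]
    exact this
  have hsum : ∑ n ∈ Ioc M (M + N), G z n ^ 2 =
      ∑ c ∈ range N, G z (((M + 1 : ℕ) : ℤ) + (1 : ℕ) * (c : ℕ)) ^ 2 := by
    have h1 : Ioc M (M + N) = (range N).image (fun c => M + 1 + c) := by
      ext n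
      rw [Finset.mem_Ioc, Finset.mem_image]
      constructor
      · rintro ⟨h1, h2⟩
        exact ⟨n - (M + 1), Finset.mem_range.2 (by omega), by omega⟩
      · rintro ⟨c, hc, rfl⟩
        rw [Finset.mem_range] at hc
        omega
    rw [h1, Finset.sum_image]
    · refine Finset.sum_congr rfl fun c _ => ?_
      congr 2
      push_cast
      ring
    · intro a _ b _ hab
      simpa using hab
  rw [hsum]
  set x : ℤ := ((M + 1 : ℕ) : ℤ) with hx
  set a : ℕ → ℝ := fun q => (ArithmeticFunction.moebius q : ℝ) / (Nat.totient q : ℝ) with ha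
  have hexp : ∑ c ∈ range N, G z (x + (1 : ℕ) * (c : ℕ)) ^ 2 =
      ∑ q₁ ∈ Icc 1 z, ∑ q₂ ∈ Icc 1 z, a q₁ * a q₂ *
        ∑ c ∈ range N, cq q₁ (x + (1 : ℕ) * (c : ℕ)) * cq q₂ (x + (1 : ℕ) * (c : ℕ)) := by
    have h1 : ∀ c ∈ range N, G z (x + (1 : ℕ) * (c : ℕ)) ^ 2 =
        ∑ q₁ ∈ Icc 1 z, ∑ q₂ ∈ Icc 1 z, a q₁ * a q₂ *
          (cq q₁ (x + (1 : ℕ) * (c : ℕ)) * cq q₂ (x + (1 : ℕ) * (c : ℕ))) := by
      intro c _
      unfold G
      rw [sq, Finset.sum_mul_sum]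
      refine Finset.sum_congr rfl fun q₁ _ => Finset.sum_congr rfl fun q₂ _ => ?_
      simp only [ha]
      ring
    rw [Finset.sum_congr rfl h1, Finset.sum_comm]
    refine Finset.sum_congr rfl fun q₁ _ => ?_
    rw [Finset.sum_comm]
    refine Finset.sum_congr rfl fun q₂ _ => ?_
    rw [Finset.mul_sum]
  rw [hexp]
  have hsig : ∀ q ∈ Icc 1 z, ∑ d ∈ q.divisors, (d : ℝ) ≤ (z : ℝ) ^ 2 := by
    intro q hq
    rw [Finset.mem_Icc] at hq
    have hqz : (q : ℝ) ≤ z := by exact_mod_cast hq.2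
    calc ∑ d ∈ q.divisors, (d : ℝ) ≤ ∑ d ∈ q.divisors, (q : ℝ) :=
          Finset.sum_le_sum fun d hd => by exact_mod_cast Nat.divisor_le hd
      _ = (q.divisors.card : ℝ) * q := by rw [Finset.sum_const, nsmul_eq_mul]
      _ ≤ (q : ℝ) * q := by
          refine mul_le_mul_of_nonneg_right ?_ (by positivity)
          exact_mod_cast Nat.card_divisors_le_self q
      _ ≤ (z : ℝ) ^ 2 := by
          rw [sq]
          exact mul_le_mul hqz hqz (by positivity) (by positivity)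
  have hsig0 : ∀ q : ℕ, 0 ≤ ∑ d ∈ q.divisors, (d : ℝ) := fun q =>
    Finset.sum_nonneg fun d _ => by positivity
  have ha1 : ∀ q ∈ Icc 1 z, |a q| ≤ 1 := by
    intro q hq
    rw [Finset.mem_Icc] at hq
    simp only [ha]
    rw [abs_div]
    have h1 : (1 : ℝ) ≤ (Nat.totient q : ℝ) := by
      exact_mod_cast Nat.totient_pos.2 (by omega)
    rw [abs_of_nonneg (by linarith : (0 : ℝ) ≤ (Nat.totient q : ℝ)), div_le_one (by linarith)]
    exact (cg1_abs_moebius_le q).trans h1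
  have hcq0 : ∀ q ∈ Icc 1 z, cq q 0 = (Nat.totient q : ℝ) := by
    intro q hq
    rw [Finset.mem_Icc] at hq
    have h2 := cg1_moebius (fun i => (Nat.totient i : ℝ)) (fun n => (n : ℝ))
      (fun n _ => by exact_mod_cast Nat.sum_totient n) q (by omega)
    rw [← h2]
    unfold cq
    simp only [dvd_zero, Finset.filter_true]
    exact Finset.sum_congr rfl fun d _ => mul_comm _ _
  have hterm : ∀ q₁ ∈ Icc 1 z, ∀ q₂ ∈ Icc 1 z, a q₁ * a q₂ *
        ∑ c ∈ range N, cq q₁ (x + (1 : ℕ) * (c : ℕ)) * cq q₂ (x + (1 : ℕ) * (c : ℕ)) ≤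
      a q₁ * a q₂ * (N * (if q₁ = q₂ then cq q₁ (x - x) else 0)) + (z : ℝ) ^ 4 := by
    intro q₁ h₁ q₂ h₂
    have h₁' := Finset.mem_Icc.1 h₁
    have h₂' := Finset.mem_Icc.1 h₂
    have h3 := Pool.Agent.Lib.H18E.corr_gen q₁ q₂ 1 N x x (by omega) (by omega)
      (Nat.coprime_one_right _) (Nat.coprime_one_right _)
    set S := ∑ c ∈ range N, cq q₁ (x + (1 : ℕ) * (c : ℕ)) * cq q₂ (x + (1 : ℕ) * (c : ℕ)) with hS
    set T := N * (if q₁ = q₂ then cq q₁ (x - x) else 0) with hT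
    have h4 : a q₁ * a q₂ * S - a q₁ * a q₂ * T ≤ (z : ℝ) ^ 4 := by
      calc a q₁ * a q₂ * S - a q₁ * a q₂ * T = (a q₁ * a q₂) * (S - T) := by ring
        _ ≤ |(a q₁ * a q₂) * (S - T)| := le_abs_self _
        _ = |a q₁| * |a q₂| * |S - T| := by rw [abs_mul, abs_mul]
        _ ≤ 1 * 1 * ((z : ℝ) ^ 2 * (z : ℝ) ^ 2) := by
            refine mul_le_mul (mul_le_mul (ha1 q₁ h₁) (ha1 q₂ h₂) (abs_nonneg _) zero_le_one)
              (h3.trans (mul_le_mul (hsig q₁ h₁) (hsig q₂ h₂) (hsig0 q₂) (by positivity)))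
              (abs_nonneg _) (by norm_num)
        _ = (z : ℝ) ^ 4 := by ring
    linarith
  refine (Finset.sum_le_sum fun q₁ h₁ => Finset.sum_le_sum fun q₂ h₂ =>
    hterm q₁ h₁ q₂ h₂).trans ?_
  have hmain : ∑ q₁ ∈ Icc 1 z, ∑ q₂ ∈ Icc 1 z, (a q₁ * a q₂ *
      (N * (if q₁ = q₂ then cq q₁ (x - x) else 0)) + (z : ℝ) ^ 4) =
      N * Vz z + (z : ℝ) ^ 2 * (z : ℝ) ^ 4 := by
    simp only [Finset.sum_add_distrib, Finset.sum_const, Nat.card_Icc, nsmul_eq_mul,
      add_tsub_cancel_right]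
    congr 1
    · unfold Vz
      rw [Finset.mul_sum]
      refine Finset.sum_congr rfl fun q₁ h₁ => ?_
      rw [Finset.sum_eq_single q₁]
      · rw [if_pos rfl, sub_self, hcq0 q₁ h₁]
        simp only [ha]
        have h1 : (0 : ℝ) < (Nat.totient q₁ : ℝ) := by
          exact_mod_cast Nat.totient_pos.2 (by have := Finset.mem_Icc.1 h₁; omega)
        field_simp
      · intro q₂ _ h
        rw [if_neg (Ne.symm h)]
        ring
      · intro h
        exact absurd h₁ h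
    · ring
  rw [hmain]
  have h5 : (z : ℝ) ^ 2 * (z : ℝ) ^ 4 ≤ (z : ℝ) ^ 8 := by
    rcases Nat.eq_zero_or_pos z with h0 | h0
    · subst h0; norm_num
    · have h1 : (1 : ℝ) ≤ z := by exact_mod_cast h0
      calc (z : ℝ) ^ 2 * (z : ℝ) ^ 4 = (z : ℝ) ^ 6 := by ring
        _ ≤ (z : ℝ) ^ 8 := pow_le_pow_right₀ h1 (by norm_num)
  linarith

end Pool.Agent.Lib.H18Q
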