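import Pool.Agent.Lib.H18Q.S1
import Pool.Agent.Lib.H18Q.S2

/-!
# Project H18Q, chunk S3: large sieve for primitive characters over primes in an interval
-/

open Finset

namespace Pool.Agent.Lib.H18Q

open Pool.Agent.Lib.H68T

/-- The dual inequality. Proof. For primes `n > z`, `1 = G(z,n)²/V²` (`G_prime`), so the left side
is at most `V^(-2) ∑_{n ∈ (M, M+N]} G(z,n)² |∑_p c_p χ_p(n)|²` (all terms nonnegative). Open the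
square: the diagonal terms `p = p'` give at most `V^(-2) |c_p|² (N V + z^8)` (`|χ| ≤ 1`,
`G_sq_sum`), the others at most `V^(-2) |c_p| |c_p'| z^6 Q²` (`S1_off`), and
`∑_{p,p'} |c_p| |c_p'| ≤ #PC ∑ |c_p|² ≤ Q² ∑ |c_p|²` (`card_PC_le`). With `V ≥ 1`, `V ≥ log z`:
`N/V + z^8 + z^6 Q^4 ≤ N/log z + 2 z^8 Q^4`. -/
theorem S3_dual (Q z M N : ℕ) (hz : 2 ≤ z) (hQ : 1 ≤ Q)
    (c : (Σ r : ℕ, DirichletCharacter ℂ r) → ℂ) :
    ∑ n ∈ (Ioc M (M + N)).filter (fun n => n.Prime ∧ z < n),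
      ‖∑ p ∈ PC Q, c p * p.2 (n : ZMod p.1)‖ ^ 2 ≤
      (N / Real.log z + 2 * (z : ℝ) ^ 8 * (Q : ℝ) ^ 4) * ∑ p ∈ PC Q, ‖c p‖ ^ 2 := by
  classical
  set V : ℝ := Vz z with hV
  have hV1 : 1 ≤ V := Vz_ge_one z (by omega)
  have hVl : Real.log z ≤ V := Vz_ge z (by omega)
  have hlog : 0 < Real.log z := Real.log_pos (by exact_mod_cast (by omega : 1 < z))
  set S : ℝ := ∑ p ∈ PC Q, ‖c p‖ ^ 2 with hS
  have hS0 : 0 ≤ S := Finset.sum_nonneg fun _ _ => sq_nonneg _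
  have step1 : V ^ 2 * ∑ n ∈ (Ioc M (M + N)).filter (fun n => n.Prime ∧ z < n),
      ‖∑ p ∈ PC Q, c p * p.2 (n : ZMod p.1)‖ ^ 2 ≤
      ∑ n ∈ Ioc M (M + N), G z n ^ 2 * ‖∑ p ∈ PC Q, c p * p.2 (n : ZMod p.1)‖ ^ 2 := by
    rw [Finset.mul_sum]
    have h1 : ∀ n ∈ (Ioc M (M + N)).filter (fun n => n.Prime ∧ z < n),
        V ^ 2 * ‖∑ p ∈ PC Q, c p * p.2 (n : ZMod p.1)‖ ^ 2 =
        G z n ^ 2 * ‖∑ p ∈ PC Q, c p * p.2 (n : ZMod p.1)‖ ^ 2 := by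
      intro n hn
      rw [mem_filter] at hn
      rw [G_prime z n hn.2.1 hn.2.2]
    rw [Finset.sum_congr rfl h1]
    exact Finset.sum_le_sum_of_subset_of_nonneg (Finset.filter_subset _ _)
      fun _ _ _ => mul_nonneg (sq_nonneg _) (sq_nonneg _)
  have step2 : ((∑ n ∈ Ioc M (M + N), G z n ^ 2 * ‖∑ p ∈ PC Q, c p * p.2 (n : ZMod p.1)‖ ^ 2 : ℝ) : ℂ) =
      ∑ p ∈ PC Q, ∑ p' ∈ PC Q, c p * (starRingEnd ℂ) (c p') *
        ∑ n ∈ Ioc M (M + N), ((G z n ^ 2 : ℝ) : ℂ) * (p.2 (n : ZMod p.1) *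
          (starRingEnd ℂ) (p'.2 (n : ZMod p'.1))) := by
    rw [Complex.ofReal_sum]
    have h1 : ∀ n ∈ Ioc M (M + N),
        ((G z n ^ 2 * ‖∑ p ∈ PC Q, c p * p.2 (n : ZMod p.1)‖ ^ 2 : ℝ) : ℂ) =
        ∑ p ∈ PC Q, ∑ p' ∈ PC Q, c p * (starRingEnd ℂ) (c p') *
          (((G z n ^ 2 : ℝ) : ℂ) * (p.2 (n : ZMod p.1) *
          (starRingEnd ℂ) (p'.2 (n : ZMod p'.1)))) := by
      intro n _
      have h2 : ((‖∑ p ∈ PC Q, c p * p.2 (n : ZMod p.1)‖ ^ 2 : ℝ) : ℂ) =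
          (∑ p ∈ PC Q, c p * p.2 (n : ZMod p.1)) *
            (starRingEnd ℂ) (∑ p ∈ PC Q, c p * p.2 (n : ZMod p.1)) := by
        rw [Complex.mul_conj, Complex.normSq_eq_norm_sq]
      rw [Complex.ofReal_mul, h2, map_sum, Finset.sum_mul_sum, Finset.mul_sum]
      refine Finset.sum_congr rfl fun p _ => ?_
      rw [Finset.mul_sum]
      refine Finset.sum_congr rfl fun p' _ => ?_
      rw [map_mul]
      ring
    rw [Finset.sum_congr rfl h1, Finset.sum_comm]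
    refine Finset.sum_congr rfl fun p _ => ?_
    rw [Finset.sum_comm]
    refine Finset.sum_congr rfl fun p' _ => ?_
    rw [Finset.mul_sum]
  have hin : ∀ p ∈ PC Q, ∀ p' ∈ PC Q, ‖∑ n ∈ Ioc M (M + N), ((G z n ^ 2 : ℝ) : ℂ) * (p.2 (n : ZMod p.1) *
          (starRingEnd ℂ) (p'.2 (n : ZMod p'.1)))‖ ≤
      (if p = p' then N * V + (z : ℝ) ^ 8 else 0) + (z : ℝ) ^ 6 * (Q : ℝ) ^ 2 := by
    intro p hp p' hp'
    by_cases h : p = p'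
    · rw [if_pos h, ← h]
      have h1 : ‖∑ n ∈ Ioc M (M + N), ((G z n ^ 2 : ℝ) : ℂ) * (p.2 (n : ZMod p.1) *
          (starRingEnd ℂ) (p.2 (n : ZMod p.1)))‖ ≤ ∑ n ∈ Ioc M (M + N), G z n ^ 2 := by
        refine (norm_sum_le _ _).trans (Finset.sum_le_sum fun n _ => ?_)
        rw [norm_mul, norm_mul, RCLike.norm_conj, Complex.norm_real, Real.norm_eq_abs,
          abs_of_nonneg (sq_nonneg _)]
        have h2 : ‖p.2 (n : ZMod p.1)‖ ≤ 1 := DirichletCharacter.norm_le_one _ _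
        have h3 : ‖p.2 (n : ZMod p.1)‖ * ‖p.2 (n : ZMod p.1)‖ ≤ 1 :=
          mul_le_one₀ h2 (norm_nonneg _) h2
        exact mul_le_of_le_one_right (sq_nonneg _) h3
      have h4 : 0 ≤ (z : ℝ) ^ 6 * (Q : ℝ) ^ 2 := by positivity
      linarith [G_sq_sum z M N]
    · rw [if_neg h, zero_add]
      exact S1_off Q p p' hp hp' h M N z
  have hNV : 0 ≤ N * V + (z : ℝ) ^ 8 := by positivity
  have step3 : ∑ n ∈ Ioc M (M + N), G z n ^ 2 * ‖∑ p ∈ PC Q, c p * p.2 (n : ZMod p.1)‖ ^ 2 ≤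
      (N * V + (z : ℝ) ^ 8) * S + (z : ℝ) ^ 6 * (Q : ℝ) ^ 2 * (∑ p ∈ PC Q, ‖c p‖) ^ 2 := by
    have h0 : 0 ≤ ∑ n ∈ Ioc M (M + N), G z n ^ 2 * ‖∑ p ∈ PC Q, c p * p.2 (n : ZMod p.1)‖ ^ 2 :=
      Finset.sum_nonneg fun _ _ => mul_nonneg (sq_nonneg _) (sq_nonneg _)
    have h1 : ∑ n ∈ Ioc M (M + N), G z n ^ 2 * ‖∑ p ∈ PC Q, c p * p.2 (n : ZMod p.1)‖ ^ 2 =
        ‖((∑ n ∈ Ioc M (M + N), G z n ^ 2 * ‖∑ p ∈ PC Q, c p * p.2 (n : ZMod p.1)‖ ^ 2 : ℝ) : ℂ)‖ := by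
      rw [Complex.norm_real, Real.norm_eq_abs, abs_of_nonneg h0]
    rw [h1, step2]
    have h2 : ∀ p ∈ PC Q, ‖∑ p' ∈ PC Q, c p * (starRingEnd ℂ) (c p') *
        ∑ n ∈ Ioc M (M + N), ((G z n ^ 2 : ℝ) : ℂ) * (p.2 (n : ZMod p.1) *
          (starRingEnd ℂ) (p'.2 (n : ZMod p'.1)))‖ ≤
        (N * V + (z : ℝ) ^ 8) * ‖c p‖ ^ 2 +
          (z : ℝ) ^ 6 * (Q : ℝ) ^ 2 * (‖c p‖ * ∑ p' ∈ PC Q, ‖c p'‖) := by
      intro p hp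
      refine (norm_sum_le _ _).trans ?_
      have h3 : ∀ p' ∈ PC Q, ‖c p * (starRingEnd ℂ) (c p') *
          ∑ n ∈ Ioc M (M + N), ((G z n ^ 2 : ℝ) : ℂ) * (p.2 (n : ZMod p.1) *
          (starRingEnd ℂ) (p'.2 (n : ZMod p'.1)))‖ ≤
          (if p = p' then ‖c p‖ * ‖c p'‖ * (N * V + (z : ℝ) ^ 8) else 0) +
            (z : ℝ) ^ 6 * (Q : ℝ) ^ 2 * (‖c p‖ * ‖c p'‖) := by
        intro p' hp'
        rw [norm_mul, norm_mul, RCLike.norm_conj]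
        have h4 := mul_le_mul_of_nonneg_left (hin p hp p' hp')
          (mul_nonneg (norm_nonneg (c p)) (norm_nonneg (c p')))
        refine h4.trans (le_of_eq ?_)
        split_ifs <;> ring
      refine (Finset.sum_le_sum h3).trans (le_of_eq ?_)
      rw [Finset.sum_add_distrib, Finset.sum_ite_eq, if_pos hp, ← Finset.mul_sum, ← Finset.mul_sum]
      ring
    refine (norm_sum_le _ _).trans ((Finset.sum_le_sum h2).trans (le_of_eq ?_))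
    rw [Finset.sum_add_distrib, ← Finset.mul_sum, ← Finset.mul_sum, ← Finset.sum_mul]
    ring
  have step4 : (∑ p ∈ PC Q, ‖c p‖) ^ 2 ≤ (Q : ℝ) ^ 2 * S := by
    have h1 : (∑ p ∈ PC Q, ‖c p‖) ^ 2 ≤ ((PC Q).card : ℝ) * S := sq_sum_le_card_mul_sum_sq
    refine h1.trans (mul_le_mul_of_nonneg_right ?_ hS0)
    exact_mod_cast card_PC_le Q
  have hz0 : (0 : ℝ) ≤ (z : ℝ) ^ 6 * (Q : ℝ) ^ 2 := by positivity
  have step5 : V ^ 2 * ∑ n ∈ (Ioc M (M + N)).filter (fun n => n.Prime ∧ z < n),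
      ‖∑ p ∈ PC Q, c p * p.2 (n : ZMod p.1)‖ ^ 2 ≤
      (N * V + (z : ℝ) ^ 8 + (z : ℝ) ^ 6 * (Q : ℝ) ^ 4) * S := by
    have h1 := mul_le_mul_of_nonneg_left step4 hz0
    have h2 : (z : ℝ) ^ 6 * (Q : ℝ) ^ 2 * ((Q : ℝ) ^ 2 * S) = (z : ℝ) ^ 6 * (Q : ℝ) ^ 4 * S := by ring
    rw [h2] at h1
    have h3 : (N * V + (z : ℝ) ^ 8 + (z : ℝ) ^ 6 * (Q : ℝ) ^ 4) * S =
        (N * V + (z : ℝ) ^ 8) * S + (z : ℝ) ^ 6 * (Q : ℝ) ^ 4 * S := by ring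
    rw [h3]
    linarith
  have hV2 : 0 < V ^ 2 := by positivity
  have hVpos : 0 < V := by linarith
  have hz1 : (1 : ℝ) ≤ z := by exact_mod_cast (by omega : 1 ≤ z)
  have hQ1 : (1 : ℝ) ≤ Q := by exact_mod_cast hQ
  have key : N * V + (z : ℝ) ^ 8 + (z : ℝ) ^ 6 * (Q : ℝ) ^ 4 ≤
      V ^ 2 * (N / Real.log z + 2 * (z : ℝ) ^ 8 * (Q : ℝ) ^ 4) := by
    have h1 : (N : ℝ) * V ≤ V ^ 2 * (N / Real.log z) := by
      have h2 : V ^ 2 * (N / Real.log z) = (N * V) * (V / Real.log z) := by ring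
      rw [h2]
      exact le_mul_of_one_le_right (by positivity) ((one_le_div hlog).2 hVl)
    have h3 : (z : ℝ) ^ 8 ≤ (z : ℝ) ^ 8 * (Q : ℝ) ^ 4 :=
      le_mul_of_one_le_right (by positivity) (one_le_pow₀ hQ1)
    have h4 : (z : ℝ) ^ 6 * (Q : ℝ) ^ 4 ≤ (z : ℝ) ^ 8 * (Q : ℝ) ^ 4 :=
      mul_le_mul_of_nonneg_right (pow_le_pow_right₀ hz1 (by norm_num)) (by positivity)
    have h5 : 2 * (z : ℝ) ^ 8 * (Q : ℝ) ^ 4 ≤ V ^ 2 * (2 * (z : ℝ) ^ 8 * (Q : ℝ) ^ 4) :=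
      le_mul_of_one_le_left (by positivity) (one_le_pow₀ hV1)
    rw [mul_add]
    linarith
  have h6 := step5.trans (mul_le_mul_of_nonneg_right key hS0)
  rw [mul_assoc] at h6
  exact le_of_mul_le_mul_left h6 hV2

/-- Duality of finite matrices: if `∑_n |∑_p c_p A_{p,n}|² ≤ Δ ∑ |c_p|²` for all `c`, then
`∑_p |∑_n a_n A_{p,n}|² ≤ Δ ∑ |a_n|²` for all `a`.

Proof: put `c_p = conj (∑_n a_n A_{p,n})`, `T = ∑_p |c_p|²`. Then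
`T = ∑_p c_p ∑_n a_n A_{p,n} = ∑_n a_n ∑_p c_p A_{p,n} ≤ (∑ |a_n|²)^(1/2) (Δ T)^(1/2)`. -/
theorem S3_duality {α γ : Type*} (P : Finset α) (s : Finset γ) (A : α → γ → ℂ) (Δ : ℝ)
    (hΔ : 0 ≤ Δ)
    (h : ∀ c : α → ℂ, ∑ n ∈ s, ‖∑ p ∈ P, c p * A p n‖ ^ 2 ≤ Δ * ∑ p ∈ P, ‖c p‖ ^ 2)
    (a : γ → ℂ) : ∑ p ∈ P, ‖∑ n ∈ s, a n * A p n‖ ^ 2 ≤ Δ * ∑ n ∈ s, ‖a n‖ ^ 2 := by
  set B : α → ℂ := fun p => ∑ n ∈ s, a n * A p n with hB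
  set T : ℝ := ∑ p ∈ P, ‖B p‖ ^ 2 with hT
  have hT0 : 0 ≤ T := Finset.sum_nonneg fun _ _ => sq_nonneg _
  have h1 := h fun p => (starRingEnd ℂ) (B p)
  have h2 : ∑ p ∈ P, ‖(starRingEnd ℂ) (B p)‖ ^ 2 = T := by
    refine Finset.sum_congr rfl fun p _ => ?_
    rw [RCLike.norm_conj]
  rw [h2] at h1
  have h3 : (T : ℂ) = ∑ n ∈ s, a n * ∑ p ∈ P, (starRingEnd ℂ) (B p) * A p n := by
    rw [hT, Complex.ofReal_sum]
    have h4 : ∀ p ∈ P, ((‖B p‖ ^ 2 : ℝ) : ℂ) = ∑ n ∈ s, a n * ((starRingEnd ℂ) (B p) * A p n) := by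
      intro p _
      rw [← Complex.normSq_eq_norm_sq, ← Complex.mul_conj]
      conv_lhs => rw [hB]
      rw [Finset.sum_mul]
      refine Finset.sum_congr rfl fun n _ => ?_
      ring
    rw [Finset.sum_congr rfl h4, Finset.sum_comm]
    refine Finset.sum_congr rfl fun n _ => ?_
    rw [Finset.mul_sum]
  have h5 : T ≤ ∑ n ∈ s, ‖a n‖ * ‖∑ p ∈ P, (starRingEnd ℂ) (B p) * A p n‖ := by
    have h6 : T = ‖(T : ℂ)‖ := by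
      rw [Complex.norm_real, Real.norm_eq_abs, abs_of_nonneg hT0]
    rw [h6, h3]
    refine (norm_sum_le _ _).trans (le_of_eq ?_)
    exact Finset.sum_congr rfl fun n _ => norm_mul _ _
  have h7 : T ^ 2 ≤ (∑ n ∈ s, ‖a n‖ ^ 2) * (Δ * T) := by
    calc T ^ 2 ≤ (∑ n ∈ s, ‖a n‖ * ‖∑ p ∈ P, (starRingEnd ℂ) (B p) * A p n‖) ^ 2 :=
          pow_le_pow_left₀ hT0 h5 2
      _ ≤ (∑ n ∈ s, ‖a n‖ ^ 2) * ∑ n ∈ s, ‖∑ p ∈ P, (starRingEnd ℂ) (B p) * A p n‖ ^ 2 :=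
          Finset.sum_mul_sq_le_sq_mul_sq _ _ _
      _ ≤ (∑ n ∈ s, ‖a n‖ ^ 2) * (Δ * T) :=
          mul_le_mul_of_nonneg_left h1 (Finset.sum_nonneg fun _ _ => sq_nonneg _)
  rcases hT0.eq_or_lt with h8 | h8
  · rw [← h8]
    exact mul_nonneg hΔ (Finset.sum_nonneg fun _ _ => sq_nonneg _)
  · have h9 : T * T ≤ (Δ * ∑ n ∈ s, ‖a n‖ ^ 2) * T := by
      calc T * T = T ^ 2 := (sq T).symm
        _ ≤ (∑ n ∈ s, ‖a n‖ ^ 2) * (Δ * T) := h7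
        _ = (Δ * ∑ n ∈ s, ‖a n‖ ^ 2) * T := by ring
    exact le_of_mul_le_mul_right h9 h8

/-- Large sieve over primes: `S3_dual`, `S3_duality`, and restriction to a subset `s` (replace `a`
by `0` outside `s`). -/
theorem S3_primal (Q z M N : ℕ) (hz : 2 ≤ z) (hQ : 1 ≤ Q) (s : Finset ℕ)
    (hs : ∀ n ∈ s, n.Prime ∧ z < n ∧ M < n ∧ n ≤ M + N) (a : ℕ → ℂ) :
    ∑ p ∈ PC Q, ‖∑ n ∈ s, a n * p.2 (n : ZMod p.1)‖ ^ 2 ≤
      (N / Real.log z + 2 * (z : ℝ) ^ 8 * (Q : ℝ) ^ 4) * ∑ n ∈ s, ‖a n‖ ^ 2 := by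
  have hlog : 0 < Real.log z := Real.log_pos (by exact_mod_cast (by omega : 1 < z))
  refine S3_duality (PC Q) s (fun p n => p.2 (n : ZMod p.1)) _ (by positivity) (fun c => ?_) a
  refine le_trans ?_ (S3_dual Q z M N hz hQ c)
  refine Finset.sum_le_sum_of_subset_of_nonneg ?_ fun _ _ _ => sq_nonneg _
  intro n hn
  obtain ⟨h1, h2, h3, h4⟩ := hs n hn
  rw [mem_filter, mem_Ioc]
  exact ⟨⟨h3, h4⟩, h1, h2⟩

end Pool.Agent.Lib.H18Q
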