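import Mathlib

/-!
# Project H18Q, chunk T1: a product of distances is not small everywhere
-/

open Finset

namespace Pool.Agent.Lib.H18Q

/-- For real numbers `d i`, `i ∈ S`, some `t ∈ [1/2, 1]` has `∏ |t - d i| ≥ 16^(-#S)`.

Proof 1 (Lagrange). Let `n = #S ≥ 1` (`n = 0`: `t = 1`), `P = ∏ (X - C (d i))`, monic of degree
`n`, nodes `x_j = 1/2 + j/(2n)`, `j = 0, …, n`. Lagrange interpolation at the `n+1` nodes and the
coefficient of `X^n` (`Lagrange.sum_basis`, or Mathlib's statement that the leading coefficient is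
the divided difference) give `1 = ∑_j P(x_j) / ∏_{i ≠ j} (x_j - x_i)`, and
`∏_{i ≠ j} |x_j - x_i| = j! (n-j)! / (2n)^n`. If `|P(x_j)| < 16^(-n)` for all `j`, then
`1 < 16^(-n) (2n)^n ∑_j 1/(j! (n-j)!) = 16^(-n) (2n)^n 2^n / n! = (n^n / n!) 4^(-n) ≤ (e/4)^n < 1`
(`n^n ≤ e^n n!`, as `e^n = ∑ n^k/k!`), a contradiction.

Proof 2 (average of logarithms). `∫_{1/2}^{1} log |t - d| dt ≥ ∫_{-1/4}^{1/4} log |x| dx =
-(1 + log 4)/2` for every real `d` (rearrangement), so the average over `[1/2, 1]` of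
`∑ log |t - d i|` is at least `-n (1 + log 4) ≥ -n log 16`. Any proof is welcome. -/
theorem T1_far {ι : Type*} (S : Finset ι) (d : ι → ℝ) :
    ∃ t ∈ Set.Icc (1 / 2 : ℝ) 1, (1 / 16 : ℝ) ^ S.card ≤ ∏ i ∈ S, |t - d i| := by
  by_contra hcon
  push Not at hcon
  set n := S.card with hn
  have hq : ∀ u ∈ Set.Icc (-1 : ℝ) 1, |∏ i ∈ S, (4 * u + 12 - 16 * d i)| ≤ 1 := by
    intro u hu
    have h1 := hcon (3 / 4 + u / 4) ⟨by linarith [hu.1], by linarith [hu.2]⟩
    have h2 : ∏ i ∈ S, (4 * u + 12 - 16 * d i) = 16 ^ n * ∏ i ∈ S, (3 / 4 + u / 4 - d i) := by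
      rw [hn, ← Finset.prod_const, ← Finset.prod_mul_distrib]
      exact Finset.prod_congr rfl fun i _ => by ring
    rw [h2, abs_mul, Finset.abs_prod, abs_of_pos (by positivity : (0 : ℝ) < 16 ^ n)]
    have h3 : (16 : ℝ) ^ n * (1 / 16) ^ n = 1 := by
      rw [← mul_pow]
      norm_num
    nlinarith [mul_lt_mul_of_pos_left h1 (by positivity : (0 : ℝ) < 16 ^ n)]
  set P : Polynomial ℝ := ∏ i ∈ S, (Polynomial.C 4 * Polynomial.X + Polynomial.C (12 - 16 * d i)) with hP
  have hdeg1 : ∀ i, (Polynomial.C (4 : ℝ) * Polynomial.X + Polynomial.C (12 - 16 * d i)).natDegree = 1 := by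
    intro i
    exact Polynomial.natDegree_linear (by norm_num)
  have hlc1 : ∀ i, (Polynomial.C (4 : ℝ) * Polynomial.X + Polynomial.C (12 - 16 * d i)).leadingCoeff = 4 := by
    intro i
    exact Polynomial.leadingCoeff_linear (by norm_num)
  have hPlc : P.leadingCoeff = 4 ^ n := by
    rw [hP, Polynomial.leadingCoeff_prod, Finset.prod_congr rfl fun i _ => hlc1 i, Finset.prod_const]
  have hPd : P.natDegree = n := by
    rw [hP, Polynomial.natDegree_prod _ _ fun i _ h0 => by
      have := hlc1 i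
      rw [h0, Polynomial.leadingCoeff_zero] at this
      norm_num at this, Finset.sum_congr rfl fun i _ => hdeg1 i, Finset.sum_const]
    simp [hn]
  have hP0 : P ≠ 0 := by
    intro h0
    rw [h0, Polynomial.leadingCoeff_zero] at hPlc
    exact absurd hPlc.symm (by positivity)
  have heval : ∀ u, P.eval u = ∏ i ∈ S, (4 * u + 12 - 16 * d i) := by
    intro u
    rw [hP, Polynomial.eval_prod]
    refine Finset.prod_congr rfl fun i _ => ?_
    simp
    ring
  have hdegree : P.degree = n := by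
    rw [Polynomial.degree_eq_natDegree hP0, hPd]
  rcases Nat.eq_zero_or_pos n with h0 | h0
  · have h1 := hcon 1 ⟨by norm_num, le_refl _⟩
    rw [h0, pow_zero] at h1
    have h2 : S = ∅ := Finset.card_eq_zero.1 (hn.symm.trans h0)
    rw [h2, Finset.prod_empty] at h1
    exact lt_irrefl _ h1
  · have h1 := Polynomial.Chebyshev.leadingCoeff_le_of_forall_abs_le_one (P := P) (n := n) (by rw [hdegree])
      (fun u hu => by rw [heval]; exact hq u hu)
    rw [hPlc] at h1
    have h2 : (2 : ℝ) ^ (n - 1) < 4 ^ n := by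
      calc (2 : ℝ) ^ (n - 1) ≤ 2 ^ n := pow_le_pow_right₀ (by norm_num) (by omega)
        _ < 4 ^ n := pow_lt_pow_left₀ (by norm_num) (by norm_num) (by omega)
    linarith

end Pool.Agent.Lib.H18Q
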