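import Pool.Agent.Lib.H18Q.QP
import Pool.Agent.Lib.H18P.OX
import Pool.Agent.Lib.H18P.OD

/-!
# Project H18Q, chunk VA: from pairs to vertices
-/

open Finset

namespace Pool.Agent.Lib.H18Q

open Pool.Agent.Lib.H68T Pool.Agent.Lib.H18E Pool.Agent.Lib.H18P

/-- PORT of the lemma `reg_shift` (`H18E/ST.lean`) to `RegP`. -/
theorem regp_shift : ∃ K0 : ℝ, 0 ≤ K0 ∧ ∀ K : ℝ, 0 ≤ K → ∀ Q n X : ℕ, RegP (2 * K + K0) Q n →
    n ≤ 4 * X → X ≤ n → RegP K Q X := by
  refine ⟨4, by norm_num, fun K hK Q n X hR h4 hXn => ?_⟩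
  have hKp : (0 : ℝ) < 2 * K + 4 := by linarith
  obtain ⟨h1, h2, h3⟩ := hR
  have hln := (show RegP (2 * K + 4) Q n from ⟨h1, h2, h3⟩).logX_ge hKp
  have hn0 : 0 < n := (show RegP (2 * K + 4) Q n from ⟨h1, h2, h3⟩).X_pos hKp
  have hX0 : 0 < X := by omega
  have hX0R : (0 : ℝ) < X := by exact_mod_cast hX0
  have hn0R : (0 : ℝ) < n := by exact_mod_cast hn0
  have hexp4 : (4 : ℝ) ≤ Real.exp (2 * K + 4) := by
    have := Real.add_one_le_exp (2 * K + 4)
    linarith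
  set l := Real.log n with hl
  set x := Real.log X with hx
  have hl4 : 4 ≤ l := by linarith
  have hxl : x ≤ l := Real.log_le_log hX0R (by exact_mod_cast hXn)
  have hlx : l ≤ 2 * x := by
    have h5 : Real.log n ≤ Real.log (4 * X) := Real.log_le_log hn0R (by exact_mod_cast h4)
    rw [Real.log_mul (by norm_num) hX0R.ne'] at h5
    have h6 : Real.log 4 ≤ 2 := by
      have : Real.log 4 = 2 * Real.log 2 := by
        rw [show (4 : ℝ) = 2 ^ 2 by norm_num, Real.log_pow]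
        norm_num
      rw [this]
      linarith [Real.log_two_lt_d9]
    linarith
  have hx0 : 0 < x := by linarith
  have hllx : Real.log x ≤ Real.log l := Real.log_le_log hx0 hxl
  have hllx' : Real.log l ≤ Real.log x + 1 := by
    have h5 : Real.log l ≤ Real.log (2 * x) := Real.log_le_log (by linarith) hlx
    rw [Real.log_mul (by norm_num) hx0.ne'] at h5
    linarith [Real.log_two_lt_d9]
  have hlogQ0 : 0 ≤ Real.log Q := by
    have : 0 ≤ (2 * K + 4) * Real.log l := mul_nonneg hKp.le (by linarith)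
    linarith
  refine ⟨by linarith, ?_, ?_⟩
  · have h5 : K * Real.log x ≤ (2 * K + 4) * Real.log l := by
      have h6 : 0 ≤ Real.log l := by linarith
      calc K * Real.log x ≤ K * Real.log l := mul_le_mul_of_nonneg_left hllx hK
        _ ≤ (2 * K + 4) * Real.log l := mul_le_mul_of_nonneg_right (by linarith) h6
    linarith
  · have h8 : 2 * (K * Real.log Q) ≤ l := by
      calc 2 * (K * Real.log Q) ≤ (2 * K + 4) * Real.log Q := by nlinarith
        _ ≤ l := h3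
    linarith

/-- **Vertices.** `H = n/32`, `M = 3n/8`; `s = xcs 1 0 x j`, `t = xct σ H 1 0 x j` as in `H18E/XC` with
`r = 1`, `y0 = 0`.

Proof: the proof of `x_class` (`H18E/XC.lean`) with `r = 1`, `y0 = 0` and `pair_low` in place of
`class_pair`: `B` is the set of the `x` with `Rk (2x) > Q^(1/8)` (`rk_mean`) or, for the `σ` of `x`, all
`j ∈ xcJ σ n 1 H` have `e(s,t) > Q^(-1/20)` (`xc_bad`); for `x ∉ B` take `j` with `e ≤ Q^(-1/20)`.
`xc_geom`, `xc_dd` (`dd = 2x`), `ox_cdeg` (file `H18P/OX`, with `xcu 1 x 0 = 0`, `xcv σ 1 x 0 = 0`: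
residues modulo `1`; `1 * n = n`), and `ocdeg n 1 x 0 ≤ ohdeg n x` (`osum_cdeg` with `S = {0}`,
`compat 1 x = {0}`, or directly). `M e ≤ 64 H Q^(-1/20)`. -/
theorem vert_low : ∃ K C : ℝ, 1 ≤ K ∧ 1 ≤ C ∧ ∀ (n Q : ℕ) (E : ℝ) (mo : ℤ → ℝ), RegP K Q n →
    0 ≤ E → E ≤ 2 → Lev Q (3 * n / 8) E mo →
    ∃ B : Finset ℕ, B ⊆ Icc 1 n ∧ (B.card : ℝ) ≤ n * (Q : ℝ) ^ (-(1 / 20) : ℝ) ∧
      ∀ x ∈ Icc 1 n, x ∉ B → Rk (2 * (x : ℤ)) ≤ (Q : ℝ) ^ (1 / 8 : ℝ) ∧
        ∃ (σ : Bool) (j : ℕ), (σ = true ↔ 2 * x ≤ n) ∧ j ∈ xcJ σ n 1 (n / 32) ∧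
        ∑ c ∈ range (n / 32), mo ((xcs 1 0 x j + c : ℕ) : ℤ) *
            mo ((ix (n / 32) σ (xct σ (n / 32) 1 0 x j) c : ℕ) : ℤ) -
          C * (E * Gp 1 (2 * (x : ℤ)) + (Q : ℝ) ^ (-(1 / 20) : ℝ)) * (n / 32 : ℕ) ≤
        ohdeg n x * (Real.log (2 * n)) ^ 2 := by
  classical
  obtain ⟨K1, C1, hK1, hC1, hcp⟩ := pair_low
  obtain ⟨Cr, hCr, hrk⟩ := rk_mean
  obtain ⟨K0, hK0, hsh⟩ := regp_shift
  obtain ⟨K2, hK2, hreg2⟩ := regp_log_le 96 0 (1 / 20) (by norm_num)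
  obtain ⟨K3, hK3, hreg3⟩ := regp_log_le (2 * Cr) 0 (3 / 40) (by norm_num)
  refine ⟨2 * K1 + K0 + K2 + K3 + 100, C1 + 65, by linarith, by linarith, ?_⟩
  intro n Q E mo hR hE0 hE2 hL
  have hKpos : (0 : ℝ) ≤ 2 * K1 + K0 + K2 + K3 + 100 := by linarith
  have hR1 : RegP (2 * K1 + K0) Q n := hR.mono hKpos (by linarith)
  have hR2 : RegP K2 Q n := hR.mono hKpos (by linarith)
  have hR3 : RegP K3 Q n := hR.mono hKpos (by linarith)
  have hR100 : RegP 100 Q n := hR.mono hKpos (by linarith)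
  have hQ100 : (100 : ℝ) ≤ Q := hR100.Q_ge (by norm_num)
  have hQ0 : (0 : ℝ) < Q := by linarith
  have hQ1 : (1 : ℝ) ≤ Q := by linarith
  have hlogQ : 0 < Real.log Q := Real.log_pos (by linarith)
  have hn0 : 0 < n := hR100.X_pos (by norm_num)
  have hn0R : (0 : ℝ) < n := by exact_mod_cast hn0
  have hn100' : 100 ≤ n := by
    have := hR100.X_ge (by norm_num)
    exact_mod_cast this
  have hn100 : 100 * 1 ≤ n := by omega
  set M := 3 * n / 8 with hM
  set H := n / 32 with hH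
  have hH1 : 1 ≤ H := by omega
  have hHM : H ≤ M := by omega
  have hMH : M ≤ 64 * H := by omega
  have hX4 : n ≤ 4 * M := by omega
  have hXn : M ≤ n := by omega
  have hRX : RegP K1 Q M := hsh K1 (by linarith) Q n M hR1 hX4 hXn
  -- real versions
  have hHR : (1 : ℝ) ≤ H := by exact_mod_cast hH1
  have hMn : (M : ℝ) * 8 ≤ 3 * n := by
    have : M * 8 ≤ 3 * n := by omega
    exact_mod_cast this
  have hMHR : (M : ℝ) ≤ 64 * H := by exact_mod_cast hMH
  -- the choice of the functions e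
  set θ : ℝ := (Q : ℝ) ^ (-(1 / 20) : ℝ) with hθ
  have hθ0 : 0 < θ := Real.rpow_pos_of_pos hQ0 _
  set V : ℝ := (M : ℝ) ^ 2 * (Q : ℝ) ^ (-(1 / 5) : ℝ) with hV
  have hEx := fun σ : Bool => hcp Q M H E mo hRX hE0 hE2 hL hHM hMH hH1 σ
  choose Er hEr using hEx
  -- the exceptional set
  set B1 := (Icc 1 n).filter (fun x : ℕ => (Q : ℝ) ^ (1 / 8 : ℝ) < Rk (2 * (x : ℤ))) with hB1
  set P : Bool → Finset ℕ := fun q => xcP q n 1 0 0 0 (Er q) θ with hP
  have hPsub : ∀ q, P q ⊆ Icc 1 n := by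
    intro q a ha
    simp only [hP] at ha
    unfold xcP at ha
    simp only [mem_filter] at ha
    exact ha.1
  refine ⟨B1 ∪ (P true ∪ P false), ?_, ?_, ?_⟩
  · exact union_subset (filter_subset _ _) (union_subset (hPsub _) (hPsub _))
  · -- counting
    have c1 : (B1.card : ℝ) ≤ 1 / 2 * (n * (Q : ℝ) ^ (-(1 / 20) : ℝ)) := by
      have h1 : (B1.card : ℝ) * (Q : ℝ) ^ (1 / 8 : ℝ) ≤ Cr * n := by
        refine le_trans ?_ (hrk n)
        calc (B1.card : ℝ) * (Q : ℝ) ^ (1 / 8 : ℝ) = ∑ x ∈ B1, (Q : ℝ) ^ (1 / 8 : ℝ) := by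
              rw [sum_const, nsmul_eq_mul]
          _ ≤ ∑ x ∈ B1, Rk (2 * (x : ℤ)) := sum_le_sum fun x hx => (mem_filter.mp hx).2.le
          _ ≤ ∑ x ∈ Icc 1 n, Rk (2 * (x : ℤ)) :=
              sum_le_sum_of_subset_of_nonneg (filter_subset _ _) fun x _ _ =>
                zero_le_one.trans (one_le_Rk _)
      have h2 := hreg3 Q n hR3
      rw [Real.rpow_zero, mul_one] at h2
      have h3 : (Q : ℝ) ^ (1 / 8 : ℝ) * (Q : ℝ) ^ (-(1 / 20) : ℝ) = (Q : ℝ) ^ (3 / 40 : ℝ) := by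
        rw [← Real.rpow_add hQ0]
        norm_num
      have h4 : 0 < (Q : ℝ) ^ (1 / 8 : ℝ) := Real.rpow_pos_of_pos hQ0 _
      rw [← mul_le_mul_iff_left₀ h4]
      calc (B1.card : ℝ) * (Q : ℝ) ^ (1 / 8 : ℝ) ≤ Cr * n := h1
        _ ≤ (1 / 2 * (Q : ℝ) ^ (3 / 40 : ℝ)) * n := by
            apply mul_le_mul_of_nonneg_right _ hn0R.le
            linarith
        _ = 1 / 2 * (n * (Q : ℝ) ^ (-(1 / 20) : ℝ)) * (Q : ℝ) ^ (1 / 8 : ℝ) := by
            rw [← h3]; ring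
    have c2 : ∀ q, ((P q).card : ℝ) ≤ 24 * n * (Q : ℝ) ^ (-(1 / 10) : ℝ) := by
      intro q
      obtain ⟨-, e2, -⟩ := hEr q
      have h1 := xc_bad (σ := q) (u := 0) (v := 0) one_pos hn100 one_pos (Er q) V θ hθ0
        (by simpa only [mul_one] using e2)
      simp only [mul_one] at h1
      set p := ((xcP q n 1 0 0 0 (Er q) θ).card : ℝ) with hp
      have h2 : θ ^ 2 = (Q : ℝ) ^ (-(1 / 10) : ℝ) := by
        rw [hθ, ← Real.rpow_natCast, ← Real.rpow_mul hQ0.le]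
        norm_num
      have h3 : (Q : ℝ) ^ (-(1 / 5) : ℝ) =
          (Q : ℝ) ^ (-(1 / 10) : ℝ) * (Q : ℝ) ^ (-(1 / 10) : ℝ) := by
        rw [← Real.rpow_add hQ0]
        norm_num
      have h4 : 0 < (Q : ℝ) ^ (-(1 / 10) : ℝ) := Real.rpow_pos_of_pos hQ0 _
      rw [h2, hV, h3, ← mul_assoc, mul_le_mul_iff_left₀ h4] at h1
      -- p * H ≤ M ^ 2 * Q ^ (-1/10)
      have h5 : (M : ℝ) ^ 2 ≤ 24 * n * H := by
        have h6 : (M : ℝ) ≤ 3 * n / 8 := by linarith
        calc (M : ℝ) ^ 2 = M * M := by ring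
          _ ≤ (3 * n / 8) * (64 * H) :=
              mul_le_mul h6 hMHR (Nat.cast_nonneg _) (by positivity)
          _ = 24 * n * H := by ring
      have h7 : p * H ≤ (24 * n * (Q : ℝ) ^ (-(1 / 10) : ℝ)) * H := by
        calc p * H ≤ (M : ℝ) ^ 2 * (Q : ℝ) ^ (-(1 / 10) : ℝ) := h1
          _ ≤ (24 * n * H) * (Q : ℝ) ^ (-(1 / 10) : ℝ) :=
              mul_le_mul_of_nonneg_right h5 h4.le
          _ = _ := by ring
      exact le_of_mul_le_mul_right h7 (by linarith)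
    have c3 : ((P true ∪ P false).card : ℝ) ≤ 1 / 2 * (n * (Q : ℝ) ^ (-(1 / 20) : ℝ)) := by
      have h1 : ((P true ∪ P false).card : ℝ) ≤ (P true).card + (P false).card := by
        exact_mod_cast card_union_le _ _
      have h6 := hreg2 Q n hR2
      rw [Real.rpow_zero, mul_one] at h6
      have h7 : (Q : ℝ) ^ (-(1 / 10) : ℝ) * (Q : ℝ) ^ (1 / 20 : ℝ) =
          (Q : ℝ) ^ (-(1 / 20) : ℝ) := by
        rw [← Real.rpow_add hQ0]
        norm_num
      have h8 : 0 < (Q : ℝ) ^ (-(1 / 10) : ℝ) := Real.rpow_pos_of_pos hQ0 _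
      have ct := c2 true
      have cf := c2 false
      calc ((P true ∪ P false).card : ℝ) ≤ 48 * (n * (Q : ℝ) ^ (-(1 / 10) : ℝ)) := by linarith
        _ ≤ (1 / 2 * (Q : ℝ) ^ (1 / 20 : ℝ)) * (n * (Q : ℝ) ^ (-(1 / 10) : ℝ)) := by
            apply mul_le_mul_of_nonneg_right _ (by positivity)
            linarith
        _ = 1 / 2 * (n * (Q : ℝ) ^ (-(1 / 20) : ℝ)) := by
            rw [← h7]; ring
    have c4 : ((B1 ∪ (P true ∪ P false)).card : ℝ) ≤ B1.card + (P true ∪ P false).card := by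
      exact_mod_cast card_union_le _ _
    linarith
  · -- the main estimate
    intro x hx hxB
    rw [mem_union, mem_union, not_or, not_or] at hxB
    obtain ⟨hxB1, hxt, hxf⟩ := hxB
    have hx' := mem_Icc.mp hx
    have hRk : Rk (2 * (x : ℤ)) ≤ (Q : ℝ) ^ (1 / 8 : ℝ) := by
      by_contra h
      exact hxB1 (mem_filter.mpr ⟨hx, not_le.mp h⟩)
    refine ⟨hRk, ?_⟩
    obtain ⟨σ, hσ⟩ : ∃ σ : Bool, (σ = true ↔ 2 * x ≤ n) := ⟨decide (2 * x ≤ n), by simp⟩
    have hxP : x ∉ P σ := by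
      cases σ
      · exact hxf
      · exact hxt
    have hu : xcu 1 x 0 = 0 := Nat.lt_one_iff.mp (xcu_lt one_pos)
    have hv : xcv σ 1 x 0 = 0 := Nat.lt_one_iff.mp (xcv_lt one_pos)
    obtain ⟨e1, e2, e3⟩ := hEr σ
    obtain ⟨j, hj, hje⟩ : ∃ j ∈ xcJ σ n 1 H,
        Er σ (xcs 1 0 x j) (xct σ H 1 0 x j) ≤ θ := by
      by_contra hcon
      push Not at hcon
      apply hxP
      simp only [hP]
      unfold xcP
      simp only [mem_filter]
      refine ⟨hx, hσ, hu, hv, ?_⟩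
      simpa only [mul_one] using hcon
    refine ⟨σ, j, hσ, hj, ?_⟩
    have hj1 : j ∈ xcJ σ n 1 (n / (32 * 1)) := by simpa only [mul_one] using hj
    have hg := xc_geom one_pos hn100 hx'.1 hx'.2 one_pos hσ hj1
    have hdd := xc_dd (σ := σ) (j := j) one_pos hH1
      (by simpa only [mul_one] using hg.2.2.1)
    rw [hu, hv] at hdd
    have hg1 := hg.1
    have hg2 := hg.2.1
    simp only [mul_one] at hg1 hg2
    have main := e3 (xcs 1 0 x j) hg1 (xct σ H 1 0 x j) hg2 (by rw [hdd]; omega)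
      (by rw [hdd]; exact Dvd.intro _ rfl)
    rw [hdd] at main
    have hcd := ox_cdeg (σ := σ) one_pos hn100 hx one_pos hσ hj1
    rw [hu, hv] at hcd
    simp only [mul_one, one_mul, zero_add] at hcd
    have hc1 : compat 1 x = {0} := by
      ext y
      simp only [compat, mem_filter, mem_range, mem_singleton, Nat.cast_one]
      constructor
      · intro h; omega
      · rintro rfl
        exact ⟨by norm_num, isCoprime_one_right, isCoprime_one_right⟩
    have hdg : ocdeg n 1 x 0 ≤ ohdeg n x := by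
      have := osum_cdeg n 1 x {0} (by rw [hc1])
      simpa using this
    have hdgR : (ocdeg n 1 x 0 : ℝ) * (Real.log (2 * n)) ^ 2 ≤
        ohdeg n x * (Real.log (2 * n)) ^ 2 := by
      apply mul_le_mul_of_nonneg_right _ (by positivity)
      exact_mod_cast hdg
    have hGp := one_le_Gp 1 (2 * (x : ℤ))
    have a3 : (M : ℝ) * Er σ (xcs 1 0 x j) (xct σ H 1 0 x j) ≤ 64 * H * θ :=
      mul_le_mul hMHR hje (e1 _ _) (by positivity)
    have a4 : (H : ℝ) / Q ≤ H * θ := by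
      rw [div_eq_mul_inv]
      apply mul_le_mul_of_nonneg_left _ (by positivity)
      rw [hθ, ← Real.rpow_neg_one]
      exact Real.rpow_le_rpow_of_exponent_le hQ1 (by norm_num)
    have a5 : 0 ≤ E * Gp 1 (2 * (x : ℤ)) * H := by positivity
    have a6 : 0 ≤ C1 * (H * θ) := by positivity
    have a7 : (C1 + 65) * (E * Gp 1 (2 * (x : ℤ)) + θ) * H =
        C1 * E * Gp 1 (2 * (x : ℤ)) * H + 65 * (E * Gp 1 (2 * (x : ℤ)) * H) + C1 * (H * θ) +
          H * θ + 64 * H * θ := by ring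
    rw [a7]
    linarith

end Pool.Agent.Lib.H18Q
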