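import Pool.Agent.Lib.H18Q.W1

/-!
# Project H18Q, chunk W2: tails of the weights `Jk`
-/

open Finset

namespace Pool.Agent.Lib.H18Q

open ArithmeticFunction

theorem w2_blocks {C : ℝ} (hC : ∀ (j : ℕ) (s : Finset ℕ),
    (∀ n ∈ s, 1 ≤ n ∧ (j : ℝ) ≤ Real.log n ∧ Real.log n ≤ j + 1) → ∑ n ∈ s, Λ n / n ≤ C)
    (s : Finset ℕ) (hs : ∀ n ∈ s, 1 ≤ n) (G : ℕ → ℝ) (hG : ∀ j, 0 ≤ G j) (g : ℕ → ℝ)
    (hg : ∀ n ∈ s, g n ≤ G ⌊Real.log n⌋₊) (M : ℕ) (hM : ∀ n ∈ s, ⌊Real.log n⌋₊ < M) :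
    ∑ n ∈ s, Λ n / n * g n ≤ ∑ j ∈ range M, C * G j := by
  rw [← Finset.sum_fiberwise_of_maps_to (g := fun n : ℕ => ⌊Real.log n⌋₊) (t := range M)
    (fun n hn => Finset.mem_range.2 (hM n hn))]
  refine Finset.sum_le_sum fun j _ => ?_
  have h1 : ∑ n ∈ s.filter (fun n : ℕ => ⌊Real.log n⌋₊ = j), Λ n / n * g n ≤
      ∑ n ∈ s.filter (fun n : ℕ => ⌊Real.log n⌋₊ = j), Λ n / n * G j := by
    refine Finset.sum_le_sum fun n hn => ?_
    rw [Finset.mem_filter] at hn
    have h2 := hg n hn.1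
    rw [hn.2] at h2
    exact mul_le_mul_of_nonneg_left h2 (div_nonneg vonMangoldt_nonneg (Nat.cast_nonneg n))
  refine h1.trans ?_
  rw [← Finset.sum_mul]
  refine mul_le_mul_of_nonneg_right (hC j _ fun n hn => ?_) (hG j)
  rw [Finset.mem_filter] at hn
  have h3 := hs n hn.1
  have h4 : 0 ≤ Real.log n := Real.log_natCast_nonneg n
  refine ⟨h3, ?_, ?_⟩
  · rw [← hn.2]; exact Nat.floor_le h4
  · rw [← hn.2]; exact (Nat.lt_floor_add_one _).le

theorem w2_Jk (lam : ℝ) (k n : ℕ) (_ : 0 < lam) (hn : 1 ≤ n) :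
    Jk lam k n = (lam * ((lam * Real.log n) ^ k / (k.factorial : ℝ) * Real.exp (-(lam * Real.log n)))) / n := by
  have hn0 : (0 : ℝ) < n := by exact_mod_cast hn
  unfold Jk
  have h1 : (n : ℝ) ^ (-1 - lam) = Real.exp (-(lam * Real.log n)) / n := by
    rw [Real.rpow_def_of_pos hn0, div_eq_mul_inv, ← Real.exp_log hn0, ← Real.exp_neg, ← Real.exp_add,
      Real.exp_log hn0]
    congr 1
    ring
  rw [h1, mul_pow, pow_succ]
  ring

/-- Lower tail. Proof: for `n ≥ 1` with `y = lam log n ≤ k/B`: `h_k(y) ≤ y^k/k! ≤ (k/B)^k/k! ≤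
(e/B)^k` (`k^k ≤ e^k k!`, the term of the exponential series), so `Λ(n) Jk(n) ≤ Λ(n)/n lam (e/B)^k`.
There are at most `k/(B lam) + 1` blocks `⌊log n⌋ = j`, each contributing `C lam (e/B)^k`
(`W1_block`): total `C (k/B + lam) (e/B)^k ≤ C (k + 1) (e/B)^k ≤ C (2 e/B)^k` (`k + 1 ≤ 2^k`).
`n = 0` contributes `0`. -/
theorem Jk_low : ∃ C : ℝ, 0 < C ∧ ∀ (lam B : ℝ) (k : ℕ) (s : Finset ℕ), 0 < lam → lam ≤ 1 →
    1 ≤ B → (∀ n ∈ s, lam * Real.log n ≤ k / B) →
    ∑ n ∈ s, Λ n * Jk lam k n ≤ C * (6 / B) ^ k := by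
  obtain ⟨C, hC0, hC⟩ := W1_block
  refine ⟨C, hC0, fun lam B k s hlam hlam1 hB hs => ?_⟩
  have hB0 : 0 < B := by linarith
  obtain ⟨t, ht⟩ : ∃ t, t = s.filter (fun n => 1 ≤ n) := ⟨_, rfl⟩
  have hst : ∑ n ∈ s, Λ n * Jk lam k n = ∑ n ∈ t, Λ n * Jk lam k n := by
    rw [ht]
    symm
    apply Finset.sum_filter_of_ne
    intro n _ hn
    by_contra h0
    have : n = 0 := by omega
    rw [this, ArithmeticFunction.map_zero, zero_mul] at hn
    exact hn rfl
  have htm : ∀ n ∈ t, 1 ≤ n ∧ lam * Real.log n ≤ k / B := by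
    intro n hn
    rw [ht, Finset.mem_filter] at hn
    exact ⟨hn.2, hs n hn.1⟩
  rw [hst]
  have hkf : (0 : ℝ) < k.factorial := by exact_mod_cast Nat.factorial_pos k
  have hkk : (k : ℝ) ^ k / k.factorial ≤ Real.exp k := Real.pow_div_factorial_le_exp _ (Nat.cast_nonneg k) k
  have he3 : Real.exp 1 < 3 := lt_trans Real.exp_one_lt_d9 (by norm_num)
  have hterm : ∀ n ∈ t, Λ n * Jk lam k n ≤ Λ n / n * (lam * (3 / B) ^ k) := by
    intro n hn
    obtain ⟨hn1, hn2⟩ := htm n hn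
    have hl : 0 ≤ Real.log n := Real.log_natCast_nonneg n
    have hy : 0 ≤ lam * Real.log n := by positivity
    rw [w2_Jk lam k n hlam hn1]
    have h1 : (lam * Real.log n) ^ k / (k.factorial : ℝ) * Real.exp (-(lam * Real.log n)) ≤ (3 / B) ^ k := by
      have h2 : (lam * Real.log n) ^ k ≤ (k / B) ^ k := pow_le_pow_left₀ hy hn2 k
      have h3 : Real.exp (-(lam * Real.log n)) ≤ 1 := Real.exp_le_one_iff.2 (by linarith)
      have h4 : (k / B : ℝ) ^ k / k.factorial ≤ (3 / B) ^ k := by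
        rw [div_pow, div_div, mul_comm, ← div_div, div_pow]
        have h5 : (k : ℝ) ^ k / k.factorial ≤ 3 ^ k := by
          refine hkk.trans ?_
          have h6 : Real.exp k = Real.exp 1 ^ k := by rw [← Real.exp_nat_mul, mul_one]
          rw [h6]
          exact pow_le_pow_left₀ (Real.exp_pos _).le he3.le k
        exact div_le_div_of_nonneg_right h5 (by positivity)
      calc (lam * Real.log n) ^ k / (k.factorial : ℝ) * Real.exp (-(lam * Real.log n))
          ≤ (lam * Real.log n) ^ k / (k.factorial : ℝ) * 1 :=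
            mul_le_mul_of_nonneg_left h3 (by positivity)
        _ ≤ (k / B : ℝ) ^ k / k.factorial := by
            rw [mul_one]
            exact div_le_div_of_nonneg_right h2 hkf.le
        _ ≤ _ := h4
    have hL : 0 ≤ Λ n := vonMangoldt_nonneg
    have hn0 : (0 : ℝ) < n := by exact_mod_cast hn1
    calc Λ n * (lam * ((lam * Real.log n) ^ k / (k.factorial : ℝ) * Real.exp (-(lam * Real.log n))) / n)
        = Λ n / n * (lam * ((lam * Real.log n) ^ k / (k.factorial : ℝ) * Real.exp (-(lam * Real.log n)))) := by ring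
      _ ≤ _ := mul_le_mul_of_nonneg_left (mul_le_mul_of_nonneg_left h1 hlam.le) (by positivity)
  refine (Finset.sum_le_sum hterm).trans ?_
  have hlogY : ∀ n ∈ t, Real.log n ≤ k / (B * lam) := by
    intro n hn
    have h1 := (htm n hn).2
    rw [le_div_iff₀ (by positivity)]
    rw [le_div_iff₀ hB0] at h1
    linarith
  have hbl := w2_blocks hC t (fun n hn => (htm n hn).1) (fun _ => lam * (3 / B) ^ k)
    (fun _ => by positivity) (fun _ => lam * (3 / B) ^ k) (fun n _ => le_refl _) (⌊(k : ℝ) / (B * lam)⌋₊ + 1)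
    (fun n hn => Nat.lt_succ_of_le (Nat.floor_le_floor (hlogY n hn)))
  refine hbl.trans ?_
  rw [Finset.sum_const, nsmul_eq_mul, Finset.card_range]
  push_cast
  have hfl : (⌊(k : ℝ) / (B * lam)⌋₊ : ℝ) ≤ k / (B * lam) := Nat.floor_le (by positivity)
  have h2k : (k : ℝ) + 1 ≤ 2 ^ k := by
    have : k + 1 ≤ 2 ^ k := Nat.lt_two_pow_self
    exact_mod_cast this
  have h3B : (0 : ℝ) < (3 / B) ^ k := by positivity
  calc ((⌊(k : ℝ) / (B * lam)⌋₊ : ℝ) + 1) * (C * (lam * (3 / B) ^ k))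
      ≤ (k / (B * lam) + 1) * (C * (lam * (3 / B) ^ k)) :=
        mul_le_mul_of_nonneg_right (by linarith) (by positivity)
    _ = C * ((k / B + lam) * (3 / B) ^ k) := by field_simp
    _ ≤ C * (2 ^ k * (3 / B) ^ k) := by
        have h4 : (k : ℝ) / B ≤ k := div_le_self (Nat.cast_nonneg k) hB
        exact mul_le_mul_of_nonneg_left (mul_le_mul_of_nonneg_right (by linarith) h3B.le) hC0.le
    _ = C * (6 / B) ^ k := by rw [← mul_pow]; congr 2; ring

/-- Upper tail. Proof: for `y = lam log n ≥ B k`, `B ≥ 2`: `h_k(y) = (y^k e^(-y/2)/k!) e^(-y/2)`, and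
`y^k e^(-y/2)` is decreasing for `y ≥ 2 k`, so `h_k(y) ≤ ((B k)^k e^(-B k/2)/k!) e^(-y/2) ≤
(e B e^(-B/2))^k e^(-y/2)` (for `k = 0` directly). Block `j = ⌊log n⌋`: at most
`C lam (e B e^(-B/2))^k e^(-lam j/2)` (`W1_block`), and `∑_j lam e^(-lam j/2) ≤ lam/(1 - e^(-lam/2))
≤ 4` for `lam ≤ 1`. -/
theorem Jk_high : ∃ C : ℝ, 0 < C ∧ ∀ (lam B : ℝ) (k : ℕ) (s : Finset ℕ), 0 < lam → lam ≤ 1 →
    2 ≤ B → (∀ n ∈ s, 1 ≤ n ∧ B * k ≤ lam * Real.log n) →
    ∑ n ∈ s, Λ n * Jk lam k n ≤ C * (3 * B * Real.exp (-(B / 2))) ^ k := by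
  obtain ⟨C, hC0, hC⟩ := W1_block
  refine ⟨4 * C, by positivity, fun lam B k s hlam hlam1 hB hs => ?_⟩
  have hB0 : 0 < B := by linarith
  have hkf : (0 : ℝ) < k.factorial := by exact_mod_cast Nat.factorial_pos k
  have he3 : Real.exp 1 < 3 := lt_trans Real.exp_one_lt_d9 (by norm_num)
  obtain ⟨D, hD⟩ : ∃ D, D = (3 * B * Real.exp (-(B / 2))) ^ k := ⟨_, rfl⟩
  have hD0 : 0 < D := by rw [hD]; positivity
  rw [← hD]
  have hterm : ∀ n ∈ s, Λ n * Jk lam k n ≤ Λ n / n * (lam * D * Real.exp (-(lam / 2) * Real.log n)) := by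
    intro n hn
    obtain ⟨hn1, hn2⟩ := hs n hn
    have hl : 0 ≤ Real.log n := Real.log_natCast_nonneg n
    obtain ⟨y, hy⟩ : ∃ y, y = lam * Real.log n := ⟨_, rfl⟩
    have hy0 : 0 ≤ y := by rw [hy]; positivity
    rw [w2_Jk lam k n hlam hn1, ← hy]
    rw [← hy] at hn2
    have h1 : y ^ k / (k.factorial : ℝ) * Real.exp (-y) ≤ D * Real.exp (-(lam / 2) * Real.log n) := by
      have h2 : (y / B) ^ k / (k.factorial : ℝ) ≤ Real.exp (y / B) :=
        Real.pow_div_factorial_le_exp _ (by positivity) k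
      have h3 : y ^ k / (k.factorial : ℝ) ≤ B ^ k * Real.exp (y / B) := by
        rw [div_pow] at h2
        have h4 : y ^ k / (k.factorial : ℝ) = B ^ k * (y ^ k / B ^ k / (k.factorial : ℝ)) := by
          field_simp
        rw [h4]
        exact mul_le_mul_of_nonneg_left h2 (by positivity)
      have h5 : Real.exp (y / B) * Real.exp (-y) ≤ (3 * Real.exp (-(B / 2))) ^ k * Real.exp (-(y / 2)) := by
        have h6 : Real.exp (y / B) * Real.exp (-y) ≤ Real.exp ((k : ℝ) * (1 + -(B / 2))) * Real.exp (-(y / 2)) := by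
          rw [← Real.exp_add, ← Real.exp_add]
          apply Real.exp_le_exp.2
          have h7 : (B * k) * (1 / 2 - 1 / B) ≤ y * (1 / 2 - 1 / B) := by
            refine mul_le_mul_of_nonneg_right hn2 ?_
            rw [sub_nonneg]
            exact one_div_le_one_div_of_le (by norm_num) hB
          have h8 : (B * k) * (1 / 2 - 1 / B) = B * k / 2 - k := by field_simp
          rw [h8] at h7
          have h9 : y * (1 / 2 - 1 / B) = y / 2 - y / B := by ring
          rw [h9] at h7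
          linarith
        refine h6.trans (mul_le_mul_of_nonneg_right ?_ (Real.exp_pos _).le)
        rw [Real.exp_nat_mul, Real.exp_add]
        exact pow_le_pow_left₀ (by positivity) (mul_le_mul_of_nonneg_right he3.le (Real.exp_pos _).le) k
      have h10 : Real.exp (-(lam / 2) * Real.log n) = Real.exp (-(y / 2)) := by
        rw [hy]; congr 1; ring
      rw [h10]
      calc y ^ k / (k.factorial : ℝ) * Real.exp (-y) ≤ B ^ k * Real.exp (y / B) * Real.exp (-y) :=
            mul_le_mul_of_nonneg_right h3 (Real.exp_pos _).le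
        _ = B ^ k * (Real.exp (y / B) * Real.exp (-y)) := by ring
        _ ≤ B ^ k * ((3 * Real.exp (-(B / 2))) ^ k * Real.exp (-(y / 2))) :=
            mul_le_mul_of_nonneg_left h5 (by positivity)
        _ = D * Real.exp (-(y / 2)) := by
            rw [hD, ← mul_assoc, ← mul_pow]
            congr 2
            ring
    have hL : 0 ≤ Λ n := vonMangoldt_nonneg
    have hn0 : (0 : ℝ) < n := by exact_mod_cast hn1
    calc Λ n * (lam * (y ^ k / (k.factorial : ℝ) * Real.exp (-y)) / n)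
        = Λ n / n * (lam * (y ^ k / (k.factorial : ℝ) * Real.exp (-y))) := by ring
      _ ≤ Λ n / n * (lam * (D * Real.exp (-(lam / 2) * Real.log n))) :=
          mul_le_mul_of_nonneg_left (mul_le_mul_of_nonneg_left h1 hlam.le) (by positivity)
      _ = _ := by ring
  refine (Finset.sum_le_sum hterm).trans ?_
  obtain ⟨M, hM⟩ : ∃ M : ℕ, ∀ n ∈ s, ⌊Real.log n⌋₊ < M := by
    refine ⟨(s.sup fun n : ℕ => ⌊Real.log n⌋₊) + 1, fun n hn => Nat.lt_succ_of_le ?_⟩
    exact Finset.le_sup (f := fun n : ℕ => ⌊Real.log n⌋₊) hn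
  have hbl := w2_blocks hC s (fun n hn => (hs n hn).1) (fun j => lam * D * Real.exp (-(lam / 2)) ^ j)
    (fun _ => by positivity) (fun n => lam * D * Real.exp (-(lam / 2) * Real.log n)) (fun n hn => by
      refine mul_le_mul_of_nonneg_left ?_ (by positivity)
      rw [← Real.exp_nat_mul]
      apply Real.exp_le_exp.2
      have h1 : (⌊Real.log n⌋₊ : ℝ) ≤ Real.log n := Nat.floor_le (Real.log_natCast_nonneg n)
      nlinarith) M hM
  refine hbl.trans ?_
  have hgeo : ∑ j ∈ range M, Real.exp (-(lam / 2)) ^ j ≤ 4 / lam := by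
    have hr1 : Real.exp (-(lam / 2)) < 1 := Real.exp_lt_one_iff.2 (by linarith)
    have hr0 : 0 < Real.exp (-(lam / 2)) := Real.exp_pos _
    have h1 : ∑ j ∈ range M, Real.exp (-(lam / 2)) ^ j ≤ (1 - Real.exp (-(lam / 2)))⁻¹ := by
      rw [← tsum_geometric_of_lt_one hr0.le hr1]
      exact (summable_geometric_of_lt_one hr0.le hr1).sum_le_tsum _ (fun i _ => by positivity)
    refine h1.trans ?_
    have h2 : lam / 4 ≤ 1 - Real.exp (-(lam / 2)) := by
      have h3 : 1 + lam / 2 ≤ Real.exp (lam / 2) := by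
        have := Real.add_one_le_exp (lam / 2)
        linarith
      have h4 : Real.exp (-(lam / 2)) ≤ 1 / (1 + lam / 2) := by
        rw [Real.exp_neg, inv_eq_one_div]
        exact one_div_le_one_div_of_le (by positivity) h3
      have h5 : 1 / (1 + lam / 2) ≤ 1 - lam / 4 := by
        rw [div_le_iff₀ (by positivity)]
        nlinarith
      linarith
    rw [inv_eq_one_div]
    refine (one_div_le_one_div_of_le (by positivity) h2).trans (le_of_eq ?_)
    rw [one_div_div]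
  calc ∑ j ∈ range M, C * (lam * D * Real.exp (-(lam / 2)) ^ j)
      = C * (lam * D) * ∑ j ∈ range M, Real.exp (-(lam / 2)) ^ j := by
        rw [Finset.mul_sum]
        exact Finset.sum_congr rfl fun j _ => by ring
    _ ≤ C * (lam * D) * (4 / lam) := mul_le_mul_of_nonneg_left hgeo (by positivity)
    _ = 4 * C * D := by field_simp

end Pool.Agent.Lib.H18Q
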