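import Pool.Agent.Lib.H18Q.Z0
import Pool.Agent.Lib.H68T.LAN

/-!
# Project H18Q, chunk Z1: derivatives of the logarithmic derivative
-/

open Finset

namespace Pool.Agent.Lib.H18Q

/-- Derivatives of `1/(s - ρ)`. -/
theorem z1_inv (ρ s₀ : ℂ) (k : ℕ) :
    iteratedDeriv k (fun s => (s - ρ)⁻¹) s₀ =
      (k.factorial : ℂ) * ((-1) ^ k * (1 / (s₀ - ρ)) ^ (k + 1)) := by
  have h1 := iter_deriv_inv_linear_sub k (1 : ℂ) ρ
  have h2 : (fun s : ℂ => (s - ρ)⁻¹) = (fun s : ℂ => (1 * s - ρ)⁻¹) := by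
    funext s
    rw [one_mul]
  rw [iteratedDeriv_eq_iterate, h2, h1]
  simp only [one_pow, mul_one, one_mul]
  have h3 : (-1 - (k : ℤ)) = -((k + 1 : ℕ) : ℤ) := by push_cast; ring
  rw [h3, zpow_neg, zpow_natCast, one_div, inv_pow]
  ring

/-- Higher derivatives of `f'/f` and the zeros near `s₀`.

Proof. Let `S = ZD f s₀ (R/2)` and `f = P h`, `P(s) = ∏_{ρ ∈ S} (s - ρ)^(od f ρ)` (`od_factor`).
Then `h ≠ 0` on `closedBall s₀ (R/2)`: a zero of `h` there is a zero of `f`, so in `S`, where `h`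
does not vanish. For `|s - s₀| = R` and `ρ ∈ S`: `|s - ρ| ≥ R - R/2 = R/2 ≥ |s₀ - ρ|`, so
`|P(s)| ≥ |P(s₀)| > 0` and `|h(s)| ≤ exp M |h(s₀)|` on the sphere, hence in the ball (maximum
principle, `Complex.norm_le_of_forall_mem_frontier_norm_le`). By `LAN_zero_free` (file `H68T/LAN`)
`|h'/h| ≤ 48 (M+1)/R` on `closedBall s₀ (R/4)`. Cauchy's estimate for the `k`-th derivative of the
function `logDeriv h` (analytic near that ball, `h ≠ 0` on `closedBall s₀ (R/2)`):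
`|iteratedDeriv k (logDeriv h) s₀| ≤ k! 48 (M+1)/R (4/R)^k`
(`Complex.norm_iteratedDeriv_le_of_forall_mem_sphere_norm_le`). Near `s₀`, `logDeriv f = ∑_{ρ ∈ S}
od f ρ / (s - ρ) + logDeriv h` (`f s₀ ≠ 0`; `logDeriv_mul`, `logDeriv_prod`, `logDeriv_pow`), and
`iteratedDeriv k (fun s => 1/(s - ρ)) s₀ = (-1)^k k! / (s₀ - ρ)^(k+1)`
(`iteratedDeriv_inv`-type lemmas or induction). -/
theorem landau_k : ∃ A : ℝ, 0 < A ∧ ∀ (f : ℂ → ℂ) (s₀ : ℂ) (R M : ℝ), 0 < R → 0 ≤ M →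
    Differentiable ℂ f → f s₀ ≠ 0 →
    (∀ s ∈ Metric.closedBall s₀ R, ‖f s‖ ≤ Real.exp M * ‖f s₀‖) → ∀ k : ℕ,
    ‖iteratedDeriv k (logDeriv f) s₀ / (k.factorial : ℂ) -
      (-1) ^ k * ∑ ρ ∈ ZD f s₀ (R / 2), (od f ρ : ℂ) * (1 / (s₀ - ρ)) ^ (k + 1)‖ ≤
        A * (M + 1) / R * (4 / R) ^ k := by
  refine ⟨48, by norm_num, ?_⟩
  intro f s₀ R M hR hM hf hfs hb k
  classical
  have hne : ∃ c, f c ≠ 0 := ⟨s₀, hfs⟩
  obtain ⟨S, hSdef⟩ : ∃ S : Finset ℂ, S = ZD f s₀ (R / 2) := ⟨_, rfl⟩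
  rw [← hSdef]
  have hmem : ∀ ρ, ρ ∈ S ↔ f ρ = 0 ∧ ‖ρ - s₀‖ ≤ R / 2 := by
    intro ρ
    rw [hSdef]
    exact mem_ZD hf hne
  obtain ⟨h, hd, h0, hfac⟩ := od_factor hf hne S
  set P : ℂ → ℂ := fun s => ∏ ρ ∈ S, (s - ρ) ^ od f ρ with hP
  have hfac' : ∀ s, f s = P s * h s := hfac
  have hPs : P s₀ ≠ 0 := by
    intro h1
    apply hfs
    rw [hfac', h1, zero_mul]
  have hhs : h s₀ ≠ 0 := by
    intro h1
    apply hfs
    rw [hfac', h1, mul_zero]
  have hh0 : ∀ s ∈ Metric.closedBall s₀ (R / 2), h s ≠ 0 := by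
    intro s hs h1
    rw [mem_closedBall_iff_norm] at hs
    exact h0 s ((hmem s).2 ⟨by rw [hfac', h1, mul_zero], hs⟩) h1
  have hPmono : ∀ s ∈ Metric.sphere s₀ R, ‖P s₀‖ ≤ ‖P s‖ := by
    intro s hs
    rw [mem_sphere_iff_norm] at hs
    simp only [hP]
    rw [norm_prod, norm_prod]
    refine Finset.prod_le_prod (fun ρ _ => norm_nonneg _) fun ρ hρ => ?_
    rw [norm_pow, norm_pow]
    refine pow_le_pow_left₀ (norm_nonneg _) ?_ _
    have h1 := ((hmem ρ).1 hρ).2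
    have h2 : ‖s - s₀‖ ≤ ‖s - ρ‖ + ‖ρ - s₀‖ := by
      have := norm_add_le (s - ρ) (ρ - s₀)
      rwa [sub_add_sub_cancel] at this
    rw [norm_sub_rev s₀ ρ]
    linarith
  have hPpos : 0 < ‖P s₀‖ := norm_pos_iff.2 hPs
  have hsph : ∀ s ∈ Metric.sphere s₀ R, ‖h s‖ ≤ Real.exp M * ‖h s₀‖ := by
    intro s hs
    have h1 := hb s (Metric.sphere_subset_closedBall hs)
    rw [hfac' s, hfac' s₀, norm_mul, norm_mul] at h1
    have h2 := hPmono s hs
    have h3 : 0 < ‖P s‖ := lt_of_lt_of_le hPpos h2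
    have h4 : ‖P s‖ * ‖h s‖ ≤ ‖P s‖ * (Real.exp M * ‖h s₀‖) := by
      calc ‖P s‖ * ‖h s‖ ≤ Real.exp M * (‖P s₀‖ * ‖h s₀‖) := h1
        _ = ‖P s₀‖ * (Real.exp M * ‖h s₀‖) := by ring
        _ ≤ ‖P s‖ * (Real.exp M * ‖h s₀‖) := by
            refine mul_le_mul_of_nonneg_right h2 ?_
            positivity
    exact le_of_mul_le_mul_left h4 h3
  have hball : ∀ s ∈ Metric.closedBall s₀ R, ‖h s‖ ≤ Real.exp M * ‖h s₀‖ := by
    intro s hs
    refine Complex.norm_le_of_forall_mem_frontier_norm_le (U := Metric.ball s₀ R)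
      Metric.isBounded_ball hd.diffContOnCl ?_ ?_
    · intro z hz
      rw [frontier_ball _ hR.ne'] at hz
      exact hsph z hz
    · rw [closure_ball _ hR.ne']
      exact hs
  have hLAN := Pool.Agent.Lib.H68T.LAN_zero_free h s₀ R M hR hM
    (fun z _ => hd.analyticAt z) hh0 hball
  have hdiff : DifferentiableOn ℂ (logDeriv h) (Metric.ball s₀ (R / 2)) := by
    intro s hs
    have h1 : DifferentiableAt ℂ (fun s => deriv h s / h s) s :=
      ((hd.analyticAt s).deriv.differentiableAt).div (hd s) (hh0 s (Metric.ball_subset_closedBall hs))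
    exact h1.differentiableWithinAt
  have hcl : DiffContOnCl ℂ (logDeriv h) (Metric.ball s₀ (R / 4)) := by
    refine DifferentiableOn.diffContOnCl ?_
    rw [closure_ball _ (by positivity)]
    exact hdiff.mono (Metric.closedBall_subset_ball (by linarith))
  have hcau := Complex.norm_iteratedDeriv_le_of_forall_mem_sphere_norm_le k
    (by positivity : 0 < R / 4) hcl (C := 48 * (M + 1) / R)
    (fun z hz => by
      rw [logDeriv_apply]
      exact hLAN z (Metric.sphere_subset_closedBall hz))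
  -- the formula near `s₀`
  have hSne : ∀ ρ ∈ S, s₀ - ρ ≠ 0 := by
    intro ρ hρ h1
    rw [sub_eq_zero] at h1
    apply hfs
    rw [h1]
    exact ((hmem ρ).1 hρ).1
  have hev : logDeriv f =ᶠ[nhds s₀]
      fun s => (∑ ρ ∈ S, (od f ρ : ℂ) * (s - ρ)⁻¹) + logDeriv h s := by
    have hPd : Differentiable ℂ P := by
      simp only [hP]
      fun_prop
    have e1 : ∀ᶠ s in nhds s₀, P s ≠ 0 := hPd.continuous.continuousAt.eventually_ne hPs
    have e2 : ∀ᶠ s in nhds s₀, h s ≠ 0 := hd.continuous.continuousAt.eventually_ne hhs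
    have e3 : ∀ᶠ s in nhds s₀, ∀ ρ ∈ S, s - ρ ≠ 0 := by
      rw [Filter.eventually_all_finset]
      intro ρ hρ
      exact (continuous_id.sub continuous_const).continuousAt.eventually_ne (hSne ρ hρ)
    filter_upwards [e1, e2, e3] with s hs1 hs2 hs3
    have h1 : f = fun s => P s * h s := funext hfac'
    have h2 : logDeriv P s = ∑ ρ ∈ S, (od f ρ : ℂ) * (s - ρ)⁻¹ := by
      have h3 : P = fun s => ∏ ρ ∈ S, (fun z : ℂ => (z - ρ) ^ od f ρ) s := rfl
      rw [h3, logDeriv_prod]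
      · refine Finset.sum_congr rfl fun ρ _ => ?_
        rw [logDeriv_fun_pow (by fun_prop)]
        congr 1
        rw [logDeriv_apply]
        simp
      · intro ρ hρ
        exact pow_ne_zero _ (hs3 ρ hρ)
      · intro ρ _
        fun_prop
    rw [← h2]
    conv_lhs => rw [h1]
    exact logDeriv_mul s hs1 hs2 (hPd s) (hd s)
  have hana : ∀ ρ ∈ S, ContDiffAt ℂ k (fun s => (od f ρ : ℂ) * (s - ρ)⁻¹) s₀ := by
    intro ρ hρ
    refine contDiffAt_const.mul ?_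
    exact (contDiffAt_id.sub contDiffAt_const).inv (hSne ρ hρ)
  have hanah : ContDiffAt ℂ k (logDeriv h) s₀ := by
    refine AnalyticAt.contDiffAt ?_
    exact (hd.analyticAt s₀).deriv.div (hd.analyticAt s₀) hhs
  have hiter : iteratedDeriv k (logDeriv f) s₀ =
      (k.factorial : ℂ) * ((-1) ^ k * ∑ ρ ∈ S, (od f ρ : ℂ) * (1 / (s₀ - ρ)) ^ (k + 1)) +
        iteratedDeriv k (logDeriv h) s₀ := by
    rw [(hev.iteratedDeriv_eq k)]
    have h1 : (fun s => (∑ ρ ∈ S, (od f ρ : ℂ) * (s - ρ)⁻¹) + logDeriv h s) =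
        (fun s => ∑ ρ ∈ S, (od f ρ : ℂ) * (s - ρ)⁻¹) + logDeriv h := rfl
    rw [h1, iteratedDeriv_add (ContDiffAt.sum hana) hanah, iteratedDeriv_fun_sum hana]
    congr 1
    rw [Finset.mul_sum, Finset.mul_sum]
    refine Finset.sum_congr rfl fun ρ hρ => ?_
    rw [iteratedDeriv_const_mul_field, z1_inv]
    ring
  have hk0 : (k.factorial : ℂ) ≠ 0 := by exact_mod_cast k.factorial_ne_zero
  have hkp : (0 : ℝ) < (k.factorial : ℝ) := by exact_mod_cast k.factorial_pos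
  have hdiv : iteratedDeriv k (logDeriv f) s₀ / (k.factorial : ℂ) -
      (-1) ^ k * ∑ ρ ∈ S, (od f ρ : ℂ) * (1 / (s₀ - ρ)) ^ (k + 1) =
      iteratedDeriv k (logDeriv h) s₀ / (k.factorial : ℂ) := by
    rw [hiter]
    field_simp
    ring
  rw [hdiv, norm_div, Complex.norm_natCast]
  rw [div_le_iff₀ hkp]
  refine hcau.trans (le_of_eq ?_)
  rw [div_pow, div_pow]
  have hR4 : (4 : ℝ) ^ k ≠ 0 := by positivity
  have hRk : R ^ k ≠ 0 := by positivity
  field_simp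

end Pool.Agent.Lib.H18Q
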